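import Pool.Agent.Helper1.Stab.Biv

/-! Grassmannians of Hermitian projections and theories over `S[BU]`. -/

open Topology Filter Set Matrix

noncomputable section

namespace Pool.Agent.Helper1.Stab

/-- The Hermitian projections of rank `|κ|` on `ℂ^(κ × Bool)`. -/
def GK (κ : Type) [Fintype κ] : Type :=
  {P : Matrix (κ × Bool) (κ × Bool) ℂ // Pᴴ = P ∧ P * P = P ∧ P.trace = Fintype.card κ}

instance (κ : Type) [Fintype κ] : TopologicalSpace (GK κ) :=
  inferInstanceAs (TopologicalSpace (Subtype _))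

instance (κ : Type) [Fintype κ] : T2Space (GK κ) := inferInstanceAs (T2Space (Subtype _))

theorem GK.entry_le {ι : Type} [Fintype ι] (P : Matrix ι ι ℂ) (h : Pᴴ = P) (h2 : P * P = P)
    (x y : ι) : ‖P x y‖ ≤ 1 := by
  have h3 : P y y = ((∑ z, ‖P z y‖ ^ 2 : ℝ) : ℂ) := by
    conv_lhs => rw [← h2, Matrix.mul_apply]
    push_cast
    refine Finset.sum_congr rfl fun z _ => ?_
    have h4 : P y z = star (P z y) := by
      conv_lhs => rw [← h, Matrix.conjTranspose_apply]
    rw [h4, Complex.star_def, Complex.conj_mul']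
  have hs : ∀ z, ‖P z y‖ ^ 2 ≤ ∑ z, ‖P z y‖ ^ 2 := fun z =>
    Finset.single_le_sum (f := fun z => ‖P z y‖ ^ 2) (fun i _ => sq_nonneg _) (Finset.mem_univ z)
  obtain ⟨r, hr⟩ : ∃ r, r = ∑ z, ‖P z y‖ ^ 2 := ⟨_, rfl⟩
  rw [← hr] at h3 hs
  have h0 : 0 ≤ r := (sq_nonneg _).trans (hs y)
  have h5 := hs y
  rw [h3, Complex.norm_real, Real.norm_eq_abs, abs_of_nonneg h0] at h5
  have h6 : r ≤ 1 := by
    by_contra hc
    push Not at hc
    nlinarith
  have h7 := hs x
  nlinarith [norm_nonneg (P x y)]

instance (κ : Type) [Fintype κ] : CompactSpace (GK κ) := by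
  have h : IsCompact {P : Matrix (κ × Bool) (κ × Bool) ℂ |
      Pᴴ = P ∧ P * P = P ∧ P.trace = Fintype.card κ} := by
    have hK : IsCompact (Set.pi univ (fun _ : κ × Bool => Set.pi univ
        (fun _ : κ × Bool => Metric.closedBall (0 : ℂ) 1))) :=
      isCompact_univ_pi fun _ => isCompact_univ_pi fun _ => isCompact_closedBall _ _
    refine IsCompact.of_isClosed_subset hK ?_ ?_
    · refine IsClosed.inter ?_ (IsClosed.inter ?_ ?_)
      · exact isClosed_eq continuous_id.matrix_conjTranspose continuous_id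
      · exact isClosed_eq (continuous_id.matrix_mul continuous_id) continuous_id
      · exact isClosed_eq continuous_id.matrix_trace continuous_const
    · intro P hP x _ y _
      rw [mem_closedBall_zero_iff]
      exact GK.entry_le P hP.1 hP.2.1 x y
  exact isCompact_iff_compactSpace.1 h

/-- the Grassmannian as a locally compact space -/
abbrev LC.G (κ : Type) [Fintype κ] : LC := ⟨GK κ⟩

open Classical in
/-- the base point: the projection onto `ℂ^κ × {true}` -/
def GK.base (κ : Type) [Fintype κ] : GK κ :=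
  ⟨fun x y => if x = y ∧ x.2 = true then 1 else 0, by
    refine ⟨?_, ?_, ?_⟩
    · ext x y
      rw [Matrix.conjTranspose_apply]
      by_cases h : x = y
      · subst h
        by_cases h2 : x.2 = true <;> simp [h2]
      · rw [if_neg (fun h' => h h'.1.symm), if_neg (fun h' => h h'.1), star_zero]
    · ext x y
      rw [Matrix.mul_apply, Finset.sum_eq_single x]
      · by_cases h2 : x.2 = true <;> simp [h2]
      · intro b _ hb
        rw [if_neg (fun h' => hb h'.1.symm), zero_mul]
      · intro h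
        exact absurd (Finset.mem_univ _) h
    · rw [Matrix.trace, Fintype.sum_prod_type]
      simp [Matrix.diag_apply]⟩

/-- block sum, as a matrix -/
def sumFun {κ l : Type} (P : Matrix (κ × Bool) (κ × Bool) ℂ)
    (Q : Matrix (l × Bool) (l × Bool) ℂ) : Matrix ((κ ⊕ l) × Bool) ((κ ⊕ l) × Bool) ℂ
  | (.inl i, b), (.inl j, c) => P (i, b) (j, c)
  | (.inr i, b), (.inr j, c) => Q (i, b) (j, c)
  | _, _ => 0

/-- block sum -/
def GK.sum {κ l : Type} [Fintype κ] [Fintype l] (x : GK κ × GK l) : GK (κ ⊕ l) :=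
  ⟨sumFun x.1.1 x.2.1, by
    refine ⟨?_, ?_, ?_⟩
    · ext ⟨i | i, b⟩ ⟨j | j, c⟩
      · exact congrFun (congrFun x.1.2.1 (i, b)) (j, c)
      · rw [Matrix.conjTranspose_apply]
        exact star_zero ℂ
      · rw [Matrix.conjTranspose_apply]
        exact star_zero ℂ
      · exact congrFun (congrFun x.2.2.1 (i, b)) (j, c)
    · ext ⟨i | i, b⟩ ⟨j | j, c⟩
      · have h := congrFun (congrFun x.1.2.2.1 (i, b)) (j, c)
        rw [Matrix.mul_apply, Fintype.sum_prod_type] at h
        rw [Matrix.mul_apply, Fintype.sum_prod_type, Fintype.sum_sum_type]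
        simp only [sumFun, mul_zero, Finset.sum_const_zero, add_zero]
        exact h
      · rw [Matrix.mul_apply, Fintype.sum_prod_type, Fintype.sum_sum_type]
        simp only [sumFun, mul_zero, zero_mul, Finset.sum_const_zero, add_zero]
      · rw [Matrix.mul_apply, Fintype.sum_prod_type, Fintype.sum_sum_type]
        simp only [sumFun, mul_zero, zero_mul, Finset.sum_const_zero, add_zero]
      · have h := congrFun (congrFun x.2.2.2.1 (i, b)) (j, c)
        rw [Matrix.mul_apply, Fintype.sum_prod_type] at h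
        rw [Matrix.mul_apply, Fintype.sum_prod_type, Fintype.sum_sum_type]
        simp only [sumFun, mul_zero, Finset.sum_const_zero, zero_add]
        exact h
    · have h1 := x.1.2.2.2
      have h2 := x.2.2.2.2
      rw [Matrix.trace, Fintype.sum_prod_type] at h1 h2
      simp only [Matrix.diag_apply] at h1 h2
      rw [Matrix.trace, Fintype.sum_prod_type, Fintype.sum_sum_type, Fintype.card_sum, Nat.cast_add]
      exact congrArg₂ (· + ·) h1 h2⟩

theorem GK.continuous_sum {κ l : Type} [Fintype κ] [Fintype l] :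
    Continuous (GK.sum : GK κ × GK l → GK (κ ⊕ l)) := by
  refine Continuous.subtype_mk ?_ _
  refine continuous_pi fun a => continuous_pi fun c => ?_
  have hP : ∀ y z : κ × Bool, Continuous (fun x : GK κ × GK l => x.1.1 y z) := fun y z =>
    (continuous_apply z).comp ((continuous_apply y).comp (continuous_subtype_val.comp continuous_fst))
  have hQ : ∀ y z : l × Bool, Continuous (fun x : GK κ × GK l => x.2.1 y z) := fun y z =>
    (continuous_apply z).comp ((continuous_apply y).comp (continuous_subtype_val.comp continuous_snd))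
  rcases a with ⟨i | i, b⟩ <;> rcases c with ⟨j | j, d⟩
  · exact hP (i, b) (j, d)
  · exact continuous_const
  · exact continuous_const
  · exact hQ (i, b) (j, d)

theorem GK.reindex_aux {κ l : Type} [Fintype κ] [Fintype l] (e : l ≃ κ) (P : GK κ) :
    let M : Matrix (l × Bool) (l × Bool) ℂ := fun x y => P.1 (e x.1, x.2) (e y.1, y.2)
    Mᴴ = M ∧ M * M = M ∧ M.trace = Fintype.card l := by
  intro M
  refine ⟨?_, ?_, ?_⟩
  · ext x y
    exact congrFun (congrFun P.2.1 (e x.1, x.2)) (e y.1, y.2)
  · ext x y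
    have h := congrFun (congrFun P.2.2.1 (e x.1, x.2)) (e y.1, y.2)
    rw [Matrix.mul_apply, Fintype.sum_prod_type] at h
    rw [Matrix.mul_apply, Fintype.sum_prod_type]
    refine Eq.trans ?_ h
    exact e.sum_comp (fun i => ∑ b : Bool, P.1 (e x.1, x.2) (i, b) * P.1 (i, b) (e y.1, y.2))
  · have h := P.2.2.2
    rw [Matrix.trace, Fintype.sum_prod_type] at h
    rw [Matrix.trace, Fintype.sum_prod_type, Fintype.card_congr e, ← h]
    exact e.sum_comp (fun i => ∑ b : Bool, P.1.diag (i, b))

theorem GK.reindex_cont {κ l : Type} [Fintype κ] [Fintype l] (e : l ≃ κ) :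
    Continuous (fun P : GK κ => (fun x y => P.1 (e x.1, x.2) (e y.1, y.2) :
      Matrix (l × Bool) (l × Bool) ℂ)) :=
  continuous_pi fun _ => continuous_pi fun _ =>
    (continuous_apply _).comp ((continuous_apply _).comp continuous_subtype_val)

/-- renaming the coordinates -/
def GK.reindex {κ l : Type} [Fintype κ] [Fintype l] (e : κ ≃ l) : GK κ ≃ₜ GK l where
  toFun P := ⟨fun x y => P.1 (e.symm x.1, x.2) (e.symm y.1, y.2), by
    exact GK.reindex_aux e.symm P⟩
  invFun P := ⟨fun x y => P.1 (e x.1, x.2) (e y.1, y.2), by exact GK.reindex_aux e P⟩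
  left_inv P := by
    refine Subtype.ext ?_
    ext x y
    simp
  right_inv P := by
    refine Subtype.ext ?_
    ext x y
    simp
  continuous_toFun := by exact Continuous.subtype_mk (GK.reindex_cont e.symm) _
  continuous_invFun := by exact Continuous.subtype_mk (GK.reindex_cont e) _

/-- conjugation with a unitary matrix -/
def GK.conj {κ : Type} [Fintype κ] [DecidableEq κ] (g : Matrix.unitaryGroup (κ × Bool) ℂ) (P : GK κ) :
    GK κ := ⟨g.1 * P.1 * (g.1)ᴴ, by
  have hg : (g.1)ᴴ * g.1 = 1 := by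
    have := (Matrix.mem_unitaryGroup_iff').1 g.2
    rwa [Matrix.star_eq_conjTranspose] at this
  refine ⟨?_, ?_, ?_⟩
  · rw [Matrix.conjTranspose_mul, Matrix.conjTranspose_mul, Matrix.conjTranspose_conjTranspose,
      P.2.1, Matrix.mul_assoc]
  · calc g.1 * P.1 * (g.1)ᴴ * (g.1 * P.1 * (g.1)ᴴ)
        = g.1 * P.1 * ((g.1)ᴴ * g.1) * P.1 * (g.1)ᴴ := by simp only [Matrix.mul_assoc]
      _ = g.1 * (P.1 * P.1) * (g.1)ᴴ := by rw [hg, Matrix.mul_one, Matrix.mul_assoc g.1]
      _ = g.1 * P.1 * (g.1)ᴴ := by rw [P.2.2.1]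
  · rw [Matrix.trace_mul_comm, ← Matrix.mul_assoc, hg, Matrix.one_mul, P.2.2.2]⟩

/-- block sum as a map of locally compact spaces -/
def GK.sumMap (κ l : Type) [Fintype κ] [Fintype l] :
    PMap ((LC.G κ).prod (LC.G l)) (LC.G (κ ⊕ l)).plus :=
  PMap.ofProper (K := (LC.G κ).prod (LC.G l)) (L := LC.G (κ ⊕ l)) GK.sum GK.continuous_sum (by
    rw [cocompact_eq_bot]; exact tendsto_bot)

/-- a point of a compact space -/
def PMap.ofPoint {K : LC} (k : K) : PMap LC.point K.plus :=
  PMap.ofProper (K := LC.point) (fun _ => k) continuous_const (by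
    rw [cocompact_eq_bot]; exact tendsto_bot)

/-- the map to a point of a compact space -/
def PMap.toPoint (K : LC) [CompactSpace K] : PMap K LC.point.plus :=
  PMap.ofProper (L := LC.point) (fun _ => PUnit.unit) continuous_const (by
    rw [cocompact_eq_bot]; exact tendsto_bot)

/-- A bivariant theory over `S[BU]`: it has classes `g κ ∈ R(G κ, pt)` of the tautological
bundles. -/
structure GBiv extends Biv where
  g : ∀ (κ : Type) [Fintype κ], Hom (LC.G κ) LC.point
  g_base : ∀ (κ : Type) [Fintype κ],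
    comp (J (PMap.ofPoint (K := LC.G κ) (GK.base κ))) (g κ) = J (PMap.id LC.point)
  g_reindex : ∀ {κ l : Type} [Fintype κ] [Fintype l] (e : κ ≃ l),
    comp (J (PMap.ofHomeo (K := LC.G κ) (L := LC.G l) (GK.reindex e))) (g l) = g κ
  g_sum : ∀ (κ l : Type) [Fintype κ] [Fintype l],
    comp (J (GK.sumMap κ l)) (g (κ ⊕ l)) =
      comp (comp (tens (g κ) (LC.G l)) (toBivData.ltens LC.point (g l)))
        (J (PMap.ofHomeo (Homeomorph.prodPUnit LC.point : LC.point.prod LC.point ≃ₜ LC.point)))

/-! ## Data of a localisation -/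

/-- block diagonal matrix -/
def blockDiag {ι a : Type} [Fintype ι] [Fintype a] (P : ι → GK a) : GK (ι × a) :=
  ⟨fun x y => open Classical in
    if x.1.1 = y.1.1 then (P x.1.1).1 (x.1.2, x.2) (y.1.2, y.2) else 0, by
    classical
    refine ⟨?_, ?_, ?_⟩
    · ext x y
      rw [Matrix.conjTranspose_apply]
      by_cases h : x.1.1 = y.1.1
      · have h2 := congrFun (congrFun (P x.1.1).2.1 (x.1.2, x.2)) (y.1.2, y.2)
        rw [Matrix.conjTranspose_apply] at h2
        rw [if_pos h, if_pos h.symm, ← h]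
        exact h2
      · rw [if_neg h, if_neg (fun h' => h h'.symm), star_zero]
    · ext x y
      rw [Matrix.mul_apply, Fintype.sum_prod_type, Fintype.sum_prod_type,
        Finset.sum_eq_single x.1.1]
      · by_cases h : x.1.1 = y.1.1
        · have h2 := congrFun (congrFun (P x.1.1).2.2.1 (x.1.2, x.2)) (y.1.2, y.2)
          rw [Matrix.mul_apply, Fintype.sum_prod_type] at h2
          simp only [if_pos h, if_true]
          exact h2
        · simp only [if_neg h, mul_zero, Finset.sum_const_zero]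
      · intro i _ hi
        refine Finset.sum_eq_zero fun j _ => Finset.sum_eq_zero fun b _ => ?_
        rw [if_neg (fun h' => hi h'.symm), zero_mul]
      · intro h
        exact absurd (Finset.mem_univ _) h
    · rw [Matrix.trace, Fintype.sum_prod_type, Fintype.sum_prod_type]
      have h2 : ∀ i : ι, ∑ j : a, ∑ b : Bool, (P i).1 (j, b) (j, b) = (Fintype.card a : ℂ) := by
        intro i
        have h3 := (P i).2.2.2
        rw [Matrix.trace, Fintype.sum_prod_type] at h3
        exact h3
      simp only [Matrix.diag_apply, if_true]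
      rw [Finset.sum_congr rfl fun i _ => h2 i, Finset.sum_const, Finset.card_univ,
        Fintype.card_prod, nsmul_eq_mul]
      push_cast
      rfl⟩

/-- `ι ⊔ ι × a = ι × (1 ⊔ a)` -/
def optEquiv (ι a : Type) : ι ⊕ (ι × a) ≃ ι × Option a where
  toFun := Sum.elim (fun i => (i, none)) (fun x => (x.1, some x.2))
  invFun x := match x.2 with
    | none => .inl x.1
    | some j => .inr (x.1, j)
  left_inv x := by rcases x with i | ⟨i, j⟩ <;> rfl
  right_inv x := by rcases x with ⟨i, _ | j⟩ <;> rfl

/-- A class `s ∈ π(S[BU])` to be inverted: a pointed map `ℂ^w → ℂ^u × G(a)`. -/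
structure Datum where
  w : Type
  u : Type
  a : Type
  [fw : Fintype w]
  [fu : Fintype u]
  [fa : Fintype a]
  s : PMap (LC.cpow w) ((LC.cpow u).prod (LC.G a)).plus

attribute [instance] Datum.fw Datum.fu Datum.fa

namespace Datum
variable (D : Datum)

/-- the domain of stage `ι` -/
abbrev A (ι : Type) [Fintype ι] : LC := LC.cpow (ι × Option D.w)

/-- the target of stage `ι` -/
abbrev B (ι : Type) [Fintype ι] : LC := (LC.cpow (ι × Option D.u)).prod (LC.G (ι × Option D.a))

open Classical in
/-- the product over `ι` of `id × s`, with a bundle over `G ι` in the free slots, as a function: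
`(v, P) ↦ ((v (i, none), y i), P ⊕ ⊕ Q i)`, where `s (v (i, ·)) = (y i, Q i)` -/
def shatGFun (ι : Type) [Fintype ι] (v : (ι × Option D.w → ℂ) × GK ι) : OnePoint (D.B ι) :=
  if h : ∀ i : ι, ∃ y : (D.u → ℂ) × GK D.a, D.s (fun j => v.1 (i, some j)) =
      ((y : (D.u → ℂ) × GK D.a) : OnePoint ((D.u → ℂ) × GK D.a)) then
    (((fun x => match x.2 with
        | none => v.1 (x.1, none)
        | some j => (h x.1).choose.1 j),
      GK.reindex (optEquiv ι D.a) (GK.sum (v.2, blockDiag fun i => (h i).choose.2))) :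
      (ι × Option D.u → ℂ) × GK (ι × Option D.a))
  else OnePoint.infty

theorem blockDiag_cont {ι a : Type} [Fintype ι] [Fintype a] :
    Continuous (blockDiag : (ι → GK a) → GK (ι × a)) := by
  classical
  refine Continuous.subtype_mk ?_ _
  refine continuous_matrix fun x y => ?_
  by_cases h : x.1.1 = y.1.1
  · simp only [h, if_true]
    exact (continuous_subtype_val.comp (continuous_apply y.1.1)).matrix_elem _ _
  · simp only [h, if_false]
    exact continuous_const

theorem shatG_aux (ι : Type) [Fintype ι] : Continuous (D.shatGFun ι) ∧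
    Tendsto (D.shatGFun ι) (cocompact ((D.A ι).prod (LC.G ι)))
      (𝓝 (OnePoint.infty : OnePoint (D.B ι))) := by
  classical
  set O : Set ((D.A ι).prod (LC.G ι)) := {v | ∀ i : ι, ∃ y : (D.u → ℂ) × GK D.a,
    D.s (fun j => v.1 (i, some j)) =
      ((y : (D.u → ℂ) × GK D.a) : OnePoint ((D.u → ℂ) × GK D.a))} with hO
  have hpr : ∀ i : ι, Continuous fun v : (D.A ι).prod (LC.G ι) =>
      (fun j => v.1 (i, some j) : D.w → ℂ) := fun i =>
    continuous_pi fun j => (continuous_apply _).comp continuous_fst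
  have hOo : IsOpen O := by
    have : O = ⋂ i : ι, (fun v : (D.A ι).prod (LC.G ι) => D.s (fun j => v.1 (i, some j))) ⁻¹'
        (range ((↑) : (D.u → ℂ) × GK D.a → OnePoint ((D.u → ℂ) × GK D.a))) := by
      ext v
      simp only [hO, mem_ofPred_eq, mem_iInter, mem_preimage, mem_range, eq_comm]
    rw [this]
    refine isOpen_iInter_of_finite fun i => ?_
    exact OnePoint.isOpen_range_coe.preimage (D.s.cont.comp (hpr i))
  set F : O → ι → (D.u → ℂ) × GK D.a := fun v i => (v.2 i).choose with hF
  have hFs : ∀ (v : O) (i : ι), D.s (fun j => v.1.1 (i, some j)) =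
      ((F v i : (D.u → ℂ) × GK D.a) : OnePoint ((D.u → ℂ) × GK D.a)) := fun v i =>
    (v.2 i).choose_spec
  have hFc : Continuous F := by
    refine continuous_pi fun i => ?_
    rw [OnePoint.isOpenEmbedding_coe.toIsInducing.continuous_iff]
    have : ((↑) : (D.u → ℂ) × GK D.a → OnePoint ((D.u → ℂ) × GK D.a)) ∘ (fun v : O => F v i) =
        fun v : O => D.s (fun j => v.1.1 (i, some j)) := by
      funext v
      exact (hFs v i).symm
    rw [this]
    exact D.s.cont.comp ((hpr i).comp continuous_subtype_val)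
  set g : O → D.B ι := fun v =>
    (((fun x => match x.2 with
        | none => v.1.1 (x.1, none)
        | some j => (F v x.1).1 j),
      GK.reindex (optEquiv ι D.a) (GK.sum (v.1.2, blockDiag fun i => (F v i).2))) :
      (ι × Option D.u → ℂ) × GK (ι × Option D.a)) with hg
  have hgc : Continuous g := by
    refine Continuous.prodMk ?_ ?_
    · refine continuous_pi ?_
      rintro ⟨i, _ | j⟩
      · exact (continuous_apply _).comp (continuous_fst.comp continuous_subtype_val)
      · exact (continuous_apply j).comp (continuous_fst.comp ((continuous_apply i).comp hFc))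
    · refine (GK.reindex (optEquiv ι D.a)).continuous.comp (GK.continuous_sum.comp ?_)
      refine Continuous.prodMk (continuous_snd.comp continuous_subtype_val) ?_
      refine blockDiag_cont.comp ?_
      exact continuous_pi fun i => continuous_snd.comp ((continuous_apply i).comp hFc)
  refine MV.partial_open (X := (D.A ι).prod (LC.G ι)) (L := D.B ι) O hOo g hgc (D.shatGFun ι)
    ?_ ?_ ?_
  · intro v
    exact dif_pos v.2
  · intro v hv
    exact dif_neg hv
  · intro C hC
    -- the sets of coordinates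
    let Ci : ι → Set (D.u → ℂ) := fun i =>
      (fun c : D.B ι => (fun j => c.1 (i, some j) : D.u → ℂ)) '' C
    let Ni : ι → Set ℂ := fun i => (fun c : D.B ι => c.1 (i, none)) '' C
    have hCi : ∀ i, IsCompact (Ci i) := fun i => hC.image
      (continuous_pi fun j => (continuous_apply _).comp continuous_fst)
    have hNi : ∀ i, IsCompact (Ni i) := fun i => hC.image
      ((continuous_apply _).comp continuous_fst)
    let Di : ι → Set (D.w → ℂ) := fun i =>
      D.s.toFun ⁻¹' ((fun l : (LC.cpow D.u).prod (LC.G D.a) =>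
        (l : OnePoint ((LC.cpow D.u).prod (LC.G D.a)))) '' (Ci i ×ˢ univ))
    have hDi : ∀ i, IsCompact (Di i) := fun i =>
      D.s.isCompact_preimage ((hCi i).prod isCompact_univ)
    let φ : (ι → (D.w → ℂ) × ℂ) → (ι × Option D.w → ℂ) := fun z x => match x.2 with
      | none => (z x.1).2
      | some j => (z x.1).1 j
    have hφ : Continuous φ := by
      refine continuous_pi ?_
      rintro ⟨i, _ | j⟩
      · exact continuous_snd.comp (continuous_apply i)
      · exact (continuous_apply j).comp (continuous_fst.comp (continuous_apply i))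
    refine ⟨(φ '' (Set.pi univ fun i => Di i ×ˢ Ni i)) ×ˢ univ, ?_, ?_, ?_⟩
    · exact ((isCompact_univ_pi fun i => (hDi i).prod (hNi i)).image hφ).prod isCompact_univ
    · rintro ⟨v, P⟩ ⟨⟨z, hz, rfl⟩, -⟩ i
      obtain ⟨l, -, hl⟩ := (hz i (mem_univ i)).1
      exact ⟨l, hl.symm⟩
    · intro v hv
      refine ⟨⟨fun i => (fun j => v.1.1 (i, some j), v.1.1 (i, none)), ?_, ?_⟩, mem_univ _⟩
      · intro i _
        refine ⟨⟨F v i, ⟨⟨g v, hv, ?_⟩, mem_univ _⟩, (hFs v i).symm⟩, ⟨g v, hv, rfl⟩⟩
        rfl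
      · funext x
        rcases x with ⟨i, _ | j⟩ <;> rfl

/-- the map `A ι × G ι → B ι` -/
def shatG (ι : Type) [Fintype ι] : PMap ((D.A ι).prod (LC.G ι)) (D.B ι).plus :=
  ⟨D.shatGFun ι, (D.shatG_aux ι).1, (D.shatG_aux ι).2⟩

/-- adding the base point of `G ι` -/
def withBase (K : LC) (ι : Type) [Fintype ι] : PMap K (K.prod (LC.G ι)).plus :=
  PMap.ofProper (K := K) (L := K.prod (LC.G ι)) (fun k => (k, GK.base ι))
    (continuous_id.prodMk continuous_const)
    (MV.proper_aux (g := Prod.fst) continuous_fst tendsto_id)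

/-- the transition map of stage `ι`: the product over `ι` of `id × s` -/
def shat (ι : Type) [Fintype ι] : PMap (D.A ι) (D.B ι).plus := (D.shatG ι).comp (withBase _ ι)

/-- `A (ι ⊔ κ) = A ι × A κ` -/
def splitA (ι κ : Type) [Fintype ι] [Fintype κ] : D.A (ι ⊕ κ) ≃ₜ (D.A ι).prod (D.A κ) where
  toFun v := (fun x => v (.inl x.1, x.2), fun x => v (.inr x.1, x.2))
  invFun v := fun x => match x.1 with
    | .inl i => v.1 (i, x.2)
    | .inr i => v.2 (i, x.2)
  left_inv v := by ext ⟨i | i, j⟩ <;> rfl
  right_inv v := rfl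
  continuous_toFun := by
    exact (continuous_pi fun _ => continuous_apply _).prodMk (continuous_pi fun _ => continuous_apply _)
  continuous_invFun := by
    refine continuous_pi ?_
    rintro ⟨i | i, j⟩
    · exact (continuous_apply _).comp continuous_fst
    · exact (continuous_apply _).comp continuous_snd

/-- the product `B ι × B κ → B (ι ⊔ κ)`, as a function -/
def mulBFun (ι κ : Type) [Fintype ι] [Fintype κ]
    (x : (D.B ι).prod (D.B κ)) : D.B (ι ⊕ κ) :=
  (fun y => match y.1 with
    | .inl i => x.1.1 (i, y.2)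
    | .inr i => x.2.1 (i, y.2),
   GK.reindex (Equiv.sumProdDistrib ι κ (Option D.a)).symm (GK.sum (x.1.2, x.2.2)))

theorem mulB_proper {E F G G' : Type} [TopologicalSpace E] [TopologicalSpace F]
    [TopologicalSpace G] [TopologicalSpace G'] [CompactSpace G] [CompactSpace G'] :
    Tendsto (fun x : (E × G) × (F × G') => (x.1.1, x.2.1)) (cocompact _) (cocompact _) := by
  intro s hs
  obtain ⟨D, hD, hDs⟩ := mem_cocompact.1 hs
  have hφ : Continuous (fun z : (E × F) × (G × G') => ((z.1.1, z.2.1), (z.1.2, z.2.2))) := by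
    fun_prop
  rw [mem_map]
  refine mem_cocompact.2 ⟨_, (hD.prod (isCompact_univ (X := G × G'))).image hφ, ?_⟩
  intro x hx
  apply hDs
  intro hxD
  exact hx ⟨((x.1.1, x.2.1), (x.1.2, x.2.2)), ⟨hxD, mem_univ _⟩, rfl⟩

theorem mulB_aux (ι κ : Type) [Fintype ι] [Fintype κ] : Continuous (D.mulBFun ι κ) ∧
    Tendsto (D.mulBFun ι κ) (cocompact _) (cocompact _) := by
  constructor
  · unfold mulBFun
    refine Continuous.prodMk (continuous_pi ?_) ?_
    · rintro ⟨i | i, j⟩
      · exact (continuous_apply _).comp (continuous_fst.comp continuous_fst)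
      · exact (continuous_apply _).comp (continuous_fst.comp continuous_snd)
    · exact (GK.reindex _).continuous.comp (GK.continuous_sum.comp
        ((continuous_snd.comp continuous_fst).prodMk (continuous_snd.comp continuous_snd)))
  · refine MV.proper_aux (Z := (ι × Option D.u → ℂ) × (κ × Option D.u → ℂ))
      (g := fun z : D.B (ι ⊕ κ) =>
        ((fun y : ι × Option D.u => (z.1 : (ι ⊕ κ) × Option D.u → ℂ) (Sum.inl y.1, y.2)),
          (fun y : κ × Option D.u => (z.1 : (ι ⊕ κ) × Option D.u → ℂ) (Sum.inr y.1, y.2))))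
      ?_ ?_
    · exact (continuous_pi fun _ => (continuous_apply _).comp continuous_fst).prodMk
        (continuous_pi fun _ => (continuous_apply _).comp continuous_fst)
    · exact mulB_proper (E := ι × Option D.u → ℂ) (F := κ × Option D.u → ℂ)
        (G := GK (ι × Option D.a)) (G' := GK (κ × Option D.a))

/-- the product `B ι × B κ → B (ι ⊔ κ)` -/
def mulB (ι κ : Type) [Fintype ι] [Fintype κ] :
    PMap ((D.B ι).prod (D.B κ)) (D.B (ι ⊕ κ)).plus :=
  PMap.ofProper (K := (D.B ι).prod (D.B κ)) (L := D.B (ι ⊕ κ)) (D.mulBFun ι κ)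
    (D.mulB_aux ι κ).1 (D.mulB_aux ι κ).2

/-- representatives at stage `ι` of elements of the bivariant theory -/
abbrev Rep (ι : Type) [Fintype ι] (K Z : LC) : Type := PMap ((D.A ι).prod K) ((D.B ι).prod Z).plus

/-- `(x, y, k) ↦ (x, k, y)` -/
def _root_.Pool.Agent.Helper1.Stab.LC.rr (X Y K : LC) : (X.prod Y).prod K ≃ₜ (X.prod K).prod Y where
  toFun v := ((v.1.1, v.2), v.1.2)
  invFun v := ((v.1.1, v.2), v.1.2)
  left_inv _ := rfl
  right_inv _ := rfl
  continuous_toFun := by fun_prop
  continuous_invFun := by fun_prop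

/-- `(x, l, y) ↦ (x, (y, l))` -/
def _root_.Pool.Agent.Helper1.Stab.LC.rs (X L Y : LC) : (X.prod L).prod Y ≃ₜ X.prod (Y.prod L) where
  toFun v := (v.1.1, (v.2, v.1.2))
  invFun v := ((v.1, v.2.2), v.2.1)
  left_inv _ := rfl
  right_inv _ := rfl
  continuous_toFun := by fun_prop
  continuous_invFun := by fun_prop

/-- `A (ι ⊔ κ) × K = (A ι × K) × A κ` -/
def domH (ι κ : Type) [Fintype ι] [Fintype κ] (K : LC) :
    (D.A (ι ⊕ κ)).prod K ≃ₜ ((D.A ι).prod K).prod (D.A κ) :=
  ((D.splitA ι κ).prodCongr (Homeomorph.refl K)).trans (LC.rr (D.A ι) (D.A κ) K)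

variable {D}

/-- passage from stage `ι` to stage `ι ⊔ κ` -/
def Rep.stab {ι : Type} [Fintype ι] {K Z : LC} (f : D.Rep ι K Z) (κ : Type) [Fintype κ] :
    D.Rep (ι ⊕ κ) K Z :=
  ((D.mulB ι κ).tens Z).comp ((PMap.ofHomeo (LC.rr (D.B ι) Z (D.B κ))).comp
    ((PMap.box f (D.shat κ)).comp (PMap.ofHomeo (D.domH ι κ K))))

/-- the product `g` after `f`, at stage `ι ⊔ κ` -/
def Rep.cmp {ι κ : Type} [Fintype ι] [Fintype κ] {K L Z : LC} (f : D.Rep ι K L)
    (g : D.Rep κ L Z) : D.Rep (ι ⊕ κ) K Z :=
  ((D.mulB ι κ).tens Z).comp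
    ((PMap.ofHomeo (Homeomorph.prodAssoc (D.B ι) (D.B κ) Z).symm :
        PMap ((D.B ι).prod ((D.B κ).prod Z)) (((D.B ι).prod (D.B κ)).prod Z).plus).comp
      ((PMap.ltens (D.B ι) g).comp ((PMap.ofHomeo (LC.rs (D.B ι) L (D.A κ))).comp
        ((f.tens (D.A κ)).comp (PMap.ofHomeo (D.domH ι κ K))))))

/-- the product with the identity of `W` -/
def Rep.tens {ι : Type} [Fintype ι] {K L : LC} (f : D.Rep ι K L) (W : LC) :
    D.Rep ι (K.prod W) (L.prod W) :=
  (PMap.ofHomeo (Homeomorph.prodAssoc (D.B ι) L W) :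
      PMap (((D.B ι).prod L).prod W) ((D.B ι).prod (L.prod W)).plus).comp
    ((PMap.tens f W).comp
      (PMap.ofHomeo (Homeomorph.prodAssoc (D.A ι) K W).symm :
        PMap ((D.A ι).prod (K.prod W)) (((D.A ι).prod K).prod W).plus))

/-- the representative of a map -/
def Rep.ofMap (ι : Type) [Fintype ι] {K L : LC} (f : PMap K L.plus) : D.Rep ι K L :=
  (D.shat ι).box f

/-- the representative of the tautological bundle -/
def Rep.taut (D : Datum) (ι : Type) [Fintype ι] : D.Rep ι (LC.G ι) LC.point :=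
  (PMap.ofHomeo (Homeomorph.prodPUnit (D.B ι)).symm :
    PMap (D.B ι) ((D.B ι).prod LC.point).plus).comp (D.shatG ι)

/-- renaming in the domain -/
def reA (D : Datum) {ι κ : Type} [Fintype ι] [Fintype κ] (e : ι ≃ κ) : D.A ι ≃ₜ D.A κ where
  toFun v := fun x => v (e.symm x.1, x.2)
  invFun v := fun x => v (e x.1, x.2)
  left_inv v := by ext x; simp
  right_inv v := by ext x; simp
  continuous_toFun := continuous_pi fun _ => continuous_apply _
  continuous_invFun := continuous_pi fun _ => continuous_apply _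

/-- renaming in the target -/
def reB (D : Datum) {ι κ : Type} [Fintype ι] [Fintype κ] (e : ι ≃ κ) : D.B ι ≃ₜ D.B κ :=
  Homeomorph.prodCongr
    { toFun := fun v => fun x => v (e.symm x.1, x.2)
      invFun := fun v => fun x => v (e x.1, x.2)
      left_inv := fun v => by ext x; simp
      right_inv := fun v => by ext x; simp
      continuous_toFun := continuous_pi fun _ => continuous_apply _
      continuous_invFun := continuous_pi fun _ => continuous_apply _ }
    (GK.reindex (e.prodCongr (Equiv.refl _)))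

/-- renaming the elements of `ι` -/
def Rep.re {ι κ : Type} [Fintype ι] [Fintype κ] (e : ι ≃ κ) {K Z : LC} (f : D.Rep ι K Z) :
    D.Rep κ K Z :=
  ((PMap.ofHomeo (D.reB e)).tens Z).comp (PMap.comp f ((PMap.ofHomeo (D.reA e.symm)).tens K))

end Datum

/-- The bivariant theory obtained by inverting the class of `D.s`. The group `R(K, Z)` is the
colimit over finite sets `ι` of the homotopy classes of maps `A ι × K → B ι × Z`. -/
structure LocTheory (D : Datum) extends GBiv where
  cls : ∀ {ι : Type} [Fintype ι] {K Z : LC}, D.Rep ι K Z → Hom K Z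
  cls_homotopic : ∀ {ι : Type} [Fintype ι] {K Z : LC} {f g : D.Rep ι K Z},
    PMap.Homotopic f g → cls f = cls g
  cls_surj : ∀ {K Z : LC} (x : Hom K Z) (N : ℕ), ∃ n ≥ N, ∃ f : D.Rep (Fin n) K Z, x = cls f
  cls_eq : ∀ {ι : Type} [Fintype ι] {K Z : LC} {f g : D.Rep ι K Z}, cls f = cls g →
    ∃ n : ℕ, PMap.Homotopic (f.stab (Fin n)) (g.stab (Fin n))
  cls_stab : ∀ {ι : Type} [Fintype ι] {K Z : LC} (f : D.Rep ι K Z) (κ : Type) [Fintype κ],
    cls (f.stab κ) = cls f
  cls_re : ∀ {ι κ : Type} [Fintype ι] [Fintype κ] (e : ι ≃ κ) {K Z : LC} (f : D.Rep ι K Z),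
    cls (f.re e) = cls f
  cls_zero : ∀ (ι : Type) [Fintype ι] (K Z : LC), cls (ι := ι) (PMap.zero _ _ : D.Rep ι K Z) = 0
  J_eq : ∀ {K Z : LC} (ι : Type) [Fintype ι] (f : PMap K Z.plus),
    J f = cls (Datum.Rep.ofMap ι f : D.Rep ι K Z)
  comp_cls : ∀ {ι κ : Type} [Fintype ι] [Fintype κ] {K L Z : LC} (f : D.Rep ι K L)
    (g : D.Rep κ L Z), comp (cls f) (cls g) = cls (f.cmp g)
  tens_cls : ∀ {ι : Type} [Fintype ι] {K L : LC} (f : D.Rep ι K L) (W : LC),
    tens (cls f) W = cls (f.tens W)
  g_eq : ∀ (ι : Type) [Fintype ι], g ι = cls (Datum.Rep.taut D ι)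
  /-- the class of `s` is invertible -/
  s_inv : ∃ t : Hom ((LC.cpow D.u).prod LC.point) (LC.cpow D.w),
    comp t (comp (J D.s) (toBivData.ltens (LC.cpow D.u) (g D.a))) = J (PMap.id _) ∧
    comp (comp (J D.s) (toBivData.ltens (LC.cpow D.u) (g D.a))) t = J (PMap.id _)

end Pool.Agent.Helper1.Stab
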