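import Pool.Agent.Helper1.Stab.Comp
import Pool.Agent.Helper40.Stab.Core
import Pool.Agent.Helper56.Stab.TwoVec
import Pool.Agent.Helper89.Stab.DetVec
import Pool.Agent.Helper60.Stab.Pow

/-! `S[BSU][1/x]` is a retract of `S[BU][1/x]`, and the dependence on `x`. -/

open CategoryTheory Topology Filter Set Opposite

noncomputable section

namespace Pool.Agent.Helper1.Stab

/-! ## The map from `BSU` to `BU` -/

theorem FrameRel.mono {D D' : Set ℂ} (h : D ⊆ D') {k : ℕ} {A B : Frame k} (r : FrameRel D k A B) :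
    FrameRel D' k A B := by
  obtain ⟨g, hg, hd, he⟩ := r
  exact ⟨g, hg, h hd, he⟩

/-- `Gr {1} k → Gr univ k` -/
def Gr.toU {k : ℕ} : C(Gr {1} k, Gr Set.univ k) :=
  ⟨Quot.lift (fun A => Quot.mk _ A) (fun _ _ h => Quot.sound (h.mono (subset_univ _))),
    continuous_quot_lift _ continuous_quot_mk⟩

/-- `BSU → BU` -/
def BG.toU : C(BG {1}, BG Set.univ) :=
  ⟨Quot.lift (fun A => Quot.mk _ A) (by
    rintro _ _ (h | A)
    · exact Quot.sound (.rot (h.mono (subset_univ _)))
    · exact Quot.sound (.stab A)), continuous_quot_lift _ continuous_quot_mk⟩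

/-- the image in `BU` of a map to `BSU` -/
def loopToU {d k : ℕ} (f : GenLoop (Fin d) (Gr {1} k) (Gr.pt {1} k)) :
    GenLoop (Fin d) (Gr Set.univ k) (Gr.pt Set.univ k) :=
  ⟨Gr.toU.comp f.1, fun u hu => congrArg Gr.toU (f.2 u hu)⟩

/-! ## Maps from `Gr univ l` to `BSU` -/

/-- An equivariant unit vector: `v(A g) = det(g)⁻¹ v(A)`, with coordinates `0, …, N-1`. -/
structure DetVec (l : ℕ) where
  N : ℕ
  v : Frame l → ℕ → ℂ
  cont : Continuous v
  supp : ∀ A i, N ≤ i → v A i = 0
  unit : ∀ A, ∑ i ∈ Finset.range N, star (v A i) * v A i = 1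
  equiv : ∀ (A B : Frame l) (g : Matrix (Fin l) (Fin l) ℂ), g ∈ Matrix.unitaryGroup (Fin l) ℂ →
    (∀ (i : ℕ) (j : Fin l), B.1 i j = ∑ c : Fin l, A.1 i c * g c j) →
    ∀ i, v B i = star g.det * v A i

/-- the minors of a frame give an equivariant unit vector -/
theorem exists_detVec (l : ℕ) : Nonempty (DetVec l) :=
  ⟨{  N := Pool.Agent.Helper89.Stab.NN l
      v := fun A => Pool.Agent.Helper89.Stab.vec A
      cont := Pool.Agent.Helper89.Stab.continuous_vec
      supp := fun A i hi => dif_neg (not_lt.2 hi)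
      unit := fun A => Pool.Agent.Helper89.Stab.vec_unit A
      equiv := fun A B g hg h i => Pool.Agent.Helper89.Stab.vec_equiv A B g hg h i }⟩

/-- an isometry of size `l` is one of every larger size -/
theorem Frame.exists_larger {l : ℕ} (A : Frame l) (d : ℕ) : ∃ B : Frame (l + d), B.1 = A.1 := by
  induction d with
  | zero => exact ⟨A, rfl⟩
  | succ d ih =>
    obtain ⟨B, hB⟩ := ih
    exact ⟨B.incl, hB⟩

theorem Frame.orth {l n : ℕ} (A : Frame l) (h : l ≤ n) {j j' : ℕ} (hj : j < n) (hj' : j' < n) :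
    ∑ i ∈ Finset.range (2 * n), star (A.1 i j) * A.1 i j' = if j = j' then 1 else 0 := by
  obtain ⟨d, rfl⟩ := Nat.exists_eq_add_of_le h
  obtain ⟨B, hB⟩ := A.exists_larger d
  rw [← hB]
  exact B.2.2 j hj j' hj'

theorem sum_range_odd (h : ℕ → ℂ) (M : ℕ) :
    ∑ x ∈ Finset.range (2 * M), (if x % 2 = 1 then h (x / 2) else 0) =
      ∑ t ∈ Finset.range M, h t := by
  induction M with
  | zero => simp
  | succ M ih =>
    have e1 : ¬ (2 * M % 2 = 1) := by omega
    have e2 : (2 * M + 1) % 2 = 1 := by omega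
    have e3 : (2 * M + 1) / 2 = M := by omega
    rw [show 2 * (M + 1) = 2 * M + 1 + 1 by ring, Finset.sum_range_succ, Finset.sum_range_succ, ih,
      Finset.sum_range_succ, if_neg e1, if_pos e2, e3, add_zero]

/-- The entries of the frame `A ⊕ v`. -/
theorem addVec_isFrame {l : ℕ} (A : Frame l) (N : ℕ) (v : ℕ → ℂ) (h0 : ∀ i, N ≤ i → v i = 0)
    (h1 : ∑ i ∈ Finset.range N, star (v i) * v i = 1) :
    (∀ i j : ℕ, (2 * (l + N + 1) ≤ i ∨ l + N + 1 ≤ j) →
      (if j = l then (if 2 * l ≤ i ∧ (i - 2 * l) % 2 = 1 then v ((i - 2 * l) / 2) else 0)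
        else A.1 i j) = if i = 2 * j then 1 else 0) ∧
    ∀ j < l + N + 1, ∀ j' < l + N + 1, ∑ i ∈ Finset.range (2 * (l + N + 1)),
      star (if j = l then (if 2 * l ≤ i ∧ (i - 2 * l) % 2 = 1 then v ((i - 2 * l) / 2) else 0)
        else A.1 i j) *
      (if j' = l then (if 2 * l ≤ i ∧ (i - 2 * l) % 2 = 1 then v ((i - 2 * l) / 2) else 0)
        else A.1 i j') = if j = j' then 1 else 0 := by
  constructor
  · intro i j h
    by_cases hj : j = l
    · rw [if_pos hj, if_neg (by omega : ¬ i = 2 * j)]
      by_cases h2 : 2 * l ≤ i ∧ (i - 2 * l) % 2 = 1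
      · rw [if_pos h2, h0 _ (by omega)]
      · rw [if_neg h2]
    · rw [if_neg hj]
      exact A.2.1 i j (by omega)
  · have hz : ∀ i j' : ℕ, j' ≠ l →
        (if 2 * l ≤ i ∧ (i - 2 * l) % 2 = 1 then v ((i - 2 * l) / 2) else 0) = 0 ∨
          A.1 i j' = 0 := by
      intro i j' hj'
      by_cases h2 : 2 * l ≤ i ∧ (i - 2 * l) % 2 = 1
      · right
        rw [A.2.1 i j' (Or.inl h2.1), if_neg (by omega)]
      · left
        rw [if_neg h2]
    intro j hj j' hj'
    by_cases h2 : j = l
    · by_cases h3 : j' = l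
      · simp only [if_pos h2, if_pos h3]
        rw [if_pos (h2.trans h3.symm), show 2 * (l + N + 1) = 2 * l + 2 * (N + 1) by ring,
          Finset.sum_range_add]
        have e1 : ∑ x ∈ Finset.range (2 * l),
            star (if 2 * l ≤ x ∧ (x - 2 * l) % 2 = 1 then v ((x - 2 * l) / 2) else 0) *
            (if 2 * l ≤ x ∧ (x - 2 * l) % 2 = 1 then v ((x - 2 * l) / 2) else 0) = 0 := by
          apply Finset.sum_eq_zero
          intro x hx
          rw [Finset.mem_range] at hx
          rw [if_neg (by omega), star_zero, zero_mul]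
        have e2 : ∑ x ∈ Finset.range (2 * (N + 1)),
            star (if 2 * l ≤ 2 * l + x ∧ (2 * l + x - 2 * l) % 2 = 1 then
              v ((2 * l + x - 2 * l) / 2) else 0) *
            (if 2 * l ≤ 2 * l + x ∧ (2 * l + x - 2 * l) % 2 = 1 then
              v ((2 * l + x - 2 * l) / 2) else 0) =
            ∑ x ∈ Finset.range (2 * (N + 1)),
              (if x % 2 = 1 then (fun t => star (v t) * v t) (x / 2) else 0) := by
          refine Finset.sum_congr rfl fun x _ => ?_
          rw [Nat.add_sub_cancel_left]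
          by_cases h4 : x % 2 = 1
          · rw [if_pos h4, if_pos ⟨Nat.le_add_right _ _, h4⟩]
          · rw [if_neg h4, if_neg (fun h5 => h4 h5.2), mul_zero]
        rw [e1, zero_add, e2]
        refine (sum_range_odd (fun t => star (v t) * v t) (N + 1)).trans ?_
        rw [Finset.sum_range_succ, h1, h0 N le_rfl, mul_zero, add_zero]
      · rw [if_neg (by omega : ¬ j = j')]
        apply Finset.sum_eq_zero
        intro i _
        rw [if_pos h2, if_neg h3]
        rcases hz i j' h3 with h4 | h4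
        · rw [h4, star_zero, zero_mul]
        · rw [h4, mul_zero]
    · by_cases h3 : j' = l
      · rw [if_neg (by omega : ¬ j = j')]
        apply Finset.sum_eq_zero
        intro i _
        rw [if_neg h2, if_pos h3]
        rcases hz i j h2 with h4 | h4
        · rw [h4, mul_zero]
        · rw [h4, star_zero, zero_mul]
      · simp only [if_neg h2, if_neg h3]
        exact A.orth (by omega) hj hj'

/-- The frame `A ⊕ v`: the column `l` is replaced by `∑ v_t e_(2l+2t+1)`. It is a frame of
size `l + N + 1`. -/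
def Frame.addVec {l : ℕ} (A : Frame l) (N : ℕ) (v : ℕ → ℂ) (h0 : ∀ i, N ≤ i → v i = 0)
    (h1 : ∑ i ∈ Finset.range N, star (v i) * v i = 1) : Frame (l + N + 1) :=
  ⟨fun i j => if j = l then (if 2 * l ≤ i ∧ (i - 2 * l) % 2 = 1 then v ((i - 2 * l) / 2) else 0)
    else A.1 i j, addVec_isFrame A N v h0 h1⟩

/-- the diagonal matrix with entries `c, 1, …, 1` -/
theorem diag_unitary (N : ℕ) (c : ℂ) (hc : c * star c = 1) :
    Matrix.diagonal (fun i : Fin (N + 1) => if i = 0 then c else 1) ∈
      Matrix.unitaryGroup (Fin (N + 1)) ℂ := by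
  rw [Matrix.mem_unitaryGroup_iff, Matrix.star_eq_conjTranspose, Matrix.diagonal_conjTranspose,
    Matrix.diagonal_mul_diagonal, ← Matrix.diagonal_one]
  congr 1
  funext i
  by_cases h : i = 0
  · simp only [Pi.star_apply, if_pos h]
    exact hc
  · simp only [Pi.star_apply, if_neg h, star_one, mul_one]

theorem diag_det (N : ℕ) (c : ℂ) :
    (Matrix.diagonal (fun i : Fin (N + 1) => if i = 0 then c else 1)).det = c := by
  rw [Matrix.det_diagonal, Fin.prod_univ_succ]
  simp [Fin.succ_ne_zero]

/-- `A ~ A g` gives `A ⊕ v ~ A g ⊕ det(g)⁻¹ v`. -/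
theorem frameRel_addVec {l : ℕ} {A B : Frame l} {g : Matrix (Fin l) (Fin l) ℂ}
    (hg : g ∈ Matrix.unitaryGroup (Fin l) ℂ)
    (hB : ∀ (i : ℕ) (j : Fin l), B.1 i j = ∑ c : Fin l, A.1 i c * g c j) (N : ℕ) (v w : ℕ → ℂ)
    (hv0 : ∀ i, N ≤ i → v i = 0) (hv1 : ∑ i ∈ Finset.range N, star (v i) * v i = 1)
    (hw0 : ∀ i, N ≤ i → w i = 0) (hw1 : ∑ i ∈ Finset.range N, star (w i) * w i = 1)
    (hw : ∀ i, w i = star g.det * v i) :
    FrameRel {1} (l + N + 1) (A.addVec N v hv0 hv1) (B.addVec N w hw0 hw1) := by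
  have hdet : star g.det * g.det = 1 := Unitary.star_mul_self_of_mem (Matrix.det_of_mem_unitary hg)
  have hdet' : star g.det * star (star g.det) = 1 := by rw [star_star]; exact hdet
  show FrameRel {1} (l + (N + 1)) (A.addVec N v hv0 hv1) (B.addVec N w hw0 hw1)
  refine ⟨Matrix.reindex finSumFinEquiv finSumFinEquiv (Matrix.fromBlocks g 0 0
    (Matrix.diagonal (fun i : Fin (N + 1) => if i = 0 then star g.det else 1))),
    blocks_unitary hg (diag_unitary N _ hdet'), ?_, fun i j => ?_⟩
  · rw [Matrix.det_reindex_self, Matrix.det_fromBlocks_zero₂₁, diag_det, mul_comm, hdet]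
    exact Set.mem_singleton _
  · have hc1 : ∀ (C : Frame l) (u : ℕ → ℂ) (hu0 : ∀ i, N ≤ i → u i = 0)
        (hu1 : ∑ i ∈ Finset.range N, star (u i) * u i = 1) (m : Fin l),
        (C.addVec N u hu0 hu1).1 i ((Fin.castAdd (N + 1) m : Fin (l + (N + 1))) : ℕ) =
          C.1 i m := by
      intro C u hu0 hu1 m
      show (if ((Fin.castAdd (N + 1) m : Fin (l + (N + 1))) : ℕ) = l then _ else _) = _
      rw [Fin.val_castAdd, if_neg (by have := m.2; omega)]
    have hc2 : ∀ (C : Frame l) (u : ℕ → ℂ) (hu0 : ∀ i, N ≤ i → u i = 0)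
        (hu1 : ∑ i ∈ Finset.range N, star (u i) * u i = 1) (m : Fin (N + 1)),
        (C.addVec N u hu0 hu1).1 i ((Fin.natAdd l m : Fin (l + (N + 1))) : ℕ) =
          if m = 0 then (if 2 * l ≤ i ∧ (i - 2 * l) % 2 = 1 then u ((i - 2 * l) / 2) else 0)
          else (if i = 2 * (l + m) then 1 else 0) := by
      intro C u hu0 hu1 m
      show (if ((Fin.natAdd l m : Fin (l + (N + 1))) : ℕ) = l then _ else _) = _
      rw [Fin.val_natAdd]
      by_cases hm : m = 0
      · rw [if_pos hm, hm, if_pos (by simp)]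
      · have hm' : (m : ℕ) ≠ 0 := fun h => hm (Fin.ext h)
        rw [if_neg hm, if_neg (by omega)]
        exact C.2.1 i (l + m) (Or.inr (Nat.le_add_right _ _))
    rw [Fin.sum_univ_add]
    refine Fin.addCases (fun j0 => ?_) (fun j0 => ?_) j
    · rw [hc1, hB]
      simp only [hc1, Matrix.reindex_apply, Matrix.submatrix_apply,
        finSumFinEquiv_symm_apply_castAdd, finSumFinEquiv_symm_apply_natAdd,
        Matrix.fromBlocks_apply₁₁, Matrix.fromBlocks_apply₂₁, Matrix.zero_apply, mul_zero,
        Finset.sum_const_zero, add_zero]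
    · rw [hc2]
      simp only [hc2, Matrix.reindex_apply, Matrix.submatrix_apply,
        finSumFinEquiv_symm_apply_castAdd, finSumFinEquiv_symm_apply_natAdd,
        Matrix.fromBlocks_apply₁₂, Matrix.fromBlocks_apply₂₂, Matrix.zero_apply, mul_zero,
        Finset.sum_const_zero, zero_add]
      rw [Finset.sum_eq_single j0]
      · rw [Matrix.diagonal_apply_eq]
        by_cases h0 : j0 = 0
        · simp only [if_pos h0]
          by_cases h2 : 2 * l ≤ i ∧ (i - 2 * l) % 2 = 1
          · rw [if_pos h2, if_pos h2, hw, mul_comm]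
          · rw [if_neg h2, if_neg h2, zero_mul]
        · simp only [if_neg h0, mul_one]
      · intro m _ hm
        rw [Matrix.diagonal_apply_ne _ hm, mul_zero]
      · intro h
        exact absurd (Finset.mem_univ _) h

theorem Frame.continuous_addVec {l : ℕ} (V : DetVec l) : Continuous fun A : Frame l =>
    A.addVec V.N (V.v A) (V.supp A) (V.unit A) := by
  refine Continuous.subtype_mk ?_ _
  refine continuous_pi fun i => continuous_pi fun j => ?_
  by_cases h : j = l
  · simp only [if_pos h]
    by_cases h2 : 2 * l ≤ i ∧ (i - 2 * l) % 2 = 1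
    · simp only [if_pos h2]
      exact (continuous_apply _).comp V.cont
    · simp only [if_neg h2]
      exact continuous_const
  · simp only [if_neg h]
    exact (continuous_apply j).comp ((continuous_apply i).comp continuous_subtype_val)

/-- The map `Gr univ l → BSU`, `[A] ↦ [A ⊕ v(A)]`. -/
def DetVec.r {l : ℕ} (V : DetVec l) : C(Gr Set.univ l, BG {1}) :=
  ⟨Quot.lift (fun A => Quot.mk _ ⟨_, A.addVec V.N (V.v A) (V.supp A) (V.unit A)⟩) (by
      rintro A B ⟨g, hg, -, hB⟩
      exact Quot.sound (.rot (frameRel_addVec hg hB V.N _ _ _ _ _ _ (V.equiv A B g hg hB)))),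
    continuous_quot_lift _ (continuous_quot_mk.comp
      (continuous_sigmaMk.comp (Frame.continuous_addVec V)))⟩

theorem Frame.incl_eq_sum {l : ℕ} (A : Frame l) : A.incl = A.sum (Frame.std 1) := by
  refine Subtype.ext (funext fun i => funext fun j => ?_)
  show A.1 i j = if j < l then A.1 i j else if i < 2 * l then 0 else
    (if i - 2 * l = 2 * (j - l) then 1 else 0)
  by_cases h1 : j < l
  · rw [if_pos h1]
  · rw [if_neg h1, A.2.1 i j (Or.inr (by omega))]
    by_cases h2 : i < 2 * l
    · rw [if_pos h2, if_neg (by omega)]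
    · rw [if_neg h2]
      by_cases h3 : i = 2 * j
      · rw [if_pos h3, if_pos (by omega)]
      · rw [if_neg h3, if_neg (by omega)]

theorem one_frame {l : ℕ} (A : Frame l) (i : ℕ) (j : Fin l) :
    A.1 i j = ∑ m : Fin l, A.1 i m * (1 : Matrix (Fin l) (Fin l) ℂ) m j := by
  simp [Matrix.one_apply]

theorem frameRel_incl {D : Set ℂ} {l : ℕ} {A B : Frame l} (h : FrameRel D l A B) :
    FrameRel D (l + 1) A.incl B.incl := by
  obtain ⟨g, hg, hd, hB⟩ := h
  rw [Frame.incl_eq_sum, Frame.incl_eq_sum]
  refine frameRel_sum (h := 1) hg (one_mem _) ?_ hB (one_frame _)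
  rwa [Matrix.det_one, mul_one]

/-- the inclusion of a stage in the next one -/
def Gr.next {D : Set ℂ} {l : ℕ} : C(Gr D l, Gr D (l + 1)) :=
  ⟨Quot.lift (fun A => Quot.mk _ A.incl) (fun _ _ h => Quot.sound (frameRel_incl h)),
    continuous_quot_lift _ (continuous_quot_mk.comp
      (Continuous.subtype_mk continuous_subtype_val _))⟩

theorem Gr.sum_wd₁ (D : Set ℂ) {k l : ℕ} (B : Frame k) (A A' : Frame l) (h : FrameRel D l A A') :
    (Quot.mk _ (B.sum A) : Gr D (k + l)) = Quot.mk _ (B.sum A') := by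
  obtain ⟨g, hg, hd, hA⟩ := h
  refine Quot.sound (frameRel_sum (g := 1) (h := g) (one_mem _) hg ?_ (one_frame _) hA)
  rwa [Matrix.det_one, one_mul]

theorem Gr.sum_wd₂ (D : Set ℂ) {k l : ℕ} (B B' : Frame k) (h : FrameRel D k B B')
    (A : Frame l) :
    (Quot.mk _ (B.sum A) : Gr D (k + l)) = Quot.mk _ (B'.sum A) := by
  obtain ⟨g, hg, hd, hB⟩ := h
  refine Quot.sound (frameRel_sum (g := g) (h := 1) hg (one_mem _) ?_ hB (one_frame _))
  rwa [Matrix.det_one, mul_one]

theorem Gr.sum_continuous (D : Set ℂ) (k l : ℕ) (F : Gr D k × Gr D l → Gr D (k + l))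
    (hF : ∀ (B : Frame k) (A : Frame l), F (Quot.mk _ B, Quot.mk _ A) = Quot.mk _ (B.sum A)) :
    Continuous F := by
  refine ((isOpenQuotientMap_gr D k).prodMap (isOpenQuotientMap_gr D l)).continuous_comp_iff.1 ?_
  have h2 : Continuous fun p : Frame k × Frame l =>
      (Quot.mk (FrameRel D (k + l)) (p.1.sum p.2) : Gr D (k + l)) :=
    continuous_quot_mk.comp ((Frame.continuous_sum k l).comp continuous_swap)
  exact h2.congr fun p => (hF p.1 p.2).symm

/-- the direct sum -/
def Gr.sum (D : Set ℂ) (k l : ℕ) : C(Gr D k × Gr D l, Gr D (k + l)) :=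
  ⟨fun x => Quot.lift (fun B => Quot.lift (fun A => (Quot.mk _ (Frame.sum B A) : Gr D (k + l)))
    (Gr.sum_wd₁ D B) x.2) (fun B B' h => by
      obtain ⟨x1, x2⟩ := x
      induction x2 using Quot.ind with
      | mk A => exact Gr.sum_wd₂ D B B' h A) x.1, Gr.sum_continuous D k l _ fun _ _ => rfl⟩

theorem BG.mk_eq_of_eq_aux {D : Set ℂ} (d : ℕ) : ∀ {k l : ℕ}, l = k + d → ∀ (A : Frame k)
    (B : Frame l), A.1 = B.1 → (Quot.mk _ ⟨k, A⟩ : BG D) = Quot.mk _ ⟨l, B⟩ := by
  induction d with
  | zero =>
    intro k l hl A B h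
    obtain rfl : l = k := hl
    rw [Subtype.ext h]
  | succ d ih =>
    intro k l hl A B h
    rw [Quot.sound (BRel.stab A)]
    exact ih (by omega) A.incl B h

/-- the same infinite matrix at different sizes gives the same point of `BG D` -/
theorem BG.mk_eq_of_eq {D : Set ℂ} {k l : ℕ} (A : Frame k) (B : Frame l) (h : A.1 = B.1) :
    (Quot.mk _ ⟨k, A⟩ : BG D) = Quot.mk _ ⟨l, B⟩ := by
  rcases Nat.le_total k l with hkl | hkl
  · obtain ⟨d, hd⟩ := Nat.exists_eq_add_of_le hkl
    exact BG.mk_eq_of_eq_aux d hd A B h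
  · obtain ⟨d, hd⟩ := Nat.exists_eq_add_of_le hkl
    exact (BG.mk_eq_of_eq_aux d hd B A h.symm).symm

/-- a family of frames over a quotient gives a homotopy of maps to `BG D` -/
theorem homotopic_of_frames {D : Set ℂ} {X Y : Type} [TopologicalSpace X] [TopologicalSpace Y]
    (q : Y → X) (hq : IsQuotientMap q) {m : ℕ} (Φ : unitInterval × Y → Frame m) (hΦ : Continuous Φ)
    (hc : ∀ t y y', q y = q y' →
      (Quot.mk _ ⟨m, Φ (t, y)⟩ : BG D) = Quot.mk _ ⟨m, Φ (t, y')⟩) :
    ∃ H : C(unitInterval × X, BG D), ∀ t y, H (t, q y) = Quot.mk _ ⟨m, Φ (t, y)⟩ := by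
  have h1 : ∀ t y, (Quot.mk _ ⟨m, Φ (t, Function.surjInv hq.surjective (q y))⟩ : BG D) =
      Quot.mk _ ⟨m, Φ (t, y)⟩ := fun t y =>
    hc t _ _ (Function.surjInv_eq hq.surjective (q y))
  refine ⟨⟨fun x => Quot.mk _ ⟨m, Φ (x.1, Function.surjInv hq.surjective x.2)⟩, ?_⟩, h1⟩
  refine IsQuotientMap.continuous_lift_prod_right (f := q) hq ?_
  have h2 : Continuous fun p : unitInterval × Y => (Quot.mk (BRel D) ⟨m, Φ p⟩ : BG D) :=
    continuous_quot_mk.comp (continuous_sigmaMk.comp hΦ)
  exact h2.congr fun p => (h1 p.1 p.2).symm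

/-- admissible columns -/
structure IsCol (n N : ℕ) (u : ℕ → ℂ) : Prop where
  low : ∀ i < 2 * n, u i = 0
  high : ∀ i, 2 * (n + N + 1) ≤ i → u i = 0
  even : ∀ j, n < j → u (2 * j) = 0
  unit : ∑ i ∈ Finset.range (2 * (n + N + 1)), star (u i) * u i = 1

theorem Frame.exists_incl {n : ℕ} (A : Frame n) (m : ℕ) : ∃ A' : Frame (n + m), A'.1 = A.1 := by
  induction m with
  | zero => exact ⟨A, rfl⟩
  | succ m ih =>
    obtain ⟨A', h⟩ := ih
    exact ⟨A'.incl, h⟩

/-- the column `n` is replaced by `u` -/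
def Frame.addCol {n : ℕ} (A : Frame n) (N : ℕ) (u : ℕ → ℂ) (hu : IsCol n N u) :
    Frame (n + N + 1) :=
  ⟨fun i j => if j = n then u i else A.1 i j, by
    obtain ⟨A', hA'⟩ := A.exists_incl (N + 1)
    have key : ∀ j' < n + N + 1, j' ≠ n →
        ∑ i ∈ Finset.range (2 * (n + N + 1)), star (u i) * A.1 i j' = 0 := by
      intro j' hj' hne
      refine Finset.sum_eq_zero fun i _ => ?_
      by_cases hi : i < 2 * n
      · rw [hu.low i hi, star_zero, zero_mul]
      · rw [A.2.1 i j' (Or.inl (by omega))]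
        by_cases h2 : i = 2 * j'
        · rw [h2, hu.even j' (by omega), star_zero, zero_mul]
        · rw [if_neg h2, mul_zero]
    refine ⟨fun i j hij => ?_, fun j hj j' hj' => ?_⟩
    · show (if j = n then u i else A.1 i j) = _
      by_cases h : j = n
      · rw [if_pos h, hu.high i (by omega), if_neg (by omega)]
      · rw [if_neg h]
        exact A.2.1 i j (by omega)
    · show ∑ i ∈ Finset.range (2 * (n + N + 1)), star (if j = n then u i else A.1 i j) *
        (if j' = n then u i else A.1 i j') = _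
      by_cases h : j = n
      · by_cases h' : j' = n
        · rw [if_pos (h.trans h'.symm)]
          simp only [if_pos h, if_pos h']
          exact hu.unit
        · rw [if_neg (by omega)]
          simp only [if_pos h, if_neg h']
          exact key j' hj' h'
      · by_cases h' : j' = n
        · rw [if_neg (by omega)]
          simp only [if_neg h, if_pos h']
          have h3 := congrArg star (key j hj h)
          rw [star_sum, star_zero] at h3
          refine Eq.trans (Finset.sum_congr rfl fun i _ => ?_) h3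
          rw [star_mul', star_star, mul_comm]
        · simp only [if_neg h, if_neg h', ← hA']
          exact A'.2.2 j hj j' hj'⟩

/-- unitary matrix `diag(c, 1, …, 1)` -/
theorem diag_unitary_cons (N : ℕ) (c : ℂ) (hc : c * star c = 1) :
    Matrix.diagonal (Fin.cons c fun _ => 1 : Fin (N + 1) → ℂ) ∈ Matrix.unitaryGroup (Fin (N + 1)) ℂ ∧
    Matrix.det (Matrix.diagonal (Fin.cons c fun _ => 1 : Fin (N + 1) → ℂ)) = c := by
  constructor
  · rw [Matrix.mem_unitaryGroup_iff, Matrix.star_eq_conjTranspose, Matrix.diagonal_conjTranspose,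
      Matrix.diagonal_mul_diagonal, ← Matrix.diagonal_one]
    congr 1
    funext x
    refine Fin.cases ?_ (fun y => ?_) x
    · exact hc
    · simp
  · rw [Matrix.det_diagonal, Fin.prod_univ_succ]
    simp

theorem Frame.addCol_rel {n N : ℕ} (A B : Frame n) (g : Matrix (Fin n) (Fin n) ℂ)
    (hg : g ∈ Matrix.unitaryGroup (Fin n) ℂ)
    (hB : ∀ (i : ℕ) (j : Fin n), B.1 i j = ∑ c : Fin n, A.1 i c * g c j) (u w : ℕ → ℂ)
    (hu : IsCol n N u) (hw : IsCol n N w) (h : ∀ i, w i = star g.det * u i) :
    FrameRel {1} (n + N + 1) (A.addCol N u hu) (B.addCol N w hw) := by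
  have hdet : g.det * star g.det = 1 := by
    have h1 := (Matrix.mem_unitaryGroup_iff).1 hg
    have h2 := congrArg Matrix.det h1
    rwa [Matrix.det_mul, Matrix.det_one, Matrix.star_eq_conjTranspose,
      Matrix.det_conjTranspose] at h2
  have hdet' : star g.det * star (star g.det) = 1 := by
    rw [star_star, mul_comm]; exact hdet
  obtain ⟨hd1, hd2⟩ := diag_unitary_cons N (star g.det) hdet'
  have e1 : ∀ (E : Frame n) (z : ℕ → ℂ) (hz : IsCol n N z) (i : ℕ) (j : Fin n),
      (E.addCol N z hz).1 i (Fin.castAdd (N + 1) j : Fin (n + (N + 1))) = E.1 i j := by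
    intro E z hz i j
    show (if ((Fin.castAdd (N + 1) j : Fin (n + (N + 1))) : ℕ) = n then _ else _) = _
    rw [Fin.val_castAdd, if_neg (by omega)]
  have e2 : ∀ (E : Frame n) (z : ℕ → ℂ) (hz : IsCol n N z) (i : ℕ) (j : Fin (N + 1)),
      (E.addCol N z hz).1 i (Fin.natAdd n j : Fin (n + (N + 1))) =
        if (j : ℕ) = 0 then z i else if i = 2 * (n + j) then 1 else 0 := by
    intro E z hz i j
    show (if ((Fin.natAdd n j : Fin (n + (N + 1))) : ℕ) = n then z i else
      E.1 i ((Fin.natAdd n j : Fin (n + (N + 1))) : ℕ)) = _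
    rw [Fin.val_natAdd]
    by_cases hj : (j : ℕ) = 0
    · rw [if_pos (by omega), if_pos hj]
    · rw [if_neg (by omega), if_neg hj]
      exact E.2.1 i (n + j) (Or.inr (by omega))
  show FrameRel {1} (n + (N + 1)) (A.addCol N u hu) (B.addCol N w hw)
  refine ⟨Matrix.reindex finSumFinEquiv finSumFinEquiv (Matrix.fromBlocks g 0 0
    (Matrix.diagonal (Fin.cons (star g.det) fun _ => 1 : Fin (N + 1) → ℂ))),
    blocks_unitary hg hd1, ?_, fun i j => ?_⟩
  · rw [Matrix.det_reindex_self, Matrix.det_fromBlocks_zero₂₁, hd2]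
    exact hdet
  · rw [Fin.sum_univ_add]
    refine Fin.addCases (fun j0 => ?_) (fun j0 => ?_) j
    · rw [e1]
      simp only [e1, Matrix.reindex_apply, Matrix.submatrix_apply,
        finSumFinEquiv_symm_apply_castAdd, finSumFinEquiv_symm_apply_natAdd,
        Matrix.fromBlocks_apply₁₁, Matrix.fromBlocks_apply₂₁, Matrix.zero_apply, mul_zero,
        Finset.sum_const_zero, add_zero]
      exact hB i j0
    · rw [e2]
      simp only [e2, Matrix.reindex_apply, Matrix.submatrix_apply,
        finSumFinEquiv_symm_apply_castAdd, finSumFinEquiv_symm_apply_natAdd,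
        Matrix.fromBlocks_apply₁₂, Matrix.fromBlocks_apply₂₂, Matrix.zero_apply, mul_zero,
        Finset.sum_const_zero, zero_add]
      rw [Finset.sum_eq_single j0]
      · rw [Matrix.diagonal_apply_eq]
        refine Fin.cases ?_ (fun y => ?_) j0
        · rw [if_pos (by simp), if_pos (by simp), Fin.cons_zero, h i, mul_comm]
        · have hy : ((y.succ : Fin (N + 1)) : ℕ) ≠ 0 := by simp
          rw [if_neg hy, if_neg hy, Fin.cons_succ, mul_one]
      · intro b _ hb
        rw [Matrix.diagonal_apply_ne _ hb, mul_zero]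
      · intro h'
        exact absurd (Finset.mem_univ _) h'


theorem Frame.continuous_addCol {n : ℕ} {Z : Type} [TopologicalSpace Z] (N : ℕ) (A : Z → Frame n)
    (hA : Continuous A) (u : Z → ℕ → ℂ) (hu : Continuous u) (h : ∀ z, IsCol n N (u z)) :
    Continuous fun z => (A z).addCol N (u z) (h z) := by
  refine Continuous.subtype_mk ?_ _
  refine continuous_pi fun i => continuous_pi fun j => ?_
  by_cases hj : j = n
  · simp only [if_pos hj]
    exact (continuous_apply i).comp hu
  · simp only [if_neg hj]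
    exact (continuous_apply j).comp ((continuous_apply i).comp (continuous_subtype_val.comp hA))

/-- the column `cos a + sin b` -/
def rotCol (t : ℝ) (a b : ℕ → ℂ) : ℕ → ℂ := fun i =>
  (Real.cos (Real.pi / 2 * t) : ℂ) * a i + (Real.sin (Real.pi / 2 * t) : ℂ) * b i

theorem isCol_rotCol {n N : ℕ} (t : ℝ) {a b : ℕ → ℂ} (ha : IsCol n N a) (hb : IsCol n N b)
    (hab : ∀ i, a i = 0 ∨ b i = 0) : IsCol n N (rotCol t a b) := by
  refine ⟨fun i hi => ?_, fun i hi => ?_, fun j hj => ?_, ?_⟩
  · rw [rotCol, ha.low i hi, hb.low i hi, mul_zero, mul_zero, add_zero]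
  · rw [rotCol, ha.high i hi, hb.high i hi, mul_zero, mul_zero, add_zero]
  · rw [rotCol, ha.even j hj, hb.even j hj, mul_zero, mul_zero, add_zero]
  · have h : ∀ i, star (rotCol t a b i) * rotCol t a b i =
        (Real.cos (Real.pi / 2 * t) : ℂ) ^ 2 * (star (a i) * a i) +
        (Real.sin (Real.pi / 2 * t) : ℂ) ^ 2 * (star (b i) * b i) := by
      intro i
      rw [rotCol, star_add, star_mul', star_mul', Complex.star_def,
        Complex.conj_ofReal, Complex.conj_ofReal]
      rcases hab i with h | h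
      · rw [h]; simp only [map_zero]; ring
      · rw [h]; simp only [map_zero]; ring
    simp only [h]
    rw [Finset.sum_add_distrib, ← Finset.mul_sum, ← Finset.mul_sum, ha.unit, hb.unit, mul_one,
      mul_one]
    have := Real.cos_sq_add_sin_sq (Real.pi / 2 * t)
    exact_mod_cast this

/-- Rotation of the new column from `a` to `b`. -/
theorem addCol_homotopic {X Y : Type} [TopologicalSpace X] [TopologicalSpace Y] (q : Y → X)
    (hq : IsQuotientMap q) {n : ℕ} (C : Y → Frame n) (hC : Continuous C) (N : ℕ)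
    (a b : Y → ℕ → ℂ) (ha : Continuous a) (hb : Continuous b)
    (ca : ∀ y, IsCol n N (a y)) (cb : ∀ y, IsCol n N (b y)) (hab : ∀ y i, a y i = 0 ∨ b y i = 0)
    (he : ∀ y y', q y = q y' → ∃ g ∈ Matrix.unitaryGroup (Fin n) ℂ,
      (∀ (i : ℕ) (j : Fin n), (C y').1 i j = ∑ c : Fin n, (C y).1 i c * g c j) ∧
      (∀ i, a y' i = star g.det * a y i) ∧ (∀ i, b y' i = star g.det * b y i)) :
    ∃ F G : C(X, BG {1}), F.Homotopic G ∧
      (∀ y, F (q y) = Quot.mk _ ⟨_, (C y).addCol N (a y) (ca y)⟩) ∧
      (∀ y, G (q y) = Quot.mk _ ⟨_, (C y).addCol N (b y) (cb y)⟩) := by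
  have hcont : Continuous fun x : unitInterval × Y => rotCol (x.1 : ℝ) (a x.2) (b x.2) := by
    refine continuous_pi fun i => ?_
    have h1 : Continuous fun x : unitInterval × Y => a x.2 i :=
      (continuous_apply i).comp (ha.comp continuous_snd)
    have h2 : Continuous fun x : unitInterval × Y => b x.2 i :=
      (continuous_apply i).comp (hb.comp continuous_snd)
    have h3 : Continuous fun x : unitInterval × Y => (Real.cos (Real.pi / 2 * (x.1 : ℝ)) : ℂ) :=
      Complex.continuous_ofReal.comp (Real.continuous_cos.comp (by fun_prop))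
    have h4 : Continuous fun x : unitInterval × Y => (Real.sin (Real.pi / 2 * (x.1 : ℝ)) : ℂ) :=
      Complex.continuous_ofReal.comp (Real.continuous_sin.comp (by fun_prop))
    exact (h3.mul h1).add (h4.mul h2)
  obtain ⟨H, hH⟩ := homotopic_of_frames (D := {1}) q hq
    (fun x : unitInterval × Y => (C x.2).addCol N (rotCol (x.1 : ℝ) (a x.2) (b x.2))
      (isCol_rotCol _ (ca x.2) (cb x.2) (hab x.2)))
    (Frame.continuous_addCol N _ (hC.comp continuous_snd) _ hcont _) (by
      intro t y y' hyy
      obtain ⟨g, hg, h1, h2, h3⟩ := he y y' hyy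
      refine Quot.sound (.rot (Frame.addCol_rel _ _ g hg h1 _ _ _ _ fun i => ?_))
      show rotCol (t : ℝ) (a y') (b y') i = star g.det * rotCol (t : ℝ) (a y) (b y) i
      rw [rotCol, rotCol, h2 i, h3 i]
      ring)
  have e0 : ∀ y, rotCol ((0 : unitInterval) : ℝ) (a y) (b y) = a y := by
    intro y; funext i; simp [rotCol]
  have e1 : ∀ y, rotCol ((1 : unitInterval) : ℝ) (a y) (b y) = b y := by
    intro y; funext i; simp [rotCol]
  refine ⟨⟨fun x => H (0, x), H.continuous.comp (by fun_prop)⟩,
    ⟨fun x => H (1, x), H.continuous.comp (by fun_prop)⟩,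
    ⟨⟨H, fun x => rfl, fun x => rfl⟩⟩, fun y => ?_, fun y => ?_⟩
  · refine (hH 0 y).trans (congrArg (Quot.mk _) ?_)
    congr 1
    refine Subtype.ext ?_
    funext i j
    show (if j = n then rotCol _ (a y) (b y) i else _) = if j = n then a y i else _
    rw [e0]
  · refine (hH 1 y).trans (congrArg (Quot.mk _) ?_)
    congr 1
    refine Subtype.ext ?_
    funext i j
    show (if j = n then rotCol _ (a y) (b y) i else _) = if j = n then b y i else _
    rw [e1]

/-- the column of `addVec` -/
def colOf (n : ℕ) (v : ℕ → ℂ) : ℕ → ℂ := fun i =>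
  if 2 * n ≤ i ∧ (i - 2 * n) % 2 = 1 then v ((i - 2 * n) / 2) else 0

theorem isCol_colOf {n N : ℕ} {v : ℕ → ℂ} (h0 : ∀ i, N ≤ i → v i = 0)
    (h1 : ∑ i ∈ Finset.range N, star (v i) * v i = 1) : IsCol n N (colOf n v) := by
  refine ⟨fun i hi => if_neg (by omega), fun i hi => ?_, fun j hj => if_neg (by omega), ?_⟩
  · by_cases h : 2 * n ≤ i ∧ (i - 2 * n) % 2 = 1
    · rw [colOf, if_pos h]
      exact h0 _ (by omega)
    · rw [colOf, if_neg h]
  · have h2 := ((Frame.std n).addVec N v h0 h1).2.2 n (by omega) n (by omega)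
    rw [if_pos rfl] at h2
    refine Eq.trans (Finset.sum_congr rfl fun i _ => ?_) h2
    show _ = star (if n = n then _ else _) * (if n = n then _ else _)
    rw [if_pos rfl]
    rfl

theorem continuous_colOf {Y : Type} [TopologicalSpace Y] (n : ℕ) {v : Y → ℕ → ℂ}
    (hv : Continuous v) : Continuous fun y => colOf n (v y) := by
  refine continuous_pi fun i => ?_
  by_cases h : 2 * n ≤ i ∧ (i - 2 * n) % 2 = 1
  · simp only [colOf, if_pos h]
    exact (continuous_apply _).comp hv
  · simp only [colOf, if_neg h]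
    exact continuous_const

/-- the shifted vector -/
def shiftV (N : ℕ) (v : ℕ → ℂ) : ℕ → ℂ := fun i => if N ≤ i then v (i - N) else 0

theorem continuous_shiftV {Y : Type} [TopologicalSpace Y] (N : ℕ) {v : Y → ℕ → ℂ}
    (hv : Continuous v) : Continuous fun y => shiftV N (v y) := by
  refine continuous_pi fun i => ?_
  by_cases h : N ≤ i
  · simp only [shiftV, if_pos h]
    exact (continuous_apply _).comp hv
  · simp only [shiftV, if_neg h]
    exact continuous_const

theorem vec_homotopy_aux {X Y : Type} [TopologicalSpace X] [TopologicalSpace Y] (q : Y → X)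
    (hq : IsQuotientMap q) {n : ℕ} (C : Y → Frame n) (hC : Continuous C) (N : ℕ)
    (v w : Y → ℕ → ℂ) (hv : Continuous v) (hw : Continuous w)
    (sv : ∀ y i, N ≤ i → v y i = 0)
    (uv : ∀ y, ∑ i ∈ Finset.range N, star (v y i) * v y i = 1)
    (he : ∀ y y', q y = q y' → ∃ g ∈ Matrix.unitaryGroup (Fin n) ℂ,
      (∀ (i : ℕ) (j : Fin n), (C y').1 i j = ∑ c : Fin n, (C y).1 i c * g c j) ∧
      (∀ i, v y' i = star g.det * v y i) ∧ (∀ i, w y' i = star g.det * w y i))
    (F G : C(X, BG {1}))
    (hF : ∀ y, F (q y) = Quot.mk _ ⟨_, (C y).addVec N (v y) (sv y) (uv y)⟩)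
    (s2 : ∀ y i, N + N ≤ i → shiftV N (w y) i = 0)
    (u2 : ∀ y, ∑ i ∈ Finset.range (N + N), star (shiftV N (w y) i) * shiftV N (w y) i = 1)
    (hG : ∀ y, G (q y) = Quot.mk _ ⟨_, (C y).addCol (N + N) (colOf n (shiftV N (w y)))
      (isCol_colOf (s2 y) (u2 y))⟩) :
    F.Homotopic G := by
  have u1 : ∀ y, ∑ i ∈ Finset.range (N + N), star (v y i) * v y i = 1 := by
    intro y
    rw [Finset.sum_range_add, uv y, Finset.sum_eq_zero, add_zero]
    intro i _
    rw [sv y (N + i) (by omega), mul_zero]
  obtain ⟨F', G', h1, h2, h3⟩ := addCol_homotopic q hq C hC (N + N) (fun y => colOf n (v y))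
    (fun y => colOf n (shiftV N (w y))) (continuous_colOf n hv)
    (continuous_colOf n (continuous_shiftV N hw))
    (fun y => isCol_colOf (fun i hi => sv y i (by omega)) (u1 y))
    (fun y => isCol_colOf (s2 y) (u2 y))
    (by
      intro y i
      by_cases h : 2 * n ≤ i ∧ (i - 2 * n) % 2 = 1
      · simp only [colOf, if_pos h]
        by_cases h' : N ≤ (i - 2 * n) / 2
        · exact Or.inl (sv y _ h')
        · exact Or.inr (if_neg h')
      · simp only [colOf, if_neg h, or_self])
    (by
      intro y y' hyy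
      obtain ⟨g, hg, h1, h2, h3⟩ := he y y' hyy
      refine ⟨g, hg, h1, fun i => ?_, fun i => ?_⟩
      · by_cases h : 2 * n ≤ i ∧ (i - 2 * n) % 2 = 1
        · simp only [colOf, if_pos h]
          exact h2 _
        · simp only [colOf, if_neg h, mul_zero]
      · by_cases h : 2 * n ≤ i ∧ (i - 2 * n) % 2 = 1
        · simp only [colOf, if_pos h]
          by_cases h' : N ≤ (i - 2 * n) / 2
          · simp only [shiftV, if_pos h']
            exact h3 _
          · simp only [shiftV, if_neg h', mul_zero]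
        · simp only [colOf, if_neg h, mul_zero])
  have e1 : F = F' := by
    refine ContinuousMap.ext fun x => ?_
    obtain ⟨y, rfl⟩ := hq.surjective x
    rw [hF y, h2 y]
    exact BG.mk_eq_of_eq _ _ rfl
  have e2 : G = G' := by
    refine ContinuousMap.ext fun x => ?_
    obtain ⟨y, rfl⟩ := hq.surjective x
    rw [hG y, h3 y]
  rw [e1, e2]
  exact h1

/-- (V) Two equivariant vectors over the same family of frames give homotopic maps. -/
theorem vec_homotopy {X Y : Type} [TopologicalSpace X] [TopologicalSpace Y] (q : Y → X)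
    (hq : IsQuotientMap q) {n : ℕ} (C : Y → Frame n) (hC : Continuous C) (N : ℕ)
    (v w : Y → ℕ → ℂ) (hv : Continuous v) (hw : Continuous w)
    (sv : ∀ y i, N ≤ i → v y i = 0) (sw : ∀ y i, N ≤ i → w y i = 0)
    (uv : ∀ y, ∑ i ∈ Finset.range N, star (v y i) * v y i = 1)
    (uw : ∀ y, ∑ i ∈ Finset.range N, star (w y i) * w y i = 1)
    (he : ∀ y y', q y = q y' → ∃ g ∈ Matrix.unitaryGroup (Fin n) ℂ,
      (∀ (i : ℕ) (j : Fin n), (C y').1 i j = ∑ c : Fin n, (C y).1 i c * g c j) ∧
      (∀ i, v y' i = star g.det * v y i) ∧ (∀ i, w y' i = star g.det * w y i))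
    (F G : C(X, BG {1}))
    (hF : ∀ y, F (q y) = Quot.mk _ ⟨_, (C y).addVec N (v y) (sv y) (uv y)⟩)
    (hG : ∀ y, G (q y) = Quot.mk _ ⟨_, (C y).addVec N (w y) (sw y) (uw y)⟩) :
    F.Homotopic G := by
  have s2 : ∀ y i, N + N ≤ i → shiftV N (w y) i = 0 := by
    intro y i hi
    rw [shiftV, if_pos (by omega)]
    exact sw y _ (by omega)
  have u2 : ∀ y, ∑ i ∈ Finset.range (N + N), star (shiftV N (w y) i) * shiftV N (w y) i = 1 := by
    intro y
    rw [Finset.sum_range_add, Finset.sum_eq_zero, zero_add, ← uw y]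
    · refine Finset.sum_congr rfl fun i _ => ?_
      rw [shiftV, if_pos (by omega), Nat.add_sub_cancel_left]
    · intro i hi
      rw [Finset.mem_range] at hi
      rw [shiftV, if_neg (by omega), mul_zero]
  have u1 : ∀ y, ∑ i ∈ Finset.range (N + N), star (v y i) * v y i = 1 := by
    intro y
    rw [Finset.sum_range_add, uv y, Finset.sum_eq_zero, add_zero]
    intro i _
    rw [sv y (N + i) (by omega), mul_zero]
  -- the middle map
  obtain ⟨F', K, -, -, hK⟩ := addCol_homotopic q hq C hC (N + N) (fun y => colOf n (v y))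
    (fun y => colOf n (shiftV N (w y))) (continuous_colOf n hv)
    (continuous_colOf n (continuous_shiftV N hw))
    (fun y => isCol_colOf (fun i hi => sv y i (by omega)) (u1 y))
    (fun y => isCol_colOf (s2 y) (u2 y))
    (by
      intro y i
      by_cases h : 2 * n ≤ i ∧ (i - 2 * n) % 2 = 1
      · simp only [colOf, if_pos h]
        by_cases h' : N ≤ (i - 2 * n) / 2
        · exact Or.inl (sv y _ h')
        · exact Or.inr (if_neg h')
      · simp only [colOf, if_neg h, or_self])
    (by
      intro y y' hyy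
      obtain ⟨g, hg, h1, h2, h3⟩ := he y y' hyy
      refine ⟨g, hg, h1, fun i => ?_, fun i => ?_⟩
      · by_cases h : 2 * n ≤ i ∧ (i - 2 * n) % 2 = 1
        · simp only [colOf, if_pos h]
          exact h2 _
        · simp only [colOf, if_neg h, mul_zero]
      · by_cases h : 2 * n ≤ i ∧ (i - 2 * n) % 2 = 1
        · simp only [colOf, if_pos h]
          by_cases h' : N ≤ (i - 2 * n) / 2
          · simp only [shiftV, if_pos h']
            exact h3 _
          · simp only [shiftV, if_neg h', mul_zero]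
        · simp only [colOf, if_neg h, mul_zero])
  have a1 := vec_homotopy_aux q hq C hC N v w hv hw sv uv he F K hF s2 u2 hK
  have a2 := vec_homotopy_aux q hq C hC N w w hw hw sw uw (fun y y' h => by
    obtain ⟨g, hg, h1, h2, h3⟩ := he y y' h
    exact ⟨g, hg, h1, h3, h3⟩) G K hG s2 u2 hK
  exact a1.trans a2.symm

/-- for a group `D` of determinants the relation is exact -/
theorem frameRel_of_eq {D : Set ℂ} (h1 : (1 : ℂ) ∈ D) (hm : ∀ a ∈ D, ∀ b ∈ D, a * b ∈ D)
    (hs : ∀ a ∈ D, star a ∈ D) {k : ℕ} {A B : Frame k}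
    (h : (Quot.mk (FrameRel D k) A : Gr D k) = Quot.mk _ B) : FrameRel D k A B := by
  have h' := Quot.eqvGen_exact h
  clear h
  induction h' with
  | rel x y h => exact h
  | refl x =>
    refine ⟨1, one_mem _, by rwa [Matrix.det_one], fun i j => ?_⟩
    simp [Matrix.one_apply]
  | symm x y _ ih =>
    obtain ⟨g, hg, hd, rfl⟩ := frameRel_iff ih
    have e1 : g * star g = 1 := (Matrix.mem_unitaryGroup_iff).1 hg
    have e2 : star g * g = 1 := (Matrix.mem_unitaryGroup_iff').1 hg
    have hsg : star g ∈ Matrix.unitaryGroup (Fin k) ℂ :=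
      (Matrix.mem_unitaryGroup_iff).2 (by rw [star_star]; exact e2)
    have h3 := frameRel_rot (D := D) (x.rot g hg) (star g) hsg (by
      rw [Matrix.star_eq_conjTranspose, Matrix.det_conjTranspose]
      exact hs _ hd)
    rwa [Frame.rot_rot_star _ _ _ _ _ e1] at h3
  | trans x y z _ _ ih1 ih2 =>
    obtain ⟨g, hg, hd, hB⟩ := ih1
    obtain ⟨g', hg', hd', hB'⟩ := ih2
    refine ⟨g * g', mul_mem hg hg', ?_, fun i j => ?_⟩
    · rw [Matrix.det_mul]
      exact hm _ hd _ hd'
    · rw [hB' i j]
      simp only [hB, Matrix.mul_apply, Finset.mul_sum, Finset.sum_mul]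
      rw [Finset.sum_comm]
      refine Finset.sum_congr rfl fun c _ => Finset.sum_congr rfl fun d _ => ?_
      ring

theorem sum_of_support {N M : ℕ} (h : N ≤ M) {v : ℕ → ℂ} (h0 : ∀ i, N ≤ i → v i = 0)
    (h1 : ∑ i ∈ Finset.range N, star (v i) * v i = 1) :
    ∑ i ∈ Finset.range M, star (v i) * v i = 1 := by
  rw [← h1]
  refine (Finset.sum_subset (Finset.range_mono h) fun i _ hi => ?_).symm
  rw [h0 i (by simpa using hi), mul_zero]

/-- (1) independence of the equivariant vector -/
theorem DetVec.r_homotopic {l : ℕ} (V W : DetVec l) : V.r.Homotopic W.r := by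
  have sv : ∀ A i, max V.N W.N ≤ i → V.v A i = 0 := fun A i hi =>
    V.supp A i ((le_max_left _ _).trans hi)
  have sw : ∀ A i, max V.N W.N ≤ i → W.v A i = 0 := fun A i hi =>
    W.supp A i ((le_max_right _ _).trans hi)
  refine vec_homotopy (Quot.mk (FrameRel Set.univ l) : Frame l → Gr Set.univ l)
    (isOpenQuotientMap_gr Set.univ l).isQuotientMap (fun A => A) continuous_id (max V.N W.N)
    V.v W.v V.cont W.cont sv sw
    (fun A => sum_of_support (le_max_left _ _) (V.supp A) (V.unit A))
    (fun A => sum_of_support (le_max_right _ _) (W.supp A) (W.unit A)) ?_ V.r W.r ?_ ?_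
  · intro A B hAB
    obtain ⟨g, hg, -, hB⟩ := frameRel_of_eq (D := Set.univ) (mem_univ _) (fun _ _ _ _ => mem_univ _)
      (fun _ _ => mem_univ _) hAB
    exact ⟨g, hg, hB, V.equiv A B g hg hB, W.equiv A B g hg hB⟩
  · intro A
    exact BG.mk_eq_of_eq (D := {1}) (A.addVec V.N (V.v A) (V.supp A) (V.unit A)) _ rfl
  · intro A
    exact BG.mk_eq_of_eq (D := {1}) (A.addVec W.N (W.v A) (W.supp A) (W.unit A)) _ rfl

/-- the rotation of the column `e_2` to `e_0` -/
def nextFam {l : ℕ} (V : DetVec l) (p : unitInterval × Frame l) : Frame (l + (2 + V.N)) :=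
  p.2.sum (twoVec V.N _ _ (twoCol_aux V.N (V.v p.2) (V.supp p.2) (V.unit p.2)
    (Real.cos (p.1 * (Real.pi / 2))) (Real.sin (p.1 * (Real.pi / 2)))
    (Real.cos_sq_add_sin_sq _)))

theorem nextFam_apply {l : ℕ} (V : DetVec l) (p : unitInterval × Frame l) (i j : ℕ) :
    (nextFam V p).1 i j = if j < l then p.2.1 i j else if i < 2 * l then 0 else
      if j - l = 0 then (if 3 ≤ i - 2 * l ∧ (i - 2 * l) % 2 = 1 then
        V.v p.2 ((i - 2 * l - 3) / 2) else 0)
      else if j - l = 1 then (if i - 2 * l = 0 then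
        ((Real.sin (p.1 * (Real.pi / 2)) : ℝ) : ℂ) else if i - 2 * l = 2 then
        ((Real.cos (p.1 * (Real.pi / 2)) : ℝ) : ℂ) else 0)
      else if i - 2 * l = 2 * (j - l) then 1 else 0 := rfl

theorem nextFam_continuous {l : ℕ} (V : DetVec l) : Continuous (nextFam V) := by
  refine Continuous.subtype_mk (continuous_pi fun i => continuous_pi fun j => ?_) _
  show Continuous fun p => (nextFam V p).1 i j
  simp only [nextFam_apply]
  by_cases h1 : j < l
  · simp only [if_pos h1]
    exact (continuous_apply j).comp ((continuous_apply i).comp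
      (continuous_subtype_val.comp continuous_snd))
  · simp only [if_neg h1]
    by_cases h2 : i < 2 * l
    · simp only [if_pos h2]
      exact continuous_const
    · simp only [if_neg h2]
      by_cases h3 : j - l = 0
      · simp only [if_pos h3]
        by_cases h4 : 3 ≤ i - 2 * l ∧ (i - 2 * l) % 2 = 1
        · simp only [if_pos h4]
          exact (continuous_apply _).comp (V.cont.comp continuous_snd)
        · simp only [if_neg h4]
          exact continuous_const
      · simp only [if_neg h3]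
        by_cases h4 : j - l = 1
        · simp only [if_pos h4]
          by_cases h5 : i - 2 * l = 0
          · simp only [if_pos h5]
            exact Complex.continuous_ofReal.comp (Real.continuous_sin.comp (by fun_prop))
          · simp only [if_neg h5]
            by_cases h6 : i - 2 * l = 2
            · simp only [if_pos h6]
              exact Complex.continuous_ofReal.comp (Real.continuous_cos.comp (by fun_prop))
            · simp only [if_neg h6]
              exact continuous_const
        · simp only [if_neg h4]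
          exact continuous_const

theorem incl_rot {l : ℕ} {A A' : Frame l} {g : Matrix (Fin l) (Fin l) ℂ}
    (hA : ∀ (i : ℕ) (j : Fin l), A'.1 i j = ∑ c : Fin l, A.1 i c * g c j)
    (i : ℕ) (j : Fin (l + 1)) : A'.incl.1 i j = ∑ m : Fin (l + 1), A.incl.1 i m *
      (Matrix.reindex finSumFinEquiv finSumFinEquiv
        (Matrix.fromBlocks g 0 0 (1 : Matrix (Fin 1) (Fin 1) ℂ))) m j := by
  have e : ∀ B : Frame l, B.incl.1 = (B.sum (Frame.std 1)).1 := by
    intro B
    funext i j
    show B.1 i j = if j < l then B.1 i j else if i < 2 * l then 0 else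
      (if i - 2 * l = 2 * (j - l) then 1 else 0)
    by_cases h1 : j < l
    · rw [if_pos h1]
    · rw [if_neg h1, B.2.1 i j (Or.inr (by omega))]
      by_cases h2 : i < 2 * l
      · rw [if_pos h2, if_neg (by omega)]
      · rw [if_neg h2]
        by_cases h3 : i = 2 * j
        · rw [if_pos h3, if_pos (by omega)]
        · rw [if_neg h3, if_neg (by omega)]
  rw [e, e]
  exact frame_sum_rot hA (fun i j => by
    rw [Subsingleton.elim j 0]
    simp) i j

theorem r_next_aux1 {l : ℕ} (V : DetVec l) (G : C(Gr Set.univ l, BG {1}))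
    (hG : ∀ A : Frame l, G (Quot.mk _ A) = Quot.mk _ ⟨_, nextFam V (0, A)⟩) :
    V.r.Homotopic G := by
  refine vec_homotopy (Quot.mk (FrameRel Set.univ l)) (isOpenQuotientMap_gr Set.univ l).isQuotientMap
    (fun A => A) continuous_id (V.N + 1) V.v (fun A i => if i = 0 then 0 else V.v A (i - 1))
    V.cont ?_ (fun A i hi => V.supp A i (by omega)) (fun A i hi => ?_)
    (fun A => (sum_range_supp (Nat.le_succ _) (V.supp A)).trans (V.unit A)) (fun A => ?_) ?_ _ _ ?_ ?_
  · refine continuous_pi fun i => ?_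
    by_cases h : i = 0
    · simp only [if_pos h]
      exact continuous_const
    · simp only [if_neg h]
      exact (continuous_apply _).comp V.cont
  · rw [if_neg (by omega)]
    exact V.supp A _ (by omega)
  · rw [Finset.sum_range_succ', if_pos rfl, mul_zero, add_zero, ← V.unit A]
    refine Finset.sum_congr rfl fun i _ => ?_
    rw [if_neg (by omega), Nat.add_sub_cancel]
  · intro A A' h
    obtain ⟨g, hg, -, hA⟩ := frameRel_exact_univ h
    refine ⟨g, hg, hA, V.equiv A A' g hg hA, fun i => ?_⟩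
    by_cases h : i = 0
    · rw [if_pos h, if_pos h, mul_zero]
    · rw [if_neg h, if_neg h]
      exact V.equiv A A' g hg hA _
  · intro A
    exact BG.mk_eq_of_eq _ _ rfl
  · intro A
    refine (hG A).trans (BG.mk_eq_of_eq _ _ ?_)
    funext i j
    rw [nextFam_apply]
    show _ = (if j = l then (if 2 * l ≤ i ∧ (i - 2 * l) % 2 = 1 then
      (if (i - 2 * l) / 2 = 0 then 0 else V.v A ((i - 2 * l) / 2 - 1)) else 0) else A.1 i j)
    dsimp only
    by_cases h1 : j < l
    · rw [if_pos h1, if_neg (by omega)]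
    · rw [if_neg h1]
      by_cases h2 : j = l
      · rw [if_pos h2, if_pos (by omega : j - l = 0)]
        by_cases h3 : i < 2 * l
        · rw [if_pos h3, if_neg (by omega)]
        · rw [if_neg h3]
          by_cases h4 : (i - 2 * l) % 2 = 1
          · rw [if_pos (by omega : 2 * l ≤ i ∧ (i - 2 * l) % 2 = 1)]
            by_cases h5 : 3 ≤ i - 2 * l
            · rw [if_pos ⟨h5, h4⟩, if_neg (by omega)]
              congr 1
              omega
            · rw [if_neg (by omega), if_pos (by omega)]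
          · rw [if_neg (by omega), if_neg (by omega)]
      · rw [if_neg h2, if_neg (by omega : ¬ j - l = 0), A.2.1 i j (Or.inr (by omega))]
        by_cases h3 : i < 2 * l
        · rw [if_pos h3, if_neg (by omega)]
        · rw [if_neg h3]
          by_cases h4 : j - l = 1
          · rw [if_pos h4]
            by_cases h5 : i - 2 * l = 0
            · rw [if_pos h5, if_neg (by omega)]
              simp
            · rw [if_neg h5]
              by_cases h6 : i - 2 * l = 2
              · rw [if_pos h6, if_pos (by omega)]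
                simp
              · rw [if_neg h6, if_neg (by omega)]
          · rw [if_neg h4]
            by_cases h5 : i = 2 * j
            · rw [if_pos h5, if_pos (by omega)]
            · rw [if_neg h5, if_neg (by omega)]

theorem r_next_aux2 {l : ℕ} (V : DetVec l) (A : Frame l) (N : ℕ) (w : ℕ → ℂ)
    (hw : ∀ i, w i = - V.v A i) (h0 : ∀ i, N ≤ i → w i = 0)
    (h1 : ∑ i ∈ Finset.range N, star (w i) * w i = 1) :
    (Quot.mk _ ⟨_, nextFam V (1, A)⟩ : BG {1}) = Quot.mk _ ⟨_, A.incl.addVec N w h0 h1⟩ := by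
  have hc : Real.cos (((1 : unitInterval) : ℝ) * (Real.pi / 2)) = 0 := by
    rw [Set.Icc.coe_one, one_mul, Real.cos_pi_div_two]
  have hs : Real.sin (((1 : unitInterval) : ℝ) * (Real.pi / 2)) = 1 := by
    rw [Set.Icc.coe_one, one_mul, Real.sin_pi_div_two]
  have hT := twoCol_aux V.N (V.v A) (V.supp A) (V.unit A)
    (Real.cos (((1 : unitInterval) : ℝ) * (Real.pi / 2)))
    (Real.sin (((1 : unitInterval) : ℝ) * (Real.pi / 2))) (Real.cos_sq_add_sin_sq _)
  have hT' : TwoCol V.N
      (fun i => if i = 0 then ((Real.sin (((1 : unitInterval) : ℝ) * (Real.pi / 2)) : ℝ) : ℂ)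
        else if i = 2 then ((Real.cos (((1 : unitInterval) : ℝ) * (Real.pi / 2)) : ℝ) : ℂ) else 0)
      (fun i => - (if 3 ≤ i ∧ i % 2 = 1 then V.v A ((i - 3) / 2) else 0)) :=
    ⟨hT.hy, fun i hi => by rw [hT.hx i hi, neg_zero], hT.hy',
      fun j hj => by rw [hT.hx' j hj, neg_zero], hT.yy, by
        rw [← hT.xx]
        exact Finset.sum_congr rfl fun i _ => by rw [star_neg, neg_mul_neg], by
        have h2 := congrArg star hT.xy
        rw [star_sum, star_zero] at h2
        have h3 := congrArg Neg.neg h2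
        rw [neg_zero, ← Finset.sum_neg_distrib] at h3
        refine Eq.trans (Finset.sum_congr rfl fun i _ => ?_) h3
        rw [star_mul, star_star, mul_neg]⟩
  have hg : (!![0, -1; 1, 0] : Matrix (Fin 2) (Fin 2) ℂ) ∈ Matrix.unitaryGroup (Fin 2) ℂ := by
    rw [Matrix.mem_unitaryGroup_iff]
    ext i j
    fin_cases i <;> fin_cases j <;> simp [Matrix.mul_apply, Matrix.star_apply]
  have hrel : FrameRel {1} (l + (2 + V.N)) (nextFam V (1, A)) (A.sum (twoVec V.N _ _ hT')) :=
    sum_twoVec_rel hT hT' (one_mem _) (fun i j => by simp [Matrix.one_apply]) hg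
      (by simp [Matrix.det_fin_two]) (fun i => by simp) (fun i => by simp)
  refine (Quot.sound (BRel.rot hrel)).trans (BG.mk_eq_of_eq _ _ ?_)
  funext i j
  show (if j < l then A.1 i j else if i < 2 * l then 0 else
      if j - l = 0 then (if i - 2 * l = 0 then
        ((Real.sin (((1 : unitInterval) : ℝ) * (Real.pi / 2)) : ℝ) : ℂ) else if i - 2 * l = 2 then
        ((Real.cos (((1 : unitInterval) : ℝ) * (Real.pi / 2)) : ℝ) : ℂ) else 0)
      else if j - l = 1 then (- (if 3 ≤ i - 2 * l ∧ (i - 2 * l) % 2 = 1 then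
        V.v A ((i - 2 * l - 3) / 2) else 0))
      else if i - 2 * l = 2 * (j - l) then 1 else 0) =
    (if j = l + 1 then (if 2 * (l + 1) ≤ i ∧ (i - 2 * (l + 1)) % 2 = 1 then
      w ((i - 2 * (l + 1)) / 2) else 0) else A.1 i j)
  rw [hc, hs]
  by_cases h1 : j < l
  · rw [if_pos h1, if_neg (by omega)]
  · rw [if_neg h1, A.2.1 i j (Or.inr (by omega))]
    by_cases h2 : j = l
    · rw [if_pos (by omega : j - l = 0), if_neg (by omega : ¬ j = l + 1)]
      by_cases h3 : i < 2 * l
      · rw [if_pos h3, if_neg (by omega)]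
      · rw [if_neg h3]
        by_cases h4 : i - 2 * l = 0
        · rw [if_pos h4, if_pos (by omega)]
          simp
        · rw [if_neg h4]
          by_cases h5 : i - 2 * l = 2
          · rw [if_pos h5, if_neg (by omega)]
            simp
          · rw [if_neg h5, if_neg (by omega)]
    · rw [if_neg (by omega : ¬ j - l = 0)]
      by_cases h3 : j = l + 1
      · rw [if_pos h3, if_pos (by omega : j - l = 1)]
        by_cases h4 : i < 2 * l
        · rw [if_pos h4, if_neg (by omega)]
        · rw [if_neg h4]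
          by_cases h5 : 3 ≤ i - 2 * l ∧ (i - 2 * l) % 2 = 1
          · rw [if_pos h5, if_pos (by omega), hw]
            congr 2
            omega
          · rw [if_neg h5, if_neg (by omega), neg_zero]
      · rw [if_neg h3, if_neg (by omega : ¬ j - l = 1)]
        by_cases h4 : i < 2 * l
        · rw [if_pos h4, if_neg (by omega)]
        · rw [if_neg h4]
          by_cases h5 : i = 2 * j
          · rw [if_pos h5, if_pos (by omega)]
          · rw [if_neg h5, if_neg (by omega)]

theorem r_next_aux3 {l : ℕ} (V : DetVec l) (W : DetVec (l + 1)) (G : C(Gr Set.univ l, BG {1}))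
    (hG : ∀ A : Frame l, G (Quot.mk _ A) = Quot.mk _ ⟨_, nextFam V (1, A)⟩) :
    (W.r.comp Gr.next).Homotopic G := by
  have hci : Continuous fun A : Frame l => A.incl :=
    Continuous.subtype_mk continuous_subtype_val _
  refine vec_homotopy (Quot.mk (FrameRel Set.univ l)) (isOpenQuotientMap_gr Set.univ l).isQuotientMap
    (fun A => A.incl) hci (max V.N W.N) (fun A => W.v A.incl) (fun A i => - V.v A i)
    (W.cont.comp hci) (continuous_pi fun i => ((continuous_apply i).comp V.cont).neg)
    (fun A i hi => W.supp _ i (le_trans (le_max_right _ _) hi))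
    (fun A i hi => by rw [V.supp _ i (le_trans (le_max_left _ _) hi), neg_zero])
    (fun A => (sum_range_supp (le_max_right _ _) (W.supp _)).trans (W.unit _))
    (fun A => ?_) ?_ _ _ ?_ ?_
  · rw [← (sum_range_supp (le_max_left V.N W.N) (V.supp A)).trans (V.unit A)]
    exact Finset.sum_congr rfl fun i _ => by rw [star_neg, neg_mul_neg]
  · intro A A' h
    obtain ⟨g, hg, -, hA⟩ := frameRel_exact_univ h
    have hrel := incl_rot hA
    have hdet : (Matrix.reindex finSumFinEquiv finSumFinEquiv
        (Matrix.fromBlocks g 0 0 (1 : Matrix (Fin 1) (Fin 1) ℂ))).det = g.det := by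
      rw [det_blocks, Matrix.det_one, mul_one]
    refine ⟨_, blocks_unitary hg (one_mem _), hrel, ?_, ?_⟩
    · exact W.equiv _ _ _ (blocks_unitary hg (one_mem _)) hrel
    · intro i
      rw [hdet, V.equiv A A' g hg hA i, mul_neg]
  · intro A
    exact BG.mk_eq_of_eq _ _ rfl
  · intro A
    refine (hG A).trans (r_next_aux2 V A _ _ (fun i => rfl) _ _)

/-- (2) compatibility with stabilisation -/
theorem DetVec.r_next {l : ℕ} (V : DetVec l) (W : DetVec (l + 1)) :
    (W.r.comp Gr.next).Homotopic V.r := by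
  obtain ⟨F, G, hFG, hF, hG⟩ := frame_homotopy (Quot.mk (FrameRel Set.univ l))
    (isOpenQuotientMap_gr Set.univ l) (nextFam V) (nextFam_continuous V) (fun s A A' h => by
      obtain ⟨g, hg, -, hA⟩ := frameRel_exact_univ h
      have h1 : g.det * star g.det = 1 := by
        have h2 := congrArg Matrix.det ((Matrix.mem_unitaryGroup_iff).1 hg)
        rw [Matrix.det_mul, Matrix.det_one, Matrix.star_eq_conjTranspose,
          Matrix.det_conjTranspose] at h2
        exact h2
      have h3 : star g.det * g.det = 1 := by rw [mul_comm]; exact h1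
      refine sum_twoVec_rel _ _ (gA := g) hg hA (g := !![star g.det, 0; 0, 1]) ?_ ?_ ?_ ?_
      · rw [Matrix.mem_unitaryGroup_iff]
        ext i j
        fin_cases i <;> fin_cases j <;>
          simp [Matrix.mul_apply, Matrix.star_apply]
        exact h3
      · rw [Matrix.det_fin_two_of]
        simpa using h1
      · intro i
        have h4 := V.equiv A A' g hg hA
        by_cases h5 : 3 ≤ i ∧ i % 2 = 1
        · simp only [if_pos h5, h4]
          simp [mul_comm]
        · simp only [if_neg h5]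
          simp
      · intro i
        simp)
  exact (r_next_aux3 V W G hG).trans (hFG.symm.trans (r_next_aux1 V F hF).symm)

theorem isCol_std (n N : ℕ) : IsCol n N (fun i => if i = 2 * n then 1 else 0) := by
  refine ⟨fun i hi => if_neg (by omega), fun i hi => if_neg (by omega),
    fun j hj => if_neg (by omega), ?_⟩
  rw [Finset.sum_eq_single (2 * n)]
  · rw [if_pos rfl, star_one, one_mul]
  · intro i _ hi
    rw [if_neg hi, mul_zero]
  · intro h
    exact absurd (Finset.mem_range.2 (by omega)) h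

/-- (3) on `BSU` the map is the inclusion -/
theorem DetVec.r_toU {l : ℕ} (V : DetVec l) : (V.r.comp Gr.toU).Homotopic (toBG {1} l) := by
  obtain ⟨F, G, h1, h2, h3⟩ := addCol_homotopic (X := Gr {1} l)
    (Quot.mk (FrameRel {1} l) : Frame l → Gr {1} l)
    (isOpenQuotientMap_gr {1} l).isQuotientMap (fun A => A) continuous_id V.N
    (fun A => colOf l (V.v A)) (fun _ i => if i = 2 * l then 1 else 0)
    (continuous_colOf l V.cont) continuous_const
    (fun A => isCol_colOf (V.supp A) (V.unit A)) (fun _ => isCol_std l V.N)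
    (by
      intro A i
      by_cases h : i = 2 * l
      · exact Or.inl (if_neg (by omega))
      · exact Or.inr (if_neg h))
    (by
      intro A B hAB
      obtain ⟨g, hg, hd, hB⟩ := frameRel_of_eq (D := {1}) (mem_singleton _)
        (fun a ha b hb => by rw [mem_singleton_iff.1 ha, mem_singleton_iff.1 hb, one_mul]; rfl)
        (fun a ha => by rw [mem_singleton_iff.1 ha, star_one]; rfl) hAB
      refine ⟨g, hg, hB, fun i => ?_, fun i => ?_⟩
      · have h4 := V.equiv A B g hg hB
        by_cases h : 2 * l ≤ i ∧ (i - 2 * l) % 2 = 1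
        · simp only [colOf, if_pos h]
          exact h4 _
        · simp only [colOf, if_neg h, mul_zero]
      · rw [mem_singleton_iff.1 hd, star_one, one_mul])
  have e1 : V.r.comp Gr.toU = F := by
    refine ContinuousMap.ext fun x => ?_
    obtain ⟨A, rfl⟩ := (isOpenQuotientMap_gr {1} l).surjective x
    refine Eq.trans ?_ (h2 A).symm
    exact BG.mk_eq_of_eq (D := {1}) (A.addVec V.N (V.v A) (V.supp A) (V.unit A)) _ rfl
  have e2 : toBG {1} l = G := by
    refine ContinuousMap.ext fun x => ?_
    obtain ⟨A, rfl⟩ := (isOpenQuotientMap_gr {1} l).surjective x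
    refine Eq.trans ?_ (h3 A).symm
    refine BG.mk_eq_of_eq (D := {1}) A _ ?_
    funext i j
    show A.1 i j = if j = l then _ else A.1 i j
    by_cases h : j = l
    · rw [if_pos h, h, A.2.1 i l (Or.inr le_rfl)]
    · rw [if_neg h]
  rw [e1, e2]
  exact h1

/-- (4) compatibility with the action of `Gr {1} k` -/
theorem DetVec.r_sum {k l : ℕ} (V : DetVec l) (W : DetVec (k + l)) :
    (W.r.comp ((Gr.sum Set.univ k l).comp
      (ContinuousMap.prodMap Gr.toU (ContinuousMap.id (Gr Set.univ l))))).Homotopic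
    ((act {1} k).comp (ContinuousMap.prodMap (ContinuousMap.id (Gr {1} k)) V.r)) := by
  refine vec_homotopy (Prod.map (Quot.mk (FrameRel {1} k)) (Quot.mk (FrameRel Set.univ l)))
    ((isOpenQuotientMap_gr {1} k).prodMap (isOpenQuotientMap_gr Set.univ l)).isQuotientMap
    (fun y : Frame k × Frame l => y.1.sum y.2) ((Frame.continuous_sum k l).comp continuous_swap)
    (max V.N W.N) (fun y => W.v (y.1.sum y.2)) (fun y => V.v y.2)
    (W.cont.comp ((Frame.continuous_sum k l).comp continuous_swap)) (V.cont.comp continuous_snd)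
    (fun y i hi => W.supp _ i (le_trans (le_max_right _ _) hi))
    (fun y i hi => V.supp _ i (le_trans (le_max_left _ _) hi))
    (fun y => (sum_range_supp (le_max_right _ _) (W.supp _)).trans (W.unit _))
    (fun y => (sum_range_supp (le_max_left _ _) (V.supp _)).trans (V.unit _)) ?_ _ _ ?_ ?_
  · rintro ⟨B, A⟩ ⟨B', A'⟩ h
    obtain ⟨g1, hg1, hd1, hB⟩ := frameRel_exact_one (congrArg Prod.fst h)
    obtain ⟨g2, hg2, -, hA⟩ := frameRel_exact_univ (congrArg Prod.snd h)
    have hrel := frame_sum_rot hB hA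
    have hdet : (Matrix.reindex finSumFinEquiv finSumFinEquiv (Matrix.fromBlocks g1 0 0 g2)).det =
        g2.det := by
      rw [det_blocks, mem_singleton_iff.1 hd1, one_mul]
    refine ⟨_, blocks_unitary hg1 hg2, hrel, ?_, ?_⟩
    · exact W.equiv _ _ _ (blocks_unitary hg1 hg2) hrel
    · intro i
      rw [hdet]
      exact V.equiv A A' g2 hg2 hA i
  · rintro ⟨B, A⟩
    exact BG.mk_eq_of_eq _ _ rfl
  · rintro ⟨B, A⟩
    refine BG.mk_eq_of_eq (B.sum (A.addVec V.N (V.v A) (V.supp A) (V.unit A))) _ ?_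
    funext i j
    show (if j < k then B.1 i j else if i < 2 * k then 0 else
      (if j - k = l then (if 2 * l ≤ i - 2 * k ∧ (i - 2 * k - 2 * l) % 2 = 1
        then V.v A ((i - 2 * k - 2 * l) / 2) else 0) else A.1 (i - 2 * k) (j - k))) =
      (if j = k + l then (if 2 * (k + l) ≤ i ∧ (i - 2 * (k + l)) % 2 = 1
        then V.v A ((i - 2 * (k + l)) / 2) else 0) else
        (if j < k then B.1 i j else if i < 2 * k then 0 else A.1 (i - 2 * k) (j - k)))
    by_cases h1 : j < k
    · rw [if_pos h1, if_neg (by omega), if_pos h1]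
    · rw [if_neg h1]
      by_cases h2 : j = k + l
      · rw [if_pos h2]
        by_cases h3 : i < 2 * k
        · rw [if_pos h3, if_neg (by omega)]
        · rw [if_neg h3, if_pos (by omega)]
          have e1 : i - 2 * k - 2 * l = i - 2 * (k + l) := by omega
          rw [e1]
          by_cases h4 : 2 * (k + l) ≤ i ∧ (i - 2 * (k + l)) % 2 = 1
          · rw [if_pos h4, if_pos (by omega)]
          · rw [if_neg h4, if_neg (by omega)]
      · rw [if_neg h2, if_neg h1, if_neg (by omega : ¬ j - k = l)]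

theorem toBG_next_sum (k l : ℕ) (W : Gr Set.univ k) (x : Gr Set.univ l) :
    toBG Set.univ (k + l + 1) (Gr.next (Gr.sum Set.univ k l (W, x))) =
      act Set.univ k (W, toBG Set.univ l x) := by
  induction W using Quot.ind with | _ B => ?_
  induction x using Quot.ind with | _ A => ?_
  exact (Quot.sound (.stab (B.sum A))).symm

theorem toBG_toU (l : ℕ) (x : Gr {1} l) :
    toBG Set.univ l (Gr.toU x) = BG.toU (toBG {1} l x) := by
  induction x using Quot.ind with | _ A => ?_
  rfl

/-- `S[BSU][1/x]` is a retract of `S[BU][1/x]`. -/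
theorem bsu_retract {e k : ℕ} (he : 0 < e)
    (f : GenLoop (Fin (2 * e)) (Gr {1} k) (Gr.pt {1} k)) :
    ∃ (i : hP.obj (tele (mulMap f)) ⟶ hP.obj (tele (mulMap (loopToU f))))
      (r : hP.obj (tele (mulMap (loopToU f))) ⟶ hP.obj (tele (mulMap f))), i ≫ r = 𝟙 _ := by
  let V : ∀ l, DetVec l := fun l => (exists_detVec l).some
  let S : ∀ l, C(stageLC Bsu5.goodU l, Gr Set.univ l) := fun l =>
    ⟨(Bsu5.stHomeo Bsu5.goodU l).symm, (Bsu5.stHomeo Bsu5.goodU l).symm.continuous⟩
  have hS : ∀ l (a : stageLC Bsu5.goodU l), toBG Set.univ l (S l a) = a.1 := fun l a =>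
    congrArg Subtype.val ((Bsu5.stHomeo Bsu5.goodU l).apply_symm_apply a)
  have hact : ∀ (W : Gr Set.univ k) (l : ℕ) (b : BG Set.univ), b ∈ stage Set.univ l →
      act Set.univ k (W, b) ∈ stage Set.univ (k + l + 1) := fun W l b hb =>
    stage_succ _ _ (act_mem_stage Set.univ k l W hb)
  refine Bsu5.retract_core f (loopToU f) (fun l => (V l).r.comp (S l)) BG.toU (fun _ _ => rfl)
    Gr.toU (fun _ => rfl) (fun _ => rfl) (by omega) hact (fun l => ?_) (fun l => ?_)
  · obtain ⟨H⟩ := (((DetVec.r_next (V (k + l)) (V (k + l + 1))).comp (.refl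
      ((Gr.sum Set.univ k l).comp
        (ContinuousMap.prodMap Gr.toU (ContinuousMap.id (Gr Set.univ l)))))).trans
      (DetVec.r_sum (V l) (V (k + l)))).comp
      (.refl (ContinuousMap.prodMap (ContinuousMap.id (Gr {1} k)) (S l)))
    refine ⟨H.toContinuousMap, fun W a => (H.apply_zero (W, a)).trans ?_,
      fun W a => H.apply_one (W, a)⟩
    refine congrArg (V (k + l + 1)).r (Bsu5.toBG_injective Bsu5.goodU _ ?_)
    exact ((toBG_next_sum k l (Gr.toU W) (S l a)).trans
      (congrArg (fun b => act Set.univ k (Gr.toU W, b)) (hS l a))).trans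
      (hS (k + l + 1) ⟨act Set.univ k (Gr.toU W, a.1), hact _ _ _ a.2⟩).symm
  · obtain ⟨H⟩ := (DetVec.r_toU (V l)).comp (.refl
      (⟨(Bsu5.stHomeo Bsu5.good1 l).symm, (Bsu5.stHomeo Bsu5.good1 l).symm.continuous⟩ :
        C(stageLC Bsu5.good1 l, Gr {1} l)))
    refine ⟨H.toContinuousMap, fun a => (H.apply_zero a).trans ?_,
      fun a => (H.apply_one a).trans ?_⟩
    · refine congrArg (V l).r (Bsu5.toBG_injective Bsu5.goodU _ ?_)
      rw [hS]
      exact (toBG_toU l _).trans (congrArg BG.toU
        (congrArg Subtype.val ((Bsu5.stHomeo Bsu5.good1 l).apply_symm_apply a)))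
    · exact congrArg Subtype.val ((Bsu5.stHomeo Bsu5.good1 l).apply_symm_apply a)

/-! ## Dependence on the class -/

/-- If `f' = f ^ m` in the homotopy group of `BG D` then the telescope of `f'` is the localisation
of the telescope of `f` at the powers of `m`. -/
theorem tele_pow {D : Set ℂ} (hD : GoodD D) {d k k' : ℕ} (hd : Odd d)
    (f : GenLoop (Fin (d + 1)) (Gr D k) (Gr.pt D k))
    (f' : GenLoop (Fin (d + 1)) (Gr D k') (Gr.pt D k')) (m : ℤ)
    (h : hclass (toBGLoop f') = hclass (toBGLoop f) ^ m) :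
    ∃ q : hP.obj (tele (mulMap f)) ⟶ hP.obj (tele (mulMap f')),
      GF.IsLoc (Submonoid.powers m) q :=
  tele_pow60 hD hd f f' m h

end Pool.Agent.Helper1.Stab
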