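import Pool.Agent.Helper1.Stab.Defs

/-! Locally compact Hausdorff spaces, pointed spaces, and maps that vanish at infinity.
A map `PMap K Y` is a pointed map from the one-point compactification of `K` to `Y`. -/

open Topology Filter Set

noncomputable section

namespace Pool.Agent.Helper1.Stab

/-- A locally compact Hausdorff space. -/
structure LC where
  carrier : Type
  [top : TopologicalSpace carrier]
  [lc : LocallyCompactSpace carrier]
  [t2 : T2Space carrier]

instance : CoeSort LC Type := ⟨LC.carrier⟩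
instance (K : LC) : TopologicalSpace K := K.top
instance (K : LC) : LocallyCompactSpace K := K.lc
instance (K : LC) : T2Space K := K.t2

/-- bundling -/
abbrev LC.of (X : Type) [TopologicalSpace X] [LocallyCompactSpace X] [T2Space X] : LC := ⟨X⟩

/-- product of spaces -/
abbrev LC.prod (K L : LC) : LC := ⟨K × L⟩

/-- the one-point space -/
abbrev LC.point : LC := ⟨PUnit⟩

/-- the unit interval -/
abbrev LC.I : LC := ⟨unitInterval⟩

/-- the real line -/
abbrev LC.R : LC := ⟨ℝ⟩

/-- the complex line -/
abbrev LC.C : LC := ⟨ℂ⟩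

/-- complex affine space with coordinates in a finite type -/
abbrev LC.cpow (ι : Type) [Finite ι] : LC := ⟨ι → ℂ⟩

/-- real affine space with coordinates in a finite type -/
abbrev LC.rpow (ι : Type) [Finite ι] : LC := ⟨ι → ℝ⟩

/-- a closed subspace -/
def LC.closed (K : LC) (s : Set K) (h : IsClosed s) : LC :=
  { carrier := s, lc := h.isClosedEmbedding_subtypeVal.locallyCompactSpace }

/-- an open subspace -/
def LC.opn (K : LC) (s : Set K) (h : IsOpen s) : LC :=
  { carrier := s, lc := h.isOpenEmbedding_subtypeVal.locallyCompactSpace }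

/-- one-point compactification, as a pointed space -/
abbrev LC.plus (K : LC) : PT := ⟨OnePoint K, OnePoint.infty⟩

/-- Continuous maps `K → Y` that tend to the base point at infinity. -/
structure PMap (K : LC) (Y : PT) where
  toFun : K → Y
  cont : Continuous toFun
  infty : Tendsto toFun (cocompact K) (𝓝 Y.pt)

instance (K : LC) (Y : PT) : CoeFun (PMap K Y) (fun _ => K → Y) := ⟨PMap.toFun⟩

@[ext] theorem PMap.ext {K : LC} {Y : PT} {f g : PMap K Y} (h : ∀ k, f k = g k) : f = g := by
  cases f; cases g; congr; exact funext h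

/-- extension to the one-point compactification -/
def PMap.plus {K : LC} {Y : PT} (f : PMap K Y) : K.plus → Y :=
  fun x => OnePoint.elim x Y.pt f

@[simp] theorem PMap.plus_coe {K : LC} {Y : PT} (f : PMap K Y) (k : K) :
    f.plus (k : OnePoint K) = f k := rfl

@[simp] theorem PMap.plus_infty {K : LC} {Y : PT} (f : PMap K Y) :
    f.plus (OnePoint.infty : OnePoint K) = Y.pt := rfl

theorem PMap.continuous_plus {K : LC} {Y : PT} (f : PMap K Y) : Continuous f.plus := by
  rw [OnePoint.continuous_iff]
  refine ⟨?_, f.cont⟩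
  rw [coclosedCompact_eq_cocompact]
  exact f.infty

/-- A pointed map out of the one-point compactification gives a `PMap`. -/
def PMap.ofPlus {K : LC} {Y : PT} (f : K.plus → Y) (hf : Continuous f)
    (h : f OnePoint.infty = Y.pt) : PMap K Y where
  toFun := fun k => f (k : OnePoint K)
  cont := hf.comp OnePoint.continuous_coe
  infty := by
    have := (OnePoint.tendsto_coe_infty (X := K))
    rw [coclosedCompact_eq_cocompact] at this
    rw [← h]
    exact (hf.tendsto _).comp this

/-- A map of a compact space `P` that is the base point outside of the open image of `K`. -/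
def PMap.ofEmb {K : LC} {Y : PT} {P : Type} [TopologicalSpace P] [CompactSpace P]
    (ι : K → P) (hι : IsEmbedding ι) (F : P → Y) (hF : Continuous F)
    (h : ∀ p, p ∉ range ι → F p = Y.pt) : PMap K Y where
  toFun := fun k => F (ι k)
  cont := hF.comp hι.continuous
  infty := by
    intro U hU
    obtain ⟨V, hVU, hV, hp⟩ := mem_nhds_iff.1 hU
    have hc : IsCompact (F ⁻¹' V)ᶜ := (hV.preimage hF).isClosed_compl.isCompact
    have hr : (F ⁻¹' V)ᶜ ⊆ range ι := by
      intro p hpV
      by_contra hpr
      exact hpV (by rw [mem_preimage, h p hpr]; exact hp)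
    have hK : IsCompact (ι ⁻¹' (F ⁻¹' V)ᶜ) := hι.toIsInducing.isCompact_preimage_iff hr |>.2 hc
    refine mem_map.2 (mem_cocompact.2 ⟨_, hK, ?_⟩)
    intro k hk
    by_contra hkU
    exact hk fun hkV => hkU (hVU hkV)

/-- the identity -/
def PMap.id (K : LC) : PMap K K.plus := PMap.ofPlus (fun x => x) continuous_id rfl

@[simp] theorem PMap.id_apply {K : LC} (k : K) : PMap.id K k = (k : OnePoint K) := rfl

/-- composition -/
def PMap.comp {K L : LC} {Y : PT} (g : PMap L Y) (f : PMap K L.plus) : PMap K Y where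
  toFun := fun k => g.plus (f k)
  cont := g.continuous_plus.comp f.cont
  infty := by
    exact (g.continuous_plus.tendsto (OnePoint.infty : OnePoint L)).comp f.infty

@[simp] theorem PMap.comp_apply {K L : LC} {Y : PT} (g : PMap L Y) (f : PMap K L.plus) (k : K) :
    g.comp f k = g.plus (f k) := rfl

theorem PMap.plus_comp {K L : LC} {Y : PT} (g : PMap L Y) (f : PMap K L.plus) (x : K.plus) :
    (g.comp f).plus x = g.plus (f.plus x) := by
  induction x using OnePoint.rec <;> rfl

theorem PMap.comp_assoc {K L M : LC} {Y : PT} (h : PMap M Y) (g : PMap L M.plus)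
    (f : PMap K L.plus) : (h.comp g).comp f = h.comp (g.comp f) := by
  ext k; exact h.plus_comp g (f k)

@[simp] theorem PMap.comp_id {K : LC} {Y : PT} (f : PMap K Y) : f.comp (PMap.id K) = f := by
  ext k; rfl

theorem PMap.plus_id {K : LC} (x : K.plus) : (PMap.id K).plus x = x := by
  induction x using OnePoint.rec <;> rfl

@[simp] theorem PMap.id_comp {K L : LC} (f : PMap K L.plus) : (PMap.id L).comp f = f := by
  ext k; exact PMap.plus_id _

/-- postcomposition with a pointed map of pointed spaces -/
def PMap.post {K : LC} {Y Z : PT} (g : Y → Z) (hg : Continuous g) (h : g Y.pt = Z.pt)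
    (f : PMap K Y) : PMap K Z where
  toFun := fun k => g (f k)
  cont := hg.comp f.cont
  infty := by
    rw [← h]
    exact (hg.tendsto _).comp f.infty

/-- the constant map at the base point -/
def PMap.zero (K : LC) (Y : PT) : PMap K Y := ⟨fun _ => Y.pt, continuous_const, tendsto_const_nhds⟩

/-- a proper map -/
def PMap.ofProper {K L : LC} (φ : K → L) (hφ : Continuous φ)
    (h : Tendsto φ (cocompact K) (cocompact L)) : PMap K L.plus where
  toFun := fun k => (φ k : OnePoint L)
  cont := OnePoint.continuous_coe.comp hφ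
  infty := by
    have := (OnePoint.tendsto_coe_infty (X := L))
    rw [coclosedCompact_eq_cocompact] at this
    exact this.comp h

/-- a homeomorphism -/
def PMap.ofHomeo {K L : LC} (e : K ≃ₜ L) : PMap K L.plus :=
  PMap.ofProper e e.continuous e.isClosedEmbedding.tendsto_cocompact

@[simp] theorem PMap.ofHomeo_apply {K L : LC} (e : K ≃ₜ L) (k : K) :
    PMap.ofHomeo e k = ((e k : L) : OnePoint L) := rfl

/-- the inclusion of a closed subspace -/
def PMap.incl {K : LC} (s : Set K) (h : IsClosed s) : PMap (K.closed s h) K.plus :=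
  PMap.ofProper (K := K.closed s h) Subtype.val continuous_subtype_val
    h.isClosedEmbedding_subtypeVal.tendsto_cocompact

/-- the points sent into a compact set form a compact set -/
theorem PMap.isCompact_preimage {K L : LC} (f : PMap K L.plus) {C : Set L} (hC : IsCompact C) :
    IsCompact (f.toFun ⁻¹' ((fun l : L => (l : OnePoint L)) '' C)) := by
  have hcl : IsClosed ((fun l : L => (l : OnePoint L)) '' C) :=
    (hC.image OnePoint.continuous_coe).isClosed
  have h1 : ((fun l : L => (l : OnePoint L)) '' C)ᶜ ∈ 𝓝 (OnePoint.infty : OnePoint L) := by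
    apply hcl.isOpen_compl.mem_nhds
    rintro ⟨l, -, h⟩
    exact OnePoint.coe_ne_infty l h
  have h2 := f.infty h1
  rw [mem_map, mem_cocompact] at h2
  obtain ⟨D, hD, hD2⟩ := h2
  refine hD.of_isClosed_subset (hcl.preimage f.cont) ?_
  intro k hk
  by_contra hkD
  exact hD2 hkD hk

/-- A pointed map to a one-point compactification from a partial map. -/
theorem PMap.partial_aux {K L : LC} (f : K → OnePoint L)
    (h1 : ∀ V : Set L, IsOpen V → IsOpen {k | ∃ l ∈ V, f k = (l : OnePoint L)})
    (h2 : ∀ C : Set L, IsCompact C → IsCompact {k | ∃ l ∈ C, f k = (l : OnePoint L)}) :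
    Continuous f ∧ Tendsto f (cocompact K) (𝓝 (OnePoint.infty : OnePoint L)) := by
  constructor
  · rw [continuous_def]
    intro s hs
    by_cases hinf : (OnePoint.infty : OnePoint L) ∈ s
    · have hs' := hs
      rw [OnePoint.isOpen_iff_of_mem hinf] at hs'
      have hc := h2 _ hs'.2
      have : f ⁻¹' s = {k | ∃ l ∈ ((fun l : L => (l : OnePoint L)) ⁻¹' s)ᶜ,
          f k = (l : OnePoint L)}ᶜ := by
        ext k
        simp only [mem_preimage, mem_compl_iff, mem_ofPred_eq, not_exists, not_and]
        constructor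
        · intro hk l hl hkl
          rw [hkl] at hk
          exact hl hk
        · intro h
          rcases hfk : f k with _ | l
          · exact hinf
          · by_contra hl
            exact h l hl hfk
      rw [this]
      exact hc.isClosed.isOpen_compl
    · have hs' := hs
      rw [OnePoint.isOpen_iff_of_notMem hinf] at hs'
      have := h1 _ hs'
      convert this using 1
      ext k
      simp only [mem_preimage, mem_ofPred_eq]
      constructor
      · intro hk
        rcases hfk : f k with _ | l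
        · rw [hfk] at hk
          exact absurd hk hinf
        · refine ⟨l, ?_, rfl⟩
          rw [hfk] at hk
          exact hk
      · rintro ⟨l, hl, hkl⟩
        rw [hkl]
        exact hl
  · rw [OnePoint.hasBasis_nhds_infty.tendsto_right_iff]
    rintro s ⟨-, hs⟩
    have hc := h2 s hs
    filter_upwards [hc.compl_mem_cocompact] with k hk
    rcases hfk : f k with _ | l
    · right; rfl
    · left
      refine ⟨l, ?_, rfl⟩
      intro hl
      exact hk ⟨l, hl, hfk⟩

/-- constructor from a function to the one-point compactification -/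
def PMap.mk' {K L : LC} (f : K → OnePoint L)
    (h1 : ∀ V : Set L, IsOpen V → IsOpen {k | ∃ l ∈ V, f k = (l : OnePoint L)})
    (h2 : ∀ C : Set L, IsCompact C → IsCompact {k | ∃ l ∈ C, f k = (l : OnePoint L)}) :
    PMap K L.plus := ⟨f, (PMap.partial_aux f h1 h2).1, (PMap.partial_aux f h1 h2).2⟩

open Classical in
/-- the collapse onto an open subspace, as a function -/
def collapseFun {X : Type} (s : Set X) (k : X) : OnePoint s :=
  if hk : k ∈ s then ((⟨k, hk⟩ : s) : OnePoint s) else OnePoint.infty

theorem collapseFun_of_mem {X : Type} {s : Set X} (k : s) :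
    collapseFun s (k : X) = (k : OnePoint s) := dif_pos k.2

theorem collapseFun_of_notMem {X : Type} {s : Set X} {k : X} (h : k ∉ s) :
    collapseFun s k = OnePoint.infty := dif_neg h

theorem collapseFun_eq_coe {X : Type} {s : Set X} {k : X} {l : s}
    (h : collapseFun s k = (l : OnePoint s)) : k = l := by
  by_cases hk : k ∈ s
  · have := collapseFun_of_mem (⟨k, hk⟩ : s)
    simp only at this
    rw [this] at h
    exact congrArg Subtype.val (OnePoint.coe_injective h)
  · rw [collapseFun_of_notMem hk] at h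
    exact absurd h (OnePoint.infty_ne_coe l)

/-- the collapse onto an open subspace -/
def PMap.collapse {K : LC} (s : Set K) (h : IsOpen s) : PMap K (K.opn s h).plus :=
  PMap.mk' (K := K) (L := K.opn s h) (collapseFun s)
    (by
      intro V hV
      have hV' : IsOpen (Subtype.val '' V) := h.isOpenMap_subtype_val V hV
      convert hV' using 1
      ext k
      constructor
      · rintro ⟨l, hl, hk⟩
        exact ⟨l, hl, (collapseFun_eq_coe hk).symm⟩
      · rintro ⟨l, hl, rfl⟩
        exact ⟨l, hl, collapseFun_of_mem l⟩)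
    (by
      intro C hC
      have hC' : IsCompact (Subtype.val '' C) := hC.image continuous_subtype_val
      convert hC' using 1
      ext k
      constructor
      · rintro ⟨l, hl, hk⟩
        exact ⟨l, hl, (collapseFun_eq_coe hk).symm⟩
      · rintro ⟨l, hl, rfl⟩
        exact ⟨l, hl, collapseFun_of_mem l⟩)

/-- `(x, z) ↦ (x, z)`, and `∞` if one of the entries is `∞` -/
def smashPt (L Z : LC) (x : OnePoint L × OnePoint Z) : OnePoint (L.prod Z) :=
  OnePoint.elim x.1 OnePoint.infty
    (fun l => OnePoint.elim x.2 OnePoint.infty (fun z => (((l, z) : L × Z) : OnePoint (L × Z))))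

@[simp] theorem smashPt_coe (L Z : LC) (l : L) (z : Z) :
    smashPt L Z ((l : OnePoint L), (z : OnePoint Z)) = (((l, z) : L × Z) : OnePoint (L × Z)) := rfl

@[simp] theorem smashPt_inf_left (L Z : LC) (z : OnePoint Z) :
    smashPt L Z ((OnePoint.infty : OnePoint L), z) = OnePoint.infty := rfl

@[simp] theorem smashPt_inf_right (L Z : LC) (l : OnePoint L) :
    smashPt L Z (l, (OnePoint.infty : OnePoint Z)) = OnePoint.infty := by
  induction l using OnePoint.rec <;> rfl

theorem smashPt_ne {L Z : LC} {x : OnePoint L} {z : OnePoint Z} {y : L × Z}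
    (h : smashPt L Z (x, z) = (y : OnePoint (L × Z))) :
    x = ((y.1 : L) : OnePoint L) ∧ z = ((y.2 : Z) : OnePoint Z) := by
  induction x using OnePoint.rec with
  | infty => exact absurd h (OnePoint.infty_ne_coe _)
  | coe l =>
    induction z using OnePoint.rec with
    | infty => rw [smashPt_inf_right] at h; exact absurd h (OnePoint.infty_ne_coe _)
    | coe z =>
      rw [smashPt_coe] at h
      have := OnePoint.coe_injective h
      rw [← this]
      exact ⟨rfl, rfl⟩

/-- smash product of maps `f ∧ g` -/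
def PMap.box {K L Z W : LC} (f : PMap K L.plus) (g : PMap Z W.plus) :
    PMap (K.prod Z) (L.prod W).plus :=
  PMap.mk' (K := K.prod Z) (L := L.prod W) (fun x => smashPt L W (f x.1, g x.2))
    (by
      intro V hV
      rw [isOpen_iff_mem_nhds]
      rintro ⟨k, z⟩ ⟨l, hl, hk⟩
      obtain ⟨h1, h2⟩ := smashPt_ne hk
      obtain ⟨V1, V2, hV1, hV2, hl1, hl2, h12⟩ := isOpen_prod_iff.1 hV l.1 l.2 hl
      have ho1 : IsOpen (f.toFun ⁻¹' ((fun l : L => (l : OnePoint L)) '' V1)) :=
        (OnePoint.isOpen_image_coe.2 hV1).preimage f.cont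
      have ho2 : IsOpen (g.toFun ⁻¹' ((fun l : W => (l : OnePoint W)) '' V2)) :=
        (OnePoint.isOpen_image_coe.2 hV2).preimage g.cont
      filter_upwards [(ho1.prod ho2).mem_nhds ⟨⟨_, hl1, h1.symm⟩, ⟨_, hl2, h2.symm⟩⟩]
      rintro ⟨k', z'⟩ ⟨⟨l1, hl1', hk1⟩, ⟨l2, hl2', hk2⟩⟩
      refine ⟨(l1, l2), h12 ⟨hl1', hl2'⟩, ?_⟩
      simp only at hk1 hk2 ⊢
      rw [← hk1, ← hk2, smashPt_coe])
    (by
      intro C hC
      have hC1 : IsCompact (Prod.fst '' C) := hC.image continuous_fst
      have hC2 : IsCompact (Prod.snd '' C) := hC.image continuous_snd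
      have hD1 := f.isCompact_preimage hC1
      have hD2 := g.isCompact_preimage hC2
      set S := (f.toFun ⁻¹' ((fun l : L => (l : OnePoint L)) '' (Prod.fst '' C))) ×ˢ
        (g.toFun ⁻¹' ((fun l : W => (l : OnePoint W)) '' (Prod.snd '' C))) with hS
      have hSc : IsCompact S := hD1.prod hD2
      -- on `S` the map is continuous into `L × W`
      have hsub : {k : K × Z | ∃ l ∈ C, smashPt L W (f k.1, g k.2) = (l : OnePoint (L × W))} ⊆ S := by
        rintro ⟨k, z⟩ ⟨l, hl, hk⟩
        obtain ⟨h1, h2⟩ := smashPt_ne hk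
        exact ⟨⟨l.1, ⟨l, hl, rfl⟩, h1.symm⟩, ⟨l.2, ⟨l, hl, rfl⟩, h2.symm⟩⟩
      refine hSc.of_isClosed_subset ?_ hsub
      -- the graph condition is closed
      have hcl : IsClosed ((fun l : L × W => ((l.1 : OnePoint L), (l.2 : OnePoint W))) '' C) :=
        (hC.image ((OnePoint.continuous_coe.comp continuous_fst).prodMk
          (OnePoint.continuous_coe.comp continuous_snd))).isClosed
      have : {k : K × Z | ∃ l ∈ C, smashPt L W (f k.1, g k.2) = (l : OnePoint (L × W))} =
          (fun x : K × Z => (f x.1, g x.2)) ⁻¹'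
            ((fun l : L × W => ((l.1 : OnePoint L), (l.2 : OnePoint W))) '' C) := by
        ext ⟨k, z⟩
        constructor
        · rintro ⟨l, hl, hk⟩
          obtain ⟨h1, h2⟩ := smashPt_ne hk
          exact ⟨l, hl, by simp only [h1, h2]⟩
        · rintro ⟨l, hl, hk⟩
          simp only [Prod.mk.injEq] at hk
          refine ⟨l, hl, ?_⟩
          simp only
          rw [← hk.1, ← hk.2, smashPt_coe]
      rw [this]
      exact hcl.preimage ((f.cont.comp continuous_fst).prodMk (g.cont.comp continuous_snd)))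

@[simp] theorem PMap.box_apply {K L Z W : LC} (f : PMap K L.plus) (g : PMap Z W.plus)
    (x : K × Z) : f.box g x = smashPt L W (f x.1, g x.2) := rfl

theorem PMap.box_plus {K L Z W : LC} (f : PMap K L.plus) (g : PMap Z W.plus)
    (x : OnePoint K) (z : OnePoint Z) :
    (f.box g).plus (smashPt K Z (x, z)) = smashPt L W (f.plus x, g.plus z) := by
  induction x using OnePoint.rec with
  | infty => rfl
  | coe k =>
    induction z using OnePoint.rec with
    | infty => rw [smashPt_inf_right]; exact (smashPt_inf_right _ _ _).symm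
    | coe z => rfl

theorem PMap.box_comp {K K' K'' Z Z' Z'' : LC} (f' : PMap K' K''.plus) (f : PMap K K'.plus)
    (g' : PMap Z' Z''.plus) (g : PMap Z Z'.plus) :
    (f'.comp f).box (g'.comp g) = (f'.box g').comp (f.box g) := by
  ext x
  exact (PMap.box_plus f' g' (f x.1) (g x.2)).symm

@[simp] theorem PMap.box_id (K Z : LC) : (PMap.id K).box (PMap.id Z) = PMap.id (K.prod Z) := by
  ext x; rfl

/-- `f ∧ id_Z` -/
abbrev PMap.tens {K L : LC} (f : PMap K L.plus) (Z : LC) : PMap (K.prod Z) (L.prod Z).plus :=
  f.box (PMap.id Z)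

/-- `id_Z ∧ f` -/
abbrev PMap.ltens {K L : LC} (Z : LC) (f : PMap K L.plus) : PMap (Z.prod K) (Z.prod L).plus :=
  (PMap.id Z).box f

/-! ### Homotopy -/

/-- homotopy of pointed maps -/
def PMap.Homotopic {K : LC} {Y : PT} (f g : PMap K Y) : Prop :=
  ∃ H : PMap (LC.I.prod K) Y, (∀ k, H (0, k) = f k) ∧ (∀ k, H (1, k) = g k)

/-- the projection `I × K → K` -/
def PMap.prI (K : LC) : PMap (LC.I.prod K) K.plus :=
  PMap.ofProper (K := LC.I.prod K) Prod.snd continuous_snd (by
    intro s hs
    obtain ⟨C, hC, hCs⟩ := mem_cocompact.1 hs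
    refine mem_map.2 (mem_cocompact.2 ⟨univ ×ˢ C, isCompact_univ.prod hC, ?_⟩)
    rintro ⟨t, k⟩ h
    exact hCs fun hk => h ⟨trivial, hk⟩)

theorem PMap.Homotopic.refl {K : LC} {Y : PT} (f : PMap K Y) : f.Homotopic f :=
  ⟨f.comp (PMap.prI K), fun _ => rfl, fun _ => rfl⟩

theorem PMap.Homotopic.symm {K : LC} {Y : PT} {f g : PMap K Y} (h : f.Homotopic g) :
    g.Homotopic f := by
  obtain ⟨H, h0, h1⟩ := h
  let e : LC.I ≃ₜ LC.I := unitInterval.symmHomeomorph
  refine ⟨H.comp ((PMap.ofHomeo e).box (PMap.id K)), fun k => ?_, fun k => ?_⟩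
  · have : e 0 = 1 := unitInterval.symm_zero
    change H.plus (smashPt LC.I K (((e 0 : LC.I) : OnePoint LC.I), (k : OnePoint K))) = _
    rw [this]; exact h1 k
  · have : e 1 = 0 := unitInterval.symm_one
    change H.plus (smashPt LC.I K (((e 1 : LC.I) : OnePoint LC.I), (k : OnePoint K))) = _
    rw [this]; exact h0 k

/-- glueing along closed sets -/
theorem PMap.glue_aux {K : LC} {Y : PT} (s t : Set K) (hs : IsClosed s) (ht : IsClosed t)
    (hst : s ∪ t = univ) (f : K → Y) (f1 : PMap (K.closed s hs) Y) (f2 : PMap (K.closed t ht) Y)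
    (h1 : ∀ k : s, f k = f1 k) (h2 : ∀ k : t, f k = f2 k) :
    Continuous f ∧ Tendsto f (cocompact K) (𝓝 Y.pt) := by
  constructor
  · have hc1 : ContinuousOn f s := by
      rw [continuousOn_iff_continuous_domRestrict]
      refine f1.cont.congr fun k => ?_
      exact (h1 k).symm
    have hc2 : ContinuousOn f t := by
      rw [continuousOn_iff_continuous_domRestrict]
      refine f2.cont.congr fun k => ?_
      exact (h2 k).symm
    have := hc1.union_of_isClosed hc2 hs ht
    rw [hst] at this
    exact continuousOn_univ.1 this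
  · intro U hU
    obtain ⟨C1, hC1, h1'⟩ := mem_cocompact.1 (f1.infty hU)
    obtain ⟨C2, hC2, h2'⟩ := mem_cocompact.1 (f2.infty hU)
    refine mem_map.2 (mem_cocompact.2 ⟨Subtype.val '' C1 ∪ Subtype.val '' C2,
      (hC1.image continuous_subtype_val).union (hC2.image continuous_subtype_val), ?_⟩)
    intro k hk
    have hk' : k ∈ s ∪ t := hst ▸ mem_univ k
    rcases hk' with hks | hkt
    · have : (⟨k, hks⟩ : s) ∈ C1ᶜ := fun h => hk (Or.inl ⟨_, h, rfl⟩)
      have h3 := h1' this
      rw [mem_preimage, h1 ⟨k, hks⟩]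
      exact h3
    · have : (⟨k, hkt⟩ : t) ∈ C2ᶜ := fun h => hk (Or.inr ⟨_, h, rfl⟩)
      have h3 := h2' this
      rw [mem_preimage, h2 ⟨k, hkt⟩]
      exact h3

/-- glueing two maps along closed sets -/
def PMap.glue {K : LC} {Y : PT} (s t : Set K) (hs : IsClosed s) (ht : IsClosed t)
    (hst : s ∪ t = univ) (f : K → Y) (f1 : PMap (K.closed s hs) Y) (f2 : PMap (K.closed t ht) Y)
    (h1 : ∀ k : s, f k = f1 k) (h2 : ∀ k : t, f k = f2 k) : PMap K Y :=
  ⟨f, (PMap.glue_aux s t hs ht hst f f1 f2 h1 h2).1, (PMap.glue_aux s t hs ht hst f f1 f2 h1 h2).2⟩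

/-- a map `H` on `I × K` that is continuous and tends to the base point uniformly in `I` -/
theorem PMap.infty_I {K : LC} {Y : PT} (H : PMap (LC.I.prod K) Y) {U : Set Y} (hU : U ∈ 𝓝 Y.pt) :
    ∃ C : Set K, IsCompact C ∧ ∀ t : LC.I, ∀ k ∉ C, H (t, k) ∈ U := by
  obtain ⟨D, hD, h⟩ := mem_cocompact.1 (H.infty hU)
  refine ⟨Prod.snd '' D, hD.image continuous_snd, fun t k hk => ?_⟩
  exact h fun h' => hk ⟨(t, k), h', rfl⟩

/-- constructor for homotopies -/
def PMap.mkI {K : LC} {Y : PT} (H : LC.I → K → Y) (hc : Continuous fun x : LC.I × K => H x.1 x.2)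
    (hi : ∀ U ∈ 𝓝 Y.pt, ∃ C : Set K, IsCompact C ∧ ∀ t : LC.I, ∀ k ∉ C, H t k ∈ U) :
    PMap (LC.I.prod K) Y where
  toFun := fun x => H x.1 x.2
  cont := hc
  infty := by
    intro U hU
    obtain ⟨C, hC, h⟩ := hi U hU
    refine mem_map.2 (mem_cocompact.2 ⟨univ ×ˢ C, isCompact_univ.prod hC, ?_⟩)
    rintro ⟨t, k⟩ htk
    exact h t k fun hk => htk ⟨trivial, hk⟩

theorem PMap.Homotopic.trans {K : LC} {Y : PT} {f g h : PMap K Y} (h1 : f.Homotopic g)
    (h2 : g.Homotopic h) : f.Homotopic h := by
  obtain ⟨H1, h10, h11⟩ := h1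
  obtain ⟨H2, h20, h21⟩ := h2
  have hc : Continuous fun x : unitInterval × K => if (x.1 : ℝ) ≤ 1 / 2 then
      H1 (Set.projIcc 0 1 zero_le_one (2 * (x.1 : ℝ)), x.2)
      else H2 (Set.projIcc 0 1 zero_le_one (2 * (x.1 : ℝ) - 1), x.2) := by
    refine Continuous.if_le ?_ ?_ (continuous_subtype_val.comp continuous_fst) continuous_const ?_
    · exact H1.cont.comp (((continuous_projIcc).comp (by fun_prop)).prodMk continuous_snd)
    · exact H2.cont.comp (((continuous_projIcc).comp (by fun_prop)).prodMk continuous_snd)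
    · rintro ⟨t, k⟩ ht
      simp only at ht ⊢
      rw [ht]
      have e1 : Set.projIcc (0 : ℝ) 1 zero_le_one (2 * (1 / 2)) = (1 : unitInterval) := by
        rw [show (2 : ℝ) * (1 / 2) = 1 by norm_num]; exact Set.projIcc_right zero_le_one
      have e2 : Set.projIcc (0 : ℝ) 1 zero_le_one (2 * (1 / 2) - 1) = (0 : unitInterval) := by
        rw [show (2 : ℝ) * (1 / 2) - 1 = 0 by norm_num]; exact Set.projIcc_left zero_le_one
      rw [e1, e2]
      exact (h11 k).trans (h20 k).symm
  refine ⟨PMap.mkI (fun t k => if (t : ℝ) ≤ 1 / 2 then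
      H1 (Set.projIcc 0 1 zero_le_one (2 * (t : ℝ)), k)
      else H2 (Set.projIcc 0 1 zero_le_one (2 * (t : ℝ) - 1), k)) hc ?_, fun k => ?_, fun k => ?_⟩
  · intro U hU
    obtain ⟨C1, hC1, h1'⟩ := H1.infty_I hU
    obtain ⟨C2, hC2, h2'⟩ := H2.infty_I hU
    refine ⟨C1 ∪ C2, hC1.union hC2, fun t k hk => ?_⟩
    split_ifs
    · exact h1' _ k fun h => hk (Or.inl h)
    · exact h2' _ k fun h => hk (Or.inr h)
  · change (if ((0 : unitInterval) : ℝ) ≤ 1 / 2 then _ else _) = _
    rw [if_pos (by norm_num)]
    have : Set.projIcc (0 : ℝ) 1 zero_le_one (2 * ((0 : unitInterval) : ℝ)) = (0 : unitInterval) := by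
      rw [show (2 : ℝ) * ((0 : unitInterval) : ℝ) = 0 by norm_num]; exact Set.projIcc_left zero_le_one
    rw [this]; exact h10 k
  · change (if ((1 : unitInterval) : ℝ) ≤ 1 / 2 then _ else _) = _
    rw [if_neg (by norm_num)]
    have : Set.projIcc (0 : ℝ) 1 zero_le_one (2 * ((1 : unitInterval) : ℝ) - 1) =
        (1 : unitInterval) := by
      rw [show (2 : ℝ) * ((1 : unitInterval) : ℝ) - 1 = 1 by norm_num]; exact Set.projIcc_right zero_le_one
    rw [this]; exact h21 k

theorem PMap.Homotopic.comp_left {K L : LC} {Y : PT} {g g' : PMap L Y} (h : g.Homotopic g')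
    (f : PMap K L.plus) : (g.comp f).Homotopic (g'.comp f) := by
  obtain ⟨H, h0, h1⟩ := h
  refine ⟨H.comp ((PMap.id LC.I).box f), fun k => ?_, fun k => ?_⟩
  · change H.plus (smashPt LC.I L (((0 : LC.I) : OnePoint LC.I), f k)) = g.plus (f k)
    rcases f k with _ | l
    · rfl
    · exact h0 l
  · change H.plus (smashPt LC.I L (((1 : LC.I) : OnePoint LC.I), f k)) = g'.plus (f k)
    rcases f k with _ | l
    · rfl
    · exact h1 l

theorem PMap.Homotopic.comp_right {K L : LC} {Y : PT} (g : PMap L Y) {f f' : PMap K L.plus}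
    (h : f.Homotopic f') : (g.comp f).Homotopic (g.comp f') := by
  obtain ⟨H, h0, h1⟩ := h
  exact ⟨g.comp H, fun k => congrArg g.plus (h0 k), fun k => congrArg g.plus (h1 k)⟩

theorem PMap.Homotopic.comp {K L : LC} {Y : PT} {g g' : PMap L Y} (h : g.Homotopic g')
    {f f' : PMap K L.plus} (h' : f.Homotopic f') : (g.comp f).Homotopic (g'.comp f') :=
  (h.comp_left f).trans (PMap.Homotopic.comp_right g' h')

/-- reordering of factors -/
def LC.mid (K L Z : LC) : (K.prod L).prod Z ≃ₜ K.prod (L.prod Z) := Homeomorph.prodAssoc K L Z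

theorem PMap.Homotopic.box_left {K L Z W : LC} {f f' : PMap K L.plus} (h : f.Homotopic f')
    (g : PMap Z W.plus) : (f.box g).Homotopic (f'.box g) := by
  obtain ⟨H, h0, h1⟩ := h
  refine ⟨(H.box g).comp (PMap.ofHomeo (LC.mid LC.I K Z).symm), ?_, ?_⟩
  · rintro ⟨k, z⟩
    change smashPt L W (H (0, k), g z) = smashPt L W (f k, g z)
    rw [h0]
  · rintro ⟨k, z⟩
    change smashPt L W (H (1, k), g z) = smashPt L W (f' k, g z)
    rw [h1]

/-- exchange of factors -/
abbrev LC.swap (K L : LC) : K.prod L ≃ₜ L.prod K := Homeomorph.prodComm K L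

theorem PMap.box_swap {K L Z W : LC} (f : PMap K L.plus) (g : PMap Z W.plus) :
    (PMap.ofHomeo (LC.swap L W)).comp (f.box g) = (g.box f).comp (PMap.ofHomeo (LC.swap K Z)) := by
  ext ⟨k, z⟩
  change (PMap.ofHomeo (LC.swap L W)).plus (smashPt L W (f k, g z)) = smashPt W L (g z, f k)
  rcases f k with _ | l
  · rcases g z with _ | w <;> rfl
  · rcases g z with _ | w <;> rfl

theorem PMap.Homotopic.box_right {K L Z W : LC} (f : PMap K L.plus) {g g' : PMap Z W.plus}
    (h : g.Homotopic g') : (f.box g).Homotopic (f.box g') := by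
  have key : ∀ g : PMap Z W.plus, f.box g = (PMap.ofHomeo (LC.swap W L)).comp
      ((g.box f).comp (PMap.ofHomeo (LC.swap K Z))) := by
    intro g
    rw [← PMap.box_swap]
    ext ⟨k, z⟩
    change smashPt L W (f k, g z) = (PMap.ofHomeo (LC.swap W L)).plus
      ((PMap.ofHomeo (LC.swap L W)).plus (smashPt L W (f k, g z)))
    rcases f k with _ | l
    · rcases g z with _ | w <;> rfl
    · rcases g z with _ | w <;> rfl
  rw [key g, key g']
  exact PMap.Homotopic.comp_right _ ((h.box_left f).comp_left _)

theorem PMap.Homotopic.box {K L Z W : LC} {f f' : PMap K L.plus} (h : f.Homotopic f')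
    {g g' : PMap Z W.plus} (h' : g.Homotopic g') : (f.box g).Homotopic (f'.box g') :=
  (h.box_left g).trans (PMap.Homotopic.box_right f' h')

/-! ### Homotopy classes -/

instance PMap.setoid (K : LC) (Y : PT) : Setoid (PMap K Y) where
  r := PMap.Homotopic
  iseqv := ⟨PMap.Homotopic.refl, fun h => h.symm, fun h h' => h.trans h'⟩

/-- homotopy classes of pointed maps `K⁺ → Y` -/
def HMap (K : LC) (Y : PT) : Type := Quotient (PMap.setoid K Y)

/-- the class of a map -/
def PMap.cls {K : LC} {Y : PT} (f : PMap K Y) : HMap K Y := Quotient.mk _ f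

theorem PMap.cls_eq {K : LC} {Y : PT} {f g : PMap K Y} : f.cls = g.cls ↔ f.Homotopic g :=
  Quotient.eq

theorem HMap.ind {K : LC} {Y : PT} {P : HMap K Y → Prop} (h : ∀ f : PMap K Y, P f.cls)
    (x : HMap K Y) : P x := Quotient.ind h x

/-- composition of homotopy classes (`x.comp y` is `x` after `y`) -/
def HMap.comp {K L : LC} {Y : PT} (x : HMap L Y) (y : HMap K L.plus) : HMap K Y :=
  Quotient.map₂ (fun g f => PMap.comp g f) (fun _ _ h _ _ h' => PMap.Homotopic.comp h h') x y

@[simp] theorem HMap.comp_cls {K L : LC} {Y : PT} (g : PMap L Y) (f : PMap K L.plus) :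
    g.cls.comp f.cls = (g.comp f).cls := rfl

theorem HMap.comp_assoc {K L M : LC} {Y : PT} (h : HMap M Y) (g : HMap L M.plus)
    (f : HMap K L.plus) : (h.comp g).comp f = h.comp (g.comp f) := by
  induction h using HMap.ind with | h h =>
  induction g using HMap.ind with | h g =>
  induction f using HMap.ind with | h f =>
  simp [PMap.comp_assoc]

@[simp] theorem HMap.comp_id {K : LC} {Y : PT} (f : HMap K Y) : f.comp (PMap.id K).cls = f := by
  induction f using HMap.ind with | h f => simp

@[simp] theorem HMap.id_comp {K L : LC} (f : HMap K L.plus) : (PMap.id L).cls.comp f = f := by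
  induction f using HMap.ind with | h f => simp

/-- smash product of homotopy classes -/
def HMap.box {K L Z W : LC} (x : HMap K L.plus) (y : HMap Z W.plus) :
    HMap (K.prod Z) (L.prod W).plus :=
  Quotient.map₂ (fun f g => PMap.box f g) (fun _ _ h _ _ h' => PMap.Homotopic.box h h') x y

@[simp] theorem HMap.box_cls {K L Z W : LC} (f : PMap K L.plus) (g : PMap Z W.plus) :
    f.cls.box g.cls = (f.box g).cls := rfl

/-- postcomposition with a pointed map -/
def HMap.post {K : LC} {Y Z : PT} (g : Y → Z) (hg : Continuous g) (h : g Y.pt = Z.pt)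
    (x : HMap K Y) : HMap K Z :=
  Quotient.map (PMap.post g hg h) (by
    rintro f f' ⟨H, h0, h1⟩
    exact ⟨H.post g hg h, fun k => congrArg g (h0 k), fun k => congrArg g (h1 k)⟩) x

open CategoryTheory in
/-- the homotopy category of locally compact spaces and pointed maps of their one-point
compactifications -/
instance : Category LC where
  Hom K L := HMap K L.plus
  id K := (PMap.id K).cls
  comp f g := g.comp f
  id_comp f := HMap.comp_id f
  comp_id f := HMap.id_comp f
  assoc f g h := (HMap.comp_assoc h g f).symm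

end Pool.Agent.Helper1.Stab
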