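import Pool.Agent.Helper1.Stab.Basic

/-! Bivariant theories on locally compact spaces. -/

open Topology Filter Set

noncomputable section

namespace Pool.Agent.Helper1.Stab

/-! ## Mayer–Vietoris data -/

namespace MV

variable {K : LC} (u : C(K, ℝ))

theorem clA : IsClosed {k : K | u k ≤ 1} := isClosed_le u.continuous continuous_const
theorem clB : IsClosed {k : K | 0 ≤ u k} := isClosed_le continuous_const u.continuous
theorem clC : IsClosed {k : K | 0 ≤ u k ∧ u k ≤ 1} := (clB u).inter (clA u)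

/-- the part `u ≤ 1` -/
def A : LC := K.closed {k : K | u k ≤ 1} (clA u)
/-- the part `0 ≤ u` -/
def B : LC := K.closed {k : K | 0 ≤ u k} (clB u)
/-- the part `0 ≤ u ≤ 1` -/
def C : LC := K.closed {k : K | 0 ≤ u k ∧ u k ≤ 1} (clC u)

/-- inclusion -/
def iA : PMap (A u) K.plus := PMap.incl _ (clA u)
/-- inclusion -/
def iB : PMap (B u) K.plus := PMap.incl _ (clB u)

theorem proper_aux {X Y Z : Type} [TopologicalSpace X] [TopologicalSpace Y] [TopologicalSpace Z]
    {f : X → Y} {g : Y → Z} (hg : Continuous g) (h : Tendsto (g ∘ f) (cocompact X) (cocompact Z)) :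
    Tendsto f (cocompact X) (cocompact Y) := by
  intro s hs
  obtain ⟨D, hD, hDs⟩ := mem_cocompact.1 hs
  have : (g ∘ f) ⁻¹' (g '' D)ᶜ ∈ cocompact X := h (hD.image hg).compl_mem_cocompact
  rw [mem_map]
  filter_upwards [this] with x hx
  exact hDs fun hxD => hx ⟨_, hxD, rfl⟩

/-- inclusion -/
def iCA : PMap (C u) (A u).plus :=
  PMap.ofProper (K := C u) (L := A u) (fun k => ⟨k.1, k.2.2⟩)
    (Continuous.subtype_mk continuous_subtype_val _)
    (proper_aux (g := Subtype.val) continuous_subtype_val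
      (clC u).isClosedEmbedding_subtypeVal.tendsto_cocompact)

/-- inclusion -/
def iCB : PMap (C u) (B u).plus :=
  PMap.ofProper (K := C u) (L := B u) (fun k => ⟨k.1, k.2.1⟩)
    (Continuous.subtype_mk continuous_subtype_val _)
    (proper_aux (g := Subtype.val) continuous_subtype_val
      (clC u).isClosedEmbedding_subtypeVal.tendsto_cocompact)

/-- the homeomorphism `(0,1) → ℝ`, `t ↦ 1/(1-t) - 1/t`; at other points its value is junk -/
def toReal (t : ℝ) : ℝ := 1 / (1 - t) - 1 / t

open Classical in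
/-- the boundary map, as a function -/
def deltaFun (k : K) : OnePoint (LC.R.prod (C u)) :=
  if h : 0 < u k ∧ u k < 1 then
    (((toReal (u k), ⟨k, h.1.le, h.2.le⟩) : LC.R.prod (C u)) : OnePoint (LC.R.prod (C u)))
  else OnePoint.infty

theorem dA_toReal_bound {t M : ℝ} (hM : 0 ≤ M) (h0 : 0 < t) (h1 : t < 1) (h : |toReal t| ≤ M) :
    1 / (M + 2) ≤ t ∧ t ≤ 1 - 1 / (M + 2) := by
  have hM2 : 0 < M + 2 := by linarith
  have he : 1 / (M + 2) ≤ 1 / 2 := one_div_le_one_div_of_le (by norm_num) (by linarith)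
  rw [abs_le] at h
  unfold toReal at h
  constructor
  · by_contra hc
    rw [not_le] at hc
    have a1 : M + 2 < 1 / t := by
      rw [lt_div_iff₀ h0]
      rw [lt_div_iff₀ hM2] at hc
      linarith [mul_comm t (M + 2)]
    have a2 : 1 / (1 - t) ≤ 2 := by
      rw [div_le_iff₀ (by linarith)]
      linarith
    linarith [h.1]
  · by_contra hc
    rw [not_le] at hc
    have hc' : 1 - t < 1 / (M + 2) := by linarith
    have a1 : M + 2 < 1 / (1 - t) := by
      rw [lt_div_iff₀ (by linarith)]
      rw [lt_div_iff₀ hM2] at hc'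
      linarith [mul_comm (1 - t) (M + 2)]
    have a2 : 1 / t ≤ 2 := by
      rw [div_le_iff₀ h0]
      linarith
    linarith [h.2]

/-- the boundary map where it is finite -/
def dA_pt (k : K) (h : 0 < u k ∧ u k < 1) : LC.R.prod (C u) :=
  (toReal (u k), ⟨k, h.1.le, h.2.le⟩)

theorem dA_fun_eq_coe (k : K) (l : LC.R.prod (C u)) :
    deltaFun u k = (l : OnePoint (LC.R.prod (C u))) ↔
      ∃ h : 0 < u k ∧ u k < 1, dA_pt u k h = l := by
  unfold deltaFun
  by_cases h : 0 < u k ∧ u k < 1
  · rw [dif_pos h]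
    constructor
    · intro he
      exact ⟨h, OnePoint.coe_injective he⟩
    · rintro ⟨h', rfl⟩
      rfl
  · rw [dif_neg h]
    constructor
    · intro he
      exact absurd he.symm (OnePoint.coe_ne_infty l)
    · rintro ⟨h', -⟩
      exact absurd h' h

theorem dA_pt_cont (s : Set K) (hs : ∀ k ∈ s, 0 < u k ∧ u k < 1) :
    Continuous (fun k : s => dA_pt u k.1 (hs k.1 k.2)) := by
  unfold dA_pt
  refine Continuous.prodMk ?_ ?_
  · unfold toReal
    refine Continuous.sub ?_ ?_
    · refine Continuous.div continuous_const (by fun_prop) (fun k => ?_)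
      have := (hs k.1 k.2).2
      exact (sub_pos.2 this).ne'
    · refine Continuous.div continuous_const (by fun_prop) (fun k => ?_)
      exact (hs k.1 k.2).1.ne'
  · exact Continuous.subtype_mk continuous_subtype_val _

/-- the second coordinate, in `K` -/
def dA_snd (l : LC.R.prod (C u)) : K :=
  Subtype.val (show {k : K // 0 ≤ u k ∧ u k ≤ 1} from l.2)

theorem dA_snd_cont : Continuous (dA_snd u) :=
  (continuous_subtype_val (p := fun k : K => 0 ≤ u k ∧ u k ≤ 1)).comp continuous_snd

theorem delta_aux : Continuous (deltaFun u) ∧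
    Tendsto (deltaFun u) (cocompact K) (𝓝 (OnePoint.infty : OnePoint (LC.R.prod (C u)))) := by
  apply PMap.partial_aux (K := K) (L := LC.R.prod (C u)) (deltaFun u)
  · intro V hV
    have hO : IsOpen {k : K | 0 < u k ∧ u k < 1} :=
      (isOpen_lt continuous_const u.continuous).inter (isOpen_lt u.continuous continuous_const)
    have hg := dA_pt_cont u {k : K | 0 < u k ∧ u k < 1} (fun k hk => hk)
    have h := hO.isOpenMap_subtype_val _ (hV.preimage hg)
    have e : {k | ∃ l ∈ V, deltaFun u k = (l : OnePoint (LC.R.prod (C u)))} =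
        Subtype.val '' ((fun k : {k : K | 0 < u k ∧ u k < 1} => dA_pt u k.1 k.2) ⁻¹' V) := by
      ext k
      constructor
      · rintro ⟨l, hl, hk⟩
        obtain ⟨h', rfl⟩ := (dA_fun_eq_coe u k l).1 hk
        exact ⟨⟨k, h'⟩, hl, rfl⟩
      · rintro ⟨⟨k', hk'⟩, hl, rfl⟩
        exact ⟨_, hl, (dA_fun_eq_coe u k' _).2 ⟨hk', rfl⟩⟩
    rw [e]
    exact h
  · intro D hD
    obtain ⟨M, hM⟩ : ∃ M : ℝ, ∀ l ∈ D, |l.1| ≤ M := by
      have h1 : IsCompact ((fun l : LC.R.prod (C u) => (l.1 : ℝ)) '' D) :=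
        hD.image continuous_fst
      obtain ⟨M, hM⟩ := h1.isBounded.exists_norm_le
      exact ⟨M, fun l hl => hM _ ⟨l, hl, rfl⟩⟩
    set ε : ℝ := 1 / (max M 0 + 2) with hε
    have hε0 : 0 < ε := by positivity
    have hP : IsCompact (dA_snd u '' D) := hD.image (dA_snd_cont u)
    set S : Set K := (dA_snd u '' D) ∩ {k : K | ε ≤ u k ∧ u k ≤ 1 - ε} with hSdef
    have hS : IsCompact S := hP.inter_right
      ((isClosed_le continuous_const u.continuous).inter
        (isClosed_le u.continuous continuous_const))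
    have hS' : ∀ k ∈ S, 0 < u k ∧ u k < 1 := fun k hk =>
      ⟨lt_of_lt_of_le hε0 hk.2.1, lt_of_le_of_lt hk.2.2 (by linarith)⟩
    have hg := dA_pt_cont u S hS'
    have : CompactSpace S := isCompact_iff_compactSpace.1 hS
    have hc := ((hD.isClosed.preimage hg).isCompact).image continuous_subtype_val
    have e : {k | ∃ l ∈ D, deltaFun u k = (l : OnePoint (LC.R.prod (C u)))} =
        Subtype.val '' ((fun k : S => dA_pt u k.1 (hS' k.1 k.2)) ⁻¹' D) := by
      ext k
      constructor
      · rintro ⟨l, hl, hk⟩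
        obtain ⟨h', rfl⟩ := (dA_fun_eq_coe u k l).1 hk
        have hb := dA_toReal_bound (le_max_right M 0) h'.1 h'.2
          ((hM _ hl).trans (le_max_left M 0))
        exact ⟨⟨k, ⟨_, hl, rfl⟩, hb⟩, hl, rfl⟩
      · rintro ⟨⟨k', hk'⟩, hl, rfl⟩
        exact ⟨_, hl, (dA_fun_eq_coe u k' _).2 ⟨hS' k' hk', rfl⟩⟩
    rw [e]
    exact hc

/-- The boundary map `K ⇢ ℝ × C`, defined where `0 < u < 1`. -/
def delta : PMap K (LC.R.prod (C u)).plus := ⟨deltaFun u, (delta_aux u).1, (delta_aux u).2⟩

/-- A map given by a continuous map `g` on an open set `O` is a pointed map if the preimages of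
compact sets lie in compact subsets of `O`. -/
theorem partial_open {X L : LC} (O : Set X) (hO : IsOpen O) (g : O → L) (hg : Continuous g)
    (f : X → OnePoint L) (hf : ∀ x : O, f x = (g x : OnePoint L))
    (hf' : ∀ x, x ∉ O → f x = OnePoint.infty)
    (hc : ∀ D : Set L, IsCompact D →
      ∃ Q : Set X, IsCompact Q ∧ Q ⊆ O ∧ ∀ x : O, g x ∈ D → (x : X) ∈ Q) :
    Continuous f ∧ Tendsto f (cocompact X) (𝓝 (OnePoint.infty : OnePoint L)) := by
  have key : ∀ V : Set L, {x | ∃ l ∈ V, f x = (l : OnePoint L)} = Subtype.val '' (g ⁻¹' V) := by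
    intro V
    ext x
    constructor
    · rintro ⟨l, hl, hx⟩
      by_cases hxO : x ∈ O
      · refine ⟨⟨x, hxO⟩, ?_, rfl⟩
        have h1 := hf ⟨x, hxO⟩
        simp only at h1
        rw [h1] at hx
        have h2 := OnePoint.coe_injective hx
        rw [mem_preimage, h2]
        exact hl
      · rw [hf' x hxO] at hx
        exact absurd hx (OnePoint.infty_ne_coe _)
    · rintro ⟨y, hy, rfl⟩
      exact ⟨g y, hy, hf y⟩
  refine PMap.partial_aux f (fun V hV => ?_) (fun D hD => ?_)
  · rw [key]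
    exact hO.isOpenMap_subtype_val _ (hV.preimage hg)
  · rw [key]
    obtain ⟨Q, hQ, hQO, hQD⟩ := hc D hD
    have h1 : IsCompact (Subtype.val ⁻¹' Q : Set O) := by
      rw [Subtype.isCompact_iff, Subtype.image_preimage_coe, inter_eq_right.2 hQO]
      exact hQ
    have h2 : IsCompact (g ⁻¹' D) :=
      h1.of_isClosed_subset (hD.isClosed.preimage hg) (fun x hx => hQD x hx)
    exact h2.image continuous_subtype_val

theorem toReal_bound {M v : ℝ} (hM : 0 ≤ M) (h0 : 0 < v) (h1 : v < 1) (h : |toReal v| ≤ M) :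
    1 / (M + 2) ≤ v ∧ v ≤ 1 - 1 / (M + 2) := by
  have h1' : 0 < 1 - v := by linarith
  obtain ⟨ha, hb⟩ := abs_le.1 h
  unfold toReal at ha hb
  have hM2 : 0 < M + 2 := by linarith
  constructor
  · rw [div_le_iff₀ hM2]
    by_contra hlt
    rw [not_le] at hlt
    have e1 : M + 2 < 1 / v := by
      rw [lt_div_iff₀ h0]; linarith
    have hv : v < 1 / 2 := by nlinarith
    have e2 : 1 / (1 - v) < 2 := by
      rw [div_lt_iff₀ h1']; linarith
    linarith
  · have : 1 / (M + 2) ≤ 1 - v := by
      rw [div_le_iff₀ hM2]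
      by_contra hlt
      rw [not_le] at hlt
      have e1 : M + 2 < 1 / (1 - v) := by
        rw [lt_div_iff₀ h1']; linarith
      have hv : 1 - v < 1 / 2 := by nlinarith
      have e2 : 1 / v < 2 := by
        rw [div_lt_iff₀ h0]; linarith
      linarith
    linarith

/-- The sliding homotopy `(t, k) ↦ (toReal (u k + c t / (1 - t)), k)`. -/
theorem delta_null (S : Set K) (hS : IsClosed S) (hCS : ∀ k, 0 < u k → u k < 1 → k ∈ S) (c : ℝ)
    (hc0 : c ≠ 0)
    (hc : ∀ (t : ℝ) (k : K), 0 ≤ t → t < 1 → 0 < u k * (1 - t) + c * t →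
      u k * (1 - t) + c * t < 1 - t → k ∈ S) :
    ∃ H : PMap (LC.I.prod K) (LC.R.prod (K.closed S hS)).plus,
      (∀ k (h0 : 0 < u k) (h1 : u k < 1), H (0, k) =
        (((toReal (u k), ⟨k, hCS k h0 h1⟩) : LC.R.prod (K.closed S hS)) :
          OnePoint (LC.R.prod (K.closed S hS)))) ∧
      (∀ k, ¬ (0 < u k ∧ u k < 1) → H (0, k) = OnePoint.infty) ∧
      ∀ k, H (1, k) = OnePoint.infty := by
  classical
  set O : Set (LC.I.prod K) := {x | 0 < u x.2 * (1 - (x.1 : ℝ)) + c * (x.1 : ℝ) ∧
    u x.2 * (1 - (x.1 : ℝ)) + c * (x.1 : ℝ) < 1 - (x.1 : ℝ)} with hOdef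
  have hcont1 : Continuous fun x : unitInterval × K =>
      u x.2 * (1 - (x.1 : ℝ)) + c * (x.1 : ℝ) := by fun_prop
  have hcont2 : Continuous fun x : unitInterval × K => 1 - (x.1 : ℝ) := by fun_prop
  have hOo : IsOpen O :=
    (isOpen_lt continuous_const hcont1).inter (isOpen_lt hcont1 hcont2)
  have hOt : ∀ x ∈ O, (x.1 : ℝ) < 1 := by
    rintro ⟨t, k⟩ ⟨h1, h2⟩
    linarith
  have hOS : ∀ x ∈ O, x.2 ∈ S := by
    intro x hx
    exact hc x.1 x.2 x.1.2.1 (hOt x hx) hx.1 hx.2
  let v : LC.I.prod K → ℝ := fun x => (u x.2 * (1 - (x.1 : ℝ)) + c * (x.1 : ℝ)) / (1 - (x.1 : ℝ))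
  have hv0 : ∀ x ∈ O, 0 < v x := by
    intro x hx
    exact div_pos hx.1 (by linarith [hOt x hx])
  have hv1 : ∀ x ∈ O, v x < 1 := by
    intro x hx
    have := hOt x hx
    exact (div_lt_one (by linarith)).2 hx.2
  let g : O → LC.R.prod (K.closed S hS) := fun x => (toReal (v x.1), ⟨x.1.2, hOS x.1 x.2⟩)
  have hg : Continuous g := by
    have hvc : Continuous fun x : O => v x.1 := by
      refine Continuous.div (hcont1.comp continuous_subtype_val)
        (hcont2.comp continuous_subtype_val) ?_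
      intro x
      have := hOt x.1 x.2
      simp only
      linarith
    refine Continuous.prodMk ?_ (Continuous.subtype_mk
      (continuous_snd.comp continuous_subtype_val) _)
    unfold toReal
    refine Continuous.sub ?_ ?_
    · refine Continuous.div continuous_const (continuous_const.sub hvc) ?_
      intro x
      have := hv1 x.1 x.2
      linarith
    · refine Continuous.div continuous_const hvc ?_
      intro x
      exact (hv0 x.1 x.2).ne'
  let f : LC.I.prod K → OnePoint (LC.R.prod (K.closed S hS)) := fun x =>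
    if h : x ∈ O then (g ⟨x, h⟩ : OnePoint (LC.R.prod (K.closed S hS))) else OnePoint.infty
  have hf : ∀ x : O, f x = (g x : OnePoint (LC.R.prod (K.closed S hS))) := by
    intro x
    exact dif_pos x.2
  have hf' : ∀ x, x ∉ O → f x = OnePoint.infty := by
    intro x hx
    exact dif_neg hx
  have hP := partial_open (X := LC.I.prod K) (L := LC.R.prod (K.closed S hS)) O hOo g hg f hf hf' ?_
  · refine ⟨⟨f, hP.1, hP.2⟩, ?_, ?_, ?_⟩
    · intro k h0 h1
      have hx : ((0 : unitInterval), k) ∈ O := by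
        refine ⟨?_, ?_⟩
        · simp only [Set.Icc.coe_zero]
          linarith
        · simp only [Set.Icc.coe_zero]
          linarith
      have h2 := hf ⟨_, hx⟩
      have h3 : v ((0 : unitInterval), k) = u k := by
        simp only [v, Set.Icc.coe_zero]
        simp
      change f ((0 : unitInterval), k) = _
      refine h2.trans ?_
      simp only [g, h3]
    · intro k hk
      refine hf' _ ?_
      rintro ⟨h1, h2⟩
      apply hk
      simp only [Set.Icc.coe_zero] at h1 h2
      constructor <;> linarith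
    · intro k
      refine hf' _ ?_
      intro hx
      have := hOt _ hx
      simp only [Set.Icc.coe_one] at this
      exact lt_irrefl _ this
  · intro D hD
    have hD1 : IsCompact (Prod.fst '' D) := hD.image continuous_fst
    have hD2 : IsCompact ((fun l : LC.R.prod (K.closed S hS) => (l.2.1 : K)) '' D) :=
      hD.image (continuous_subtype_val.comp continuous_snd)
    obtain ⟨M0, hM0⟩ := hD1.isBounded.exists_norm_le
    set M := max M0 0 with hM
    have hMM : ∀ x ∈ Prod.fst '' D, |x| ≤ M := fun x hx =>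
      (hM0 x hx).trans (le_max_left _ _)
    have hM' : 0 ≤ M := le_max_right _ _
    set e := 1 / (M + 2) with he
    have he0 : 0 < e := by positivity
    refine ⟨(univ ×ˢ ((fun l : LC.R.prod (K.closed S hS) => (l.2.1 : K)) '' D)) ∩
      {x | e * (1 - (x.1 : ℝ)) ≤ u x.2 * (1 - (x.1 : ℝ)) + c * (x.1 : ℝ) ∧
        u x.2 * (1 - (x.1 : ℝ)) + c * (x.1 : ℝ) ≤ (1 - e) * (1 - (x.1 : ℝ))}, ?_, ?_, ?_⟩
    · refine (isCompact_univ.prod hD2).inter_right ?_
      exact (isClosed_le (continuous_const.mul hcont2) hcont1).inter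
        (isClosed_le hcont1 (continuous_const.mul hcont2))
    · rintro ⟨t, k⟩ ⟨-, h1, h2⟩
      simp only at h1 h2
      have ht1 : (t : ℝ) ≤ 1 := t.2.2
      have ht : (t : ℝ) < 1 := by
        rcases ht1.lt_or_eq with h | h
        · exact h
        · rw [h] at h1 h2
          exact absurd (le_antisymm (by linarith) (by linarith)) hc0
      have h3 : 0 < 1 - (t : ℝ) := by linarith
      have h4 : 0 < e * (1 - (t : ℝ)) := mul_pos he0 h3
      refine ⟨?_, ?_⟩
      · simp only
        linarith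
      · simp only
        linarith
    · rintro x hx
      have hb := toReal_bound hM' (hv0 x.1 x.2) (hv1 x.1 x.2) (hMM _ ⟨_, hx, rfl⟩)
      have ht := hOt x.1 x.2
      have ht' : 0 < 1 - (x.1.1 : ℝ) := by linarith
      refine ⟨⟨trivial, ⟨_, hx, rfl⟩⟩, ?_, ?_⟩
      · have := hb.1
        rw [le_div_iff₀ ht'] at this
        exact this
      · have := hb.2
        rw [div_le_iff₀ ht'] at this
        exact this

/-- `δ` followed by the inclusion of `C` in `A` is null-homotopic. -/
theorem delta_iCA : ((PMap.ltens LC.R (iCA u)).comp (delta u)).Homotopic (PMap.zero _ _) := by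
  obtain ⟨H, h0, h0', h1⟩ := delta_null u {k : K | u k ≤ 1} (clA u) (fun k _ h => h.le) 1
    one_ne_zero (by
      intro t k ht0 ht1 h2 h3
      rw [mem_ofPred_eq]
      by_contra hk
      rw [not_le] at hk
      nlinarith)
  refine ⟨H, fun k => ?_, fun k => h1 k⟩
  change H (0, k) = (PMap.ltens LC.R (iCA u)).plus (deltaFun u k)
  by_cases hk : 0 < u k ∧ u k < 1
  · rw [h0 k hk.1 hk.2, deltaFun, dif_pos hk]
    rfl
  · rw [h0' k hk, deltaFun, dif_neg hk]
    rfl

/-- `δ` followed by the inclusion of `C` in `B` is null-homotopic. -/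
theorem delta_iCB : ((PMap.ltens LC.R (iCB u)).comp (delta u)).Homotopic (PMap.zero _ _) := by
  obtain ⟨H, h0, h0', h1⟩ := delta_null u {k : K | 0 ≤ u k} (clB u) (fun k h _ => h.le) (-1)
    (by norm_num) (by
      intro t k ht0 ht1 h2 h3
      rw [mem_ofPred_eq]
      by_contra hk
      rw [not_le] at hk
      nlinarith)
  refine ⟨H, fun k => ?_, fun k => h1 k⟩
  change H (0, k) = (PMap.ltens LC.R (iCB u)).plus (deltaFun u k)
  by_cases hk : 0 < u k ∧ u k < 1
  · rw [h0 k hk.1 hk.2, deltaFun, dif_pos hk]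
    rfl
  · rw [h0' k hk, deltaFun, dif_neg hk]
    rfl

end MV

/-! ## Bivariant theories -/

/-- The data of a bivariant theory: groups `R(K,L)`, contravariant in `K` and covariant in `L`. -/
structure BivData where
  Hom : LC → LC → Type
  [grp : ∀ K L, AddCommGroup (Hom K L)]
  /-- the class of a pointed map `K⁺ → L⁺` -/
  J : ∀ {K L : LC}, PMap K L.plus → Hom K L
  /-- composition, in diagrammatic order -/
  comp : ∀ {K L M : LC}, Hom K L → Hom L M → Hom K M
  /-- product with the identity of `Z` on the right -/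
  tens : ∀ {K L : LC}, Hom K L → ∀ Z : LC, Hom (K.prod Z) (L.prod Z)

attribute [instance] BivData.grp

namespace BivData
variable (R : BivData)

/-- product with the identity of `Z` on the left -/
def ltens (Z : LC) {K L : LC} (x : R.Hom K L) : R.Hom (Z.prod K) (Z.prod L) :=
  R.comp (R.J (PMap.ofHomeo (LC.swap Z K)))
    (R.comp (R.tens x Z) (R.J (PMap.ofHomeo (LC.swap L Z))))

end BivData

/-- A bivariant theory. -/
structure Biv extends BivData where
  J_homotopic : ∀ {K L : LC} {f g : PMap K L.plus}, f.Homotopic g → J f = J g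
  J_comp : ∀ {K L M : LC} (f : PMap K L.plus) (g : PMap L M.plus), J (g.comp f) = comp (J f) (J g)
  J_zero : ∀ K L : LC, J (PMap.zero K L.plus) = 0
  id_comp : ∀ {K L : LC} (x : Hom K L), comp (J (PMap.id K)) x = x
  comp_id : ∀ {K L : LC} (x : Hom K L), comp x (J (PMap.id L)) = x
  assoc : ∀ {K L M N : LC} (x : Hom K L) (y : Hom L M) (z : Hom M N),
    comp (comp x y) z = comp x (comp y z)
  add_comp : ∀ {K L M : LC} (x x' : Hom K L) (y : Hom L M),
    comp (x + x') y = comp x y + comp x' y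
  comp_add : ∀ {K L M : LC} (x : Hom K L) (y y' : Hom L M),
    comp x (y + y') = comp x y + comp x y'
  tens_add : ∀ {K L : LC} (x x' : Hom K L) (Z : LC), tens (x + x') Z = tens x Z + tens x' Z
  tens_comp : ∀ {K L M : LC} (x : Hom K L) (y : Hom L M) (Z : LC),
    tens (comp x y) Z = comp (tens x Z) (tens y Z)
  tens_J : ∀ {K L : LC} (f : PMap K L.plus) (Z : LC), tens (J f) Z = J (f.tens Z)
  tens_tens : ∀ {K L : LC} (x : Hom K L) (Z W : LC),
    comp (tens (tens x Z) W) (J (PMap.ofHomeo (Homeomorph.prodAssoc L Z W : (L.prod Z).prod W ≃ₜ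
      L.prod (Z.prod W)))) =
    comp (J (PMap.ofHomeo (Homeomorph.prodAssoc K Z W : (K.prod Z).prod W ≃ₜ K.prod (Z.prod W))))
      (tens x (Z.prod W))
  tens_point : ∀ {K L : LC} (x : Hom K L),
    comp (tens x LC.point) (J (PMap.ofHomeo (Homeomorph.prodPUnit L : L.prod LC.point ≃ₜ L))) =
    comp (J (PMap.ofHomeo (Homeomorph.prodPUnit K : K.prod LC.point ≃ₜ K))) x
  exch : ∀ {K L Z W : LC} (x : Hom K L) (y : Hom Z W),
    comp (tens x Z) (toBivData.ltens L y) = comp (toBivData.ltens K y) (tens x W)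
  /-- suspension by a real line is bijective -/
  susp : ∀ K L : LC, Function.Bijective (fun x : Hom K L => tens x LC.R)
  mv1 : ∀ {K L : LC} (u : C(K, ℝ)) (x : Hom K L), comp (J (MV.iA u)) x = 0 →
    comp (J (MV.iB u)) x = 0 → ∃ y : Hom (LC.R.prod (MV.C u)) L, x = comp (J (MV.delta u)) y
  mv2 : ∀ {K L : LC} (u : C(K, ℝ)) (a : Hom (MV.A u) L) (b : Hom (MV.B u) L),
    comp (J (MV.iCA u)) a = comp (J (MV.iCB u)) b →
    ∃ x : Hom K L, comp (J (MV.iA u)) x = a ∧ comp (J (MV.iB u)) x = b
  mv3 : ∀ {K L : LC} (u : C(K, ℝ)) (y : Hom (LC.R.prod (MV.C u)) L),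
    comp (J (MV.delta u)) y = 0 →
    ∃ (a : Hom (LC.R.prod (MV.A u)) L) (b : Hom (LC.R.prod (MV.B u)) L),
      y = comp (J (PMap.ltens LC.R (MV.iCA u))) a - comp (J (PMap.ltens LC.R (MV.iCB u))) b

end Pool.Agent.Helper1.Stab
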