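import Pool.Agent.Helper1.Stab.Model
import Pool.Agent.Helper1.Stab.Grass
import Pool.Agent.Helper4.Stab.FrameA

/-! Comparison of the telescopes of `S[BU]` with the localised bivariant theories. -/

open CategoryTheory Topology Filter Set Opposite

noncomputable section

namespace Pool.Agent.Helper1.Stab

/-! ## The graded functor of a bivariant theory -/

/-- `ℂ^b` as an iterated product -/
def Zb : ℕ → LC
  | 0 => LC.point
  | b + 1 => LC.C.prod (Zb b)

namespace Biv
variable (R : Biv)

/-- the class of a homotopy class -/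
def JH {K L : LC} (x : HMap K L.plus) : R.Hom K L :=
  Quotient.lift (fun f => R.J f) (fun _ _ h => R.J_homotopic h) x

@[simp] theorem JH_cls {K L : LC} (f : PMap K L.plus) : R.JH f.cls = R.J f := rfl

theorem JH_comp {K L M : LC} (x : HMap K L.plus) (y : HMap L M.plus) :
    R.JH (y.comp x) = R.comp (R.JH x) (R.JH y) := by
  induction x using HMap.ind with | h x =>
  induction y using HMap.ind with | h y =>
  exact R.J_comp x y

theorem comp_zero {K L M : LC} (x : R.Hom K L) : R.comp x (0 : R.Hom L M) = 0 := by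
  have := R.comp_add x (0 : R.Hom L M) 0
  simpa using this

theorem zero_comp {K L M : LC} (y : R.Hom L M) : R.comp (0 : R.Hom K L) y = 0 := by
  have := R.add_comp (0 : R.Hom K L) 0 y
  simpa using this

/-- restriction along a homotopy class, as a homomorphism -/
def pre {K L : LC} (x : HMap K L.plus) (M : LC) : R.Hom L M →+ R.Hom K M where
  toFun y := R.comp (R.JH x) y
  map_zero' := R.comp_zero _
  map_add' := R.comp_add _

/-- `x` and `y` are inverse to each other -/
def InvP {K L : LC} (x : R.Hom K L) (y : R.Hom L K) : Prop :=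
  R.comp x y = R.J (PMap.id K) ∧ R.comp y x = R.J (PMap.id L)

theorem invP_homeo {K L : LC} (e : K ≃ₜ L) :
    R.InvP (R.J (PMap.ofHomeo e)) (R.J (PMap.ofHomeo e.symm)) := by
  constructor
  · rw [← R.J_comp]
    congr 1
    refine PMap.ext fun k => ?_
    change (((e.symm (e k) : K)) : OnePoint K) = (k : OnePoint K)
    rw [e.symm_apply_apply]
  · rw [← R.J_comp]
    congr 1
    refine PMap.ext fun k => ?_
    change (((e (e.symm k) : L)) : OnePoint L) = (k : OnePoint L)
    rw [e.apply_symm_apply]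

variable {R} in
theorem InvP.comp {K L M : LC} {x : R.Hom K L} {y : R.Hom L K} {x' : R.Hom L M} {y' : R.Hom M L}
    (h : R.InvP x y) (h' : R.InvP x' y') : R.InvP (R.comp x x') (R.comp y' y) := by
  constructor
  · rw [R.assoc, ← R.assoc x', h'.1, R.id_comp, h.1]
  · rw [R.assoc, ← R.assoc y, h.2, R.id_comp, h'.2]

variable {R} in
theorem InvP.tens {K L : LC} {x : R.Hom K L} {y : R.Hom L K} (h : R.InvP x y) (Z : LC) :
    R.InvP (R.tens x Z) (R.tens y Z) := by
  constructor
  · rw [← R.tens_comp, h.1, R.tens_J]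
    congr 1
  · rw [← R.tens_comp, h.2, R.tens_J]
    congr 1

variable {R} in
theorem InvP.ltens {K L : LC} {x : R.Hom K L} {y : R.Hom L K} (h : R.InvP x y) (Z : LC) :
    ∃ y', R.InvP (R.ltens Z x) y' :=
  ⟨_, (R.invP_homeo _).comp ((h.tens Z).comp (R.invP_homeo _))⟩

theorem InvP.pre_bij {K L : LC} {x : R.Hom K L} {y : R.Hom L K} (h : R.InvP x y) {M : LC} :
    Function.Bijective (fun z : R.Hom L M => R.comp x z) := by
  refine Function.bijective_iff_has_inverse.2 ⟨fun z => R.comp y z, fun z => ?_, fun z => ?_⟩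
  · change R.comp y (R.comp x z) = z
    rw [← R.assoc, h.2, R.id_comp]
  · change R.comp x (R.comp y z) = z
    rw [← R.assoc, h.1, R.id_comp]

theorem InvP.post_bij {L M : LC} {x : R.Hom L M} {y : R.Hom M L} (h : R.InvP x y) {K : LC} :
    Function.Bijective (fun z : R.Hom K L => R.comp z x) := by
  refine Function.bijective_iff_has_inverse.2 ⟨fun z => R.comp z y, fun z => ?_, fun z => ?_⟩
  · change R.comp (R.comp z x) y = z
    rw [R.assoc, h.1, R.comp_id]
  · change R.comp (R.comp z y) x = z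
    rw [R.assoc, h.2, R.comp_id]

theorem tens_RR_bijective (K L : LC) :
    Function.Bijective (fun x : R.Hom K L => R.tens x (LC.R.prod LC.R)) := by
  have h1 : Function.Bijective (fun x : R.Hom K L => R.tens (R.tens x LC.R) LC.R) :=
    (R.susp (K.prod LC.R) (L.prod LC.R)).comp (R.susp K L)
  have h2 := ((R.invP_homeo (K := (L.prod LC.R).prod LC.R) (L := L.prod (LC.R.prod LC.R))
    (Homeomorph.prodAssoc L LC.R LC.R)).post_bij R (K := (K.prod LC.R).prod LC.R)).comp h1
  have h3 := (R.invP_homeo (K := (K.prod LC.R).prod LC.R) (L := K.prod (LC.R.prod LC.R))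
    (Homeomorph.prodAssoc K LC.R LC.R)).pre_bij R (M := L.prod (LC.R.prod LC.R))
  have e : (fun z : R.Hom (K.prod (LC.R.prod LC.R)) (L.prod (LC.R.prod LC.R)) =>
      R.comp (R.J (PMap.ofHomeo (K := (K.prod LC.R).prod LC.R) (L := K.prod (LC.R.prod LC.R))
        (Homeomorph.prodAssoc K LC.R LC.R))) z) ∘
      (fun x : R.Hom K L => R.tens x (LC.R.prod LC.R)) =
      (fun z : R.Hom ((K.prod LC.R).prod LC.R) ((L.prod LC.R).prod LC.R) =>
      R.comp z (R.J (PMap.ofHomeo (K := (L.prod LC.R).prod LC.R) (L := L.prod (LC.R.prod LC.R))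
        (Homeomorph.prodAssoc L LC.R LC.R)))) ∘
      (fun x : R.Hom K L => R.tens (R.tens x LC.R) LC.R) := by
    funext x
    exact (R.tens_tens x LC.R LC.R).symm
  exact (Function.Bijective.of_comp_iff' h3 _).1 (by rw [e]; exact h2)

theorem tens_C_bijective (K L : LC) :
    Function.Bijective (fun x : R.Hom K L => R.tens x LC.C) := by
  have e0 : (LC.C : LC) ≃ₜ (LC.R.prod LC.R : LC) := Complex.equivRealProdCLM.toHomeomorph
  obtain ⟨y1, hy1⟩ := (R.invP_homeo e0).ltens L
  obtain ⟨y2, hy2⟩ := (R.invP_homeo e0).ltens K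
  have h1 := (hy2.pre_bij R (M := L.prod (LC.R.prod LC.R))).comp (R.tens_RR_bijective K L)
  have h2 := hy1.post_bij R (K := K.prod LC.C)
  have e : (fun z : R.Hom (K.prod LC.C) (L.prod LC.C) =>
      R.comp z (R.ltens L (R.J (PMap.ofHomeo e0)))) ∘ (fun x : R.Hom K L => R.tens x LC.C) =
      (fun z : R.Hom (K.prod (LC.R.prod LC.R)) (L.prod (LC.R.prod LC.R)) =>
        R.comp (R.ltens K (R.J (PMap.ofHomeo e0))) z) ∘
        (fun x : R.Hom K L => R.tens x (LC.R.prod LC.R)) := by
    funext x
    exact R.exch x (R.J (PMap.ofHomeo e0))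
  exact (Function.Bijective.of_comp_iff' h2 _).1 (by rw [e]; exact h1)

theorem tens_zero {K L : LC} (Z : LC) : R.tens (0 : R.Hom K L) Z = 0 := by
  have := R.tens_add (0 : R.Hom K L) 0 Z
  simpa using this

theorem ltens_zero {K L : LC} (Z : LC) : R.ltens Z (0 : R.Hom K L) = 0 := by
  unfold BivData.ltens
  rw [R.tens_zero, R.zero_comp, R.comp_zero]

theorem ltens_add {K L : LC} (Z : LC) (x y : R.Hom K L) :
    R.ltens Z (x + y) = R.ltens Z x + R.ltens Z y := by
  unfold BivData.ltens
  rw [R.tens_add, R.add_comp, R.comp_add]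

theorem ltens_J_comp {K L M : LC} (Z : LC) (f : PMap K L.plus) (x : R.Hom L M) :
    R.ltens Z (R.comp (R.J f) x) = R.comp (R.J (PMap.ltens Z f)) (R.ltens Z x) := by
  unfold BivData.ltens
  rw [R.tens_comp, R.tens_J, R.assoc, ← R.assoc, ← R.assoc (R.J (PMap.ltens Z f)),
    ← R.J_comp, ← R.J_comp]
  congr 2
  exact (PMap.box_swap _ _).symm

/-- suspension by a complex line is bijective -/
theorem ltens_C_bijective (K L : LC) :
    Function.Bijective (fun x : R.Hom K L => R.ltens LC.C x) := by
  have h1 := R.tens_C_bijective K L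
  have h2 := (R.invP_homeo (LC.swap L LC.C)).post_bij R (K := K.prod LC.C)
  have h3 := (R.invP_homeo (LC.swap LC.C K)).pre_bij R (M := LC.C.prod L)
  exact h3.comp (h2.comp h1)

/-- suspension by a complex line -/
def suspC (K L : LC) : R.Hom K L ≃+ R.Hom (LC.C.prod K) (LC.C.prod L) :=
  AddEquiv.ofBijective
    ({ toFun := fun x => R.ltens LC.C x
       map_zero' := R.ltens_zero LC.C
       map_add' := R.ltens_add LC.C } : R.Hom K L →+ R.Hom (LC.C.prod K) (LC.C.prod L))
    (R.ltens_C_bijective K L)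

/-- The functor `K ↦ R(K, M)`. -/
def fn (M : LC) : Testᵒᵖ ⥤ AddCommGrpCat.{0} where
  obj K := AddCommGrpCat.of (R.Hom K.unop.obj M)
  map f := AddCommGrpCat.ofHom (R.pre f.unop.hom M)
  map_id K := by
    ext y
    exact R.id_comp y
  map_comp f g := by
    ext y
    change R.comp (R.JH (HMap.comp f.unop.hom g.unop.hom)) y =
      R.comp (R.JH g.unop.hom) (R.comp (R.JH f.unop.hom) y)
    rw [R.JH_comp, R.assoc]

/-- The graded functor `H^b(K) = R(K, ℂ^b)`. -/
def gf : GF where
  h b := R.fn (Zb b)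
  σ b := NatIso.ofComponents (fun K => (R.suspC K.unop.obj (Zb b)).toAddCommGrpIso) (by
    intro X Y f
    ext y
    change R.ltens LC.C (R.comp (R.JH f.unop.hom) y) =
      R.comp (R.JH (HMap.box (PMap.id LC.C).cls f.unop.hom)) (R.ltens LC.C y)
    generalize f.unop.hom = z
    revert z
    refine HMap.ind fun z => ?_
    exact R.ltens_J_comp LC.C z y)

theorem gf_exact : R.gf.Exact where
  mv1 _ _ u _ _ _ _ x h1 h2 := R.mv1 u x h1 h2
  mv2 _ _ u _ _ _ _ x y h := R.mv2 u x y h
  mv3 _ _ u _ _ _ _ y h := R.mv3 u y h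

end Biv

/-! ## The datum of a loop -/

/-- `ℂ^e = ℝ^(2e)` -/
def realify (e : ℕ) (z : Fin e → ℂ) : Fin (2 * e) → ℝ := fun i =>
  if i.1 % 2 = 0 then (z ⟨i.1 / 2, by omega⟩).re else (z ⟨i.1 / 2, by omega⟩).im

/-- The map `S^d ∧ S¹ → S¹ ∧ X₊` of the reduced class `[f] - [pt]` of a map `f : S^d → X`
(the map `mulMap` without the factor `BG`). -/
def loopSelf {d : ℕ} {X : Type} [TopologicalSpace X] {x : X} (f : GenLoop (Fin d) X x)
    (c : Fin (d + 1) → unitInterval) : Sph 1 X :=
  Sph.mk (height c) (if (c 0 : ℝ) ≤ 1 / 2 then f (stretch c) else x)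

theorem loopSelf_continuous {d : ℕ} {X : Type} [TopologicalSpace X] {x : X}
    (f : GenLoop (Fin d) X x) : Continuous (loopSelf f) := by
  have e : (loopSelf f) = fun c => if (c 0 : ℝ) ≤ 1 / 2 then Sph.mk (height c) (f (stretch c))
      else Sph.mk (height c) x := by
    funext c
    unfold loopSelf
    split_ifs <;> rfl
  rw [e]
  refine Continuous.if_le ?_ ?_ ?_ continuous_const ?_
  · exact mk_continuous_pair height_continuous (f.1.continuous.comp stretch_continuous)
  · exact mk_continuous_pair height_continuous continuous_const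
  · exact continuous_subtype_val.comp (continuous_apply 0)
  · intro y hy
    rcases height_or_stretch y hy with h | h
    · rw [mk_eq_pt_of_boundary _ _ h, mk_eq_pt_of_boundary _ _ h]
    · have h3 : f (stretch y) = x := f.2 _ h
      rw [h3]

/-- the inverse of `squash` on the open interval -/
def unsquash (t : ℝ) : ℝ := if t ≤ 1 / 2 then (2 * t - 1) / (2 * t) else (2 * t - 1) / (2 - 2 * t)

theorem unsquash_squash (t : ℝ) : unsquash (squash t) = t := by
  have hs : ((squash t : unitInterval) : ℝ) = (1 + t / (1 + |t|)) / 2 := rfl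
  rw [hs]
  unfold unsquash
  rcases le_or_gt t 0 with ht | ht
  · rw [abs_of_nonpos ht]
    have h1 : 0 < 1 + -t := by linarith
    have h2 : (1 + t / (1 + -t)) / 2 = 1 / (2 * (1 + -t)) := by
      field_simp
      ring
    have h3 : (1 + t / (1 + -t)) / 2 ≤ 1 / 2 := by
      have : t / (1 + -t) ≤ 0 := div_nonpos_of_nonpos_of_nonneg ht h1.le
      linarith
    rw [if_pos h3, h2]
    field_simp
    ring
  · rw [abs_of_pos ht]
    have h1 : 0 < 1 + t := by linarith
    have h3 : ¬ (1 + t / (1 + t)) / 2 ≤ 1 / 2 := by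
      have : 0 < t / (1 + t) := div_pos ht h1
      linarith
    rw [if_neg h3]
    have h4 : 2 - 2 * ((1 + t / (1 + t)) / 2) = 1 / (1 + t) := by
      field_simp
      ring
    have h5 : 2 * ((1 + t / (1 + t)) / 2) - 1 = t / (1 + t) := by ring
    rw [h4, h5]
    field_simp

/-- `S¹ ∧ X₊` is the one-point compactification of `ℝ × X`, for a compact space `X` -/
def sphToPlus (X : Type) [TopologicalSpace X] (y : Sph 1 X) : OnePoint (ℝ × X) :=
  Quot.lift (Sum.elim (fun _ => OnePoint.infty) (fun p =>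
    open Classical in if p.1 ∈ Cube.boundary (Fin 1) then OnePoint.infty
      else (((unsquash (p.1 0), p.2) : ℝ × X) : OnePoint (ℝ × X)))) (by
    rintro _ _ ⟨u, x, h⟩
    simp [h]) y

/-- The map `ℂ^(e+1) → ℂ × G(κ)` of a loop `f : S^(2e) → G(κ)`: the first coordinate of `ℂ^(e+1)`
contains the suspension coordinate (its real part). -/
def loopDatumFun {κ : Type} [Fintype κ] {e : ℕ} (f : GenLoop (Fin (2 * e)) (GK κ) (GK.base κ))
    (z : Fin (e + 1) → ℂ) : OnePoint ((Fin 1 → ℂ) × GK κ) :=
  OnePoint.elim (sphToPlus (GK κ) (loopSelf f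
    (Fin.cons (squash (z 0).re) fun i => squash (realify e (fun j => z j.succ) i))))
    OnePoint.infty (fun y => (((fun _ => ⟨y.1, (z 0).im⟩, y.2) : (Fin 1 → ℂ) × GK κ) :
      OnePoint ((Fin 1 → ℂ) × GK κ)))

/-! ### Auxiliary lemmas for `loopDatum_aux` -/

namespace LoopAux

theorem height_val {d : ℕ} (c : Fin (d + 1) → unitInterval) : ((height c 0 : unitInterval) : ℝ) =
    min (2 * (c 0 : ℝ)) (2 - 2 * c 0) *
      ∏ i : Fin d, min 1 (min (4 * (c i.succ : ℝ)) (4 * (1 - c i.succ))) := by
  unfold height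
  rw [Set.coe_projIcc]
  have h1 : 0 ≤ min (2 * (c 0 : ℝ)) (2 - 2 * c 0) := by
    apply le_min <;> linarith [(c 0).2.1, (c 0).2.2]
  have h2 : min (2 * (c 0 : ℝ)) (2 - 2 * c 0) ≤ 1 := by
    rcases le_total (c 0 : ℝ) (1 / 2) with h | h
    · exact (min_le_left _ _).trans (by linarith)
    · exact (min_le_right _ _).trans (by linarith)
  have h3 : ∀ i : Fin d, 0 ≤ min 1 (min (4 * (c i.succ : ℝ)) (4 * (1 - c i.succ))) := by
    intro i
    refine le_min zero_le_one (le_min ?_ ?_) <;> linarith [(c i.succ).2.1, (c i.succ).2.2]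
  have h4 : 0 ≤ ∏ i : Fin d, min 1 (min (4 * (c i.succ : ℝ)) (4 * (1 - c i.succ))) :=
    Finset.prod_nonneg fun i _ => h3 i
  have h5 : ∏ i : Fin d, min 1 (min (4 * (c i.succ : ℝ)) (4 * (1 - c i.succ))) ≤ 1 :=
    Finset.prod_le_one (fun i _ => h3 i) fun i _ => min_le_left _ _
  rw [max_eq_right, min_eq_right]
  · exact mul_le_one₀ h2 h4 h5
  · exact le_min zero_le_one (mul_nonneg h1 h4)

theorem height_le_zero {d : ℕ} (c : Fin (d + 1) → unitInterval) :
    ((height c 0 : unitInterval) : ℝ) ≤ min (2 * (c 0 : ℝ)) (2 - 2 * c 0) := by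
  rw [height_val]
  have h1 : 0 ≤ min (2 * (c 0 : ℝ)) (2 - 2 * c 0) := by
    apply le_min <;> linarith [(c 0).2.1, (c 0).2.2]
  refine mul_le_of_le_one_right h1 (Finset.prod_le_one (fun i _ => ?_) fun i _ => min_le_left _ _)
  refine le_min zero_le_one (le_min ?_ ?_) <;> linarith [(c i.succ).2.1, (c i.succ).2.2]

theorem height_le_succ {d : ℕ} (c : Fin (d + 1) → unitInterval) (i : Fin d) :
    ((height c 0 : unitInterval) : ℝ) ≤ min (4 * (c i.succ : ℝ)) (4 * (1 - c i.succ)) := by
  rw [height_val]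
  have h1 : 0 ≤ min (2 * (c 0 : ℝ)) (2 - 2 * c 0) := by
    apply le_min <;> linarith [(c 0).2.1, (c 0).2.2]
  have h2 : min (2 * (c 0 : ℝ)) (2 - 2 * c 0) ≤ 1 := by
    rcases le_total (c 0 : ℝ) (1 / 2) with h | h
    · exact (min_le_left _ _).trans (by linarith)
    · exact (min_le_right _ _).trans (by linarith)
  have h3 : ∀ i : Fin d, 0 ≤ min 1 (min (4 * (c i.succ : ℝ)) (4 * (1 - c i.succ))) := by
    intro i
    refine le_min zero_le_one (le_min ?_ ?_) <;> linarith [(c i.succ).2.1, (c i.succ).2.2]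
  have h4 : ∏ i : Fin d, min 1 (min (4 * (c i.succ : ℝ)) (4 * (1 - c i.succ))) ≤
      min 1 (min (4 * (c i.succ : ℝ)) (4 * (1 - c i.succ))) := by
    rw [← Finset.mul_prod_erase Finset.univ _ (Finset.mem_univ i)]
    refine mul_le_of_le_one_right (h3 i) (Finset.prod_le_one (fun j _ => h3 j)
      fun j _ => min_le_left _ _)
  calc _ ≤ 1 * min 1 (min (4 * (c i.succ : ℝ)) (4 * (1 - c i.succ))) :=
        mul_le_mul h2 h4 (Finset.prod_nonneg fun j _ => h3 j) zero_le_one
    _ ≤ _ := by
        rw [one_mul]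
        exact min_le_right _ _

theorem squash_pos (t : ℝ) : 0 < ((squash t : unitInterval) : ℝ) := by
  have hs : ((squash t : unitInterval) : ℝ) = (1 + t / (1 + |t|)) / 2 := rfl
  rw [hs]
  have h0 : 0 < 1 + |t| := by positivity
  have h1 : -1 < t / (1 + |t|) := by
    rw [lt_div_iff₀ h0]
    linarith [neg_abs_le t]
  linarith

theorem squash_lt_one (t : ℝ) : ((squash t : unitInterval) : ℝ) < 1 := by
  have hs : ((squash t : unitInterval) : ℝ) = (1 + t / (1 + |t|)) / 2 := rfl
  rw [hs]
  have h0 : 0 < 1 + |t| := by positivity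
  have h1 : t / (1 + |t|) < 1 := by
    rw [div_lt_one h0]
    linarith [le_abs_self t]
  linarith

theorem continuous_squash' : Continuous squash := by
  refine Continuous.subtype_mk ?_ _
  refine ((continuous_const.add (continuous_id.div (continuous_const.add continuous_abs)
    fun t => ?_))).div_const _
  have h : 0 < 1 + |t| := by positivity
  exact h.ne'

theorem height_pos {d : ℕ} (c : Fin (d + 1) → unitInterval)
    (h : ∀ i, 0 < (c i : ℝ) ∧ (c i : ℝ) < 1) : 0 < ((height c 0 : unitInterval) : ℝ) := by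
  rw [height_val]
  refine mul_pos (lt_min ?_ ?_) (Finset.prod_pos fun i _ => lt_min zero_lt_one (lt_min ?_ ?_))
  · linarith [(h 0).1]
  · linarith [(h 0).2]
  · linarith [(h i.succ).1]
  · linarith [(h i.succ).2]

theorem unsquash_eq (t : ℝ) : unsquash t = (2 * t - 1) / (2 * min t (1 - t)) := by
  unfold unsquash
  split_ifs with h
  · rw [min_eq_left (by linarith)]
  · rw [min_eq_right (by linarith)]
    congr 1
    ring

theorem unsquash_abs {t δ : ℝ} (hδ : 0 < δ) (h1 : δ ≤ 4 * t) (h2 : δ ≤ 4 * (1 - t)) :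
    |unsquash t| ≤ 2 / δ := by
  have h3 : δ / 4 ≤ min t (1 - t) := le_min (by linarith) (by linarith)
  have h4 : 0 < min t (1 - t) := by linarith [h3]
  rw [unsquash_eq, abs_div, abs_of_pos (by positivity : 0 < 2 * min t (1 - t)),
    div_le_div_iff₀ (by positivity) hδ]
  have h5 : |2 * t - 1| ≤ 1 := abs_le.2 ⟨by linarith, by linarith⟩
  nlinarith

theorem unsquash_bd {t R : ℝ} (hR : 0 ≤ R) (h0 : 0 < t) (h1 : t < 1) (h : |unsquash t| ≤ R) :
    1 / (2 * (1 + R)) ≤ t ∧ t ≤ 1 - 1 / (2 * (1 + R)) := by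
  have h4 : 0 < min t (1 - t) := lt_min h0 (by linarith)
  rw [unsquash_eq, abs_div, abs_of_pos (by positivity : 0 < 2 * min t (1 - t)),
    div_le_iff₀ (by positivity)] at h
  have h5 : 1 - 2 * min t (1 - t) ≤ |2 * t - 1| := by
    rcases le_total t (1 - t) with h6 | h6
    · rw [min_eq_left h6]
      have := neg_abs_le (2 * t - 1)
      linarith
    · rw [min_eq_right h6]
      have := le_abs_self (2 * t - 1)
      linarith
  have h6 : 1 / (2 * (1 + R)) ≤ min t (1 - t) := by
    rw [div_le_iff₀ (by positivity)]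
    nlinarith
  constructor
  · exact h6.trans (min_le_left _ _)
  · have := h6.trans (min_le_right _ _)
    linarith

section datum

variable {κ : Type} [Fintype κ] {e : ℕ}

/-- the point of the cube -/
def cc (z : Fin (e + 1) → ℂ) : Fin (2 * e + 1) → unitInterval :=
  Fin.cons (squash (z 0).re) fun i => squash (realify e (fun j => z j.succ) i)

theorem cc_continuous : Continuous (cc (e := e)) := by
  refine continuous_pi fun i => ?_
  refine Fin.cases ?_ (fun j => ?_) i
  · show Continuous fun z : Fin (e + 1) → ℂ => squash (z 0).re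
    exact continuous_squash'.comp (Complex.continuous_re.comp (continuous_apply 0))
  · show Continuous fun z : Fin (e + 1) → ℂ => squash (realify e (fun j => z j.succ) j)
    refine continuous_squash'.comp ?_
    unfold realify
    by_cases h : j.1 % 2 = 0
    · simp only [if_pos h]
      exact Complex.continuous_re.comp (continuous_apply _)
    · simp only [if_neg h]
      exact Complex.continuous_im.comp (continuous_apply _)

theorem cc_mem (z : Fin (e + 1) → ℂ) (i : Fin (2 * e + 1)) :
    0 < (cc z i : ℝ) ∧ (cc z i : ℝ) < 1 := by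
  refine Fin.cases ?_ (fun j => ?_) i
  · exact ⟨squash_pos _, squash_lt_one _⟩
  · exact ⟨squash_pos _, squash_lt_one _⟩

/-- the suspension coordinate -/
def hh (z : Fin (e + 1) → ℂ) : ℝ := (height (cc z) 0 : unitInterval)

theorem hh_continuous : Continuous (hh (e := e)) :=
  continuous_subtype_val.comp ((continuous_apply 0).comp (height_continuous.comp cc_continuous))

theorem hh_pos (z : Fin (e + 1) → ℂ) : 0 < hh z := height_pos _ (cc_mem z)

/-- the second coordinate -/
def psi (f : GenLoop (Fin (2 * e)) (GK κ) (GK.base κ)) (z : Fin (e + 1) → ℂ) : GK κ :=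
  if (cc z 0 : ℝ) ≤ 1 / 2 then f (stretch (cc z)) else GK.base κ

/-- the value -/
def ell (f : GenLoop (Fin (2 * e)) (GK κ) (GK.base κ)) (z : Fin (e + 1) → ℂ) :
    (Fin 1 → ℂ) × GK κ := (fun _ => ⟨unsquash (hh z), (z 0).im⟩, psi f z)

theorem sphToPlus_mem {X : Type} [TopologicalSpace X] {u : Fin 1 → unitInterval} {x : X}
    (h : u ∈ Cube.boundary (Fin 1)) : sphToPlus X (Sph.mk u x) = OnePoint.infty := if_pos h

theorem sphToPlus_notMem {X : Type} [TopologicalSpace X] {u : Fin 1 → unitInterval} {x : X}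
    (h : u ∉ Cube.boundary (Fin 1)) : sphToPlus X (Sph.mk u x) =
      (((unsquash (u 0), x) : ℝ × X) : OnePoint (ℝ × X)) := if_neg h

theorem fun_eq (f : GenLoop (Fin (2 * e)) (GK κ) (GK.base κ)) {z : Fin (e + 1) → ℂ}
    (h : hh z < 1) : loopDatumFun f z = ((ell f z : (Fin 1 → ℂ) × GK κ) :
      OnePoint ((Fin 1 → ℂ) × GK κ)) := by
  have hb : height (cc z) ∉ Cube.boundary (Fin 1) := by
    rintro ⟨i, hi⟩
    have hi0 : i = 0 := Subsingleton.elim _ _
    subst hi0
    rcases hi with hi | hi
    · have h1 := hh_pos z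
      unfold hh at h1
      rw [hi] at h1
      exact lt_irrefl _ h1
    · unfold hh at h
      rw [hi] at h
      exact lt_irrefl _ h
  have h2 : sphToPlus (GK κ) (loopSelf f (cc z)) =
      (((unsquash (height (cc z) 0), psi f z) : ℝ × GK κ) : OnePoint (ℝ × GK κ)) :=
    sphToPlus_notMem hb
  unfold loopDatumFun
  show OnePoint.elim (sphToPlus (GK κ) (loopSelf f (cc z))) _ _ = _
  rw [h2]
  rfl

theorem fun_eq_inf (f : GenLoop (Fin (2 * e)) (GK κ) (GK.base κ)) {z : Fin (e + 1) → ℂ}
    (h : ¬ hh z < 1) : loopDatumFun f z = OnePoint.infty := by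
  have hb : height (cc z) ∈ Cube.boundary (Fin 1) := by
    refine ⟨0, Or.inr ?_⟩
    apply Subtype.ext
    exact le_antisymm (height (cc z) 0).2.2 (not_lt.1 h)
  have h2 : sphToPlus (GK κ) (loopSelf f (cc z)) = OnePoint.infty := sphToPlus_mem hb
  unfold loopDatumFun
  show OnePoint.elim (sphToPlus (GK κ) (loopSelf f (cc z))) _ _ = _
  rw [h2]
  rfl

theorem psi_continuous (f : GenLoop (Fin (2 * e)) (GK κ) (GK.base κ)) :
    Continuous fun z : {z : Fin (e + 1) → ℂ // hh z < 1} => psi f z.1 := by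
  have h0 : Continuous fun z : {z : Fin (e + 1) → ℂ // hh z < 1} => cc z.1 :=
    cc_continuous.comp continuous_subtype_val
  refine Continuous.if_le ?_ continuous_const ?_ continuous_const ?_
  · exact f.1.continuous.comp (stretch_continuous.comp h0)
  · exact continuous_subtype_val.comp ((continuous_apply 0).comp h0)
  · intro z hz
    rcases height_or_stretch (cc z.1) hz with h | h
    · exfalso
      obtain ⟨i, hi⟩ := h
      have hi0 : i = 0 := Subsingleton.elim _ _
      subst hi0
      rcases hi with hi | hi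
      · have h1 := hh_pos z.1
        unfold hh at h1
        rw [hi] at h1
        exact lt_irrefl _ h1
      · have h1 := z.2
        unfold hh at h1
        rw [hi] at h1
        exact lt_irrefl _ h1
    · exact f.2 _ h

theorem ell_continuous (f : GenLoop (Fin (2 * e)) (GK κ) (GK.base κ)) :
    Continuous fun z : {z : Fin (e + 1) → ℂ // hh z < 1} => ell f z.1 := by
  refine Continuous.prodMk (continuous_pi fun _ => ?_) (psi_continuous f)
  have h1 : Continuous fun z : {z : Fin (e + 1) → ℂ // hh z < 1} => unsquash (hh z.1) := by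
    simp only [unsquash_eq]
    have h2 : Continuous fun z : {z : Fin (e + 1) → ℂ // hh z < 1} => hh z.1 :=
      hh_continuous.comp continuous_subtype_val
    refine Continuous.div ((continuous_const.mul h2).sub continuous_const)
      (continuous_const.mul (h2.min (continuous_const.sub h2))) fun z => ?_
    have h3 : 0 < min (hh z.1) (1 - hh z.1) := lt_min (hh_pos _) (by linarith [z.2])
    positivity
  have h2 : Continuous fun z : {z : Fin (e + 1) → ℂ // hh z < 1} => (z.1 0).im :=
    Complex.continuous_im.comp ((continuous_apply 0).comp continuous_subtype_val)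
  have h3 : (fun z : {z : Fin (e + 1) → ℂ // hh z < 1} =>
      (⟨unsquash (hh z.1), (z.1 0).im⟩ : ℂ)) = fun z => (unsquash (hh z.1) : ℂ) +
      ((z.1 0).im : ℂ) * Complex.I := by
    funext z
    apply Complex.ext <;> simp
  show Continuous fun z : {z : Fin (e + 1) → ℂ // hh z < 1} =>
      (⟨unsquash (hh z.1), (z.1 0).im⟩ : ℂ)
  rw [h3]
  exact (Complex.continuous_ofReal.comp h1).add
    ((Complex.continuous_ofReal.comp h2).mul continuous_const)

theorem norm_le_of (z : Fin (e + 1) → ℂ) {δ R : ℝ} (hδ : 0 < δ) (hR : 0 ≤ R) (h : δ ≤ hh z)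
    (h2 : |(z 0).im| ≤ R) : ‖z‖ ≤ 4 / δ + R := by
  have hB : 0 ≤ 4 / δ + R := by positivity
  have hd : 2 / δ ≤ 4 / δ := by
    apply div_le_div_of_nonneg_right _ hδ.le
    norm_num
  have h0 : |(z 0).re| ≤ 2 / δ := by
    have h3 := height_le_zero (cc z)
    have h4 := h.trans h3
    rw [le_min_iff] at h4
    have h5 : unsquash (squash (z 0).re) = (z 0).re := unsquash_squash _
    rw [← h5]
    have h6 : (cc z 0 : ℝ) = (squash (z 0).re : ℝ) := rfl
    rw [h6] at h4
    exact unsquash_abs hδ (by linarith [(squash (z 0).re).2.1]) (by linarith [(squash (z 0).re).2.2])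
  have hs : ∀ i, |realify e (fun j => z j.succ) i| ≤ 2 / δ := by
    intro i
    have h3 := height_le_succ (cc z) i
    have h4 := h.trans h3
    rw [le_min_iff] at h4
    have h5 : unsquash (squash (realify e (fun j => z j.succ) i)) =
      realify e (fun j => z j.succ) i := unsquash_squash _
    rw [← h5]
    exact unsquash_abs hδ h4.1 h4.2
  rw [pi_norm_le_iff_of_nonneg hB]
  intro j
  refine (Complex.norm_le_abs_re_add_abs_im (z j)).trans ?_
  refine Fin.cases ?_ (fun i => ?_) j
  · linarith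
  · have h3 := hs ⟨2 * i.1, by omega⟩
    have h4 := hs ⟨2 * i.1 + 1, by omega⟩
    have h5 : realify e (fun j => z j.succ) ⟨2 * i.1, by omega⟩ = (z i.succ).re := by
      unfold realify
      rw [if_pos (by simp)]
      congr 3
      show 2 * i.1 / 2 = i.1
      omega
    have h6 : realify e (fun j => z j.succ) ⟨2 * i.1 + 1, by omega⟩ = (z i.succ).im := by
      unfold realify
      rw [if_neg (by simp)]
      congr 3
      show (2 * i.1 + 1) / 2 = i.1
      omega
    rw [h5] at h3
    rw [h6] at h4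
    have h7 : 4 / δ = 2 / δ + 2 / δ := by ring
    linarith

end datum

end LoopAux

open LoopAux in
theorem loopDatum_aux {κ : Type} [Fintype κ] {e : ℕ}
    (f : GenLoop (Fin (2 * e)) (GK κ) (GK.base κ)) : Continuous (loopDatumFun f) ∧
    Tendsto (loopDatumFun f) (cocompact (LC.cpow (Fin (e + 1))))
      (𝓝 (OnePoint.infty : OnePoint ((Fin 1 → ℂ) × GK κ))) := by
  have hO : IsOpen {z : Fin (e + 1) → ℂ | hh z < 1} := isOpen_lt hh_continuous continuous_const
  refine PMap.partial_aux (K := LC.cpow (Fin (e + 1))) (L := ⟨(Fin 1 → ℂ) × GK κ⟩)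
    (loopDatumFun f) ?_ ?_
  · intro V hV
    have h1 : IsOpen (Subtype.val '' {z : {z : Fin (e + 1) → ℂ // hh z < 1} | ell f z.1 ∈ V}) :=
      hO.isOpenMap_subtype_val _ (hV.preimage (ell_continuous f))
    have hE : {z : Fin (e + 1) → ℂ | ∃ l ∈ V, loopDatumFun f z = (l : OnePoint _)} =
        Subtype.val '' {z : {z : Fin (e + 1) → ℂ // hh z < 1} | ell f z.1 ∈ V} := by
      ext z
      constructor
      · rintro ⟨l, hl, hz⟩
        by_cases h : hh z < 1
        · rw [fun_eq f h] at hz
          have h2 := OnePoint.coe_injective hz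
          exact ⟨⟨z, h⟩, by rw [← h2] at hl; exact hl, rfl⟩
        · rw [fun_eq_inf f h] at hz
          exact absurd hz (OnePoint.infty_ne_coe l)
      · rintro ⟨⟨z', h⟩, hz, rfl⟩
        exact ⟨ell f z', hz, fun_eq f h⟩
    rw [← hE] at h1
    exact h1
  · intro C hC
    obtain ⟨R, hR⟩ : ∃ R : ℝ, ∀ p ∈ C, ‖p.1 0‖ ≤ R := by
      have h1 : IsCompact ((fun p : (Fin 1 → ℂ) × GK κ => p.1 0) '' C) :=
        hC.image ((continuous_apply 0).comp continuous_fst)
      obtain ⟨R, hR⟩ := h1.isBounded.exists_norm_le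
      exact ⟨R, fun p hp => hR _ ⟨p, hp, rfl⟩⟩
    set R' := max R 0 with hR'
    have hR0 : 0 ≤ R' := le_max_right _ _
    set δ := 1 / (2 * (1 + R')) with hδ
    have hδ0 : 0 < δ := by positivity
    have hkey : ∀ z : Fin (e + 1) → ℂ, (∃ l ∈ C, loopDatumFun f z = (l : OnePoint _)) →
        hh z < 1 ∧ ell f z ∈ C ∧ δ ≤ hh z ∧ hh z ≤ 1 - δ ∧ |(z 0).im| ≤ R' := by
      rintro z ⟨l, hl, hz⟩
      by_cases h : hh z < 1
      · rw [fun_eq f h] at hz
        have h2 := OnePoint.coe_injective hz
        rw [← h2] at hl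
        have h3 := (hR _ hl).trans (le_max_left R 0)
        have h4 : |unsquash (hh z)| ≤ R' := (Complex.abs_re_le_norm _).trans h3
        have h5 : |((ell f z).1 0).im| ≤ R' := (Complex.abs_im_le_norm _).trans h3
        have h6 := unsquash_bd hR0 (hh_pos z) h h4
        exact ⟨h, hl, h6.1, h6.2, h5⟩
      · rw [fun_eq_inf f h] at hz
        exact absurd hz (OnePoint.infty_ne_coe l)
    have hS : {z : Fin (e + 1) → ℂ | ∃ l ∈ C, loopDatumFun f z = (l : OnePoint _)} =
        {z | hh z ≤ 1 - δ} ∩ ell f ⁻¹' C := by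
      ext z
      constructor
      · intro hz
        obtain ⟨-, h2, -, h4, -⟩ := hkey z hz
        exact ⟨h4, h2⟩
      · rintro ⟨h1, h2⟩
        have h3 : hh z < 1 := lt_of_le_of_lt h1 (by linarith)
        exact ⟨ell f z, h2, fun_eq f h3⟩
    have hcl : IsClosed {z : Fin (e + 1) → ℂ | ∃ l ∈ C, loopDatumFun f z = (l : OnePoint _)} := by
      rw [hS]
      have hc : ContinuousOn (ell f) {z | hh z ≤ 1 - δ} := by
        have h1 : ContinuousOn (ell f) {z | hh z < 1} :=
          continuousOn_iff_continuous_domRestrict.2 (ell_continuous f)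
        refine h1.mono fun z hz => ?_
        have hz' : hh z ≤ 1 - δ := hz
        show hh z < 1
        linarith
      exact hc.preimage_isClosed_of_isClosed (isClosed_le hh_continuous continuous_const)
        hC.isClosed
    refine Metric.isCompact_of_isClosed_isBounded hcl ?_
    rw [isBounded_iff_forall_norm_le]
    refine ⟨4 / δ + R', fun z hz => ?_⟩
    obtain ⟨-, -, h3, -, h5⟩ := hkey z hz
    exact norm_le_of z hδ0 hR0 h3 h5

/-- The datum of a loop in `G(κ)`. -/
def loopDatum {κ : Type} [Fintype κ] {e : ℕ} (f : GenLoop (Fin (2 * e)) (GK κ) (GK.base κ)) :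
    Datum where
  w := Fin (e + 1)
  u := Fin 1
  a := κ
  s := ⟨loopDatumFun f, (loopDatum_aux f).1, (loopDatum_aux f).2⟩

/-! ## From frames to projections -/

/-- the projection onto the span of the columns of a frame; the rows `2 j`, `2 j + 1` of the frame
are the coordinates `(j, true)`, `(j, false)` -/
def Frame.proj {k : ℕ} (A : Frame k) : GK (Fin k) :=
  ⟨fun x y => ∑ c ∈ Finset.range k, A.1 (2 * x.1 + (if x.2 then 0 else 1)) c *
      star (A.1 (2 * y.1 + (if y.2 then 0 else 1)) c), by
    rw [Pool.Agent.Helper4.Stab.proj_fun]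
    exact Pool.Agent.Helper4.Stab.proj_prop (Pool.Agent.Helper4.Stab.mat_iso A)⟩

theorem Frame.proj_val {k : ℕ} (A : Frame k) : (Frame.proj A).1 =
    Pool.Agent.Helper4.Stab.mat A * (Pool.Agent.Helper4.Stab.mat A).conjTranspose :=
  Pool.Agent.Helper4.Stab.proj_fun A

theorem Frame.proj_rel {k : ℕ} {A B : Frame k} (h : FrameRel Set.univ k A B) :
    Frame.proj A = Frame.proj B := by
  apply Subtype.ext
  rw [Frame.proj_val, Frame.proj_val, Pool.Agent.Helper4.Stab.mat_rel h]

/-- `Gr_k(ℂ^(2k))` as a space of projections -/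
def Gr.toGK {k : ℕ} : Gr Set.univ k → GK (Fin k) :=
  Quot.lift Frame.proj (fun _ _ h => Frame.proj_rel h)

theorem Gr.toGK_continuous {k : ℕ} : Continuous (Gr.toGK (k := k)) := by
  refine continuous_quot_lift _ ?_
  refine Continuous.subtype_mk ?_ _
  refine continuous_pi fun x => continuous_pi fun y => ?_
  refine continuous_finsetSum _ fun c _ => ?_
  have h : ∀ i j : ℕ, Continuous fun A : Frame k => A.1 i j := fun i j =>
    (continuous_apply j).comp ((continuous_apply i).comp continuous_subtype_val)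
  exact (h _ _).mul (h _ _).star

theorem Gr.toGK_bijective {k : ℕ} : Function.Bijective (Gr.toGK (k := k)) := by
  constructor
  · intro x y h
    induction x using Quot.ind with
    | mk A =>
      induction y using Quot.ind with
      | mk B =>
        apply Quot.sound
        apply Pool.Agent.Helper4.Stab.rel_of_mat
        rw [← Frame.proj_val, ← Frame.proj_val]
        exact congrArg Subtype.val h
  · intro P
    obtain ⟨V, hV, hP⟩ := Pool.Agent.Helper4.Stab.exists_iso P.1 P.2.1 P.2.2.1 P.2.2.2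
    obtain ⟨A, hA⟩ := Pool.Agent.Helper4.Stab.exists_frame V hV
    refine ⟨Quot.mk _ A, ?_⟩
    apply Subtype.ext
    show (Frame.proj A).1 = P.1
    rw [Frame.proj_val, hA, hP]

theorem Gr.toGK_pt {k : ℕ} : Gr.toGK (Gr.pt Set.univ k) = GK.base (Fin k) := by
  apply Subtype.ext
  show (Frame.proj (Frame.std k)).1 = _
  rw [Frame.proj_val]
  ext x y
  rw [Pool.Agent.Helper4.Stab.mat_std]
  by_cases h : x = y ∧ x.2 = true
  · rw [if_pos h]
    exact (if_pos h).symm
  · rw [if_neg h]
    exact (if_neg h).symm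

/-- a loop in the Grassmannian as a loop of projections -/
def loopGK {d k : ℕ} (f : GenLoop (Fin d) (Gr Set.univ k) (Gr.pt Set.univ k)) :
    GenLoop (Fin d) (GK (Fin k)) (GK.base (Fin k)) :=
  ⟨⟨fun u => Gr.toGK (f u), Gr.toGK_continuous.comp f.1.continuous⟩, fun u hu =>
    (congrArg Gr.toGK (f.2 u hu)).trans Gr.toGK_pt⟩

end Pool.Agent.Helper1.Stab
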