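import Pool.Agent.Helper1.Stab.Comp
import Pool.Agent.Helper9.Stab.Rho
import Pool.Agent.Helper93.Stab.CF
import Pool.Agent.Helper74.Stab.Rot
import Pool.Agent.Helper39.Stab.Step
import Pool.Agent.Helper39.Stab.SumStage
import Pool.Agent.Helper19.Stab.Inj
import Pool.Agent.Helper63.Stab.CalF

/-! Steps of the comparison theorem. -/

open CategoryTheory Topology Filter Set Opposite

noncomputable section

namespace Pool.Agent.Helper1.Stab

/-! ## The reduced class of a loop -/

/-- the sphere `(ℂ^e)⁺` as a compact space -/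
abbrev LC.sph (e : ℕ) : LC := ⟨OnePoint (Fin e → ℂ)⟩

/-- the collapse `(ℂ^e)⁺ ⇢ ℂ^e` -/
def collSph (e : ℕ) : PMap (LC.sph e) (LC.cpow (Fin e)).plus :=
  ⟨fun x => x, continuous_id, by rw [cocompact_eq_bot]; exact tendsto_bot⟩

/-- the map `(ℂ^e)⁺ → X` of a loop -/
def loopBar {e : ℕ} {X : Type} [TopologicalSpace X] {x : X} (f : GenLoop (Fin (2 * e)) X x) :
    C(OnePoint (Fin e → ℂ), X) :=
  ⟨fun z => OnePoint.elim z x (fun z => f (fun i => squash (realify e z i))),
    Helper9.Stab.loopB_cont f⟩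

/-- a map of compact spaces -/
def PMap.ofC {K L : LC} [CompactSpace K] (f : C(K, L)) : PMap K L.plus :=
  PMap.ofProper f f.continuous (by rw [cocompact_eq_bot]; exact tendsto_bot)

/-- `ℂ^(e+1) = ℂ × ℂ^e` -/
def consC (e : ℕ) : LC.cpow (Fin (e + 1)) ≃ₜ LC.C.prod (LC.cpow (Fin e)) where
  toFun z := (z 0, fun i => z i.succ)
  invFun z := Fin.cons z.1 z.2
  left_inv z := by ext i; refine Fin.cases rfl (fun j => rfl) i
  right_inv z := rfl
  continuous_toFun := by fun_prop
  continuous_invFun := by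
    refine continuous_pi fun i => ?_
    refine Fin.cases ?_ (fun j => ?_) i
    · exact continuous_fst
    · exact (continuous_apply j).comp continuous_snd

/-- `ℂ = ℂ^1` -/
def oneC : LC.C ≃ₜ LC.cpow (Fin 1) := (Homeomorph.funUnique (Fin 1) ℂ).symm

/-- (RC) The reduced class `ρ ∈ R(ℂ^e, G κ)` of a loop in `G κ`: its pull-back to the sphere is
`[f] - [pt]`, and the map `s` of the datum of `f` is its suspension. -/
theorem exists_rho (R : Biv) {κ : Type} [Fintype κ] {e : ℕ} (he : 0 < e)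
    (f : GenLoop (Fin (2 * e)) (GK κ) (GK.base κ)) :
    ∃ ρ : R.Hom (LC.cpow (Fin e)) (LC.G κ),
      R.comp (R.J (collSph e)) ρ =
        R.J (PMap.ofC (K := LC.sph e) (L := LC.G κ) (loopBar f)) -
        R.J (PMap.ofC (K := LC.sph e) (L := LC.G κ) (ContinuousMap.const _ (GK.base κ))) ∧
      R.J (loopDatum f).s = R.comp (R.J (PMap.ofHomeo (consC e)))
        (R.comp (R.ltens LC.C ρ) (R.J (PMap.ofHomeo (oneC.prodCongr (Homeomorph.refl (GK κ)) :
          LC.C.prod (LC.G κ) ≃ₜ (LC.cpow (Fin 1)).prod (LC.G κ))))) := by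
  obtain ⟨ρ, hρ⟩ := Helper9.Stab.sph_exact R (e := e) (L := LC.G κ)
    (R.J (PMap.ofC (K := LC.sph e) (L := LC.G κ) (loopBar f)) -
      R.J (PMap.ofC (K := LC.sph e) (L := LC.G κ) (ContinuousMap.const _ (GK.base κ)))) (by
    rw [Helper9.Stab.c_sub, ← R.J_comp, ← R.J_comp, sub_eq_zero]
    congr 1)
  refine ⟨ρ, hρ.symm, ?_⟩
  exact Helper9.Stab.rho_formula f R ρ hρ.symm (consC e) (fun _ _ => rfl)
    (oneC.prodCongr (Homeomorph.refl (GK κ))) (fun _ _ => rfl)

/-- the restriction to `ℂ^e` determines a class on the sphere up to its value at infinity; in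
particular `J (collSph e)` is a split monomorphism for precomposition -/
theorem collSph_injective (R : Biv) {e : ℕ} {L : LC} {x y : R.Hom (LC.cpow (Fin e)) L}
    (h : R.comp (R.J (collSph e)) x = R.comp (R.J (collSph e)) y) : x = y :=
  Helper9.Stab.sph_inj R h

/-- a class on the sphere that vanishes at infinity comes from `ℂ^e` -/
theorem collSph_exact (R : Biv) {e : ℕ} {L : LC} (x : R.Hom (LC.sph e) L)
    (h : R.comp (R.J (PMap.ofPoint (K := LC.sph e) OnePoint.infty)) x = 0) :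
    ∃ y, x = R.comp (R.J (collSph e)) y :=
  Helper9.Stab.sph_exact R x h

/-! ## The inverted class -/

theorem Biv.swap_swap (R : Biv) (K L : LC) :
    R.comp (R.J (PMap.ofHomeo (LC.swap K L))) (R.J (PMap.ofHomeo (LC.swap L K))) =
      R.J (PMap.id _) := by
  rw [← R.J_comp]
  congr 1

theorem Biv.ltens_comp (R : Biv) (Z : LC) {K L M : LC} (x : R.Hom K L) (y : R.Hom L M) :
    R.ltens Z (R.comp x y) = R.comp (R.ltens Z x) (R.ltens Z y) := by
  unfold BivData.ltens
  rw [R.tens_comp, R.assoc, R.assoc, R.assoc, ← R.assoc (R.J (PMap.ofHomeo (LC.swap L Z)))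
    (R.J (PMap.ofHomeo (LC.swap Z L))), R.swap_swap, R.id_comp]

theorem Biv.ltens_id (R : Biv) (Z K : LC) :
    R.ltens Z (R.J (PMap.id K)) = R.J (PMap.id (Z.prod K)) := by
  unfold BivData.ltens
  rw [R.tens_J]
  have : R.J (PMap.tens (PMap.id K) Z) = R.J (PMap.id (K.prod Z)) := by
    congr 1
  rw [this, R.id_comp, R.swap_swap]

theorem Biv.InvP.cancel {R : Biv} {K L M N : LC} {a : R.Hom K L} {a' : R.Hom L K}
    {b : R.Hom L M} {c : R.Hom M N} {c' : R.Hom N M} {s : R.Hom N K} (ha : R.InvP a a')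
    (hc : R.InvP c c') (hs : R.InvP (R.comp a (R.comp b c)) s) :
    R.InvP b (R.comp c (R.comp s a)) := by
  have h := Biv.InvP.comp (R := R) (⟨ha.2, ha.1⟩ : R.InvP a' a)
    (Biv.InvP.comp (R := R) hs (⟨hc.2, hc.1⟩ : R.InvP c' c))
  have e1 : R.comp a' (R.comp (R.comp a (R.comp b c)) c') = b := by
    rw [R.assoc a, ← R.assoc a' a, ha.2, R.id_comp, R.assoc b, hc.1, R.comp_id]
  rw [e1, R.assoc c s a] at h
  exact h

theorem beta_inv_aux (T : Biv) {κ : Type} [Fintype κ] {e : ℕ} (g : T.Hom (LC.G κ) LC.point)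
    (s : T.Hom (LC.cpow (Fin (e + 1))) ((LC.cpow (Fin 1)).prod (LC.G κ)))
    (ρ : T.Hom (LC.cpow (Fin e)) (LC.G κ))
    (h : s = T.comp (T.J (PMap.ofHomeo (consC e)))
        (T.comp (T.ltens LC.C ρ) (T.tens (T.J (PMap.ofHomeo oneC)) (LC.G κ))))
    (t : T.Hom ((LC.cpow (Fin 1)).prod LC.point) (LC.cpow (Fin (e + 1))))
    (ht1 : T.comp t (T.comp s (T.ltens (LC.cpow (Fin 1)) g)) = T.J (PMap.id _))
    (ht2 : T.comp (T.comp s (T.ltens (LC.cpow (Fin 1)) g)) t = T.J (PMap.id _)) :
    ∃ β' : T.Hom LC.point (LC.cpow (Fin e)),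
      T.comp (T.comp ρ g) β' = T.J (PMap.id _) ∧ T.comp β' (T.comp ρ g) = T.J (PMap.id _) := by
  have hs : T.InvP (T.comp s (T.ltens (LC.cpow (Fin 1)) g)) t := ⟨ht2, ht1⟩
  have hn : T.comp (T.tens (T.J (PMap.ofHomeo oneC)) (LC.G κ)) (T.ltens (LC.cpow (Fin 1)) g) =
      T.comp (T.ltens LC.C g) (T.tens (T.J (PMap.ofHomeo oneC)) LC.point) := T.exch _ _
  have hS : T.comp s (T.ltens (LC.cpow (Fin 1)) g) =
      T.comp (T.J (PMap.ofHomeo (consC e))) (T.comp (T.ltens LC.C (T.comp ρ g))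
        (T.tens (T.J (PMap.ofHomeo oneC)) LC.point)) := by
    rw [h, T.assoc, T.assoc, hn, ← T.assoc (T.ltens LC.C ρ), ← T.ltens_comp]
  rw [hS] at hs
  have hb := Biv.InvP.cancel (T.invP_homeo (consC e))
    ((T.invP_homeo oneC).tens LC.point) hs
  obtain ⟨β', hβ'⟩ := (T.ltens_C_bijective LC.point (LC.cpow (Fin e))).2
    (T.comp (T.tens (T.J (PMap.ofHomeo oneC)) LC.point) (T.comp t (T.J (PMap.ofHomeo (consC e)))))
  refine ⟨β', ?_, ?_⟩
  · apply (T.ltens_C_bijective (LC.cpow (Fin e)) (LC.cpow (Fin e))).1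
    show T.ltens LC.C (T.comp (T.comp ρ g) β') = T.ltens LC.C (T.J (PMap.id _))
    rw [T.ltens_comp, T.ltens_id]
    refine Eq.trans ?_ hb.1
    exact congrArg (T.comp (T.ltens LC.C (T.comp ρ g))) hβ'
  · apply (T.ltens_C_bijective LC.point LC.point).1
    show T.ltens LC.C (T.comp β' (T.comp ρ g)) = T.ltens LC.C (T.J (PMap.id _))
    rw [T.ltens_comp, T.ltens_id]
    refine Eq.trans ?_ hb.2
    exact congrArg (fun z => T.comp z (T.ltens LC.C (T.comp ρ g))) hβ'

/-- `β = ρ ≫ g` is invertible in the theory of the datum of `f`. -/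
theorem beta_inv {κ : Type} [Fintype κ] {e : ℕ} (f : GenLoop (Fin (2 * e)) (GK κ) (GK.base κ))
    (T : LocTheory (loopDatum f)) (ρ : T.Hom (LC.cpow (Fin e)) (LC.G κ))
    (h : T.J (loopDatum f).s = T.comp (T.J (PMap.ofHomeo (consC e)))
        (T.comp (T.ltens LC.C ρ) (T.J (PMap.ofHomeo (oneC.prodCongr (Homeomorph.refl (GK κ)) :
          LC.C.prod (LC.G κ) ≃ₜ (LC.cpow (Fin 1)).prod (LC.G κ)))))) :
    ∃ β' : T.Hom LC.point (LC.cpow (Fin e)),
      T.comp (T.comp ρ (T.g κ)) β' = T.J (PMap.id _) ∧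
      T.comp β' (T.comp ρ (T.g κ)) = T.J (PMap.id _) := by
  obtain ⟨t, ht1, ht2⟩ := T.s_inv
  have e1 : T.J (PMap.ofHomeo (oneC.prodCongr (Homeomorph.refl (GK κ)) :
      LC.C.prod (LC.G κ) ≃ₜ (LC.cpow (Fin 1)).prod (LC.G κ))) =
      T.tens (T.J (PMap.ofHomeo oneC)) (LC.G κ) := by
    rw [T.tens_J]
    congr 1
  refine beta_inv_aux T.toBiv (T.g κ) (T.J (loopDatum f).s) ρ ?_ t ht1 ht2
  rw [← e1]
  exact h

/-! ## The class formula -/

/-- the class of the product of `id × s` over `ι` -/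
def LocTheory.shatCls {D : Datum} (T : LocTheory D) (ι : Type) [Fintype ι] :
    T.Hom (D.A ι) ((LC.cpow (ι × Option D.u)).prod LC.point) :=
  T.comp (T.J (D.shat ι)) (T.ltens (LC.cpow (ι × Option D.u)) (T.g (ι × Option D.a)))

/-- (CF) A representative `F : A ι × K → B ι × Z` of `x`, considered as a map, is `ŝ_ι × x`. -/
theorem LocTheory.cls_formula {D : Datum} (T : LocTheory D) {ι : Type} [Fintype ι] {K Z : LC}
    (F : D.Rep ι K Z) :
    T.comp (T.J F) (T.tens (T.ltens (LC.cpow (ι × Option D.u)) (T.g (ι × Option D.a))) Z) =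
      T.comp (T.tens (T.shatCls ι) K)
        (T.ltens ((LC.cpow (ι × Option D.u)).prod LC.point) (T.cls F)) :=
  T.cf_main F

/-! ## Rotations -/

/-- An even permutation of real coordinates is connected to the identity by invertible linear
maps. -/
theorem exists_rotation {n : Type} [Fintype n] [DecidableEq n] (σ : Equiv.Perm n)
    (h : Equiv.Perm.sign σ = 1) : ∃ H : unitInterval → (n → ℝ) ≃ₗ[ℝ] (n → ℝ),
      Continuous (fun x : unitInterval × (n → ℝ) => H x.1 x.2) ∧
      Continuous (fun x : unitInterval × (n → ℝ) => (H x.1).symm x.2) ∧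
      (∀ v, H 0 v = v) ∧ ∀ v, H 1 v = fun i => v (σ i) :=
  Pool.Agent.Helper74.Stab.exists_rotation σ h

/-- An even permutation of coordinates is homotopic to the identity. -/
theorem perm_homotopic {n : Type} [Fintype n] [DecidableEq n] (σ : Equiv.Perm n)
    (h : Equiv.Perm.sign σ = 1) :
    (PMap.ofHomeo (Homeomorph.piCongrLeft (Y := fun _ : n => ℝ) σ : LC.rpow n ≃ₜ LC.rpow n)).Homotopic
      (PMap.id (LC.rpow n)) :=
  Pool.Agent.Helper74.Stab.perm_homotopic σ h

/-- A permutation of complex coordinates is homotopic to the identity. -/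
theorem permC_homotopic {n : Type} [Fintype n] [DecidableEq n] (σ : Equiv.Perm n) :
    (PMap.ofHomeo (Homeomorph.piCongrLeft (Y := fun _ : n => ℂ) σ : LC.cpow n ≃ₜ LC.cpow n)).Homotopic
      (PMap.id (LC.cpow n)) :=
  Pool.Agent.Helper74.Stab.permC_homotopic σ

/-! ## The classes on the levels of the compact model -/

/-- change of the number of coordinates along an equality -/
def rcast {a b : ℕ} (h : a = b) : LC.rpow (Fin a) ≃ₜ LC.rpow (Fin b) := h ▸ Homeomorph.refl _

theorem continuous_cmk {X : Type*} [TopologicalSpace X] {f g : X → ℝ} (hf : Continuous f)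
    (hg : Continuous g) : Continuous fun x => (⟨f x, g x⟩ : ℂ) := by
  have h : (fun x => (⟨f x, g x⟩ : ℂ)) = fun x => (f x : ℂ) + (g x : ℂ) * Complex.I := by
    funext x
    exact Complex.mk_eq_add_mul_I _ _
  rw [h]
  exact (Complex.continuous_ofReal.comp hf).add
    ((Complex.continuous_ofReal.comp hg).mul continuous_const)

theorem rcons_cont (v : ℕ) : Continuous fun x : LC.rpow (Fin (v + 2)) =>
    (((⟨x 0, x 1⟩ : ℂ), fun i => x i.succ.succ) : LC.C.prod (LC.rpow (Fin v))) :=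
  (continuous_cmk (continuous_apply (0 : Fin (v + 2))) (continuous_apply (1 : Fin (v + 2)))).prodMk
    (continuous_pi fun i => continuous_apply i.succ.succ)

theorem rcons_inv_cont (v : ℕ) : Continuous fun x : LC.C.prod (LC.rpow (Fin v)) =>
    (Fin.cons x.1.re (Fin.cons x.1.im x.2) : LC.rpow (Fin (v + 2))) := by
  refine continuous_pi fun i => ?_
  refine Fin.cases ?_ (fun j => ?_) i
  · exact Complex.continuous_re.comp continuous_fst
  · refine Fin.cases ?_ (fun l => ?_) j
    · exact Complex.continuous_im.comp continuous_fst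
    · exact (continuous_apply l).comp continuous_snd

theorem realify_left (e : ℕ) (z : Fin e → ℂ) : (fun i : Fin e => (⟨realify e z ⟨2 * i.1, by omega⟩,
    realify e z ⟨2 * i.1 + 1, by omega⟩⟩ : ℂ)) = z := by
  funext i
  have h1 : realify e z ⟨2 * i.1, by omega⟩ = (z i).re := by
    unfold realify
    rw [if_pos (by simp)]
    congr 2
    exact Fin.ext (by simp)
  have h2 : realify e z ⟨2 * i.1 + 1, by omega⟩ = (z i).im := by
    unfold realify
    rw [if_neg (by simp)]
    congr 2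
    exact Fin.ext (by simp; omega)
  rw [h1, h2]

theorem realify_right (e : ℕ) (x : Fin (2 * e) → ℝ) : realify e (fun i : Fin e =>
    (⟨x ⟨2 * i.1, by omega⟩, x ⟨2 * i.1 + 1, by omega⟩⟩ : ℂ)) = x := by
  funext i
  unfold realify
  split_ifs with h
  · exact congrArg x (Fin.ext (by simp; omega))
  · exact congrArg x (Fin.ext (by simp; omega))

theorem realify_cont (e : ℕ) : Continuous (realify e) := by
  refine continuous_pi fun i => ?_
  unfold realify
  split_ifs with h
  · exact Complex.continuous_re.comp (continuous_apply _)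
  · exact Complex.continuous_im.comp (continuous_apply _)

theorem realify_inv_cont (e : ℕ) : Continuous fun (x : Fin (2 * e) → ℝ) (i : Fin e) =>
    (⟨x ⟨2 * i.1, by omega⟩, x ⟨2 * i.1 + 1, by omega⟩⟩ : ℂ) :=
  continuous_pi fun i => continuous_cmk (continuous_apply _) (continuous_apply _)

/-- `ℝ^(v+2) = ℂ × ℝ^v` -/
def rcons (v : ℕ) : LC.rpow (Fin (v + 2)) ≃ₜ LC.C.prod (LC.rpow (Fin v)) where
  toFun x := (⟨x 0, x 1⟩, fun i => x i.succ.succ)
  invFun x := Fin.cons x.1.re (Fin.cons x.1.im x.2)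
  left_inv x := by
    ext i
    refine Fin.cases rfl (fun j => ?_) i
    refine Fin.cases rfl (fun l => rfl) j
  right_inv x := rfl
  continuous_toFun := rcons_cont v
  continuous_invFun := rcons_inv_cont v

/-- `ℂ^e = ℝ^(2e)` -/
def realifyH (e : ℕ) : LC.cpow (Fin e) ≃ₜ LC.rpow (Fin (2 * e)) where
  toFun := realify e
  invFun x := fun i => ⟨x ⟨2 * i.1, by omega⟩, x ⟨2 * i.1 + 1, by omega⟩⟩
  left_inv x := realify_left e x
  right_inv x := realify_right e x
  continuous_toFun := realify_cont e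
  continuous_invFun := realify_inv_cont e

/-- The isomorphisms `ℝ^v ≅ ℂ^n` in the localised theory, `v = lev (2 e) (2 n)`: inside a block the
new coordinate is added on both sides, at the end of a block `ℂ^e` is cancelled by means of the
inverse `β'` of `β`. -/
structure LevelIso (R : Biv) (e : ℕ) (β' : R.Hom LC.point (LC.cpow (Fin e))) where
  b : ∀ n, R.Hom (LC.rpow (Fin (lev (2 * e) (2 * n)))) (Zb n)
  c : ∀ n, R.Hom (Zb n) (LC.rpow (Fin (lev (2 * e) (2 * n))))
  bc : ∀ n, R.comp (b n) (c n) = R.J (PMap.id _)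
  cb : ∀ n, R.comp (c n) (b n) = R.J (PMap.id _)
  inside : ∀ n, lev (2 * e) (2 * n) < 2 * e →
    ∀ h : lev (2 * e) (2 * (n + 1)) = lev (2 * e) (2 * n) + 2,
    b (n + 1) = R.comp (R.J (PMap.ofHomeo ((rcast h).trans (rcons _))))
      (R.ltens LC.C (b n))
  boundary : ∀ n, ∀ h' : 2 * e = lev (2 * e) (2 * n), ∀ h : lev (2 * e) (2 * (n + 1)) = 0 + 2,
    b (n + 1) = R.comp (R.J (PMap.ofHomeo ((rcast h).trans (rcons 0))))
      (R.ltens LC.C (R.comp (R.J (PMap.ofHomeo
        { toFun := fun _ => PUnit.unit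
          invFun := fun _ => 0
          left_inv := fun _ => Subsingleton.elim _ _
          right_inv := fun _ => rfl
          continuous_toFun := continuous_const
          continuous_invFun := continuous_const : LC.rpow (Fin 0) ≃ₜ LC.point }))
        (R.comp β' (R.comp (R.J (PMap.ofHomeo ((realifyH e).trans (rcast h')))) (b n)))))

theorem lev_succ' (d n : ℕ) : lev d (n + 1) = if lev d n = d then 1 else lev d n + 1 := rfl

theorem blk_succ' (d n : ℕ) : blk d (n + 1) = if lev d n = d then blk d n + 1 else blk d n := rfl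

theorem lev_even_aux {e : ℕ} (he : 0 < e) (n : ℕ) :
    ∃ a, lev (2 * e) (2 * n) = 2 * a ∧ a ≤ e := by
  induction n with
  | zero => exact ⟨0, rfl, Nat.zero_le _⟩
  | succ n ih =>
    obtain ⟨a, ha, hae⟩ := ih
    have h1 : lev (2 * e) (2 * (n + 1)) = if lev (2 * e) (2 * n + 1) = 2 * e then 1
        else lev (2 * e) (2 * n + 1) + 1 := lev_succ' _ _
    have h2 : lev (2 * e) (2 * n + 1) = if lev (2 * e) (2 * n) = 2 * e then 1
        else lev (2 * e) (2 * n) + 1 := lev_succ' _ _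
    by_cases h : lev (2 * e) (2 * n) = 2 * e
    · rw [if_pos h] at h2
      rw [h2, if_neg (by omega)] at h1
      exact ⟨1, h1, by omega⟩
    · rw [if_neg h] at h2
      rw [h2, if_neg (by omega)] at h1
      exact ⟨a + 1, by omega, by omega⟩

theorem lev_even {e : ℕ} (he : 0 < e) (n : ℕ) : (lev (2 * e) (2 * n) < 2 * e →
    lev (2 * e) (2 * (n + 1)) = lev (2 * e) (2 * n) + 2 ∧
      blk (2 * e) (2 * (n + 1)) = blk (2 * e) (2 * n)) ∧
    (2 * e = lev (2 * e) (2 * n) → lev (2 * e) (2 * (n + 1)) = 0 + 2 ∧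
      blk (2 * e) (2 * (n + 1)) = blk (2 * e) (2 * n) + 1) ∧ lev (2 * e) (2 * n) ≤ 2 * e := by
  obtain ⟨a, ha, hae⟩ := lev_even_aux he n
  have h1 : lev (2 * e) (2 * (n + 1)) = if lev (2 * e) (2 * n + 1) = 2 * e then 1
      else lev (2 * e) (2 * n + 1) + 1 := lev_succ' _ _
  have h2 : lev (2 * e) (2 * n + 1) = if lev (2 * e) (2 * n) = 2 * e then 1
      else lev (2 * e) (2 * n) + 1 := lev_succ' _ _
  have b1 : blk (2 * e) (2 * (n + 1)) = if lev (2 * e) (2 * n + 1) = 2 * e then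
      blk (2 * e) (2 * n + 1) + 1 else blk (2 * e) (2 * n + 1) := blk_succ' _ _
  have b2 : blk (2 * e) (2 * n + 1) = if lev (2 * e) (2 * n) = 2 * e then
      blk (2 * e) (2 * n) + 1 else blk (2 * e) (2 * n) := blk_succ' _ _
  refine ⟨fun h => ?_, fun h => ?_, by omega⟩
  · rw [if_neg (by omega)] at h2 b2
    rw [if_neg (by omega)] at h1 b1
    exact ⟨by omega, by omega⟩
  · rw [if_pos h.symm] at h2 b2
    rw [if_neg (by omega)] at h1 b1
    exact ⟨by omega, by omega⟩

/-- `y` is a two-sided inverse of `x`. -/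
def Biv.IsInv (R : Biv) {K L : LC} (x : R.Hom K L) (y : R.Hom L K) : Prop :=
  R.comp x y = R.J (PMap.id _) ∧ R.comp y x = R.J (PMap.id _)

theorem Biv.IsInv.symm {R : Biv} {K L : LC} {x : R.Hom K L} {y : R.Hom L K} (h : R.IsInv x y) :
    R.IsInv y x := ⟨h.2, h.1⟩

theorem Biv.isInv_comp {R : Biv} {K L M : LC} {x : R.Hom K L} {x' : R.Hom L K}
    {y : R.Hom L M} {y' : R.Hom M L} (h : R.IsInv x x') (h' : R.IsInv y y') :
    R.IsInv (R.comp x y) (R.comp y' x') := by
  constructor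
  · rw [R.assoc, ← R.assoc y y' x', h'.1, R.id_comp, h.1]
  · rw [R.assoc, ← R.assoc x' x y, h.2, R.id_comp, h'.2]

theorem Biv.isInv_homeo (R : Biv) {K L : LC} (f : K ≃ₜ L) :
    R.IsInv (R.J (PMap.ofHomeo f)) (R.J (PMap.ofHomeo f.symm)) := by
  constructor
  · rw [← R.J_comp]
    congr 1
    ext k
    exact congrArg (fun z : K => (z : OnePoint K)) (f.symm_apply_apply k)
  · rw [← R.J_comp]
    congr 1
    ext k
    exact congrArg (fun z : L => (z : OnePoint L)) (f.apply_symm_apply k)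

theorem Biv.isInv_tens {R : Biv} {K L : LC} {x : R.Hom K L} {x' : R.Hom L K}
    (h : R.IsInv x x') (Z : LC) : R.IsInv (R.tens x Z) (R.tens x' Z) := by
  have key : ∀ K : LC, R.tens (R.J (PMap.id K)) Z = R.J (PMap.id (K.prod Z)) := by
    intro K
    rw [R.tens_J]
    exact congrArg R.J (PMap.box_id K Z)
  constructor
  · rw [← R.tens_comp, h.1, key]
  · rw [← R.tens_comp, h.2, key]

theorem Biv.isInv_ltens {R : Biv} {K L : LC} {x : R.Hom K L} {x' : R.Hom L K}
    (h : R.IsInv x x') (Z : LC) : R.IsInv (R.ltens Z x) (R.ltens Z x') := by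
  have h1 := Biv.isInv_comp (R.isInv_homeo (LC.swap Z K))
    (Biv.isInv_comp (Biv.isInv_tens h Z) (R.isInv_homeo (LC.swap L Z)))
  rw [R.assoc] at h1
  exact h1

/-- the homeomorphism `ℝ^0 = pt` -/
def rpow0 : LC.rpow (Fin 0) ≃ₜ LC.point where
  toFun := fun _ => PUnit.unit
  invFun := fun _ => 0
  left_inv := fun _ => Subsingleton.elim _ _
  right_inv := fun _ => rfl
  continuous_toFun := continuous_const
  continuous_invFun := continuous_const

/-- one step of the construction of the level isomorphisms -/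
theorem levelIso_step (R : Biv) {e : ℕ} (he : 0 < e) (β : R.Hom (LC.cpow (Fin e)) LC.point)
    (β' : R.Hom LC.point (LC.cpow (Fin e))) (hβ : R.IsInv β' β) (n : ℕ)
    (b : R.Hom (LC.rpow (Fin (lev (2 * e) (2 * n)))) (Zb n))
    (c : R.Hom (Zb n) (LC.rpow (Fin (lev (2 * e) (2 * n))))) (hbc : R.IsInv b c) :
    ∃ (b' : R.Hom (LC.rpow (Fin (lev (2 * e) (2 * (n + 1))))) (Zb (n + 1)))
      (c' : R.Hom (Zb (n + 1)) (LC.rpow (Fin (lev (2 * e) (2 * (n + 1)))))), R.IsInv b' c' ∧
      (lev (2 * e) (2 * n) < 2 * e →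
        ∀ h : lev (2 * e) (2 * (n + 1)) = lev (2 * e) (2 * n) + 2,
        b' = R.comp (R.J (PMap.ofHomeo ((rcast h).trans (rcons _)))) (R.ltens LC.C b)) ∧
      ∀ h' : 2 * e = lev (2 * e) (2 * n), ∀ h : lev (2 * e) (2 * (n + 1)) = 0 + 2,
        b' = R.comp (R.J (PMap.ofHomeo ((rcast h).trans (rcons 0))))
          (R.ltens LC.C (R.comp (R.J (PMap.ofHomeo rpow0))
            (R.comp β' (R.comp (R.J (PMap.ofHomeo ((realifyH e).trans (rcast h')))) b)))) := by
  obtain ⟨h1, h2, h3⟩ := lev_even he n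
  rcases h3.lt_or_eq with h | h
  · exact ⟨_, _, Biv.isInv_comp (R.isInv_homeo ((rcast (h1 h).1).trans (rcons _)))
      (Biv.isInv_ltens hbc LC.C), fun _ _ => rfl, fun h' => absurd h'.symm h.ne⟩
  · exact ⟨_, _, Biv.isInv_comp (R.isInv_homeo ((rcast (h2 h.symm).1).trans (rcons 0)))
      (Biv.isInv_ltens (Biv.isInv_comp (R.isInv_homeo rpow0) (Biv.isInv_comp hβ
        (Biv.isInv_comp (R.isInv_homeo ((realifyH e).trans (rcast h.symm))) hbc))) LC.C),
      fun h' => absurd h h'.ne, fun _ _ => rfl⟩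

theorem exists_levelIso (R : Biv) {e : ℕ} (he : 0 < e) (β : R.Hom (LC.cpow (Fin e)) LC.point)
    (β' : R.Hom LC.point (LC.cpow (Fin e))) (h1 : R.comp β β' = R.J (PMap.id _))
    (h2 : R.comp β' β = R.J (PMap.id _)) : Nonempty (LevelIso R e β') := by
  have hβ : R.IsInv β' β := ⟨h2, h1⟩
  choose! B C hB using fun n b c hbc => levelIso_step R he β β' hβ n b c hbc
  let S : ∀ n, {x : R.Hom (LC.rpow (Fin (lev (2 * e) (2 * n)))) (Zb n) ×
      R.Hom (Zb n) (LC.rpow (Fin (lev (2 * e) (2 * n)))) // R.IsInv x.1 x.2} := fun n =>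
    Nat.rec ⟨(R.J (PMap.ofHomeo rpow0), R.J (PMap.ofHomeo rpow0.symm)), R.isInv_homeo rpow0⟩
      (fun n x => ⟨(B n x.1.1 x.1.2, C n x.1.1 x.1.2), (hB n x.1.1 x.1.2 x.2).1⟩) n
  exact ⟨{
    b := fun n => (S n).1.1
    c := fun n => (S n).1.2
    bc := fun n => (S n).2.1
    cb := fun n => (S n).2.2
    inside := fun n => (hB n (S n).1.1 (S n).1.2 (S n).2).2.1
    boundary := fun n => (hB n (S n).1.1 (S n).1.2 (S n).2).2.2 }⟩

/-! ### Surjectivity: auxiliary lemmas -/

open Pool.Agent.Helper63.Stab in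
/-- complex coordinates on `ℝ^v` for even `v` -/
@[reducible] def csCrd {v r : ℕ} (h : v = 2 * r) : Crd (LC.rpow (Fin v)) where
  ι := Fin r
  fin := inferInstance
  h := (rcast h).trans (realifyH r).symm

/-- `ℝ^0 = pt` -/
def csZero : LC.rpow (Fin 0) ≃ₜ LC.point :=
  { toFun := fun _ => PUnit.unit
    invFun := fun _ => 0
    left_inv := fun _ => Subsingleton.elim _ _
    right_inv := fun _ => rfl
    continuous_toFun := continuous_const
    continuous_invFun := continuous_const }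

open Pool.Agent.Helper63.Stab in
theorem cs_zero_perm (h : 0 = 2 * 0) : @IsPerm _ _ _ _ (csCrd h) _ csZero :=
  letI := csCrd h
  ⟨(Equiv.equivPEmpty (Fin 0)), fun _ i => Fin.elim0 i⟩

/-- `Fin (r + 1) = 1 + Fin r` -/
def csFin (r : ℕ) : Fin (r + 1) ≃ PUnit ⊕ Fin r where
  toFun := Fin.cases (Sum.inl PUnit.unit) (fun i => Sum.inr i)
  invFun := Sum.elim (fun _ => 0) (fun i => i.succ)
  left_inv i := by
    refine Fin.cases ?_ (fun i => ?_) i <;> rfl
  right_inv i := by
    rcases i with i | i <;> rfl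

open Pool.Agent.Helper63.Stab in
theorem cs_rcons_perm {a b r : ℕ} (h1 : a = b + 2) (h : b = 2 * r) (h2 : a = 2 * (r + 1)) :
    @IsPerm _ _ _ _ (csCrd h2) (@crdProd _ _ _ _ crdC (csCrd h))
      ((rcast h1).trans (rcons b) : LC.rpow (Fin a) ≃ₜ LC.C.prod (LC.rpow (Fin b))) := by
  subst h
  subst h1
  letI := csCrd h2
  letI := csCrd (rfl : 2 * r = 2 * r)
  refine ⟨csFin r, fun x i => ?_⟩
  refine Fin.cases ?_ (fun i => ?_) i <;> rfl

open Pool.Agent.Helper63.Stab in
theorem cs_realify_perm {a e : ℕ} (h : 2 * e = a) (h2 : a = 2 * e) :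
    @IsPerm _ _ _ _ _ (csCrd h2)
      ((realifyH e).trans (rcast h) : LC.cpow (Fin e) ≃ₜ LC.rpow (Fin a)) := by
  subst h
  letI := csCrd h2
  refine ⟨Equiv.refl _, fun x i => ?_⟩
  change (realifyH e).symm ((realifyH e) x) i = x i
  rw [Homeomorph.symm_apply_apply]

open Pool.Agent.Helper63.Stab in
theorem cs_consC_perm (e : ℕ) : IsPerm (consC e) := by
  refine ⟨csFin e, fun x i => ?_⟩
  refine Fin.cases ?_ (fun i => ?_) i <;> rfl

open Pool.Agent.Helper63.Stab in
theorem cs_oneC_perm : IsPerm oneC :=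
  ⟨(Equiv.ofUnique PUnit (Fin 1) : PUnit ≃ Fin 1), fun x i => rfl⟩

open Pool.Agent.Helper63.Stab in
theorem cs_level {R : Biv} {e : ℕ} (he : 0 < e) {β' : R.Hom LC.point (LC.cpow (Fin e))}
    (b : LevelIso R e β') (v : R.Hom LC.point LC.point)
    (hv : R.comp (jh R csZero) v = (b.b 0 : R.Hom (LC.rpow (Fin 0)) LC.point)) (m : ℕ) :
    ∃ (r s : ℕ) (h : lev (2 * e) (2 * m) = 2 * r), blk (2 * e) (2 * m) = s ∧ m = e * s + r ∧
      r ≤ e ∧ (r = 0 → m = 0) ∧ @Like R _ _ _ _ (csCrd h) _ _ _ (b.b m) (thm β' v s) := by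
  induction m with
  | zero =>
    refine ⟨0, 0, rfl, rfl, rfl, Nat.zero_le _, fun _ => rfl, ?_⟩
    letI := csCrd (v := 0) (r := 0) rfl
    have h1 : Like (R.comp (jh R csZero) v) v := (Like.refl v).jh_comp (cs_zero_perm rfl)
    rw [hv] at h1
    exact h1
  | succ m ih =>
    obtain ⟨r, s, h, hb, hm, hr, hr0, hl⟩ := ih
    obtain ⟨l1, l2, l3⟩ := lev_even he m
    rcases Nat.lt_or_ge r e with hlt | hge
    · have h4 : lev (2 * e) (2 * m) < 2 * e := by omega
      obtain ⟨h5, h6⟩ := l1 h4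
      have h7 : lev (2 * e) (2 * (m + 1)) = 2 * (r + 1) := by omega
      refine ⟨r + 1, s, h7, h6.trans hb, by omega, hlt, by omega, ?_⟩
      rw [b.inside m h4 h5]
      letI := csCrd h
      letI := csCrd h7
      exact (hl.ltens LC.C).jh_comp (cs_rcons_perm h5 h h7)
    · obtain rfl : r = e := le_antisymm hr hge
      obtain ⟨h5, h6⟩ := l2 h.symm
      have h7 : lev (2 * r) (2 * (m + 1)) = 2 * (0 + 1) := h5
      refine ⟨0 + 1, s + 1, h7, by rw [h6, hb], by rw [hm]; ring, by omega, by omega, ?_⟩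
      rw [b.boundary m h.symm h5]
      letI := csCrd h
      letI := csCrd h7
      letI := csCrd (v := 0) (r := 0) rfl
      have h8 : Like (R.comp (jh R ((realifyH r).trans (rcast h.symm))) (b.b m)) (thm β' v s) :=
        hl.jh_comp (cs_realify_perm h.symm h)
      obtain ⟨q, hq, hz⟩ := h8.exists_source (W := LC.cpow (Fin r)) (p := pS _) (pS_perm _)
      have h9 : R.comp β' (R.comp (jh R ((realifyH r).trans (rcast h.symm))) (b.b m)) =
          R.comp (thm β' v (s + 1)) (jh R (K := pw (LC.cpow (Fin r)) (s + 1)) (L := Zb m)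
            q.symm) := by
        rw [hz]
        exact thm_succ_pl β' v s q
      have h10 : Like (R.comp β' (R.comp (jh R ((realifyH r).trans (rcast h.symm))) (b.b m)))
          (thm β' v (s + 1)) := by
        rw [h9]
        exact (Like.refl (thm β' v (s + 1))).comp_jh hq.symm
      exact ((h10.jh_comp (cs_zero_perm rfl)).ltens LC.C).jh_comp (cs_rcons_perm h5 rfl h7)

open Pool.Agent.Helper63.Stab in
/-- the class of the datum of a loop is the suspension of `β` -/
theorem cs_datum {R : GBiv} {κ : Type} [Fintype κ] {e : ℕ}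
    (f : GenLoop (Fin (2 * e)) (GK κ) (GK.base κ)) (ρ : R.Hom (LC.cpow (Fin e)) (LC.G κ))
    (h : R.J (loopDatum f).s = R.comp (R.J (PMap.ofHomeo (consC e)))
        (R.comp (R.ltens LC.C ρ) (R.J (PMap.ofHomeo (oneC.prodCongr (Homeomorph.refl (GK κ)) :
          LC.C.prod (LC.G κ) ≃ₜ (LC.cpow (Fin 1)).prod (LC.G κ)))))) :
    Like (R.comp (R.J (loopDatum f).s) (R.ltens (LC.cpow (loopDatum f).u) (R.g (loopDatum f).a)))
      (R.comp ρ (R.g κ)) := by
  have h1 : R.comp (R.J (loopDatum f).s) (R.ltens (LC.cpow (loopDatum f).u)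
      (R.g (loopDatum f).a)) = R.comp (jh R.toBiv (consC e)) (R.comp
        (R.ltens LC.C (R.comp ρ (R.g κ))) (jh R.toBiv (K := LC.C.prod LC.point)
          (L := (LC.cpow (Fin 1)).prod LC.point) (oneC.prodCongr (Homeomorph.refl _)))) := by
    have h2 : R.comp (jh R.toBiv (oneC.prodCongr (Homeomorph.refl (GK κ)) :
          LC.C.prod (LC.G κ) ≃ₜ (LC.cpow (Fin 1)).prod (LC.G κ)))
          (R.ltens (LC.cpow (Fin 1)) (R.g κ)) = R.comp (R.ltens LC.C (R.g κ))
          (jh R.toBiv (K := LC.C.prod LC.point)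
          (L := (LC.cpow (Fin 1)).prod LC.point) (oneC.prodCongr (Homeomorph.refl _))) := by
      have h3 := R.exch (jh R.toBiv oneC) (R.g κ)
      rw [tens_jh, tens_jh] at h3
      exact h3
    rw [ltens_comp, R.assoc, ← h2]
    have h4 := congrArg (fun z => R.comp z (R.ltens (LC.cpow (Fin 1)) (R.g κ))) h
    refine Eq.trans h4 ?_
    exact (R.assoc _ _ _).trans (congrArg _ (R.assoc _ _ _))
  rw [h1]
  exact (((Like.refl (R.comp ρ (R.g κ))).ltens LC.C).comp_jh
    (cs_oneC_perm.prodCongr (IsPerm.refl _))).jh_comp (cs_consC_perm e)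

section levels

variable {e k : ℕ} (he : 0 < e) (f : GenLoop (Fin (2 * e)) (Gr Set.univ k) (Gr.pt Set.univ k))

theorem goodU : GoodD Set.univ := Or.inl rfl

/-- the stages of `BU` are Grassmannians of projections -/
theorem exists_stageGK (l : ℕ) : ∃ h : stageLC goodU l ≃ₜ LC.G (Fin l),
    ∀ A : Frame l, h ⟨toBG Set.univ l (Quot.mk _ A), ⟨_, rfl⟩⟩ = A.proj := by
  have hT2 : T2Space (stage Set.univ l) := t2_stage goodU l
  have hC : CompactSpace (Gr Set.univ l) := inferInstanceAs (CompactSpace (Quot _))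
  have hb : Function.Bijective (fun x : Gr Set.univ l =>
      (⟨toBG Set.univ l x, ⟨x, rfl⟩⟩ : stage Set.univ l)) := by
    constructor
    · intro x y h
      have h' : toBG Set.univ l x = toBG Set.univ l y := congrArg Subtype.val h
      induction x using Quot.ind with | mk A =>
      induction y using Quot.ind with | mk B =>
      exact Quot.sound ((mk_eq_iff goodU A B).1 h')
    · rintro ⟨_, x, rfl⟩
      exact ⟨x, rfl⟩
  have hc1 : Continuous (Equiv.ofBijective _ hb) :=
    Continuous.subtype_mk (toBG Set.univ l).continuous _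
  have hc2 : Continuous (Equiv.ofBijective _ (Gr.toGK_bijective (k := l))) :=
    Gr.toGK_continuous
  let φ : Gr Set.univ l ≃ₜ stage Set.univ l := hc1.homeoOfEquivCompactToT2
  let ψ : Gr Set.univ l ≃ₜ GK (Fin l) := hc2.homeoOfEquivCompactToT2
  refine ⟨(φ.symm.trans ψ : stage Set.univ l ≃ₜ GK (Fin l)), fun A => ?_⟩
  change ψ (φ.symm (φ (Quot.mk _ A))) = _
  rw [φ.symm_apply_apply]
  rfl

/-- the stages of `BU` are Grassmannians of projections -/
def stageGK (l : ℕ) : stageLC goodU l ≃ₜ LC.G (Fin l) := (exists_stageGK l).choose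

/-- the tautological class on a stage of `BU` -/
def gst (R : GBiv) (l : ℕ) : R.Hom (stageLC goodU l) LC.point :=
  R.comp (R.J (PMap.ofHomeo (stageGK l))) (R.g (Fin l))

theorem rcast_apply {a b : ℕ} (h : a = b) (x : LC.rpow (Fin a)) (i : Fin b) :
    rcast h x i = x (Fin.cast h.symm i) := by
  subst h
  rfl

theorem rcast_symm_apply {a b : ℕ} (h : a = b) (x : LC.rpow (Fin b)) (i : Fin a) :
    (rcast h).symm x i = x (Fin.cast h i) := by
  subst h
  rfl

/-- change of the stage along an equality -/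
def stageCast {D : Set ℂ} (hD : GoodD D) {a b : ℕ} (h : a = b) : stageLC hD a ≃ₜ stageLC hD b :=
  h ▸ Homeomorph.refl _

theorem stageCast_val {D : Set ℂ} (hD : GoodD D) {a b : ℕ} (h : a = b) (y : stageLC hD a) :
    (stageCast hD h y).1 = y.1 := by
  subst h
  rfl

theorem stageCast_gst (R : GBiv) {a b : ℕ} (h : a = b) :
    R.comp (R.J (PMap.ofHomeo (stageCast goodU h))) (gst R b) = gst R a := by
  subst h
  exact R.id_comp _

/-- the classes `x n ∈ R(K n, ℂ^n)` on the levels of the compact model -/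
def levelCls (R : GBiv) {β' : R.Hom LC.point (LC.cpow (Fin e))} (b : LevelIso R.toBiv e β')
    (n : ℕ) : R.Hom ((levelsModel goodU (d := 2 * e) (by omega) f).K n) (Zb n) :=
  R.comp (K := (LC.rpow (Fin (lev (2 * e) (2 * n)))).prod
      (stageLC goodU (blk (2 * e) (2 * n) * (k + 1))))
    (R.ltens (LC.rpow (Fin (lev (2 * e) (2 * n)))) (gst R _))
    (R.comp (R.J (PMap.ofHomeo (Homeomorph.prodPUnit _ :
      (LC.rpow (Fin (lev (2 * e) (2 * n)))).prod LC.point ≃ₜ _))) (b.b n))

/-- the map of the datum with split coordinates -/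
def sSplit (f : GenLoop (Fin (2 * e)) (Gr Set.univ k) (Gr.pt Set.univ k)) :
    PMap (LC.C.prod (LC.cpow (Fin e))) (LC.C.prod (LC.G (Fin k))).plus :=
  (PMap.ofHomeo (K := (LC.cpow (Fin 1)).prod (LC.G (Fin k))) (L := LC.C.prod (LC.G (Fin k)))
    (oneC.prodCongr (Homeomorph.refl (GK (Fin k)))).symm).comp
    ((loopDatum (loopGK f)).s.comp (PMap.ofHomeo (consC e).symm))

theorem sSplit_apply (f : GenLoop (Fin (2 * e)) (Gr Set.univ k) (Gr.pt Set.univ k)) (z : LC.C)
    (v : LC.cpow (Fin e)) : sSplit f (z, v) =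
      (PMap.ofHomeo (K := (LC.cpow (Fin 1)).prod (LC.G (Fin k))) (L := LC.C.prod (LC.G (Fin k)))
        (oneC.prodCongr (Homeomorph.refl (GK (Fin k)))).symm).plus
        (OnePoint.elim (sphToPlus (GK (Fin k)) (loopSelf (loopGK f)
          (Fin.cons (squash z.re) fun i => squash (realify e v i)))) OnePoint.infty
            (fun y => (((fun _ => ⟨y.1, z.im⟩, y.2) : (Fin 1 → ℂ) × GK (Fin k)) :
              OnePoint ((Fin 1 → ℂ) × GK (Fin k))))) := rfl

theorem sphToPlus_mem {X : Type} [TopologicalSpace X] {h : Fin 1 → unitInterval} (x : X)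
    (hh : h ∈ Cube.boundary (Fin 1)) : sphToPlus X (Sph.mk h x) = OnePoint.infty := if_pos hh

theorem sphToPlus_notMem {X : Type} [TopologicalSpace X] {h : Fin 1 → unitInterval} (x : X)
    (hh : h ∉ Cube.boundary (Fin 1)) :
    sphToPlus X (Sph.mk h x) = (((unsquash (h 0), x) : ℝ × X) : OnePoint (ℝ × X)) := if_neg hh

open Pool.Agent.Helper39.Stab in
theorem loopSelf_eq (f : GenLoop (Fin (2 * e)) (Gr Set.univ k) (Gr.pt Set.univ k))
    (c : Fin (2 * e + 1) → unitInterval) : loopSelf (loopGK f) c =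
      Sph.mk (height c) (Gr.toGK (Wc f c)) := by
  unfold loopSelf Wc
  congr 1
  split_ifs
  · rfl
  · exact Gr.toGK_pt.symm

open Pool.Agent.Helper39.Stab in
/-- (LC) the classes are compatible with the structure maps -/
theorem levelCls_compatible (T : LocTheory (loopDatum (loopGK f)))
    (β' : T.Hom LC.point (LC.cpow (Fin e)))
    (h : ∃ ρ : T.Hom (LC.cpow (Fin e)) (LC.G (Fin k)), T.J (loopDatum (loopGK f)).s =
        T.comp (T.J (PMap.ofHomeo (consC e))) (T.comp (T.ltens LC.C ρ)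
          (T.J (PMap.ofHomeo (oneC.prodCongr (Homeomorph.refl (GK (Fin k))) :
            LC.C.prod (LC.G (Fin k)) ≃ₜ (LC.cpow (Fin 1)).prod (LC.G (Fin k)))))) ∧
        T.comp (T.comp ρ (T.g (Fin k))) β' = T.J (PMap.id _) ∧
        T.comp β' (T.comp ρ (T.g (Fin k))) = T.J (PMap.id _))
    (b : LevelIso T.toBiv e β') :
    (levelsModel goodU (d := 2 * e) (by omega) f).Compatible T.toBiv.gf
      (fun n => levelCls he f T.toGBiv b n) := by
  intro n
  change T.comp (T.J ((levelsModel goodU (d := 2 * e) (by omega) f).step n))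
    (levelCls he f T.toGBiv b (n + 1)) = T.ltens LC.C (levelCls he f T.toGBiv b n)
  obtain ⟨hin, hbd, hle⟩ := lev_even he n
  rcases Nat.lt_or_ge (lev (2 * e) (2 * n)) (2 * e) with hlt | hge
  · obtain ⟨hl, hb⟩ := hin hlt
    have hb' : blk (2 * e) (2 * n) * (k + 1) = blk (2 * e) (2 * (n + 1)) * (k + 1) := by rw [hb]
    have key := in1 T.toBiv (gst T.toGBiv _) (gst T.toGBiv _) (stageCast goodU hb')
      (stageCast_gst T.toGBiv hb') ((rcast hl).trans (rcons _)) (b.b n)
      ((levelsModel goodU (d := 2 * e) (by omega) f).step n) (by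
        intro z u y
        refine step_inside goodU (by omega) f n (by omega) ?_ hl z u y _ ?_
          (stageCast_val goodU hb' y)
        · intro h'
          have : lev (2 * e) (2 * (n + 1)) = 1 := if_pos h'
          omega
        · intro i
          exact rcast_symm_apply hl _ i)
    have h3 := b.inside n hlt hl
    unfold levelCls
    rw [h3]
    exact key
  · have heq : 2 * e = lev (2 * e) (2 * n) := le_antisymm hge hle
    obtain ⟨hl, hb⟩ := hbd heq
    obtain ⟨ρ, hρ, hβ, -⟩ := h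
    have hl' : blk (2 * e) (2 * (n + 1)) * (k + 1) = k + blk (2 * e) (2 * n) * (k + 1) + 1 := by
      rw [hb]
      ring
    obtain ⟨μ, hμ1, hμ2⟩ := mu_class T.toGBiv hl' goodU (stageGK _)
      (exists_stageGK _).choose_spec (stageGK _) (exists_stageGK _).choose_spec
    have hs' : ∀ s : PMap (LC.cpow (Fin (e + 1))) ((LC.cpow (Fin 1)).prod (LC.G (Fin k))).plus,
        T.J s = T.comp (T.J (PMap.ofHomeo (consC e))) (T.comp (T.ltens LC.C ρ)
          (T.J (PMap.ofHomeo (oneC.prodCongr (Homeomorph.refl (GK (Fin k))) :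
            LC.C.prod (LC.G (Fin k)) ≃ₜ (LC.cpow (Fin 1)).prod (LC.G (Fin k)))))) →
        T.J ((PMap.ofHomeo (K := (LC.cpow (Fin 1)).prod (LC.G (Fin k)))
          (L := LC.C.prod (LC.G (Fin k))) (oneC.prodCongr (Homeomorph.refl (GK (Fin k)))).symm).comp
          (s.comp (PMap.ofHomeo (consC e).symm))) = T.ltens LC.C ρ := by
      intro s hs0
      rw [T.J_comp, T.J_comp, hs0]
      simp only [T.assoc]
      have e1 := J_homeo_symm T.toBiv (K := LC.C.prod (LC.G (Fin k)))
        (L := (LC.cpow (Fin 1)).prod (LC.G (Fin k))) (oneC.prodCongr (Homeomorph.refl (GK (Fin k))))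
      have e2 := J_homeo_symm' T.toBiv (consC e)
      rw [e1, T.comp_id, ← T.assoc, e2, T.id_comp]
    have hs : T.J (sSplit f) = T.ltens LC.C ρ := hs' _ hρ
    have hv : 1 = lev (2 * e) (2 * n + 1) := (if_pos heq.symm).symm
    have h2 : lev (2 * e) (2 * n + 1) ≠ 2 * e := by omega
    have key := bd4 T.toBiv β' ρ (T.g (Fin k)) (gst T.toGBiv _) (gst T.toGBiv _)
      ((realifyH e).trans (rcast heq)).symm μ hμ2 hβ (sSplit f) hs ((rcast hl).trans (rcons 0))
      { toFun := fun _ => PUnit.unit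
        invFun := fun _ => 0
        left_inv := fun _ => Subsingleton.elim _ _
        right_inv := fun _ => rfl
        continuous_toFun := continuous_const
        continuous_invFun := continuous_const } (b.b n)
      ((levelsModel goodU (d := 2 * e) (by omega) f).step n) (by
        intro z u y
        have ec : (Fin.cons (squash (cswap z).re) fun i => squash (realify e
            (((realifyH e).trans (rcast heq)).symm u) i) : Fin (2 * e + 1) → unitInterval) =
            cc heq z.im u := by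
          have e3 : realify e (((realifyH e).trans (rcast heq)).symm u) = (rcast heq).symm u :=
            (realifyH e).apply_symm_apply _
          rw [e3]
          unfold cc
          congr 1
          funext i
          rw [rcast_symm_apply]
        rw [sSplit_apply, ec, loopSelf_eq]
        by_cases hc : height (cc heq z.im u) ∈ Cube.boundary (Fin 1)
        · have hst := step_bd_infty goodU (show 0 < 2 * e by omega) f n heq hv h2 z u y hc
          rw [sphToPlus_mem _ hc]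
          exact congrArg _ hst
        · have hmem : act Set.univ k (Wc f (cc heq z.im u), y.1) ∈
              stage Set.univ (blk (2 * e) (2 * (n + 1)) * (k + 1)) := by
            rw [hl']
            exact stage_succ _ _ (act_mem_stage _ _ _ _ y.2)
          have hst := step_bd_coe goodU (show 0 < 2 * e by omega) f n heq hv h2 hl z u y hc
            (fun i => (Fin.cons z.re (fun _ => unsquash (height (cc heq z.im u) 0)) :
              Fin (0 + 2) → ℝ) (Fin.cast hl i), ⟨_, hmem⟩) (fun _ => rfl) rfl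
          rw [sphToPlus_notMem _ hc]
          have e4 := hμ1 (Wc f (cc heq z.im u)) y ⟨_, hmem⟩ rfl
          refine (congrArg _ hst).trans ?_
          have e5 : ∀ w1 : LC.rpow (Fin (lev (2 * e) (2 * (n + 1)))),
              (rcons 0 (rcast hl w1)).1 = (⟨w1 (Fin.cast hl.symm 0), w1 (Fin.cast hl.symm 1)⟩ : ℂ) := by
            intro w1
            change (⟨rcast hl w1 0, rcast hl w1 1⟩ : ℂ) = _
            rw [rcast_apply, rcast_apply]
          change (((show LC.C.prod (stageLC goodU (blk (2 * e) (2 * (n + 1)) * (k + 1))) from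
            ((rcons 0 (rcast hl (fun i => (Fin.cons z.re
              (fun _ => unsquash (height (cc heq z.im u) 0)) : Fin (0 + 2) → ℝ)
                (Fin.cast hl i)))).1, ⟨_, hmem⟩)) :
            OnePoint (LC.C.prod (stageLC goodU (blk (2 * e) (2 * (n + 1)) * (k + 1)))))) =
            smashPt LC.C (stageLC goodU (blk (2 * e) (2 * (n + 1)) * (k + 1)))
              (((⟨z.re, unsquash (height (cc heq z.im u) 0)⟩ : ℂ) : OnePoint ℂ),
                μ (Gr.toGK (Wc f (cc heq z.im u)), y))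
          rw [e4, e5]
          rfl)
    have h3 := b.boundary n heq hl
    unfold levelCls
    rw [h3]
    exact key

open Pool.Agent.Helper63.Stab in
/-- (CS) surjectivity -/
theorem comparison_surj (T : LocTheory (loopDatum (loopGK f)))
    (β' : T.Hom LC.point (LC.cpow (Fin e)))
    (h : ∃ ρ : T.Hom (LC.cpow (Fin e)) (LC.G (Fin k)), T.J (loopDatum (loopGK f)).s =
        T.comp (T.J (PMap.ofHomeo (consC e))) (T.comp (T.ltens LC.C ρ)
          (T.J (PMap.ofHomeo (oneC.prodCongr (Homeomorph.refl (GK (Fin k))) :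
            LC.C.prod (LC.G (Fin k)) ≃ₜ (LC.cpow (Fin 1)).prod (LC.G (Fin k)))))) ∧
        T.comp (T.comp ρ (T.g (Fin k))) β' = T.J (PMap.id _) ∧
        T.comp β' (T.comp ρ (T.g (Fin k))) = T.J (PMap.id _))
    (b : LevelIso T.toBiv e β') (Φ : hP.obj (model f) ⟶ T.toBiv.gf)
    (hΦ : ∀ n, (Φ.app n).app (op ((levelsModel goodU (d := 2 * e) (by omega) f).T n))
      ((levelsModel goodU (d := 2 * e) (by omega) f).u n) = levelCls he f T.toGBiv b n)
    (c : ℕ) (K : Testᵒᵖ) : Function.Surjective ((Φ.app c).app K) := by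
  have hcomp := levelCls_compatible he f T β' h b
  obtain ⟨ρ, hs, hβ, -⟩ := h
  intro x
  obtain ⟨K⟩ := K
  -- the unit
  obtain ⟨b0, hb0⟩ : ∃ b0 : T.Hom (LC.rpow (Fin 0)) LC.point, b0 = b.b 0 := ⟨_, rfl⟩
  obtain ⟨c0, hc0⟩ : ∃ c0 : T.Hom LC.point (LC.rpow (Fin 0)), c0 = b.c 0 := ⟨_, rfl⟩
  have hcb : T.comp c0 b0 = T.J (PMap.id _) := by
    rw [hb0, hc0]
    exact b.cb 0
  obtain ⟨v, hvdef⟩ : ∃ v : T.Hom LC.point LC.point,
      v = T.comp (jh T.toBiv csZero.symm) b0 := ⟨_, rfl⟩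
  obtain ⟨v', hvdef'⟩ : ∃ v' : T.Hom LC.point LC.point,
      v' = T.comp c0 (jh T.toBiv csZero) := ⟨_, rfl⟩
  have hv'v : T.comp v' v = T.J (PMap.id _) := by
    rw [hvdef, hvdef', T.assoc, jh_comp_symm, hcb]
  have hv0 : T.comp (jh T.toBiv csZero) v = (b.b 0 : T.Hom (LC.rpow (Fin 0)) LC.point) := by
    rw [hvdef, jh_comp_symm]
    exact hb0
  obtain ⟨V, hV⟩ : ∃ V : T.Hom (Zb c) (Zb c), V = pl T.toBiv v (pS (Zb c)) (pS (Zb c)) := ⟨_, rfl⟩
  obtain ⟨V', hV'⟩ : ∃ V' : T.Hom (Zb c) (Zb c),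
    V' = pl T.toBiv v' (pS (Zb c)) (pS (Zb c)) := ⟨_, rfl⟩
  have hV'V : T.comp V' V = T.J (PMap.id _) := by
    rw [hV, hV', pl_comp, hv'v, pl, tens_id, T.id_comp, jh_comp_symm']
  have hVl : Like V v := by
    rw [hV]
    exact (Like.refl v).pl (pS_perm _) (pS_perm _)
  obtain ⟨n, hn, F, hF⟩ := T.cls_surj (T.comp (x : T.Hom K.obj (Zb c)) V') 1
  obtain ⟨n, rfl⟩ : ∃ n', n = n' + 1 := ⟨n - 1, by omega⟩
  have hF2 := T.cls_formula F
  rw [← hF] at hF2
  obtain ⟨r, s, hr, hb, hm, hre, hr0, hl⟩ := cs_level he b v hv0 (e * (n + 1) + 1)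
  have hsn : s = n + 1 := by
    rcases Nat.lt_trichotomy s (n + 1) with h1 | h1 | h1
    · have h2 : e * s + e ≤ e * (n + 1) := by
        calc e * s + e = e * (s + 1) := by ring
          _ ≤ e * (n + 1) := Nat.mul_le_mul_left e h1
      omega
    · exact h1
    · have h2 : e * (n + 1) + e ≤ e * s := by
        calc e * (n + 1) + e = e * (n + 1 + 1) := by ring
          _ ≤ e * s := Nat.mul_le_mul_left e h1
      omega
  subst hsn
  obtain rfl : r = 1 := by omega
  letI := csCrd hr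
  have hm' : e * (n + 1) + 1 + (2 * n + 1 + c) = c + (n + 1) * (e + 2) := by ring
  obtain ⟨q⟩ : Nonempty (Fin (n + 1) × Option (Fin k) ≃
      Fin (blk (2 * e) (2 * (e * (n + 1) + 1)) * (k + 1))) := by
    refine ⟨Fintype.equivOfCardEq ?_⟩
    rw [hb]
    simp
  have hg : T.comp (jh T.toBiv ((GK.reindex q).trans (stageGK _).symm :
      LC.G (Fin (n + 1) × Option (Fin k)) ≃ₜ stageLC goodU _)) (gst T.toGBiv _) =
      T.g (Fin (n + 1) × Option (Fin k)) := by
    have h1 : T.comp (jh T.toBiv (K := LC.G (Fin (n + 1) × Option (Fin k))) (GK.reindex q))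
      (T.g (Fin (blk (2 * e) (2 * (e * (n + 1) + 1)) * (k + 1)))) = _ := T.g_reindex q
    have h2 : jh T.toBiv ((GK.reindex q).trans (stageGK _).symm :
        LC.G (Fin (n + 1) × Option (Fin k)) ≃ₜ stageLC goodU _) = T.comp (jh T.toBiv
        (K := LC.G (Fin (n + 1) × Option (Fin k))) (L := LC.G (Fin _)) (GK.reindex q))
        (jh T.toBiv (stageGK _).symm) := jh_trans T.toBiv (K := LC.G (Fin (n + 1) ×
          Option (Fin k))) (L := LC.G (Fin _)) (GK.reindex q) (stageGK _).symm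
    refine (congrArg (fun z => T.comp z (gst T.toGBiv _)) h2).trans ?_
    refine (T.assoc _ _ _).trans (Eq.trans ?_ h1)
    exact congrArg _ (jh_symm_comp T.toBiv (stageGK _) (T.g (Fin _)))
  have hV1 : dm (LC.rpow (Fin (lev (2 * e) (2 * (e * (n + 1) + 1))))) + (2 * n + 1 + c) =
      Fintype.card (Fin (n + 1) × Option (Fin 1)) + c := by
    have h1 : dm (LC.rpow (Fin (lev (2 * e) (2 * (e * (n + 1) + 1))))) = 1 := Fintype.card_fin 1
    rw [h1]
    simp
    ring
  have hN : Fintype.card (Fin (n + 1) × Option (Fin (e + 1))) = (n + 1) * (e + 2) := by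
    simp
  obtain ⟨φ, hφ⟩ := main_formula (R := T.toGBiv) (D := loopDatum (loopGK f)) (ι := Fin (n + 1))
    (T.comp (x : T.Hom K.obj (Zb c)) V') F hF2
    (h0 := ((GK.reindex q).trans (stageGK _).symm :
      LC.G (Fin (n + 1) × Option (Fin k)) ≃ₜ stageLC goodU _)) (gst T.toGBiv _) hg
    (b.b (e * (n + 1) + 1)) (j := 2 * n + 1 + c) (N := (n + 1) * (e + 2)) hV1 hN hm'
    (thp (R := T.toBiv) (T.comp ρ (T.g (Fin k))) (n + 1)) (thm β' v (n + 1)) v
    (like_shC_fin (R := T.toGBiv) (T.comp ρ (T.g (Fin k)))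
      (cs_datum (R := T.toGBiv) (loopGK f) ρ hs) n)
    hl (like_thp_thm _ _ v hβ (n + 1)) V hVl
  obtain ⟨y, hy⟩ := exists_of_level Φ hΦ hcomp hm' (K := K)
      (T.comp (T.comp (x : T.Hom K.obj (Zb c)) V') V) φ hφ
  refine ⟨y, hy.trans ?_⟩
  rw [T.assoc, hV'V, T.comp_id]

/-- if the class of a map to a level vanishes, then its product with the tautological class
vanishes -/
theorem levelCls_vanish (T : GBiv) {β' : T.Hom LC.point (LC.cpow (Fin e))}
    (b : LevelIso T.toBiv e β') (m : ℕ) {K : LC} (ψ : PMap K (modelK goodU k (2 * e) m).plus)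
    (h : T.comp (T.J ψ) (levelCls he f T b m) = 0) :
    T.comp (T.J ((PMap.ofHomeo (kapX he goodU stageGK m)).comp ψ)) (T.ltens
      (LC.cpow (Fin (lev (2 * e) (2 * m) / 2))) (T.g (Fin (blk (2 * e) (2 * m) * (k + 1))))) =
      0 :=
  T.vanish_aux (V := LC.rpow (Fin (lev (2 * e) (2 * m))))
    (W := LC.cpow (Fin (lev (2 * e) (2 * m) / 2)))
    (S := stageLC goodU (blk (2 * e) (2 * m) * (k + 1)))
    (G := LC.G (Fin (blk (2 * e) (2 * m) * (k + 1)))) ψ (stageGK _) (toCH (lev_two he m).1)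
    (T.g _) (b.b m) (b.c m) (b.bc m) h

/-- (CI) injectivity -/
theorem comparison_inj (T : LocTheory (loopDatum (loopGK f)))
    (β' : T.Hom LC.point (LC.cpow (Fin e)))
    (h : ∃ ρ : T.Hom (LC.cpow (Fin e)) (LC.G (Fin k)), T.J (loopDatum (loopGK f)).s =
        T.comp (T.J (PMap.ofHomeo (consC e))) (T.comp (T.ltens LC.C ρ)
          (T.J (PMap.ofHomeo (oneC.prodCongr (Homeomorph.refl (GK (Fin k))) :
            LC.C.prod (LC.G (Fin k)) ≃ₜ (LC.cpow (Fin 1)).prod (LC.G (Fin k)))))) ∧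
        T.comp (T.comp ρ (T.g (Fin k))) β' = T.J (PMap.id _) ∧
        T.comp β' (T.comp ρ (T.g (Fin k))) = T.J (PMap.id _))
    (b : LevelIso T.toBiv e β') (Φ : hP.obj (model f) ⟶ T.toBiv.gf)
    (hΦ : ∀ n, (Φ.app n).app (op ((levelsModel goodU (d := 2 * e) (by omega) f).T n))
      ((levelsModel goodU (d := 2 * e) (by omega) f).u n) = levelCls he f T.toGBiv b n)
    (c : ℕ) (K : Testᵒᵖ) : Function.Injective ((Φ.app c).app K) := by
  refine Levels.injective_of_null (levelsModel goodU (d := 2 * e) (by omega) f) T.toBiv.gf Φ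
    (fun m K ψ hψ => ?_) c K
  rw [hΦ m] at hψ
  exact itNext_null he f goodU stageGK (fun l => (exists_stageGK l).choose_spec) T m ψ
    (levelCls_vanish he f T.toGBiv b m ψ hψ)

end levels

/-- The values of the graded functor of a bivariant theory on empty spaces vanish. -/
theorem Biv.gf_red (R : Biv) : R.gf.Red := by
  intro b K hK hE x
  have h2 : PMap.id K = PMap.zero K K.plus := by
    ext k
    exact (hE.false k).elim
  have h1 : R.comp (R.J (PMap.id K)) (x : R.Hom K (Zb b)) = x := R.id_comp _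
  rw [h2, R.J_zero, R.zero_comp] at h1
  exact h1.symm

theorem GF.inv_comm_aux {C : Type*} [Category C] {A B A' B' : C} {f : A ⟶ B} {f' : A' ⟶ B'}
    {fi : B ⟶ A} {fi' : B' ⟶ A'} {g : A ⟶ A'} {h : B ⟶ B'} (hc : g ≫ f' = f ≫ h)
    (e1 : fi ≫ f = 𝟙 _) (e2 : f' ≫ fi' = 𝟙 _) : h ≫ fi' = fi ≫ g := by
  calc h ≫ fi' = (fi ≫ f) ≫ h ≫ fi' := by rw [e1, Category.id_comp]
    _ = fi ≫ (g ≫ f') ≫ fi' := by rw [hc]; simp only [Category.assoc]
    _ = fi ≫ g := by rw [Category.assoc, e2, Category.comp_id]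

/-- A morphism of graded functors with bijective components is an isomorphism. -/
theorem GF.isIso_of_bijective {G H : GF} (F : G ⟶ H)
    (h : ∀ b K, Function.Bijective ((F.app b).app K)) : IsIso F := by
  have h1 : ∀ b K, IsIso ((F.app b).app K) := fun b K =>
    (ConcreteCategory.isIso_iff_bijective _).2 (h b K)
  have h2 : ∀ b, IsIso (F.app b) := fun b => NatIso.isIso_of_isIso_app _
  refine ⟨GF.Hom.mk' (fun b => inv (F.app b)) (fun b K => ?_), ?_, ?_⟩
  · have e1 : (inv (F.app b)).app K ≫ (F.app b).app K = 𝟙 _ := by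
      rw [← NatTrans.comp_app, IsIso.inv_hom_id]
      rfl
    have e2 : (F.app (b + 1)).app (Test.cx.op.obj K) ≫
        (inv (F.app (b + 1))).app (Test.cx.op.obj K) = 𝟙 _ := by
      rw [← NatTrans.comp_app, IsIso.hom_inv_id]
      rfl
    exact GF.inv_comm_aux (F.comm_apply b K) e1 e2
  · refine GF.hom_ext fun b => ?_
    rw [GF.comp_app]
    exact IsIso.hom_inv_id (F.app b)
  · refine GF.hom_ext fun b => ?_
    rw [GF.comp_app]
    exact IsIso.inv_hom_id (F.app b)

/-- The telescope of `f` is the localised theory of `f`. -/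
theorem comparison {e k : ℕ} (he : 0 < e)
    (f : GenLoop (Fin (2 * e)) (Gr Set.univ k) (Gr.pt Set.univ k))
    (T : LocTheory (loopDatum (loopGK f))) :
    Nonempty (hP.obj (tele (mulMap f)) ≅ T.toBiv.gf) := by
  obtain ⟨ρ, -, hρ⟩ := exists_rho T.toBiv he (loopGK f)
  obtain ⟨β', hβ1, hβ2⟩ := beta_inv (loopGK f) T ρ hρ
  obtain ⟨b⟩ := exists_levelIso T.toBiv he (T.comp ρ (T.g (Fin k))) β' hβ1 hβ2
  have hx := levelCls_compatible he f T β' ⟨ρ, hρ, hβ1, hβ2⟩ b
  obtain ⟨Φ, hΦ⟩ := (levelsModel goodU (d := 2 * e) (by omega) f).yoneda T.toBiv.gf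
    T.toBiv.gf_exact T.toBiv.gf_red _ hx
  have hbij : ∀ c K, Function.Bijective ((Φ.app c).app K) := fun c K =>
    ⟨comparison_inj he f T β' ⟨ρ, hρ, hβ1, hβ2⟩ b Φ hΦ c K,
      comparison_surj he f T β' ⟨ρ, hρ, hβ1, hβ2⟩ b Φ hΦ c K⟩
  have hiso : IsIso Φ := GF.isIso_of_bijective Φ hbij
  have hm : IsIso (hP.map (modelInc f)) :=
    (stableEquiv_iff _).1 (stableEquiv_modelInc goodU (by omega) f)
  exact ⟨(asIso (hP.map (modelInc f))).symm ≪≫ asIso Φ⟩

end Pool.Agent.Helper1.Stab
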