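import Mathlib

/-!
# The objects of MP_ab4156_gt

Spectra are sequential prespectra of pointed topological spaces, localised at the maps that induce
isomorphisms on all stable homotopy groups.
-/

open CategoryTheory Topology unitInterval Set

noncomputable section

namespace Pool.Agent.Helper1.Stab

/-! ## Pointed spaces and prespectra -/

/-- A pointed topological space. -/
structure PT where
  carrier : Type
  [top : TopologicalSpace carrier]
  pt : carrier

instance : CoeSort PT Type := ⟨PT.carrier⟩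
instance (Y : PT) : TopologicalSpace Y := Y.top

/-- A (sequential) prespectrum: pointed spaces `X 0, X 1, X 2, …` and structure maps
`S¹ ∧ X n → X (n+1)`. Such a structure map is a continuous map `I × X n → X (n+1)` that sends
`(0,x)`, `(1,x)` and `(t,pt)` to the base point. -/
structure Prespectrum where
  sp : ℕ → PT
  str : ∀ n, C(I × sp n, sp (n + 1))
  str_zero : ∀ n x, str n (0, x) = (sp (n + 1)).pt
  str_one : ∀ n x, str n (1, x) = (sp (n + 1)).pt
  str_pt : ∀ n t, str n (t, (sp n).pt) = (sp (n + 1)).pt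

/-- A map of prespectra: pointed maps `X n → Y n` commuting with the structure maps. -/
@[ext] structure Prespectrum.Hom (X Y : Prespectrum) where
  map : ∀ n, C(X.sp n, Y.sp n)
  map_pt : ∀ n, map n (X.sp n).pt = (Y.sp n).pt
  map_str : ∀ n t x, map (n + 1) (X.str n (t, x)) = Y.str n (t, map n x)

/-- The identity map of a prespectrum. -/
def Prespectrum.Hom.one (X : Prespectrum) : Prespectrum.Hom X X :=
  ⟨fun n => ContinuousMap.id _, fun _ => rfl, fun _ _ _ => rfl⟩

/-- The composite of two maps of prespectra. -/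
def Prespectrum.Hom.mul {X Y Z : Prespectrum} (f : Prespectrum.Hom X Y)
    (g : Prespectrum.Hom Y Z) : Prespectrum.Hom X Z :=
  ⟨fun n => (g.map n).comp (f.map n),
    fun n => by simp [f.map_pt, g.map_pt], fun n t x => by simp [f.map_str, g.map_str]⟩

instance : Category Prespectrum where
  Hom := Prespectrum.Hom
  id := Prespectrum.Hom.one
  comp := Prespectrum.Hom.mul

/-! ## Stable homotopy groups -/

theorem Prespectrum.str_bd (X : Prespectrum) {m n : ℕ} {y : Fin (m + 1) → I} {i : Fin (m + 1)}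
    (hi : y i = 0 ∨ y i = 1) {z : X.sp n}
    (hz : ∀ j : Fin m, i = j.succ → z = (X.sp n).pt) : X.str n (y 0, z) = (X.sp (n + 1)).pt := by
  induction i using Fin.cases with
  | zero =>
    rcases hi with hi | hi
    · rw [hi]
      exact X.str_zero n z
    · rw [hi]
      exact X.str_one n z
  | succ j =>
    rw [hz j rfl]
    exact X.str_pt n _

/-- The loop `(I^m, ∂) → X n` gives `I^(m+1) → X (n+1)`, `s ↦ str (s 0, f (s 1, …, s m))`. -/
def Prespectrum.stab (X : Prespectrum) {m n : ℕ} (f : GenLoop (Fin m) (X.sp n) (X.sp n).pt) :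
    GenLoop (Fin (m + 1)) (X.sp (n + 1)) (X.sp (n + 1)).pt :=
  ⟨⟨fun s => X.str n (s 0, f (fun i => s i.succ)), by
      refine (X.str n).continuous.comp ((continuous_apply 0).prodMk ?_)
      exact f.1.continuous.comp (continuous_pi fun i => continuous_apply _)⟩, by
    rintro y ⟨i, hi⟩
    refine X.str_bd hi fun j hj => ?_
    subst hj
    exact f.2 _ ⟨j, hi⟩⟩

/-- The group `π_{m+2}(X n)`, written additively. -/
def Prespectrum.piGrp (X : Prespectrum) (m n : ℕ) : AddCommGrpCat :=
  AddCommGrpCat.of (Additive (HomotopyGroup (Fin (m + 2)) (X.sp n) (X.sp n).pt))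

theorem Prespectrum.stab_apply (X : Prespectrum) {m n : ℕ}
    (f : GenLoop (Fin m) (X.sp n) (X.sp n).pt) (s : Fin (m + 1) → I) :
    X.stab f s = X.str n (s 0, f (fun i => s i.succ)) := rfl

theorem Prespectrum.stab_homotopic (X : Prespectrum) {m n : ℕ}
    {f g : GenLoop (Fin m) (X.sp n) (X.sp n).pt} (h : GenLoop.Homotopic f g) :
    GenLoop.Homotopic (X.stab f) (X.stab g) := by
  obtain ⟨H⟩ := h
  refine ⟨⟨⟨⟨fun p => X.str n (p.2 0, H (p.1, fun i => p.2 i.succ)), ?_⟩, ?_, ?_⟩, ?_⟩⟩
  · refine (X.str n).continuous.comp (((continuous_apply 0).comp continuous_snd).prodMk ?_)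
    refine H.continuous.comp (continuous_fst.prodMk (continuous_pi fun i => ?_))
    exact (continuous_apply _).comp continuous_snd
  · intro s
    show X.str n (s 0, H (0, fun i => s i.succ)) = X.stab f s
    rw [H.apply_zero]
    rfl
  · intro s
    show X.str n (s 0, H (1, fun i => s i.succ)) = X.stab g s
    rw [H.apply_one]
    rfl
  · rintro t y ⟨i, hi⟩
    show X.str n (y 0, H (t, fun i => y i.succ)) = X.stab f y
    have h1 : X.stab f y = (X.sp (n + 1)).pt := (X.stab f).2 y ⟨i, hi⟩
    rw [h1]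
    refine X.str_bd hi fun j hj => ?_
    subst hj
    have h2 : (fun i : Fin m => y i.succ) ∈ Cube.boundary (Fin m) := ⟨j, hi⟩
    rw [H.eq_fst t h2]
    exact f.2 _ h2

theorem Prespectrum.stab_transAt (X : Prespectrum) {m n : ℕ} (i : Fin m)
    (f g : GenLoop (Fin m) (X.sp n) (X.sp n).pt) :
    X.stab (GenLoop.transAt i f g) = GenLoop.transAt i.succ (X.stab f) (X.stab g) := by
  have key : ∀ (s : Fin (m + 1) → I) (v : I), (fun j : Fin m =>
      Function.update s i.succ v j.succ) = Function.update (fun j : Fin m => s j.succ) i v := by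
    intro s v
    funext j
    by_cases h : j = i
    · subst h
      simp
    · rw [Function.update_of_ne (fun h' => h (Fin.succ_injective _ h')),
        Function.update_of_ne h]
  ext s
  rw [X.stab_apply]
  simp only [GenLoop.transAt, GenLoop.coe_copy]
  split_ifs with h
  · rw [X.stab_apply, key, Function.update_of_ne (Fin.succ_ne_zero i).symm]
  · rw [X.stab_apply, key, Function.update_of_ne (Fin.succ_ne_zero i).symm]

theorem Prespectrum.stab_const (X : Prespectrum) {m n : ℕ} :
    X.stab (GenLoop.const : GenLoop (Fin m) (X.sp n) (X.sp n).pt) = GenLoop.const := by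
  ext s
  exact X.str_pt n _

/-- The class of a loop. -/
def hgm {N Y : Type} [TopologicalSpace Y] {y : Y} (f : GenLoop N Y y) : HomotopyGroup N Y y :=
  Quotient.mk _ f

theorem hgm_mul {N Y : Type} [TopologicalSpace Y] [DecidableEq N] [Nonempty N] {y : Y} (i : N)
    (f g : GenLoop N Y y) : hgm f * hgm g = hgm (GenLoop.transAt i g f) :=
  HomotopyGroup.mul_spec

/-- The stabilisation on homotopy classes. -/
def Prespectrum.stabQ (X : Prespectrum) {m n : ℕ}
    (x : HomotopyGroup (Fin m) (X.sp n) (X.sp n).pt) :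
    HomotopyGroup (Fin (m + 1)) (X.sp (n + 1)) (X.sp (n + 1)).pt :=
  Quotient.map (fun f => X.stab f) (fun _ _ h => X.stab_homotopic h) x

theorem Prespectrum.stabQ_mul (X : Prespectrum) {m n : ℕ}
    (x y : HomotopyGroup (Fin (m + 2)) (X.sp n) (X.sp n).pt) :
    X.stabQ (x * y) = X.stabQ x * X.stabQ y := by
  obtain ⟨f⟩ := x
  obtain ⟨g⟩ := y
  change X.stabQ (hgm f * hgm g) = hgm (X.stab f) * hgm (X.stab g)
  rw [hgm_mul 0, hgm_mul (0 : Fin (m + 2)).succ, ← X.stab_transAt]
  rfl

/-- The stabilisation `π_{m+2}(X n) → π_{m+3}(X (n+1))`. -/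
def Prespectrum.stabA (X : Prespectrum) (m n : ℕ) (x : X.piGrp m n) :
    X.piGrp (m + 1) (n + 1) :=
  Additive.ofMul (X.stabQ (Additive.toMul x))

theorem Prespectrum.stabA_add (X : Prespectrum) (m n : ℕ) (x y : X.piGrp m n) :
    X.stabA m n (x + y) = X.stabA m n x + X.stabA m n y :=
  congrArg Additive.ofMul (X.stabQ_mul (Additive.toMul x) (Additive.toMul y))

/-- The stabilisation homomorphism `π_{m+2}(X n) → π_{m+3}(X (n+1))`. -/
def Prespectrum.stabHom (X : Prespectrum) (m n : ℕ) : X.piGrp m n ⟶ X.piGrp (m + 1) (n + 1) :=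
  AddCommGrpCat.ofHom (AddMonoidHom.mk' (X.stabA m n) (X.stabA_add m n))

/-- Composition of a loop with a pointed map. -/
def postL {N Y Z : Type} [TopologicalSpace Y] [TopologicalSpace Z] {y : Y} {z : Z} (φ : C(Y, Z))
    (h : φ y = z) (g : GenLoop N Y y) : GenLoop N Z z :=
  ⟨φ.comp g.1, fun s hs => (congrArg φ (g.2 s hs)).trans h⟩

theorem postL_homotopic {N Y Z : Type} [TopologicalSpace Y] [TopologicalSpace Z] {y : Y} {z : Z}
    (φ : C(Y, Z)) (h : φ y = z) {f g : GenLoop N Y y} (hfg : GenLoop.Homotopic f g) :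
    GenLoop.Homotopic (postL φ h f) (postL φ h g) :=
  ContinuousMap.HomotopicRel.comp_continuousMap hfg φ

theorem postL_const {N Y Z : Type} [TopologicalSpace Y] [TopologicalSpace Z] {y : Y} {z : Z}
    (φ : C(Y, Z)) (h : φ y = z) : postL φ h (GenLoop.const : GenLoop N Y y) = GenLoop.const := by
  ext s
  exact h

theorem postL_transAt {N Y Z : Type} [TopologicalSpace Y] [TopologicalSpace Z] [DecidableEq N]
    {y : Y} {z : Z} (φ : C(Y, Z)) (h : φ y = z) (i : N) (f g : GenLoop N Y y) :
    postL φ h (GenLoop.transAt i f g) = GenLoop.transAt i (postL φ h f) (postL φ h g) := by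
  ext s
  change φ (GenLoop.transAt i f g s) = _
  simp only [GenLoop.transAt, GenLoop.coe_copy]
  split_ifs with h
  · rfl
  · rfl

/-- Composition on homotopy classes. -/
def postQ {N Y Z : Type} [TopologicalSpace Y] [TopologicalSpace Z] {y : Y} {z : Z} (φ : C(Y, Z))
    (h : φ y = z) (x : HomotopyGroup N Y y) : HomotopyGroup N Z z :=
  Quotient.map (postL φ h) (fun _ _ hfg => postL_homotopic φ h hfg) x

theorem postQ_mul {N Y Z : Type} [TopologicalSpace Y] [TopologicalSpace Z] [DecidableEq N]
    [Nonempty N] {y : Y} {z : Z} (φ : C(Y, Z)) (h : φ y = z) (x x' : HomotopyGroup N Y y) :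
    postQ φ h (x * x') = postQ φ h x * postQ φ h x' := by
  obtain ⟨f⟩ := x
  obtain ⟨g⟩ := x'
  change postQ φ h (hgm f * hgm g) = hgm (postL φ h f) * hgm (postL φ h g)
  rw [hgm_mul (Classical.arbitrary N), hgm_mul (Classical.arbitrary N), ← postL_transAt]
  rfl

/-- The map on homotopy groups induced by a map of prespectra. -/
def Prespectrum.Hom.postA {X Y : Prespectrum} (f : Prespectrum.Hom X Y) (m n : ℕ)
    (x : X.piGrp m n) : Y.piGrp m n :=
  Additive.ofMul (postQ (f.map n) (f.map_pt n) (Additive.toMul x))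

theorem Prespectrum.Hom.postA_add {X Y : Prespectrum} (f : Prespectrum.Hom X Y) (m n : ℕ)
    (x y : X.piGrp m n) : f.postA m n (x + y) = f.postA m n x + f.postA m n y :=
  congrArg Additive.ofMul (postQ_mul (f.map n) (f.map_pt n) (Additive.toMul x) (Additive.toMul y))

/-- The homomorphism of homotopy groups induced by a map of prespectra. -/
def Prespectrum.Hom.piGrpMap {X Y : Prespectrum} (f : Prespectrum.Hom X Y) (m n : ℕ) :
    X.piGrp m n ⟶ Y.piGrp m n :=
  AddCommGrpCat.ofHom (AddMonoidHom.mk' (f.postA m n) (f.postA_add m n))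

theorem Prespectrum.stabHom_naturality {X Y : Prespectrum} (f : Prespectrum.Hom X Y) (m n : ℕ) :
    X.stabHom m n ≫ f.piGrpMap (m + 1) (n + 1) = f.piGrpMap m n ≫ Y.stabHom m n := by
  ext x
  obtain ⟨g⟩ := x
  refine congrArg (fun f => Additive.ofMul (Quotient.mk _ f)) ?_
  ext s
  exact f.map_str n (s 0) (g fun i => s i.succ)

theorem Prespectrum.piGrpMap_id (X : Prespectrum) (m n : ℕ) :
    Prespectrum.Hom.piGrpMap (𝟙 X : X ⟶ X) m n = 𝟙 _ := by
  ext x
  obtain ⟨g⟩ := x
  rfl

theorem Prespectrum.piGrpMap_comp {X Y Z : Prespectrum} (f : X ⟶ Y) (g : Y ⟶ Z) (m n : ℕ) :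
    Prespectrum.Hom.piGrpMap (f ≫ g) m n =
      Prespectrum.Hom.piGrpMap f m n ≫ Prespectrum.Hom.piGrpMap g m n := by
  ext x
  obtain ⟨g⟩ := x
  rfl

theorem colimMap_id' {F : ℕ ⥤ AddCommGrpCat.{0}} (α : F ⟶ F) (h : ∀ j, α.app j = 𝟙 _) :
    Limits.colimMap α = 𝟙 _ := by
  apply Limits.colimit.hom_ext
  intro j
  rw [Limits.ι_colimMap, h, Category.id_comp, Category.comp_id]

theorem colimMap_comp' {F G K : ℕ ⥤ AddCommGrpCat.{0}} (γ : F ⟶ K) (α : F ⟶ G) (β : G ⟶ K)
    (h : ∀ j, γ.app j = α.app j ≫ β.app j) :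
    Limits.colimMap γ = Limits.colimMap α ≫ Limits.colimMap β := by
  apply Limits.colimit.hom_ext
  intro j
  rw [Limits.ι_colimMap, h, ← Category.assoc, Limits.ι_colimMap, Category.assoc,
    Category.assoc, Limits.ι_colimMap]

/-- The sequence `π_{a+2}(X (b+2)) → π_{a+3}(X (b+3)) → …`. -/
abbrev Prespectrum.piSeq (X : Prespectrum) (a b : ℕ) : ℕ ⥤ AddCommGrpCat.{0} :=
  Functor.ofSequence (fun i => X.stabHom (a + i) (b + i + 2))

theorem Prespectrum.piSeq_nat {X Y : Prespectrum} (f : Prespectrum.Hom X Y) (a b i : ℕ) :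
    (X.piSeq a b).map (homOfLE (Nat.le_add_right i 1)) ≫
        f.piGrpMap (a + (i + 1)) (b + (i + 1) + 2) =
      f.piGrpMap (a + i) (b + i + 2) ≫ (Y.piSeq a b).map (homOfLE (Nat.le_add_right i 1)) := by
  rw [Functor.ofSequence_map_homOfLE_succ, Functor.ofSequence_map_homOfLE_succ]
  exact Prespectrum.stabHom_naturality f (a + i) (b + i + 2)

/-- The map of sequences induced by a map of prespectra. -/
abbrev Prespectrum.Hom.piSeqMap {X Y : Prespectrum} (f : Prespectrum.Hom X Y) (a b : ℕ) :
    X.piSeq a b ⟶ Y.piSeq a b :=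
  NatTrans.ofSequence (fun i => f.piGrpMap (a + i) (b + i + 2)) (Prespectrum.piSeq_nat f a b)

/-- The stable homotopy group `π_{a-b}(X) = colim_i π_{a+i+2}(X (b+i+2))`. -/
def piS (a b : ℕ) : Prespectrum ⥤ AddCommGrpCat where
  obj X := Limits.colimit (X.piSeq a b)
  map f := Limits.colimMap (Prespectrum.Hom.piSeqMap f a b)
  map_id X := colimMap_id' _ fun j => X.piGrpMap_id (a + j) (b + j + 2)
  map_comp f g := colimMap_comp' _ _ _ fun j =>
    Prespectrum.piGrpMap_comp f g (a + j) (b + j + 2)

/-- The maps of prespectra that induce isomorphisms on all stable homotopy groups. -/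
def stableEquiv : MorphismProperty Prespectrum := fun _ _ f => ∀ a b, IsIso ((piS a b).map f)

/-- The stable homotopy category. -/
abbrev SHC : Type 1 := stableEquiv.Localization

/-- The spectrum of a prespectrum. -/
abbrev spec (X : Prespectrum) : SHC := stableEquiv.Q.obj X

theorem piS_inverts (a b : ℕ) : stableEquiv.IsInvertedBy (piS a b) := fun _ _ _ h => h a b

/-- Stable homotopy groups as a functor on the stable homotopy category. -/
def piSHC (a b : ℕ) : SHC ⥤ AddCommGrpCat :=
  Localization.lift (piS a b) (piS_inverts a b) stableEquiv.Q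

/-! ## Shifts, wedges, p-localisation -/

/-- The one-point space. -/
def PT.point : PT := ⟨Unit, ()⟩

/-- The suspension `Σ X`, as a shift: `(Σ X) n = X (n+1)`. -/
def Prespectrum.up (X : Prespectrum) : Prespectrum where
  sp n := X.sp (n + 1)
  str n := X.str (n + 1)
  str_zero n := X.str_zero (n + 1)
  str_one n := X.str_one (n + 1)
  str_pt n := X.str_pt (n + 1)

/-- The spaces of the desuspension. -/
def Prespectrum.downSp (X : Prespectrum) : ℕ → PT
  | 0 => PT.point
  | n + 1 => X.sp n

/-- The structure maps of the desuspension. -/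
def Prespectrum.downStr (X : Prespectrum) : ∀ n, C(I × X.downSp n, X.downSp (n + 1))
  | 0 => ContinuousMap.const _ (X.sp 0).pt
  | n + 1 => X.str n

/-- The desuspension `Σ⁻¹ X`, as a shift: `(Σ⁻¹ X) (n+1) = X n` and `(Σ⁻¹ X) 0` is a point. -/
def Prespectrum.down (X : Prespectrum) : Prespectrum where
  sp := X.downSp
  str := X.downStr
  str_zero n x := by cases n with | zero => rfl | succ n => exact X.str_zero n x
  str_one n x := by cases n with | zero => rfl | succ n => exact X.str_one n x
  str_pt n t := by cases n with | zero => rfl | succ n => exact X.str_pt n t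

/-- The suspension `Σ^m X` for an integer `m`. -/
def Prespectrum.susp (X : Prespectrum) : ℤ → Prespectrum
  | Int.ofNat k => Prespectrum.up^[k] X
  | Int.negSucc k => Prespectrum.down^[k + 1] X

/-- The relation that identifies all base points with one extra point. -/
inductive WedgeRel {ι : Type} (X : ι → PT) : Unit ⊕ (Σ i, X i) → Unit ⊕ (Σ i, X i) → Prop
  | base (i : ι) : WedgeRel X (Sum.inl ()) (Sum.inr ⟨i, (X i).pt⟩)

/-- The wedge of a family of pointed spaces. -/
def PT.wedge {ι : Type} (X : ι → PT) : PT := ⟨Quot (WedgeRel X), Quot.mk _ (Sum.inl ())⟩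

/-- The structure map of a wedge of prespectra. -/
def wedgeStr {ι : Type} (X : ι → Prespectrum) (n : ℕ) (t : I) :
    PT.wedge (fun i => (X i).sp n) → PT.wedge (fun i => (X i).sp (n + 1)) :=
  Quot.map (Sum.map id fun x => ⟨x.1, (X x.1).str n (t, x.2)⟩)
    (by rintro _ _ ⟨i⟩; simpa [(X i).str_pt n t] using WedgeRel.base (X := fun i => (X i).sp (n+1)) i)

/-- A map out of `I × Quot r` is continuous if it is on `I × A`. -/
theorem continuous_of_quot {A Y : Type} [TopologicalSpace A] [TopologicalSpace Y]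
    {r : A → A → Prop} {f : I × Quot r → Y}
    (hf : Continuous fun x : I × A => f (x.1, Quot.mk r x.2)) : Continuous f :=
  (isQuotientMap_quot_mk (r := r)).continuous_lift_prod_right hf

/-- A map out of `I × (Unit ⊕ A)` is continuous if it is on `I` and on `I × A`. -/
theorem continuous_of_unit_sum {A Y : Type} [TopologicalSpace A] [TopologicalSpace Y]
    {f : I × (Unit ⊕ A) → Y} (h1 : Continuous fun t : I => f (t, Sum.inl ()))
    (h2 : Continuous fun x : I × A => f (x.1, Sum.inr x.2)) : Continuous f := by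
  rw [← (Homeomorph.prodSumDistrib (X := I) (Y := Unit) (Z := A)).symm.comp_continuous_iff']
  rw [continuous_sum_dom]
  refine ⟨?_, ?_⟩
  · exact h1.comp continuous_fst
  · exact h2

/-- A map out of `I × Σ i, A i` is continuous if it is on every `I × A i`. -/
theorem continuous_of_sigma {ι : Type} {A : ι → Type} {Y : Type} [∀ i, TopologicalSpace (A i)]
    [TopologicalSpace Y] {f : I × (Σ i, A i) → Y}
    (h : ∀ i, Continuous fun x : I × A i => f (x.1, ⟨i, x.2⟩)) : Continuous f := by
  have h1 : Continuous fun x : (Σ i, A i) × I => f (x.2, x.1) := by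
    rw [← (Homeomorph.sigmaProdDistrib (X := A) (Y := I)).symm.comp_continuous_iff']
    rw [continuous_sigma_iff]
    intro i
    exact (h i).comp continuous_swap
  exact h1.comp continuous_swap

/-- The wedge of a family of prespectra. -/
def wedge {ι : Type} (X : ι → Prespectrum) : Prespectrum where
  sp n := PT.wedge (fun i => (X i).sp n)
  str n := ⟨fun x => wedgeStr X n x.1 x.2, by
    refine continuous_of_quot (r := WedgeRel fun i => (X i).sp n) (continuous_of_unit_sum ?_ ?_)
    · exact continuous_const (y := (PT.wedge fun i => (X i).sp (n + 1)).pt)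
    · refine continuous_of_sigma fun i => ?_
      have h1 : Continuous fun x : I × (X i).sp n =>
          (Sum.inr ⟨i, (X i).str n x⟩ : Unit ⊕ (Σ i, (X i).sp (n + 1))) :=
        continuous_inr.comp (continuous_sigmaMk.comp ((X i).str n).continuous)
      exact continuous_quot_mk.comp h1⟩
  str_zero n x := by
    induction x using Quot.ind with | _ x => ?_
    rcases x with _ | ⟨i, x⟩
    · rfl
    · show Quot.mk (WedgeRel fun i => (X i).sp (n + 1)) (Sum.inr ⟨i, (X i).str n (0, x)⟩) = _
      rw [(X i).str_zero n x]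
      exact (Quot.sound (WedgeRel.base i)).symm
  str_one n x := by
    induction x using Quot.ind with | _ x => ?_
    rcases x with _ | ⟨i, x⟩
    · rfl
    · show Quot.mk (WedgeRel fun i => (X i).sp (n + 1)) (Sum.inr ⟨i, (X i).str n (1, x)⟩) = _
      rw [(X i).str_one n x]
      exact (Quot.sound (WedgeRel.base i)).symm
  str_pt n t := rfl

/-- The integers prime to `p`. -/
def primeTo (p : ℕ) : Submonoid ℤ where
  carrier := {m | IsCoprime m (p : ℤ)}
  one_mem' := isCoprime_one_left
  mul_mem' := fun ha hb => IsCoprime.mul_left ha hb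

/-- A morphism of spectra is a `p`-localisation if it is one on all stable homotopy groups. -/
def IsPLoc (p : ℕ) {X Y : SHC} (q : X ⟶ Y) : Prop :=
  ∀ a b, IsLocalizedModule (primeTo p) ((piSHC a b).map q).hom.toIntLinearMap

/-! ## Half smash products `S^r ∧ X₊` and localised suspension spectra -/

/-- The relation on `pt ⊔ I^r × X` that collapses `∂I^r × X` to the point. -/
inductive SphRel (r : ℕ) (X : Type) : Unit ⊕ ((Fin r → I) × X) → Unit ⊕ ((Fin r → I) × X) → Prop
  | bd (u : Fin r → I) (x : X) (h : u ∈ Cube.boundary (Fin r)) :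
      SphRel r X (Sum.inl ()) (Sum.inr (u, x))

/-- The pointed space `S^r ∧ X₊`, where `S^r = I^r/∂I^r`; for `r = 0` it is `X₊`. -/
def Sph (r : ℕ) (X : Type) [TopologicalSpace X] : PT :=
  ⟨Quot (SphRel r X), Quot.mk _ (Sum.inl ())⟩

/-- The point `[u, x]` of `S^r ∧ X₊`. -/
def Sph.mk {r : ℕ} {X : Type} [TopologicalSpace X] (u : Fin r → I) (x : X) : Sph r X :=
  Quot.mk _ (Sum.inr (u, x))

/-- The map `S¹ ∧ (S^r ∧ X₊) → S^k ∧ X₊` induced by `φ : I^(r+1) × X → S^k ∧ X₊`. -/
def Sph.ind {r k : ℕ} {X : Type} [TopologicalSpace X] (φ : (Fin (r + 1) → I) × X → Sph k X)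
    (h : ∀ u x, u ∈ Cube.boundary (Fin (r + 1)) → φ (u, x) = (Sph k X).pt) (t : I) :
    Sph r X → Sph k X :=
  Quot.lift (Sum.elim (fun _ => (Sph k X).pt) (fun y => φ (Fin.cons t y.1, y.2))) (by
    rintro _ _ ⟨u, x, hu⟩
    refine (h _ _ ?_).symm
    obtain ⟨i, hi⟩ := hu
    exact ⟨i.succ, by simpa using hi⟩)

/-- A self map `S^d ∧ (S¹ ∧ X₊) → S¹ ∧ X₊`. -/
structure SelfMap (d : ℕ) (X : Type) [TopologicalSpace X] where
  toFun : C((Fin (d + 1) → I) × X, Sph 1 X)
  bd : ∀ u x, u ∈ Cube.boundary (Fin (d + 1)) → toFun (u, x) = (Sph 1 X).pt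

/-- `0, 1, …, d, 1, …, d, 1, …` -/
def lev (d : ℕ) : ℕ → ℕ
  | 0 => 0
  | n + 1 => if lev d n = d then 1 else lev d n + 1

/-- Transport along an equality of dimensions. -/
def Sph.cast {a b : ℕ} {X : Type} [TopologicalSpace X] (h : a = b) (x : Sph a X) : Sph b X := h ▸ x

/-- The structure map out of `S^k ∧ X₊`: the given self map if `k = d`, and the identity of
`S^(k+1) ∧ X₊` otherwise. -/
def teleStr {d : ℕ} {X : Type} [TopologicalSpace X] (m : SelfMap d X) (k : ℕ) (t : I)
    (x : Sph k X) : Sph (if k = d then 1 else k + 1) X :=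
  if h : k = d then
    Sph.cast (if_pos h).symm (Sph.ind m.toFun m.bd t (Sph.cast h x))
  else
    Sph.cast (if_neg h).symm (Sph.ind (k := k + 1) (fun y => Sph.mk y.1 y.2)
      (fun u x hu => (Quot.sound (.bd u x hu)).symm) t x)

theorem Sph.cast_continuous {a b : ℕ} {X : Type} [TopologicalSpace X] (h : a = b) :
    Continuous (Sph.cast (X := X) h) := by
  subst h
  exact continuous_id

theorem Sph.cast_pt {a b : ℕ} {X : Type} [TopologicalSpace X] (h : a = b) :
    Sph.cast h (Sph a X).pt = (Sph b X).pt := by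
  subst h
  rfl

theorem Sph.ind_continuous {r k : ℕ} {X : Type} [TopologicalSpace X]
    (φ : (Fin (r + 1) → I) × X → Sph k X)
    (h : ∀ u x, u ∈ Cube.boundary (Fin (r + 1)) → φ (u, x) = (Sph k X).pt) (hφ : Continuous φ) :
    Continuous fun x : I × Sph r X => Sph.ind φ h x.1 x.2 := by
  refine IsQuotientMap.continuous_lift_prod_right
    (f := (Quot.mk (SphRel r X) : Unit ⊕ ((Fin r → I) × X) → Sph r X)) isQuotientMap_quot_mk ?_
  have h1 : Continuous (Sum.elim (fun _ : I × Unit => (Sph k X).pt)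
      (fun q : I × ((Fin r → I) × X) => φ (Fin.cons q.1 q.2.1, q.2.2))) := by
    refine Continuous.sumElim continuous_const (hφ.comp ?_)
    exact (Continuous.finCons (A := fun _ => I) continuous_fst
      (continuous_fst.comp continuous_snd)).prodMk (continuous_snd.comp continuous_snd)
  refine (h1.comp (Homeomorph.prodSumDistrib (X := I) (Y := Unit)
    (Z := (Fin r → I) × X)).continuous).congr ?_
  rintro ⟨t, y | y⟩ <;> rfl

theorem Sph.ind_zero {r k : ℕ} {X : Type} [TopologicalSpace X]
    (φ : (Fin (r + 1) → I) × X → Sph k X)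
    (h : ∀ u x, u ∈ Cube.boundary (Fin (r + 1)) → φ (u, x) = (Sph k X).pt) (x : Sph r X) :
    Sph.ind φ h 0 x = (Sph k X).pt := by
  induction x using Quot.ind with
  | _ y =>
    rcases y with y | y
    · rfl
    · exact h _ _ ⟨0, Or.inl rfl⟩

theorem Sph.ind_one {r k : ℕ} {X : Type} [TopologicalSpace X]
    (φ : (Fin (r + 1) → I) × X → Sph k X)
    (h : ∀ u x, u ∈ Cube.boundary (Fin (r + 1)) → φ (u, x) = (Sph k X).pt) (x : Sph r X) :
    Sph.ind φ h 1 x = (Sph k X).pt := by
  induction x using Quot.ind with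
  | _ y =>
    rcases y with y | y
    · rfl
    · exact h _ _ ⟨0, Or.inr rfl⟩

theorem teleStr_continuous {d : ℕ} {X : Type} [TopologicalSpace X] (m : SelfMap d X) (k : ℕ) :
    Continuous fun x : I × Sph k X => teleStr m k x.1 x.2 := by
  unfold teleStr
  by_cases h : k = d
  · simp only [dif_pos h]
    exact (Sph.cast_continuous _).comp ((Sph.ind_continuous _ m.bd m.toFun.continuous).comp
      (continuous_fst.prodMk ((Sph.cast_continuous h).comp continuous_snd)))
  · simp only [dif_neg h]
    refine (Sph.cast_continuous _).comp (Sph.ind_continuous _ _ ?_)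
    exact continuous_quot_mk.comp continuous_inr

theorem teleStr_zero {d : ℕ} {X : Type} [TopologicalSpace X] (m : SelfMap d X) (k : ℕ)
    (x : Sph k X) : teleStr m k 0 x = (Sph (if k = d then 1 else k + 1) X).pt := by
  unfold teleStr
  by_cases h : k = d
  · simp only [dif_pos h, Sph.ind_zero, Sph.cast_pt]
  · simp only [dif_neg h, Sph.ind_zero, Sph.cast_pt]

theorem teleStr_one {d : ℕ} {X : Type} [TopologicalSpace X] (m : SelfMap d X) (k : ℕ)
    (x : Sph k X) : teleStr m k 1 x = (Sph (if k = d then 1 else k + 1) X).pt := by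
  unfold teleStr
  by_cases h : k = d
  · simp only [dif_pos h, Sph.ind_one, Sph.cast_pt]
  · simp only [dif_neg h, Sph.ind_one, Sph.cast_pt]

theorem teleStr_pt {d : ℕ} {X : Type} [TopologicalSpace X] (m : SelfMap d X) (k : ℕ)
    (t : I) : teleStr m k t (Sph k X).pt = (Sph (if k = d then 1 else k + 1) X).pt := by
  unfold teleStr
  by_cases h : k = d
  · simp only [dif_pos h, Sph.cast_pt]
    exact Sph.cast_pt _
  · simp only [dif_neg h]
    exact Sph.cast_pt _

/-- The mapping telescope of `Σ^∞ X₊ → Σ^(-d) Σ^∞ X₊ → Σ^(-2d) Σ^∞ X₊ → …` for a self map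
`m : S^d ∧ S¹ ∧ X₊ → S¹ ∧ X₊`. Its spaces are `X₊, S¹ ∧ X₊, …, S^d ∧ X₊, S¹ ∧ X₊, …, S^d ∧ X₊, …`.-/
def tele {d : ℕ} {X : Type} [TopologicalSpace X] (m : SelfMap d X) : Prespectrum where
  sp n := Sph (lev d n) X
  str n := ⟨fun x => teleStr m (lev d n) x.1 x.2, teleStr_continuous m (lev d n)⟩
  str_zero n x := teleStr_zero m (lev d n) x
  str_one n x := teleStr_one m (lev d n) x
  str_pt n t := teleStr_pt m (lev d n) t

/-! ## `BU` and `BSU` -/

/-- Isometries `ℂ^k → ℂ^(2k)` (the columns `0, …, k-1` are orthonormal vectors in `ℂ^(2k)`),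
written as infinite matrices and extended by `e_j ↦ e_(2j)` for `j ≥ k`. -/
def Frame (k : ℕ) : Type := {A : ℕ → ℕ → ℂ //
  (∀ i j, (2 * k ≤ i ∨ k ≤ j) → A i j = if i = 2 * j then 1 else 0) ∧
  ∀ j < k, ∀ j' < k, ∑ i ∈ Finset.range (2 * k), star (A i j) * A i j' = if j = j' then 1 else 0}

instance (k : ℕ) : TopologicalSpace (Frame k) := inferInstanceAs (TopologicalSpace (Subtype _))

/-- The standard isometry `e_j ↦ e_(2j)`. -/
def Frame.std (k : ℕ) : Frame k := ⟨fun i j => if i = 2 * j then 1 else 0, by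
  refine ⟨fun _ _ _ => rfl, fun j hj j' _ => ?_⟩
  rw [Finset.sum_eq_single (2 * j)]
  · by_cases h : j = j' <;> simp [h]
  · intro i _ hi
    simp [hi]
  · intro h
    exact absurd (Finset.mem_range.2 (by omega)) h⟩

/-- An isometry `ℂ^k → ℂ^(2k)` seen as an isometry `ℂ^(k+1) → ℂ^(2k+2)`. -/
def Frame.incl {k : ℕ} (A : Frame k) : Frame (k + 1) := ⟨A.1, by
  obtain ⟨h1, h2⟩ := A.2
  refine ⟨fun i j h => h1 i j (by omega), fun j hj j' hj' => ?_⟩
  rw [show 2 * (k + 1) = 2 * k + 1 + 1 by ring, Finset.sum_range_succ, Finset.sum_range_succ]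
  have hk : ∀ i, A.1 i k = if i = 2 * k then 1 else 0 := fun i => h1 i k (Or.inr le_rfl)
  have ht : ∀ j, A.1 (2 * k) j = if 2 * k = 2 * j then 1 else 0 :=
    fun j => h1 (2 * k) j (Or.inl le_rfl)
  have ht' : ∀ j, A.1 (2 * k + 1) j = if 2 * k + 1 = 2 * j then 1 else 0 :=
    fun j => h1 (2 * k + 1) j (Or.inl (by omega))
  rw [ht, ht, ht', ht']
  have n1 : ¬ (2 * k + 1 = 2 * j) := by omega
  have n2 : ¬ (2 * k + 1 = 2 * j') := by omega
  rw [if_neg n1, if_neg n2, mul_zero, add_zero]
  rcases Nat.lt_or_ge j k with hjk | hjk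
  · have n3 : ¬ (2 * k = 2 * j) := by omega
    rw [if_neg n3, star_zero, zero_mul, add_zero]
    rcases Nat.lt_or_ge j' k with hjk' | hjk'
    · exact h2 j hjk j' hjk'
    · obtain rfl : j' = k := by omega
      rw [if_neg (by omega : ¬ j = j')]
      apply Finset.sum_eq_zero
      intro i hi
      rw [Finset.mem_range] at hi
      rw [hk, if_neg (by omega : ¬ i = 2 * j'), mul_zero]
  · obtain rfl : j = k := by omega
    have h0 : ∑ i ∈ Finset.range (2 * j), star (A.1 i j) * A.1 i j' = 0 := by
      apply Finset.sum_eq_zero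
      intro i hi
      rw [Finset.mem_range] at hi
      rw [hk, if_neg (by omega : ¬ i = 2 * j), star_zero, zero_mul]
    rw [h0, if_pos rfl, star_one, one_mul, zero_add]
    by_cases h : j = j'
    · rw [if_pos h, if_pos (by omega)]
    · rw [if_neg h, if_neg (by omega)]⟩

/-- The block sum `B ⊕ A : ℂ^k ⊕ ℂ^l → ℂ^(2k) ⊕ ℂ^(2l)`. -/
def Frame.sum {k l : ℕ} (B : Frame k) (A : Frame l) : Frame (k + l) :=
  ⟨fun i j => if j < k then B.1 i j else if i < 2 * k then 0 else A.1 (i - 2 * k) (j - k), by
    obtain ⟨b1, b2⟩ := B.2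
    obtain ⟨a1, a2⟩ := A.2
    refine ⟨fun i j h => ?_, fun j hj j' hj' => ?_⟩
    · dsimp only
      by_cases h1 : j < k
      · rw [if_pos h1]
        exact b1 i j (by omega)
      · rw [if_neg h1]
        by_cases h2 : i < 2 * k
        · rw [if_pos h2, if_neg (by omega)]
        · rw [if_neg h2, a1 (i - 2 * k) (j - k) (by omega)]
          by_cases h3 : i = 2 * j
          · rw [if_pos h3, if_pos (by omega)]
          · rw [if_neg h3, if_neg (by omega)]
    · rw [show 2 * (k + l) = 2 * k + 2 * l by ring, Finset.sum_range_add]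
      dsimp only
      have hlow : ∀ j < k, ∀ x, B.1 (2 * k + x) j = 0 := by
        intro j hj x
        rw [b1 _ _ (Or.inl (by omega)), if_neg (by omega)]
      by_cases h1 : j < k
      · have e1 : ∑ x ∈ Finset.range (2 * l), star (if j < k then B.1 (2 * k + x) j else
            if 2 * k + x < 2 * k then 0 else A.1 (2 * k + x - 2 * k) (j - k)) *
            (if j' < k then B.1 (2 * k + x) j' else
            if 2 * k + x < 2 * k then 0 else A.1 (2 * k + x - 2 * k) (j' - k)) = 0 := by
          apply Finset.sum_eq_zero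
          intro x _
          rw [if_pos h1, hlow j h1, star_zero, zero_mul]
        rw [e1, add_zero]
        by_cases h2 : j' < k
        · rw [← b2 j h1 j' h2]
          refine Finset.sum_congr rfl (fun x _ => ?_)
          rw [if_pos h1, if_pos h2]
        · rw [if_neg (by omega : ¬ j = j')]
          apply Finset.sum_eq_zero
          intro x hx
          rw [Finset.mem_range] at hx
          rw [if_pos h1, if_neg h2, if_pos hx, mul_zero]
      · have e1 : ∑ x ∈ Finset.range (2 * k), star (if j < k then B.1 x j else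
            if x < 2 * k then 0 else A.1 (x - 2 * k) (j - k)) *
            (if j' < k then B.1 x j' else
            if x < 2 * k then 0 else A.1 (x - 2 * k) (j' - k)) = 0 := by
          apply Finset.sum_eq_zero
          intro x hx
          rw [Finset.mem_range] at hx
          rw [if_neg h1, if_pos hx, star_zero, zero_mul]
        rw [e1, zero_add]
        by_cases h2 : j' < k
        · rw [if_neg (by omega : ¬ j = j')]
          apply Finset.sum_eq_zero
          intro x _
          rw [if_pos h2, hlow j' h2, mul_zero]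
        · have e2 : (if j = j' then (1 : ℂ) else 0) = if j - k = j' - k then 1 else 0 := by
            by_cases h3 : j = j'
            · rw [if_pos h3, if_pos (by omega)]
            · rw [if_neg h3, if_neg (by omega)]
          rw [e2, ← a2 (j - k) (by omega) (j' - k) (by omega)]
          refine Finset.sum_congr rfl (fun x _ => ?_)
          rw [if_neg h1, if_neg h2, if_neg (by omega), Nat.add_sub_cancel_left]
          simp⟩

/-- `A` and `B = A g` for a unitary matrix `g ∈ U(k)` with determinant in `D`. -/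
def FrameRel (D : Set ℂ) (k : ℕ) (A B : Frame k) : Prop :=
  ∃ g ∈ Matrix.unitaryGroup (Fin k) ℂ, Matrix.det g ∈ D ∧
    ∀ (i : ℕ) (j : Fin k), B.1 i j = ∑ l : Fin k, A.1 i l * g l j

/-- The isometries `ℂ^k → ℂ^(2k)` modulo the unitary matrices with determinant in `D`. For
`D = ℂ` this is the Grassmannian `Gr_k(ℂ^(2k))`, for `D = {1}` the unit circle bundle of the
determinant line bundle over it (the subspaces with a unit vector in the determinant). -/
def Gr (D : Set ℂ) (k : ℕ) : Type := Quot (FrameRel D k)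

instance (D : Set ℂ) (k : ℕ) : TopologicalSpace (Gr D k) :=
  inferInstanceAs (TopologicalSpace (Quot _))

/-- The relation generated by `A ~ A g` and by the stabilisation `ℂ^k → ℂ^(k+1)`. -/
inductive BRel (D : Set ℂ) : (Σ k, Frame k) → (Σ k, Frame k) → Prop
  | rot {k : ℕ} {A B : Frame k} (h : FrameRel D k A B) : BRel D ⟨k, A⟩ ⟨k, B⟩
  | stab {k : ℕ} (A : Frame k) : BRel D ⟨k, A⟩ ⟨k + 1, A.incl⟩

/-- The colimit of the spaces `Gr D k`. -/
def BG (D : Set ℂ) : Type := Quot (BRel D)

instance (D : Set ℂ) : TopologicalSpace (BG D) := inferInstanceAs (TopologicalSpace (Quot _))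

/-- `BU = colim_k V_k(ℂ^(2k))/U(k)`. -/
abbrev BU : Type := BG Set.univ

/-- `BSU = colim_k V_k(ℂ^(2k))/SU(k)`. -/
abbrev BSU : Type := BG {1}

/-- Right multiplication of an isometry by a unitary matrix. -/
def Frame.rot {k : ℕ} (A : Frame k) (g : Matrix (Fin k) (Fin k) ℂ)
    (hg : g ∈ Matrix.unitaryGroup (Fin k) ℂ) : Frame k :=
  ⟨fun i j => if h : j < k then ∑ l : Fin k, A.1 i l * g l ⟨j, h⟩ else A.1 i j, by
    constructor
    · intro i j hij
      show (if h : j < k then ∑ l : Fin k, A.1 i l * g l ⟨j, h⟩ else A.1 i j) = _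
      by_cases h : j < k
      · rw [dif_pos h]
        have hi : 2 * k ≤ i := by omega
        rw [if_neg (by omega)]
        refine Finset.sum_eq_zero fun l _ => ?_
        rw [A.2.1 i l (Or.inl hi), if_neg (by have := l.2; omega), zero_mul]
      · rw [dif_neg h]
        exact A.2.1 i j hij
    · intro j hj j' hj'
      have h1 : star g * g = 1 := (Matrix.mem_unitaryGroup_iff').1 hg
      have h2 := congrFun (congrFun h1 ⟨j, hj⟩) ⟨j', hj'⟩
      rw [Matrix.mul_apply, Matrix.one_apply] at h2
      simp only [Fin.mk.injEq] at h2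
      rw [← h2]
      have e1 : ∀ i, star (∑ l : Fin k, A.1 i l * g l ⟨j, hj⟩) * ∑ l : Fin k, A.1 i l * g l ⟨j', hj'⟩
          = ∑ l : Fin k, ∑ l' : Fin k, (star (g l ⟨j, hj⟩) * g l' ⟨j', hj'⟩) *
            (star (A.1 i l) * A.1 i l') := by
        intro i
        rw [star_sum, Finset.sum_mul_sum]
        refine Finset.sum_congr rfl fun l _ => Finset.sum_congr rfl fun l' _ => ?_
        rw [star_mul']
        ring
      simp only [dif_pos hj, dif_pos hj', e1]
      rw [Finset.sum_comm]
      refine Finset.sum_congr rfl fun l _ => ?_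
      rw [Finset.sum_comm]
      rw [Finset.sum_eq_single l]
      · rw [← Finset.mul_sum, A.2.2 l l.2 l l.2, if_pos rfl, mul_one]
        rfl
      · intro l' _ hl'
        rw [← Finset.mul_sum, A.2.2 l l.2 l' l'.2, if_neg (fun h => hl' (Fin.ext h.symm)), mul_zero]
      · intro h
        exact absurd (Finset.mem_univ _) h⟩

theorem Frame.continuous_rot {k : ℕ} (g : Matrix (Fin k) (Fin k) ℂ)
    (hg : g ∈ Matrix.unitaryGroup (Fin k) ℂ) : Continuous fun A : Frame k => A.rot g hg := by
  refine Continuous.subtype_mk ?_ _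
  refine continuous_pi fun i => continuous_pi fun j => ?_
  by_cases h : j < k
  · simp only [dif_pos h]
    refine continuous_finsetSum _ fun l _ => Continuous.mul ?_ continuous_const
    exact (continuous_apply (l : ℕ)).comp ((continuous_apply i).comp continuous_subtype_val)
  · simp only [dif_neg h]
    exact (continuous_apply j).comp ((continuous_apply i).comp continuous_subtype_val)

theorem frameRel_iff {D : Set ℂ} {k : ℕ} {A B : Frame k} (h : FrameRel D k A B) :
    ∃ g, ∃ hg : g ∈ Matrix.unitaryGroup (Fin k) ℂ, Matrix.det g ∈ D ∧ B = A.rot g hg := by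
  obtain ⟨g, hg, hd, hB⟩ := h
  refine ⟨g, hg, hd, Subtype.ext (funext fun i => funext fun j => ?_)⟩
  show B.1 i j = if h : j < k then ∑ l : Fin k, A.1 i l * g l ⟨j, h⟩ else A.1 i j
  by_cases h : j < k
  · rw [dif_pos h]
    exact hB i ⟨j, h⟩
  · rw [dif_neg h, A.2.1 i j (Or.inr (by omega)), B.2.1 i j (Or.inr (by omega))]

theorem frameRel_rot {D : Set ℂ} {k : ℕ} (A : Frame k) (g : Matrix (Fin k) (Fin k) ℂ)
    (hg : g ∈ Matrix.unitaryGroup (Fin k) ℂ) (hd : Matrix.det g ∈ D) :
    FrameRel D k A (A.rot g hg) := by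
  refine ⟨g, hg, hd, fun i j => ?_⟩
  show (if h : (j : ℕ) < k then _ else _) = _
  rw [dif_pos j.2]

theorem Frame.rot_rot_star {k : ℕ} (A : Frame k) (g h : Matrix (Fin k) (Fin k) ℂ)
    (hg : g ∈ Matrix.unitaryGroup (Fin k) ℂ) (hh : h ∈ Matrix.unitaryGroup (Fin k) ℂ)
    (hgh : g * h = 1) : (A.rot g hg).rot h hh = A := by
  refine Subtype.ext (funext fun i => funext fun j => ?_)
  show (if h' : j < k then ∑ l : Fin k, (A.rot g hg).1 i l * h l ⟨j, h'⟩ else (A.rot g hg).1 i j) =
    A.1 i j
  by_cases hj : j < k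
  · rw [dif_pos hj]
    have e1 : ∀ l : Fin k, (A.rot g hg).1 i l = ∑ l' : Fin k, A.1 i l' * g l' l := by
      intro l
      show (if h' : (l : ℕ) < k then _ else _) = _
      rw [dif_pos l.2]
    simp only [e1, Finset.sum_mul]
    rw [Finset.sum_comm]
    have e2 : ∀ l' : Fin k, ∑ l : Fin k, A.1 i l' * g l' l * h l ⟨j, hj⟩ =
        A.1 i l' * (if l' = ⟨j, hj⟩ then 1 else 0) := by
      intro l'
      have := congrFun (congrFun hgh l') ⟨j, hj⟩
      rw [Matrix.mul_apply, Matrix.one_apply] at this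
      rw [← this, Finset.mul_sum]
      refine Finset.sum_congr rfl fun l _ => ?_
      ring
    simp only [e2]
    simp
  · rw [dif_neg hj]
    show (if h' : j < k then _ else _) = _
    rw [dif_neg hj]

/-- Equivalent isometries are exchanged by continuous maps that preserve all classes. -/
theorem eqvGen_maps {D : Set ℂ} {k : ℕ} {b a : Frame k} (h : Relation.EqvGen (FrameRel D k) b a) :
    (∃ f : Frame k → Frame k, Continuous f ∧ f a = b ∧
      ∀ c, Relation.EqvGen (FrameRel D k) (f c) c) ∧
    ∃ f : Frame k → Frame k, Continuous f ∧ f b = a ∧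
      ∀ c, Relation.EqvGen (FrameRel D k) (f c) c := by
  induction h with
  | rel x y h =>
    obtain ⟨g, hg, hd, rfl⟩ := frameRel_iff h
    have h1 : g * star g = 1 := (Matrix.mem_unitaryGroup_iff).1 hg
    have h2 : star g * g = 1 := (Matrix.mem_unitaryGroup_iff').1 hg
    have hs : star g ∈ Matrix.unitaryGroup (Fin k) ℂ :=
      (Matrix.mem_unitaryGroup_iff).2 (by rw [star_star]; exact h2)
    refine ⟨⟨fun A => A.rot (star g) hs, Frame.continuous_rot _ _,
      Frame.rot_rot_star _ _ _ _ _ h1, fun c => ?_⟩, fun A => A.rot g hg,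
      Frame.continuous_rot _ _, rfl, fun c => ?_⟩
    · refine Relation.EqvGen.rel _ _ ?_
      have := frameRel_rot (D := D) (c.rot (star g) hs) g hg hd
      rwa [Frame.rot_rot_star _ _ _ _ _ h2] at this
    · exact Relation.EqvGen.symm _ _ (Relation.EqvGen.rel _ _ (frameRel_rot c g hg hd))
  | refl x => exact ⟨⟨id, continuous_id, rfl, fun c => .refl c⟩, id, continuous_id, rfl,
      fun c => .refl c⟩
  | symm x y _ ih => exact ⟨ih.2, ih.1⟩
  | trans x y z _ _ ih1 ih2 =>
    obtain ⟨⟨f1, c1, p1, q1⟩, f2, c2, p2, q2⟩ := ih1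
    obtain ⟨⟨g1, d1, r1, s1⟩, g2, d2, r2, s2⟩ := ih2
    refine ⟨⟨f1 ∘ g1, c1.comp d1, ?_, fun c => ?_⟩, g2 ∘ f2, d2.comp c2, ?_, fun c => ?_⟩
    · rw [Function.comp_apply, r1, p1]
    · exact Relation.EqvGen.trans _ _ _ (q1 (g1 c)) (s1 c)
    · rw [Function.comp_apply, p2, r2]
    · exact Relation.EqvGen.trans _ _ _ (s2 (f2 c)) (q2 c)

/-- The projection `Frame k → Gr D k` is open. -/
theorem isOpenQuotientMap_gr (D : Set ℂ) (k : ℕ) :
    IsOpenQuotientMap (Quot.mk (FrameRel D k) : Frame k → Gr D k) := by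
  refine ⟨Quot.mk_surjective, continuous_quot_mk, ?_⟩
  intro O hO
  show IsOpen (Quot.mk (FrameRel D k) ⁻¹' (Quot.mk (FrameRel D k) '' O))
  rw [isOpen_iff_forall_mem_open]
  rintro a ⟨b, hb, hab⟩
  obtain ⟨⟨f, hf, hfa, hfc⟩, -⟩ := eqvGen_maps (Quot.eqvGen_exact hab)
  refine ⟨f ⁻¹' O, fun c hc => ?_, hO.preimage hf, ?_⟩
  · exact ⟨f c, hc, Quot.eqvGen_sound (hfc c)⟩
  · show f a ∈ O
    rwa [hfa]

theorem toBG_continuous (D : Set ℂ) (k : ℕ) (F : Gr D k → BG D)
    (hF : ∀ A : Frame k, F (Quot.mk _ A) = Quot.mk _ ⟨k, A⟩) : Continuous F := by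
  refine (isOpenQuotientMap_gr D k).continuous_comp_iff.1 ?_
  have h1 : F ∘ (Quot.mk (FrameRel D k) : Frame k → Gr D k) =
      fun A => (Quot.mk (BRel D) ⟨k, A⟩ : BG D) := funext hF
  have h2 : Continuous fun A : Frame k => (Quot.mk (BRel D) ⟨k, A⟩ : BG D) :=
    continuous_quot_mk.comp continuous_sigmaMk
  exact h2.congr fun A => (congrFun h1 A).symm

/-- The map from a stage to the colimit. -/
def toBG (D : Set ℂ) (k : ℕ) : C(Gr D k, BG D) :=
  ⟨Quot.lift (fun A => Quot.mk _ ⟨k, A⟩) (fun _ _ h => Quot.sound (.rot h)),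
    toBG_continuous D k _ fun _ => rfl⟩

/-- The base points. -/
def Gr.pt (D : Set ℂ) (k : ℕ) : Gr D k := Quot.mk _ (Frame.std k)

/-- The base point of `BU` or `BSU`. -/
def BG.pt (D : Set ℂ) : BG D := Quot.mk _ ⟨0, Frame.std 0⟩

/-- `Frame k` is compact. -/
instance instCompactFrame (k : ℕ) : CompactSpace (Frame k) := by
  have h1 : IsCompact {A : ℕ → ℕ → ℂ | ∀ i, A i ∈ {a : ℕ → ℂ | ∀ j, a j ∈
      Metric.closedBall (0 : ℂ) 1}} :=
    isCompact_pi_infinite fun _ => isCompact_pi_infinite fun _ => isCompact_closedBall 0 1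
  have h2 : IsClosed {A : ℕ → ℕ → ℂ |
      (∀ i j, (2 * k ≤ i ∨ k ≤ j) → A i j = if i = 2 * j then 1 else 0) ∧
      ∀ j < k, ∀ j' < k, ∑ i ∈ Finset.range (2 * k), star (A i j) * A i j' =
        if j = j' then 1 else 0} := by
    have c : ∀ i j : ℕ, Continuous fun A : ℕ → ℕ → ℂ => A i j := fun i j =>
      (continuous_apply j).comp (continuous_apply i)
    refine IsClosed.and ?_ ?_
    · simp only [ofPred_forall]
      refine isClosed_iInter fun i => isClosed_iInter fun j => isClosed_iInter fun _ =>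
        isClosed_eq (c i j) continuous_const
    · simp only [ofPred_forall]
      refine isClosed_iInter fun j => isClosed_iInter fun _ => isClosed_iInter fun j' =>
        isClosed_iInter fun _ => isClosed_eq ?_ continuous_const
      exact continuous_finsetSum _ fun i _ => (continuous_star.comp (c i j)).mul (c i j')
  refine isCompact_iff_compactSpace.1 (h1.of_isClosed_subset h2 ?_)
  rintro A ⟨hA1, hA2⟩ i j
  rw [mem_closedBall_zero_iff]
  by_cases h : 2 * k ≤ i ∨ k ≤ j
  · rw [hA1 i j h]
    split_ifs <;> simp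
  · push Not at h
    have h3 := hA2 j h.2 j h.2
    rw [if_pos rfl] at h3
    have h4 : ∀ i, star (A i j) * A i j = ((‖A i j‖ ^ 2 : ℝ) : ℂ) := by
      intro i
      rw [Complex.star_def, ← Complex.normSq_eq_conj_mul_self, Complex.normSq_eq_norm_sq]
    simp only [h4] at h3
    rw [← Complex.ofReal_sum] at h3
    have h5 : ∑ i ∈ Finset.range (2 * k), ‖A i j‖ ^ 2 = 1 := by exact_mod_cast h3
    have h6 : ‖A i j‖ ^ 2 ≤ 1 := by
      rw [← h5]
      exact Finset.single_le_sum (f := fun i => ‖A i j‖ ^ 2) (fun _ _ => by positivity)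
        (Finset.mem_range.2 h.1)
    nlinarith [norm_nonneg (A i j)]

instance instT2Frame (k : ℕ) : T2Space (Frame k) := inferInstanceAs (T2Space (Subtype _))

theorem Frame.sum_castAdd {k l : ℕ} (B : Frame k) (A : Frame l) (i : ℕ) (m : Fin k) :
    (B.sum A).1 i (Fin.castAdd l m : Fin (k + l)) = B.1 i m := by
  show (if ((Fin.castAdd l m : Fin (k + l)) : ℕ) < k then _ else _) = _
  rw [Fin.val_castAdd, if_pos m.2]

theorem Frame.sum_natAdd {k l : ℕ} (B : Frame k) (A : Frame l) (i : ℕ) (m : Fin l) :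
    (B.sum A).1 i (Fin.natAdd k m : Fin (k + l)) = if i < 2 * k then 0 else A.1 (i - 2 * k) m := by
  show (if ((Fin.natAdd k m : Fin (k + l)) : ℕ) < k then _ else _) = _
  rw [Fin.val_natAdd, if_neg (by omega)]
  show (if i < 2 * k then 0 else A.1 (i - 2 * k) (k + m - k)) = _
  rw [Nat.add_sub_cancel_left]

/-- The block sum of two unitary matrices. -/
theorem blocks_unitary {k l : ℕ} {g : Matrix (Fin k) (Fin k) ℂ} {h : Matrix (Fin l) (Fin l) ℂ}
    (hg : g ∈ Matrix.unitaryGroup (Fin k) ℂ) (hh : h ∈ Matrix.unitaryGroup (Fin l) ℂ) :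
    Matrix.reindex finSumFinEquiv finSumFinEquiv (Matrix.fromBlocks g 0 0 h) ∈
      Matrix.unitaryGroup (Fin (k + l)) ℂ := by
  rw [Matrix.mem_unitaryGroup_iff]
  have h1 : g * star g = 1 := (Matrix.mem_unitaryGroup_iff).1 hg
  have h2 : h * star h = 1 := (Matrix.mem_unitaryGroup_iff).1 hh
  rw [Matrix.star_eq_conjTranspose, Matrix.conjTranspose_reindex, Matrix.reindex_apply,
    Matrix.reindex_apply, Matrix.submatrix_mul_equiv, Matrix.fromBlocks_conjTranspose,
    Matrix.fromBlocks_multiply]
  rw [← Matrix.star_eq_conjTranspose, ← Matrix.star_eq_conjTranspose, h1, h2]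
  simp

/-- The direct sum of two rotated isometries. -/
theorem frameRel_sum {D : Set ℂ} {k l : ℕ} {B B' : Frame k} {A A' : Frame l}
    {g : Matrix (Fin k) (Fin k) ℂ} {h : Matrix (Fin l) (Fin l) ℂ}
    (hg : g ∈ Matrix.unitaryGroup (Fin k) ℂ) (hh : h ∈ Matrix.unitaryGroup (Fin l) ℂ)
    (hd : Matrix.det g * Matrix.det h ∈ D)
    (hB : ∀ (i : ℕ) (j : Fin k), B'.1 i j = ∑ m : Fin k, B.1 i m * g m j)
    (hA : ∀ (i : ℕ) (j : Fin l), A'.1 i j = ∑ m : Fin l, A.1 i m * h m j) :
    FrameRel D (k + l) (B.sum A) (B'.sum A') := by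
  refine ⟨Matrix.reindex finSumFinEquiv finSumFinEquiv (Matrix.fromBlocks g 0 0 h),
    blocks_unitary hg hh, ?_, fun i j => ?_⟩
  · rw [Matrix.det_reindex_self, Matrix.det_fromBlocks_zero₂₁]
    exact hd
  · rw [Fin.sum_univ_add]
    refine Fin.addCases (fun j0 => ?_) (fun j0 => ?_) j
    · rw [Frame.sum_castAdd, hB]
      simp only [Frame.sum_castAdd, Matrix.reindex_apply, Matrix.submatrix_apply,
        finSumFinEquiv_symm_apply_castAdd, finSumFinEquiv_symm_apply_natAdd,
        Matrix.fromBlocks_apply₁₁, Matrix.fromBlocks_apply₂₁, Matrix.zero_apply, mul_zero,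
        Finset.sum_const_zero, add_zero]
    · rw [Frame.sum_natAdd]
      simp only [Frame.sum_natAdd, Matrix.reindex_apply, Matrix.submatrix_apply,
        finSumFinEquiv_symm_apply_castAdd, finSumFinEquiv_symm_apply_natAdd,
        Matrix.fromBlocks_apply₁₂, Matrix.fromBlocks_apply₂₂, Matrix.zero_apply, mul_zero,
        Finset.sum_const_zero, zero_add]
      by_cases hi : i < 2 * k
      · simp only [if_pos hi, zero_mul, Finset.sum_const_zero]
      · simp only [if_neg hi]
        exact hA _ _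

theorem act_wd₁ (D : Set ℂ) {k : ℕ} (B : Frame k) (A A' : Σ l, Frame l) (h : BRel D A A') :
    (Quot.mk (BRel D) ⟨k + A.1, B.sum A.2⟩ : BG D) = Quot.mk (BRel D) ⟨k + A'.1, B.sum A'.2⟩ := by
  cases h with
  | rot h =>
    obtain ⟨g, hg, hd, hA⟩ := h
    refine Quot.sound (.rot (frameRel_sum (g := 1) (h := g) (one_mem _) hg ?_ (fun i j => ?_) hA))
    · rwa [Matrix.det_one, one_mul]
    · simp [Matrix.one_apply]
  | stab A => exact Quot.sound (.stab (B.sum A))

theorem act_wd₂ (D : Set ℂ) {k : ℕ} (B B' : Frame k) (h : FrameRel D k B B')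
    (A : Σ l, Frame l) :
    (Quot.mk (BRel D) ⟨k + A.1, B.sum A.2⟩ : BG D) = Quot.mk (BRel D) ⟨k + A.1, B'.sum A.2⟩ := by
  obtain ⟨g, hg, hd, hB⟩ := h
  refine Quot.sound (.rot (frameRel_sum (g := g) (h := 1) hg (one_mem _) ?_ hB (fun i j => ?_)))
  · rwa [Matrix.det_one, mul_one]
  · simp [Matrix.one_apply]

theorem Frame.continuous_sum (k l : ℕ) :
    Continuous fun p : Frame l × Frame k => p.2.sum p.1 := by
  refine Continuous.subtype_mk ?_ _
  refine continuous_pi fun i => continuous_pi fun j => ?_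
  have c1 : ∀ i j : ℕ, Continuous fun p : Frame l × Frame k => p.2.1 i j := fun i j =>
    (continuous_apply j).comp ((continuous_apply i).comp
      (continuous_subtype_val.comp continuous_snd))
  have c2 : ∀ i j : ℕ, Continuous fun p : Frame l × Frame k => p.1.1 i j := fun i j =>
    (continuous_apply j).comp ((continuous_apply i).comp
      (continuous_subtype_val.comp continuous_fst))
  by_cases h1 : j < k
  · simp only [if_pos h1]
    exact c1 i j
  · simp only [if_neg h1]
    by_cases h2 : i < 2 * k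
    · simp only [if_pos h2]
      exact continuous_const
    · simp only [if_neg h2]
      exact c2 _ _

/-- The curried form of the direct sum. -/
def actC (D : Set ℂ) (k : ℕ) (l : ℕ) : C(Frame l, C(Frame k, BG D)) :=
  ContinuousMap.curry ⟨fun p : Frame l × Frame k => (Quot.mk (BRel D) ⟨k + l, p.2.sum p.1⟩ : BG D),
    continuous_quot_mk.comp (continuous_sigmaMk.comp (Frame.continuous_sum k l))⟩

/-- The curried form of the direct sum on `BG D`. -/
def actB (D : Set ℂ) (k : ℕ) : C(BG D, C(Frame k, BG D)) :=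
  ⟨Quot.lift (fun A : Σ l, Frame l => actC D k A.1 A.2)
    (fun A A' h => ContinuousMap.ext fun B => act_wd₁ D B A A' h),
    continuous_quot_lift _ (continuous_sigma fun l => (actC D k l).continuous)⟩

theorem act_continuous (D : Set ℂ) (k : ℕ) (F : Gr D k × BG D → BG D)
    (hF : ∀ (B : Frame k) (A : Σ l, Frame l),
      F (Quot.mk _ B, Quot.mk _ A) = Quot.mk _ ⟨k + A.1, B.sum A.2⟩) : Continuous F := by
  have h : IsOpenQuotientMap (Prod.map (Quot.mk (FrameRel D k) : Frame k → Gr D k)
      (id : BG D → BG D)) := (isOpenQuotientMap_gr D k).prodMap IsOpenQuotientMap.id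
  refine h.continuous_comp_iff.1 ?_
  have h1 : F ∘ Prod.map (Quot.mk (FrameRel D k) : Frame k → Gr D k) id =
      fun p : Frame k × BG D => actB D k p.2 p.1 := by
    funext ⟨B, x⟩
    induction x using Quot.ind with
    | mk A => exact hF B A
  have h2 : Continuous fun p : Frame k × BG D => actB D k p.2 p.1 :=
    (ContinuousMap.continuous_uncurry_of_continuous (actB D k)).comp continuous_swap
  exact h2.congr fun p => (congrFun h1 p).symm

/-- The direct sum `Gr D k × BG D → BG D`. -/
def act (D : Set ℂ) (k : ℕ) : C(Gr D k × BG D, BG D) :=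
  ⟨fun x => Quot.lift (fun B => Quot.lift (fun A : Σ l, Frame l =>
      (Quot.mk _ ⟨k + A.1, B.sum A.2⟩ : BG D)) (act_wd₁ D B) x.2) (fun B B' h => by
        obtain ⟨x1, x2⟩ := x
        induction x2 using Quot.ind with
        | mk A => exact act_wd₂ D B B' h A) x.1, act_continuous D k _ fun _ _ => rfl⟩

/-! ## Multiplication by the reduced class of a map `S^d → Gr D k` -/

/-- `min(2t, 2-2t) · ∏ min(1, 4 u_i, 4(1-u_i))`, as a point of `I^1`. -/
def height {d : ℕ} (c : Fin (d + 1) → I) : Fin 1 → I := fun _ =>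
  Set.projIcc 0 1 zero_le_one (min (2 * (c 0 : ℝ)) (2 - 2 * c 0) *
    ∏ i : Fin d, min 1 (min (4 * (c i.succ : ℝ)) (4 * (1 - c i.succ))))

/-- The inner cube `[1/4, 3/4]^d` is stretched to `I^d`, the rest goes to the boundary. -/
def stretch {d : ℕ} (c : Fin (d + 1) → I) : Fin d → I := fun i =>
  Set.projIcc 0 1 zero_le_one (2 * (c i.succ : ℝ) - 1 / 2)

theorem height_continuous {d : ℕ} : Continuous (height (d := d)) := by
  unfold height
  refine continuous_pi fun _ => continuous_projIcc.comp ?_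
  have h0 : ∀ j : Fin (d + 1), Continuous fun c : Fin (d + 1) → I => (c j : ℝ) := fun j =>
    continuous_subtype_val.comp (continuous_apply j)
  refine Continuous.mul ?_ ?_
  · exact ((continuous_const.mul (h0 0))).min (continuous_const.sub (continuous_const.mul (h0 0)))
  · refine continuous_finset_prod _ fun i _ => ?_
    exact continuous_const.min ((continuous_const.mul (h0 i.succ)).min
      (continuous_const.mul (continuous_const.sub (h0 i.succ))))

theorem stretch_continuous {d : ℕ} : Continuous (stretch (d := d)) := by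
  unfold stretch
  refine continuous_pi fun i => continuous_projIcc.comp ?_
  exact (continuous_const.mul (continuous_subtype_val.comp (continuous_apply i.succ))).sub
    continuous_const

theorem mk_eq_pt_of_boundary {r : ℕ} {X : Type} [TopologicalSpace X] (u : Fin r → I) (x : X)
    (h : u ∈ Cube.boundary (Fin r)) : Sph.mk u x = (Sph r X).pt :=
  (Quot.sound (SphRel.bd u x h)).symm

theorem mk_continuous_pair {r : ℕ} {X Y : Type} [TopologicalSpace X] [TopologicalSpace Y]
    {u : Y → Fin r → I} {x : Y → X} (hu : Continuous u) (hx : Continuous x) :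
    Continuous fun y => Sph.mk (u y) (x y) :=
  continuous_quot_mk.comp (continuous_inr.comp (hu.prodMk hx))

theorem height_mem_boundary {d : ℕ} (u : Fin (d + 1) → I) (hu : u ∈ Cube.boundary (Fin (d + 1))) :
    height u ∈ Cube.boundary (Fin 1) := by
  have key : (min (2 * (u 0 : ℝ)) (2 - 2 * u 0) *
      ∏ i : Fin d, min 1 (min (4 * (u i.succ : ℝ)) (4 * (1 - u i.succ)))) = 0 := by
    obtain ⟨i, hi⟩ := hu
    refine Fin.cases (fun h => ?_) (fun j h => ?_) i hi
    · rcases h with h | h
      · rw [h]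
        simp
      · rw [h]
        simp
    · rw [mul_eq_zero]
      right
      refine Finset.prod_eq_zero (Finset.mem_univ j) ?_
      rcases h with h | h
      · rw [h]
        simp
      · rw [h]
        simp
  refine ⟨0, Or.inl ?_⟩
  unfold height
  rw [key]
  exact Set.projIcc_left (zero_le_one' ℝ)

theorem height_or_stretch {d : ℕ} (c : Fin (d + 1) → I) (hc : (c 0 : ℝ) = 1 / 2) :
    height c ∈ Cube.boundary (Fin 1) ∨ stretch c ∈ Cube.boundary (Fin d) := by
  by_cases h : stretch c ∈ Cube.boundary (Fin d)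
  · exact Or.inr h
  · left
    have h1 : ∀ i : Fin d, min 1 (min (4 * (c i.succ : ℝ)) (4 * (1 - c i.succ))) = 1 := by
      intro i
      have h2 : ¬ (stretch c i = 0 ∨ stretch c i = 1) := fun h3 => h ⟨i, h3⟩
      rw [not_or] at h2
      have h3 : 1 / 4 < (c i.succ : ℝ) := by
        by_contra h4
        apply h2.1
        unfold stretch
        exact Set.projIcc_of_le_left _ (by push Not at h4; linarith)
      have h4 : (c i.succ : ℝ) < 3 / 4 := by
        by_contra h5
        apply h2.2
        unfold stretch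
        exact Set.projIcc_of_right_le _ (by push Not at h5; linarith)
      rw [min_eq_left]
      rw [le_min_iff]
      constructor <;> linarith
    refine ⟨0, Or.inr ?_⟩
    unfold height
    rw [Finset.prod_congr rfl (fun i _ => h1 i), Finset.prod_const_one, hc]
    have h2 : min (2 * (1 / 2 : ℝ)) (2 - 2 * (1 / 2)) * 1 = 1 := by norm_num
    rw [h2]
    exact Set.projIcc_right (zero_le_one' ℝ)

theorem mulMap_continuous {d : ℕ} {Z B : Type} [TopologicalSpace Z] [TopologicalSpace B] {z : Z}
    (a : C(Z × B, B)) (f : GenLoop (Fin d) Z z) :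
    Continuous fun y : (Fin (d + 1) → I) × B => Sph.mk (height y.1)
      (a (if (y.1 0 : ℝ) ≤ 1 / 2 then f (stretch y.1) else z, y.2)) := by
  have e : (fun y : (Fin (d + 1) → I) × B => Sph.mk (height y.1)
      (a (if (y.1 0 : ℝ) ≤ 1 / 2 then f (stretch y.1) else z, y.2))) =
      fun y => if (y.1 0 : ℝ) ≤ 1 / 2 then Sph.mk (height y.1) (a (f (stretch y.1), y.2)) else
        Sph.mk (height y.1) (a (z, y.2)) := by
    funext y
    split_ifs <;> rfl
  rw [e]
  refine Continuous.if_le ?_ ?_ ?_ continuous_const ?_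
  · refine mk_continuous_pair (height_continuous.comp continuous_fst) (a.continuous.comp ?_)
    exact (f.1.continuous.comp (stretch_continuous.comp continuous_fst)).prodMk continuous_snd
  · refine mk_continuous_pair (height_continuous.comp continuous_fst) (a.continuous.comp ?_)
    exact continuous_const.prodMk continuous_snd
  · exact continuous_subtype_val.comp ((continuous_apply 0).comp continuous_fst)
  · intro y hy
    rcases height_or_stretch y.1 hy with h | h
    · rw [mk_eq_pt_of_boundary _ _ h, mk_eq_pt_of_boundary _ _ h]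
    · have h3 : f (stretch y.1) = z := f.2 _ h
      rw [h3]

/-- For `f : (I^d, ∂) → Gr D k` the self map of `S¹ ∧ BG₊` of degree `d` that represents
multiplication by the reduced class `[f] - [pt]`: in the suspension coordinate `c 0` first
`x ↦ f(u) ⊕ x` and then, in the opposite direction, `x ↦ pt ⊕ x`. Near the boundary of `I^d`,
where `f(u) = pt`, the loops `s ↦ s` followed by `s ↦ 1 - s` are contracted (`height`). -/
def mulMap {D : Set ℂ} {k d : ℕ} (f : GenLoop (Fin d) (Gr D k) (Gr.pt D k)) : SelfMap d (BG D) where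
  toFun := ⟨fun y => Sph.mk (height y.1)
    (act D k (if (y.1 0 : ℝ) ≤ 1 / 2 then f (stretch y.1) else Gr.pt D k, y.2)),
    mulMap_continuous (act D k) f⟩
  bd := fun u _ hu => mk_eq_pt_of_boundary _ _ (height_mem_boundary u hu)

/-! ## The generator of `π_2(BU)` and the periodic bordism spectrum -/

/-- The point of the closed unit disc given by a point of the square (the square is mapped
radially to the disc). -/
def disc (u : Fin 2 → I) : ℂ :=
  let v : ℂ := ⟨2 * (u 0 : ℝ) - 1, 2 * (u 1 : ℝ) - 1⟩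
  ((max |v.re| |v.im| / ‖v‖ : ℝ) : ℂ) * v

theorem norm_disc (u : Fin 2 → I) :
    ‖disc u‖ = max |2 * (u 0 : ℝ) - 1| |2 * (u 1 : ℝ) - 1| := by
  set v : ℂ := ⟨2 * (u 0 : ℝ) - 1, 2 * (u 1 : ℝ) - 1⟩ with hv
  have e : disc u = ((max |v.re| |v.im| / ‖v‖ : ℝ) : ℂ) * v := rfl
  have h0 : 0 ≤ max |v.re| |v.im| := le_trans (abs_nonneg _) (le_max_left _ _)
  have h : ‖disc u‖ = max |v.re| |v.im| := by
    rw [e, norm_mul, Complex.norm_real, Real.norm_eq_abs,
      abs_of_nonneg (div_nonneg h0 (norm_nonneg _))]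
    rcases eq_or_ne v 0 with h1 | h1
    · simp [h1]
    · exact div_mul_cancel₀ _ (norm_ne_zero_iff.mpr h1)
  rw [h]

theorem disc_le_one (u : Fin 2 → I) : ‖disc u‖ ≤ 1 := by
  rw [norm_disc]
  have h0 := (u 0).2
  have h1 := (u 1).2
  refine max_le (abs_le.mpr ⟨?_, ?_⟩) (abs_le.mpr ⟨?_, ?_⟩) <;> linarith [h0.1, h0.2, h1.1, h1.2]

theorem disc_bd (u : Fin 2 → I) (hu : u ∈ Cube.boundary (Fin 2)) : ‖disc u‖ = 1 := by
  refine le_antisymm (disc_le_one u) ?_
  rw [norm_disc]
  obtain ⟨i, hi⟩ := hu
  have key : |2 * (u i : ℝ) - 1| = 1 := by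
    rcases hi with h | h
    · rw [h]; norm_num
    · rw [h]; norm_num
  fin_cases i
  · exact le_trans key.ge (le_max_left _ _)
  · exact le_trans key.ge (le_max_right _ _)

theorem continuous_disc : Continuous disc := by
  rw [continuous_iff_continuousAt]
  intro u
  have hv : Continuous fun u : Fin 2 → I => (⟨2 * (u 0 : ℝ) - 1, 2 * (u 1 : ℝ) - 1⟩ : ℂ) := by
    have h2 : Continuous fun u : Fin 2 → I => (Complex.equivRealProdCLM.symm
        ((2 * (u 0 : ℝ) - 1, 2 * (u 1 : ℝ) - 1) : ℝ × ℝ) : ℂ) := by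
      refine Complex.equivRealProdCLM.symm.continuous.comp ?_
      fun_prop
    refine h2.congr fun u => ?_
    apply Complex.ext <;> simp
  rcases eq_or_ne (⟨2 * (u 0 : ℝ) - 1, 2 * (u 1 : ℝ) - 1⟩ : ℂ) 0 with h | h
  · have e : disc u = 0 := by
      have : ‖disc u‖ = 0 := by
        rw [norm_disc]
        have h1 := congrArg Complex.re h
        have h2 := congrArg Complex.im h
        simp only [Complex.zero_re, Complex.zero_im] at h1 h2
        rw [h1, h2]
        simp
      exact norm_eq_zero.mp this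
    unfold ContinuousAt
    rw [e]
    refine squeeze_zero_norm (a := fun u => max |2 * (u 0 : ℝ) - 1| |2 * (u 1 : ℝ) - 1|)
      (fun u => (norm_disc u).le) ?_
    have h3 : Continuous fun u : Fin 2 → I => max |2 * (u 0 : ℝ) - 1| |2 * (u 1 : ℝ) - 1| := by
      fun_prop
    have h4 := h3.tendsto u
    rwa [← norm_disc, e, norm_zero] at h4
  · have h1 : ContinuousAt (fun u : Fin 2 → I => (⟨2 * (u 0 : ℝ) - 1, 2 * (u 1 : ℝ) - 1⟩ : ℂ)) u :=
      hv.continuousAt
    refine ContinuousAt.mul ?_ h1
    refine Complex.continuous_ofReal.continuousAt.comp ?_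
    refine ContinuousAt.div ?_ h1.norm (norm_ne_zero_iff.mpr h)
    exact Continuous.continuousAt (by fun_prop)

theorem bottFrame_aux (u : Fin 2 → I) :
    (∀ i j : ℕ, (2 * 1 ≤ i ∨ 1 ≤ j) → (if j = 0 then (if i = 0 then disc u else if i = 1 then
      ((Real.sqrt (1 - ‖disc u‖ ^ 2) : ℝ) : ℂ) else 0) else if i = 2 * j then 1 else 0) =
      if i = 2 * j then (1 : ℂ) else 0) ∧
    ∀ j < 1, ∀ j' < 1, ∑ i ∈ Finset.range (2 * 1),
      star (if j = 0 then (if i = 0 then disc u else if i = 1 then
      ((Real.sqrt (1 - ‖disc u‖ ^ 2) : ℝ) : ℂ) else 0) else if i = 2 * j then 1 else 0) *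
      (if j' = 0 then (if i = 0 then disc u else if i = 1 then
      ((Real.sqrt (1 - ‖disc u‖ ^ 2) : ℝ) : ℂ) else 0) else if i = 2 * j' then 1 else 0) =
      if j = j' then (1 : ℂ) else 0 := by
  refine ⟨fun i j h => ?_, fun j hj j' hj' => ?_⟩
  · rcases Nat.eq_zero_or_pos j with rfl | hj
    · have hi : 2 ≤ i := by omega
      rw [if_pos rfl, if_neg (by omega), if_neg (by omega), if_neg (by omega)]
    · rw [if_neg (by omega)]
  · obtain rfl : j = 0 := by omega
    obtain rfl : j' = 0 := by omega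
    have h1 : 0 ≤ 1 - ‖disc u‖ ^ 2 := by
      have := disc_le_one u
      nlinarith [norm_nonneg (disc u)]
    simp only [mul_one, Finset.sum_range_succ, Finset.sum_range_zero, zero_add, if_true,
      one_ne_zero, if_false, RCLike.star_def]
    rw [Complex.conj_mul', Complex.conj_mul', Complex.norm_real, Real.norm_eq_abs,
      abs_of_nonneg (Real.sqrt_nonneg _), ← Complex.ofReal_pow, ← Complex.ofReal_pow,
      Real.sq_sqrt h1]
    push_cast
    ring

/-- The unit vector `(w, √(1 - |w|²)) ∈ ℂ²`, as an isometry `ℂ → ℂ²`. -/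
def bottFrame (u : Fin 2 → I) : Frame 1 :=
  ⟨fun i j => if j = 0 then (if i = 0 then disc u else if i = 1 then
      ((Real.sqrt (1 - ‖disc u‖ ^ 2) : ℝ) : ℂ) else 0) else if i = 2 * j then 1 else 0,
    bottFrame_aux u⟩

theorem continuous_bottFrame : Continuous bottFrame := by
  refine Continuous.subtype_mk ?_ _
  refine continuous_pi fun i => continuous_pi fun j => ?_
  have := continuous_disc
  split_ifs
  · exact this
  · fun_prop
  · exact continuous_const
  · exact continuous_const
  · exact continuous_const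

theorem bottFrame_bd (u : Fin 2 → I) (hu : u ∈ Cube.boundary (Fin 2)) :
    (Quot.mk _ (bottFrame u) : Gr Set.univ 1) = Gr.pt Set.univ 1 := by
  have h1 := disc_bd u hu
  refine (Quot.sound ⟨fun _ _ => disc u, ?_, mem_univ _, ?_⟩).symm
  · rw [Matrix.mem_unitaryGroup_iff']
    ext i j
    obtain rfl := Subsingleton.elim i 0
    obtain rfl := Subsingleton.elim j 0
    rw [Matrix.mul_apply]
    simp only [Finset.univ_unique, Fin.default_eq_zero, Finset.sum_singleton, Matrix.one_apply_eq,
      Matrix.star_apply, RCLike.star_def]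
    rw [Complex.conj_mul', h1]
    norm_num
  · intro i j
    obtain rfl := Subsingleton.elim j 0
    simp only [Finset.univ_unique, Fin.default_eq_zero, Finset.sum_singleton]
    show (if ((0 : Fin 1) : ℕ) = 0 then (if i = 0 then disc u else if i = 1 then
      ((Real.sqrt (1 - ‖disc u‖ ^ 2) : ℝ) : ℂ) else 0) else
      if i = 2 * ((0 : Fin 1) : ℕ) then 1 else 0) =
      (if i = 2 * ((0 : Fin 1) : ℕ) then (1 : ℂ) else 0) * disc u
    rw [if_pos (by rfl), h1]
    rcases Nat.eq_zero_or_pos i with rfl | hi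
    · simp
    · have : ¬ i = 2 * ((0 : Fin 1) : ℕ) := by simpa using hi.ne'
      rw [if_neg this, if_neg hi.ne', zero_mul]
      split_ifs <;> simp

/-- The Bott class `β : S² = ℂP¹ = Gr_1(ℂ²) → BU`: the lines spanned by `(w, √(1 - |w|²))`,
`|w| ≤ 1`; for `|w| = 1` this is the base point. -/
def bott : GenLoop (Fin 2) (Gr Set.univ 1) (Gr.pt Set.univ 1) :=
  ⟨⟨fun u => Quot.mk _ (bottFrame u), continuous_quot_mk.comp continuous_bottFrame⟩,
    fun u hu => bottFrame_bd u hu⟩

/-- `Σ^∞ BU₊[β⁻¹]`, the periodic complex bordism spectrum `MUP` (Snaith). -/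
def MUP : Prespectrum := tele (mulMap bott)

/-- `Σ^∞ BSU₊[x⁻¹]` for `x ∈ π_4(BSU)` represented by `f`. -/
def SBSU {k : ℕ} (f : GenLoop (Fin 4) (Gr {1} k) (Gr.pt {1} k)) : Prespectrum := tele (mulMap f)

theorem toBG_pt (D : Set ℂ) (k : ℕ) : toBG D k (Gr.pt D k) = BG.pt D := by
  show (Quot.mk _ ⟨k, Frame.std k⟩ : BG D) = BG.pt D
  induction k with
  | zero => rfl
  | succ k ih =>
    rw [← ih]
    exact (Quot.sound (BRel.stab (Frame.std k))).symm

/-- The image in `BG D` of a map to a stage. -/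
def toBGLoop {D : Set ℂ} {k d : ℕ} (f : GenLoop (Fin d) (Gr D k) (Gr.pt D k)) :
    GenLoop (Fin d) (BG D) (BG.pt D) :=
  ⟨(toBG D k).comp f.1, fun y hy => by
    rw [ContinuousMap.comp_apply, f.2 y hy, toBG_pt]⟩

/-- The class of a loop in a homotopy group. -/
def hclass {d : ℕ} {X : Type} [TopologicalSpace X] {x : X} (f : GenLoop (Fin d) X x) :
    HomotopyGroup (Fin d) X x := Quotient.mk _ f

/-- `f` generates `π_(d+1)(BG D)`. -/
def Generates {D : Set ℂ} {k d : ℕ} (f : GenLoop (Fin (d + 1)) (Gr D k) (Gr.pt D k)) : Prop :=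
  ∀ α : HomotopyGroup (Fin (d + 1)) (BG D) (BG.pt D), ∃ m : ℤ, α = hclass (toBGLoop f) ^ m

/-! ## The Brown–Peterson spectrum -/

/-- The Brown–Peterson spectrum at `p`: a `p`-local connective spectrum `B` with
`π_0(B) = ℤ_(p)` that is atomic (every endomorphism that is bijective on `π_0` is an
isomorphism), such that the `p`-localisation of periodic complex bordism is a wedge of a nonempty
family of even suspensions of `B`. The last property is Quillen's splitting of `MU_(p)`, for
Snaith's model `Σ^∞ BU₊[β⁻¹]` of periodic complex bordism; it is part of the definition. The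
spaces `B n` are required to be T₁ (every spectrum is isomorphic to one with this property), since
infinite wedges of non-T₁ spaces can have the wrong homotopy type. -/
structure IsBP (p : ℕ) (B : Prespectrum) : Prop where
  t1 : ∀ n, T1Space (B.sp n)
  plocal : ∀ a b, ∀ m ∈ primeTo p, Function.Bijective fun x : (piS a b).obj B => m • x
  conn : ∀ a b, a < b → ∀ x : (piS a b).obj B, x = 0
  bottom : ∃ u : (piS 0 0).obj B,
    IsLocalizedModule (primeTo p) (LinearMap.toSpanSingleton ℤ ((piS 0 0).obj B) u)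
  atomic : ∀ φ : spec B ⟶ spec B, IsIso ((piSHC 0 0).map φ) → IsIso φ
  bordism : ∃ (ι : Type) (_ : Nonempty ι) (n : ι → ℤ)
    (q : spec MUP ⟶ spec (wedge fun i => B.susp (2 * n i))), IsPLoc p q

/-- The statement of the theorem. -/
def MainStatement : Prop :=
  ∀ p : ℕ, p.Prime → ∀ B : Prespectrum, IsBP p B →
    ∀ (k : ℕ) (f : GenLoop (Fin 4) (Gr {1} k) (Gr.pt {1} k)), Generates f →
      ∃ (ι : Type) (n : ι → ℤ) (q : spec (SBSU f) ⟶ spec (wedge fun i => B.susp (2 * n i))),
        IsPLoc p q

/-- Uniqueness of the Brown–Peterson spectrum. -/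
def UniqueStatement : Prop :=
  ∀ p : ℕ, p.Prime → ∀ B B' : Prespectrum, IsBP p B → IsBP p B' → Nonempty (spec B ≅ spec B')

end Pool.Agent.Helper1.Stab
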