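import Pool.Agent.Helper68.Stab.StabEq
import Pool.Agent.Helper68.Stab.Susp
import Pool.Agent.Helper68.Stab.Wedge

/-! The interface between topology and the final derivation.

(I4-a) existence of the graded functor `hT Y` of a prespectrum and (I4-b) functoriality (`hP`):
`TopA.lean`; (I4-e) wedges: `Wedge.lean`; (I4-f) even suspensions: `Susp.lean`. -/

open CategoryTheory Topology Filter Set Opposite

noncomputable section

namespace Pool.Agent.Helper1.Stab

/-- A morphism of exact graded functors that is bijective on all `ℝ^a` is an isomorphism. -/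
theorem GF.isIso_of_spheres {G H : GF} (hG : G.Exact) (hH : H.Exact) (f : G ⟶ H)
    (h : ∀ b a, IsIso ((GF.ev b (Test.R a)).map f)) : IsIso f :=
  GF.isIso_of_spheres68 hG hH f h

/-- (I4-c) stable homotopy groups are the values on `ℝ^a` -/
theorem piS_iso (a b : ℕ) : ∃ a' b', Nonempty (piS a b ≅ hP ⋙ GF.ev b' (Test.R a')) :=
  piS_iso68 a b

/-- (I4-c') every value on `ℝ^a` is a stable homotopy group -/
theorem piS_iso' (a b : ℕ) : Nonempty (piS a (2 * b) ≅ hP ⋙ GF.ev b (Test.R a)) :=
  piS_iso68' a b

/-- (I4-d) a map of prespectra is a stable equivalence iff it is an isomorphism of graded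
functors -/
theorem stableEquiv_iff {X Y : Prespectrum} (φ : X ⟶ Y) : stableEquiv φ ↔ IsIso (hP.map φ) :=
  stableEquiv_iff68 φ

/-- the functor from spectra to graded functors -/
def hS : SHC ⥤ GF :=
  Localization.lift hP (fun _ _ φ h => (stableEquiv_iff φ).1 h) stableEquiv.Q

/-! ## Compact levels and localisations -/

/-- the even levels of `G` are one-point compactifications of test spaces -/
def IsCompactLevel (G : Prespectrum) : Prop :=
  ∀ j : ℕ, ∃ (K : LC) (_ : IsTest K) (e : G.sp (2 * j) ≃ₜ OnePoint K),
    e (G.sp (2 * j)).pt = OnePoint.infty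

/-- a morphism of graded functors is a localisation at a submonoid of the integers -/
def GF.IsLoc (S : Submonoid ℤ) {G H : GF} (q : G ⟶ H) : Prop :=
  ∀ (b : ℕ) (K : Test), IsLocalizedModule S ((GF.ev b K).map q).hom.toIntLinearMap

end Pool.Agent.Helper1.Stab
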