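import Pool.Agent.Helper1.Stab.Ori
import Pool.Agent.Helper1.Stab.Top
import Pool.Agent.Helper11.Stab.LocGF
import Pool.Agent.Helper47.Stab.CommB
import Pool.Agent.Helper69.Stab.SeqLim
import Pool.Agent.Helper67.Stab.RelD

/-! Telescopes of the multiplication with a class, and the theory `M ∧ S`. -/

open CategoryTheory Topology Filter Set Matrix Opposite

noncomputable section

namespace Pool.Agent.Helper1.Stab

/-! ## Telescopes -/

/-- iterated products `V^n` -/
def LC.ipow (V : LC) : ℕ → LC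
  | 0 => LC.point
  | n + 1 => V.prod (LC.ipow V n)

/-- multiplication with `x ∈ P(V, pt)`: `P(K, Z) → P(V × K, Z)` -/
def Biv.mulx (P : Biv) {V : LC} (x : P.Hom V LC.point) {K Z : LC} (y : P.Hom K Z) :
    P.Hom (V.prod K) Z :=
  P.comp (P.tens x K) (P.comp (P.J (PMap.ofHomeo (LC.lunit K))) y)

/-- the transition map of the telescope -/
def Biv.nextx (P : Biv) {V : LC} (x : P.Hom V LC.point) {K Z : LC} {n : ℕ}
    (y : P.Hom ((LC.ipow V n).prod K) Z) : P.Hom ((LC.ipow V (n + 1)).prod K) Z :=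
  P.comp (P.J (PMap.ofHomeo (K := (LC.ipow V (n + 1)).prod K) (L := V.prod ((LC.ipow V n).prod K))
    (Homeomorph.prodAssoc V (LC.ipow V n) K))) (P.mulx x y)

/-- the map `V^n × (ℂ × K) → ℂ × (V^n × K)` -/
def LC.frontC (A K : LC) : A.prod (LC.C.prod K) ≃ₜ LC.C.prod (A.prod K) where
  toFun x := (x.2.1, (x.1, x.2.2))
  invFun x := (x.2.1, (x.1, x.2.2))
  left_inv _ := rfl
  right_inv _ := rfl
  continuous_toFun := by fun_prop
  continuous_invFun := by fun_prop

/-- The graded functor `H^b(K) = colim_n P(V^n × K, ℂ^b)` along the multiplication with `x`. -/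
structure TeleGF (P : Biv) {V : LC} (x : P.Hom V LC.point) where
  H : GF
  cls : ∀ {b : ℕ} (n : ℕ) {K : Test}, P.Hom ((LC.ipow V n).prod K.obj) (Zb b) →
    ((H.h b).obj (op K) : Type)
  cls_add : ∀ {b n : ℕ} {K : Test} (y z : P.Hom ((LC.ipow V n).prod K.obj) (Zb b)),
    cls n (y + z) = cls n y + cls n z
  cls_next : ∀ {b n : ℕ} {K : Test} (y : P.Hom ((LC.ipow V n).prod K.obj) (Zb b)),
    cls (n + 1) (P.nextx x y) = cls n y
  surj : ∀ {b : ℕ} {K : Test} (t : (H.h b).obj (op K)) (N : ℕ), ∃ n ≥ N,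
    ∃ y : P.Hom ((LC.ipow V n).prod K.obj) (Zb b), t = cls n y
  eq_zero : ∀ {b n : ℕ} {K : Test} (y : P.Hom ((LC.ipow V n).prod K.obj) (Zb b)), cls n y = 0 →
    ∃ m : ℕ, (Nat.rec (motive := fun m => P.Hom ((LC.ipow V (n + m)).prod K.obj) (Zb b)) y
      (fun _ z => P.nextx x z) m) = 0
  map_cls : ∀ {b n : ℕ} {K L : Test} (φ : PMap K.obj L.obj.plus)
    (y : P.Hom ((LC.ipow V n).prod L.obj) (Zb b)),
    (H.h b).map (Quiver.Hom.op (X := K) (Y := L) (ObjectProperty.homMk φ.cls)) (cls n y) =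
      cls n (P.comp (P.J (PMap.ltens (LC.ipow V n) φ)) y)
  σ_cls : ∀ {b n : ℕ} {K : Test} (y : P.Hom ((LC.ipow V n).prod K.obj) (Zb b)),
    ((H.σ b).hom.app (op K)) (cls n y) =
      cls (b := b + 1) n (K := Test.cx.obj K)
        (P.comp (P.J (PMap.ofHomeo (LC.frontC (LC.ipow V n) K.obj))) (P.ltens LC.C y))

namespace TL69

open Helper69.Stab

variable (P : Biv) {V : LC} (x : P.Hom V LC.point)

/-- composition of maps -/
theorem JJ {A B C D : LC} (f : PMap A B.plus) (g : PMap B C.plus) (w : P.Hom C D) :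
    P.comp (P.J f) (P.comp (P.J g) w) = P.comp (P.J (g.comp f)) w := by
  rw [← P.assoc, ← P.J_comp]

/-- the associator -/
def ascH (V : LC) (n : ℕ) (K : LC) :
    PMap ((LC.ipow V (n + 1)).prod K) (V.prod ((LC.ipow V n).prod K)).plus :=
  PMap.ofHomeo (K := (LC.ipow V (n + 1)).prod K) (L := V.prod ((LC.ipow V n).prod K))
    (Homeomorph.prodAssoc V (LC.ipow V n) K)

theorem ascH_apply (V : LC) (n : ℕ) (K : LC) (v : V) (a : LC.ipow V n) (k : K) :
    ascH V n K ((v, a), k) = OnePoint.some (X := V.prod ((LC.ipow V n).prod K)) (v, (a, k)) :=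
  rfl

theorem nextx_eq {K Z : LC} {n : ℕ} (y : P.Hom ((LC.ipow V n).prod K) Z) :
    P.nextx x y = P.comp (P.J (ascH V n K)) (P.mulx x y) := rfl

/-- the unit homeomorphism is natural -/
theorem lunit_nat {K L Z : LC} (φ : PMap K L.plus) (y : P.Hom L Z) :
    P.comp (P.J (PMap.ofHomeo (LC.lunit K))) (P.comp (P.J φ) y) =
      P.comp (P.J (PMap.ltens LC.point φ)) (P.comp (P.J (PMap.ofHomeo (LC.lunit L))) y) := by
  rw [← P.assoc, ← P.assoc, ← P.J_comp, ← P.J_comp]
  congr 2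
  ext k
  change φ k.2 = (PMap.ofHomeo (LC.lunit L)).plus (smashPt LC.point L
    ((k.1 : OnePoint PUnit), φ k.2))
  rcases φ k.2 with _ | l <;> rfl

/-- multiplication with `x` is natural -/
theorem mulx_nat {K L Z : LC} (φ : PMap K L.plus) (y : P.Hom L Z) :
    P.mulx x (P.comp (P.J φ) y) = P.comp (P.J (PMap.ltens V φ)) (P.mulx x y) := by
  unfold Biv.mulx
  rw [lunit_nat, ← P.assoc, Helper39.Stab.tens_exch, P.assoc]

theorem assoc_nat {n : ℕ} {K L : LC} (φ : PMap K L.plus) :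
    (ascH V n L).comp (PMap.ltens (LC.ipow V (n + 1)) φ) =
      (PMap.ltens V (PMap.ltens (LC.ipow V n) φ)).comp (ascH V n K) := by
  ext ⟨⟨a, b⟩, k⟩
  change (ascH V n L).plus (smashPt (LC.ipow V (n + 1)) L
      (OnePoint.some (X := LC.ipow V (n + 1)) (a, b), φ k)) =
    smashPt V ((LC.ipow V n).prod L) ((a : OnePoint V), smashPt (LC.ipow V n) L
      ((b : OnePoint (LC.ipow V n)), φ k))
  rcases φ k with _ | l <;> rfl

/-- the transition map is natural -/
theorem nextx_nat {K L Z : LC} {n : ℕ} (φ : PMap K L.plus) (y : P.Hom ((LC.ipow V n).prod L) Z) :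
    P.nextx x (P.comp (P.J (PMap.ltens (LC.ipow V n) φ)) y) =
      P.comp (P.J (PMap.ltens (LC.ipow V (n + 1)) φ)) (P.nextx x y) := by
  rw [nextx_eq, nextx_eq, mulx_nat, JJ, JJ, assoc_nat]

theorem nextx_add {K Z : LC} {n : ℕ} (y z : P.Hom ((LC.ipow V n).prod K) Z) :
    P.nextx x (y + z) = P.nextx x y + P.nextx x z := by
  unfold Biv.nextx Biv.mulx
  rw [P.comp_add, P.comp_add, P.comp_add]

/-- the transition map and the suspension -/
theorem nextx_susp {K Z : LC} {n : ℕ} (y : P.Hom ((LC.ipow V n).prod K) Z) :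
    P.nextx x (P.comp (P.J (PMap.ofHomeo (LC.frontC (LC.ipow V n) K))) (P.ltens LC.C y)) =
      P.comp (P.J (PMap.ofHomeo (LC.frontC (LC.ipow V (n + 1)) K)))
        (P.ltens LC.C (P.nextx x y)) := by
  rw [nextx_eq, nextx_eq, mulx_nat, JJ]
  unfold Biv.mulx
  rw [P.ltens_J_comp, Helper39.Stab.ltens_comp, P.ltens_J_comp, Helper39.Stab.ltens_tens_nf,
    P.assoc, P.assoc, JJ, JJ, JJ]
  rfl

/-- the transition homomorphism -/
def nextH (K : LC) (b n : ℕ) : P.Hom ((LC.ipow V n).prod K) (Zb b) →+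
    P.Hom ((LC.ipow V (n + 1)).prod K) (Zb b) :=
  AddMonoidHom.mk' (fun y => P.nextx x y) (nextx_add P x)

/-- the value of the telescope -/
abbrev TV (K : LC) (b : ℕ) : Type :=
  SLim (fun n => P.Hom ((LC.ipow V n).prod K) (Zb b)) (nextH P x K b)

theorem pre_nat {K L : LC} (z : HMap K L.plus) (b n : ℕ)
    (y : P.Hom ((LC.ipow V n).prod L) (Zb b)) :
    P.pre (HMap.box (K := LC.ipow V (n + 1)) (L := LC.ipow V (n + 1))
      (PMap.id (LC.ipow V (n + 1))).cls z) (Zb b) (nextH P x L b n y) =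
      nextH P x K b n (P.pre (HMap.box (K := LC.ipow V n) (L := LC.ipow V n)
        (PMap.id (LC.ipow V n)).cls z) (Zb b) y) := by
  revert z
  refine HMap.ind fun φ => ?_
  exact (nextx_nat P x φ y).symm

/-- functoriality of the telescope -/
def tmap {K L : LC} (z : HMap K L.plus) (b : ℕ) : TV P x L b →+ TV P x K b :=
  SLim.map _ _ (fun n => P.pre (HMap.box (K := LC.ipow V n) (L := LC.ipow V n)
    (PMap.id (LC.ipow V n)).cls z) (Zb b)) (fun n y => pre_nat P x z b n y)

/-- the class of an element -/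
abbrev tof (K : LC) (b n : ℕ) (y : P.Hom ((LC.ipow V n).prod K) (Zb b)) : TV P x K b :=
  SLim.of (G := fun n => P.Hom ((LC.ipow V n).prod K) (Zb b)) (nextH P x K b) n y

theorem tmap_of {K L : LC} (z : HMap K L.plus) (b n : ℕ)
    (y : P.Hom ((LC.ipow V n).prod L) (Zb b)) :
    tmap P x z b (tof P x L b n y) = tof P x K b n (P.pre (HMap.box (K := LC.ipow V n)
      (L := LC.ipow V n) (PMap.id (LC.ipow V n)).cls z) (Zb b) y) :=
  SLim.map_of (G := fun n => P.Hom ((LC.ipow V n).prod L) (Zb b))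
    (H := fun n => P.Hom ((LC.ipow V n).prod K) (Zb b)) _ _ _ _ n y

theorem tof_surj {K : LC} {b : ℕ} (z : TV P x K b) (N : ℕ) : ∃ n ≥ N,
    ∃ y : P.Hom ((LC.ipow V n).prod K) (Zb b), z = tof P x K b n y :=
  SLim.of_surj (G := fun n => P.Hom ((LC.ipow V n).prod K) (Zb b)) _ z N

theorem tmap_id (K : LC) (b : ℕ) : tmap P x (PMap.id K).cls b = AddMonoidHom.id _ := by
  refine AddMonoidHom.ext fun y => ?_
  obtain ⟨n, -, y, rfl⟩ := tof_surj P x y 0
  rw [tmap_of, AddMonoidHom.id_apply]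
  refine congrArg (tof P x K b n) ?_
  change P.comp (P.JH (HMap.box (PMap.id _).cls (PMap.id _).cls)) y = y
  rw [HMap.box_cls, PMap.box_id]
  exact P.id_comp y

theorem tmap_comp {K L M : LC} (z : HMap L M.plus) (w : HMap K L.plus) (b : ℕ) :
    tmap P x (z.comp w) b = (tmap P x w b).comp (tmap P x z b) := by
  refine AddMonoidHom.ext fun y => ?_
  obtain ⟨n, -, y, rfl⟩ := tof_surj P x y 0
  rw [AddMonoidHom.comp_apply, tmap_of, tmap_of, tmap_of]
  refine congrArg (tof P x K b n) ?_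
  change P.comp (P.JH (HMap.box (PMap.id _).cls (HMap.comp z w))) y =
    P.comp (P.JH (HMap.box (PMap.id _).cls w)) (P.comp (P.JH (HMap.box (PMap.id _).cls z)) y)
  rw [← P.assoc, ← P.JH_comp]
  congr 2
  revert z w
  refine HMap.ind fun z => ?_
  refine HMap.ind fun w => ?_
  simp only [HMap.box_cls, HMap.comp_cls, ← PMap.box_comp, PMap.comp_id]

/-- the functor of a telescope -/
def tfun (b : ℕ) : Testᵒᵖ ⥤ AddCommGrpCat.{0} where
  obj K := AddCommGrpCat.of (TV P x K.unop.obj b)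
  map f := AddCommGrpCat.ofHom (tmap P x f.unop.hom b)
  map_id K := AddCommGrpCat.hom_ext (tmap_id P x K.unop.obj b)
  map_comp f g := AddCommGrpCat.hom_ext (tmap_comp P x f.unop.hom g.unop.hom b)

/-- the suspension at a stage -/
def tsus (K : LC) (b n : ℕ) : P.Hom ((LC.ipow V n).prod K) (Zb b) ≃+
    P.Hom ((LC.ipow V n).prod (LC.C.prod K)) (Zb (b + 1)) :=
  AddEquiv.ofBijective (AddMonoidHom.mk'
    (fun y => P.comp (P.J (PMap.ofHomeo (LC.frontC (LC.ipow V n) K))) (P.ltens LC.C y))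
    (fun y z => by rw [P.ltens_add, P.comp_add]))
    (((P.invP_homeo (LC.frontC (LC.ipow V n) K)).pre_bij P (M := LC.C.prod (Zb b))).comp
      (P.ltens_C_bijective ((LC.ipow V n).prod K) (Zb b)))

theorem tsus_next (K : LC) (b n : ℕ) (y : P.Hom ((LC.ipow V n).prod K) (Zb b)) :
    tsus P K b (n + 1) (nextH P x K b n y) =
      nextH P x (LC.C.prod K) (b + 1) n (tsus P K b n y) := (nextx_susp P x y).symm

/-- the suspension isomorphism -/
def tsig (K : LC) (b : ℕ) : TV P x K b ≃+ TV P x (LC.C.prod K) (b + 1) :=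
  SLim.congr (G := fun n => P.Hom ((LC.ipow V n).prod K) (Zb b))
    (H := fun n => P.Hom ((LC.ipow V n).prod (LC.C.prod K)) (Zb (b + 1)))
    (nextH P x K b) (nextH P x (LC.C.prod K) (b + 1)) (tsus P K b) (tsus_next P x K b)

theorem tsig_of (K : LC) (b n : ℕ) (y : P.Hom ((LC.ipow V n).prod K) (Zb b)) :
    tsig P x K b (tof P x K b n y) = tof P x (LC.C.prod K) (b + 1) n
      (P.comp (P.J (PMap.ofHomeo (LC.frontC (LC.ipow V n) K))) (P.ltens LC.C y)) :=
  SLim.congr_of (G := fun n => P.Hom ((LC.ipow V n).prod K) (Zb b))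
    (H := fun n => P.Hom ((LC.ipow V n).prod (LC.C.prod K)) (Zb (b + 1))) _ _ _ _ n y

theorem tsig_nat {K L : LC} (z : HMap K L.plus) (b : ℕ) (y : TV P x L b) :
    tsig P x K b (tmap P x z b y) =
      tmap P x (HMap.box (K := LC.C) (L := LC.C) (PMap.id LC.C).cls z) (b + 1)
        (tsig P x L b y) := by
  obtain ⟨n, -, y, rfl⟩ := tof_surj P x y 0
  rw [tmap_of, tsig_of, tsig_of, tmap_of]
  refine congrArg (tof P x (LC.C.prod K) (b + 1) n) ?_
  revert z
  refine HMap.ind fun φ => ?_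
  change P.comp (P.J (PMap.ofHomeo (LC.frontC (LC.ipow V n) K)))
    (P.ltens LC.C (P.comp (P.J (PMap.ltens (LC.ipow V n) φ)) y)) =
    P.comp (P.J (PMap.ltens (LC.ipow V n) (PMap.ltens LC.C φ)))
      (P.comp (P.J (PMap.ofHomeo (LC.frontC (LC.ipow V n) L))) (P.ltens LC.C y))
  rw [P.ltens_J_comp, JJ, JJ]
  congr 2
  ext ⟨a, c, k⟩
  change smashPt LC.C ((LC.ipow V n).prod L) (((c : ℂ) : OnePoint ℂ), smashPt (LC.ipow V n) L
    ((a : OnePoint (LC.ipow V n)), φ k)) =
    (PMap.ofHomeo (LC.frontC (LC.ipow V n) L)).plus (smashPt (LC.ipow V n) (LC.C.prod L)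
      ((a : OnePoint (LC.ipow V n)), smashPt LC.C L (((c : ℂ) : OnePoint ℂ), φ k)))
  rcases φ k with _ | l <;> rfl

/-- the graded functor of a telescope -/
def tgf : GF where
  h b := tfun P x b
  σ b := NatIso.ofComponents (fun K => (tsig P x K.unop.obj b).toAddCommGrpIso)
    (by
      intro X Y f
      exact AddCommGrpCat.hom_ext (AddMonoidHom.ext fun y => tsig_nat P x f.unop.hom b y))

end TL69

/-- (TE) telescopes exist -/
theorem exists_teleGF (P : Biv) {V : LC} (x : P.Hom V LC.point) : Nonempty (TeleGF P x) :=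
  ⟨{ H := TL69.tgf P x
     cls := fun {b} n {K} y => TL69.tof P x K.obj b n y
     cls_add := fun {b n K} y z => map_add (Helper69.Stab.SLim.of (TL69.nextH P x K.obj b) n) y z
     cls_next := fun {b n K} y => Helper69.Stab.SLim.of_next (TL69.nextH P x K.obj b) n y
     surj := fun t N => TL69.tof_surj P x t N
     eq_zero := fun {b _ K} _ h => Helper69.Stab.SLim.of_eq_zero (TL69.nextH P x K.obj b) h
     map_cls := fun {b n _ _} φ y => TL69.tmap_of P x φ.cls b n y
     σ_cls := fun {b n K} y => TL69.tsig_of P x K.obj b n y }⟩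

namespace TL69

open Helper69.Stab

variable {P : Biv} {V W : LC}

/-- the class maps are a direct limit -/
theorem isSeqLim {x : P.Hom V LC.point} (M : TeleGF P x) (b : ℕ) (K : Test) :
    IsSeqLim (nextH P x K.obj b) (A := ((M.H.h b).obj (op K) : Type))
      (fun n y => M.cls (b := b) n (K := K) y) where
  add _ y z := M.cls_add y z
  next _ y := M.cls_next y
  surj z := by
    obtain ⟨n, -, y, h⟩ := M.surj z 0
    exact ⟨n, y, h⟩
  zero y h := M.eq_zero y h

variable (φ : V ≃ₜ W)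

/-- the powers of a homeomorphism -/
def hpow : ∀ n, LC.ipow V n ≃ₜ LC.ipow W n
  | 0 => Homeomorph.refl _
  | n + 1 => Homeomorph.prodCongr φ (hpow n)

/-- the powers of a homeomorphism -/
def hpowK (n : ℕ) (K : LC) : (LC.ipow V n).prod K ≃ₜ (LC.ipow W n).prod K :=
  Homeomorph.prodCongr (hpow φ n) (Homeomorph.refl K)

variable (P) in
/-- pull back along the powers of a homeomorphism -/
def pb (n : ℕ) {K Z : LC} (y : P.Hom ((LC.ipow W n).prod K) Z) : P.Hom ((LC.ipow V n).prod K) Z :=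
  P.comp (P.J (PMap.ofHomeo (hpowK φ n K))) y

theorem pb_bij (n : ℕ) {K Z : LC} : Function.Bijective (pb P φ n (K := K) (Z := Z)) :=
  (P.invP_homeo (hpowK φ n K)).pre_bij P (M := Z)

theorem pb_add (n : ℕ) {K Z : LC} (y z : P.Hom ((LC.ipow W n).prod K) Z) :
    pb P φ n (y + z) = pb P φ n y + pb P φ n z := P.comp_add _ _ _

theorem mulx_homeo (x : P.Hom W LC.point) {K K' Z : LC} (e : K ≃ₜ K') (y : P.Hom K' Z) :
    P.mulx (P.comp (P.J (PMap.ofHomeo φ)) x) (P.comp (P.J (PMap.ofHomeo e)) y) =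
      P.comp (P.J (PMap.ofHomeo (K := V.prod K) (L := W.prod K') (Homeomorph.prodCongr φ e)))
        (P.mulx x y) := by
  rw [mulx_nat]
  unfold Biv.mulx
  rw [P.tens_comp, P.tens_J, P.assoc, JJ]
  rfl

theorem pb_next (x : P.Hom W LC.point) (n : ℕ) {K Z : LC} (y : P.Hom ((LC.ipow W n).prod K) Z) :
    pb P φ (n + 1) (P.nextx x y) =
      P.nextx (P.comp (P.J (PMap.ofHomeo φ)) x) (pb P φ n y) := by
  rw [nextx_eq, nextx_eq, pb, pb, mulx_homeo, JJ, JJ]
  rfl

theorem pb_map (n : ℕ) {K L Z : LC} (f : PMap K L.plus) (y : P.Hom ((LC.ipow W n).prod L) Z) :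
    pb P φ n (P.comp (P.J (PMap.ltens (LC.ipow W n) f)) y) =
      P.comp (P.J (PMap.ltens (LC.ipow V n) f)) (pb P φ n y) := by
  rw [pb, pb, JJ, JJ]
  congr 2
  ext ⟨a, k⟩
  change smashPt (LC.ipow W n) L ((hpow φ n a : OnePoint (LC.ipow W n)), f k) =
    (PMap.ofHomeo (hpowK φ n L)).plus (smashPt (LC.ipow V n) L ((a : OnePoint (LC.ipow V n)), f k))
  rcases f k with _ | l <;> rfl

theorem pb_susp (n : ℕ) {K Z : LC} (y : P.Hom ((LC.ipow W n).prod K) Z) :
    pb P φ n (P.comp (P.J (PMap.ofHomeo (LC.frontC (LC.ipow W n) K))) (P.ltens LC.C y)) =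
      P.comp (P.J (PMap.ofHomeo (LC.frontC (LC.ipow V n) K))) (P.ltens LC.C (pb P φ n y)) := by
  rw [pb, pb, P.ltens_J_comp, JJ, JJ]
  rfl

/-- Morphisms out of a telescope. -/
theorem exists_hom {x : P.Hom V LC.point} (M : TeleGF P x) (H : GF)
    (d : ∀ (b n : ℕ) (K : Test), P.Hom ((LC.ipow V n).prod K.obj) (Zb b) →
      ((H.h b).obj (op K) : Type))
    (hadd : ∀ b n K y z, d b n K (y + z) = d b n K y + d b n K z)
    (hnext : ∀ b n K y, d b (n + 1) K (P.nextx x y) = d b n K y)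
    (hmap : ∀ (b n : ℕ) (K L : Test) (f : PMap K.obj L.obj.plus)
      (y : P.Hom ((LC.ipow V n).prod L.obj) (Zb b)),
      (H.h b).map (Quiver.Hom.op (X := K) (Y := L) (ObjectProperty.homMk f.cls)) (d b n L y) =
        d b n K (P.comp (P.J (PMap.ltens (LC.ipow V n) f)) y))
    (hsus : ∀ (b n : ℕ) (K : Test) (y : P.Hom ((LC.ipow V n).prod K.obj) (Zb b)),
      ((H.σ b).hom.app (op K)) (d b n K y) = d (b + 1) n (Test.cx.obj K)
        (P.comp (P.J (PMap.ofHomeo (LC.frontC (LC.ipow V n) K.obj))) (P.ltens LC.C y))) :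
    ∃ F : M.H ⟶ H, ∀ (b n : ℕ) (K : Test) (y : P.Hom ((LC.ipow V n).prod K.obj) (Zb b)),
      (F.app b).app (op K) (M.cls n y) = d b n K y := by
  have h1 : ∀ (b : ℕ) (K : Test), ∃ F : ((M.H.h b).obj (op K) : Type) →+
      ((H.h b).obj (op K) : Type), ∀ (n : ℕ) (y : P.Hom ((LC.ipow V n).prod K.obj) (Zb b)),
      F (M.cls n y) = d b n K y := fun b K =>
    (isSeqLim M b K).exists_lift (B := ((H.h b).obj (op K) : Type))
      (d := fun n y => d b n K y) (fun n y z => hadd b n K y z) (fun n y => hnext b n K y)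
  choose F hF using h1
  let app : ∀ b, M.H.h b ⟶ H.h b := fun b =>
    { app := fun K => AddCommGrpCat.ofHom (F b K.unop)
      naturality := by
        intro K L f
        refine AddCommGrpCat.hom_ext (AddMonoidHom.ext fun z => ?_)
        obtain ⟨n, -, y, rfl⟩ := M.surj z 0
        obtain ⟨φ, hφ⟩ : ∃ φ : PMap L.unop.obj K.unop.obj.plus,
            f = (Quiver.Hom.op (X := L.unop) (Y := K.unop) (ObjectProperty.homMk φ.cls)) := by
          obtain ⟨f'⟩ := f
          obtain ⟨f'⟩ := f'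
          revert f'
          refine HMap.ind fun φ => ?_
          exact ⟨φ, rfl⟩
        subst hφ
        change F b L.unop ((M.H.h b).map _ (M.cls n y)) = (H.h b).map _ (F b K.unop (M.cls n y))
        have h2 := M.map_cls (b := b) (n := n) (K := L.unop) (L := K.unop) φ y
        have h3 := hmap b n L.unop K.unop φ y
        rw [hF]
        refine Eq.trans ?_ h3.symm
        rw [← hF]
        exact congrArg (F b L.unop) h2 }
  refine ⟨GF.Hom.mk' app fun b K => ?_, fun b n K y => hF b K n y⟩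
  refine AddCommGrpCat.hom_ext (AddMonoidHom.ext fun z => ?_)
  obtain ⟨n, -, y, rfl⟩ := M.surj z 0
  change F (b + 1) (Test.cx.obj K.unop) ((M.H.σ b).hom.app K (M.cls n y)) =
    (H.σ b).hom.app K (F b K.unop (M.cls n y))
  have h2 := M.σ_cls (b := b) (n := n) (K := K.unop) y
  rw [hF]
  refine Eq.trans ?_ (hsus b n K.unop y).symm
  rw [← hF]
  exact congrArg (F (b + 1) (Test.cx.obj K.unop)) h2

/-- Isomorphisms out of a telescope. -/
theorem exists_iso {x : P.Hom V LC.point} (M : TeleGF P x) (H : GF)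
    (d : ∀ (b n : ℕ) (K : Test), P.Hom ((LC.ipow V n).prod K.obj) (Zb b) →
      ((H.h b).obj (op K) : Type))
    (hd : ∀ b K, IsSeqLim (nextH P x K.obj b) (A := ((H.h b).obj (op K) : Type))
      (fun n y => d b n K y))
    (hmap : ∀ (b n : ℕ) (K L : Test) (f : PMap K.obj L.obj.plus)
      (y : P.Hom ((LC.ipow V n).prod L.obj) (Zb b)),
      (H.h b).map (Quiver.Hom.op (X := K) (Y := L) (ObjectProperty.homMk f.cls)) (d b n L y) =
        d b n K (P.comp (P.J (PMap.ltens (LC.ipow V n) f)) y))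
    (hsus : ∀ (b n : ℕ) (K : Test) (y : P.Hom ((LC.ipow V n).prod K.obj) (Zb b)),
      ((H.σ b).hom.app (op K)) (d b n K y) = d (b + 1) n (Test.cx.obj K)
        (P.comp (P.J (PMap.ofHomeo (LC.frontC (LC.ipow V n) K.obj))) (P.ltens LC.C y))) :
    Nonempty (M.H ≅ H) := by
  obtain ⟨F, hF⟩ := exists_hom M H d (fun b n K y z => (hd b K).add n y z)
    (fun b n K y => (hd b K).next n y) hmap hsus
  have : IsIso F := GF.isIso_of_bijective F fun b K =>
    (isSeqLim M b K.unop).bijective (hd b K.unop) (F := ((F.app b).app K).hom)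
      (fun n y => hF b n K.unop y)
  exact ⟨asIso F⟩

end TL69

/-! ## The localisation of a bivariant theory at a datum -/

/-- the transition maps of the localisation at a datum -/
def Datum.stabR (D : Datum) (R : Biv) {ι : Type} [Fintype ι] {K Z : LC}
    (y : R.Hom ((D.A ι).prod K) ((D.B ι).prod Z)) (κ : Type) [Fintype κ] :
    R.Hom ((D.A (ι ⊕ κ)).prod K) ((D.B (ι ⊕ κ)).prod Z) :=
  R.comp (R.J (PMap.ofHomeo (D.domH ι κ K)))
    (R.comp (R.comp (R.tens y (D.A κ)) (R.ltens ((D.B ι).prod Z) (R.J (D.shat κ))))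
      (R.comp (R.J (PMap.ofHomeo (LC.rr (D.B ι) Z (D.B κ)))) (R.tens (R.J (D.mulB ι κ)) Z)))

/-- reindexing -/
def Datum.reR (D : Datum) (R : Biv) {ι κ : Type} [Fintype ι] [Fintype κ] (e : ι ≃ κ) {K Z : LC}
    (y : R.Hom ((D.A ι).prod K) ((D.B ι).prod Z)) :
    R.Hom ((D.A κ).prod K) ((D.B κ).prod Z) :=
  R.comp (R.tens (R.J (PMap.ofHomeo (Datum.reA D e).symm)) K)
    (R.comp y (R.tens (R.J (PMap.ofHomeo (Datum.reB D e))) Z))

/-- The graded functor `H^b(K) = colim_ι R(A ι × K, B ι × ℂ^b)`. -/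
structure LocGF (R : Biv) (D : Datum) where
  H : GF
  cls : ∀ {b : ℕ} {ι : Type} [Fintype ι] {K : Test},
    R.Hom ((D.A ι).prod K.obj) ((D.B ι).prod (Zb b)) → ((H.h b).obj (op K) : Type)
  cls_add : ∀ {b : ℕ} {ι : Type} [Fintype ι] {K : Test}
    (y z : R.Hom ((D.A ι).prod K.obj) ((D.B ι).prod (Zb b))), cls (y + z) = cls y + cls z
  cls_stab : ∀ {b : ℕ} {ι : Type} [Fintype ι] {K : Test}
    (y : R.Hom ((D.A ι).prod K.obj) ((D.B ι).prod (Zb b))) (κ : Type) [Fintype κ],
    cls (D.stabR R y κ) = cls y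
  cls_re : ∀ {b : ℕ} {ι κ : Type} [Fintype ι] [Fintype κ] (e : ι ≃ κ) {K : Test}
    (y : R.Hom ((D.A ι).prod K.obj) ((D.B ι).prod (Zb b))), cls (D.reR R e y) = cls y
  surj : ∀ {b : ℕ} {K : Test} (t : (H.h b).obj (op K)) (N : ℕ), ∃ n ≥ N,
    ∃ y : R.Hom ((D.A (Fin n)).prod K.obj) ((D.B (Fin n)).prod (Zb b)), t = cls y
  eq_zero : ∀ {b : ℕ} {ι : Type} [Fintype ι] {K : Test}
    (y : R.Hom ((D.A ι).prod K.obj) ((D.B ι).prod (Zb b))), cls y = 0 →
    ∃ m : ℕ, D.stabR R y (Fin m) = 0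
  map_cls : ∀ {b : ℕ} {ι : Type} [Fintype ι] {K L : Test} (φ : PMap K.obj L.obj.plus)
    (y : R.Hom ((D.A ι).prod L.obj) ((D.B ι).prod (Zb b))),
    (H.h b).map (Quiver.Hom.op (X := K) (Y := L) (ObjectProperty.homMk φ.cls)) (cls y) =
      cls (R.comp (R.J (PMap.ltens (D.A ι) φ)) y)
  σ_cls : ∀ {b : ℕ} {ι : Type} [Fintype ι] {K : Test}
    (y : R.Hom ((D.A ι).prod K.obj) ((D.B ι).prod (Zb b))),
    ((H.σ b).hom.app (op K)) (cls y) =
      cls (b := b + 1) (K := Test.cx.obj K)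
        (R.comp (R.J (PMap.ofHomeo (LC.frontC (D.A ι) K.obj)))
          (R.comp (R.ltens LC.C y) (R.J (PMap.ofHomeo (LC.frontC (D.B ι) (Zb b)).symm))))

/-- (LE) the localisations exist -/
theorem exists_locGF (R : Biv) (D : Datum) : Nonempty (LocGF R D) :=
  let N := Pool.Agent.Helper11.Stab.locGF' R D
  ⟨{ H := N.H
     cls := N.cls
     cls_add := N.cls_add
     cls_stab := N.cls_stab
     cls_re := N.cls_re
     surj := N.surj
     eq_zero := N.eq_zero
     map_cls := N.map_cls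
     σ_cls := N.σ_cls }⟩

/-! ### Auxiliary results for `locGF_tele` -/

namespace NC67

open Pool.Agent.Helper63.Stab Pool.Agent.Helper67.Stab

instance crdIpow (V : LC) [Crd V] : ∀ n, Crd (LC.ipow V n)
  | 0 => inferInstanceAs (Crd PUnit)
  | n + 1 => by
    haveI := crdIpow V n
    exact inferInstanceAs (Crd (V × (LC.ipow V n)))

theorem dm_ipow (V : LC) [Crd V] (n : ℕ) : dm (LC.ipow V n) = n * dm V := by
  induction n with
  | zero => rw [zero_mul]; exact dm_point
  | succ n ih =>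
    have h : dm (LC.ipow V (n + 1)) = dm V + dm (LC.ipow V n) := dm_prod V (LC.ipow V n)
    rw [h, ih]
    ring

section
variable {R : Biv} {V : LC}

/-- the power of a class to the point -/
def xp (x : R.Hom V LC.point) : ∀ n, R.Hom (LC.ipow V n) LC.point
  | 0 => R.J (PMap.id _)
  | n + 1 => mulP x (xp x n)

/-- iterated multiplication -/
def nxt (x : R.Hom V LC.point) {n : ℕ} {K Z : LC} (y : R.Hom ((LC.ipow V n).prod K) Z) (m : ℕ) :
    R.Hom ((LC.ipow V (n + m)).prod K) Z :=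
  Nat.rec (motive := fun m => R.Hom ((LC.ipow V (n + m)).prod K) Z) y (fun _ z => R.nextx x z) m

theorem exists_mulX_xp [Crd V] (x : R.Hom V LC.point) {n : ℕ} {K Z : LC}
    (y : R.Hom ((LC.ipow V n).prod K) Z) (m : ℕ) :
    ∃ p : (LC.ipow V m).prod (LC.ipow V n) ≃ₜ LC.ipow V (n + m), IsPerm p ∧ mulX (xp x m) y =
      R.comp (jh R (K := ((LC.ipow V m).prod (LC.ipow V n)).prod K)
        (L := (LC.ipow V (n + m)).prod K) (p.prodCongr (Homeomorph.refl K))) (nxt x y m) := by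
  induction m with
  | zero =>
    refine ⟨lu (LC.ipow V n), ?_, ?_⟩
    · exact ((IsPerm.prodComm LC.point (LC.ipow V n)).trans
        (IsPerm.prodPUnit (LC.ipow V n))).of_eq fun _ => rfl
    · exact tens_id_mulX y
  | succ m ih =>
    obtain ⟨p, hp, h⟩ := ih
    refine ⟨(Homeomorph.prodAssoc V (LC.ipow V m) (LC.ipow V n) :
      (V.prod (LC.ipow V m)).prod (LC.ipow V n) ≃ₜ V.prod ((LC.ipow V m).prod (LC.ipow V n))).trans
        ((Homeomorph.refl V).prodCongr p), (IsPerm.prodAssoc V (LC.ipow V m) (LC.ipow V n)).trans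
          ((IsPerm.refl V).prodCongr hp), ?_⟩
    have h1 : mulX (xp x (m + 1)) y = R.comp (jh R (K := ((V.prod (LC.ipow V m)).prod
        (LC.ipow V n)).prod K) (L := (V.prod ((LC.ipow V m).prod (LC.ipow V n))).prod K)
        ((Homeomorph.prodAssoc V (LC.ipow V m) (LC.ipow V n)).prodCongr (Homeomorph.refl K)))
        (mulX x (mulX (xp x m) y)) := mulX_mulP x (xp x m) y
    rw [h1, h, mulX_perm, ← R.assoc, ← jh_trans]
    rfl

theorem like_thp_xp [Crd V] (x : R.Hom V LC.point) (n : ℕ) :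
    Like (thp x n) (xp x n) := by
  induction n with
  | zero => exact Like.refl _
  | succ n ih =>
    have h1 : Like (R.tens (thp x n) V) (xp x n) := ih.tens V
    have h2 : Like (R.comp (jh R (LC.swap LC.point V))
      (R.comp (jh R (Homeomorph.prodPUnit V : V.prod LC.point ≃ₜ V)) x)) x :=
      ((Like.refl x).jh_comp (IsPerm.prodPUnit V)).jh_comp (IsPerm.prodComm LC.point V)
    have h3 := Like.comp_point h1 h2
    refine Like.trans (θ := R.comp (R.tens (xp x n) V) (R.comp (jh R (LC.swap LC.point V))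
      (R.comp (jh R (Homeomorph.prodPUnit V : V.prod LC.point ≃ₜ V)) x))) h3 ?_
    have h4 : R.comp (R.tens (xp x n) V) (R.comp (jh R (LC.swap LC.point V))
      (R.comp (jh R (Homeomorph.prodPUnit V : V.prod LC.point ≃ₜ V)) x)) =
      R.comp (jh R (LC.swap (LC.ipow V n) V)) (xp x (n + 1)) := by
      have e1 : R.comp (jh R (LC.swap LC.point V))
        (R.comp (jh R (Homeomorph.prodPUnit V : V.prod LC.point ≃ₜ V)) x) =
        R.comp (R.ltens LC.point x) (jh R (lu LC.point)) := by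
        rw [← lu_nat, ← R.assoc, ← jh_trans]
        congr 1
      rw [e1, ← R.assoc, R.exch]
      change _ = R.comp (jh R (LC.swap (LC.ipow V n) V)) (mulP x (xp x n))
      rw [mulP, lu_nat, ltens_def R LC.point (xp x n), ltens_def R (LC.ipow V n) x]
      simp only [R.assoc]
      congr 2
      have e2 : R.comp (jh R (LC.swap LC.point LC.point)) (jh R (lu LC.point)) =
        jh R (lu LC.point) := by
        rw [← jh_trans]
        exact jh_congr R fun _ => rfl
      rw [e2]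
    rw [h4]
    exact (Like.refl _).jh_comp (IsPerm.prodComm (LC.ipow V n) V)

/-- the transition class of a datum -/
theorem like_shC {P : GBiv} {D : Datum} [Crd V] (x : P.Hom V LC.point)
    (h : Like (P.comp (P.J D.s) (P.ltens (LC.cpow D.u) (P.g D.a))) x) (κ : Type) [Fintype κ] :
    Like (shC P D κ) (xp (R := P.toBiv) x (Fintype.card κ)) := by
  have key : ∀ n, Like (shC P D (Fin n)) (xp (R := P.toBiv) x n) := by
    intro n
    cases n with
    | zero => exact like_shC_empty P D (Fin 0)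
    | succ n => exact (like_shC_fin x h n).trans (like_thp_xp (R := P.toBiv) x (n + 1))
  exact Like.shC_re (Fintype.equivFin κ).symm (key _)

end

section
variable {P : Biv} {V : LC} [Crd V] {x : P.Hom V LC.point}

omit [Crd V] in
theorem cls_nxt (M : TeleGF P x) {b n : ℕ} {K : Test}
    (y : P.Hom ((LC.ipow V n).prod K.obj) (Zb b)) (m : ℕ) :
    M.cls (n + m) (nxt x y m) = M.cls n y := by
  induction m with
  | zero => rfl
  | succ m ih => exact (M.cls_next (nxt x y m)).trans ih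

theorem cls_unique (M : TeleGF P x) (hV : 0 < dm V) {W W' : LC} [Crd W] [Crd W'] {b n n' : ℕ}
    {K : Test} {z : P.Hom (W.prod K.obj) (W'.prod (Zb b))}
    {y : P.Hom ((LC.ipow V n).prod K.obj) (Zb b)} {y' : P.Hom ((LC.ipow V n').prod K.obj) (Zb b)}
    (h : Rel z y) (h' : Rel z y') : M.cls n y = M.cls n' y' := by
  have h1 := h.dm_eq
  have h2 := h'.dm_eq
  rw [dm_ipow] at h1 h2
  have h3 : n * dm V = n' * dm V := by omega
  have h4 : n = n' := Nat.eq_of_mul_eq_mul_right hV h3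
  subst h4
  have h5 := h.unique h' (IsPerm.refl _)
  rw [jh_id P (K := (LC.ipow V n).prod K.obj) (e := (Homeomorph.refl (LC.ipow V n)).prodCongr
    (Homeomorph.refl K.obj)) (fun _ => rfl), P.id_comp] at h5
  rw [h5]

omit [Crd V] in
theorem tele_cls_zero (M : TeleGF P x) {b n : ℕ} {K : Test} :
    M.cls n (0 : P.Hom ((LC.ipow V n).prod K.obj) (Zb b)) = 0 := by
  have h := M.cls_add (0 : P.Hom ((LC.ipow V n).prod K.obj) (Zb b)) 0
  simpa using h

theorem loc_cls_zero {R : Biv} {D : Datum} (N : LocGF R D) {b : ℕ} {ι : Type} [Fintype ι]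
    {K : Test} : N.cls (0 : R.Hom ((D.A ι).prod K.obj) ((D.B ι).prod (Zb b))) = 0 := by
  have h := N.cls_add (0 : R.Hom ((D.A ι).prod K.obj) ((D.B ι).prod (Zb b))) 0
  simpa using h

end

section
variable {R : Biv} {P : PRTheory R} {D : Datum} {V : LC} [Crd V] {x : P.Hom V LC.point}

/-- two elements that come from the same element of `R` -/
def Cor (N : LocGF R D) (M : TeleGF P.toBiv x) {b : ℕ} {K : Test}
    (t : ((N.H.h b).obj (op K) : Type)) (s : ((M.H.h b).obj (op K) : Type)) : Prop :=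
  ∃ (ι : Type) (_ : Fintype ι) (y : R.Hom ((D.A ι).prod K.obj) ((D.B ι).prod (Zb b))) (n : ℕ)
    (y' : P.Hom ((LC.ipow V n).prod K.obj) (Zb b)), t = N.cls y ∧ s = M.cls n y' ∧
      Rel (hat P y) y'

/-- the properties of the datum -/
structure Good (D : Datum) (x : P.Hom V LC.point) : Prop where
  pos : 0 < dm V
  dim : ∀ (ι : Type) [Fintype ι], dm (D.A ι) =
    Fintype.card (ι × Option D.u) + Fintype.card ι * dm V
  like : Like (P.comp (P.J D.s) (P.ltens (LC.cpow D.u) (P.g D.a))) x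

variable (N : LocGF R D) (M : TeleGF P.toBiv x) (G : Good D x) {b : ℕ} {K : Test}
include G

theorem exists_rel' {ι : Type} [Fintype ι]
    (y : R.Hom ((D.A ι).prod K.obj) ((D.B ι).prod (Zb b))) :
    ∃ y' : P.Hom ((LC.ipow V (Fintype.card ι)).prod K.obj) (Zb b), Rel (hat P y) y' := by
  refine exists_rel _ ?_
  rw [dm_ipow, G.dim, dm_prod, dm_point, dm_pi, add_zero]

theorem rel_stab {ι : Type} [Fintype ι]
    {y : R.Hom ((D.A ι).prod K.obj) ((D.B ι).prod (Zb b))} {n : ℕ}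
    {y' : P.Hom ((LC.ipow V n).prod K.obj) (Zb b)} (h : Rel (hat P y) y') (κ : Type) [Fintype κ] :
    Rel (hat P (stR y κ)) (nxt (R := P.toBiv) x y' (Fintype.card κ)) := by
  have h1 := rel_stR P h (like_shC x G.like κ)
  obtain ⟨p, hp, h2⟩ := exists_mulX_xp (R := P.toBiv) x y' (Fintype.card κ)
  rw [h2] at h1
  exact h1.of_perm hp

theorem cor_exists (t : ((N.H.h b).obj (op K) : Type)) :
    ∃ s : ((M.H.h b).obj (op K) : Type), Cor N M t s := by
  obtain ⟨n, -, y, rfl⟩ := N.surj t 0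
  obtain ⟨y', h⟩ := exists_rel' (P := P) G y
  exact ⟨_, Fin n, inferInstance, y, _, y', rfl, rfl, h⟩

theorem cor_add {t t' : ((N.H.h b).obj (op K) : Type)} {s s' : ((M.H.h b).obj (op K) : Type)}
    (h : Cor N M t s) (h' : Cor N M t' s') : Cor N M (t + t') (s + s') := by
  obtain ⟨ι, _, y, n, z, rfl, rfl, hr⟩ := h
  obtain ⟨κ, _, y', n', z', rfl, rfl, hr'⟩ := h'
  have h1 := rel_stab G hr κ
  have h2 := rel_rR P (Equiv.sumComm κ ι) (rel_stab G hr' ι)
  obtain ⟨w, hw⟩ := exists_rel' (P := P) G (stR y κ)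
  obtain ⟨w', hw'⟩ := exists_rel' (P := P) G (rR (Equiv.sumComm κ ι) (stR y' ι))
  refine ⟨ι ⊕ κ, inferInstance, stR y κ + rR (Equiv.sumComm κ ι) (stR y' ι), _, w + w', ?_, ?_, ?_⟩
  · rw [N.cls_add]
    exact congrArg₂ (· + ·) (N.cls_stab y κ).symm
      ((N.cls_re (Equiv.sumComm κ ι) _).trans (N.cls_stab y' ι)).symm
  · rw [M.cls_add]
    exact congrArg₂ (· + ·) ((cls_unique M G.pos hw h1).trans (cls_nxt M z _)).symm
      ((cls_unique M G.pos hw' h2).trans (cls_nxt M z' _)).symm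
  · rw [hat_add]
    exact hw.add hw'

theorem cor_zero_left {s : ((M.H.h b).obj (op K) : Type)}
    (h : Cor N M (0 : ((N.H.h b).obj (op K) : Type)) s) : s = 0 := by
  obtain ⟨ι, _, y, n, z, h0, rfl, hr⟩ := h
  obtain ⟨m, hm⟩ := N.eq_zero y h0.symm
  have h1 := rel_stab G hr (Fin m)
  have h2 : stR y (Fin m) = 0 := hm
  have h3 : hat P (0 : R.Hom ((D.A (ι ⊕ Fin m)).prod K.obj) ((D.B (ι ⊕ Fin m)).prod (Zb b))) =
      0 := by
    rw [hat, inc_zero, P.zero_comp]
  rw [h2, h3] at h1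
  obtain ⟨a, ha, -⟩ := id h1
  have h4 : Rel (W := D.A (ι ⊕ Fin m)) (W' := SS D (ι ⊕ Fin m))
      (0 : P.Hom ((D.A (ι ⊕ Fin m)).prod K.obj) ((SS D (ι ⊕ Fin m)).prod (Zb b)))
      (0 : P.Hom ((LC.ipow V (n + Fintype.card (Fin m))).prod K.obj) (Zb b)) := by
    refine ⟨a, ha, ?_⟩
    rw [P.ltens_zero, P.comp_zero]
  have h5 := cls_unique M G.pos h1 h4
  rw [cls_nxt, tele_cls_zero] at h5
  exact h5

theorem cor_unique {t : ((N.H.h b).obj (op K) : Type)} {s s' : ((M.H.h b).obj (op K) : Type)}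
    (h : Cor N M t s) (h' : Cor N M t s') : s = s' := by
  obtain ⟨s'', h''⟩ := cor_exists N M G (-t)
  have h1 := cor_add N M G h h''
  have h2 := cor_add N M G h' h''
  rw [add_neg_cancel] at h1 h2
  have h3 := cor_zero_left N M G h1
  have h4 := cor_zero_left N M G h2
  exact add_right_cancel (h3.trans h4.symm)

theorem cor_zero_right {t : ((N.H.h b).obj (op K) : Type)}
    (h : Cor N M t (0 : ((M.H.h b).obj (op K) : Type))) : t = 0 := by
  obtain ⟨ι, _, y, n, z, rfl, h0, hr⟩ := h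
  obtain ⟨m, hm⟩ := M.eq_zero z h0.symm
  have hm' : nxt (R := P.toBiv) x z m = 0 := hm
  have h1 := rel_stab G hr (Fin m)
  rw [Fintype.card_fin, hm'] at h1
  obtain ⟨m', hm2⟩ := stR_eq_zero P _ h1.eq_zero
  rw [← N.cls_stab y (Fin m)]
  refine (N.cls_stab (stR y (Fin m)) (Fin m')).symm.trans ?_
  refine (congrArg N.cls hm2).trans ?_
  exact loc_cls_zero N

omit G in
theorem cor_map {L : Test} (φ : PMap K.obj L.obj.plus) {t : ((N.H.h b).obj (op L) : Type)}
    {s : ((M.H.h b).obj (op L) : Type)} (h : Cor N M t s) :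
    Cor N M ((N.H.h b).map (Quiver.Hom.op (X := K) (Y := L) (ObjectProperty.homMk φ.cls)) t)
      ((M.H.h b).map (Quiver.Hom.op (X := K) (Y := L) (ObjectProperty.homMk φ.cls)) s) := by
  obtain ⟨ι, _, y, n, z, rfl, rfl, hr⟩ := h
  refine ⟨ι, inferInstance, R.comp (R.J (PMap.ltens (D.A ι) φ)) y, n,
    P.comp (P.J (PMap.ltens (LC.ipow V n) φ)) z, N.map_cls φ y, M.map_cls φ z, ?_⟩
  have h1 := hr.pre (P.J φ)
  rw [← ltens_J, ← ltens_J, hat_pre, P.inc_J]
  exact h1

omit G in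
theorem cor_susp {t : ((N.H.h b).obj (op K) : Type)} {s : ((M.H.h b).obj (op K) : Type)}
    (h : Cor N M t s) : Cor N M (b := b + 1) (K := Test.cx.obj K)
      ((N.H.σ b).hom.app (op K) t) ((M.H.σ b).hom.app (op K) s) := by
  obtain ⟨ι, _, y, n, z, rfl, rfl, hr⟩ := h
  exact ⟨ι, inferInstance, _, n, _, N.σ_cls y, M.σ_cls z,
    rel_susp P hr (LC.frontC (D.A ι) K.obj) (fun _ => rfl) (LC.frontC (D.B ι) (Zb b))
      (fun _ => rfl) (LC.frontC (LC.ipow V n) K.obj) (fun _ => rfl)⟩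

omit G [Crd V] in
theorem exists_lift {κ : Type} [Fintype κ] (ρ : R.Hom V (LC.G κ))
    (hρ : x = P.comp (P.inc ρ) (P.g κ)) {K Z : LC} {n m : ℕ}
    (y : R.Hom ((LC.ipow V n).prod K) ((LC.G (Fin m)).prod Z)) (j : ℕ) :
    ∃ (σ : Type) (_ : Fintype σ), Fintype.card σ = m + j * Fintype.card κ ∧
      ∃ w : R.Hom ((LC.ipow V (n + j)).prod K) ((LC.G σ).prod Z),
        nxt (R := P.toBiv) x (lf P y) j = lf P w := by
  induction j with
  | zero =>
    refine ⟨Fin m, inferInstance, ?_, y, rfl⟩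
    rw [Fintype.card_fin, zero_mul, add_zero]
  | succ j ih =>
    obtain ⟨σ, _, hσ, w, hw⟩ := ih
    refine ⟨κ ⊕ σ, inferInstance, ?_, R.comp (jh R (K := (LC.ipow V (n + (j + 1))).prod K)
      (L := V.prod ((LC.ipow V (n + j)).prod K)) (Homeomorph.prodAssoc V (LC.ipow V (n + j)) K))
      (R.comp (R.tens ρ _) (R.comp (R.ltens (LC.G κ) w) (R.comp
        (jh R (K := (LC.G κ).prod ((LC.G σ).prod Z)) (L := ((LC.G κ).prod (LC.G σ)).prod Z)
          (Homeomorph.prodAssoc (LC.G κ) (LC.G σ) Z).symm)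
          (R.tens (R.J (GK.sumMap κ σ)) Z)))), ?_⟩
    · rw [Fintype.card_sum, hσ]
      ring
    · rw [lf_pre, ← lf_mul, ← hρ, ← hw]
      rfl

theorem cor_surj (ρ : R.Hom V (LC.G D.a)) (hρ : x = P.comp (P.inc ρ) (P.g D.a))
    (s : ((M.H.h b).obj (op K) : Type)) : ∃ t : ((N.H.h b).obj (op K) : Type), Cor N M t s := by
  obtain ⟨n, -, z, rfl⟩ := M.surj s 0
  obtain ⟨m, -, y, hy⟩ := P.surj z 0
  have hy' : z = lf P y := hy
  obtain ⟨σ, _, hσ, w, hw⟩ := exists_lift ρ hρ y m
  rw [← hy'] at hw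
  have hc : Fintype.card σ ≤ Fintype.card (Fin (n + m) × Option D.a) := by
    rw [hσ, Fintype.card_prod, Fintype.card_fin, Fintype.card_option]
    nlinarith
  have e : σ ⊕ Fin (Fintype.card (Fin (n + m) × Option D.a) - Fintype.card σ) ≃
      Fin (n + m) × Option D.a := by
    refine Fintype.equivOfCardEq ?_
    rw [Fintype.card_sum, Fintype.card_fin]
    omega
  obtain ⟨Y, hY⟩ := exists_rel_hat (D := D) (ι := Fin (n + m)) P (R.comp (R.comp w (R.tens
    (R.J (GK.stab σ (Fin (Fintype.card (Fin (n + m) × Option D.a) - Fintype.card σ)))) (Zb b)))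
      (R.tens (jh R (K := LC.G _) (L := LC.G (Fin (n + m) × Option D.a)) (GK.reindex e)) (Zb b))) (by
        rw [G.dim, dm_ipow, Fintype.card_fin])
  rw [lf_re, lf_stab, ← hw] at hY
  exact ⟨_, Fin (n + m), inferInstance, Y, n + m, _, rfl, (cls_nxt M z m).symm, hY⟩

end

section
variable {R : Biv} {P : PRTheory R} {D : Datum} {V : LC} [Crd V] {x : P.Hom V LC.point}

/-- the map on the values -/
def fHom (N : LocGF R D) (M : TeleGF P.toBiv x) (G : Good D x) (b : ℕ) (K : Test) :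
    ((N.H.h b).obj (op K) : Type) →+ ((M.H.h b).obj (op K) : Type) where
  toFun t := (cor_exists N M G t).choose
  map_zero' := cor_zero_left N M G (cor_exists N M G 0).choose_spec
  map_add' t t' := cor_unique N M G (cor_exists N M G (t + t')).choose_spec
    (cor_add N M G (cor_exists N M G t).choose_spec (cor_exists N M G t').choose_spec)

theorem fHom_spec (N : LocGF R D) (M : TeleGF P.toBiv x) (G : Good D x) (b : ℕ) (K : Test)
    (t : ((N.H.h b).obj (op K) : Type)) : Cor N M t (fHom N M G b K t) :=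
  (cor_exists N M G t).choose_spec

theorem fHom_eq (N : LocGF R D) (M : TeleGF P.toBiv x) (G : Good D x) {b : ℕ} {K : Test}
    {t : ((N.H.h b).obj (op K) : Type)} {s : ((M.H.h b).obj (op K) : Type)} (h : Cor N M t s) :
    fHom N M G b K t = s := cor_unique N M G (fHom_spec N M G b K t) h

/-- the morphism of graded functors -/
def fGF (N : LocGF R D) (M : TeleGF P.toBiv x) (G : Good D x) : N.H ⟶ M.H :=
  GF.Hom.mk' (fun b =>
    { app := fun K => AddCommGrpCat.ofHom (fHom N M G b K.unop)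
      naturality := by
        intro X Y g
        obtain ⟨φ, hφ⟩ : ∃ φ : PMap Y.unop.obj X.unop.obj.plus,
            g = Quiver.Hom.op (X := Y.unop) (Y := X.unop) (ObjectProperty.homMk φ.cls) := by
          obtain ⟨φ, hφ⟩ : ∃ φ : PMap Y.unop.obj X.unop.obj.plus, g.unop.hom = φ.cls := by
            generalize g.unop.hom = z
            revert z
            exact HMap.ind fun φ => ⟨φ, rfl⟩
          refine ⟨φ, ?_⟩
          rw [← hφ]
          rfl
        ext t
        rw [hφ]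
        exact fHom_eq N M G (cor_map N M φ (fHom_spec N M G b X.unop t)) })
    (by
      intro b K
      ext t
      exact fHom_eq N M G (cor_susp N M (fHom_spec N M G b K.unop t)))

end

end NC67

/-- (NC1) The localisation of `R` at the datum of a loop `f` is the telescope of the Hurewicz
image of `f` in `R ∧ BU₊`. -/
theorem locGF_tele {R : Biv} (P : PRTheory R) {e : ℕ} (he : 0 < e) {κ : Type} [Fintype κ]
    (f : GenLoop (Fin (2 * e)) (GK κ) (GK.base κ)) (x : P.Hom (LC.cpow (Fin e)) LC.point)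
    (hx : P.comp (P.J (collSph e)) x =
      P.comp (P.J (PMap.ofC (K := LC.sph e) (L := LC.G κ) (loopBar f))) (P.g κ) -
        P.J (PMap.toPoint (LC.sph e)))
    (N : LocGF R (loopDatum f)) (M : TeleGF P.toBiv x) : Nonempty (N.H ≅ M.H) := by
  obtain ⟨ρ, hρ, hl⟩ := Helper67.Stab.exists_loop_class P he f x hx
  have G : NC67.Good (P := P) (loopDatum f) x := by
    refine ⟨?_, ?_, hl⟩
    · rw [Helper63.Stab.dm_pi, Fintype.card_fin]
      exact he
    · intro ι _
      rw [Helper63.Stab.dm_pi, Helper63.Stab.dm_pi, Fintype.card_prod, Fintype.card_prod, Fintype.card_option,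
        Fintype.card_option, Fintype.card_fin]
      have h1 : Fintype.card (loopDatum f).w = e + 1 := Fintype.card_fin (e + 1)
      have h2 : Fintype.card (loopDatum f).u = 1 := Fintype.card_fin 1
      rw [h1, h2]
      ring
  have hbij : ∀ b K, Function.Bijective (((NC67.fGF N M G).app b).app K) := by
    intro b K
    constructor
    · refine (injective_iff_map_eq_zero (NC67.fHom N M G b K.unop)).2 fun t ht => ?_
      have h := NC67.fHom_spec N M G b K.unop t
      rw [ht] at h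
      exact NC67.cor_zero_right N M G h
    · intro s
      obtain ⟨t, ht⟩ := NC67.cor_surj N M G ρ hρ s
      exact ⟨t, NC67.fHom_eq N M G ht⟩
  have := GF.isIso_of_bijective (NC67.fGF N M G) hbij
  exact ⟨asIso (NC67.fGF N M G)⟩

/-- (NC2) localisations commute -/
theorem locGF_comm {D D' : Datum} (T : LocTheory D) (T' : LocTheory D')
    (N : LocGF T.toBiv D') (N' : LocGF T'.toBiv D) : Nonempty (N.H ≅ N'.H) := by
  have lg : ∀ {R : Biv} {D : Datum} (N : LocGF R D), ∃ M : CommX.LG R D, M.H = N.H := by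
    intro R D N
    refine ⟨⟨N.H, N.cls, N.cls_add, N.cls_stab, N.cls_re, ?_, N.eq_zero, N.map_cls, N.σ_cls⟩, rfl⟩
    intro b K t
    obtain ⟨n, -, y, hy⟩ := N.surj t 0
    exact ⟨n, y, hy⟩
  obtain ⟨M, hM⟩ := lg N
  obtain ⟨M', hM'⟩ := lg N'
  rw [← hM, ← hM']
  exact CommX.comm T' M M'

/-- (NC3) telescopes along homeomorphic classes -/
theorem tele_homeo (P : Biv) {V W : LC} (φ : V ≃ₜ W) (x : P.Hom W LC.point)
    (y : P.Hom V LC.point) (h : y = P.comp (P.J (PMap.ofHomeo φ)) x)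
    (M : TeleGF P x) (N : TeleGF P y) : Nonempty (M.H ≅ N.H) := by
  subst h
  refine TL69.exists_iso M N.H (fun b n K z => N.cls n (TL69.pb P φ n z)) (fun b K => ?_)
    (fun b n K L f z => ?_) (fun b n K z => ?_)
  · refine ⟨fun n z w => ?_, fun n z => ?_, fun t => ?_, fun {n} z hz => ?_⟩
    · exact (congrArg (N.cls n) (TL69.pb_add φ n z w)).trans (N.cls_add _ _)
    · exact (congrArg (N.cls (n + 1)) (TL69.pb_next φ x n z)).trans (N.cls_next _)
    · obtain ⟨n, -, w, rfl⟩ := N.surj t 0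
      obtain ⟨z, rfl⟩ := (TL69.pb_bij φ n).2 w
      exact ⟨n, z, rfl⟩
    · obtain ⟨m, hm⟩ := N.eq_zero _ hz
      refine ⟨m, (TL69.pb_bij φ (n + m)).1 ?_⟩
      have h1 : ∀ m : ℕ, TL69.pb P φ (n + m) (Nat.rec
          (motive := fun m => P.Hom ((LC.ipow W (n + m)).prod K.obj) (Zb b)) z
          (fun m z => P.nextx x z) m) = Nat.rec
          (motive := fun m => P.Hom ((LC.ipow V (n + m)).prod K.obj) (Zb b)) (TL69.pb P φ n z)
          (fun m z => P.nextx (P.comp (P.J (PMap.ofHomeo φ)) x) z) m := by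
        intro m
        induction m with
        | zero => rfl
        | succ m ih => exact (TL69.pb_next φ x (n + m) _).trans (congrArg _ ih)
      have h2 : TL69.pb P φ (n + m) (0 : P.Hom ((LC.ipow W (n + m)).prod K.obj) (Zb b)) = 0 :=
        P.comp_zero _
      exact ((h1 m).trans hm).trans h2.symm
  · refine (N.map_cls f _).trans (congrArg (N.cls n) ?_)
    exact (TL69.pb_map φ n f z).symm
  · refine (N.σ_cls _).trans (congrArg (N.cls (b := b + 1) n (K := Test.cx.obj K)) ?_)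
    exact (TL69.pb_susp φ n z).symm

/-- (NC) the two telescopes of a pair of loops agree -/
theorem tele_comm {e e' : ℕ} (he : 0 < e) (he' : 0 < e') {κ κ' : Type} [Fintype κ] [Fintype κ']
    (f : GenLoop (Fin (2 * e)) (GK κ) (GK.base κ))
    (f' : GenLoop (Fin (2 * e')) (GK κ') (GK.base κ'))
    (T : LocTheory (loopDatum f)) (T' : LocTheory (loopDatum f'))
    (P : PRTheory T.toBiv) (P' : PRTheory T'.toBiv)
    (x : P.Hom (LC.cpow (Fin e')) LC.point) (x' : P'.Hom (LC.cpow (Fin e)) LC.point)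
    (hx : P.comp (P.J (collSph e')) x =
      P.comp (P.J (PMap.ofC (K := LC.sph e') (L := LC.G κ') (loopBar f'))) (P.g κ') -
        P.J (PMap.toPoint (LC.sph e')))
    (hx' : P'.comp (P'.J (collSph e)) x' =
      P'.comp (P'.J (PMap.ofC (K := LC.sph e) (L := LC.G κ) (loopBar f))) (P'.g κ) -
        P'.J (PMap.toPoint (LC.sph e)))
    (M : TeleGF P.toBiv x) (M' : TeleGF P'.toBiv x') : Nonempty (M.H ≅ M'.H) := by
  obtain ⟨N⟩ := exists_locGF T.toBiv (loopDatum f')
  obtain ⟨N'⟩ := exists_locGF T'.toBiv (loopDatum f)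
  obtain ⟨a⟩ := locGF_tele P he' f' x hx N M
  obtain ⟨b⟩ := locGF_tele P' he f x' hx' N' M'
  obtain ⟨c⟩ := locGF_comm T T' N N'
  exact ⟨a.symm.trans (c.trans b)⟩

end Pool.Agent.Helper1.Stab
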