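import Pool.Agent.Helper1.Stab.Tele
import Pool.Agent.Helper1.Stab.BSU
import Pool.Agent.Helper19.Stab.BP4
import Pool.Agent.Helper68.Stab.LocFinal
import Pool.Agent.Helper75.Stab.Hur
import Pool.Agent.Helper73.Stab.HurC
import Pool.Agent.Helper25.Stab.Unit
import Pool.Agent.Helper84.Sn.TeleKit

/-! The retract theorem. -/

open CategoryTheory Topology Filter Set Matrix Opposite

noncomputable section

namespace Pool.Agent.Helper1.Stab

/-! ## Hurewicz classes of loops -/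

/-- The class `x ∈ R(ℂ^e, pt)` is the Hurewicz class of the loop `f`. -/
def IsHur (R : GBiv) {κ : Type} [Fintype κ] {e : ℕ} (f : GenLoop (Fin (2 * e)) (GK κ) (GK.base κ))
    (x : R.Hom (LC.cpow (Fin e)) LC.point) : Prop :=
  R.comp (R.J (collSph e)) x =
    R.comp (R.J (PMap.ofC (K := LC.sph e) (L := LC.G κ) (loopBar f))) (R.g κ) -
      R.J (PMap.toPoint (LC.sph e))

/-- the class of `ρ` is a Hurewicz class -/
theorem isHur_rho (R : GBiv) {κ : Type} [Fintype κ] {e : ℕ}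
    (f : GenLoop (Fin (2 * e)) (GK κ) (GK.base κ)) (ρ : R.Hom (LC.cpow (Fin e)) (LC.G κ))
    (h : R.comp (R.J (collSph e)) ρ =
        R.J (PMap.ofC (K := LC.sph e) (L := LC.G κ) (loopBar f)) -
        R.J (PMap.ofC (K := LC.sph e) (L := LC.G κ) (ContinuousMap.const _ (GK.base κ)))) :
    IsHur R f (R.comp ρ (R.g κ)) := by
  have h1 : R.comp (R.J (PMap.ofC (K := LC.sph e) (L := LC.G κ)
      (ContinuousMap.const _ (GK.base κ)))) (R.g κ) = R.J (PMap.toPoint (LC.sph e)) := by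
    have h2 : PMap.ofC (K := LC.sph e) (L := LC.G κ) (ContinuousMap.const _ (GK.base κ)) =
        (PMap.ofPoint (K := LC.G κ) (GK.base κ)).comp (PMap.toPoint (LC.sph e)) := by
      ext x
      rfl
    rw [h2, R.J_comp, R.assoc, R.g_base, R.comp_id]
  unfold IsHur
  rw [← R.assoc, h, Helper9.Stab.sub_c, h1]

/-- Hurewicz classes exist -/
theorem exists_hur (R : GBiv) {κ : Type} [Fintype κ] {e : ℕ} (he : 0 < e)
    (f : GenLoop (Fin (2 * e)) (GK κ) (GK.base κ)) : ∃ x, IsHur R f x := by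
  obtain ⟨ρ, hρ, -⟩ := exists_rho R.toBiv he f
  exact ⟨_, isHur_rho R f ρ hρ⟩

/-- the Hurewicz class of `f` is invertible in the theory of `f` -/
theorem exists_hur_inv {κ : Type} [Fintype κ] {e : ℕ} (he : 0 < e)
    (f : GenLoop (Fin (2 * e)) (GK κ) (GK.base κ)) (T : LocTheory (loopDatum f)) :
    ∃ (x : T.Hom (LC.cpow (Fin e)) LC.point) (x' : T.Hom LC.point (LC.cpow (Fin e))),
      IsHur T.toGBiv f x ∧ T.comp x x' = T.J (PMap.id _) ∧ T.comp x' x = T.J (PMap.id _) := by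
  obtain ⟨ρ, hρ, hs⟩ := exists_rho T.toBiv he f
  obtain ⟨β', h1, h2⟩ := beta_inv f T ρ hs
  exact ⟨_, β', isHur_rho T.toGBiv f ρ hρ, h1, h2⟩

/-- (HP) Hurewicz classes of powers -/
theorem hur_pow (R : GBiv) {k k' : ℕ} (f : GenLoop (Fin 4) (Gr {1} k) (Gr.pt {1} k))
    (f' : GenLoop (Fin 4) (Gr {1} k') (Gr.pt {1} k')) (m : ℤ)
    (h : hclass (toBGLoop f') = hclass (toBGLoop f) ^ m)
    (x x' : R.Hom (LC.cpow (Fin 2)) LC.point)
    (hx : IsHur R (e := 2) (loopGK (loopToU f)) x)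
    (hx' : IsHur R (e := 2) (loopGK (loopToU f')) x') : x' = m • x :=
  HurP.hur_pow' R f f' m h x x' hx hx'

/-- the homeomorphism `ℂ × ℂ = ℂ²` -/
def twoC : LC.C.prod LC.C ≃ₜ LC.cpow (Fin 2) where
  toFun z := Fin.cons z.1 (fun _ => z.2)
  invFun z := (z 0, z 1)
  left_inv z := rfl
  right_inv z := by ext i; fin_cases i <;> rfl
  continuous_toFun := by
    refine continuous_pi fun i => ?_
    refine Fin.cases ?_ (fun j => ?_) i
    · exact continuous_fst
    · exact continuous_snd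
  continuous_invFun := by fun_prop

/-- (BS) the Hurewicz class of the Bott class -/
theorem hur_bott (R : GBiv) (x : R.Hom (LC.cpow (Fin 1)) LC.point)
    (hx : IsHur R (e := 1) (loopGK bott) x) :
    R.comp (R.J collP1) (R.comp (R.J (PMap.ofHomeo oneC)) x) =
      R.taut Bool - R.one (LC.Pr Bool 1) :=
  Helper75.Stab.hur_bott75 R x hx

/-- (BP) the Hurewicz class of a Bott product -/
theorem hur_bottProduct (R : GBiv) {k : ℕ} (g : GenLoop (Fin (2 * 2)) (GK (Fin k))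
    (GK.base (Fin k))) (hg : IsBottProduct g) (x : R.Hom (LC.cpow (Fin 2)) LC.point)
    (hx : IsHur R (e := 2) g x) :
    R.comp (R.J (collP1.box collP1)) (R.comp (R.J (PMap.ofHomeo twoC)) x) =
      R.theta Bool Bool - R.one ((LC.Pr Bool 1).prod (LC.Pr Bool 1)) :=
  Helper75.Stab.hur_bottProduct75 R g hg x twoC (fun _ => rfl) hx

/-- (BE) Bott products exist in `BSU` -/
theorem exists_bottProduct : ∃ (k : ℕ) (g : GenLoop (Fin 4) (Gr {1} k) (Gr.pt {1} k)),
    IsBottProduct (loopGK (loopToU g)) :=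
  ⟨5, Helper19.Stab.bpLoop, Helper19.Stab.isBottProduct_bpLoop⟩

/-- (UN) If `- b_1² + q` is `m` times a class then `m` is invertible on `R`. -/
theorem unit_of_hur {R : Biv} (o : Orient R) (P : PRTheory R) {V : LC}
    (φ : V ≃ₜ (Cn 1).prod (Cn 1)) (x z : P.Hom V LC.point) (q : ∀ i : ℕ, R.Hom V (Cn i))
    (hx : x = (∑ i ∈ Finset.range 4, P.comp (P.inc (q i)) (P.b o i)) -
        P.comp (P.J (PMap.ofHomeo φ)) (P.mulPt (P.b o 1) (P.b o 1))) (m : ℤ) (h : x = m • z) :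
    IsIso (m • 𝟙 R.gf) :=
  Pool.Agent.Helper25.Stab.unit_of_hur o P φ x z q hx m h

/-- sums can be transported along isomorphisms of the summands -/
def IsSum.congr {ι : Type} {X Y : ι → GF} {A : GF} (S : IsSum X A) (e : ∀ i, X i ≅ Y i) :
    IsSum Y A where
  inj i := (e i).inv ≫ S.inj i
  pr i := S.pr i ≫ (e i).hom
  inj_pr i := by
    rw [Category.assoc, ← Category.assoc (S.inj i), S.inj_pr, Category.id_comp, Iso.inv_hom_id]
  inj_pr_ne i j h := by
    rw [Category.assoc, ← Category.assoc (S.inj i), S.inj_pr_ne i j h, Limits.zero_comp,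
      Limits.comp_zero]
  fin b K x := by
    obtain ⟨F, hF⟩ := S.fin b K x
    refine ⟨F, hF.trans (Finset.sum_congr rfl fun i _ => ?_)⟩
    rw [Category.assoc, Iso.hom_inv_id_assoc]

/-- transport of the formula for the Hurewicz class of a Bott product from `ℂ × ℂ` to `ℂ²` -/
theorem hur_transport {R : Biv} (P : PRTheory R) (o : Orient R)
    (y : P.Hom (LC.cpow (Fin 2)) LC.point) (q : ∀ i : ℕ, R.Hom (LC.C.prod LC.C) (Cn i))
    (hq : P.comp (P.J (PMap.ofHomeo twoC)) y =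
      (∑ i ∈ Finset.range 4, P.comp (P.inc (q i)) (P.b o i)) -
        P.comp (P.J (PMap.ofHomeo ((LC.lunit LC.C).symm.prodCongr (LC.lunit LC.C).symm :
          LC.C.prod LC.C ≃ₜ (Cn 1).prod (Cn 1)))) (P.mulPt (P.b o 1) (P.b o 1))) :
    y = (∑ i ∈ Finset.range 4, P.comp (P.inc (R.comp (R.J (PMap.ofHomeo twoC.symm)) (q i)))
        (P.b o i)) -
      P.comp (P.J (PMap.ofHomeo (twoC.symm.trans ((LC.lunit LC.C).symm.prodCongr
        (LC.lunit LC.C).symm : LC.C.prod LC.C ≃ₜ (Cn 1).prod (Cn 1)))))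
        (P.mulPt (P.b o 1) (P.b o 1)) := by
  have h0 : P.comp (P.J (PMap.ofHomeo twoC.symm)) (P.comp (P.J (PMap.ofHomeo twoC)) y) = y := by
    refine (P.assoc _ _ _).symm.trans ?_
    refine (congrArg (fun z => P.comp z y) (P.invP_homeo twoC).2).trans ?_
    exact P.id_comp _
  have h1 : P.J (PMap.ofHomeo (twoC.symm.trans ((LC.lunit LC.C).symm.prodCongr
        (LC.lunit LC.C).symm : LC.C.prod LC.C ≃ₜ (Cn 1).prod (Cn 1)))) =
      P.comp (P.J (PMap.ofHomeo twoC.symm)) (P.J (PMap.ofHomeo (K := LC.C.prod LC.C)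
        (L := (Cn 1).prod (Cn 1)) ((LC.lunit LC.C).symm.prodCongr (LC.lunit LC.C).symm :
          LC.C.prod LC.C ≃ₜ (Cn 1).prod (Cn 1)))) := by
    rw [← P.J_comp]
    rfl
  have h2 : ∀ i : ℕ, P.comp (P.inc (R.comp (R.J (PMap.ofHomeo twoC.symm)) (q i))) (P.b o i) =
      P.comp (P.J (PMap.ofHomeo twoC.symm)) (P.comp (P.inc (q i)) (P.b o i)) := by
    intro i
    rw [P.inc_comp, P.inc_J]
    exact P.assoc _ _ _
  rw [← h0, hq, Helper9.Stab.c_sub, h1, P.assoc]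
  congr 1
  have h3 : ∀ (s : Finset ℕ) (z : ℕ → P.Hom (LC.C.prod LC.C) LC.point),
      P.comp (P.J (PMap.ofHomeo twoC.symm)) (∑ i ∈ s, z i) =
        ∑ i ∈ s, P.comp (P.J (PMap.ofHomeo twoC.symm)) (z i) := by
    intro s z
    exact map_sum (Helper9.Stab.preH P.toBiv (P.J (PMap.ofHomeo twoC.symm)) LC.point) z s
  rw [h3]
  exact Finset.sum_congr rfl fun i _ => (h2 i).symm

/-- transport of an inverse along a homeomorphism -/
theorem inv_transport (R : Biv) {K L : LC} (f : K ≃ₜ L) {N : LC} (a : R.Hom L N) (b : R.Hom N L)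
    (hab : R.comp a b = R.J (PMap.id _)) (hba : R.comp b a = R.J (PMap.id _)) :
    R.comp (R.comp (R.J (PMap.ofHomeo f)) a) (R.comp b (R.J (PMap.ofHomeo f.symm))) =
        R.J (PMap.id _) ∧
    R.comp (R.comp b (R.J (PMap.ofHomeo f.symm))) (R.comp (R.J (PMap.ofHomeo f)) a) =
        R.J (PMap.id _) := by
  constructor
  · rw [R.assoc, ← R.assoc a, hab, R.id_comp]
    exact (R.invP_homeo f).1
  · rw [R.assoc, ← R.assoc (R.J (PMap.ofHomeo f.symm)), (R.invP_homeo f).2, R.id_comp]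
    exact hba

/-- the theory of the Bott class -/
def thM : LocTheory (loopDatum (e := 1) (loopGK bott)) :=
  (loopDatum (e := 1) (loopGK bott)).locTheory

/-- (CH) `SBSU g` is a retract of a sum of copies of `MUP` for a Bott product `g`. -/
theorem retract_chain {k : ℕ} (g : GenLoop (Fin 4) (Gr {1} k) (Gr.pt {1} k))
    (hg : IsBottProduct (loopGK (loopToU g))) : ∃ (ι : Type) (_ : Countable ι) (A : GF)
      (_ : IsSum (fun _ : ι => hP.obj MUP) A) (i : hP.obj (SBSU g) ⟶ A)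
      (r : A ⟶ hP.obj (SBSU g)), i ≫ r = 𝟙 _ := by
  -- the two theories
  let M := thM
  let S : LocTheory (loopDatum (e := 2) (loopGK (loopToU g))) :=
    (loopDatum (e := 2) (loopGK (loopToU g))).locTheory
  obtain ⟨cM⟩ := comparison (e := 1) one_pos bott M
  obtain ⟨cS⟩ := comparison (e := 2) two_pos (loopToU g) S
  obtain ⟨i0, r0, h0⟩ := bsu_retract (e := 2) two_pos g
  -- orientations
  obtain ⟨xM, xM', hxM, hM1, hM2⟩ := exists_hur_inv (e := 1) one_pos (loopGK bott) M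
  obtain ⟨xS, xS', hxS, hS1, hS2⟩ := exists_hur_inv (e := 2) two_pos (loopGK (loopToU g)) S
  obtain ⟨oM⟩ := exists_orient_of_beta M.toGBiv (M.comp (M.J (PMap.ofHomeo oneC)) xM)
    (M.comp xM' (M.J (PMap.ofHomeo oneC.symm))) (inv_transport M.toBiv oneC xM xM' hM1 hM2).1
    (inv_transport M.toBiv oneC xM xM' hM1 hM2).2 (hur_bott M.toGBiv xM hxM)
  obtain ⟨oS⟩ := exists_orient_of_x S.toGBiv (S.comp (S.J (PMap.ofHomeo twoC)) xS)
    (S.comp xS' (S.J (PMap.ofHomeo twoC.symm))) (inv_transport S.toBiv twoC xS xS' hS1 hS2).1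
    (inv_transport S.toBiv twoC xS xS' hS1 hS2).2 (hur_bottProduct S.toGBiv _ hg xS hxS)
  -- the theories with coefficients
  obtain ⟨PM⟩ := exists_PR M.toBiv
  obtain ⟨PS⟩ := exists_PR S.toBiv
  obtain ⟨yS, hyS⟩ := exists_hur PS.toGBiv (e := 1) one_pos (loopGK bott)
  obtain ⟨yM, hyM⟩ := exists_hur PM.toGBiv (e := 2) two_pos (loopGK (loopToU g))
  obtain ⟨NS⟩ := exists_teleGF PS.toBiv yS
  obtain ⟨NM⟩ := exists_teleGF PM.toBiv yM
  obtain ⟨c⟩ := tele_comm (e := 2) (e' := 1) two_pos one_pos (loopGK (loopToU g)) (loopGK bott)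
    S M PS PM yS yM hyS hyM NS NM
  -- `S` is a retract of the first telescope
  have hb := PS.hurewicz_beta oS (PS.comp (PS.J (PMap.ofHomeo oneC)) yS)
    (hur_bott PS.toGBiv yS hyS)
  have hyS' : PS.comp (PS.J (PMap.ofHomeo (oneC.symm.trans (LC.lunit LC.C).symm)))
      (PS.b oS 1) = yS := by
    have h2 : PS.J (PMap.ofHomeo (oneC.symm.trans (LC.lunit LC.C).symm)) =
        PS.comp (PS.J (PMap.ofHomeo oneC.symm)) (PS.J (PMap.ofHomeo (LC.lunit LC.C).symm)) := by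
      rw [← PS.J_comp]
      rfl
    rw [h2]
    refine (PS.assoc _ _ _).trans ?_
    refine (congrArg (PS.comp (PS.J (PMap.ofHomeo oneC.symm))) hb.symm).trans ?_
    refine (PS.assoc _ _ _).symm.trans ?_
    refine (congrArg (fun z => PS.comp z yS) (PS.invP_homeo oneC).2).trans ?_
    exact PS.id_comp _
  obtain ⟨i1, r1, h1⟩ : ∃ (i : S.toBiv.gf ⟶ NS.H) (r : NS.H ⟶ S.toBiv.gf), i ≫ r = 𝟙 _ := by
    subst hyS'
    exact Pool.Agent.Helper84.Sn.tele_retract oS PS _ NS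
  -- the second telescope is a sum of copies of `M`
  obtain ⟨ι, hι, ⟨sM⟩⟩ : ∃ (ι : Type) (_ : Countable ι),
      Nonempty (IsSum (fun _ : ι => M.toBiv.gf) NM.H) := by
    obtain ⟨q, hq⟩ := PM.hurewicz_x oM (PM.comp (PM.J (PMap.ofHomeo twoC)) yM)
      (hur_bottProduct PM.toGBiv _ hg yM hyM)
    refine Pool.Agent.Helper84.Sn.tele_sum oM PM (twoC.symm.trans ((LC.lunit LC.C).symm.prodCongr
      (LC.lunit LC.C).symm : LC.C.prod LC.C ≃ₜ (Cn 1).prod (Cn 1))) yM
      (fun i => M.comp (M.J (PMap.ofHomeo twoC.symm)) (q i)) ?_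
      (M.comp (M.J (PMap.ofHomeo oneC)) xM)
      ⟨_, (inv_transport M.toBiv oneC xM xM' hM1 hM2).1, (inv_transport M.toBiv oneC xM xM' hM1 hM2).2⟩ NM
    exact hur_transport PM oM yM q hq
  refine ⟨ι, hι, NM.H, sM.congr (fun _ => cM.symm), i0 ≫ cS.hom ≫ i1 ≫ c.hom,
    c.inv ≫ r1 ≫ cS.inv ≫ r0, ?_⟩
  change (i0 ≫ cS.hom ≫ i1 ≫ c.hom) ≫ c.inv ≫ r1 ≫ cS.inv ≫ r0 = 𝟙 (hP.obj (tele (mulMap g)))
  simp only [Category.assoc, Iso.hom_inv_id_assoc]
  rw [← Category.assoc i1 r1, h1, Category.id_comp, Iso.hom_inv_id_assoc, h0]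

/-- (UC) If a Bott product is the `m`-th power of a class then `m` is invertible on `MUP`. -/
theorem unit_chain {k k' : ℕ} (f : GenLoop (Fin 4) (Gr {1} k) (Gr.pt {1} k))
    (g : GenLoop (Fin 4) (Gr {1} k') (Gr.pt {1} k')) (hg : IsBottProduct (loopGK (loopToU g)))
    (m : ℤ) (h : hclass (toBGLoop g) = hclass (toBGLoop f) ^ m) :
    IsIso (m • 𝟙 (hP.obj MUP)) := by
  let M := thM
  obtain ⟨cM⟩ := comparison (e := 1) one_pos bott M
  obtain ⟨xM, xM', hxM, hM1, hM2⟩ := exists_hur_inv (e := 1) one_pos (loopGK bott) M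
  obtain ⟨oM⟩ := exists_orient_of_beta M.toGBiv (M.comp (M.J (PMap.ofHomeo oneC)) xM)
    (M.comp xM' (M.J (PMap.ofHomeo oneC.symm))) (inv_transport M.toBiv oneC xM xM' hM1 hM2).1
    (inv_transport M.toBiv oneC xM xM' hM1 hM2).2 (hur_bott M.toGBiv xM hxM)
  obtain ⟨PM⟩ := exists_PR M.toBiv
  obtain ⟨y, hy⟩ := exists_hur PM.toGBiv (e := 2) two_pos (loopGK (loopToU g))
  obtain ⟨z, hz⟩ := exists_hur PM.toGBiv (e := 2) two_pos (loopGK (loopToU f))
  obtain ⟨q, hq⟩ := PM.hurewicz_x oM (PM.comp (PM.J (PMap.ofHomeo twoC)) y)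
    (hur_bottProduct PM.toGBiv _ hg y hy)
  have h1 : IsIso (m • 𝟙 M.toBiv.gf) := unit_of_hur oM PM _ y z _
    (hur_transport PM oM y q hq) m (hur_pow PM.toGBiv f g m h z y hz hy)
  have h2 : (m • 𝟙 (hP.obj MUP)) = cM.hom ≫ (m • 𝟙 M.toBiv.gf) ≫ cM.inv := by
    rw [Preadditive.zsmul_comp, Category.id_comp, Preadditive.comp_zsmul, Iso.hom_inv_id]
    rfl
  rw [h2]
  exact IsIso.comp_isIso' (Iso.isIso_hom cM) (IsIso.comp_isIso' h1 (Iso.isIso_inv cM))

/-- (R) For a generator `f` of `π_4(BSU)` there is an integer `k` that is invertible on `MUP`, such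
that after inverting `k` the functor of `SBSU f` is a retract of a sum of copies of `MUP`. -/
theorem retract_theorem' {k : ℕ} (f : GenLoop (Fin 4) (Gr {1} k) (Gr.pt {1} k))
    (hf : Generates f) :
    ∃ (m : ℤ) (_ : IsIso (m • 𝟙 (hP.obj MUP))) (E' : GF) (q : hP.obj (SBSU f) ⟶ E')
      (_ : GF.IsLoc (Submonoid.powers m) q) (ι : Type) (_ : Countable ι) (A : GF)
      (_ : IsSum (fun _ : ι => hP.obj MUP) A) (i : E' ⟶ A) (r : A ⟶ E'), i ≫ r = 𝟙 E' := by
  obtain ⟨k', g, hg⟩ := exists_bottProduct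
  obtain ⟨m, hm⟩ := hf (hclass (toBGLoop g))
  obtain ⟨q, hq⟩ := tele_pow (D := {1}) (Or.inr rfl) (d := 3) (by decide) f g m hm
  obtain ⟨ι, hι, A, hA, i, r, hir⟩ := retract_chain g hg
  exact ⟨m, unit_chain f g hg m hm, _, q, hq, ι, hι, A, hA, i, r, hir⟩

end Pool.Agent.Helper1.Stab
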