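import Pool.Agent.Helper68.Stab.Free

/-! Functoriality of the replacement `X.free`. -/

open CategoryTheory Topology Filter Set Opposite

noncomputable section

namespace Pool.Agent.Helper1.Stab

/-- the map on the spaces `E0` -/
def E0map {X Y : Prespectrum} (φ : Prespectrum.Hom X Y) : C(X.E0, Y.E0) :=
  ⟨fun E => ⟨fun k => (φ.map k).comp (E.1 k), fun k t v => by
      change φ.map k (E.1 k (t, v)) = φ.map k (E.1 k (max 0 (min t k), v))
      rw [E.2.1 k t v], fun k t s v ht => by
      change φ.map (k + 1) (E.1 (k + 1) (t, Fin.cons s v)) = Y.str k (s, φ.map k (E.1 k (t, v)))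
      rw [E.2.2.1 k t s v ht, φ.map_str], fun k t v hv => by
      change φ.map k (E.1 k (t, v)) = (Y.sp k).pt
      rw [E.2.2.2 k t v hv, φ.map_pt]⟩,
    Prespectrum.continuous_E0 fun k => (φ.map k).continuous.comp (X.continuous_eval_E0 k)⟩

theorem E0map_apply {X Y : Prespectrum} (φ : Prespectrum.Hom X Y) (E : X.E0) (k : ℕ) (t : ℝ)
    (v : Fin k → unitInterval) : (E0map φ E).1 k (t, v) = φ.map k (E.1 k (t, v)) := rfl

/-- the shift of a map of prespectra -/
def upMap {X Y : Prespectrum} (φ : Prespectrum.Hom X Y) : Prespectrum.Hom X.up Y.up where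
  map n := φ.map (n + 1)
  map_pt n := φ.map_pt (n + 1)
  map_str n := φ.map_str (n + 1)

/-- the maps `X.free n → Y.free n` -/
def freeMapSp : ∀ (n : ℕ) {X Y : Prespectrum} (_ : Prespectrum.Hom X Y),
    C(freeSp n X, freeSp n Y)
  | 0, _, _, φ => E0map φ
  | n + 1, _, _, φ => freeMapSp n (upMap φ)

theorem freeMapSp_pt : ∀ (n : ℕ) {X Y : Prespectrum} (φ : Prespectrum.Hom X Y),
    freeMapSp n φ (freeSp n X).pt = (freeSp n Y).pt
  | 0, _, _, φ => Prespectrum.E0_ext fun k _ _ => φ.map_pt k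
  | n + 1, _, _, φ => freeMapSp_pt n (upMap φ)

theorem freeMapSp_str : ∀ (n : ℕ) {X Y : Prespectrum} (φ : Prespectrum.Hom X Y)
    (s : unitInterval) (x : freeSp n X),
    freeMapSp (n + 1) φ (freeStr n X (s, x)) = freeStr n Y (s, freeMapSp n φ x)
  | 0, _, Y, φ, s, x => Prespectrum.E0_ext (X := Y.up) fun _ _ _ => rfl
  | n + 1, _, _, φ, s, x => freeMapSp_str n (upMap φ) s x

/-- the map `X.free → Y.free` -/
def freeMap {X Y : Prespectrum} (φ : X ⟶ Y) : X.free ⟶ Y.free where
  map n := freeMapSp n φ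
  map_pt n := freeMapSp_pt n φ
  map_str n t x := freeMapSp_str n φ t x

theorem it_map {X Y : Prespectrum} (φ : Prespectrum.Hom X Y) (k : ℕ)
    (v : Fin k → unitInterval) (x : X.sp 0) :
    φ.map k (X.it k (v, x)) = Y.it k (v, φ.map 0 x) := by
  induction k with
  | zero => rfl
  | succ k ih =>
    change φ.map (k + 1) (X.str k (v 0, X.it k (fun i => v i.succ, x))) =
      Y.str k (v 0, Y.it k (fun i => v i.succ, φ.map 0 x))
    rw [φ.map_str, ih]

theorem freeMapSp_toFree : ∀ (n : ℕ) {X Y : Prespectrum} (φ : Prespectrum.Hom X Y)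
    (x : X.sp n), freeMapSp n φ (toFreeMap n X x) = toFreeMap n Y (φ.map n x)
  | 0, _, _, φ, x => Prespectrum.E0_ext fun k _ v => it_map φ k v x
  | n + 1, _, _, φ, x => freeMapSp_toFree n (upMap φ) x

theorem toFree_freeMap {X Y : Prespectrum} (φ : X ⟶ Y) :
    X.toFree ≫ freeMap φ = φ ≫ Y.toFree := by
  refine Prespectrum.Hom.ext (funext fun n => ContinuousMap.ext fun x => ?_)
  exact freeMapSp_toFree n φ x

end Pool.Agent.Helper1.Stab
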