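import Pool.Agent.Helper68.Stab.TestSp

/-! Graded functors on test spaces and the functor from spectra to graded functors. -/

open CategoryTheory Topology Filter Set Opposite

noncomputable section

namespace Pool.Agent.Helper1.Stab

/-! ## Test spaces -/

/-- complex suspension of test spaces -/
def Test.cx : Test ⥤ Test :=
  IsTest.lift (IsTest.ι ⋙ LC.prodL LC.C) (fun K => K.property.prodC)

/-- the sphere `ℝ^a` as a test space -/
def Test.R (a : ℕ) : Test := ⟨LC.rpow (Fin a), IsTest.rpow a⟩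

/-! ## Graded functors -/

/-- A graded functor: functors `H^b` on test spaces and isomorphisms `H^b(K) = H^(b+1)(ℂ × K)`. -/
structure GF where
  h : ℕ → (Testᵒᵖ ⥤ AddCommGrpCat.{0})
  σ : ∀ b, h b ≅ Test.cx.op ⋙ h (b + 1)

/-- A morphism of graded functors. -/
@[ext] structure GF.Hom (G H : GF) where
  app : ∀ b, G.h b ⟶ H.h b
  comm : ∀ b, (G.σ b).hom ≫ Functor.whiskerLeft Test.cx.op (app (b + 1)) = app b ≫ (H.σ b).hom

instance : Category GF where
  Hom := GF.Hom
  id G := ⟨fun b => 𝟙 _, fun b => by ext; simp⟩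
  comp f g := ⟨fun b => f.app b ≫ g.app b, fun b => by
    rw [Functor.whiskerLeft_comp, ← Category.assoc, f.comm, Category.assoc, g.comm,
      Category.assoc]⟩

theorem GF.Hom.comm_apply {G H : GF} (f : GF.Hom G H) (b : ℕ) (K : Testᵒᵖ) :
    (G.σ b).hom.app K ≫ (f.app (b + 1)).app (Test.cx.op.obj K) =
      (f.app b).app K ≫ (H.σ b).hom.app K :=
  congrArg (fun t => NatTrans.app t K) (f.comm b)

/-- constructor with the commutation written at objects -/
def GF.Hom.mk' {G H : GF} (app : ∀ b, G.h b ⟶ H.h b)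
    (comm : ∀ b K, (G.σ b).hom.app K ≫ (app (b + 1)).app (Test.cx.op.obj K) =
      (app b).app K ≫ (H.σ b).hom.app K) : G ⟶ H :=
  ⟨app, fun b => by ext1; ext1 K; exact comm b K⟩

instance (G H : GF) : Add (G ⟶ H) :=
  ⟨fun f g => GF.Hom.mk' (fun b => f.app b + g.app b) fun b K => by
    rw [NatTrans.app_add, NatTrans.app_add, Preadditive.comp_add, Preadditive.add_comp,
      f.comm_apply, g.comm_apply]⟩

instance (G H : GF) : Zero (G ⟶ H) :=
  ⟨GF.Hom.mk' (fun b => 0) fun b K => by
    rw [NatTrans.app_zero, NatTrans.app_zero, Limits.comp_zero, Limits.zero_comp]⟩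

instance (G H : GF) : Neg (G ⟶ H) :=
  ⟨fun f => GF.Hom.mk' (fun b => -f.app b) fun b K => by
    rw [NatTrans.app_neg, NatTrans.app_neg, Preadditive.comp_neg, Preadditive.neg_comp,
      f.comm_apply]⟩

theorem GF.add_app {G H : GF} (f g : G ⟶ H) (b : ℕ) : (f + g).app b = f.app b + g.app b := rfl
theorem GF.zero_app (G H : GF) (b : ℕ) : (0 : G ⟶ H).app b = 0 := rfl
theorem GF.neg_app {G H : GF} (f : G ⟶ H) (b : ℕ) : (-f).app b = -f.app b := rfl
theorem GF.comp_app {G H K : GF} (f : G ⟶ H) (g : H ⟶ K) (b : ℕ) :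
    (f ≫ g).app b = f.app b ≫ g.app b := rfl

theorem GF.hom_ext {G H : GF} {f g : G ⟶ H} (h : ∀ b, f.app b = g.app b) : f = g :=
  GF.Hom.ext (funext h)

instance (G H : GF) : AddCommGroup (G ⟶ H) where
  add_assoc f g h := GF.hom_ext fun b => add_assoc _ _ _
  zero_add f := GF.hom_ext fun b => zero_add _
  add_zero f := GF.hom_ext fun b => add_zero _
  neg_add_cancel f := GF.hom_ext fun b => neg_add_cancel _
  add_comm f g := GF.hom_ext fun b => add_comm _ _
  nsmul := nsmulRec
  zsmul := zsmulRec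

instance : Preadditive GF where
  add_comp _ _ _ f g h := GF.hom_ext fun b => Preadditive.add_comp _ _ _ _ _ _
  comp_add _ _ _ f g h := GF.hom_ext fun b => Preadditive.comp_add _ _ _ _ _ _

/-- evaluation at a test space -/
def GF.ev (b : ℕ) (K : Test) : GF ⥤ AddCommGrpCat.{0} where
  obj H := (H.h b).obj (op K)
  map f := (f.app b).app (op K)

instance (b : ℕ) (K : Test) : (GF.ev b K).Additive where
  map_add := rfl

/-- the shift `H[1]^b = H^(b+1)` -/
def GF.shift (H : GF) : GF := ⟨fun b => H.h (b + 1), fun b => H.σ (b + 1)⟩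

/-- the shift `H[-1]^b(K) = H^b(ℂ × K)` -/
def GF.unshift (H : GF) : GF :=
  ⟨fun b => Test.cx.op ⋙ H.h b, fun b => Functor.isoWhiskerLeft Test.cx.op (H.σ b)⟩

/-- the shifts `H[n]` -/
def GF.shiftZ (H : GF) : ℤ → GF
  | Int.ofNat k => GF.shift^[k] H
  | Int.negSucc k => GF.unshift^[k + 1] H

/-- restriction along a pointed map -/
def Test.res (H : Testᵒᵖ ⥤ AddCommGrpCat.{0}) {K L : LC} (hK : IsTest K) (hL : IsTest L)
    (f : PMap K L.plus) : (H.obj (op ⟨L, hL⟩) : Type) → (H.obj (op ⟨K, hK⟩) : Type) :=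
  H.map (Quiver.Hom.op (X := (⟨K, hK⟩ : Test)) (Y := (⟨L, hL⟩ : Test)) (ObjectProperty.homMk f.cls))

/-- Mayer–Vietoris for squares of test spaces -/
structure GF.Exact (H : GF) : Prop where
  mv1 : ∀ (b : ℕ) (K : LC) (u : C(K, ℝ)) (hK : IsTest K) (hA : IsTest (MV.A u))
    (hB : IsTest (MV.B u)) (hC : IsTest (MV.C u)) (x : (H.h b).obj (op ⟨K, hK⟩)),
    Test.res (H.h b) hA hK (MV.iA u) x = 0 → Test.res (H.h b) hB hK (MV.iB u) x = 0 →
    ∃ y, x = Test.res (H.h b) hK hC.prodR (MV.delta u) y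
  mv2 : ∀ (b : ℕ) (K : LC) (u : C(K, ℝ)) (hK : IsTest K) (hA : IsTest (MV.A u))
    (hB : IsTest (MV.B u)) (hC : IsTest (MV.C u)) (x : (H.h b).obj (op ⟨_, hA⟩))
    (y : (H.h b).obj (op ⟨_, hB⟩)),
    Test.res (H.h b) hC hA (MV.iCA u) x = Test.res (H.h b) hC hB (MV.iCB u) y →
    ∃ z, Test.res (H.h b) hA hK (MV.iA u) z = x ∧ Test.res (H.h b) hB hK (MV.iB u) z = y
  mv3 : ∀ (b : ℕ) (K : LC) (u : C(K, ℝ)) (hK : IsTest K) (hA : IsTest (MV.A u))
    (hB : IsTest (MV.B u)) (hC : IsTest (MV.C u)) (y : (H.h b).obj (op ⟨_, hC.prodR⟩)),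
    Test.res (H.h b) hK hC.prodR (MV.delta u) y = 0 →
    ∃ (s : (H.h b).obj (op ⟨_, hA.prodR⟩)) (t : (H.h b).obj (op ⟨_, hB.prodR⟩)),
      y = Test.res (H.h b) hC.prodR hA.prodR (PMap.ltens LC.R (MV.iCA u)) s -
        Test.res (H.h b) hC.prodR hB.prodR (PMap.ltens LC.R (MV.iCB u)) t

/-! ## The graded functor of a prespectrum -/

/-- an increasing homeomorphism of `ℝ` with the interior of `I` -/
def squash (t : ℝ) : unitInterval :=
  ⟨(1 + t / (1 + |t|)) / 2, by
    have h : |t| < 1 + |t| := by linarith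
    have h0 : 0 < 1 + |t| := by positivity
    have h1 : |t / (1 + |t|)| ≤ 1 := by
      rw [abs_div, abs_of_pos h0, div_le_one h0]; exact h.le
    constructor <;> linarith [(abs_le.1 h1).1, (abs_le.1 h1).2]⟩

theorem Sqh.val (t : ℝ) : ((squash t : unitInterval) : ℝ) = (1 + t / (1 + |t|)) / 2 := rfl

theorem Sqh.cont : Continuous squash := by
  refine Continuous.subtype_mk ?_ _
  refine Continuous.div_const (continuous_const.add ?_) 2
  exact continuous_id.div (continuous_const.add continuous_abs) fun t => by positivity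

theorem Sqh.mono : StrictMono squash := by
  intro s t hst
  rw [← Subtype.coe_lt_coe, Sqh.val, Sqh.val]
  have hs : 0 < 1 + |s| := by positivity
  have ht : 0 < 1 + |t| := by positivity
  have h : s / (1 + |s|) < t / (1 + |t|) := by
    rw [div_lt_div_iff₀ hs ht]
    rcases le_total 0 s with h1 | h1 <;> rcases le_total 0 t with h2 | h2
    · rw [abs_of_nonneg h1, abs_of_nonneg h2]; nlinarith
    · rw [abs_of_nonneg h1, abs_of_nonpos h2]; nlinarith
    · rw [abs_of_nonpos h1, abs_of_nonneg h2]; nlinarith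
    · rw [abs_of_nonpos h1, abs_of_nonpos h2]; nlinarith
  linarith

theorem Sqh.surj {s : unitInterval} (h0 : 0 < (s : ℝ)) (h1 : (s : ℝ) < 1) :
    ∃ t, squash t = s := by
  rcases le_total (s : ℝ) (1 / 2) with h | h
  · refine ⟨(2 * s - 1) / (2 * s), Subtype.ext ?_⟩
    rw [Sqh.val, abs_of_nonpos (div_nonpos_of_nonpos_of_nonneg (by linarith) (by linarith))]
    have : (2 * (s : ℝ)) ≠ 0 := by linarith
    field_simp
    ring
  · refine ⟨(2 * s - 1) / (2 - 2 * s), Subtype.ext ?_⟩
    rw [Sqh.val, abs_of_nonneg (div_nonneg (by linarith) (by linarith))]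
    have h2 : (2 - 2 * (s : ℝ)) ≠ 0 := by linarith
    have h3 : 1 + (2 * (s : ℝ) - 1) / (2 - 2 * s) = 1 / (2 - 2 * s) := by
      rw [eq_div_iff h2, add_mul, div_mul_cancel₀ _ h2]
      ring
    rw [h3, div_div_div_cancel_right₀ h2, div_one]
    ring

theorem Sqh.bounds (t : ℝ) : 0 < ((squash t : unitInterval) : ℝ) ∧
    ((squash t : unitInterval) : ℝ) < 1 := by
  have h1 : |t / (1 + |t|)| < 1 := by
    rw [abs_div, abs_of_pos (show 0 < 1 + |t| by positivity), div_lt_one (by positivity)]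
    linarith
  rw [Sqh.val]
  constructor <;> linarith [(abs_lt.1 h1).1, (abs_lt.1 h1).2]

theorem Sqh.range_eq : range squash = {s : unitInterval | 0 < (s : ℝ) ∧ (s : ℝ) < 1} := by
  ext s
  constructor
  · rintro ⟨t, rfl⟩
    exact Sqh.bounds t
  · rintro ⟨h0, h1⟩
    exact Sqh.surj h0 h1

theorem Sqh.emb : IsEmbedding squash := by
  refine Sqh.mono.isEmbedding_of_ordConnected ?_
  rw [Sqh.range_eq]
  refine ⟨fun x hx y hy z hz => ⟨lt_of_lt_of_le hx.1 hz.1, lt_of_le_of_lt hz.2 hy.2⟩⟩

/-- the structure map applied to a map: `ℝ × K → Y (n+1)` -/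
def Prespectrum.sig (Y : Prespectrum) {n : ℕ} {K : LC} (f : PMap K (Y.sp n)) :
    PMap (LC.R.prod K) (Y.sp (n + 1)) where
  toFun x := Y.str n (squash x.1, f x.2)
  cont := (Y.str n).continuous.comp
    ((Sqh.cont.comp continuous_fst).prodMk (f.cont.comp continuous_snd))
  infty := by
    have he : IsEmbedding (fun x : LC.R.prod K => ((squash x.1, (x.2 : OnePoint K)) :
        unitInterval × OnePoint K)) :=
      Sqh.emb.prodMap OnePoint.isOpenEmbedding_coe.isEmbedding
    refine (PMap.ofEmb (K := LC.R.prod K) (Y := Y.sp (n + 1)) _ he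
      (fun p => Y.str n (p.1, f.plus p.2)) ?_ ?_).infty
    · exact (Y.str n).continuous.comp
        (continuous_fst.prodMk (f.continuous_plus.comp continuous_snd))
    · rintro ⟨s, z⟩ hp
      induction z using OnePoint.rec with
      | infty => exact Y.str_pt n s
      | coe k =>
        by_cases h0 : s = 0
        · subst h0; exact Y.str_zero n _
        by_cases h1 : s = 1
        · subst h1; exact Y.str_one n _
        obtain ⟨t, rfl⟩ := Sqh.surj
          (lt_of_le_of_ne s.2.1 fun h => h0 (Subtype.ext h.symm))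
          (lt_of_le_of_ne s.2.2 fun h => h1 (Subtype.ext h))
        exact absurd ⟨(t, k), rfl⟩ hp

/-- `ℂ × K = ℝ × (ℝ × K)` -/
def LC.reIm (K : LC) : LC.C.prod K ≃ₜ LC.R.prod (LC.R.prod K) where
  toFun x := (x.1.re, (x.1.im, x.2))
  invFun x := (⟨x.1, x.2.1⟩, x.2.2)
  left_inv x := rfl
  right_inv x := rfl
  continuous_toFun := (Complex.continuous_re.comp continuous_fst).prodMk
    ((Complex.continuous_im.comp continuous_fst).prodMk continuous_snd)
  continuous_invFun := by
    refine Continuous.prodMk ?_ (continuous_snd.comp continuous_snd)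
    exact Complex.equivRealProdCLM.symm.continuous.comp
      (continuous_fst.prodMk (continuous_fst.comp continuous_snd))

/-- twice the structure map: `ℂ × K → Y (n+2)` -/
def Prespectrum.sigC (Y : Prespectrum) {n : ℕ} {K : LC} (f : PMap K (Y.sp n)) :
    PMap (LC.C.prod K) (Y.sp (n + 2)) where
  toFun x := Y.sig (Y.sig f) (x.1.re, (x.1.im, x.2))
  cont := (PMap.comp (Y.sig (Y.sig f)) (PMap.ofHomeo (LC.reIm K))).cont
  infty := (PMap.comp (Y.sig (Y.sig f)) (PMap.ofHomeo (LC.reIm K))).infty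

/-- stage `j` of `h_Y(K)` -/
abbrev Prespectrum.Rep (Y : Prespectrum) (j : ℕ) (K : LC) : Type :=
  PMap ((LC.cpow (Fin j)).prod K) (Y.sp (2 * j))

/-- `ℂ^(j+1) × K = ℂ × (ℂ^j × K)`, the first coordinate -/
def LC.headC (j : ℕ) (K : LC) :
    (LC.cpow (Fin (j + 1))).prod K ≃ₜ LC.C.prod ((LC.cpow (Fin j)).prod K) where
  toFun x := (x.1 0, (fun i => x.1 i.succ, x.2))
  invFun x := (Fin.cons x.1 x.2.1, x.2.2)
  left_inv x := by
    refine Prod.ext (funext fun i => ?_) rfl
    refine Fin.cases ?_ (fun i => ?_) i <;> simp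
  right_inv x := by simp
  continuous_toFun := by fun_prop
  continuous_invFun := by
    refine Continuous.prodMk (continuous_pi fun i => ?_) (by fun_prop)
    refine Fin.cases ?_ (fun i => ?_) i
    · simp only [Fin.cons_zero]; fun_prop
    · simp only [Fin.cons_succ]; fun_prop

/-- from stage `j` to stage `j + 1`: the new coordinate is the first one -/
def Prespectrum.Rep.next {Y : Prespectrum} {j : ℕ} {K : LC} (f : Y.Rep j K) : Y.Rep (j + 1) K where
  toFun x := Y.sigC f (x.1 0, (fun i => x.1 i.succ, x.2))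
  cont := (PMap.comp (Y.sigC f) (PMap.ofHomeo (LC.headC j K))).cont
  infty := (PMap.comp (Y.sigC f) (PMap.ofHomeo (LC.headC j K))).infty

/-- `Y` shifted up by `2 b` -/
def Prespectrum.upp : ℕ → Prespectrum → Prespectrum
  | 0, Y => Y
  | b + 1, Y => (Prespectrum.upp b Y).up.up

/-- The graded functor of a prespectrum: `H^b(K) = colim_j [ℂ^j × K, Y (2 b + 2 j)]`. -/
structure HTheory (Y : Prespectrum) where
  H : GF
  exact : H.Exact
  cls : ∀ {b j : ℕ} {K : Test}, (Y.upp b).Rep j K.obj → ((H.h b).obj (op K) : Type)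
  cls_homotopic : ∀ {b j : ℕ} {K : Test} {f g : (Y.upp b).Rep j K.obj}, PMap.Homotopic f g →
    cls f = cls g
  cls_next : ∀ {b j : ℕ} {K : Test} (f : (Y.upp b).Rep j K.obj), cls f.next = cls f
  cls_surj : ∀ {b : ℕ} {K : Test} (x : (H.h b).obj (op K)) (N : ℕ),
    ∃ j ≥ N, ∃ f : (Y.upp b).Rep j K.obj, x = cls f
  cls_eq : ∀ {b j : ℕ} {K : Test} {f g : (Y.upp b).Rep j K.obj}, cls f = cls g →
    ∃ n : ℕ, PMap.Homotopic (Nat.rec (motive := fun n => (Y.upp b).Rep (j + n) K.obj) f
      (fun _ r => r.next) n) (Nat.rec (motive := fun n => (Y.upp b).Rep (j + n) K.obj) g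
      (fun _ r => r.next) n)
  map_cls : ∀ {b j : ℕ} {K L : Test} (φ : PMap K.obj L.obj.plus) (f : (Y.upp b).Rep j L.obj),
    (H.h b).map (Quiver.Hom.op (X := K) (Y := L) (ObjectProperty.homMk φ.cls)) (cls f) =
      cls (PMap.comp f (PMap.ltens (LC.cpow (Fin j)) φ))
  σ_cls : ∀ {b j : ℕ} {K : Test} (f : (Y.upp b).Rep (j + 1) K.obj),
    ((H.σ b).hom.app (op K)) (cls f) =
      cls (b := b + 1) (j := j) (K := Test.cx.obj K)
        (PMap.comp f (PMap.ofHomeo (K := (LC.cpow (Fin j)).prod (LC.C.prod K.obj))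
          (L := (LC.cpow (Fin (j + 1))).prod K.obj)
          { toFun := fun x => (fun i => Fin.lastCases (motive := fun _ => ℂ) x.2.1 x.1 i, x.2.2)
            invFun := fun x => (fun i => x.1 i.castSucc, (x.1 (Fin.last j), x.2))
            left_inv := by
              rintro ⟨v, z, k⟩
              simp
            right_inv := by
              rintro ⟨v, k⟩
              refine Prod.ext (funext fun i => ?_) rfl
              refine Fin.lastCases ?_ (fun i => ?_) i <;> simp
            continuous_toFun := by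
              refine Continuous.prodMk (continuous_pi fun i => ?_) (by fun_prop)
              refine Fin.lastCases ?_ (fun i => ?_) i
              · simp only [Fin.lastCases_last]; fun_prop
              · simp only [Fin.lastCases_castSucc]; fun_prop
            continuous_invFun := by fun_prop }))

end Pool.Agent.Helper1.Stab
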