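import Pool.Agent.Helper1.Stab.FreeMap
import Pool.Agent.Helper56.BSU.Derive
import Pool.Agent.Helper86.Stab.Lev

/-! Retracts of wedges in the stable homotopy category. -/

open CategoryTheory Topology Filter Set Opposite

noncomputable section

namespace Pool.Agent.Helper1.Stab

/-- morphisms out of a sum are equal if their components are equal -/
theorem IsSum.hom_ext {ι : Type} {X : ι → GF} {A : GF} (S : IsSum X A) {Y : GF} {f g : A ⟶ Y}
    (h : ∀ i, S.inj i ≫ f = S.inj i ≫ g) : f = g := by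
  refine GF.hom_ext fun b => ?_
  apply NatTrans.ext
  funext K
  ext x
  change GF.evm b K.unop f x = GF.evm b K.unop g x
  obtain ⟨F, hF⟩ := S.fin' (b := b) (K := K.unop) x
  rw [hF, map_sum, map_sum]
  refine Finset.sum_congr rfl fun i _ => ?_
  rw [← GF.evm_comp, ← GF.evm_comp, Category.assoc, Category.assoc, h]

/-- a morphism between sums which is an isomorphism on the summands is an isomorphism -/
theorem IsSum.isIso_of_inj {ι : Type} {X X' : ι → GF} {A A' : GF} (S : IsSum X A)
    (S' : IsSum X' A') (e : ∀ i, X i ⟶ X' i) (he : ∀ i, IsIso (e i)) (u : A ⟶ A')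
    (h : ∀ i, S.inj i ≫ u = e i ≫ S'.inj i) : IsIso u := by
  obtain ⟨v, hv⟩ := S'.desc fun i => inv (e i) ≫ S.inj i
  refine ⟨v, S.hom_ext fun i => ?_, S'.hom_ext fun i => ?_⟩
  · rw [← Category.assoc, h, Category.assoc, hv, IsIso.hom_inv_id_assoc, Category.comp_id]
  · rw [← Category.assoc, hv, Category.assoc, h, IsIso.inv_hom_id_assoc, Category.comp_id]

/-- A retraction of graded functors of a prespectrum with compact levels off a sum of copies of
`hP M` can be realised in the stable homotopy category. -/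
theorem realise_retract {G M : Prespectrum} (hG : IsCompactLevel G) (hM : HasModel M)
    (hM1 : ∀ n, T1Space (M.sp n)) {ι : Type} {A : GF} (S : IsSum (fun _ : ι => hP.obj M) A)
    (i : hP.obj G ⟶ A) (r : A ⟶ hP.obj G) (hir : i ≫ r = 𝟙 _) :
    ∃ (I : spec G ⟶ spec (wedge fun _ : ι => M)) (R : spec (wedge fun _ : ι => M) ⟶ spec G),
      I ≫ R = 𝟙 _ := by
  obtain ⟨M', hM', wM, hwM⟩ := hM
  have iwM : IsIso (hP.map wM) := (stableEquiv_iff wM).1 hwM
  -- the components of `r`
  have h1 : ∀ j : ι, ∃ (T : Prespectrum) (w : T ⟶ M') (f : T ⟶ G.free), stableEquiv w ∧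
      IsCompactLevel T ∧ (∀ n, T1Space (T.sp n)) ∧
      hP.map f = hP.map w ≫ (hP.map wM ≫ S.inj j ≫ r) ≫ hP.map G.toFree :=
    fun j => realise_free hM' _
  choose T w f hw hTc hT1 hf using h1
  obtain ⟨S', inc', hinc', hdesc'⟩ := hP_wedge' T (fun j => hT1 j)
  obtain ⟨SM, inc, hinc, -⟩ := hP_wedge' (fun _ : ι => M) (fun _ => hM1)
  obtain ⟨F, hF⟩ := hdesc' G.free f
  obtain ⟨u, hu⟩ := hdesc' (wedge fun _ : ι => M) (fun j => (w j ≫ wM) ≫ inc j)
  have iw : ∀ j, IsIso (hP.map (w j ≫ wM)) := fun j => by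
    have h2 : IsIso (hP.map (w j)) := (stableEquiv_iff (w j)).1 (hw j)
    rw [Functor.map_comp]
    infer_instance
  have hus : stableEquiv u := by
    refine (stableEquiv_iff u).2 (S'.isIso_of_inj SM (fun j => hP.map (w j ≫ wM)) iw _ fun j => ?_)
    rw [← hinc', ← hinc, ← Functor.map_comp, hu, Functor.map_comp]
  -- the sum `A` is isomorphic to the value at the wedge of the `T j`
  obtain ⟨α, hα⟩ := S.desc (Y := hP.obj (wedge T))
    fun j => inv (hP.map (w j ≫ wM)) ≫ S'.inj j
  have hαF : α ≫ hP.map F = r ≫ hP.map G.toFree := by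
    refine S.hom_ext fun j => ?_
    rw [← Category.assoc, hα, Category.assoc, ← hinc', ← Functor.map_comp, hF, IsIso.inv_comp_eq,
      hf, Functor.map_comp]
    simp only [Category.assoc]
  -- realisation of `i`
  obtain ⟨T0, w0, g, hw0, -, -, hg⟩ := realise_free hG (i ≫ α)
  let c : T0 ⟶ G.free.free := g ≫ freeMap F
  have hc : stableEquiv c := by
    refine (stableEquiv_iff c).2 ?_
    have h2 : hP.map c = hP.map w0 ≫ hP.map G.toFree ≫ hP.map G.free.toFree := by
      change hP.map (g ≫ freeMap F) = _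
      rw [Functor.map_comp, hg]
      simp only [Category.assoc]
      rw [← Functor.map_comp, toFree_freeMap, Functor.map_comp, ← Category.assoc α, hαF]
      simp only [Category.assoc]
      rw [← Category.assoc i, hir, Category.id_comp]
    rw [h2]
    have h3 : IsIso (hP.map w0) := (stableEquiv_iff w0).1 hw0
    have h4 : IsIso (hP.map G.toFree) := G.isIso_toFree
    have h5 : IsIso (hP.map G.free.toFree) := G.free.isIso_toFree
    infer_instance
  have j1 : IsIso (stableEquiv.Q.map w0) := isIso_Q hw0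
  have j2 : IsIso (stableEquiv.Q.map (wedge T).toFree) := isIso_Q (stableEquiv_toFree _)
  have j3 : IsIso (stableEquiv.Q.map u) := isIso_Q hus
  have j4 : IsIso (stableEquiv.Q.map c) := isIso_Q hc
  refine ⟨inv (stableEquiv.Q.map w0) ≫ stableEquiv.Q.map g ≫
      inv (stableEquiv.Q.map (wedge T).toFree) ≫ stableEquiv.Q.map u,
    inv (stableEquiv.Q.map u) ≫ stableEquiv.Q.map (wedge T).toFree ≫
      stableEquiv.Q.map (freeMap F) ≫ inv (stableEquiv.Q.map c) ≫ stableEquiv.Q.map w0, ?_⟩
  have h6 : stableEquiv.Q.map g ≫ stableEquiv.Q.map (freeMap F) = stableEquiv.Q.map c :=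
    (Functor.map_comp _ _ _).symm
  have h7 : stableEquiv.Q.map g ≫ stableEquiv.Q.map (freeMap F) ≫ inv (stableEquiv.Q.map c) ≫
      stableEquiv.Q.map w0 = stableEquiv.Q.map w0 := by
    rw [← Category.assoc (stableEquiv.Q.map g), h6, IsIso.hom_inv_id_assoc]
  simp only [Category.assoc, IsIso.hom_inv_id_assoc, IsIso.inv_hom_id_assoc]
  rw [h7, IsIso.inv_hom_id]

theorem t1_MUP (n : ℕ) : T1Space (MUP.sp n) := by
  have h : T2Space (BG (Set.univ : Set ℂ)) := Pool.Agent.Helper36.Stab.t2_BG (Or.inl rfl)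
  have h2 := Sph.t2 (lev 2 n) (BG (Set.univ : Set ℂ))
  exact (inferInstance : T1Space (Sph (lev 2 n) (BG (Set.univ : Set ℂ))))

/-- an integer that is invertible on graded functors acts bijectively on stable homotopy groups -/
theorem bij_of_inv {m : ℤ} {X : Prespectrum} (h : IsIso (m • 𝟙 (hP.obj X))) (a b : ℕ) :
    Function.Bijective fun x : (piS a b).obj X => m • x := by
  obtain ⟨a', b', ⟨e⟩⟩ := piS_iso a b
  have h1 : IsIso ((GF.ev b' (Test.R a')).map (m • 𝟙 (hP.obj X))) := inferInstance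
  rw [Functor.map_zsmul, CategoryTheory.Functor.map_id, ConcreteCategory.isIso_iff_bijective]
    at h1
  have h2 : (fun x : (piS a b).obj X => m • x) =
      (fun y => (e.app X).inv y) ∘ (fun x : (GF.ev b' (Test.R a')).obj (hP.obj X) => m • x) ∘
        (fun x => (e.app X).hom x) := by
    funext x
    have h3 : (e.app X).inv ((e.app X).hom x) = x := by
      rw [← ConcreteCategory.comp_apply, Iso.hom_inv_id, ConcreteCategory.id_apply]
    change m • x = (e.app X).inv (m • (e.app X).hom x)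
    rw [map_zsmul, h3]
  rw [h2]
  have h4 : IsIso (e.app X).hom := inferInstance
  have h5 : IsIso (e.app X).inv := inferInstance
  rw [ConcreteCategory.isIso_iff_bijective] at h4 h5
  exact h5.comp (h1.comp h4)

/-- a localisation on all values at spheres is a localisation on stable homotopy groups -/
theorem loc_of_sphLoc {S : Submonoid ℤ} {X Y : Prespectrum} (q : spec X ⟶ spec Y)
    (h : SphLoc S (hm q)) (a b : ℕ) :
    IsLocalizedModule S ((piSHC a b).map q).hom.toIntLinearMap := by
  obtain ⟨a', b', t, ht⟩ := piSHC_arrow a b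
  refine isLoc_congr (t X).symm (t Y).symm ?_ (h b' a')
  rw [Iso.symm_hom, Iso.symm_hom, Iso.eq_inv_comp, ← Category.assoc, ← ht, Category.assoc,
    Iso.hom_inv_id, Category.comp_id]

/-- The retract theorem in the stable homotopy category. -/
def RetractSHC : Prop :=
  ∀ (k : ℕ) (f : GenLoop (Fin 4) (Gr {1} k) (Gr.pt {1} k)), Generates f →
    ∃ m : ℤ, (∀ a b, Function.Bijective fun x : (piS a b).obj MUP => m • x) ∧
      ∃ (E : Prespectrum) (q : spec (SBSU f) ⟶ spec E),
        (∀ a b, IsLocalizedModule (Submonoid.powers m) ((piSHC a b).map q).hom.toIntLinearMap) ∧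
        ∃ (ι : Type) (_ : Countable ι) (i : spec E ⟶ spec (wedge fun _ : ι => MUP))
          (r : spec (wedge fun _ : ι => MUP) ⟶ spec E), i ≫ r = 𝟙 _

theorem retractSHC (hR : RetractStatement) : RetractSHC := by
  intro k f hf
  obtain ⟨m, hm, E', q, hq, ι, hι, A, SA, i, r, hir⟩ := hR f hf
  refine ⟨m, fun a b => bij_of_inv hm a b, ?_⟩
  -- compact model of `SBSU f` and its localisation
  obtain ⟨G, hG, w, hw⟩ := hasModel_SBSU f
  have iw : IsIso (hP.map w) := (stableEquiv_iff w).1 hw
  have iw' : IsIso (stableEquiv.Q.map w) := isIso_Q hw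
  obtain ⟨E, hE, -, q', hq'⟩ := exists_loc_free hG (Submonoid.powers m)
  obtain ⟨e', he'⟩ := iso_loc' q' hq'
  obtain ⟨e, he⟩ := iso_loc' q hq
  have iL : IsIso ((GF.loc (Submonoid.powers m)).map (hP.map w)) := inferInstance
  -- the isomorphism `hP E ≅ E'`
  let ε : hP.obj E ≅ E' := e' ≪≫ asIso ((GF.loc (Submonoid.powers m)).map (hP.map w)) ≪≫ e.symm
  obtain ⟨Ψ, hΨ, -⟩ := realises_compact hG E q'
  refine ⟨E, inv (stableEquiv.Q.map w) ≫ Ψ, fun a b => loc_of_sphLoc _ ?_ a b, ι, hι, ?_⟩
  · have h6 : Stab.hm (inv (stableEquiv.Q.map w) ≫ Ψ) = inv (hP.map w) ≫ q' := by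
      rw [hm_comp]
      refine hm_inv_comp (stableEquiv.Q.map w) _ _ ?_
      rw [hΨ, hm_Q, IsIso.hom_inv_id_assoc]
    rw [h6]
    intro b a
    have i1 : IsIso ((GF.ev b (Test.R a)).map (hP.map w)) := inferInstance
    refine isLoc_congr (asIso ((GF.ev b (Test.R a)).map (hP.map w))) (Iso.refl _)
      (f := (GF.ev b (Test.R a)).map q') ?_ (hq' b (Test.R a))
    rw [Iso.refl_hom, Category.comp_id, asIso_hom, ← Functor.map_comp, IsIso.hom_inv_id_assoc]
  · refine realise_retract hE hasModel_MUP t1_MUP SA (ε.hom ≫ i) (r ≫ ε.inv) ?_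
    rw [Category.assoc, ← Category.assoc i, hir, Category.id_comp, Iso.hom_inv_id]

end Pool.Agent.Helper1.Stab
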