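import Pool.Agent.Helper1.Stab.Grass

/-! Spaces of projections, line bundles and their classes. -/

open Topology Filter Set Matrix

noncomputable section

namespace Pool.Agent.Helper1.Stab

/-! ## Spaces of projections -/

/-- The Hermitian projections of rank `n` on `ℂ^S`. -/
def Pr (S : Type) [Fintype S] (n : ℕ) : Type :=
  {P : Matrix S S ℂ // Pᴴ = P ∧ P * P = P ∧ P.trace = n}

instance (S : Type) [Fintype S] (n : ℕ) : TopologicalSpace (Pr S n) :=
  inferInstanceAs (TopologicalSpace (Subtype _))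

instance (S : Type) [Fintype S] (n : ℕ) : T2Space (Pr S n) := inferInstanceAs (T2Space (Subtype _))

instance (S : Type) [Fintype S] (n : ℕ) : CompactSpace (Pr S n) := by
  have h : IsCompact {P : Matrix S S ℂ | Pᴴ = P ∧ P * P = P ∧ P.trace = n} := by
    have hK : IsCompact (Set.pi univ (fun _ : S => Set.pi univ
        (fun _ : S => Metric.closedBall (0 : ℂ) 1))) :=
      isCompact_univ_pi fun _ => isCompact_univ_pi fun _ => isCompact_closedBall _ _
    refine IsCompact.of_isClosed_subset hK ?_ ?_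
    · refine IsClosed.inter ?_ (IsClosed.inter ?_ ?_)
      · exact isClosed_eq continuous_id.matrix_conjTranspose continuous_id
      · exact isClosed_eq (continuous_id.matrix_mul continuous_id) continuous_id
      · exact isClosed_eq continuous_id.matrix_trace continuous_const
    · intro P hP x _ y _
      rw [mem_closedBall_zero_iff]
      exact GK.entry_le P hP.1 hP.2.1 x y
  exact isCompact_iff_compactSpace.1 h

/-- spaces of projections as locally compact spaces -/
abbrev LC.Pr (S : Type) [Fintype S] (n : ℕ) : LC := ⟨Stab.Pr S n⟩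

theorem Pr.continuous_val69 {S : Type} [Fintype S] {n : ℕ} :
    Continuous (fun P : Pr S n => P.1) := continuous_subtype_val

open Classical in
theorem Pr.line_aux69 {S : Type} [Fintype S] (s : S) (M : Matrix S S ℂ)
    (h : ∀ x y, M x y = if x = s ∧ y = s then 1 else 0) :
    Mᴴ = M ∧ M * M = M ∧ M.trace = (1 : ℕ) := by
  refine ⟨?_, ?_, ?_⟩
  · ext x y
    rw [Matrix.conjTranspose_apply, h, h]
    by_cases h : x = s ∧ y = s
    · rw [if_pos h, if_pos h.symm, star_one]
    · rw [if_neg h, if_neg (fun h' => h h'.symm), star_zero]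
  · ext x y
    rw [Matrix.mul_apply, Finset.sum_eq_single s]
    · rw [h, h, h]
      by_cases h1 : x = s <;> by_cases h2 : y = s <;> simp [h1, h2]
    · intro b _ hb
      rw [h, if_neg (fun h' => hb h'.2), zero_mul]
    · intro h
      exact absurd (Finset.mem_univ _) h
  · rw [Matrix.trace, Finset.sum_eq_single s]
    · rw [Matrix.diag_apply, h]
      simp
    · intro b _ hb
      rw [Matrix.diag_apply, h, if_neg (fun h' => hb h'.1)]
    · intro h
      exact absurd (Finset.mem_univ _) h

open Classical in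
/-- the line of a coordinate vector -/
def Pr.line {S : Type} [Fintype S] (s : S) : Pr S 1 :=
  ⟨fun x y => if x = s ∧ y = s then 1 else 0, Pr.line_aux69 s _ fun _ _ => rfl⟩

theorem Pr.ext_aux69 {S T : Type} [Fintype S] [Fintype T] (j : S ↪ T) {n : ℕ} (P : Pr S n)
    (M : Matrix T T ℂ) (h1 : ∀ s t, M (j s) (j t) = P.1 s t)
    (h2 : ∀ x y, (¬ ∃ s, j s = x) → M x y = 0) (h3 : ∀ x y, (¬ ∃ s, j s = y) → M x y = 0) :
    Mᴴ = M ∧ M * M = M ∧ M.trace = n := by
  refine ⟨?_, ?_, ?_⟩
  · ext x y
    rw [Matrix.conjTranspose_apply]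
    by_cases hx : ∃ s, j s = x
    · by_cases hy : ∃ s, j s = y
      · obtain ⟨s, rfl⟩ := hx
        obtain ⟨t, rfl⟩ := hy
        rw [h1, h1]
        exact congrFun (congrFun P.2.1 s) t
      · rw [h2 _ _ hy, h3 _ _ hy, star_zero]
    · rw [h3 _ _ hx, h2 _ _ hx, star_zero]
  · ext x y
    rw [Matrix.mul_apply]
    by_cases hx : ∃ s, j s = x
    · by_cases hy : ∃ s, j s = y
      · obtain ⟨s, rfl⟩ := hx
        obtain ⟨t, rfl⟩ := hy
        rw [h1]
        have h := congrFun (congrFun P.2.2.1 s) t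
        rw [Matrix.mul_apply] at h
        rw [← h]
        symm
        refine Fintype.sum_of_injective j j.injective _ _ ?_ ?_
        · intro i hi
          rw [h3 _ _ (fun h => hi h), zero_mul]
        · intro i
          rw [h1, h1]
      · rw [h3 _ _ hy]
        refine Finset.sum_eq_zero fun i _ => ?_
        rw [h3 _ _ hy, mul_zero]
    · rw [h2 _ _ hx]
      refine Finset.sum_eq_zero fun i _ => ?_
      rw [h2 _ _ hx, zero_mul]
  · rw [← P.2.2.2, Matrix.trace, Matrix.trace]
    symm
    refine Fintype.sum_of_injective j j.injective _ _ ?_ ?_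
    · intro i hi
      exact h2 _ _ (fun h => hi h)
    · intro i
      exact (h1 _ _).symm

open Classical in
/-- extension by zero along an injection -/
def Pr.ext {S T : Type} [Fintype S] [Fintype T] (j : S ↪ T) {n : ℕ} (P : Pr S n) : Pr T n :=
  ⟨fun x y => if h : (∃ s, j s = x) ∧ (∃ s, j s = y) then P.1 h.1.choose h.2.choose else 0,
    by
      refine Pr.ext_aux69 j P _ (fun s t => ?_) (fun x y h => dif_neg (fun h' => h h'.1))
        (fun x y h => dif_neg (fun h' => h h'.2))
      have h : (∃ s', j s' = j s) ∧ (∃ s', j s' = j t) := ⟨⟨s, rfl⟩, ⟨t, rfl⟩⟩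
      rw [dif_pos h, j.injective h.1.choose_spec, j.injective h.2.choose_spec]⟩

theorem Pr.continuous_ext {S T : Type} [Fintype S] [Fintype T] (j : S ↪ T) {n : ℕ} :
    Continuous (Pr.ext j : Pr S n → Pr T n) := by
  refine Continuous.subtype_mk (continuous_matrix fun x y => ?_) _
  by_cases h : (∃ s, j s = x) ∧ (∃ s, j s = y)
  · simp only [dif_pos h]
    exact (continuous_apply_apply _ _).comp Pr.continuous_val69
  · simp only [dif_neg h]
    exact continuous_const

/-- block sum -/
def Pr.sum {S T : Type} [Fintype S] [Fintype T] {n m : ℕ} (x : Pr S n × Pr T m) :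
    Pr (S ⊕ T) (n + m) :=
  ⟨Matrix.fromBlocks x.1.1 0 0 x.2.1, by
    refine ⟨?_, ?_, ?_⟩
    · rw [Matrix.fromBlocks_conjTranspose, x.1.2.1, x.2.2.1, Matrix.conjTranspose_zero,
        Matrix.conjTranspose_zero]
    · rw [Matrix.fromBlocks_multiply, x.1.2.2.1, x.2.2.2.1]
      simp
    · have h1 := x.1.2.2.2
      have h2 := x.2.2.2.2
      rw [Matrix.trace] at h1 h2 ⊢
      rw [Fintype.sum_sum_type]
      refine Eq.trans ?_ ((congrArg₂ (· + ·) h1 h2).trans (Nat.cast_add n m).symm)
      rfl⟩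

theorem Pr.continuous_sum {S T : Type} [Fintype S] [Fintype T] {n m : ℕ} :
    Continuous (Pr.sum : Pr S n × Pr T m → Pr (S ⊕ T) (n + m)) := by
  refine Continuous.subtype_mk ?_ _
  exact Continuous.matrix_fromBlocks (Pr.continuous_val69.comp continuous_fst)
    continuous_const continuous_const (Pr.continuous_val69.comp continuous_snd)

/-- tensor product of lines -/
def Pr.tensor {S T : Type} [Fintype S] [Fintype T] (x : Pr S 1 × Pr T 1) : Pr (S × T) 1 :=
  ⟨fun p q => x.1.1 p.1 q.1 * x.2.1 p.2 q.2, by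
    refine ⟨?_, ?_, ?_⟩
    · have h := Matrix.conjTranspose_kronecker x.1.1 x.2.1
      rw [x.1.2.1, x.2.2.1] at h
      exact h
    · have h := Matrix.mul_kronecker_mul x.1.1 x.1.1 x.2.1 x.2.1
      rw [x.1.2.2.1, x.2.2.2.1] at h
      exact h.symm
    · have h := Matrix.trace_kronecker x.1.1 x.2.1
      rw [x.1.2.2.2, x.2.2.2.2] at h
      exact h.trans (by push_cast; ring)⟩

theorem Pr.continuous_tensor {S T : Type} [Fintype S] [Fintype T] :
    Continuous (Pr.tensor : Pr S 1 × Pr T 1 → Pr (S × T) 1) := by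
  refine Continuous.subtype_mk (continuous_matrix fun p q => ?_) _
  exact ((continuous_apply_apply _ _).comp (Pr.continuous_val69.comp continuous_fst)).mul
    ((continuous_apply_apply _ _).comp (Pr.continuous_val69.comp continuous_snd))

/-- a map of compact spaces, as a pointed map -/
def PMap.ofCont {K L : LC} [CompactSpace K] (f : K → L) (hf : Continuous f) : PMap K L.plus :=
  PMap.ofProper f hf (by rw [cocompact_eq_bot]; exact tendsto_bot)

/-- extension by zero as a pointed map -/
def Pr.extM {S T : Type} [Fintype S] [Fintype T] (j : S ↪ T) (n : ℕ) :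
    PMap (LC.Pr S n) (LC.Pr T n).plus :=
  PMap.ofCont (K := LC.Pr S n) (L := LC.Pr T n) (Pr.ext j) (Pr.continuous_ext j)

/-- Unitary equivalence of two families of projections: there is a continuous family of partial
isometries from the first to the second. -/
def UEquiv {X S T : Type} [TopologicalSpace X] [Fintype S] [Fintype T] {n m : ℕ} (P : X → Pr S n)
    (Q : X → Pr T m) : Prop :=
  ∃ w : X → Matrix T S ℂ, Continuous w ∧ (∀ x, (w x)ᴴ * w x = (P x).1) ∧
    ∀ x, w x * (w x)ᴴ = (Q x).1

namespace PJ2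

open ComplexOrder in
theorem mul_of_partial {S T : Type} [Fintype S] [Fintype T] {w : Matrix T S ℂ} {P : Matrix S S ℂ}
    (h : wᴴ * w = P) (hP : Pᴴ = P) (hP2 : P * P = P) : w * P = w := by
  have h1 : (w - w * P)ᴴ * (w - w * P) = 0 := by
    rw [conjTranspose_sub, conjTranspose_mul, hP, Matrix.sub_mul, Matrix.mul_sub, Matrix.mul_sub,
      ← Matrix.mul_assoc wᴴ w P, h, hP2, Matrix.mul_assoc P wᴴ w, h, hP2,
      Matrix.mul_assoc P wᴴ (w * P), ← Matrix.mul_assoc wᴴ w P, h, hP2, hP2]
    abel
  have h2 := conjTranspose_mul_self_eq_zero.1 h1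
  exact (sub_eq_zero.1 h2).symm

/-- The rotation matrix. -/
def rot {S T : Type} (c s : ℂ) (P : Matrix S S ℂ) (w : Matrix T S ℂ) (Q : Matrix T T ℂ) :
    Matrix (S ⊕ T) (S ⊕ T) ℂ :=
  fromBlocks ((c * c) • P) ((c * s) • wᴴ) ((c * s) • w) ((s * s) • Q)

theorem rot_spec {S T : Type} [Fintype S] [Fintype T] {n : ℕ} {c s : ℂ} (hc : star c = c)
    (hs : star s = s) (hcs : c * c + s * s = 1) (P : Pr S n) (Q : Pr T n) {w : Matrix T S ℂ}
    (h1 : wᴴ * w = P.1) (h2 : w * wᴴ = Q.1) :
    (rot c s P.1 w Q.1)ᴴ = rot c s P.1 w Q.1 ∧ rot c s P.1 w Q.1 * rot c s P.1 w Q.1 =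
      rot c s P.1 w Q.1 ∧ (rot c s P.1 w Q.1).trace = n := by
  obtain ⟨P, hP1, hP2, hP3⟩ := P
  obtain ⟨Q, hQ1, hQ2, hQ3⟩ := Q
  simp only at h1 h2 ⊢
  have e1 : w * P = w := mul_of_partial h1 hP1 hP2
  have e2 : Q * w = w := by rw [← h2, Matrix.mul_assoc, h1, e1]
  have e3 : P * wᴴ = wᴴ := by
    have := congrArg conjTranspose e1
    rwa [conjTranspose_mul, hP1] at this
  have e4 : wᴴ * Q = wᴴ := by
    have := congrArg conjTranspose e2
    rwa [conjTranspose_mul, hQ1] at this
  refine ⟨?_, ?_, ?_⟩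
  · unfold rot
    rw [fromBlocks_conjTranspose]
    simp only [conjTranspose_smul, conjTranspose_conjTranspose, hP1, hQ1, star_mul', hc, hs]
  · unfold rot
    rw [fromBlocks_multiply]
    simp only [Matrix.smul_mul, Matrix.mul_smul, smul_smul, hP2, hQ2, e1, e2, e3, e4, h1, h2,
      ← add_smul]
    have f1 : c * c * (c * c) + c * s * (c * s) = c * c := by linear_combination (c * c) * hcs
    have f2 : c * c * (c * s) + c * s * (s * s) = c * s := by linear_combination (c * s) * hcs
    have f3 : c * s * (c * c) + s * s * (c * s) = c * s := by linear_combination (c * s) * hcs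
    have f4 : c * s * (c * s) + s * s * (s * s) = s * s := by linear_combination (s * s) * hcs
    rw [f1, f2, f3, f4]
  · unfold rot
    have h5 : (fromBlocks ((c * c) • P) ((c * s) • wᴴ) ((c * s) • w) ((s * s) • Q)).trace =
        ((c * c) • P).trace + ((s * s) • Q).trace := by
      simp only [Matrix.trace, Matrix.diag, Fintype.sum_sum_type, fromBlocks_apply₁₁,
        fromBlocks_apply₂₂]
    rw [h5, trace_smul, trace_smul, hP3, hQ3, smul_eq_mul, smul_eq_mul]
    linear_combination (n : ℂ) * hcs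

theorem continuous_rot {X S T : Type} [TopologicalSpace X] {c s : X → ℂ} {P : X → Matrix S S ℂ}
    {w : X → Matrix T S ℂ} {Q : X → Matrix T T ℂ} (hc : Continuous c) (hs : Continuous s)
    (hP : Continuous P) (hw : Continuous w) (hQ : Continuous Q) :
    Continuous fun x => rot (c x) (s x) (P x) (w x) (Q x) := by
  unfold rot
  exact Continuous.matrix_fromBlocks ((hc.mul hc).smul hP) ((hc.mul hs).smul hw.matrix_conjTranspose)
    ((hc.mul hs).smul hw) ((hs.mul hs).smul hQ)

theorem ext_inl {S T : Type} [Fintype S] [Fintype T] {n : ℕ} (P : Pr S n) :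
    (Pr.ext ⟨Sum.inl, Sum.inl_injective⟩ P : Pr (S ⊕ T) n).1 = fromBlocks P.1 0 0 0 := by
  ext x y
  unfold Pr.ext
  rcases x with x | x <;> rcases y with y | y
  · have h : (∃ s : S, (Sum.inl s : S ⊕ T) = Sum.inl x) ∧ (∃ s : S, (Sum.inl s : S ⊕ T) = Sum.inl y) :=
      ⟨⟨x, rfl⟩, ⟨y, rfl⟩⟩
    have h1 := Sum.inl_injective h.1.choose_spec
    have h2 := Sum.inl_injective h.2.choose_spec
    simp only [Function.Embedding.coeFn_mk, dif_pos h, fromBlocks_apply₁₁, h1, h2]
  · simp
  · simp
  · simp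

theorem ext_inr {S T : Type} [Fintype S] [Fintype T] {n : ℕ} (P : Pr T n) :
    (Pr.ext ⟨Sum.inr, Sum.inr_injective⟩ P : Pr (S ⊕ T) n).1 = fromBlocks 0 0 0 P.1 := by
  ext x y
  unfold Pr.ext
  rcases x with x | x <;> rcases y with y | y
  · simp
  · simp
  · simp
  · have h : (∃ s : T, (Sum.inr s : S ⊕ T) = Sum.inr x) ∧ (∃ s : T, (Sum.inr s : S ⊕ T) = Sum.inr y) :=
      ⟨⟨x, rfl⟩, ⟨y, rfl⟩⟩
    have h1 := Sum.inr_injective h.1.choose_spec
    have h2 := Sum.inr_injective h.2.choose_spec
    simp only [Function.Embedding.coeFn_mk, dif_pos h, fromBlocks_apply₂₂, h1, h2]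

theorem cos_sin (t : ℝ) : (Real.cos t : ℂ) * (Real.cos t : ℂ) + (Real.sin t : ℂ) * (Real.sin t : ℂ) = 1 := by
  have := Real.cos_sq_add_sin_sq t
  rw [sq, sq] at this
  exact_mod_cast this

end PJ2

/-- Equivalent families of projections become homotopic in the sum. -/
theorem UEquiv.homotopic {X S T : Type} [TopologicalSpace X] [Fintype S] [Fintype T] {n : ℕ}
    {P : X → Pr S n} {Q : X → Pr T n} (h : UEquiv P Q) :
    ∃ H : unitInterval × X → Pr (S ⊕ T) n, Continuous H ∧
      (∀ x, H (0, x) = Pr.ext ⟨Sum.inl, Sum.inl_injective⟩ (P x)) ∧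
      ∀ x, H (1, x) = Pr.ext ⟨Sum.inr, Sum.inr_injective⟩ (Q x) := by
  obtain ⟨w, hw, h1, h2⟩ := h
  let c : unitInterval → ℂ := fun t => ((Real.cos (Real.pi / 2 * (t : ℝ)) : ℝ) : ℂ)
  let s : unitInterval → ℂ := fun t => ((Real.sin (Real.pi / 2 * (t : ℝ)) : ℝ) : ℂ)
  have hcc : Continuous c := by fun_prop
  have hsc : Continuous s := by fun_prop
  have hP : Continuous fun x => (P x).1 := by
    simp only [← h1]
    exact hw.matrix_conjTranspose.matrix_mul hw
  have hQ : Continuous fun x => (Q x).1 := by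
    simp only [← h2]
    exact hw.matrix_mul hw.matrix_conjTranspose
  refine ⟨fun x => ⟨PJ2.rot (c x.1) (s x.1) (P x.2).1 (w x.2) (Q x.2).1, PJ2.rot_spec
    (Complex.conj_ofReal _) (Complex.conj_ofReal _) (PJ2.cos_sin _) (P x.2) (Q x.2) (h1 x.2) (h2 x.2)⟩, ?_, ?_, ?_⟩
  · refine Continuous.subtype_mk ?_ _
    exact PJ2.continuous_rot (hcc.comp continuous_fst) (hsc.comp continuous_fst)
      (hP.comp continuous_snd) (hw.comp continuous_snd) (hQ.comp continuous_snd)
  · intro x
    refine Subtype.ext ?_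
    rw [PJ2.ext_inl]
    simp [PJ2.rot, c, s]
  · intro x
    refine Subtype.ext ?_
    rw [PJ2.ext_inr]
    simp [PJ2.rot, c, s]

/-! ## Graphs: maps `X ⇢ X × Pr S n` -/

/-- the graph `x ↦ (x, f x)` of a continuous map -/
def graph {X L : LC} (f : X → L) (hf : Continuous f) : PMap X (X.prod L).plus :=
  PMap.ofProper (K := X) (L := X.prod L) (fun x => (x, f x)) (continuous_id.prodMk hf)
    (MV.proper_aux (g := Prod.fst) continuous_fst tendsto_id)

/-! ## Orientations -/

open Classical in
/-- the affine coordinate `P ↦ v_0 / v_1` of the line `P = [v_0 : v_1]`, as a collapse of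
`ℂP¹` onto `ℂ`; it sends `[1 : 0]` to `∞` -/
def collP1Fun (P : Pr Bool 1) : OnePoint ℂ :=
  if P.1 false false = 0 then OnePoint.infty
  else ((P.1 true false / P.1 false false : ℂ) : OnePoint ℂ)

theorem collP1_aux : Continuous collP1Fun := by
  have hent : ∀ i j, Continuous fun P : Pr Bool 1 => P.1 i j := fun i j =>
    continuous_subtype_val.matrix_elem i j
  rw [continuous_iff_continuousAt]
  intro P
  by_cases hP : P.1 false false = 0
  · have hval : collP1Fun P = OnePoint.infty := by unfold collP1Fun; rw [if_pos hP]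
    rw [ContinuousAt, hval]
    intro V hV
    rw [OnePoint.nhds_infty_eq, Filter.mem_sup, Filter.mem_map, Filter.coclosedCompact_eq_cocompact,
      ← Metric.cobounded_eq_cocompact] at hV
    obtain ⟨hV1, hV2⟩ := hV
    obtain ⟨r, hr⟩ := (Metric.hasBasis_cobounded_compl_closedBall (0 : ℂ)).mem_iff.1 hV1
    have hr' : ∀ z : ℂ, |r| < ‖z‖ → ((z : ℂ) : OnePoint ℂ) ∈ V := by
      intro z hz
      refine hr.2 ?_
      rw [mem_compl_iff, Metric.mem_closedBall, dist_zero_right, not_le]
      exact (le_abs_self r).trans_lt hz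
    have hev : ∀ᶠ Q : Pr Bool 1 in 𝓝 P, ‖Q.1 false false‖ < (1 + r ^ 2)⁻¹ := by
      have h1 : ContinuousAt (fun Q : Pr Bool 1 => ‖Q.1 false false‖) P :=
        (hent false false).norm.continuousAt
      refine h1.eventually_lt continuousAt_const ?_
      rw [hP, norm_zero]
      positivity
    rw [Filter.mem_map]
    filter_upwards [hev] with Q hQ
    change collP1Fun Q ∈ V
    unfold collP1Fun
    split_ifs with h0
    · exact hV2
    · refine hr' _ ?_
      obtain ⟨hQ1, hQ2, -⟩ := Q.2
      have g1 : star (Q.1 false false) = Q.1 false false := congrFun (congrFun hQ1 false) false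
      have g2 : star (Q.1 true false) = Q.1 false true := congrFun (congrFun hQ1 false) true
      have g3 : Q.1 false true * Q.1 true false + Q.1 false false * Q.1 false false =
          Q.1 false false := by
        have := congrFun (congrFun hQ2 false) false
        rwa [Matrix.mul_apply, Fintype.sum_bool] at this
      obtain ⟨a, ha⟩ : ∃ a : ℝ, (a : ℂ) = Q.1 false false := Complex.conj_eq_iff_real.1 g1 |>.imp
        fun _ h => h.symm
      rw [← g2] at g3
      have g4 : star (Q.1 true false) * Q.1 true false = ((‖Q.1 true false‖ ^ 2 : ℝ) : ℂ) := by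
        rw [mul_comm]
        exact Complex.mul_conj' _ |>.trans (by push_cast; rfl)
      rw [g4, ← ha] at g3
      have g5 : ‖Q.1 true false‖ ^ 2 + a * a = a := by exact_mod_cast g3
      have ha0 : a ≠ 0 := by
        rintro rfl
        exact h0 (by rw [← ha]; simp)
      have ha1 : 0 < a := by
        have : 0 ≤ a := by nlinarith [sq_nonneg ‖Q.1 true false‖, mul_self_nonneg a]
        exact lt_of_le_of_ne this (Ne.symm ha0)
      rw [← ha, Complex.norm_real, Real.norm_eq_abs, abs_of_pos ha1, lt_inv_comm₀ ha1 (by positivity)]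
        at hQ
      rw [norm_div, ← ha, Complex.norm_real, Real.norm_eq_abs a, abs_of_pos ha1]
      have g6 : a * (1 + r ^ 2) < 1 := by
        have := mul_lt_mul_of_pos_left hQ ha1
        rwa [mul_inv_cancel₀ ha0] at this
      rw [lt_div_iff₀ ha1]
      refine lt_of_pow_lt_pow_left₀ 2 (norm_nonneg _) ?_
      rw [mul_pow, sq_abs]
      nlinarith
  · have hval : collP1Fun =ᶠ[𝓝 P] fun Q => ((Q.1 true false / Q.1 false false : ℂ) : OnePoint ℂ) := by
      have h1 : ∀ᶠ Q : Pr Bool 1 in 𝓝 P, Q.1 false false ≠ 0 :=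
        (hent false false).continuousAt.eventually_ne hP
      filter_upwards [h1] with Q hQ
      unfold collP1Fun
      rw [if_neg hQ]
    refine ContinuousAt.congr ?_ hval.symm
    exact OnePoint.continuous_coe.continuousAt.comp
      ((hent true false).continuousAt.div (hent false false).continuousAt hP)

/-- the collapse `ℂP¹ ⇢ ℂ` -/
def collP1 : PMap (LC.Pr Bool 1) LC.C.plus :=
  ⟨collP1Fun, collP1_aux, by rw [cocompact_eq_bot]; exact tendsto_bot⟩

/-- A complex orientation of a bivariant theory. -/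
structure Orient (R : Biv) where
  u : ∀ (S : Type) [Fintype S], R.Hom (LC.Pr S 1) LC.C
  u_ext : ∀ {S T : Type} [Fintype S] [Fintype T] (j : S ↪ T),
    R.comp (R.J (Pr.extM j 1)) (u T) = u S
  u_unit : u Unit = 0
  u_bool : u Bool = R.J collP1

namespace Orient
variable {R : Biv} (o : Orient R)

/-- the operator `X → X × ℂ` of a line bundle: the graph followed by the orientation class -/
def E {X : LC} {S : Type} [Fintype S] (l : X → Pr S 1) (hl : Continuous l) :
    R.Hom X (X.prod LC.C) :=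
  R.comp (R.J (graph (L := LC.Pr S 1) l hl)) (R.ltens X (o.u S))

theorem pj_ltens_comp (R : Biv) (Z : LC) {K L M : LC} (x : R.Hom K L) (y : R.Hom L M) :
    R.ltens Z (R.comp x y) = R.comp (R.ltens Z x) (R.ltens Z y) := by
  have hs : R.comp (R.J (PMap.ofHomeo (LC.swap L Z))) (R.J (PMap.ofHomeo (LC.swap Z L))) =
      R.J (PMap.id (L.prod Z)) := by
    rw [← R.J_comp]
    congr 1
  unfold BivData.ltens
  rw [R.tens_comp, R.assoc, R.assoc, R.assoc, ← R.assoc (R.J (PMap.ofHomeo (LC.swap L Z)))
    (R.J (PMap.ofHomeo (LC.swap Z L))), hs, R.id_comp]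

theorem pj_ltens_J (R : Biv) (Z : LC) {K L : LC} (f : PMap K L.plus) :
    R.ltens Z (R.J f) = R.J (PMap.ltens Z f) := by
  unfold BivData.ltens
  rw [R.tens_J, ← R.J_comp, ← R.J_comp]
  congr 1
  ext ⟨z, k⟩
  change (PMap.ofHomeo (LC.swap L Z)).plus (smashPt L Z (f k, (z : OnePoint Z))) =
    smashPt Z L ((z : OnePoint Z), f k)
  rcases f k with _ | l <;> rfl

theorem pj_comp_zero (R : Biv) {K L M : LC} (x : R.Hom K L) :
    R.comp x (0 : R.Hom L M) = 0 := by
  have h := R.comp_add x (0 : R.Hom L M) 0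
  rw [add_zero] at h
  exact left_eq_add.1 h

theorem pj_ltens_zero (R : Biv) (Z : LC) {K L : LC} : R.ltens Z (0 : R.Hom K L) = 0 := by
  have h : R.tens (0 : R.Hom K L) Z = 0 := by
    have h := R.tens_add (0 : R.Hom K L) 0 Z
    rw [add_zero] at h
    exact left_eq_add.1 h
  have h2 : R.comp (R.tens (0 : R.Hom K L) Z) (R.J (PMap.ofHomeo (LC.swap L Z))) = 0 := by
    have h3 := R.add_comp (0 : R.Hom (K.prod Z) (L.prod Z)) 0 (R.J (PMap.ofHomeo (LC.swap L Z)))
    rw [add_zero] at h3
    rw [h]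
    exact left_eq_add.1 h3
  unfold BivData.ltens
  rw [h2]
  exact pj_comp_zero R _

/-- extension by zero does not change the operator -/
theorem pj_E_ext {X : LC} {S T : Type} [Fintype S] [Fintype T] {l : X → Pr S 1}
    (hl : Continuous l) (j : S ↪ T) (hl' : Continuous fun x => Pr.ext j (l x)) :
    o.E (fun x => Pr.ext j (l x)) hl' = o.E l hl := by
  unfold E
  rw [← o.u_ext j, pj_ltens_comp, pj_ltens_J, ← R.assoc, ← R.J_comp]
  congr 2

theorem pj_graph_homotopic {X L : LC} {f g : X → L} (hf : Continuous f) (hg : Continuous g)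
    (H : unitInterval × X → L) (hH : Continuous H) (h0 : ∀ x, H (0, x) = f x)
    (h1 : ∀ x, H (1, x) = g x) : (graph f hf).Homotopic (graph g hg) := by
  refine ⟨PMap.ofProper (K := LC.I.prod X) (L := X.prod L) (fun p => (p.2, H p))
    (continuous_snd.prodMk hH) (MV.proper_aux (g := Prod.fst) continuous_fst ?_), ?_, ?_⟩
  · intro s hs
    obtain ⟨C, hC, hCs⟩ := mem_cocompact.1 hs
    refine mem_map.2 (mem_cocompact.2 ⟨univ ×ˢ C, isCompact_univ.prod hC, ?_⟩)
    rintro ⟨t, k⟩ h
    exact hCs fun hk => h ⟨trivial, hk⟩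
  · intro x
    change (((x, H (0, x)) : X.prod L) : OnePoint (X.prod L)) = ((x, f x) : X.prod L)
    rw [h0]
  · intro x
    change (((x, H (1, x)) : X.prod L) : OnePoint (X.prod L)) = ((x, g x) : X.prod L)
    rw [h1]

/-- equivalent line bundles have the same operator -/
theorem E_congr {X : LC} {S T : Type} [Fintype S] [Fintype T] {l : X → Pr S 1} {m : X → Pr T 1}
    (hl : Continuous l) (hm : Continuous m) (h : UEquiv l m) : o.E l hl = o.E m hm := by
  obtain ⟨H, hH, h0, h1⟩ := h.homotopic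
  rw [← o.pj_E_ext hl (⟨Sum.inl, Sum.inl_injective⟩ : S ↪ S ⊕ T)
    ((Pr.continuous_ext _).comp hl),
    ← o.pj_E_ext hm (⟨Sum.inr, Sum.inr_injective⟩ : T ↪ S ⊕ T) ((Pr.continuous_ext _).comp hm)]
  unfold E
  exact congrArg (fun z => R.comp z (R.ltens X (o.u (S ⊕ T))))
    (R.J_homotopic (pj_graph_homotopic (L := LC.Pr (S ⊕ T) 1) ((Pr.continuous_ext _).comp hl)
      ((Pr.continuous_ext _).comp hm) H hH h0 h1))

/-- naturality for partial maps -/
theorem E_natural {X Y : LC} {S : Type} [Fintype S] (φ : PMap Y X.plus) {l : X → Pr S 1}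
    {m : Y → Pr S 1} (hl : Continuous l) (hm : Continuous m)
    (h : ∀ y x, φ y = ((x : X) : OnePoint X) → m y = l x) :
    R.comp (R.J φ) (o.E l hl) = R.comp (o.E m hm) (R.tens (R.J φ) LC.C) := by
  unfold E
  rw [R.assoc, ← R.exch (R.J φ) (o.u S), ← R.assoc, ← R.assoc, R.tens_J, ← R.J_comp, ← R.J_comp]
  congr 2
  ext y
  change (graph (L := LC.Pr S 1) l hl).plus (φ y) =
    smashPt X (LC.Pr S 1) (φ y, ((m y : LC.Pr S 1) : OnePoint (LC.Pr S 1)))
  rcases hy : φ y with _ | x
  · rfl
  · have := h y x hy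
    rw [this]
    rfl

/-- the operator of a constant line bundle is zero -/
theorem E_const {X : LC} {S : Type} [Fintype S] (s : S) :
    o.E (X := X) (fun _ => Pr.line s) continuous_const = 0 := by
  let j : Unit ↪ S := ⟨fun _ => s, fun _ _ _ => rfl⟩
  have hj : Pr.ext j (Pr.line ()) = Pr.line s := by
    refine Subtype.ext ?_
    funext x y
    by_cases h : x = s ∧ y = s
    · have h' : (∃ u, j u = x) ∧ ∃ u, j u = y := ⟨⟨(), h.1.symm⟩, ⟨(), h.2.symm⟩⟩
      have e1 : (Pr.ext j (Pr.line ())).1 x y =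
        (Pr.line ()).1 h'.1.choose h'.2.choose := dif_pos h'
      have e2 : (Pr.line ()).1 h'.1.choose h'.2.choose = (1 : ℂ) := if_pos ⟨rfl, rfl⟩
      have e3 : (Pr.line s).1 x y = (1 : ℂ) := if_pos h
      exact e1.trans (e2.trans e3.symm)
    · have e1 : (Pr.ext j (Pr.line ())).1 x y = (0 : ℂ) :=
        dif_neg fun h' => h ⟨h'.1.choose_spec.symm, h'.2.choose_spec.symm⟩
      have e3 : (Pr.line s).1 x y = (0 : ℂ) := if_neg h
      exact e1.trans e3.symm
  have h1 := o.pj_E_ext (X := X) (l := fun _ => Pr.line ()) continuous_const j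
    (continuous_const (y := Pr.ext j (Pr.line ())))
  simp only [hj] at h1
  rw [h1]
  unfold E
  rw [o.u_unit, pj_ltens_zero]
  exact pj_comp_zero R _

/-- the powers `ℂ^i` as iterated products -/
def _root_.Pool.Agent.Helper1.Stab.Cn : ℕ → LC
  | 0 => LC.point
  | i + 1 => (Cn i).prod LC.C

/-- the powers `E^i : X → X × ℂ^i` -/
def Epow {X : LC} {S : Type} [Fintype S] (l : X → Pr S 1) (hl : Continuous l) :
    ∀ i : ℕ, R.Hom X (X.prod (Cn i))
  | 0 => R.J (PMap.ofHomeo (Homeomorph.prodPUnit X).symm)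
  | i + 1 => R.comp (Epow l hl i) (R.comp (R.tens (o.E l hl) (Cn i))
      (R.J (PMap.ofHomeo
        { toFun := fun x => (x.1.1, (x.2, x.1.2))
          invFun := fun x => ((x.1, x.2.2), x.2.1)
          left_inv := fun _ => rfl
          right_inv := fun _ => rfl
          continuous_toFun := by fun_prop
          continuous_invFun := by fun_prop :
          ((X.prod LC.C).prod (Cn i)) ≃ₜ X.prod ((Cn i).prod LC.C) })))

end Orient

end Pool.Agent.Helper1.Stab
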