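import Pool.Agent.Helper1.Stab.Yoneda
import Pool.Agent.Helper93.Stab.BG
import Pool.Agent.Helper86.Stab.Lev
import Pool.Agent.Helper19.Stab.Absorb
import Pool.Agent.Helper63.Stab.GrE
import Pool.Agent.Helper36.Stab.T2

/-! The compact model of the telescopes. -/

open CategoryTheory Topology Filter Set Opposite

noncomputable section

namespace Pool.Agent.Helper1.Stab

/-- A sub-prespectrum. -/
def Prespectrum.sub (Y : Prespectrum) (S : ∀ n, Set (Y.sp n)) (hpt : ∀ n, (Y.sp n).pt ∈ S n)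
    (hstr : ∀ n t, ∀ y ∈ S n, Y.str n (t, y) ∈ S (n + 1)) : Prespectrum where
  sp n := ⟨S n, ⟨(Y.sp n).pt, hpt n⟩⟩
  str n := ⟨fun x => ⟨Y.str n (x.1, x.2.1), hstr n x.1 x.2.1 x.2.2⟩,
    Continuous.subtype_mk ((Y.str n).continuous.comp
      (continuous_fst.prodMk (continuous_subtype_val.comp continuous_snd))) _⟩
  str_zero n x := Subtype.ext (Y.str_zero n x.1)
  str_one n x := Subtype.ext (Y.str_one n x.1)
  str_pt n t := Subtype.ext (Y.str_pt n t)

/-- the inclusion of a sub-prespectrum -/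
def Prespectrum.subInc (Y : Prespectrum) (S : ∀ n, Set (Y.sp n)) (hpt : ∀ n, (Y.sp n).pt ∈ S n)
    (hstr : ∀ n t, ∀ y ∈ S n, Y.str n (t, y) ∈ S (n + 1)) : Y.sub S hpt hstr ⟶ Y where
  map n := ⟨Subtype.val, continuous_subtype_val⟩
  map_pt _ := rfl
  map_str _ _ _ := rfl

/-- the number of the block of a level of a telescope -/
def blk (d : ℕ) : ℕ → ℕ
  | 0 => 0
  | n + 1 => if lev d n = d then blk d n + 1 else blk d n

/-- the image of `Gr D l` in `BG D` -/
def stage (D : Set ℂ) (l : ℕ) : Set (BG D) := range (toBG D l)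

/-- the points `[u, x]` with `x` in the stage `s (k + 1)` of `BG D`, `s` the number of the block -/
def modelSet {D : Set ℂ} {k d : ℕ} (f : GenLoop (Fin d) (Gr D k) (Gr.pt D k)) (n : ℕ) :
    Set ((tele (mulMap f)).sp n) :=
  {y | y = ((tele (mulMap f)).sp n).pt ∨ ∃ u : Fin (lev d n) → unitInterval,
    ∃ x ∈ stage D (blk d n * (k + 1)), y = (Sph.mk u x : Sph (lev d n) (BG D))}

theorem stage_succ (D : Set ℂ) (l : ℕ) : stage D l ⊆ stage D (l + 1) := by
  rintro _ ⟨A, rfl⟩
  induction A using Quot.ind with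
  | mk A => exact ⟨Quot.mk _ A.incl, (Quot.sound (.stab A)).symm⟩

theorem act_mem_stage (D : Set ℂ) (k l : ℕ) (W : Gr D k) {x : BG D} (hx : x ∈ stage D l) :
    act D k (W, x) ∈ stage D (k + l) := by
  obtain ⟨A, rfl⟩ := hx
  induction A using Quot.ind with
  | mk A =>
    induction W using Quot.ind with
    | mk B => exact ⟨Quot.mk _ (B.sum A), rfl⟩

theorem cast_mem_aux {D : Set ℂ} {k v v' s s' : ℕ} (e : v = v') (e' : s = s')
    (y : Sph v (BG D)) (hy : y = (Sph v (BG D)).pt ∨ ∃ u : Fin v → unitInterval,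
      ∃ x ∈ stage D (s * (k + 1)), y = Sph.mk u x) :
    Sph.cast e y = (Sph v' (BG D)).pt ∨ ∃ u : Fin v' → unitInterval,
      ∃ x ∈ stage D (s' * (k + 1)), Sph.cast e y = Sph.mk u x := by
  subst e e'
  exact hy

theorem teleStr_mem_aux {D : Set ℂ} {k d : ℕ} (f : GenLoop (Fin d) (Gr D k) (Gr.pt D k))
    (v s : ℕ) (t : unitInterval) (y : Sph v (BG D))
    (hy : y = (Sph v (BG D)).pt ∨ ∃ u : Fin v → unitInterval,
      ∃ x ∈ stage D (s * (k + 1)), y = Sph.mk u x) :
    teleStr (mulMap f) v t y = (Sph (if v = d then 1 else v + 1) (BG D)).pt ∨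
      ∃ u : Fin (if v = d then 1 else v + 1) → unitInterval,
      ∃ x ∈ stage D ((if v = d then s + 1 else s) * (k + 1)),
        teleStr (mulMap f) v t y = Sph.mk u x := by
  by_cases h : v = d
  · have e1 : teleStr (mulMap f) v t y = Sph.cast (if_pos h).symm
        (Sph.ind (mulMap f).toFun (mulMap f).bd t (Sph.cast h y)) := dif_pos h
    rw [e1]
    refine cast_mem_aux (k := k) (if_pos h).symm (if_pos h).symm _ ?_
    subst h
    rcases hy with rfl | ⟨u, x, hx, rfl⟩
    · exact Or.inl rfl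
    · right
      refine ⟨height (Fin.cons t u), act D k (if ((Fin.cons t u : Fin (v + 1) → unitInterval) 0 : ℝ)
        ≤ 1 / 2 then f (stretch (Fin.cons t u)) else Gr.pt D k, x), ?_, rfl⟩
      have h1 := stage_succ D _ (act_mem_stage D k _ (if ((Fin.cons t u : Fin (v + 1) →
        unitInterval) 0 : ℝ) ≤ 1 / 2 then f (stretch (Fin.cons t u)) else Gr.pt D k) hx)
      have e2 : (s + 1) * (k + 1) = k + s * (k + 1) + 1 := by ring
      rw [e2]
      exact h1
  · have e1 : teleStr (mulMap f) v t y = Sph.cast (if_neg h).symm (Sph.ind (k := v + 1)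
        (fun y => Sph.mk y.1 y.2) (fun u x hu => (Quot.sound (.bd u x hu)).symm) t y) := dif_neg h
    rw [e1]
    refine cast_mem_aux (k := k) (if_neg h).symm (if_neg h).symm _ ?_
    rcases hy with rfl | ⟨u, x, hx, rfl⟩
    · exact Or.inl rfl
    · exact Or.inr ⟨Fin.cons t u, x, hx, rfl⟩

theorem modelSet_str {D : Set ℂ} {k d : ℕ} (f : GenLoop (Fin d) (Gr D k) (Gr.pt D k)) (n : ℕ)
    (t : unitInterval) (y) (hy : y ∈ modelSet f n) :
    (tele (mulMap f)).str n (t, y) ∈ modelSet f (n + 1) :=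
  teleStr_mem_aux f (lev d n) (blk d n) t y hy

/-- The compact model of the telescope: level `n` in block `s` is the part of `S^v ∧ BG D ₊` over
the stage `s (k + 1)`. -/
def model {D : Set ℂ} {k d : ℕ} (f : GenLoop (Fin d) (Gr D k) (Gr.pt D k)) : Prespectrum :=
  (tele (mulMap f)).sub (modelSet f) (fun _ => Or.inl rfl) (fun n t y hy => modelSet_str f n t y hy)

/-- the inclusion of the compact model -/
def modelInc {D : Set ℂ} {k d : ℕ} (f : GenLoop (Fin d) (Gr D k) (Gr.pt D k)) :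
    model f ⟶ tele (mulMap f) := Prespectrum.subInc _ _ _ _

/-- `D` is one of the two sets used for `BU` and `BSU` -/
def GoodD (D : Set ℂ) : Prop := D = Set.univ ∨ D = {1}

/-! ### The levels of the compact model -/

/-- transport along an equality of levels -/
def Prespectrum.castSp (Y : Prespectrum) {a b : ℕ} (h : a = b) : Y.sp a ≃ₜ Y.sp b :=
  h ▸ Homeomorph.refl _

/-- the spaces of `Y.upp n` -/
def Prespectrum.uppCast (Y : Prespectrum) : ∀ n k : ℕ, (Y.upp n).sp k ≃ₜ Y.sp (2 * n + k)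
  | 0, k => Y.castSp (by omega)
  | n + 1, k => (Prespectrum.uppCast Y n (k + 2)).trans (Y.castSp (by omega))

theorem Prespectrum.castSp_pt (Y : Prespectrum) {a b : ℕ} (h : a = b) :
    Y.castSp h (Y.sp a).pt = (Y.sp b).pt := by
  subst h
  rfl

theorem Prespectrum.castSp_str (Y : Prespectrum) {a b : ℕ} (h : a = b) (h' : a + 1 = b + 1)
    (t : unitInterval) (x : Y.sp a) :
    Y.castSp h' (Y.str a (t, x)) = Y.str b (t, Y.castSp h x) := by
  subst h
  rfl

theorem Prespectrum.uppCast_pt (Y : Prespectrum) (n k : ℕ) :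
    Y.uppCast n k ((Y.upp n).sp k).pt = (Y.sp (2 * n + k)).pt := by
  induction n generalizing k with
  | zero => exact Y.castSp_pt _
  | succ n ih =>
    change Y.castSp _ (Y.uppCast n (k + 2) ((Y.upp n).sp (k + 2)).pt) = _
    rw [ih (k + 2)]
    exact Y.castSp_pt _

theorem Prespectrum.uppCast_str (Y : Prespectrum) (n k : ℕ) (t : unitInterval)
    (x : (Y.upp n).sp k) :
    Y.uppCast n (k + 1) ((Y.upp n).str k (t, x)) = Y.str (2 * n + k) (t, Y.uppCast n k x) := by
  induction n generalizing k with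
  | zero => exact Y.castSp_str (show k = 2 * 0 + k by omega) _ t x
  | succ n ih =>
    have h1 := ih (k + 2) x
    have h2 : 2 * n + (k + 2) = 2 * (n + 1) + k := by omega
    have h3 := Y.castSp_str h2 (by omega) t (Y.uppCast n (k + 2) x)
    rw [← h1] at h3
    exact h3

/-- `BG D` is a Hausdorff space -/
theorem t2_BG {D : Set ℂ} (hD : GoodD D) : T2Space (BG D) :=
  Pool.Agent.Helper36.Stab.t2_BG hD

theorem GoodD.dg {D : Set ℂ} (hD : GoodD D) : Pool.Agent.Helper93.Stab.DG D := by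
  rcases hD with rfl | rfl
  · exact Pool.Agent.Helper93.Stab.DG_univ
  · exact Pool.Agent.Helper93.Stab.DG_one

/-- Two frames of the same size have the same class in `BG D` if and only if they are related. -/
theorem mk_eq_iff {D : Set ℂ} (hD : GoodD D) {k : ℕ} (A B : Frame k) :
    (Quot.mk (BRel D) ⟨k, A⟩ : BG D) = Quot.mk (BRel D) ⟨k, B⟩ ↔ FrameRel D k A B :=
  Pool.Agent.Helper93.Stab.mk_eq_iff hD.dg A B

theorem isCompact_stage (D : Set ℂ) (l : ℕ) : IsCompact (stage D l) :=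
  Pool.Agent.Helper93.Stab.isCompact_range' D l

theorem isClosed_stage {D : Set ℂ} (hD : GoodD D) (l : ℕ) : IsClosed (stage D l) :=
  Pool.Agent.Helper93.Stab.isClosed_range hD.dg l

theorem stage_mono (D : Set ℂ) {l l' : ℕ} (h : l ≤ l') : stage D l ⊆ stage D l' :=
  Pool.Agent.Helper93.Stab.range_mono D h

/-- a compact set in `S^v ∧ BG D ₊` lies over a stage -/
theorem exists_stage_of_compact {D : Set ℂ} (hD : GoodD D) {v : ℕ} {C : Set (Sph v (BG D))}
    (hC : IsCompact C) : ∃ l : ℕ, ∀ y ∈ C, y = (Sph v (BG D)).pt ∨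
      ∃ u : Fin v → unitInterval, ∃ x ∈ stage D l, y = Sph.mk u x :=
  Pool.Agent.Helper93.Stab.exists_stage hD.dg hC

theorem t2_stage {D : Set ℂ} (hD : GoodD D) (l : ℕ) : T2Space (stage D l) := by
  have := t2_BG hD
  infer_instance

/-- a stage of `BG D` as a locally compact space -/
def stageLC {D : Set ℂ} (hD : GoodD D) (l : ℕ) : LC :=
  { carrier := stage D l
    lc := by
      haveI := t2_stage hD l
      haveI : CompactSpace (stage D l) := isCompact_iff_compactSpace.1 (isCompact_stage D l)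
      infer_instance
    t2 := t2_stage hD l }

theorem isCompact_cell_true {N : ℕ} (c : Fin N → ℤ × Bool) (h : ∀ i, (c i).2 = true) :
    IsCompact (cell c) := by
  have e : cell c = Set.pi univ (fun i => Icc ((c i).1 : ℝ) ((c i).1 + 1)) := by
    ext x
    constructor
    · intro hx i _
      have := hx i
      rw [if_pos (h i)] at this
      exact this
    · intro hx i
      rw [if_pos (h i)]
      exact hx i (mem_univ i)
  rw [e]
  exact isCompact_univ_pi fun i => isCompact_Icc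

/-- a compact set in an open set, enlarged by a factor, is covered by cells inside the open set -/
theorem exists_cubical {N : ℕ} (C : Set (Fin N → ℝ)) (hC : IsCompact C) (U : Set (Fin N → ℝ))
    (hU : IsOpen U) (hCU : C ⊆ U) : ∃ n : ℝ, 0 < n ∧ ∃ Q : Set (Fin N → ℝ), IsCompact Q ∧
      IsCubical Q ∧ (∀ x ∈ C, n • x ∈ Q) ∧ ∀ x ∈ Q, n⁻¹ • x ∈ U := by
  obtain ⟨δ, hδ, hsub⟩ := hC.exists_cthickening_subset_open hU hCU
  have hn : 0 < δ⁻¹ := inv_pos.2 hδ
  obtain ⟨R, hR⟩ := hC.isBounded.exists_norm_le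
  have hfin : {c : Fin N → ℤ × Bool | (∀ i, (c i).2 = true) ∧ ∃ x ∈ C, δ⁻¹ • x ∈ cell c}.Finite := by
    refine (Set.Finite.pi' (t := fun _ : Fin N =>
      (Icc (-(⌈δ⁻¹ * R⌉ + 1)) (⌈δ⁻¹ * R⌉ + 1) : Set ℤ) ×ˢ ({true} : Set Bool))
      (fun _ => (Set.finite_Icc _ _).prod (Set.finite_singleton _))).subset ?_
    rintro c ⟨hc, x, hx, hxc⟩ i
    have h1 := hxc i
    rw [if_pos (hc i)] at h1
    have h2 : |(δ⁻¹ • x) i| ≤ δ⁻¹ * R := by
      have h3 : ‖x i‖ ≤ R := (norm_le_pi_norm x i).trans (hR x hx)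
      rw [Real.norm_eq_abs] at h3
      rw [Pi.smul_apply, smul_eq_mul, abs_mul, abs_of_pos hn]
      exact mul_le_mul_of_nonneg_left h3 hn.le
    have h3 := abs_le.1 h2
    have h4 := Int.le_ceil (δ⁻¹ * R)
    refine ⟨⟨?_, ?_⟩, hc i⟩
    · have : ((-(⌈δ⁻¹ * R⌉ + 1) : ℤ) : ℝ) ≤ ((c i).1 : ℝ) := by
        push_cast
        linarith [h1.2, h3.1]
      exact_mod_cast this
    · have : ((c i).1 : ℝ) ≤ ((⌈δ⁻¹ * R⌉ + 1 : ℤ) : ℝ) := by
        push_cast
        linarith [h1.1, h3.2]
      exact_mod_cast this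
  refine ⟨δ⁻¹, hn, ⋃ c ∈ hfin.toFinset, cell c, ?_, ⟨_, rfl⟩, ?_, ?_⟩
  · refine hfin.toFinset.isCompact_biUnion fun c hc => ?_
    exact isCompact_cell_true c (hfin.mem_toFinset.1 hc).1
  · intro x hx
    have hxc : δ⁻¹ • x ∈ cell fun i => (⌊(δ⁻¹ • x) i⌋, true) := by
      intro i
      rw [if_pos rfl]
      exact ⟨Int.floor_le _, (Int.lt_floor_add_one _).le⟩
    refine mem_iUnion₂.2 ⟨fun i => (⌊(δ⁻¹ • x) i⌋, true), ?_, hxc⟩
    exact hfin.mem_toFinset.2 ⟨fun _ => rfl, x, hx, hxc⟩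
  · intro x hx
    obtain ⟨c, hc, hxc⟩ := mem_iUnion₂.1 hx
    obtain ⟨hc1, y, hy, hyc⟩ := hfin.mem_toFinset.1 hc
    apply hsub
    refine Metric.mem_cthickening_of_dist_le _ y δ C hy ?_
    have h1 : ‖x - δ⁻¹ • y‖ ≤ 1 := by
      rw [pi_norm_le_iff_of_nonneg zero_le_one]
      intro i
      have h2 := hxc i
      have h3 := hyc i
      rw [if_pos (hc1 i)] at h2 h3
      rw [Pi.sub_apply, Real.norm_eq_abs, abs_le]
      constructor
      · linarith [h2.1, h3.2]
      · linarith [h2.2, h3.1]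
    have h2 : δ⁻¹⁻¹ • x - y = δ • (x - δ⁻¹ • y) := by
      rw [smul_sub, smul_smul, mul_inv_cancel₀ hδ.ne', one_smul, inv_inv]
    rw [dist_eq_norm, h2, norm_smul, Real.norm_eq_abs, abs_of_pos hδ]
    calc δ * ‖x - δ⁻¹ • y‖ ≤ δ * 1 := mul_le_mul_of_nonneg_left h1 hδ.le
      _ = δ := mul_one δ

/-- a compact neighbourhood retract of a Euclidean space is a test space -/
theorem isTest_of_retract {N : ℕ} (C : Set (Fin N → ℝ)) (hC : IsCompact C)
    (U : Set (Fin N → ℝ)) (hU : IsOpen U) (hCU : C ⊆ U) (r : (Fin N → ℝ) → (Fin N → ℝ))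
    (hr : ContinuousOn r U) (hrC : ∀ x ∈ U, r x ∈ C) (hri : ∀ x ∈ C, r x = x) :
    IsTest ((LC.rpow (Fin N)).closed C hC.isClosed) := by
  obtain ⟨n, hn, Q, hQ, hcub, h1, h2⟩ := exists_cubical C hC U hU hCU
  have i1 : CompactSpace ((LC.rpow (Fin N)).closed C hC.isClosed) :=
    isCompact_iff_compactSpace.1 hC
  have i2 : CompactSpace Q := isCompact_iff_compactSpace.1 hQ
  have i3 : CompactSpace ((LC.rpow (Fin 0)).prod ((LC.rpow (Fin N)).closed Q hQ.isClosed)) := by
    change CompactSpace ((Fin 0 → ℝ) × Q)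
    infer_instance
  have c1 : Continuous fun x : (LC.rpow (Fin N)).closed C hC.isClosed =>
      ((fun j : Fin 0 => j.elim0, ⟨n • x.1, h1 x.1 x.2⟩) :
        (LC.rpow (Fin 0)).prod ((LC.rpow (Fin N)).closed Q hQ.isClosed)) := by
    refine continuous_const.prodMk (Continuous.subtype_mk ?_ _)
    exact continuous_subtype_val.const_smul n
  have c2 : Continuous fun y : (LC.rpow (Fin 0)).prod ((LC.rpow (Fin N)).closed Q hQ.isClosed) =>
      (⟨r (n⁻¹ • y.2.1), hrC _ (h2 y.2.1 y.2.2)⟩ : (LC.rpow (Fin N)).closed C hC.isClosed) := by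
    refine Continuous.subtype_mk ?_ _
    refine hr.comp_continuous ?_ (fun y => h2 y.2.1 y.2.2)
    exact (continuous_subtype_val.comp continuous_snd).const_smul n⁻¹
  refine ⟨0, N, Q, hQ.isClosed, hcub, (PMap.ofProper _ c1 ?_).cls, (PMap.ofProper _ c2 ?_).cls, ?_⟩
  · rw [Filter.cocompact_eq_bot]
    exact tendsto_bot
  · rw [Filter.cocompact_eq_bot]
    exact tendsto_bot
  · change (HMap.comp (PMap.cls _) (PMap.cls _)) = (PMap.id _).cls
    rw [HMap.comp_cls]
    congr 1
    refine PMap.ext fun k => ?_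
    have hk : r (n⁻¹ • (n • k.1)) = k.1 := by
      rw [smul_smul, inv_mul_cancel₀ hn.ne', one_smul, hri _ k.2]
    exact congrArg (fun z : (LC.rpow (Fin N)).closed C hC.isClosed =>
      (OnePoint.some z : OnePoint ((LC.rpow (Fin N)).closed C hC.isClosed))) (Subtype.ext hk)

theorem isTest_stage {D : Set ℂ} (hD : GoodD D) (l : ℕ) : IsTest (stageLC hD l) := by
  haveI : T2Space (range (toBG D l)) := t2_stage hD l
  obtain ⟨N, C, hC, ⟨U, r, hU, hCU, hr, h1, h2⟩, ⟨e⟩⟩ := Pool.Agent.Helper63.Stab.exists_nr hD l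
  exact Pool.Agent.Helper63.Stab.isTest_of_homeo (K := (LC.rpow (Fin N)).closed C hC.isClosed)
    (L := stageLC hD l) e.symm (isTest_of_retract C hC U hU hCU r hr h1 h2)

/-- `ℝ^v × (stage)` -/
def modelK {D : Set ℂ} (hD : GoodD D) (k d n : ℕ) : LC :=
  (LC.rpow (Fin (lev d (2 * n)))).prod (stageLC hD (blk d (2 * n) * (k + 1)))

/-- the point `[u, y]` of the level `2 n` of the compact model -/
def modelPt {D : Set ℂ} (hD : GoodD D) {k d : ℕ} (f : GenLoop (Fin d) (Gr D k) (Gr.pt D k)) (n : ℕ)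
    (x : modelK hD k d n) : (model f).sp (2 * n) :=
  ⟨(Sph.mk (fun i => squash (x.1 i)) x.2.1 : Sph (lev d (2 * n)) (BG D)),
    Or.inr ⟨_, x.2.1, x.2.2, rfl⟩⟩

theorem exists_levels_aux {D : Set ℂ} (hD : GoodD D) {k d : ℕ} (hd : 0 < d)
    (f : GenLoop (Fin d) (Gr D k) (Gr.pt D k)) (n : ℕ) :
    ∃ e : ((model f).upp n).sp 0 ≃ₜ OnePoint (modelK hD k d n),
      e (((model f).upp n).sp 0).pt = OnePoint.infty ∧
      ∀ x : modelK hD k d n, (model f).uppCast n 0 (e.symm (x : OnePoint (modelK hD k d n))) =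
        modelPt hD f n x := by
  have := t2_BG hD
  have hc : CompactSpace (stageLC hD (blk d (2 * n) * (k + 1))) :=
    isCompact_iff_compactSpace.1 (isCompact_stage D (blk d (2 * n) * (k + 1)))
  obtain ⟨E, hE1, hE2⟩ := exists_homeo_onePoint (v := lev d (2 * n))
    (stageLC hD (blk d (2 * n) * (k + 1)))
    (Subtype.val : stage D (blk d (2 * n) * (k + 1)) → BG D) continuous_subtype_val
    Subtype.val_injective (modelSet f (2 * n)) (Or.inl rfl)
    (fun u z => Or.inr ⟨u, z.1, z.2, rfl⟩) (by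
      rintro y (hy | ⟨u, x, hx, hy⟩)
      · exact Or.inl hy
      · exact Or.inr ⟨u, ⟨x, hx⟩, hy⟩)
  let E' : OnePoint (modelK hD k d n) ≃ₜ (model f).sp (2 * n + 0) := E
  refine ⟨((model f).uppCast n 0).trans E'.symm, ?_, ?_⟩
  · change E'.symm ((model f).uppCast n 0 (((model f).upp n).sp 0).pt) = _
    rw [(model f).uppCast_pt n 0, Homeomorph.symm_apply_eq]
    exact hE1.symm
  · intro x
    change (model f).uppCast n 0 (((model f).uppCast n 0).symm (E'.symm.symm
      (x : OnePoint (modelK hD k d n)))) = _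
    rw [Homeomorph.apply_symm_apply]
    exact hE2 x

/-- the levels of the compact model -/
def levelsModel {D : Set ℂ} (hD : GoodD D) {k d : ℕ} (hd : 0 < d)
    (f : GenLoop (Fin d) (Gr D k) (Gr.pt D k)) : Levels (model f) where
  K := modelK hD k d
  test n := (isTest_stage hD _).rprod _
  e n := (exists_levels_aux hD hd f n).choose
  e_pt n := (exists_levels_aux hD hd f n).choose_spec.1

/-! ### The inclusion of the compact model is a stable equivalence -/

/-- the part of `S^v ∧ BG D ₊` over the stage `l` -/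
def overS (D : Set ℂ) (v l : ℕ) : Set (Sph v (BG D)) :=
  {y | y = (Sph v (BG D)).pt ∨ ∃ u : Fin v → unitInterval, ∃ x ∈ stage D l, y = Sph.mk u x}

theorem cast_mem_overS {D : Set ℂ} {a b l : ℕ} (h : a = b) {y : Sph a (BG D)}
    (hy : y ∈ overS D a l) : Sph.cast h y ∈ overS D b l := by
  subst h
  exact hy

/-- the structure maps of the telescope move the stages -/
theorem teleStr_mem_overS {D : Set ℂ} {k d : ℕ} (f : GenLoop (Fin d) (Gr D k) (Gr.pt D k))
    (v l : ℕ) (t : unitInterval) (y : Sph v (BG D)) (hy : y ∈ overS D v l) :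
    teleStr (mulMap f) v t y ∈
      overS D (if v = d then 1 else v + 1) (if v = d then k + l else l) := by
  rcases hy with rfl | ⟨u, x, hx, rfl⟩
  · exact Or.inl (teleStr_pt _ _ _)
  · by_cases h : v = d
    · subst h
      unfold teleStr
      rw [dif_pos rfl]
      rw [show (if v = v then k + l else l) = k + l from if_pos rfl]
      exact cast_mem_overS _ (Or.inr ⟨height (Fin.cons t u), _, act_mem_stage _ _ _ _ hx, rfl⟩)
    · unfold teleStr
      rw [dif_neg h]
      rw [show (if v = d then k + l else l) = l from if_neg h]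
      exact cast_mem_overS _ (Or.inr ⟨Fin.cons t u, x, hx, rfl⟩)

theorem lev_le {d : ℕ} (hd : 0 < d) (n : ℕ) : lev d n ≤ d := by
  induction n with
  | zero => exact Nat.zero_le _
  | succ n ih =>
    show (if lev d n = d then 1 else lev d n + 1) ≤ d
    split_ifs with h <;> omega

theorem exists_blk_succ {d : ℕ} (hd : 0 < d) (n : ℕ) : ∃ j, blk d n + 1 ≤ blk d (n + j) := by
  obtain ⟨e, he⟩ : ∃ e, e = d - lev d n := ⟨_, rfl⟩
  induction e generalizing n with
  | zero =>
    have h1 : lev d n = d := by have := lev_le hd n; omega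
    refine ⟨1, ?_⟩
    show blk d n + 1 ≤ if lev d n = d then blk d n + 1 else blk d n
    rw [if_pos h1]
  | succ e ih =>
    have h1 : lev d n ≠ d := by omega
    have h2 : lev d (n + 1) = lev d n + 1 := if_neg h1
    have h3 : blk d (n + 1) = blk d n := if_neg h1
    obtain ⟨j, hj⟩ := ih (n + 1) (by omega)
    refine ⟨j + 1, ?_⟩
    rw [h3, show n + 1 + j = n + (j + 1) by omega] at hj
    exact hj

theorem exists_blk {d : ℕ} (hd : 0 < d) (L n : ℕ) : ∃ j, L ≤ blk d (n + j) := by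
  induction L with
  | zero => exact ⟨0, Nat.zero_le _⟩
  | succ L ih =>
    obtain ⟨j, hj⟩ := ih
    obtain ⟨j', hj'⟩ := exists_blk_succ hd (n + j)
    refine ⟨j + j', ?_⟩
    rw [show n + (j + j') = n + j + j' by omega]
    omega

theorem overS_mono {D : Set ℂ} {v l l' : ℕ} (h : stage D l ⊆ stage D l') :
    overS D v l ⊆ overS D v l' := by
  rintro y (rfl | ⟨u, x, hx, rfl⟩)
  · exact Or.inl rfl
  · exact Or.inr ⟨u, x, h hx, rfl⟩

theorem absorb_overS {D : Set ℂ} {k d : ℕ}
    (f : GenLoop (Fin d) (Gr D k) (Gr.pt D k)) (j : ℕ) :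
    ∀ (n l : ℕ) (C : Set ((tele (mulMap f)).sp n)), C ⊆ overS D (lev d n) l →
      l + k * blk d (n + j) ≤ blk d (n + j) * (k + 1) + k * blk d n →
      Pool.Agent.Helper19.Stab.Absorb (modelInc f) j n C := by
  induction j with
  | zero =>
    intro n l C hC hl y hy
    have hl' : l ≤ blk d n * (k + 1) := by
      rw [add_zero] at hl
      omega
    exact ⟨⟨y, overS_mono (stage_mono D hl') (hC hy)⟩, rfl⟩
  | succ j ih =>
    intro n l C hC hl
    refine ih (n + 1) (if lev d n = d then k + l else l) _ ?_ ?_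
    · rintro _ ⟨⟨t, y⟩, ⟨-, hy⟩, rfl⟩
      exact teleStr_mem_overS f (lev d n) l t y (hC hy)
    · rw [show n + 1 + j = n + (j + 1) by omega]
      have h3 : blk d (n + 1) = if lev d n = d then blk d n + 1 else blk d n := rfl
      rw [h3]
      split_ifs
      · rw [show k * (blk d n + 1) = k * blk d n + k by ring]
        omega
      · exact hl

theorem stableEquiv_modelInc {D : Set ℂ} (hD : GoodD D) {k d : ℕ} (hd : 0 < d)
    (f : GenLoop (Fin d) (Gr D k) (Gr.pt D k)) : stableEquiv (modelInc f) := by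
  refine Pool.Agent.Helper19.Stab.stableEquiv_of_absorb (modelInc f)
    (fun n => IsEmbedding.subtypeVal) fun n C hC => ?_
  obtain ⟨l, hl⟩ := exists_stage_of_compact hD (v := lev d n) hC
  obtain ⟨j, hj⟩ := exists_blk hd l n
  refine ⟨j, absorb_overS f j n l C hl ?_⟩
  rw [mul_add, mul_one, mul_comm k]
  omega

end Pool.Agent.Helper1.Stab
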