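import Pool.Agent.Helper1.Stab.PR
import Pool.Agent.Helper1.Stab.Comp2
import Pool.Agent.Helper63.Stab.HurC
import Pool.Agent.Helper89.Stab.Hur
import Pool.Agent.Helper73.Stab.UEq
import Pool.Agent.Helper93.Stab.BottSpec

/-! Orientations from invertible classes, and Hurewicz images. -/

open CategoryTheory Topology Filter Set Matrix Opposite

noncomputable section

namespace Pool.Agent.Helper1.Stab

open Classical in
theorem Pr.perp_aux69 {S : Type} [Fintype S] {n m : ℕ} (h : n + m = Fintype.card S) (P : Pr S n)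
    (M : Matrix S S ℂ) (hM : ∀ x y, M x y = (if x = y then 1 else 0) - P.1 x y) :
    Mᴴ = M ∧ M * M = M ∧ M.trace = m := by
  have h1 : M = 1 - P.1 := by
    ext x y
    rw [hM, Matrix.sub_apply, Matrix.one_apply]
  subst h1
  refine ⟨?_, ?_, ?_⟩
  · rw [conjTranspose_sub, conjTranspose_one, P.2.1]
  · rw [sub_mul, mul_sub, mul_sub, P.2.2.1]
    simp
  · rw [trace_sub, trace_one, P.2.2.2, ← h]
    push_cast
    ring

open Classical in
/-- the orthogonal complement -/
def Pr.perp {S : Type} [Fintype S] {n m : ℕ} (h : n + m = Fintype.card S) (P : Pr S n) : Pr S m :=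
  ⟨fun x y => (if x = y then 1 else 0) - P.1 x y, Pr.perp_aux69 h P _ fun _ _ => rfl⟩

theorem Pr.continuous_perp {S : Type} [Fintype S] {n m : ℕ} (h : n + m = Fintype.card S) :
    Continuous (Pr.perp h : Pr S n → Pr S m) := by
  refine Continuous.subtype_mk (continuous_matrix fun x y => ?_) _
  exact continuous_const.sub (Pr.continuous_val69.matrix_elem _ _)

open Classical in
theorem Pr.perp_val69 {S : Type} [Fintype S] {n m : ℕ} (h : n + m = Fintype.card S)
    (P : Pr S n) : (Pr.perp h P).1 = 1 - P.1 := by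
  ext x y
  rw [Matrix.sub_apply, Matrix.one_apply]
  rfl

theorem card_pos_of_pr {S : Type} [Fintype S] (P : Pr S 1) : 1 + (Fintype.card S - 1) =
    Fintype.card S := by
  have := P.le_card
  omega

namespace GBiv
variable (R : GBiv)

/-- a bundle and its complement -/
theorem bun_perp {K : LC} [CompactSpace K] {S : Type} [Fintype S] {n m : ℕ}
    (h : n + m = Fintype.card S) (E : C(K, Pr S n)) :
    R.mul (R.bun E) (R.bun ((⟨Pr.perp h, Pr.continuous_perp h⟩ : C(Pr S n, Pr S m)).comp E)) =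
      R.one K := by
  classical
  have h1 := R.bun_sum E ((⟨Pr.perp h, Pr.continuous_perp h⟩ : C(Pr S n, Pr S m)).comp E)
  rw [← h1]
  let I : Pr S (n + m) := ⟨1, conjTranspose_one, Matrix.one_mul 1, by rw [trace_one, h]⟩
  rw [← R.bun_const (K := K) I]
  refine R.bun_congr _ _ ⟨fun k => Matrix.fromCols (E k).1 (1 - (E k).1), ?_, fun k => ?_,
    fun k => ?_⟩
  · refine continuous_matrix fun x y => ?_
    have hE : Continuous fun k => (E k).1 := Pr.continuous_val69.comp E.continuous
    rcases y with y | y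
    · exact hE.matrix_elem _ _
    · exact (continuous_const.sub hE).matrix_elem _ _
  · have e1 : (1 - (E k).1)ᴴ = 1 - (E k).1 := by
      rw [conjTranspose_sub, conjTranspose_one, (E k).2.1]
    have e2 : (E k).1 * (1 - (E k).1) = 0 := by
      rw [mul_sub, Matrix.mul_one, (E k).2.2.1, sub_self]
    have e3 : (1 - (E k).1) * (E k).1 = 0 := by
      rw [sub_mul, one_mul, (E k).2.2.1, sub_self]
    have e4 : (1 - (E k).1) * (1 - (E k).1) = 1 - (E k).1 := by
      rw [sub_mul, e2, one_mul, sub_zero]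
    rw [conjTranspose_fromCols_eq_fromRows_conjTranspose, fromRows_mul_fromCols, (E k).2.1, e1,
      (E k).2.2.1, e2, e3, e4, ← Pr.perp_val69 h]
    rfl
  · have e1 : (1 - (E k).1)ᴴ = 1 - (E k).1 := by
      rw [conjTranspose_sub, conjTranspose_one, (E k).2.1]
    have e2 : (E k).1 * (1 - (E k).1) = 0 := by
      rw [mul_sub, Matrix.mul_one, (E k).2.2.1, sub_self]
    have e4 : (1 - (E k).1) * (1 - (E k).1) = 1 - (E k).1 := by
      rw [sub_mul, e2, one_mul, sub_zero]
    rw [conjTranspose_fromCols_eq_fromRows_conjTranspose, fromCols_mul_fromRows, (E k).2.1, e1,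
      (E k).2.2.1, e4]
    exact add_sub_cancel _ _

/-- the class of the tautological line over `ℂP^S` -/
def taut (S : Type) [Fintype S] : R.Hom (LC.Pr S 1) LC.point :=
  R.bun (K := LC.Pr S 1) (ContinuousMap.id _)

/-- the class of the complement of the tautological line over `ℂP^S` -/
def cotaut (S : Type) [Fintype S] : R.Hom (LC.Pr S 1) LC.point :=
  if h : 1 ≤ Fintype.card S then
    R.bun (K := LC.Pr S 1) (S := S) (n := Fintype.card S - 1)
      ⟨Pr.perp (by omega), Pr.continuous_perp (by omega)⟩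
  else 0

/-- The class of the virtual bundle `H ⊗ γ - H - γ + 1` over `ℂP^S × ℂP^T`, as the product of the
classes of `H ⊗ γ`, `H^⊥` and `γ^⊥`. -/
def theta (S T : Type) [Fintype S] [Fintype T] :
    R.Hom ((LC.Pr S 1).prod (LC.Pr T 1)) LC.point :=
  R.mul (K := (LC.Pr S 1).prod (LC.Pr T 1))
    (R.mul (K := (LC.Pr S 1).prod (LC.Pr T 1))
      (R.bun (K := (LC.Pr S 1).prod (LC.Pr T 1)) ⟨Pr.tensor, Pr.continuous_tensor⟩)
      (R.comp (R.J (PMap.ofCont (K := (LC.Pr S 1).prod (LC.Pr T 1)) (L := LC.Pr S 1)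
        Prod.fst continuous_fst)) (R.cotaut S)))
    (R.comp (R.J (PMap.ofCont (K := (LC.Pr S 1).prod (LC.Pr T 1)) (L := LC.Pr T 1)
        Prod.snd continuous_snd)) (R.cotaut T))

end GBiv

/-- the line of `(1, z)` -/
def p1mat69 (z : ℂ) : Matrix Bool Bool ℂ := fun i j =>
  ((1 + ‖z‖ ^ 2 : ℝ) : ℂ)⁻¹ * (bif i then z else 1) * (bif j then star z else 1)

theorem p1pos69 (z : ℂ) : ((1 + ‖z‖ ^ 2 : ℝ) : ℂ) ≠ 0 := by
  have : (0 : ℝ) < 1 + ‖z‖ ^ 2 := by positivity
  exact_mod_cast this.ne'

theorem p1conj69 (z : ℂ) : z * star z = ((1 + ‖z‖ ^ 2 : ℝ) : ℂ) - 1 := by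
  have h : z * star z = ((‖z‖ ^ 2 : ℝ) : ℂ) := by
    rw [Complex.ofReal_pow]
    exact Complex.mul_conj' z
  rw [h]
  push_cast
  ring

theorem p1mat_spec69 (z : ℂ) :
    (p1mat69 z)ᴴ = p1mat69 z ∧ p1mat69 z * p1mat69 z = p1mat69 z ∧
      (p1mat69 z).trace = (1 : ℕ) := by
  have hc := p1pos69 z
  have hz := p1conj69 z
  have hs : star (((1 + ‖z‖ ^ 2 : ℝ) : ℂ)⁻¹) = ((1 + ‖z‖ ^ 2 : ℝ) : ℂ)⁻¹ := by
    rw [star_inv₀]
    congr 1
    exact Complex.conj_ofReal _
  obtain ⟨c, hcd⟩ : ∃ c : ℂ, c = ((1 + ‖z‖ ^ 2 : ℝ) : ℂ) := ⟨_, rfl⟩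
  obtain ⟨w, hw⟩ : ∃ w : ℂ, w = star z := ⟨_, rfl⟩
  rw [← hcd] at hc hs
  rw [← hcd, ← hw] at hz
  have hM : ∀ i j, p1mat69 z i j = c⁻¹ * (bif i then z else 1) * (bif j then w else 1) := by
    intro i j
    rw [p1mat69, ← hcd, ← hw]
  refine ⟨?_, ?_, ?_⟩
  · ext i j
    rw [conjTranspose_apply, hM, hM, star_mul', star_mul', hs]
    rcases i with _ | _ <;> rcases j with _ | _ 
    · simp
    · simp [hw]
    · simp [hw]
    · simp [hw]; ring
  · ext i j
    rw [mul_apply, Fintype.sum_bool]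
    simp only [hM, cond_true, cond_false]
    field_simp
    rw [show w * z = c - 1 by rw [mul_comm]; exact hz]
    ring
  · rw [trace, Fintype.sum_bool]
    simp only [diag_apply, hM, cond_true, cond_false]
    field_simp
    rw [hz]
    push_cast
    ring

/-- the entries of a line in `ℂ²` -/
theorem p1rel69 (P : Pr Bool 1) : P.1 false true = star (P.1 true false) ∧
    P.1 true true = 1 - P.1 false false ∧
    P.1 true false * P.1 false true = P.1 false false * P.1 true true := by
  have h1 := congrFun (congrFun P.2.1 false) true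
  rw [conjTranspose_apply] at h1
  have h2 := P.2.2.2
  rw [trace, Fintype.sum_bool] at h2
  simp only [diag_apply, Nat.cast_one] at h2
  have h3 := congrFun (congrFun P.2.2.1 false) false
  rw [mul_apply, Fintype.sum_bool] at h3
  have h4 : P.1 true true = 1 - P.1 false false := by linear_combination h2
  refine ⟨h1.symm, h4, ?_⟩
  rw [h4]
  linear_combination h3

theorem p1ne69 (P : Pr Bool 1) (hP : P ≠ Pr.line true) : P.1 false false ≠ 0 := by
  intro h0
  apply hP
  obtain ⟨h1, h2, h3⟩ := p1rel69 P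
  rw [h0, zero_mul, h1] at h3
  have h4 : P.1 true false = 0 := by
    rcases mul_eq_zero.1 h3 with h | h
    · exact h
    · exact star_eq_zero.1 h
  rw [h4, star_zero] at h1
  rw [h0, sub_zero] at h2
  apply Subtype.ext
  ext i j
  rcases i with _ | _ <;> rcases j with _ | _
  · rw [h0]; simp [Pr.line]
  · rw [h1]; simp [Pr.line]
  · rw [h4]; simp [Pr.line]
  · rw [h2]; simp [Pr.line]

theorem p1line69 : (Pr.line true : Pr Bool 1).1 false false = 0 := by simp [Pr.line]

/-- `ℂP¹` without a point is `ℂ` -/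
def p1homeo69 : (LC.Pr Bool 1).minus (Pr.line true) ≃ₜ LC.C where
  toFun P := P.1.1 true false / P.1.1 false false
  invFun z := ⟨⟨p1mat69 z, p1mat_spec69 z⟩, fun h => by
    have h1 : (p1mat69 z) false false = 0 := by
      rw [← p1line69, ← show (⟨p1mat69 z, p1mat_spec69 z⟩ : Pr Bool 1) = Pr.line true from h]
    rw [p1mat69] at h1
    simp only [cond_false, mul_one] at h1
    exact inv_ne_zero (p1pos69 z) h1⟩
  left_inv := by
    intro P
    have hP := p1ne69 P.1 P.2
    obtain ⟨h1, h2, h3⟩ := p1rel69 P.1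
    have hr : star (P.1.1 false false) = P.1.1 false false := by
      have h := congrFun (congrFun P.1.2.1 false) false
      rw [conjTranspose_apply] at h
      exact h
    have hz : P.1.1 true false / P.1.1 false false * star (P.1.1 true false / P.1.1 false false) =
        P.1.1 true true / P.1.1 false false := by
      rw [star_div₀, hr, ← h1, div_mul_div_comm, h3]
      field_simp
    have hc : ((1 + ‖P.1.1 true false / P.1.1 false false‖ ^ 2 : ℝ) : ℂ) =
        (P.1.1 false false)⁻¹ := by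
      have h4 := p1conj69 (P.1.1 true false / P.1.1 false false)
      rw [hz] at h4
      rw [eq_add_of_sub_eq h4.symm, h2]
      field_simp
      ring
    apply Subtype.ext
    apply Subtype.ext
    ext i j
    change ((1 + ‖P.1.1 true false / P.1.1 false false‖ ^ 2 : ℝ) : ℂ)⁻¹ *
      (bif i then P.1.1 true false / P.1.1 false false else 1) *
      (bif j then star (P.1.1 true false / P.1.1 false false) else 1) = P.1.1 i j
    rw [hc, inv_inv]
    rcases i with _ | _ <;> rcases j with _ | _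
    · simp
    · simp only [cond_true, cond_false]
      rw [star_div₀, hr, ← h1]
      field_simp
    · simp only [cond_true, cond_false]
      field_simp
    · simp only [cond_true]
      rw [mul_assoc, hz]
      field_simp
  right_inv := by
    intro z
    change ((1 + ‖z‖ ^ 2 : ℝ) : ℂ)⁻¹ * z * 1 / (((1 + ‖z‖ ^ 2 : ℝ) : ℂ)⁻¹ * 1 * 1) = z
    have := p1pos69 z
    field_simp
  continuous_toFun := by
    have d1 : Continuous fun P : (LC.Pr Bool 1).minus (Pr.line true) =>
        (P.1 : Pr Bool 1) := continuous_subtype_val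
          (p := fun P : Pr Bool 1 => P ∈ ({Pr.line true}ᶜ : Set (Pr Bool 1)))
    have d2 : ∀ i j, Continuous fun P : (LC.Pr Bool 1).minus (Pr.line true) =>
        P.1.1 i j := fun i j => (Pr.continuous_val69.comp d1).matrix_elem i j
    exact (d2 true false).div (d2 false false) fun P => p1ne69 P.1 P.2
  continuous_invFun := by
    have c1 : Continuous fun z : ℂ => ((1 + ‖z‖ ^ 2 : ℝ) : ℂ)⁻¹ := by
      refine Continuous.inv₀ (Complex.continuous_ofReal.comp ?_) p1pos69
      exact continuous_const.add (continuous_norm.pow 2)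
    have c2 : Continuous fun z : ℂ => (⟨p1mat69 z, p1mat_spec69 z⟩ : Pr Bool 1) := by
      refine Continuous.subtype_mk (continuous_matrix fun i j => ?_) _
      refine (c1.mul ?_).mul ?_
      · rcases i with _ | _
        · exact continuous_const
        · exact continuous_id
      · rcases j with _ | _
        · exact continuous_const
        · exact continuous_star
    exact c2.subtype_mk _

theorem Pr.ext_ext69 {S T : Type} [Fintype S] [Fintype T] {n : ℕ} (j : S ↪ T) (i : T ↪ S)
    (h : ∀ x, i (j x) = x) (P : Pr S n) : Pr.ext i (Pr.ext j P) = P := by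
  apply Subtype.ext
  ext x y
  have h1 := ThL.ext_apply i (Pr.ext j P) (j x) (j y)
  rw [h, h, ThL.ext_apply] at h1
  exact h1

/-- the inverse of `jb` -/
def jbi69 : Bool ↪ Option Unit :=
  ⟨fun b => bif b then none else some (), fun x y h => by cases x <;> cases y <;> simp_all⟩

/-- the projective line of `Option Unit` and of `Bool` -/
def jbH69 : LC.Pr (Option Unit) 1 ≃ₜ LC.Pr Bool 1 where
  toFun := Pr.ext ThL.jb
  invFun := Pr.ext jbi69
  left_inv P := Pr.ext_ext69 _ _ (fun x => by cases x <;> rfl) P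
  right_inv P := Pr.ext_ext69 _ _ (fun x => by cases x <;> rfl) P
  continuous_toFun := Pr.continuous_ext _
  continuous_invFun := Pr.continuous_ext _

theorem jbH_line69 : jbH69 (Pr.line none) = Pr.line true := ThL.ext_line _ _

/-- the complement of the point is `ℂ` -/
def jbR69 : (LC.Pr (Option Unit) 1).minus (Pr.line none) ≃ₜ
    (LC.Pr Bool 1).minus (Pr.line true) where
  toFun P := ⟨jbH69 P.1, fun h => P.2 (jbH69.injective (h.trans jbH_line69.symm))⟩
  invFun P := ⟨jbH69.symm P.1, fun h => P.2 (by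
    have h1 : jbH69.symm P.1 = Pr.line none := h
    have h2 := congrArg jbH69 h1
    rw [jbH69.apply_symm_apply, jbH_line69] at h2
    exact h2)⟩
  left_inv P := Subtype.ext (jbH69.symm_apply_apply _)
  right_inv P := Subtype.ext (jbH69.apply_symm_apply _)
  continuous_toFun := (jbH69.continuous.comp (continuous_subtype_val
    (p := fun P : Pr (Option Unit) 1 => P ∈ ({Pr.line none}ᶜ : Set (Pr (Option Unit) 1))))).subtype_mk _
  continuous_invFun := (jbH69.symm.continuous.comp (continuous_subtype_val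
    (p := fun P : Pr Bool 1 => P ∈ ({Pr.line true}ᶜ : Set (Pr Bool 1))))).subtype_mk _

theorem comp_sub69 {R : Biv} {K L M : LC} (x : R.Hom K L) (y y' : R.Hom L M) :
    R.comp x (y - y') = R.comp x y - R.comp x y' := by
  have h := R.comp_add x (y - y') y'
  rw [sub_add_cancel] at h
  exact eq_sub_of_add_eq h.symm

/-- `ℂP¹` is split at the point `[1 : 0]`, with complement `ℂ`. -/
theorem collP1_split (R : Biv) : ∃ r : R.Hom LC.C (LC.Pr Bool 1),
    R.comp r (R.J collP1) = R.J (PMap.id _) ∧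
    R.comp (R.J collP1) r = R.J (PMap.id _) - R.comp (R.J (PMap.toPoint (LC.Pr Bool 1)))
      (R.J (PMap.ofPoint (K := LC.Pr Bool 1) (Pr.line true))) := by
  let e : (LC.Pr (Option Unit) 1).minus (Pr.line none) ≃ₜ LC.C := jbR69.trans p1homeo69
  let s := splitNone R Unit
  -- the collapses
  have h1 : collP1.comp (PMap.ofHomeo jbH69) = (PMap.ofHomeo e).comp
      ((LC.Pr (Option Unit) 1).coll (Pr.line none)) := by
    ext P
    change collP1Fun (jbH69 P) = (PMap.ofHomeo e).plus (collapseFun _ P)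
    by_cases hP : P = Pr.line none
    · rw [hP, collapseFun_of_notMem (by simp), jbH_line69]
      unfold collP1Fun
      rw [if_pos p1line69]
      rfl
    · rw [collapseFun_of_mem (⟨P, hP⟩ : ({Pr.line none}ᶜ : Set (Pr (Option Unit) 1)))]
      have h2 : jbH69 P ≠ Pr.line true := fun h => hP (jbH69.injective (h.trans jbH_line69.symm))
      unfold collP1Fun
      rw [if_neg (p1ne69 _ h2)]
      rfl
  have h1' : R.comp (R.J (PMap.ofHomeo jbH69)) (R.J collP1) =
      R.comp (R.J ((LC.Pr (Option Unit) 1).coll (Pr.line none))) (R.J (PMap.ofHomeo e)) := by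
    rw [← R.J_comp, ← R.J_comp, h1]
  have h2 : R.J collP1 = R.comp (R.J (PMap.ofHomeo jbH69.symm))
      (R.comp (R.J ((LC.Pr (Option Unit) 1).coll (Pr.line none))) (R.J (PMap.ofHomeo e))) := by
    rw [← h1', ← R.assoc, Helper39.Stab.J_homeo_symm', R.id_comp]
  refine ⟨R.comp (R.J (PMap.ofHomeo e.symm)) (R.comp s.r (R.J (PMap.ofHomeo jbH69))), ?_, ?_⟩
  · rw [R.assoc, R.assoc, h1', ← R.assoc s.r, s.r_coll, R.id_comp]
    exact Helper39.Stab.J_homeo_symm' R e
  · have h3 : R.comp (R.J collP1) (R.comp (R.J (PMap.ofHomeo e.symm))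
        (R.comp s.r (R.J (PMap.ofHomeo jbH69)))) = R.comp (R.J (PMap.ofHomeo jbH69.symm))
        (R.comp (R.comp (R.J ((LC.Pr (Option Unit) 1).coll (Pr.line none))) s.r)
          (R.J (PMap.ofHomeo jbH69))) := by
      rw [h2, R.assoc, R.assoc, ← R.assoc (R.J (PMap.ofHomeo e)), Helper39.Stab.J_homeo_symm,
        R.id_comp, R.assoc]
    rw [h3, s.coll_r, ThL.sub_comp', R.id_comp, comp_sub69, Helper39.Stab.J_homeo_symm']
    congr 1
    rw [← R.J_comp, ← R.J_comp, ← R.J_comp, ← R.J_comp]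
    congr 1
    ext P
    change OnePoint.some (X := LC.Pr Bool 1) (jbH69 (Pr.line none)) = _
    rw [jbH_line69]
    rfl

open Classical in
/-- the matrix of an injection -/
def or2E {S T : Type} [Fintype S] (j : S ↪ T) : Matrix T S ℂ :=
  Matrix.of fun t s => if j s = t then 1 else 0

theorem or2_ext_apply {S T : Type} [Fintype S] [Fintype T] (j : S ↪ T) {n : ℕ} (P : Pr S n)
    (s t : S) : (Pr.ext j P).1 (j s) (j t) = P.1 s t := by
  have h : (∃ s', j s' = j s) ∧ (∃ s', j s' = j t) := ⟨⟨s, rfl⟩, ⟨t, rfl⟩⟩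
  have h1 : (Pr.ext j P).1 (j s) (j t) = P.1 h.1.choose h.2.choose := dif_pos h
  rw [h1, j.injective h.1.choose_spec, j.injective h.2.choose_spec]

theorem or2_ext_zero {S T : Type} [Fintype S] [Fintype T] (j : S ↪ T) {n : ℕ} (P : Pr S n)
    (x y : T) (h : ¬ ((∃ s, j s = x) ∧ ∃ s, j s = y)) : (Pr.ext j P).1 x y = 0 := dif_neg h

theorem or2E_mul {S T : Type} [Fintype S] [Fintype T] {U : Type} (j : S ↪ T)
    (M : Matrix S U ℂ) (s : S) (u : U) : (or2E j * M) (j s) u = M s u := by
  rw [Matrix.mul_apply, Finset.sum_eq_single s]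
  · simp [or2E]
  · intro s' _ hs
    have : j s' ≠ j s := fun h => hs (j.injective h)
    simp [or2E, this]
  · intro h
    exact absurd (Finset.mem_univ _) h

theorem or2E_mul_zero {S T : Type} [Fintype S] [Fintype T] {U : Type} (j : S ↪ T)
    (M : Matrix S U ℂ) (t : T) (ht : ¬ ∃ s, j s = t) (u : U) : (or2E j * M) t u = 0 := by
  rw [Matrix.mul_apply]
  refine Finset.sum_eq_zero fun s _ => ?_
  have : j s ≠ t := fun h => ht ⟨s, h⟩
  simp [or2E, this]

theorem or2_ext_eq {S T : Type} [Fintype S] [Fintype T] (j : S ↪ T) {n : ℕ} (P : Pr S n) :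
    or2E j * (P.1 * (or2E j)ᴴ) = (Pr.ext j P).1 := by
  have key : ∀ (s : S) (y : T), (P.1 * (or2E j)ᴴ) s y = star ((or2E j * P.1ᴴ) y s) := by
    intro s y
    have : P.1 * (or2E j)ᴴ = (or2E j * P.1ᴴ)ᴴ := by
      rw [Matrix.conjTranspose_mul, Matrix.conjTranspose_conjTranspose]
    rw [this, Matrix.conjTranspose_apply]
  ext x y
  by_cases hx : ∃ s, j s = x
  · obtain ⟨s, rfl⟩ := hx
    rw [or2E_mul, key]
    by_cases hy : ∃ s, j s = y
    · obtain ⟨t, rfl⟩ := hy
      rw [or2E_mul, or2_ext_apply, Matrix.conjTranspose_apply, star_star]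
    · rw [or2E_mul_zero _ _ _ hy, star_zero]
      exact (or2_ext_zero j P _ _ fun h => hy h.2).symm
  · rw [or2E_mul_zero _ _ _ hx]
    exact (or2_ext_zero j P _ _ fun h => hx h.1).symm

open Classical in
/-- extension by zero does not change the equivalence class -/
theorem or2_uequiv {X S T : Type} [TopologicalSpace X] [Fintype S] [Fintype T] (j : S ↪ T) {n : ℕ}
    {f : X → Pr S n} (hf : Continuous f) : UEquiv (fun x => Pr.ext j (f x)) f := by
  have hE : (or2E j)ᴴ * or2E j = (1 : Matrix S S ℂ) := by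
    ext s t
    rw [Matrix.mul_apply, Finset.sum_eq_single (j s)]
    · rw [Matrix.conjTranspose_apply]
      by_cases hst : s = t
      · subst hst
        rw [Matrix.one_apply_eq]
        simp [or2E]
      · have : j t ≠ j s := fun h => hst (j.injective h).symm
        rw [Matrix.one_apply_ne hst]
        simp [or2E, this]
    · intro x _ hx
      have : j s ≠ x := fun h => hx h.symm
      rw [Matrix.conjTranspose_apply]
      simp [or2E, this]
    · intro h
      exact absurd (Finset.mem_univ _) h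
  refine ⟨fun x => (f x).1 * (or2E j)ᴴ, ?_, fun x => ?_, fun x => ?_⟩
  · exact (Pr.continuous_val69.comp hf).matrix_mul continuous_const
  · rw [Matrix.conjTranspose_mul, Matrix.conjTranspose_conjTranspose, (f x).2.1,
      Matrix.mul_assoc, ← Matrix.mul_assoc (f x).1 (f x).1, (f x).2.2.1]
    exact or2_ext_eq j (f x)
  · rw [Matrix.conjTranspose_mul, Matrix.conjTranspose_conjTranspose, (f x).2.1,
      Matrix.mul_assoc, ← Matrix.mul_assoc (or2E j)ᴴ, hE, Matrix.one_mul, (f x).2.2.1]

theorem or2_sub_comp (R : Biv) {K L M : LC} (x x' : R.Hom K L) (y : R.Hom L M) :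
    R.comp (x - x') y = R.comp x y - R.comp x' y := by
  rw [eq_sub_iff_add_eq, ← R.add_comp, sub_add_cancel]

theorem or2_comp_sub (R : Biv) {K L M : LC} (x : R.Hom K L) (y y' : R.Hom L M) :
    R.comp x (y - y') = R.comp x y - R.comp x y' := by
  rw [eq_sub_iff_add_eq, ← R.comp_add, sub_add_cancel]

/-- (OM) orientation from an invertible class `β` with `β = [γ] - 1` on `ℂP¹` -/
theorem exists_orient_of_beta (R : GBiv) (β : R.Hom LC.C LC.point) (β' : R.Hom LC.point LC.C)
    (h1 : R.comp β β' = R.J (PMap.id _)) (h2 : R.comp β' β = R.J (PMap.id _))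
    (hβ : R.comp (R.J collP1) β = R.taut Bool - R.one (LC.Pr Bool 1)) :
    Nonempty (Orient R.toBiv) := by
  have hext : ∀ {S T : Type} [Fintype S] [Fintype T] (j : S ↪ T),
      R.comp (R.J (Pr.extM j 1)) (R.taut T - R.one (LC.Pr T 1)) =
        R.taut S - R.one (LC.Pr S 1) := by
    intro S T _ _ j
    rw [or2_comp_sub]
    congr 1
    · have e1 := R.bun_comp (K := LC.Pr S 1) (L := LC.Pr T 1)
        (⟨Pr.ext j, Pr.continuous_ext j⟩ : C(Pr S 1, Pr T 1)) (ContinuousMap.id (Pr T 1))
      refine e1.trans ?_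
      exact R.bun_congr (K := LC.Pr S 1) _ _ (or2_uequiv j continuous_id)
    · unfold GBiv.one
      rw [← R.J_comp]
      congr 1
  refine ⟨⟨fun S _ => R.comp (R.taut S - R.one (LC.Pr S 1)) β', ?_, ?_, ?_⟩⟩
  · intro S T _ _ j
    rw [← R.assoc, hext]
  · have hsub : Subsingleton (Pr Unit 1) := by
      refine ⟨fun P Q => Subtype.ext ?_⟩
      ext x y
      have hP := P.2.2.2
      have hQ := Q.2.2.2
      simp only [Matrix.trace, Matrix.diag_apply, Finset.univ_unique, Finset.sum_singleton] at hP hQ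
      exact hP.trans hQ.symm
    have e1 : (ContinuousMap.id (Pr Unit 1)) = ContinuousMap.const _ (Pr.line ()) := by
      ext P : 1
      exact Subsingleton.elim _ _
    have e2 : R.taut Unit = R.one (LC.Pr Unit 1) := by
      unfold GBiv.taut
      rw [e1]
      exact R.bun_const (K := LC.Pr Unit 1) (Pr.line ())
    rw [e2, sub_self]
    have h := R.add_comp (0 : R.Hom (LC.Pr Unit 1) LC.point) 0 β'
    rw [add_zero] at h
    exact left_eq_add.1 h
  · rw [← hβ, R.assoc, h1, R.comp_id]

namespace OrX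

theorem tensor_ext_left {S T U : Type} [Fintype S] [Fintype T] [Fintype U] (j : S ↪ T)
    (a : Pr S 1) (b : Pr U 1) :
    Pr.tensor (Pr.ext j a, b) =
      Pr.ext (j.prodMap (Function.Embedding.refl U)) (Pr.tensor (a, b)) := by
  refine Subtype.ext ?_
  ext ⟨x, x'⟩ ⟨y, y'⟩
  change (Pr.ext j a).1 x y * b.1 x' y' = _
  by_cases h : (∃ s, j s = x) ∧ ∃ s, j s = y
  · obtain ⟨⟨s, rfl⟩, ⟨t, rfl⟩⟩ := h
    rw [ThL.ext_apply]
    exact (ThL.ext_apply (j.prodMap (Function.Embedding.refl U)) (Pr.tensor (a, b)) (s, x')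
      (t, y')).symm
  · rw [ThL.ext_zero j a h, zero_mul, ThL.ext_zero]
    rintro ⟨⟨⟨s, u⟩, hs⟩, ⟨⟨t, v⟩, ht⟩⟩
    exact h ⟨⟨s, (Prod.ext_iff.1 hs).1⟩, ⟨t, (Prod.ext_iff.1 ht).1⟩⟩

theorem line_one {S : Type} [Fintype S] {s x y : S} (h : x = s ∧ y = s) :
    (Pr.line s).1 x y = 1 := if_pos h

theorem line_zero {S : Type} [Fintype S] {s x y : S} (h : ¬ (x = s ∧ y = s)) :
    (Pr.line s).1 x y = 0 := if_neg h

/-- `s ↦ (s, t)` -/
def embL (S : Type) {T : Type} (t : T) : S ↪ S × T := ⟨fun s => (s, t), fun _ _ h => (Prod.ext_iff.1 h).1⟩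

/-- `t ↦ (s, t)` -/
def embR {S : Type} (T : Type) (s : S) : T ↪ S × T := ⟨fun t => (s, t), fun _ _ h => (Prod.ext_iff.1 h).2⟩

theorem tensor_line {S T : Type} [Fintype S] [Fintype T] (a : Pr S 1) (t : T) :
    Pr.tensor (a, Pr.line t) = Pr.ext (embL S t) a := by
  refine Subtype.ext ?_
  ext ⟨x, x'⟩ ⟨y, y'⟩
  change a.1 x y * (Pr.line t).1 x' y' = _
  by_cases h : x' = t ∧ y' = t
  · obtain ⟨rfl, rfl⟩ := h
    rw [line_one ⟨rfl, rfl⟩, mul_one]
    exact (ThL.ext_apply (embL S y') a x y).symm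
  · rw [line_zero h, mul_zero, ThL.ext_zero]
    rintro ⟨⟨s, hs⟩, ⟨s', hs'⟩⟩
    exact h ⟨(Prod.ext_iff.1 hs).2.symm, (Prod.ext_iff.1 hs').2.symm⟩

theorem line_tensor {S T : Type} [Fintype S] [Fintype T] (s : S) (b : Pr T 1) :
    Pr.tensor (Pr.line s, b) = Pr.ext (embR T s) b := by
  refine Subtype.ext ?_
  ext ⟨x, x'⟩ ⟨y, y'⟩
  change (Pr.line s).1 x y * b.1 x' y' = _
  by_cases h : x = s ∧ y = s
  · obtain ⟨rfl, rfl⟩ := h
    rw [line_one ⟨rfl, rfl⟩, one_mul]
    exact (ThL.ext_apply (embR T y) b x' y').symm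
  · rw [line_zero h, zero_mul, ThL.ext_zero]
    rintro ⟨⟨t, hs⟩, ⟨t', hs'⟩⟩
    exact h ⟨(Prod.ext_iff.1 hs).1.symm, (Prod.ext_iff.1 hs').1.symm⟩

theorem pr_unit (a : Pr Unit 1) : a = Pr.line () := by
  refine Subtype.ext ?_
  ext x y
  have h := a.2.2.2
  rw [Matrix.trace] at h
  simp only [Finset.univ_unique, Finset.sum_singleton, Matrix.diag_apply, Nat.cast_one] at h
  rw [line_one ⟨rfl, rfl⟩]
  exact h

variable (R : GBiv)

/-- inverses for `mul` are unique -/
theorem mul_inv_unique {K : LC} [CompactSpace K] {x y z : R.Hom K LC.point}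
    (h1 : R.mul x y = R.one K) (h2 : R.mul x z = R.one K) : y = z := by
  have h3 : R.mul y x = R.one K := by rw [R.mul_comm]; exact h1
  calc y = R.mul y (R.one K) := (R.mul_one y).symm
    _ = R.mul y (R.mul x z) := by rw [h2]
    _ = R.mul (R.mul y x) z := (R.mul_assoc _ _ _).symm
    _ = R.mul (R.one K) z := by rw [h3]
    _ = R.mul z (R.one K) := R.mul_comm _ _
    _ = z := R.mul_one z

/-- the complement of a family -/
def pf {K : LC} {S : Type} [Fintype S] {n m : ℕ} (h : n + m = Fintype.card S)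
    (E : C(K, Pr S n)) : C(K, Pr S m) :=
  (⟨Pr.perp h, Pr.continuous_perp h⟩ : C(Pr S n, Pr S m)).comp E

theorem pf_congr {K : LC} [CompactSpace K] {S T : Type} [Fintype S] [Fintype T] {n m m' : ℕ}
    (h : n + m = Fintype.card S) (h' : n + m' = Fintype.card T) (E : C(K, Pr S n))
    (F : C(K, Pr T n)) (hEF : UEquiv E F) : R.bun (pf h E) = R.bun (pf h' F) := by
  refine mul_inv_unique R (x := R.bun E) (R.bun_perp h E) ?_
  rw [R.bun_congr E F hEF]
  exact R.bun_perp h' F

/-- the tensor product of two families of lines -/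
def tf {K : LC} {S T : Type} [Fintype S] [Fintype T] (f : C(K, Pr S 1)) (g : C(K, Pr T 1)) :
    C(K, Pr (S × T) 1) :=
  ⟨fun x => Pr.tensor (f x, g x), Pr.continuous_tensor.comp (f.continuous.prodMk g.continuous)⟩

/-- the map to a product -/
def pm {K : LC} {S T : Type} [Fintype S] [Fintype T] (f : C(K, Pr S 1)) (g : C(K, Pr T 1)) :
    C(K, (LC.Pr S 1).prod (LC.Pr T 1)) :=
  ⟨fun x => (f x, g x), f.continuous.prodMk g.continuous⟩

theorem cotaut_pre {K : LC} [CompactSpace K] {S : Type} [Fintype S]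
    (h : 1 + (Fintype.card S - 1) = Fintype.card S) (f : C(K, Pr S 1)) :
    R.comp (R.J (PMap.ofCont (K := K) (L := LC.Pr S 1) f f.continuous)) (R.cotaut S) =
      R.bun (pf h f) := by
  unfold GBiv.cotaut
  rw [dif_pos (by omega)]
  exact R.bun_comp (L := LC.Pr S 1) f _

theorem theta_pre {K : LC} [CompactSpace K] {S T : Type} [Fintype S] [Fintype T]
    (hS : 1 + (Fintype.card S - 1) = Fintype.card S)
    (hT : 1 + (Fintype.card T - 1) = Fintype.card T) (f : C(K, Pr S 1)) (g : C(K, Pr T 1)) :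
    R.comp (R.J (PMap.ofCont (K := K) (L := (LC.Pr S 1).prod (LC.Pr T 1)) (pm f g)
      (pm f g).continuous)) (R.theta S T) =
      R.mul (R.mul (R.bun (tf f g)) (R.bun (pf hS f))) (R.bun (pf hT g)) := by
  unfold GBiv.theta
  rw [R.mul_pre (L := (LC.Pr S 1).prod (LC.Pr T 1)) (pm f g),
    R.mul_pre (L := (LC.Pr S 1).prod (LC.Pr T 1)) (pm f g), ← R.assoc, ← R.J_comp, ← R.assoc,
    ← R.J_comp, R.bun_comp (L := (LC.Pr S 1).prod (LC.Pr T 1)) (pm f g)]
  rw [← cotaut_pre R hS f, ← cotaut_pre R hT g]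
  rfl

theorem theta_line {S : Type} [Fintype S] (hS : 1 + (Fintype.card S - 1) = Fintype.card S)
    (hB : 1 + (Fintype.card Bool - 1) = Fintype.card Bool) {K : LC} [CompactSpace K]
    (f : C(K, Pr S 1)) :
    R.comp (R.J (PMap.ofCont (K := K) (L := (LC.Pr S 1).prod (LC.Pr Bool 1))
      (pm f (ContinuousMap.const K (Pr.line true))) (pm f _).continuous)) (R.theta S Bool) =
      R.one K := by
  rw [theta_pre R hS hB]
  have h1 : R.bun (tf f (ContinuousMap.const K (Pr.line true))) = R.bun f := by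
    refine (R.bun_congr _ _ ?_).symm
    have h := UEq.ext (embL S true) f.continuous
    have e : (tf f (ContinuousMap.const K (Pr.line true)) : K → Pr (S × Bool) 1) =
        fun x => Pr.ext (embL S true) (f x) := by
      funext x
      exact tensor_line (f x) true
    rw [e]
    exact h
  have h2 : pf hB (ContinuousMap.const K (Pr.line true : Pr Bool 1)) =
      ContinuousMap.const K (Pr.perp hB (Pr.line true)) := rfl
  rw [h1, h2, R.bun_const, R.mul_one]
  exact R.bun_perp hS f

theorem theta_ext {S T : Type} [Fintype S] [Fintype T]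
    (hS : 1 + (Fintype.card S - 1) = Fintype.card S)
    (hT : 1 + (Fintype.card T - 1) = Fintype.card T)
    (hB : 1 + (Fintype.card Bool - 1) = Fintype.card Bool) (j : S ↪ T) {K : LC} [CompactSpace K]
    (f : C(K, Pr S 1)) (g : C(K, Pr Bool 1)) (f' : C(K, Pr T 1)) (hf : ∀ x, f' x = Pr.ext j (f x)) :
    R.comp (R.J (PMap.ofCont (K := K) (L := (LC.Pr T 1).prod (LC.Pr Bool 1))
      (pm f' g) (pm f' g).continuous)) (R.theta T Bool) =
    R.comp (R.J (PMap.ofCont (K := K) (L := (LC.Pr S 1).prod (LC.Pr Bool 1))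
      (pm f g) (pm f g).continuous)) (R.theta S Bool) := by
  rw [theta_pre R hT hB, theta_pre R hS hB]
  have e0 : (f' : K → Pr T 1) = fun x => Pr.ext j (f x) := funext hf
  have h1 : R.bun (tf f' g) = R.bun (tf f g) := by
    refine (R.bun_congr _ _ ?_).symm
    have h := UEq.ext (j.prodMap (Function.Embedding.refl Bool)) (tf f g).continuous
    have e : (tf f' g : K → Pr (T × Bool) 1) =
        fun x => Pr.ext (j.prodMap (Function.Embedding.refl Bool)) (tf f g x) := by
      funext x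
      change Pr.tensor (f' x, g x) = _
      rw [hf]
      exact tensor_ext_left j (f x) (g x)
    rw [e]
    exact h
  have h2 : R.bun (pf hT f') = R.bun (pf hS f) := by
    refine (pf_congr R hS hT f f' ?_).symm
    rw [e0]
    exact UEq.ext j f.continuous
  rw [h1, h2]

theorem theta_unit (hU : 1 + (Fintype.card Unit - 1) = Fintype.card Unit)
    (hB : 1 + (Fintype.card Bool - 1) = Fintype.card Bool) {K : LC} [CompactSpace K]
    (f : C(K, Pr Unit 1)) (g : C(K, Pr Bool 1)) :
    R.comp (R.J (PMap.ofCont (K := K) (L := (LC.Pr Unit 1).prod (LC.Pr Bool 1))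
      (pm f g) (pm f g).continuous)) (R.theta Unit Bool) = R.one K := by
  rw [theta_pre R hU hB]
  have hf : f = ContinuousMap.const K (Pr.line ()) := by
    ext1 x
    exact pr_unit (f x)
  subst hf
  have h1 : R.bun (tf (ContinuousMap.const K (Pr.line ())) g) = R.bun g := by
    refine (R.bun_congr _ _ ?_).symm
    have h := UEq.ext (embR Bool ()) g.continuous
    have e : (tf (ContinuousMap.const K (Pr.line ())) g : K → Pr (Unit × Bool) 1) =
        fun x => Pr.ext (embR Bool ()) (g x) := by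
      funext x
      exact line_tensor () (g x)
    rw [e]
    exact h
  have h2 : pf hU (ContinuousMap.const K (Pr.line ())) =
      ContinuousMap.const K (Pr.perp hU (Pr.line ())) := rfl
  rw [h1, h2, R.bun_const, R.mul_one]
  exact R.bun_perp hB g

open Pool.Agent.Helper9.Stab

theorem one_pre {K L : LC} [CompactSpace K] [CompactSpace L] (f : K → L) (hf : Continuous f) :
    R.comp (R.J (PMap.ofCont (K := K) (L := L) f hf)) (R.one L) = R.one K := by
  unfold GBiv.one
  rw [← R.J_comp]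
  rfl

theorem box_eq {K L Z W : LC} (f : PMap K L.plus) (g : PMap Z W.plus) :
    R.J (f.box g) = R.comp (R.ltens K (R.J g)) (R.tens (R.J f) W) := by
  rw [R.tens_J, ltens_J, ← R.J_comp]
  have h := PMap.box_comp f (PMap.id K) (PMap.id W) g
  rw [PMap.comp_id, PMap.id_comp] at h
  exact congrArg R.J h

/-- the class `θ_S - 1` restricted to `ℂP^S × ℂ` -/
def tb (r : R.Hom LC.C (LC.Pr Bool 1)) (S : Type) [Fintype S] :
    R.Hom ((LC.Pr S 1).prod LC.C) LC.point :=
  R.comp (R.ltens (LC.Pr S 1) r) (R.theta S Bool - R.one ((LC.Pr S 1).prod (LC.Pr Bool 1)))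

theorem theta_id (S : Type) [Fintype S] :
    R.comp (R.J (PMap.ofCont (K := (LC.Pr S 1).prod (LC.Pr Bool 1))
      (L := (LC.Pr S 1).prod (LC.Pr Bool 1))
      (pm (K := (LC.Pr S 1).prod (LC.Pr Bool 1)) ⟨Prod.fst, continuous_fst⟩
        ⟨Prod.snd, continuous_snd⟩) (ContinuousMap.continuous _))) (R.theta S Bool) =
      R.theta S Bool := R.id_comp _

theorem isEmpty_pr {S : Type} [Fintype S] (hS : ¬ 1 ≤ Fintype.card S) : IsEmpty (Pr S 1) :=
  ⟨fun P => hS P.le_card⟩

theorem tb_nat (r : R.Hom LC.C (LC.Pr Bool 1)) {S T : Type} [Fintype S] [Fintype T] (j : S ↪ T) :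
    R.comp (R.tens (R.J (Pr.extM j 1)) LC.C) (tb R r T) = tb R r S := by
  by_cases hS : 1 ≤ Fintype.card S
  · have hST : Fintype.card S ≤ Fintype.card T := Fintype.card_le_of_embedding j
    have hB : 1 + (Fintype.card Bool - 1) = Fintype.card Bool := by simp
    unfold tb
    rw [← R.assoc, R.exch, R.assoc]
    congr 1
    rw [c_sub]
    congr 1
    · rw [R.tens_J]
      have h := theta_ext R (S := S) (T := T) (by omega) (by omega) hB j
        (K := (LC.Pr S 1).prod (LC.Pr Bool 1)) ⟨Prod.fst, continuous_fst⟩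
        ⟨Prod.snd, continuous_snd⟩
        ⟨fun x => Pr.ext j x.1, (Pr.continuous_ext j).comp continuous_fst⟩ (fun _ => rfl)
      rw [theta_id] at h
      exact h
    · rw [R.tens_J]
      exact one_pre R (K := (LC.Pr S 1).prod (LC.Pr Bool 1))
        (L := (LC.Pr T 1).prod (LC.Pr Bool 1)) (fun x => (Pr.ext j x.1, x.2))
        (((Pr.continuous_ext j).comp continuous_fst).prodMk continuous_snd)
  · have := isEmpty_pr hS
    have h : IsEmpty ((LC.Pr S 1).prod LC.C) :=
      inferInstanceAs (IsEmpty (Pr S 1 × ℂ))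
    rw [hom_empty R.toBiv h (tb R r S)]
    exact hom_empty R.toBiv h _

theorem tb_unit (r : R.Hom LC.C (LC.Pr Bool 1)) : tb R r Unit = 0 := by
  have hB : 1 + (Fintype.card Bool - 1) = Fintype.card Bool := by simp
  have h := theta_unit R (by simp) hB (K := (LC.Pr Unit 1).prod (LC.Pr Bool 1))
    ⟨Prod.fst, continuous_fst⟩ ⟨Prod.snd, continuous_snd⟩
  rw [theta_id] at h
  unfold tb
  rw [h, sub_self]
  exact c_zero R.toBiv _

end OrX

/-- (OF) orientation from an invertible class `x` with `x = [H ⊗ γ - H - γ + 1] - 1` on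
`ℂP¹ × ℂP¹` -/
theorem exists_orient_of_x (R : GBiv) (x : R.Hom (LC.C.prod LC.C) LC.point)
    (x' : R.Hom LC.point (LC.C.prod LC.C))
    (h1 : R.comp x x' = R.J (PMap.id _)) (h2 : R.comp x' x = R.J (PMap.id _))
    (hx : R.comp (R.J (collP1.box collP1)) x =
      R.theta Bool Bool - R.one ((LC.Pr Bool 1).prod (LC.Pr Bool 1))) :
    Nonempty (Orient R.toBiv) := by
  obtain ⟨r, hr1, hr2⟩ := collP1_split R.toBiv
  have hbij := fun (S : Type) [Fintype S] => R.tens_C_bijective (LC.Pr S 1) LC.C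
  refine ⟨{
    u := fun S _ => ((hbij S).2 (R.comp (OrX.tb R r S) x')).choose
    u_ext := ?_
    u_unit := ?_
    u_bool := ?_ }⟩
  · intro S T _ _ j
    have hT := ((hbij T).2 (R.comp (OrX.tb R r T) x')).choose_spec
    have hS := ((hbij S).2 (R.comp (OrX.tb R r S) x')).choose_spec
    refine (hbij S).1 ?_
    refine Eq.trans ?_ hS.symm
    simp only at hT
    change R.tens _ LC.C = _
    rw [R.tens_comp, hT, ← R.assoc, OrX.tb_nat]
  · have hS := ((hbij Unit).2 (R.comp (OrX.tb R r Unit) x')).choose_spec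
    refine (hbij Unit).1 ?_
    refine hS.trans ?_
    change _ = R.tens 0 LC.C
    rw [OrX.tb_unit, R.tens_zero, R.zero_comp]
  · have hS := ((hbij Bool).2 (R.comp (OrX.tb R r Bool) x')).choose_spec
    refine (hbij Bool).1 ?_
    refine hS.trans ?_
    change _ = R.tens (R.J collP1) LC.C
    unfold OrX.tb
    rw [← hx, OrX.box_eq, R.assoc, R.assoc, R.assoc, h1, R.comp_id, ← R.assoc,
      ← Pool.Agent.Helper9.Stab.ltens_comp, hr1, Pool.Agent.Helper9.Stab.ltens_id, R.id_comp]

namespace PRTheory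
variable {R : Biv} (P : PRTheory R) (o : Orient R)

/-- the Hurewicz image of `β` is `b_1` -/
theorem hurewicz_beta (y : P.Hom LC.C LC.point)
    (hy : P.comp (P.J collP1) y = P.toGBiv.taut Bool - P.toGBiv.one (LC.Pr Bool 1)) :
    y = P.comp (P.J (PMap.ofHomeo (LC.lunit LC.C).symm)) (P.b o 1) := by
  obtain ⟨r, hr, -⟩ := collP1_split P.toBiv
  have h := Helper89.Stab.hur_aux o P
  have e : P.comp (P.J collP1) y =
      P.comp (P.J collP1) (P.comp (P.J (PMap.ofHomeo (LC.lunit LC.C).symm)) (P.b o 1)) :=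
    hy.trans h.symm
  have e2 := congrArg (fun z => P.comp r z) e
  simp only at e2
  rw [← P.assoc, ← P.assoc, hr, P.id_comp, P.id_comp] at e2
  exact e2

/-- the Hurewicz image of `x` is `- b_1² + q` with `q` linear in `b_0, …, b_3` -/
theorem hurewicz_x (y : P.Hom (LC.C.prod LC.C) LC.point)
    (hy : P.comp (P.J (collP1.box collP1)) y =
      P.toGBiv.theta Bool Bool - P.toGBiv.one ((LC.Pr Bool 1).prod (LC.Pr Bool 1))) :
    ∃ q : ∀ i : ℕ, R.Hom (LC.C.prod LC.C) (Cn i),
      y = (∑ i ∈ Finset.range 4, P.comp (P.inc (q i)) (P.b o i)) -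
        P.comp (P.J (PMap.ofHomeo ((LC.lunit LC.C).symm.prodCongr (LC.lunit LC.C).symm :
          LC.C.prod LC.C ≃ₜ (Cn 1).prod (Cn 1)))) (P.mulPt (P.b o 1) (P.b o 1)) := by
  obtain ⟨r, hr1, hr2⟩ := collP1_split R
  rw [← R.J_comp] at hr2
  have hsub : ∀ {K L : LC} (x y : R.Hom K L), P.inc (x - y) = P.inc x - P.inc y := fun x y => by
    rw [eq_sub_iff_add_eq, ← P.inc_add, sub_add_cancel]
  have sub_comp : ∀ {K L M : LC} (x x' : P.Hom K L) (y : P.Hom L M),
      P.comp (x - x') y = P.comp x y - P.comp x' y := fun x x' y => by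
    rw [eq_sub_iff_add_eq, ← P.add_comp, sub_add_cancel]
  -- the class of `ℂP¹`
  have ht : P.comp (P.J collP1) (P.comp (P.inc r) (P.toGBiv.taut Bool)) =
      P.toGBiv.taut Bool - P.toGBiv.one (LC.Pr Bool 1) := by
    have h1 := congrArg P.inc hr2
    rw [P.inc_comp, hsub, P.inc_J, P.inc_J, P.inc_J] at h1
    rw [← P.assoc, h1, sub_comp, P.id_comp]
    congr 1
    have h2 := P.toGBiv.bun_const (K := LC.Pr Bool 1) (Pr.line true : Pr Bool 1)
    rw [Pool.Agent.Helper63.Stab.Hur.bun_line] at h2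
    exact h2
  have hβ := P.hurewicz_beta o _ ht
  rw [hβ] at ht
  -- the class of the complement
  have hc : P.toGBiv.mul (K := LC.Pr Bool 1) (P.toGBiv.taut Bool) (P.toGBiv.cotaut Bool) =
      P.toGBiv.one (LC.Pr Bool 1) := by
    rw [GBiv.cotaut, dif_pos (show 1 ≤ Fintype.card Bool by simp)]
    exact P.toGBiv.bun_perp (K := LC.Pr Bool 1) (S := Bool) (n := 1) (m := Fintype.card Bool - 1)
      (by simp) (ContinuousMap.id _)
  refine ⟨fun i => R.comp (Pool.Agent.Helper63.Stab.Hur.r2 r) (R.comp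
    (R.J Pool.Agent.Helper63.Stab.Hur.tM) (o.upow (Bool × Bool) i)),
    (Pool.Agent.Helper63.Stab.Hur.hur_main P o r hr1 hr2 _ ht _ hc y hy).trans ?_⟩
  congr 1
  rw [Pool.Agent.Helper63.Stab.Hur.ep_J]
  congr 1

end PRTheory

/-! ## The Bott classes -/

/-- maps to Grassmannians that become homotopic after adding base points and renaming -/
def StablyHomotopic {X : Type} [TopologicalSpace X] {κ l : Type} [Fintype κ] [Fintype l]
    (f : C(X, GK κ)) (g : C(X, GK l)) : Prop :=
  ∃ (m n : ℕ) (e : κ ⊕ Fin m ≃ l ⊕ Fin n),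
    ContinuousMap.Homotopic
      (⟨fun x => GK.reindex e (GK.sum (f x, GK.base (Fin m))),
        (GK.reindex e).continuous.comp (GK.continuous_sum.comp
          (f.continuous.prodMk continuous_const))⟩ : C(X, GK (l ⊕ Fin n)))
      (⟨fun x => GK.sum (g x, GK.base (Fin n)),
        GK.continuous_sum.comp (g.continuous.prodMk continuous_const)⟩ : C(X, GK (l ⊕ Fin n)))

theorem StablyHomotopic.class_eq (R : GBiv) {K : LC} [CompactSpace K] {κ l : Type} [Fintype κ]
    [Fintype l] {f : C(K, GK κ)} {g : C(K, GK l)} (h : StablyHomotopic f g) :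
    R.comp (R.J (PMap.ofCont (K := K) (L := LC.G κ) f f.continuous)) (R.g κ) =
      R.comp (R.J (PMap.ofCont (K := K) (L := LC.G l) g g.continuous)) (R.g l) := by
  obtain ⟨m, n, e, ⟨H⟩⟩ := h
  change Helper54.Stab.cl R f = Helper54.Stab.cl R g
  let B : C(K, GK (Fin m)) := ContinuousMap.const K (GK.base (Fin m))
  let B' : C(K, GK (Fin n)) := ContinuousMap.const K (GK.base (Fin n))
  let F : C(K, GK (l ⊕ Fin n)) := ⟨fun x => GK.reindex e (GK.sum (f x, GK.base (Fin m))),
        (GK.reindex e).continuous.comp (GK.continuous_sum.comp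
          (f.continuous.prodMk continuous_const))⟩
  have h1 : Helper54.Stab.cl R (Helper54.Stab.sumF f B) = Helper54.Stab.cl R f :=
    Helper54.Stab.cl_sum_base R f B (fun _ => rfl)
  have h2 : Helper54.Stab.cl R (Helper54.Stab.sumF g B') = Helper54.Stab.cl R g :=
    Helper54.Stab.cl_sum_base R g B' (fun _ => rfl)
  have h3 : Helper54.Stab.cl R (Helper54.Stab.sumF f B) = Helper54.Stab.cl R F :=
    Helper54.Stab.cl_reindex R e (fun _ => rfl)
  have h4 : Helper54.Stab.cl R F = Helper54.Stab.cl R (Helper54.Stab.sumF g B') :=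
    Helper54.Stab.cl_homotopy R H H.continuous H.apply_zero H.apply_one
  rw [← h1, h3, h4, h2]

theorem cont_elim_homeo27 {X : Type} [TopologicalSpace X] {A B : Type} [TopologicalSpace A]
    [TopologicalSpace B] (e : A ≃ₜ B) (f : X → OnePoint A) (hf : Continuous f) :
    Continuous (fun x => (OnePoint.elim (f x) OnePoint.infty (fun z => ((e z : B) : OnePoint B)) :
      OnePoint B)) := by
  have h : Continuous (fun y : OnePoint A =>
      (OnePoint.elim y OnePoint.infty (fun z => ((e z : B) : OnePoint B)) : OnePoint B)) := by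
    have h2 := (Homeomorph.onePointCongr e).continuous
    refine h2.congr fun y => ?_
    induction y using OnePoint.rec <;> rfl
  exact h.comp hf

/-- The map `ℂP¹ → (ℂ)⁺ → Gr_1(ℂ²)` of the Bott class is stably homotopic to the inclusion. -/
theorem bott_spec : StablyHomotopic
    (⟨fun P : Pr Bool 1 => loopBar (e := 1) (loopGK bott)
        (OnePoint.elim (collP1 P) OnePoint.infty
          (fun z => (((fun _ => z : Fin 1 → ℂ)) : OnePoint (Fin 1 → ℂ)))), by
        exact (loopBar (e := 1) (loopGK bott)).continuous.comp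
          (cont_elim_homeo27 (A := ℂ) (B := Fin 1 → ℂ) oneC (fun P : Pr Bool 1 => collP1 P)
            collP1.cont)⟩ :
      C(Pr Bool 1, GK (Fin 1)))
    (⟨Pr.toG (S := Bool) (n := 1) {true} (by simp),
      Pr.continuous_toG (S := Bool) (n := 1) {true} (by simp)⟩ : C(Pr Bool 1, GK Bool)) :=
  Pool.Agent.Helper93.Stab.bott_final (Pr.continuous_toG (S := Bool) (n := 1) {true} (by simp))

/-- the bundle `(H ⊗ γ) ⊕ H^⊥ ⊕ γ^⊥` over `ℂP¹ × ℂP¹` -/
def prodBundle : C(Pr Bool 1 × Pr Bool 1, Pr ((Bool × Bool ⊕ Bool) ⊕ Bool) (1 + 1 + 1)) :=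
  ⟨fun x => Pr.sum (Pr.sum (Pr.tensor x, Pr.perp (m := 1) (by simp) x.1),
    Pr.perp (m := 1) (by simp) x.2), by
      refine Pr.continuous_sum.comp (Continuous.prodMk (Pr.continuous_sum.comp
        (Pr.continuous_tensor.prodMk ((Pr.continuous_perp _).comp continuous_fst)))
        ((Pr.continuous_perp _).comp continuous_snd))⟩

/-- five of the eight coordinates -/
def prodCompl : Finset ((Bool × Bool ⊕ Bool) ⊕ Bool) :=
  Finset.univ.filter (fun s => s ≠ Sum.inl (Sum.inl (true, true)) ∧ s ≠ Sum.inl (Sum.inr true) ∧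
    s ≠ Sum.inr true)

theorem prodCompl_card : 1 + 1 + 1 + prodCompl.card =
    Fintype.card ((Bool × Bool ⊕ Bool) ⊕ Bool) := by
  decide

/-- `ℂ × ℂ = ℂ²` -/
def twoC27 : ℂ × ℂ ≃ₜ (Fin 2 → ℂ) where
  toFun z := Fin.cons z.1 (fun _ => z.2)
  invFun z := (z 0, z 1)
  left_inv _ := rfl
  right_inv z := by
    ext i
    fin_cases i <;> rfl
  continuous_toFun := by
    refine continuous_pi fun i => ?_
    fin_cases i
    · exact continuous_fst
    · exact continuous_snd
  continuous_invFun := by fun_prop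

/-- A map `S⁴ → Gr {1} k` is a Bott product class if its pull-back to `ℂP¹ × ℂP¹` is stably
homotopic to `H ⊗ γ ⊕ H^⊥ ⊕ γ^⊥`. -/
def IsBottProduct {k : ℕ} (gU : GenLoop (Fin (2 * 2)) (GK (Fin k)) (GK.base (Fin k))) : Prop :=
  StablyHomotopic
    (⟨fun x : Pr Bool 1 × Pr Bool 1 => loopBar (e := 2) gU
      (OnePoint.elim (smashPt LC.C LC.C (collP1 x.1, collP1 x.2)) OnePoint.infty
        (fun z : ℂ × ℂ => (((Fin.cons z.1 (fun _ => z.2) : Fin 2 → ℂ)) :
          OnePoint (Fin 2 → ℂ)))), by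
        exact (loopBar (e := 2) gU).continuous.comp
          (cont_elim_homeo27 (A := ℂ × ℂ) (B := Fin 2 → ℂ) twoC27
            (fun x : Pr Bool 1 × Pr Bool 1 => smashPt LC.C LC.C (collP1 x.1, collP1 x.2))
            (collP1.box collP1).cont)⟩ :
      C(Pr Bool 1 × Pr Bool 1, GK (Fin k)))
    ((⟨Pr.toG prodCompl prodCompl_card, Pr.continuous_toG prodCompl prodCompl_card⟩ :
      C(Pr ((Bool × Bool ⊕ Bool) ⊕ Bool) (1 + 1 + 1), GK ((Bool × Bool ⊕ Bool) ⊕ Bool))).comp
        prodBundle)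

end Pool.Agent.Helper1.Stab
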