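import Pool.Agent.Helper1.Stab.Thom
import Pool.Agent.Helper63.Stab.PrD
import Pool.Agent.Helper37.Stab.Alg
import Pool.Agent.Helper54.Stab.GCl
import Pool.Agent.Helper37.Stab.Mul
import Pool.Agent.Helper74.Stab.Dual3

/-! The theory `R ∧ BU₊` of an oriented theory `R` is polynomial on `b_1, b_2, …`. -/

open Topology Filter Set Matrix

noncomputable section

namespace Pool.Agent.Helper1.Stab

/-- adding base points: `G(κ) → G(κ ⊔ l)` -/
def GK.stab (κ l : Type) [Fintype κ] [Fintype l] : PMap (LC.G κ) (LC.G (κ ⊕ l)).plus :=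
  PMap.ofProper (K := LC.G κ) (L := LC.G (κ ⊕ l)) (fun P => GK.sum (P, GK.base l))
    (GK.continuous_sum.comp (continuous_id.prodMk continuous_const))
    (by rw [cocompact_eq_bot]; exact tendsto_bot)

/-- `pt × Z = Z` -/
def LC.lunit (Z : LC) : LC.point.prod Z ≃ₜ Z := Homeomorph.punitProd Z

/-- The theory `R ∧ BU₊`: `P(K, Z) = colim_κ R(K, G(κ) × Z)`, a theory over `S[BU]` with a
morphism from `R`. -/
structure PRTheory (R : Biv) extends GBiv where
  inc : ∀ {K L : LC}, R.Hom K L → Hom K L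
  inc_add : ∀ {K L : LC} (x y : R.Hom K L), inc (x + y) = inc x + inc y
  inc_J : ∀ {K L : LC} (f : PMap K L.plus), inc (R.J f) = J f
  inc_comp : ∀ {K L M : LC} (x : R.Hom K L) (y : R.Hom L M), inc (R.comp x y) = comp (inc x) (inc y)
  inc_tens : ∀ {K L : LC} (x : R.Hom K L) (Z : LC), inc (R.tens x Z) = tens (inc x) Z
  /-- every element comes from a stage -/
  surj : ∀ {K Z : LC} (x : Hom K Z) (N : ℕ), ∃ n ≥ N, ∃ y : R.Hom K ((LC.G (Fin n)).prod Z),
    x = comp (inc y) (comp (tens (g (Fin n)) Z) (J (PMap.ofHomeo (LC.lunit Z))))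
  /-- an element that vanishes in the colimit vanishes at a later stage -/
  eq_zero : ∀ {K Z : LC} {κ : Type} [Fintype κ] (y : R.Hom K ((LC.G κ).prod Z)),
    comp (inc y) (comp (tens (g κ) Z) (J (PMap.ofHomeo (LC.lunit Z)))) = 0 →
    ∃ m : ℕ, R.comp y (R.tens (R.J (GK.stab κ (Fin m))) Z) = 0

open Pool.Agent.Helper63.Stab in
/-- (EP) the theories `R ∧ BU₊` exist -/
theorem exists_PR (R : Biv) : Nonempty (PRTheory R) := by
  refine ⟨{
    toGBiv := {
      toBiv := PR.biv R
      g := fun κ _ => PR.gc R κ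
      g_base := fun κ _ => PR.g_base κ
      g_reindex := fun e => PR.g_reindex e
      g_sum := fun κ l _ _ => PR.g_sum κ l }
    inc := fun x => PR.inc x
    inc_add := fun x y => PR.inc_add x y
    inc_J := fun f => rfl
    inc_comp := fun x y => PR.inc_comp x y
    inc_tens := fun x Z => PR.inc_tens x Z
    surj := ?_
    eq_zero := ?_ }⟩
  · intro K Z x N
    obtain ⟨n, hn, y, rfl⟩ := PR.exists_cls_ge x N
    refine ⟨n, hn, y, ?_⟩
    change PR.cls y = PR.comp (PR.inc y) (PR.comp (PR.tens (PR.gc R (Fin n)) Z)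
      (PR.inc (R.J (PMap.ofHomeo (Homeomorph.punitProd Z : LC.point.prod Z ≃ₜ Z)))))
    rw [PR.tens_g, PR.inc_comp_cls, R.comp_id]
  · intro K Z κ _ y h
    have h1 : PR.comp (PR.inc y) (PR.comp (PR.tens (PR.gc R κ) Z)
      (PR.inc (R.J (PMap.ofHomeo (Homeomorph.punitProd Z : LC.point.prod Z ≃ₜ Z))))) = 0 := h
    rw [PR.tens_g, PR.inc_comp_cls, R.comp_id] at h1
    obtain ⟨m, hm⟩ := PR.cls_eq_zero h1
    refine ⟨m, ?_⟩
    have h2 : GK.stab κ (Fin m) = gx (Function.Embedding.inl : κ ↪ κ ⊕ Fin m) := by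
      ext P
      exact congrArg (fun Q : GK (κ ⊕ Fin m) => (Q : OnePoint (GK (κ ⊕ Fin m)))) (gext_inl P)
    rw [h2]
    exact hm m le_rfl

/-! ## Classes of bundles -/

open Classical in
theorem Pr.coord_aux69 {S : Type} [Fintype S] (T : Finset S) (M : Matrix S S ℂ)
    (h : ∀ x y, M x y = if x = y ∧ x ∈ T then 1 else 0) :
    Mᴴ = M ∧ M * M = M ∧ M.trace = (T.card : ℕ) := by
  refine ⟨?_, ?_, ?_⟩
  · ext x y
    rw [Matrix.conjTranspose_apply, h, h]
    by_cases hxy : x = y
    · subst hxy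
      by_cases hT : x ∈ T <;> simp [hT]
    · rw [if_neg (fun h' => hxy h'.1.symm), if_neg (fun h' => hxy h'.1), star_zero]
  · ext x y
    rw [Matrix.mul_apply, Finset.sum_eq_single x]
    · rw [h, h]
      by_cases hT : x ∈ T <;> simp [hT]
    · intro b _ hb
      rw [h, if_neg (fun h' => hb h'.1.symm), zero_mul]
    · intro h
      exact absurd (Finset.mem_univ _) h
  · rw [Matrix.trace]
    simp only [Matrix.diag_apply, h, true_and]
    rw [Finset.sum_ite_mem, Finset.univ_inter, Finset.sum_const, nsmul_eq_mul, mul_one]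

open Classical in
/-- the projection onto the coordinates in `T` -/
def Pr.coord {S : Type} [Fintype S] (T : Finset S) : Pr S T.card :=
  ⟨fun x y => if x = y ∧ x ∈ T then 1 else 0, Pr.coord_aux69 T _ fun _ _ => rfl⟩

theorem Pr.toG_aux69 {S : Type} [Fintype S] {n : ℕ} (T : Finset S)
    (hT : n + T.card = Fintype.card S) (P : Pr S n) (M : Matrix (S × Bool) (S × Bool) ℂ)
    (h1 : ∀ x y, M (x, true) (y, true) = P.1 x y)
    (h2 : ∀ x y, M (x, false) (y, false) = (Pr.coord T).1 x y)
    (h3 : ∀ x y, M (x, true) (y, false) = 0) (h4 : ∀ x y, M (x, false) (y, true) = 0) :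
    Mᴴ = M ∧ M * M = M ∧ M.trace = Fintype.card S := by
  refine ⟨?_, ?_, ?_⟩
  · ext ⟨x, b⟩ ⟨y, c⟩
    rw [Matrix.conjTranspose_apply]
    rcases b with _ | _ <;> rcases c with _ | _
    · rw [h2, h2]
      exact congrFun (congrFun (Pr.coord T).2.1 x) y
    · rw [h3, h4, star_zero]
    · rw [h3, h4, star_zero]
    · rw [h1, h1]
      exact congrFun (congrFun P.2.1 x) y
  · ext ⟨x, b⟩ ⟨y, c⟩
    rw [Matrix.mul_apply, Fintype.sum_prod_type]
    simp only [Fintype.sum_bool]
    rcases b with _ | _ <;> rcases c with _ | _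
    · simp only [h2, h3, h4, mul_zero, zero_add]
      have h := congrFun (congrFun (Pr.coord T).2.2.1 x) y
      rw [Matrix.mul_apply] at h
      exact h
    · simp only [h1, h2, h3, h4, mul_zero, zero_mul, zero_add, Finset.sum_const_zero]
    · simp only [h1, h2, h3, h4, mul_zero, zero_mul, zero_add, Finset.sum_const_zero]
    · simp only [h1, h3, h4, mul_zero, add_zero]
      have h := congrFun (congrFun P.2.2.1 x) y
      rw [Matrix.mul_apply] at h
      exact h
  · rw [Matrix.trace, Fintype.sum_prod_type]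
    simp only [Fintype.sum_bool, Matrix.diag_apply, h1, h2]
    rw [Finset.sum_add_distrib]
    have e1 := P.2.2.2
    have e2 := (Pr.coord T).2.2.2
    rw [Matrix.trace] at e1 e2
    refine (congrArg₂ (· + ·) e1 e2).trans ?_
    rw [← hT]
    push_cast
    rfl

open Classical in
/-- A family of projections of rank `n` on `ℂ^S` gives a family in `G(S)`: the coordinates in a
set `T` of `|S| - n` elements of a second copy of `ℂ^S` are added. -/
def Pr.toG {S : Type} [Fintype S] {n : ℕ} (T : Finset S) (hT : n + T.card = Fintype.card S)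
    (P : Pr S n) : GK S :=
  ⟨fun x y => if x.2 = true ∧ y.2 = true then P.1 x.1 y.1
    else if x.2 = false ∧ y.2 = false ∧ x.1 = y.1 ∧ x.1 ∈ T then 1 else 0,
    Pr.toG_aux69 T hT P _ (fun x y => if_pos ⟨rfl, rfl⟩)
      (fun x y => by simp [Pr.coord]) (fun x y => by simp) (fun x y => by simp)⟩

theorem Pr.continuous_toG {S : Type} [Fintype S] {n : ℕ} (T : Finset S)
    (hT : n + T.card = Fintype.card S) : Continuous (Pr.toG T hT) := by
  refine Continuous.subtype_mk (continuous_matrix fun x y => ?_) _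
  by_cases h : x.2 = true ∧ y.2 = true
  · simp only [if_pos h]
    exact Pr.continuous_val69.matrix_elem _ _
  · simp only [if_neg h]
    exact continuous_const

/-- the rank of a projection is at most the dimension -/
theorem Pr.le_card {S : Type} [Fintype S] {n : ℕ} (P : Pr S n) : n ≤ Fintype.card S := by
  have h1 : ‖P.1.trace‖ ≤ ∑ x, ‖P.1 x x‖ := norm_sum_le _ _
  have h2 : ∑ x, ‖P.1 x x‖ ≤ ∑ _x : S, (1 : ℝ) :=
    Finset.sum_le_sum fun x _ => GK.entry_le P.1 P.2.1 P.2.2.1 x x
  rw [P.2.2.2, Complex.norm_natCast] at h1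
  rw [Finset.sum_const, nsmul_eq_mul, mul_one, Finset.card_univ] at h2
  exact_mod_cast h1.trans h2

theorem exists_compl {S : Type} [Fintype S] {n : ℕ} (h : n ≤ Fintype.card S) :
    ∃ T : Finset S, n + T.card = Fintype.card S := by
  obtain ⟨T, -, hT⟩ := Finset.exists_subset_card_eq (s := (Finset.univ : Finset S))
    (n := Fintype.card S - n) (by rw [Finset.card_univ]; omega)
  exact ⟨T, by omega⟩

/-- the coordinates `(x, b)` -/
def Pr.co54 {S : Type} (b : Bool) : S ↪ S × Bool := ⟨fun x => (x, b), fun _ _ h => (Prod.mk.inj h).1⟩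

theorem Pr.co_inl54 {S T : Type} {b c : Bool} {a x : S} (h : Pr.co54 b a = (x, c)) :
    Pr.co54 b (Sum.inl a : S ⊕ T) = (Sum.inl x, c) :=
  Prod.ext (congrArg Sum.inl (congrArg Prod.fst h)) (show b = c from congrArg Prod.snd h)

theorem Pr.co_inr54 {S T : Type} {b c : Bool} {a x : T} (h : Pr.co54 b a = (x, c)) :
    Pr.co54 b (Sum.inr a : S ⊕ T) = (Sum.inr x, c) :=
  Prod.ext (congrArg Sum.inr (congrArg Prod.fst h)) (show b = c from congrArg Prod.snd h)

open Classical in
theorem Pr.put_toG54 {S : Type} [Fintype S] {n : ℕ} (T : Finset S)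
    (hT : n + T.card = Fintype.card S) (P : Pr S n) :
    Helper54.Stab.Put (Pr.co54 true) (T.map (Pr.co54 false)) P (Pr.toG T hT P) := by
  have hv : ∀ x y, (Pr.toG T hT P).1 x y = if x.2 = true ∧ y.2 = true then P.1 x.1 y.1
    else if x.2 = false ∧ y.2 = false ∧ x.1 = y.1 ∧ x.1 ∈ T then 1 else 0 := fun x y => rfl
  refine ⟨fun s t => (hv _ _).trans (if_pos ⟨rfl, rfl⟩), ?_, ?_, ?_⟩
  · intro x hx
    obtain ⟨a, ha, rfl⟩ := Finset.mem_map.1 hx
    refine (hv _ _).trans ((if_neg ?_).trans (if_pos ⟨rfl, rfl, rfl, ha⟩))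
    rintro ⟨h, -⟩
    exact Bool.false_ne_true h
  · intro x hx y hxy
    obtain ⟨a, ha, rfl⟩ := Finset.mem_map.1 hx
    refine (hv _ _).trans ((if_neg ?_).trans (if_neg ?_))
    · rintro ⟨h, -⟩
      exact Bool.false_ne_true h
    · rintro ⟨h1, h2, h3, -⟩
      exact hxy (Prod.ext h3 h2.symm)
  · intro x y hx hxy
    refine (hv _ _).trans ((if_neg ?_).trans (if_neg ?_))
    · rintro ⟨h1, h2⟩
      rcases hxy with h | h
      · exact h ⟨x.1, Prod.ext rfl h1.symm⟩
      · exact h ⟨y.1, Prod.ext rfl h2.symm⟩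
    · rintro ⟨h1, h2, h3, h4⟩
      exact hx (Finset.mem_map.2 ⟨x.1, h4, Prod.ext rfl h1.symm⟩)

theorem Pr.co_notMem54 {S : Type} (T : Finset S) (s : S) :
    Pr.co54 true s ∉ T.map (Pr.co54 false) := by
  intro h
  obtain ⟨a, -, ha⟩ := Finset.mem_map.1 h
  exact Bool.false_ne_true (congrArg Prod.snd ha)

namespace GBiv
variable (R : GBiv)

open Classical in
/-- The class of a family of projections `E : K → Pr S n` over a compact space `K`. -/
def bun {K : LC} [CompactSpace K] {S : Type} [Fintype S] {n : ℕ} (E : C(K, Pr S n)) :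
    R.Hom K LC.point :=
  if h : n ≤ Fintype.card S then
    R.comp (R.J (PMap.ofCont (K := K) (L := LC.G S)
      (fun k => Pr.toG (exists_compl h).choose (exists_compl h).choose_spec (E k))
      ((Pr.continuous_toG _ _).comp E.continuous))) (R.g S)
  else 0

/-- the product of classes over a compact space -/
def mul {K : LC} [CompactSpace K] (x y : R.Hom K LC.point) : R.Hom K LC.point :=
  R.comp (R.J (graph (X := K) (L := K) (fun k => k) continuous_id))
    (R.comp (R.comp (R.tens x K) (R.ltens LC.point y))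
      (R.J (PMap.ofHomeo (LC.lunit LC.point))))

/-- the unit class -/
def one (K : LC) [CompactSpace K] : R.Hom K LC.point := R.J (PMap.toPoint K)

theorem mul_comm {K : LC} [CompactSpace K] (x y : R.Hom K LC.point) : R.mul x y = R.mul y x :=
  Pool.Agent.Helper37.Stab.mulB_comm R.toBiv x y

theorem mul_assoc {K : LC} [CompactSpace K] (x y z : R.Hom K LC.point) :
    R.mul (R.mul x y) z = R.mul x (R.mul y z) :=
  Pool.Agent.Helper37.Stab.mulB_assoc R.toBiv x y z

theorem mul_one {K : LC} [CompactSpace K] (x : R.Hom K LC.point) : R.mul x (R.one K) = x :=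
  Pool.Agent.Helper37.Stab.mulB_one R.toBiv x

theorem mul_add {K : LC} [CompactSpace K] (x y z : R.Hom K LC.point) :
    R.mul x (y + z) = R.mul x y + R.mul x z :=
  Pool.Agent.Helper37.Stab.mulB_add R.toBiv x y z

theorem mul_pre {K L : LC} [CompactSpace K] [CompactSpace L] (f : C(K, L))
    (x y : R.Hom L LC.point) :
    R.comp (R.J (PMap.ofCont (K := K) (L := L) f f.continuous)) (R.mul x y) =
      R.mul (R.comp (R.J (PMap.ofCont (K := K) (L := L) f f.continuous)) x)
        (R.comp (R.J (PMap.ofCont (K := K) (L := L) f f.continuous)) y) :=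
  Pool.Agent.Helper37.Stab.mulB_pre R.toBiv
    (PMap.ofCont (K := K) (L := L) f f.continuous) x y

/-- the family of the completed projections -/
def toGF54 {K : LC} {S : Type} [Fintype S] {n : ℕ} (T : Finset S)
    (hT : n + T.card = Fintype.card S) (E : C(K, Pr S n)) : C(K, GK S) :=
  ⟨fun k => Pr.toG T hT (E k), (Pr.continuous_toG _ _).comp E.continuous⟩

/-- any choice of the complement gives the same class -/
theorem bun_eq54 {K : LC} [CompactSpace K] {S : Type} [Fintype S] {n : ℕ} (E : C(K, Pr S n))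
    (h : n ≤ Fintype.card S) : R.bun E =
      Helper54.Stab.cl R (toGF54 (exists_compl h).choose (exists_compl h).choose_spec E) :=
  dif_pos h

/-- the class of a family can be computed in any Grassmannian -/
theorem bun_put54 {K : LC} [CompactSpace K] {S κ : Type} [Fintype S] [Fintype κ] {n : ℕ}
    (E : C(K, Pr S n)) (h : n ≤ Fintype.card S) (F : C(K, GK κ)) {i : S ↪ κ × Bool}
    {A : Finset (κ × Bool)} (hA : ∀ s, i s ∉ A) (hc : n + A.card = Fintype.card κ)
    (hF : ∀ k, Helper54.Stab.Put i A (E k) (F k)) : R.bun E = Helper54.Stab.cl R F := by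
  rw [bun_eq54 R E h]
  refine Helper54.Stab.cl_put R (Pr.co_notMem54 _) hA ?_ hc (fun k => Pr.put_toG54 _ (exists_compl h).choose_spec _) hF
  rw [Finset.card_map]
  exact (exists_compl h).choose_spec

/-- over the empty space every class is zero -/
theorem eq_of_isEmpty54 {K L : LC} [IsEmpty K] (x y : R.Hom K L) : x = y := by
  have h0 : R.J (PMap.id K) = 0 := by
    have h : PMap.id K = PMap.zero K K.plus := by
      ext k
      exact (IsEmpty.false k).elim
    rw [h, R.J_zero]
  have h1 : ∀ x : R.Hom K L, x = 0 := by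
    intro x
    have h2 := R.add_comp (0 : R.Hom K K) 0 x
    rw [add_zero] at h2
    rw [← R.id_comp x, h0]
    exact (left_eq_add.1 h2)
  rw [h1 x, h1 y]

/-- (b1) naturality -/
theorem bun_comp {K L : LC} [CompactSpace K] [CompactSpace L] (f : C(K, L)) {S : Type} [Fintype S]
    {n : ℕ} (E : C(L, Pr S n)) :
    R.comp (R.J (PMap.ofCont (K := K) (L := L) f f.continuous)) (R.bun E) = R.bun (E.comp f) := by
  by_cases h : n ≤ Fintype.card S
  · rw [bun_eq54 R _ h, bun_eq54 R _ h]
    unfold Helper54.Stab.cl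
    rw [← R.assoc, ← R.J_comp]
    congr 2
  · rw [bun, bun, dif_neg h, dif_neg h]
    have h2 := R.comp_add (R.J (PMap.ofCont (K := K) (L := L) f f.continuous))
      (0 : R.Hom L LC.point) 0
    rw [add_zero] at h2
    exact left_eq_add.1 h2

/-- (b2) homotopy invariance -/
theorem bun_homotopic {K : LC} [CompactSpace K] {S : Type} [Fintype S] {n : ℕ}
    {E F : C(K, Pr S n)} (h : E.Homotopic F) : R.bun E = R.bun F := by
  by_cases hn : n ≤ Fintype.card S
  · rw [bun_eq54 R _ hn, bun_eq54 R _ hn]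
    obtain ⟨H⟩ := h
    refine Helper54.Stab.cl_homotopy R (fun x => Pr.toG (exists_compl hn).choose
      (exists_compl hn).choose_spec (H x)) ((Pr.continuous_toG _ _).comp H.continuous) ?_ ?_
    · intro k
      exact congrArg _ (H.apply_zero k)
    · intro k
      exact congrArg _ (H.apply_one k)
  · rw [bun, bun, dif_neg hn, dif_neg hn]

/-- (b3) constant families have class one -/
theorem bun_const {K : LC} [CompactSpace K] {S : Type} [Fintype S] {n : ℕ} (P : Pr S n) :
    R.bun (ContinuousMap.const K P) = R.one K := by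
  rw [bun_eq54 R _ P.le_card]
  exact Helper54.Stab.cl_const R _ (Pr.toG (exists_compl P.le_card).choose
    (exists_compl P.le_card).choose_spec P) fun _ => rfl

/-- (b4) direct sums -/
theorem bun_sum {K : LC} [CompactSpace K] {S T : Type} [Fintype S] [Fintype T] {n m : ℕ}
    (E : C(K, Pr S n)) (F : C(K, Pr T m)) :
    R.bun (⟨fun k => Pr.sum (E k, F k), Pr.continuous_sum.comp
      (E.continuous.prodMk F.continuous)⟩ : C(K, Pr (S ⊕ T) (n + m))) =
      R.mul (R.bun E) (R.bun F) := by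
  rcases isEmpty_or_nonempty K with hK | ⟨⟨k₀⟩⟩
  · exact eq_of_isEmpty54 R _ _
  have h1 := (E k₀).le_card
  have h2 := (F k₀).le_card
  have h3 : n + m ≤ Fintype.card (S ⊕ T) := by
    rw [Fintype.card_sum]
    omega
  rw [bun_eq54 R E h1, bun_eq54 R F h2]
  obtain ⟨A, hA⟩ : ∃ A, A = (exists_compl h1).choose := ⟨_, rfl⟩
  obtain ⟨B, hB⟩ : ∃ B, B = (exists_compl h2).choose := ⟨_, rfl⟩
  have hA' : n + A.card = Fintype.card S := by rw [hA]; exact (exists_compl h1).choose_spec
  have hB' : m + B.card = Fintype.card T := by rw [hB]; exact (exists_compl h2).choose_spec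
  have e1 : Helper54.Stab.cl R (toGF54 (exists_compl h1).choose (exists_compl h1).choose_spec E) =
      Helper54.Stab.cl R (toGF54 A hA' E) := by subst hA; rfl
  have e2 : Helper54.Stab.cl R (toGF54 (exists_compl h2).choose (exists_compl h2).choose_spec F) =
      Helper54.Stab.cl R (toGF54 B hB' F) := by subst hB; rfl
  rw [e1, e2]
  refine Eq.trans ?_ (Helper54.Stab.cl_sum R (toGF54 A hA' E) (toGF54 B hB' F))
  refine bun_put54 R _ h3 _ (i := Pr.co54 true) (A := (A.disjSum B).map (Pr.co54 false))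
    (Pr.co_notMem54 _) ?_ fun k => ?_
  · rw [Finset.card_map, Finset.card_disjSum, Fintype.card_sum]
    omega
  have pE := Pr.put_toG54 A hA' (E k)
  have pF := Pr.put_toG54 B hB' (F k)
  refine ⟨?_, ?_, ?_, ?_⟩
  · rintro (s | s) (t | t)
    · exact pE.p1 s t
    · rfl
    · rfl
    · exact pF.p1 s t
  · intro x hx
    obtain ⟨a, ha, rfl⟩ := Finset.mem_map.1 hx
    rcases a with a | a
    · exact pE.p2 _ (Finset.mem_map.2 ⟨a, Finset.inl_mem_disjSum.1 ha, rfl⟩)
    · exact pF.p2 _ (Finset.mem_map.2 ⟨a, Finset.inr_mem_disjSum.1 ha, rfl⟩)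
  · rintro x hx ⟨y | y, c⟩ hxy
    · obtain ⟨a, ha, rfl⟩ := Finset.mem_map.1 hx
      rcases a with a | a
      · refine pE.p2' _ (Finset.mem_map.2 ⟨a, Finset.inl_mem_disjSum.1 ha, rfl⟩) (y, c) ?_
        intro h
        exact hxy (Pr.co_inl54 h)
      · rfl
    · obtain ⟨a, ha, rfl⟩ := Finset.mem_map.1 hx
      rcases a with a | a
      · rfl
      · refine pF.p2' _ (Finset.mem_map.2 ⟨a, Finset.inr_mem_disjSum.1 ha, rfl⟩) (y, c) ?_
        intro h
        exact hxy (Pr.co_inr54 h)
  · rintro ⟨x | x, b⟩ ⟨y | y, c⟩ hx hxy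
    · refine pE.p3 (x, b) (y, c) ?_ ?_
      · intro h
        obtain ⟨a, ha, hab⟩ := Finset.mem_map.1 h
        refine hx (Finset.mem_map.2 ⟨.inl a, Finset.inl_mem_disjSum.2 ha, ?_⟩)
        exact Pr.co_inl54 hab
      · rcases hxy with h | h
        · left
          rintro ⟨s, hs⟩
          exact h ⟨.inl s, Pr.co_inl54 hs⟩
        · right
          rintro ⟨s, hs⟩
          exact h ⟨.inl s, Pr.co_inl54 hs⟩
    · rfl
    · rfl
    · refine pF.p3 (x, b) (y, c) ?_ ?_
      · intro h
        obtain ⟨a, ha, hab⟩ := Finset.mem_map.1 h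
        refine hx (Finset.mem_map.2 ⟨.inr a, Finset.inr_mem_disjSum.2 ha, ?_⟩)
        exact Pr.co_inr54 hab
      · rcases hxy with h | h
        · left
          rintro ⟨s, hs⟩
          exact h ⟨.inr s, Pr.co_inr54 hs⟩
        · right
          rintro ⟨s, hs⟩
          exact h ⟨.inr s, Pr.co_inr54 hs⟩

/-- extension by zero does not change the class -/
theorem bun_ext54 {K : LC} [CompactSpace K] {S T : Type} [Fintype S] [Fintype T] {n : ℕ}
    (j : S ↪ T) (E : C(K, Pr S n)) (E' : C(K, Pr T n)) (hE : ∀ k, E' k = Pr.ext j (E k)) :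
    R.bun E' = R.bun E := by
  rcases isEmpty_or_nonempty K with hK | ⟨⟨k₀⟩⟩
  · exact eq_of_isEmpty54 R _ _
  have h1 := (E k₀).le_card
  have h2 := (E' k₀).le_card
  rw [bun_eq54 R E' h2]
  obtain ⟨A, hA⟩ : ∃ A, A = (exists_compl h2).choose := ⟨_, rfl⟩
  have hA' : n + A.card = Fintype.card T := by rw [hA]; exact (exists_compl h2).choose_spec
  have e1 : Helper54.Stab.cl R (toGF54 (exists_compl h2).choose (exists_compl h2).choose_spec E') =
      Helper54.Stab.cl R (toGF54 A hA' E') := by subst hA; rfl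
  rw [e1]
  symm
  refine bun_put54 R E h1 _ (i := j.trans (Pr.co54 true)) (A := A.map (Pr.co54 false))
    (fun s => Pr.co_notMem54 _ _) ?_ fun k => ?_
  · rw [Finset.card_map]
    exact hA'
  have p := Pr.put_toG54 A hA' (E' k)
  have hin : ∀ s t, (Pr.ext j (E k)).1 (j s) (j t) = (E k).1 s t := by
    intro s t
    have h : (∃ s', j s' = j s) ∧ (∃ s', j s' = j t) := ⟨⟨s, rfl⟩, ⟨t, rfl⟩⟩
    refine (dif_pos h).trans ?_
    rw [j.injective h.1.choose_spec, j.injective h.2.choose_spec]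
  refine ⟨?_, p.p2, p.p2', ?_⟩
  · intro s t
    refine (p.p1 (j s) (j t)).trans ?_
    rw [hE]
    exact hin s t
  · intro x y hx hxy
    by_cases h : x ∈ range (Pr.co54 true : T ↪ T × Bool) ∧ y ∈ range (Pr.co54 true : T ↪ T × Bool)
    · obtain ⟨⟨a, rfl⟩, ⟨b, rfl⟩⟩ := h
      refine (p.p1 a b).trans ?_
      rw [hE]
      refine dif_neg ?_
      rintro ⟨⟨s, hs⟩, ⟨t, ht⟩⟩
      rcases hxy with h' | h'
      · exact h' ⟨s, congrArg (Pr.co54 true) hs⟩
      · exact h' ⟨t, congrArg (Pr.co54 true) ht⟩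
    · rw [not_and_or] at h
      exact p.p3 x y hx h

/-- (b5) equivalent families have the same class -/
theorem bun_congr {K : LC} [CompactSpace K] {S T : Type} [Fintype S] [Fintype T] {n : ℕ}
    (E : C(K, Pr S n)) (F : C(K, Pr T n)) (h : UEquiv E F) : R.bun E = R.bun F := by
  obtain ⟨H, h1, h2, h3⟩ := UEquiv.homotopic h
  let E' : C(K, Pr (S ⊕ T) n) := ⟨fun k => H (0, k), h1.comp (by fun_prop)⟩
  let F' : C(K, Pr (S ⊕ T) n) := ⟨fun k => H (1, k), h1.comp (by fun_prop)⟩
  rw [← bun_ext54 R ⟨Sum.inl, Sum.inl_injective⟩ E E' h2,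
    ← bun_ext54 R ⟨Sum.inr, Sum.inr_injective⟩ F F' h3]
  exact bun_homotopic R ⟨⟨⟨H, h1⟩, fun _ => rfl, fun _ => rfl⟩⟩

/-- (b6) the class of a family in `G κ` -/
theorem bun_GK {K : LC} [CompactSpace K] {κ : Type} [Fintype κ] (E : C(K, GK κ)) :
    R.bun (S := κ × Bool) (n := Fintype.card κ) (E : C(K, Pr (κ × Bool) (Fintype.card κ))) =
      R.comp (R.J (PMap.ofCont (K := K) (L := LC.G κ) E E.continuous)) (R.g κ) := by
  refine bun_put54 R (S := κ × Bool) (n := Fintype.card κ)
    (E : C(K, Pr (κ × Bool) (Fintype.card κ))) ?_ E (i := Function.Embedding.refl _)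
    (A := ∅) (fun s => Finset.notMem_empty _) (by simp) fun k => ?_
  · rw [Fintype.card_prod, Fintype.card_bool]
    omega
  · refine ⟨fun s t => rfl, fun x hx => absurd hx (Finset.notMem_empty _),
      fun x hx => absurd hx (Finset.notMem_empty _), fun x y _ h => ?_⟩
    rcases h with h | h
    · exact absurd ⟨x, rfl⟩ h
    · exact absurd ⟨y, rfl⟩ h

end GBiv

/-! ## The dual basis of `R(ℂP^m, -)` -/

namespace Orient
variable {R : Biv} (o : Orient R)

/-- the powers `u^i ∈ R(ℂP^S, ℂ^i)` -/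
def upow (S : Type) [Fintype S] (i : ℕ) : R.Hom (LC.Pr S 1) (Cn i) :=
  R.comp (o.Epow (X := LC.Pr S 1) (fun P => P) continuous_id i)
    (R.comp (R.tens (R.J (PMap.toPoint (LC.Pr S 1))) (Cn i)) (R.J (PMap.ofHomeo (LC.lunit (Cn i)))))

theorem upow_eq_up (S : Type) [Fintype S] (i : ℕ) :
    o.upow S i = Pool.Agent.Helper74.Stab.up o S i := by
  have h := Pool.Agent.Helper74.Stab.Epow_eq_pw o (X := LC.Pr S 1) (fun P => P) continuous_id i
  rw [upow, h]
  rfl

/-- `(1)` the powers of `u` beyond the dimension vanish -/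
theorem upow_eq_zero (S : Type) [Fintype S] {i : ℕ} (h : Fintype.card S ≤ i) :
    o.upow S i = 0 := by
  rw [upow_eq_up]
  exact Pool.Agent.Helper74.Stab.up_eq_zero o S h

/-- the dual basis -/
theorem exists_dual (S : Type) [Fintype S] : ∃ b : ∀ i : ℕ, R.Hom (Cn i) (LC.Pr S 1),
    (∀ i, Fintype.card S ≤ i → b i = 0) ∧
    (∀ i j, i < Fintype.card S → i ≠ j → R.comp (b i) (o.upow S j) = 0) ∧
    (∀ i, i < Fintype.card S → R.comp (b i) (o.upow S i) = R.J (PMap.id _)) ∧
    ∑ i ∈ Finset.range (Fintype.card S), R.comp (o.upow S i) (b i) = R.J (PMap.id _) := by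
  simp only [upow_eq_up]
  exact Pool.Agent.Helper74.Stab.exists_dual o S

/-- the class `b_i : ℂ^i → ℂP^S` (zero for `i ≥ |S|`) -/
def b (S : Type) [Fintype S] (i : ℕ) : R.Hom (Cn i) (LC.Pr S 1) := (o.exists_dual S).choose i

theorem b_dual (S : Type) [Fintype S] : Pool.Agent.Helper74.Stab.Dual o S (o.b S) := by
  have h := (o.exists_dual S).choose_spec
  simp only [upow_eq_up] at h
  exact ⟨h.1, h.2.1, h.2.2.1, h.2.2.2⟩

/-- `(2)` the classes `b_i` are compatible with inclusions -/
theorem b_ext {S T : Type} [Fintype S] [Fintype T] (j : S ↪ T) {i : ℕ} (h : i < Fintype.card S) :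
    R.comp (o.b S i) (R.J (Pr.extM j 1)) = o.b T i :=
  (o.b_dual S).ext (o.b_dual T) j h

/-- `(3)` the cap formula -/
theorem b_cap (S : Type) [Fintype S] (i : ℕ) (h : i + 1 < Fintype.card S) :
    R.comp (o.b S (i + 1)) (o.E (X := LC.Pr S 1) (fun P => P) continuous_id) =
      R.tens (o.b S i) LC.C :=
  ((o.b_dual S).cap i h).trans (R.id_comp (K := (Cn i).prod LC.C) (R.tens (o.b S i) LC.C))

/-- `(3')` the cap formula for `b_0` -/
theorem b_cap_zero (S : Type) [Fintype S] :
    R.comp (o.b S 0) (o.E (X := LC.Pr S 1) (fun P => P) continuous_id) = 0 :=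
  (o.b_dual S).cap_zero

/-- `(4)` the class `b_0` is the class of a point -/
theorem b_zero (S : Type) [Fintype S] (s : S) :
    o.b S 0 = R.J (PMap.ofPoint (K := LC.Pr S 1) (Pr.line s)) :=
  (o.b_dual S).b_zero s

end Orient

/-! ## The polynomial structure -/

/-- `ℂ^i × ℂ^j = ℂ^(i+j)` -/
def CnAdd (i : ℕ) : ∀ j : ℕ, (Cn i).prod (Cn j) ≃ₜ Cn (i + j)
  | 0 => Homeomorph.prodPUnit (Cn i)
  | j + 1 => (Homeomorph.prodAssoc (Cn i) (Cn j) LC.C).symm.trans
      ((CnAdd i j).prodCongr (Homeomorph.refl ℂ))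

open Classical in
/-- (ALG) For a multiset `L` of `n + 1` natural numbers there is an integral combination `w` of pairs
`(i, μ)`, `μ` a multiset of `n` numbers, of the same degree, such that `∑ w(i,μ) {i - j} ∪ μ` is `L`
for `j = 0` and `0` for `0 < j ≤ n` (terms with `i < j` are omitted). -/
theorem alg (n : ℕ) (L : Multiset ℕ) (hL : Multiset.card L = n + 1) :
    ∃ w : (ℕ × Multiset ℕ) →₀ ℤ,
      (∀ p ∈ w.support, Multiset.card p.2 = n ∧ p.1 + p.2.sum = L.sum) ∧
      ∀ j ≤ n, (w.sum fun p c => if j ≤ p.1 then Finsupp.single ((p.1 - j) ::ₘ p.2) c else 0) =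
        if j = 0 then Finsupp.single L 1 else 0 :=
  Pool.Agent.Helper37.Stab.alg n L hL

namespace PRTheory
variable {R : Biv} (P : PRTheory R) (o : Orient R)

/-- the class `b_i ∈ P(ℂ^i, pt)` -/
def b (i : ℕ) : P.Hom (Cn i) LC.point :=
  P.comp (P.inc (o.b (Fin (i + 1)) i))
    (P.toGBiv.bun (K := LC.Pr (Fin (i + 1)) 1) (ContinuousMap.id _))

/-- the product of `x ∈ P(K, pt)` and `y ∈ P(L, pt)` -/
def mulPt {K L : LC} (x : P.Hom K LC.point) (y : P.Hom L LC.point) : P.Hom (K.prod L) LC.point :=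
  P.comp (P.comp (P.tens x L) (P.ltens LC.point y)) (P.J (PMap.ofHomeo (LC.lunit LC.point)))

/-- the monomials: `b_[i_1, …, i_r]`; the degree of a list is its sum from the right -/
def _root_.Pool.Agent.Helper1.Stab.deg : List ℕ → ℕ
  | [] => 0
  | i :: L => deg L + i

/-- the product `b_(i_r) ⋯ b_(i_1)` -/
def bL : ∀ L : List ℕ, P.Hom (Cn (deg L)) LC.point
  | [] => P.J (PMap.id LC.point)
  | i :: L => P.comp (P.J (PMap.ofHomeo (CnAdd (deg L) i).symm)) (P.mulPt (bL L) (P.b o i))

/-- sorted lists of positive integers -/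
def _root_.Pool.Agent.Helper1.Stab.PL : Type := {L : List ℕ // L.Pairwise (· ≤ ·) ∧ ∀ i ∈ L, 0 < i}

/-- multiplication of a coefficient with a class -/
def term {K Z : LC} {d : ℕ} (c : R.Hom K ((Cn d).prod Z)) (x : P.Hom (Cn d) LC.point) :
    P.Hom K Z :=
  P.comp (P.inc c) (P.comp (P.tens x Z) (P.J (PMap.ofHomeo (LC.lunit Z))))

end PRTheory

end Pool.Agent.Helper1.Stab
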