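import Pool.Agent.Helper1.Stab.PR
import Pool.Agent.Helper33.Stab.TermP
import Pool.Agent.Helper82.Stab.GenAux
import Pool.Agent.Helper77.Stab.PO1
import Pool.Agent.Helper42.Stab.Perm
import Pool.Agent.Helper73.Stab.UEq
import Pool.Agent.Helper60.StabI.Ind3

/-! The theory `R ∧ BU₊` is polynomial: the spaces of projections of finite rank and the limit. -/

open Topology Filter Set Matrix

noncomputable section

namespace Pool.Agent.Helper1.Stab

/-! ## The colimit over the dimension of the ambient space -/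

/-- `H(K, Z) = colim_S R(K, Pr S n × Z)` -/
structure HLim (R : Biv) (n : ℕ) where
  H : LC → LC → Type
  [grp : ∀ K Z, AddCommGroup (H K Z)]
  cls : ∀ {K Z : LC} {S : Type} [Fintype S], R.Hom K ((LC.Pr S n).prod Z) → H K Z
  cls_add : ∀ {K Z : LC} {S : Type} [Fintype S] (x y : R.Hom K ((LC.Pr S n).prod Z)),
    cls (x + y) = cls x + cls y
  cls_ext : ∀ {K Z : LC} {S T : Type} [Fintype S] [Fintype T] (j : S ↪ T)
    (x : R.Hom K ((LC.Pr S n).prod Z)),
    cls (R.comp x (R.tens (R.J (Pr.extM j n)) Z)) = cls x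
  surj : ∀ {K Z : LC} (x : H K Z) (N : ℕ), ∃ M ≥ N, ∃ y : R.Hom K ((LC.Pr (Fin M) n).prod Z),
    x = cls y
  eq_zero : ∀ {K Z : LC} {S : Type} [Fintype S] (x : R.Hom K ((LC.Pr S n).prod Z)), cls x = 0 →
    ∃ m : ℕ, R.comp x (R.tens (R.J (Pr.extM (⟨Sum.inl, Sum.inl_injective⟩ : S ↪ S ⊕ Fin m) n)) Z) = 0

attribute [instance] HLim.grp

/-- Two embeddings give homotopic maps after adding as many coordinates again. -/
theorem ext_homotopic {S T : Type} [Fintype S] [Fintype T] (i j : S ↪ T) (n : ℕ) :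
    (Pr.extM (i.trans (⟨Sum.inl, Sum.inl_injective⟩ : T ↪ T ⊕ T)) n).Homotopic
      (Pr.extM (j.trans (⟨Sum.inl, Sum.inl_injective⟩ : T ↪ T ⊕ T)) n) :=
  Helper77.Stab.ext_homotopic i j n

/-- (HL) the colimits exist -/
theorem exists_HLim (R : Biv) (n : ℕ) : Nonempty (HLim R n) :=
  ⟨{ H := fun K Z => Helper77.Stab.Lim R K Z n
     grp := fun K Z => inferInstance
     cls := fun {K Z S} _ x => Helper77.Stab.cl R K Z S n x
     cls_add := fun x y => map_add _ x y
     cls_ext := fun j x => Helper77.Stab.cl_ext R _ _ j x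
     surj := fun x N => Helper77.Stab.cl_surj R _ _ x N
     eq_zero := fun x h => Helper77.Stab.cl_eq_zero R _ _ x h }⟩

/-- the colimit -/
def hLim (R : Biv) (n : ℕ) : HLim R n := (exists_HLim R n).some

/-! ## The classes `e_L` -/

/-- the index set of the stage of `e_L` -/
def Idx : List ℕ → Type
  | [] => Empty
  | i :: L => Idx L ⊕ Fin (i + 1)

instance : ∀ L : List ℕ, Fintype (Idx L)
  | [] => inferInstanceAs (Fintype Empty)
  | i :: L => by
    have : Fintype (Idx L) := instFintypeIdx L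
    exact inferInstanceAs (Fintype (Idx L ⊕ Fin (i + 1)))

/-- block sum as a pointed map -/
def Pr.sumM (S T : Type) [Fintype S] [Fintype T] (n m : ℕ) :
    PMap ((LC.Pr S n).prod (LC.Pr T m)) (LC.Pr (S ⊕ T) (n + m)).plus :=
  PMap.ofCont (K := (LC.Pr S n).prod (LC.Pr T m)) (L := LC.Pr (S ⊕ T) (n + m)) Pr.sum
    Pr.continuous_sum

/-- the point of `Pr ∅ 0` -/
def Pr.none : Pr Empty 0 := ⟨0, by simp⟩

namespace Orient
variable {R : Biv} (o : Orient R)

/-- the class `e_L : ℂ^|L| → Pr (Idx L) (length L)` -/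
def eL : ∀ L : List ℕ, R.Hom (Cn (deg L)) (LC.Pr (Idx L) L.length)
  | [] => R.J (PMap.ofPoint (K := LC.Pr Empty 0) Pr.none)
  | i :: L => R.comp (R.J (PMap.ofHomeo (CnAdd (deg L) i).symm))
      (R.comp (R.tens (eL L) (Cn i))
        (R.comp (R.ltens (LC.Pr (Idx L) L.length) (o.b (Fin (i + 1)) i))
          (R.J (Pr.sumM (Idx L) (Fin (i + 1)) L.length 1))))

/-- the contribution of `c` in degree `L` -/
def eH {n : ℕ} {K Z : LC} (L : List ℕ) (h : L.length = n) (c : R.Hom K ((Cn (deg L)).prod Z)) :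
    (hLim R n).H K Z :=
  (hLim R n).cls (R.comp c (R.tens (h ▸ o.eL L : R.Hom (Cn (deg L)) (LC.Pr (Idx L) n)) Z))

end Orient

/-- the identification of equal powers -/
def CnCast {i j : ℕ} (h : i = j) : Cn i ≃ₜ Cn j := h ▸ Homeomorph.refl _

theorem deg_eq_sum (L : List ℕ) : deg L = L.sum := by
  induction L with
  | nil => rfl
  | cons i L ih => rw [List.sum_cons, ← ih, Nat.add_comm]; rfl

theorem deg_perm {L L' : List ℕ} (h : L.Perm L') : deg L = deg L' := by
  rw [deg_eq_sum, deg_eq_sum, h.sum_eq]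

/-- permutations of the complex coordinates are trivial: the flip of `ℂ^i × ℂ^j` -/
theorem flip_homotopic (i j : ℕ) :
    (PMap.ofHomeo (((CnAdd i j).symm.trans (LC.swap (Cn i) (Cn j))).trans
      (CnAdd j i))).Homotopic (PMap.ofHomeo (CnCast (Nat.add_comm i j))) :=
  Helper42.Stab.flip_homotopic i j

namespace Orient
variable {R : Biv} (o : Orient R)

/-- the class `e_L` with the length as a variable -/
def eLn (L : List ℕ) (n : ℕ) (h : L.length = n) : R.Hom (Cn (deg L)) (LC.Pr (Idx L) n) :=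
  h ▸ o.eL L

theorem eLn_cons (i : ℕ) (L : List ℕ) (n : ℕ) (h : L.length = n)
    (h1 : (i :: L).length = n + 1) :
    o.eLn (i :: L) (n + 1) h1 = Helper42.Stab.stp R (CnAdd (deg L) i).symm (o.eLn L n h)
      (o.b (Fin (i + 1)) i) := by
  subst h
  rfl

theorem J_CnCast_refl (a : ℕ) : R.J (PMap.ofHomeo (CnCast (rfl : a = a))) = R.J (PMap.id _) := rfl

theorem J_CnCast_trans {a b c : ℕ} (h1 : a = b) (h2 : b = c) :
    R.comp (R.J (PMap.ofHomeo (CnCast h1))) (R.J (PMap.ofHomeo (CnCast h2))) =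
      R.J (PMap.ofHomeo (CnCast (h1.trans h2))) := by
  subst h1
  subst h2
  rw [J_CnCast_refl, R.comp_id]

theorem J_CnCast_add {a b : ℕ} (h : a = b) (i : ℕ) (h' : a + i = b + i) :
    R.comp (R.J (PMap.ofHomeo (CnAdd a i).symm)) (R.tens (R.J (PMap.ofHomeo (CnCast h))) (Cn i)) =
      R.comp (R.J (PMap.ofHomeo (CnCast h'))) (R.J (PMap.ofHomeo (CnAdd b i).symm)) := by
  subst h
  rw [J_CnCast_refl, J_CnCast_refl, R.id_comp, Helper39.Stab.tens_id, R.comp_id]

/-- the relation between `e_L` and `e_L'` -/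
def PermRel (L L' : List ℕ) : Prop :=
  ∀ (hd : deg L = deg L') (n : ℕ) (h : L.length = n) (h' : L'.length = n),
    ∃ (U : Type) (_ : Fintype U) (j : Idx L ↪ U) (j' : Idx L' ↪ U),
      R.comp (o.eLn L n h) (R.J (Pr.extM j n)) = R.comp (R.J (PMap.ofHomeo (CnCast hd)))
        (R.comp (o.eLn L' n h') (R.J (Pr.extM j' n)))

theorem J_extM_trans {S T U : Type} [Fintype S] [Fintype T] [Fintype U] (i : S ↪ T) (j : T ↪ U)
    (n : ℕ) : R.comp (R.J (Pr.extM i n)) (R.J (Pr.extM j n)) =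
      R.J (Pr.extM (i.trans j) n) := by
  rw [← R.J_comp]
  congr 1
  refine PMap.ext fun P => ?_
  change ((Pr.ext j (Pr.ext i P) : LC.Pr U n) : OnePoint (LC.Pr U n)) =
    ((Pr.ext (i.trans j) P : LC.Pr U n) : OnePoint (LC.Pr U n))
  congr 1
  refine Helper82.Stab.pr_ext_iff fun x y => ?_
  by_cases hx : ∃ s, (i.trans j) s = x
  · by_cases hy : ∃ s, (i.trans j) s = y
    · obtain ⟨s, rfl⟩ := hx
      obtain ⟨t, rfl⟩ := hy
      rw [Helper82.Stab.ext_apply]
      exact (Helper82.Stab.ext_apply j _ (i s) (i t)).trans (Helper82.Stab.ext_apply i P s t)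
    · rw [Helper82.Stab.ext_right (i.trans j) P x (not_exists.1 hy)]
      by_cases hy' : ∃ t, j t = y
      · obtain ⟨t, rfl⟩ := hy'
        by_cases hx' : ∃ t, j t = x
        · obtain ⟨u, rfl⟩ := hx'
          rw [Helper82.Stab.ext_apply]
          exact Helper82.Stab.ext_right i P u fun s hs => hy ⟨s, congrArg j hs⟩
        · exact Helper82.Stab.ext_left _ _ (not_exists.1 hx') _
      · exact Helper82.Stab.ext_right _ _ _ (not_exists.1 hy')
  · rw [Helper82.Stab.ext_left (i.trans j) P (not_exists.1 hx)]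
    by_cases hx' : ∃ t, j t = x
    · obtain ⟨t, rfl⟩ := hx'
      by_cases hy' : ∃ t, j t = y
      · obtain ⟨u, rfl⟩ := hy'
        rw [Helper82.Stab.ext_apply]
        exact Helper82.Stab.ext_left i P (fun s hs => hx ⟨s, congrArg j hs⟩) u
      · exact Helper82.Stab.ext_right _ _ _ (not_exists.1 hy')
    · exact Helper82.Stab.ext_left _ _ (not_exists.1 hx') _

theorem permRel_cons (i : ℕ) {L L' : List ℕ} (hp : L.Perm L') (ih : o.PermRel L L') :
    o.PermRel (i :: L) (i :: L') := by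
  intro hd m h h'
  obtain ⟨n, rfl⟩ : ∃ n, m = n + 1 := ⟨L.length, h.symm⟩
  have hL : L.length = n := Nat.succ.inj h
  have hL' : L'.length = n := Nat.succ.inj h'
  obtain ⟨U, _, j, j', hj⟩ := ih (deg_perm hp) n hL hL'
  refine ⟨U ⊕ Fin (i + 1), inferInstance, j.sumMap (Function.Embedding.refl _),
    j'.sumMap (Function.Embedding.refl _), ?_⟩
  rw [o.eLn_cons i L n hL h, o.eLn_cons i L' n hL' h']
  refine (Helper42.Stab.stp_ext R (CnAdd (deg L) i).symm _ _ j).trans (Eq.trans ?_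
    (congrArg _ (Helper42.Stab.stp_ext R (CnAdd (deg L') i).symm _ _ j').symm))
  rw [hj]
  exact Helper42.Stab.stp_pre R _ _ _ _ (J_CnCast_add _ i hd) _ _

theorem permRel_swap (i k : ℕ) (L : List ℕ) : o.PermRel (k :: i :: L) (i :: k :: L) := by
  intro hd m h h'
  obtain ⟨n, rfl⟩ : ∃ n, m = n + 1 + 1 := ⟨L.length, h.symm⟩
  have hL : L.length = n := Nat.succ.inj (Nat.succ.inj h)
  have h1 : ∀ a : ℕ, (a :: L).length = n + 1 := fun a => congrArg Nat.succ hL
  refine ⟨Idx (i :: k :: L), inferInstance,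
    (Helper42.Stab.sw3 (Idx L) (Fin (i + 1)) (Fin (k + 1))).toEmbedding,
    Function.Embedding.refl _, ?_⟩
  rw [o.eLn_cons k (i :: L) (n + 1) (h1 i) h, o.eLn_cons i (k :: L) (n + 1) (h1 k) h',
    o.eLn_cons i L n hL, o.eLn_cons k L n hL]
  have e1 := R.J_homotopic (Helper42.Stab.exC_homotopic (deg L) i k)
  refine (Helper42.Stab.stp_swap R (CnAdd (deg L) i).symm (o.eLn L n hL) (o.b (Fin (i + 1)) i)
    (CnAdd (deg L + i) k).symm (o.b (Fin (k + 1)) k) (CnAdd (deg L) k).symm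
    (CnAdd (deg L + k) i).symm (Helper42.Stab.exC (deg L) i k)
    (Helper42.Stab.exC_spec (deg L) i k)).trans ?_
  rw [e1]
  have e2 : ∀ x : R.Hom (Cn (deg (i :: k :: L))) (LC.Pr (Idx (i :: k :: L)) (n + 1 + 1)),
      x = R.comp x (R.J (Pr.extM (Function.Embedding.refl _) (n + 1 + 1))) := by
    intro x
    have e3 : Pr.extM (Function.Embedding.refl (Idx (i :: k :: L))) (n + 1 + 1) =
        PMap.id (LC.Pr (Idx (i :: k :: L)) (n + 1 + 1)) := by
      refine PMap.ext fun P => ?_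
      exact congrArg (fun M : LC.Pr (Idx (i :: k :: L)) (n + 1 + 1) =>
        (M : OnePoint (LC.Pr (Idx (i :: k :: L)) (n + 1 + 1)))) (Helper82.Stab.ext_refl P)
    rw [e3, R.comp_id]
  exact congrArg _ (e2 _)

theorem permRel_perm {L L' : List ℕ} (hp : L.Perm L') : o.PermRel L L' := by
  induction hp with
  | nil =>
    intro hd n h h'
    refine ⟨Idx [], inferInstance, Function.Embedding.refl _, Function.Embedding.refl _, ?_⟩
    exact (R.id_comp _).symm
  | cons i hp ih => exact o.permRel_cons i hp ih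
  | swap i k L => exact o.permRel_swap i k L
  | trans hp1 hp2 ih1 ih2 =>
    rename_i L1 L2 L3
    intro hd n h h'
    have hn : L2.length = n := by rw [← hp1.length_eq, h]
    obtain ⟨U, _, j1, j1', e1⟩ := ih1 (deg_perm hp1) n h hn
    obtain ⟨V, _, j2, j2', e2⟩ := ih2 (deg_perm hp2) n hn h'
    let a : U ↪ U ⊕ V := ⟨Sum.inl, Sum.inl_injective⟩
    let b : V ↪ U ⊕ V := ⟨Sum.inr, Sum.inr_injective⟩
    let t : U ⊕ V ↪ (U ⊕ V) ⊕ (U ⊕ V) := ⟨Sum.inl, Sum.inl_injective⟩
    have hh := R.J_homotopic (ext_homotopic (j1'.trans a) (j2.trans b) n)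
    refine ⟨(U ⊕ V) ⊕ (U ⊕ V), inferInstance, j1.trans (a.trans t), j2'.trans (b.trans t), ?_⟩
    have f1 : R.comp (o.eLn L1 n h) (R.J (Pr.extM (j1.trans (a.trans t)) n)) =
        R.comp (R.J (PMap.ofHomeo (CnCast (deg_perm hp1)))) (R.comp (o.eLn L2 n hn)
          (R.J (Pr.extM ((j1'.trans a).trans t) n))) := by
      rw [← J_extM_trans j1 (a.trans t), ← R.assoc, e1, R.assoc, R.assoc, J_extM_trans]
      rfl
    have f2 : R.comp (o.eLn L2 n hn) (R.J (Pr.extM ((j2.trans b).trans t) n)) =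
        R.comp (R.J (PMap.ofHomeo (CnCast (deg_perm hp2)))) (R.comp (o.eLn L3 n h')
          (R.J (Pr.extM (j2'.trans (b.trans t)) n))) := by
      have f3 : Pr.extM ((j2.trans b).trans t) n = Pr.extM (j2.trans (b.trans t)) n := rfl
      rw [f3, ← J_extM_trans j2 (b.trans t), ← R.assoc, e2, R.assoc, R.assoc, J_extM_trans]
    rw [f1]
    refine (congrArg (fun z => R.comp (R.J (PMap.ofHomeo (CnCast (deg_perm hp1))))
      (R.comp (o.eLn L2 n hn) z)) hh).trans ?_
    refine (congrArg (fun z => R.comp (R.J (PMap.ofHomeo (CnCast (deg_perm hp1)))) z) f2).trans ?_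
    rw [← R.assoc, J_CnCast_trans]

/-- (SYM) the contributions do not depend on the order of the list -/
theorem eH_perm {n : ℕ} {K Z : LC} {L L' : List ℕ} (hp : L.Perm L') (h : L.length = n)
    (h' : L'.length = n) (c : R.Hom K ((Cn (deg L)).prod Z)) :
    o.eH L h c = o.eH L' h' (R.comp c (R.tens (R.J (PMap.ofHomeo (CnCast (deg_perm hp)))) Z)) := by
  obtain ⟨U, _, j, j', e⟩ := o.permRel_perm hp (deg_perm hp) n h h'
  change (hLim R n).cls (R.comp c (R.tens (o.eLn L n h) Z)) =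
    (hLim R n).cls (R.comp (R.comp c (R.tens (R.J (PMap.ofHomeo (CnCast (deg_perm hp)))) Z))
      (R.tens (o.eLn L' n h') Z))
  rw [← (hLim R n).cls_ext j, ← (hLim R n).cls_ext j' (R.comp (R.comp c _) _), R.assoc,
    ← R.tens_comp, e, R.assoc, R.assoc, ← R.tens_comp, ← R.tens_comp]

theorem eH_add {n : ℕ} {K Z : LC} (L : List ℕ) (h : L.length = n)
    (c d : R.Hom K ((Cn (deg L)).prod Z)) : o.eH L h (c + d) = o.eH L h c + o.eH L h d := by
  rw [eH, R.add_comp, (hLim R n).cls_add]; rfl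

end Orient

/-- sorted lists of `n` natural numbers -/
def SL (n : ℕ) : Type := {L : List ℕ // L.Pairwise (· ≤ ·) ∧ L.length = n}

/-- generation of `H_n` -/
def Gen {R : Biv} (o : Orient R) (n : ℕ) : Prop :=
  ∀ (K Z : LC) (x : (hLim R n).H K Z), ∃ (s : Finset (SL n))
    (c : ∀ L : SL n, R.Hom K ((Cn (deg L.1)).prod Z)), x = ∑ L ∈ s, o.eH L.1 L.2.2 (c L)

/-- independence in `H_n` -/
def Ind {R : Biv} (o : Orient R) (n : ℕ) : Prop :=
  ∀ (K Z : LC) (s : Finset (SL n)) (c : ∀ L : SL n, R.Hom K ((Cn (deg L.1)).prod Z)),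
    ∑ L ∈ s, o.eH L.1 L.2.2 (c L) = 0 → ∀ L ∈ s, c L = 0

theorem SL.eq_nil (L : SL 0) : L = ⟨[], List.Pairwise.nil, rfl⟩ :=
  Subtype.ext (List.length_eq_zero_iff.1 L.2.2)

theorem gen_zero {R : Biv} (o : Orient R) : Gen o 0 := by
  classical
  intro K Z x
  obtain ⟨M, -, y, rfl⟩ := (hLim R 0).surj x 0
  let L0 : SL 0 := ⟨[], List.Pairwise.nil, rfl⟩
  let c0 : R.Hom K ((Cn (deg L0.1)).prod Z) := R.comp y (R.tens (R.J (PMap.toPoint (LC.Pr (Fin M) 0))) Z)
  refine ⟨{L0}, Function.update (fun _ => 0) L0 c0, ?_⟩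
  rw [Finset.sum_singleton, Function.update_self]
  have h0 := Helper77.Stab.comp_loop R K Z Pr.none (Function.Embedding.ofIsEmpty (β := Fin M)) y
  have h1 := (hLim R 0).cls_ext (Function.Embedding.ofIsEmpty (β := Fin M))
    (R.comp c0 (R.tens (R.J (PMap.ofPoint (K := LC.Pr Empty 0) Pr.none)) Z))
  exact (congrArg (hLim R 0).cls h0).symm.trans h1

theorem ind_zero {R : Biv} (o : Orient R) : Ind o 0 := by
  intro K Z s c hs L hL
  have h1 : s = {L} := by
    ext L'
    rw [Finset.mem_singleton, SL.eq_nil L', SL.eq_nil L, ← SL.eq_nil L]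
    exact ⟨fun _ => rfl, fun _ => hL⟩
  rw [h1, Finset.sum_singleton] at hs
  have h2 := SL.eq_nil L
  subst h2
  obtain ⟨m, hm⟩ := (hLim R 0).eq_zero _ hs
  have h3 := Helper77.Stab.comp_loop' R K Z Pr.none
    (⟨Sum.inl, Sum.inl_injective⟩ : Empty ↪ Empty ⊕ Fin m) (c ⟨[], List.Pairwise.nil, rfl⟩)
  refine h3.symm.trans ?_
  have h4 := congrArg (fun x => R.comp x
    (R.tens (R.J (PMap.toPoint (LC.Pr (Empty ⊕ Fin m) 0))) Z)) hm
  refine Eq.trans h4 ?_
  exact Helper9.Stab.z_comp R _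

theorem kappa_comm {S : Type} [Fintype S] {n m : ℕ} {V : Pr S n} {l : Pr S m}
    (h : V.1 * l.1 = l.1) : l.1 * V.1 = l.1 := by
  have h1 := congrArg conjTranspose h
  rwa [conjTranspose_mul, V.2.1, l.2.1] at h1

theorem kappa_aux {S : Type} [Fintype S] {n : ℕ} {V : Pr S (n + 1)} {l : Pr S 1}
    (h : V.1 * l.1 = l.1) :
    (V.1 - l.1)ᴴ = V.1 - l.1 ∧ (V.1 - l.1) * (V.1 - l.1) = V.1 - l.1 ∧
      (V.1 - l.1).trace = (n : ℂ) := by
  refine ⟨?_, ?_, ?_⟩
  · rw [conjTranspose_sub, V.2.1, l.2.1]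
  · rw [Matrix.sub_mul, Matrix.mul_sub, Matrix.mul_sub, V.2.2.1, l.2.2.1, h, kappa_comm h,
      sub_self, sub_zero]
  · rw [Matrix.trace_sub, V.2.2.2, l.2.2.2]
    push_cast
    ring

/-- the flag map `P(γ) → Pr S n × Pr S 1`, `(V, l) ↦ (V - l, l)` -/
def kappa (S : Type) [Fintype S] (n : ℕ) (x : LC.PV (X := LC.Pr S (n + 1)) (fun V => V)
    continuous_id) : Pr S n × Pr S 1 :=
  (⟨x.1.1.1 - x.1.2.1, kappa_aux x.2⟩, x.1.2)

theorem continuous_kappa (S : Type) [Fintype S] (n : ℕ) : Continuous (kappa S n) := by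
  have h1 : Continuous fun x : LC.PV (X := LC.Pr S (n + 1)) (fun V => V) continuous_id =>
      x.1.1.1 := Pr.continuous_val69.comp (continuous_fst.comp continuous_subtype_val)
  have h2 : Continuous fun x : LC.PV (X := LC.Pr S (n + 1)) (fun V => V) continuous_id =>
      x.1.2.1 := Pr.continuous_val69.comp (continuous_snd.comp continuous_subtype_val)
  exact (Continuous.subtype_mk (h1.sub h2) _).prodMk
    (continuous_snd.comp continuous_subtype_val)

/-- the map `Pr S n × Pr T 1 → P(γ)` over `Pr (S ⊕ T) (n + 1)`, `(W, l) ↦ (W ⊕ l, l)` -/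
def etaP (S T : Type) [Fintype S] [Fintype T] (n : ℕ) (x : Pr S n × Pr T 1) :
    LC.PV (X := LC.Pr (S ⊕ T) (n + 1)) (fun V => V) continuous_id :=
  ⟨(Pr.sum x, Pr.ext ⟨Sum.inr, Sum.inr_injective⟩ x.2), by
    change (Pr.sum x).1 * (Pr.ext ⟨Sum.inr, Sum.inr_injective⟩ x.2).1 =
      (Pr.ext ⟨Sum.inr, Sum.inr_injective⟩ x.2).1
    rw [PJ2.ext_inr]
    change fromBlocks x.1.1 0 0 x.2.1 * fromBlocks 0 0 0 x.2.1 = fromBlocks 0 0 0 x.2.1
    rw [fromBlocks_multiply, x.2.2.2.1]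
    simp⟩

theorem continuous_eta (S T : Type) [Fintype S] [Fintype T] (n : ℕ) :
    Continuous (etaP S T n) :=
  Continuous.subtype_mk (Pr.continuous_sum.prodMk ((Pr.continuous_ext _).comp continuous_snd)) _

/-- `κ η` is the extension by zero -/
theorem kappa_eta (S T : Type) [Fintype S] [Fintype T] (n : ℕ) (x : Pr S n × Pr T 1) :
    kappa (S ⊕ T) n (etaP S T n x) = (Pr.ext ⟨Sum.inl, Sum.inl_injective⟩ x.1,
      Pr.ext ⟨Sum.inr, Sum.inr_injective⟩ x.2) := by
  refine Prod.ext (Subtype.ext ?_) rfl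
  change fromBlocks x.1.1 0 0 x.2.1 - (Pr.ext ⟨Sum.inr, Sum.inr_injective⟩ x.2).1 =
    (Pr.ext ⟨Sum.inl, Sum.inl_injective⟩ x.1).1
  rw [PJ2.ext_inr, PJ2.ext_inl]
  ext (i | i) (j | j) <;> simp

/-- The sum of the two components of `κ` is equivalent to the extension by zero. -/
theorem uequiv_kappa (S : Type) [Fintype S] (n : ℕ) :
    UEquiv (fun x : LC.PV (X := LC.Pr S (n + 1)) (fun V => V) continuous_id =>
      Pr.sum (kappa S n x)) (fun x => (Pr.ext ⟨Sum.inl, Sum.inl_injective⟩ x.1.1 :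
        Pr (S ⊕ S) (n + 1))) := by
  have h1 : Continuous fun x : LC.PV (X := LC.Pr S (n + 1)) (fun V => V) continuous_id =>
      x.1.1.1 := Pr.continuous_val69.comp (continuous_fst.comp continuous_subtype_val)
  have h2 : Continuous fun x : LC.PV (X := LC.Pr S (n + 1)) (fun V => V) continuous_id =>
      x.1.2.1 := Pr.continuous_val69.comp (continuous_snd.comp continuous_subtype_val)
  refine ⟨fun x => fromBlocks (x.1.1.1 - x.1.2.1) x.1.2.1 0 0,
    Continuous.matrix_fromBlocks (h1.sub h2) h2 continuous_const continuous_const,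
    fun x => ?_, fun x => ?_⟩
  · have hx : x.1.1.1 * x.1.2.1 = x.1.2.1 := x.2
    have hl := x.1.2.2.2.1
    obtain ⟨e1, e2, -⟩ := kappa_aux hx
    change _ = fromBlocks (x.1.1.1 - x.1.2.1) 0 0 x.1.2.1
    rw [fromBlocks_conjTranspose, fromBlocks_multiply, e1, e2, x.1.2.2.1]
    simp only [conjTranspose_zero, Matrix.mul_zero, add_zero, Matrix.sub_mul, Matrix.mul_sub, hx,
      kappa_comm hx, hl, sub_self]
  · have hx : x.1.1.1 * x.1.2.1 = x.1.2.1 := x.2
    have hl := x.1.2.2.2.1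
    obtain ⟨e1, e2, -⟩ := kappa_aux hx
    rw [PJ2.ext_inl, fromBlocks_conjTranspose, fromBlocks_multiply, e1, e2, x.1.2.2.1]
    simp only [conjTranspose_zero, Matrix.mul_zero, Matrix.zero_mul, add_zero, hl,
      sub_add_cancel]

/-- Extension by zero in two steps. -/
theorem ext_trans_po {S T U : Type} [Fintype S] [Fintype T] [Fintype U] (i : S ↪ T) (j : T ↪ U)
    {n : ℕ} (P : Pr S n) : Pr.ext (i.trans j) P = Pr.ext j (Pr.ext i P) := by
  refine Helper82.Stab.pr_ext_iff fun a b => ?_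
  by_cases ha : ∃ t, j t = a
  · by_cases hb : ∃ t, j t = b
    · obtain ⟨t, rfl⟩ := ha
      obtain ⟨u, rfl⟩ := hb
      rw [Helper82.Stab.ext_apply]
      by_cases ht : ∃ s, i s = t
      · by_cases hu : ∃ s, i s = u
        · obtain ⟨s, rfl⟩ := ht
          obtain ⟨s', rfl⟩ := hu
          rw [Helper82.Stab.ext_apply]
          exact Helper82.Stab.ext_apply (i.trans j) P s s'
        · rw [Helper82.Stab.ext_right i P t fun s hs => hu ⟨s, hs⟩]
          exact Helper82.Stab.ext_right _ P _ fun s hs => hu ⟨s, j.injective hs⟩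
      · rw [Helper82.Stab.ext_left i P (fun s hs => ht ⟨s, hs⟩)]
        exact Helper82.Stab.ext_left _ P (fun s hs => ht ⟨s, j.injective hs⟩) _
    · rw [Helper82.Stab.ext_right j _ a fun s hs => hb ⟨s, hs⟩]
      exact Helper82.Stab.ext_right _ P _ fun s hs => hb ⟨i s, hs⟩
  · rw [Helper82.Stab.ext_left j _ (fun s hs => ha ⟨s, hs⟩)]
    exact Helper82.Stab.ext_left _ P (fun s hs => ha ⟨i s, hs⟩) _

/-- the sum of the two components of `κ` is homotopic to the extension by zero -/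
theorem sum_kappa (S : Type) [Fintype S] (n : ℕ) :
    ∃ H : unitInterval × LC.PV (X := LC.Pr S (n + 1)) (fun V => V) continuous_id →
      Pr ((S ⊕ S) ⊕ (S ⊕ S)) (n + 1), Continuous H ∧
      (∀ x, H (0, x) = Pr.ext ⟨Sum.inl, Sum.inl_injective⟩ (Pr.sum (kappa S n x))) ∧
      ∀ x, H (1, x) = Pr.ext ((⟨Sum.inl, Sum.inl_injective⟩ : S ↪ S ⊕ S).trans
        ⟨Sum.inl, Sum.inl_injective⟩) x.1.1 := by
  let PV := LC.PV (X := LC.Pr S (n + 1)) (fun V => V) continuous_id
  let B : PV → Pr (S ⊕ S) (n + 1) := fun x => Pr.ext ⟨Sum.inl, Sum.inl_injective⟩ x.1.1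
  have hB : Continuous B := (Pr.continuous_ext _).comp (continuous_fst.comp continuous_subtype_val)
  have hBB : UEquiv B B := ⟨fun x => (B x).1, Pr.continuous_val69.comp hB, fun x => by
    rw [(B x).2.1, (B x).2.2.1], fun x => by rw [(B x).2.1, (B x).2.2.1]⟩
  obtain ⟨H1, c1, a1, b1⟩ := (uequiv_kappa S n).homotopic
  obtain ⟨H2, c2, a2, b2⟩ := hBB.homotopic
  have hA : Continuous fun x : PV => Pr.sum (kappa S n x) :=
    Pr.continuous_sum.comp (continuous_kappa S n)
  let f1 : C(PV, Pr ((S ⊕ S) ⊕ (S ⊕ S)) (n + 1)) :=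
    ⟨fun x => Pr.ext ⟨Sum.inl, Sum.inl_injective⟩ (Pr.sum (kappa S n x)),
      (Pr.continuous_ext _).comp hA⟩
  let f2 : C(PV, Pr ((S ⊕ S) ⊕ (S ⊕ S)) (n + 1)) :=
    ⟨fun x => Pr.ext ⟨Sum.inr, Sum.inr_injective⟩ (B x), (Pr.continuous_ext _).comp hB⟩
  let f3 : C(PV, Pr ((S ⊕ S) ⊕ (S ⊕ S)) (n + 1)) :=
    ⟨fun x => Pr.ext ⟨Sum.inl, Sum.inl_injective⟩ (B x), (Pr.continuous_ext _).comp hB⟩
  let F1 : ContinuousMap.Homotopy f1 f2 := ⟨⟨H1, c1⟩, a1, b1⟩
  let F2 : ContinuousMap.Homotopy f3 f2 := ⟨⟨H2, c2⟩, a2, b2⟩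
  refine ⟨fun p => (F1.trans F2.symm) p, (F1.trans F2.symm).continuous, fun x => ?_, fun x => ?_⟩
  · exact (F1.trans F2.symm).apply_zero x
  · exact ((F1.trans F2.symm).apply_one x).trans (ext_trans_po _ _ _).symm

/-! ### Auxiliary statements for `gen_succ` -/

/-- A compatible family of homomorphisms on the stages gives a homomorphism on the colimit. -/
theorem HLim.lift {R : Biv} {n : ℕ} (H : HLim R n) {K Z : LC} {A : Type} [AddCommGroup A]
    (φ : ∀ (S : Type) [Fintype S], R.Hom K ((LC.Pr S n).prod Z) → A)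
    (hadd : ∀ (S : Type) [Fintype S] (x y : R.Hom K ((LC.Pr S n).prod Z)),
      φ S (x + y) = φ S x + φ S y)
    (hext : ∀ (S T : Type) [Fintype S] [Fintype T] (j : S ↪ T)
      (x : R.Hom K ((LC.Pr S n).prod Z)),
      φ T (R.comp x (R.tens (R.J (Pr.extM j n)) Z)) = φ S x) :
    ∃ Φ : H.H K Z →+ A, ∀ {S : Type} [Fintype S] (x : R.Hom K ((LC.Pr S n).prod Z)),
      Φ (H.cls x) = φ S x := by
  have wd : ∀ (S T : Type) [Fintype S] [Fintype T] (x : R.Hom K ((LC.Pr S n).prod Z))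
      (y : R.Hom K ((LC.Pr T n).prod Z)), H.cls x = H.cls y → φ S x = φ T y := by
    intro S T _ _ x y hxy
    let x' := R.comp x (R.tens (R.J (Pr.extM (⟨Sum.inl, Sum.inl_injective⟩ : S ↪ S ⊕ T) n)) Z)
    let y' := R.comp y (R.tens (R.J (Pr.extM (⟨Sum.inr, Sum.inr_injective⟩ : T ↪ S ⊕ T) n)) Z)
    let clsH : R.Hom K ((LC.Pr (S ⊕ T) n).prod Z) →+ H.H K Z :=
      AddMonoidHom.mk' H.cls H.cls_add
    have h1 : H.cls (x' - y') = 0 := by
      change clsH (x' - y') = 0
      rw [map_sub]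
      change H.cls x' - H.cls y' = 0
      rw [H.cls_ext, H.cls_ext, hxy, sub_self]
    obtain ⟨m, hm⟩ := H.eq_zero _ h1
    rw [Helper9.Stab.sub_c, sub_eq_zero] at hm
    have h2 : φ (S ⊕ T) x' = φ (S ⊕ T) y' := by
      rw [← hext (S ⊕ T) ((S ⊕ T) ⊕ Fin m) ⟨Sum.inl, Sum.inl_injective⟩ x',
        ← hext (S ⊕ T) ((S ⊕ T) ⊕ Fin m) ⟨Sum.inl, Sum.inl_injective⟩ y', hm]
    have h3 : φ (S ⊕ T) x' = φ S x := hext S (S ⊕ T) _ x
    have h4 : φ (S ⊕ T) y' = φ T y := hext T (S ⊕ T) _ y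
    rw [← h3, ← h4, h2]
  choose M hM y hy using fun x : H.H K Z => H.surj x 0
  have key : ∀ {S : Type} [Fintype S] (x : R.Hom K ((LC.Pr S n).prod Z)),
      φ (Fin (M (H.cls x))) (y (H.cls x)) = φ S x := fun x => wd _ _ _ _ (hy (H.cls x)).symm
  refine ⟨AddMonoidHom.mk' (fun x => φ (Fin (M x)) (y x)) ?_, fun x => key x⟩
  intro a b
  let S := Fin (M a)
  let T := Fin (M b)
  have h1 : a + b = H.cls (R.comp (y a) (R.tens (R.J (Pr.extM
      (⟨Sum.inl, Sum.inl_injective⟩ : S ↪ S ⊕ T) n)) Z) + R.comp (y b) (R.tens (R.J (Pr.extM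
      (⟨Sum.inr, Sum.inr_injective⟩ : T ↪ S ⊕ T) n)) Z)) := by
    rw [H.cls_add, H.cls_ext, H.cls_ext, ← hy, ← hy]
  rw [h1, key, hadd, hext, hext]

/-- the map `H_n(K, Pr S 1 × Z) → H_(n+1)(K, Z)` given by the block sum -/
theorem exists_psi (R : Biv) (n : ℕ) (S : Type) [Fintype S] (K Z : LC) :
    ∃ Ψ : (hLim R n).H K ((LC.Pr S 1).prod Z) →+ (hLim R (n + 1)).H K Z,
      ∀ {T : Type} [Fintype T] (x : R.Hom K ((LC.Pr T n).prod ((LC.Pr S 1).prod Z))),
        Ψ ((hLim R n).cls x) = (hLim R (n + 1)).cls (R.comp (R.comp x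
          (Helper82.Stab.ai R (LC.Pr T n) (LC.Pr S 1) Z)) (R.tens (R.J (Pr.sumM T S n 1)) Z)) := by
  refine HLim.lift (hLim R n) (fun T _ x => (hLim R (n + 1)).cls (R.comp (R.comp x
    (Helper82.Stab.ai R (LC.Pr T n) (LC.Pr S 1) Z)) (R.tens (R.J (Pr.sumM T S n 1)) Z))) ?_ ?_
  · intro T _ x y
    rw [R.add_comp, R.add_comp, (hLim R (n + 1)).cls_add]
  · intro T T' _ _ j x
    have h := Helper82.Stab.J_sumM_ext_left R j S n 1
    change R.comp (R.tens (R.J (Pr.extM j n)) (LC.Pr S 1)) (R.J (Pr.sumM T' S n 1)) =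
      R.comp (R.J (Pr.sumM T S n 1))
        (R.J (Pr.extM (j.sumMap (Function.Embedding.refl S)) (n + 1))) at h
    rw [R.assoc x, Helper82.Stab.tens_ai, ← R.assoc x, R.assoc, ← R.tens_comp, h, R.tens_comp,
      ← R.assoc, (hLim R (n + 1)).cls_ext]

namespace Orient
variable {R : Biv} (o : Orient R)

/-- the contributions as homomorphisms -/
def eHH {n : ℕ} {K Z : LC} (L : List ℕ) (h : L.length = n) :
    R.Hom K ((Cn (deg L)).prod Z) →+ (hLim R n).H K Z :=
  AddMonoidHom.mk' (fun c => o.eH L h c) (o.eH_add L h)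

theorem eHH_apply {n : ℕ} {K Z : LC} (L : List ℕ) (h : L.length = n)
    (c : R.Hom K ((Cn (deg L)).prod Z)) : o.eHH L h c = o.eH L h c := rfl

/-- sums of contributions of sorted lists -/
def IsGen {n : ℕ} {K Z : LC} (x : (hLim R n).H K Z) : Prop :=
  ∃ (s : Finset (SL n)) (c : ∀ L : SL n, R.Hom K ((Cn (deg L.1)).prod Z)),
    x = ∑ L ∈ s, o.eH L.1 L.2.2 (c L)

theorem isGen_zero {n : ℕ} {K Z : LC} : o.IsGen (0 : (hLim R n).H K Z) :=
  ⟨∅, fun _ => 0, by rw [Finset.sum_empty]⟩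

open Classical in
theorem isGen_add {n : ℕ} {K Z : LC} {x y : (hLim R n).H K Z} (hx : o.IsGen x)
    (hy : o.IsGen y) : o.IsGen (x + y) := by
  obtain ⟨s, c, rfl⟩ := hx
  obtain ⟨s', c', rfl⟩ := hy
  refine ⟨s ∪ s', fun L => (if L ∈ s then c L else 0) + (if L ∈ s' then c' L else 0), ?_⟩
  have h0 : ∀ L : SL n, o.eH L.1 L.2.2 (0 : R.Hom K ((Cn (deg L.1)).prod Z)) = 0 :=
    fun L => map_zero (o.eHH L.1 L.2.2)
  have h1 : ∑ L ∈ s, o.eH L.1 L.2.2 (c L) =
      ∑ L ∈ s ∪ s', o.eH L.1 L.2.2 (if L ∈ s then c L else 0) := by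
    rw [← Finset.sum_subset Finset.subset_union_left]
    · refine Finset.sum_congr rfl fun L hL => ?_
      rw [if_pos hL]
    · intro L _ hL
      rw [if_neg hL, h0]
  have h2 : ∑ L ∈ s', o.eH L.1 L.2.2 (c' L) =
      ∑ L ∈ s ∪ s', o.eH L.1 L.2.2 (if L ∈ s' then c' L else 0) := by
    rw [← Finset.sum_subset Finset.subset_union_right]
    · refine Finset.sum_congr rfl fun L hL => ?_
      rw [if_pos hL]
    · intro L _ hL
      rw [if_neg hL, h0]
  rw [h1, h2, ← Finset.sum_add_distrib]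
  exact Finset.sum_congr rfl fun L _ => (o.eH_add L.1 L.2.2 _ _).symm

theorem isGen_sum {n : ℕ} {K Z : LC} {ι : Type} (s : Finset ι) (x : ι → (hLim R n).H K Z)
    (h : ∀ i ∈ s, o.IsGen (x i)) : o.IsGen (∑ i ∈ s, x i) :=
  Finset.sum_induction x o.IsGen (fun _ _ => o.isGen_add) o.isGen_zero h

open Classical in
theorem isGen_single {n : ℕ} {K Z : LC} (L : SL n) (c : R.Hom K ((Cn (deg L.1)).prod Z)) :
    o.IsGen (o.eH L.1 L.2.2 c) := by
  refine ⟨{L}, Function.update (fun _ => 0) L c, ?_⟩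
  rw [Finset.sum_singleton, Function.update_self]

theorem isGen_eH {n : ℕ} {K Z : LC} (L : List ℕ) (h : L.length = n)
    (c : R.Hom K ((Cn (deg L)).prod Z)) : o.IsGen (o.eH L h c) := by
  have hp : L.Perm (L.insertionSort (· ≤ ·)) := (List.perm_insertionSort (· ≤ ·) L).symm
  have h' : (L.insertionSort (· ≤ ·)).length = n := by rw [← hp.length_eq, h]
  rw [o.eH_perm hp h h']
  exact o.isGen_single ⟨L.insertionSort (· ≤ ·), List.pairwise_insertionSort (· ≤ ·) L, h'⟩ _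

/-- the contribution of a list in the sum with a line -/
theorem isGen_psi {n : ℕ} {K Z : LC} (S : Type) [Fintype S]
    (Ψ : (hLim R n).H K ((LC.Pr S 1).prod Z) →+ (hLim R (n + 1)).H K Z)
    (hΨ : ∀ {T : Type} [Fintype T] (x : R.Hom K ((LC.Pr T n).prod ((LC.Pr S 1).prod Z))),
        Ψ ((hLim R n).cls x) = (hLim R (n + 1)).cls (R.comp (R.comp x
          (Helper82.Stab.ai R (LC.Pr T n) (LC.Pr S 1) Z)) (R.tens (R.J (Pr.sumM T S n 1)) Z)))
    (L : List ℕ) (h : L.length = n) (c : R.Hom K ((Cn (deg L)).prod ((LC.Pr S 1).prod Z))) :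
    o.IsGen (Ψ (o.eH L h c)) := by
  subst h
  -- decomposition of `c`
  have hc : c = ∑ i ∈ Finset.range (Fintype.card S), R.comp (R.comp c
      (R.ltens (Cn (deg L)) (R.tens (o.upow S i) Z)))
      (R.ltens (Cn (deg L)) (R.tens (o.b S i) Z)) := by
    have h1 := (o.exists_dual S).choose_spec.2.2.2
    change ∑ i ∈ Finset.range (Fintype.card S), R.comp (o.upow S i) (o.b S i) =
      R.J (PMap.id _) at h1
    let f : R.Hom (LC.Pr S 1) (LC.Pr S 1) →+ R.Hom K ((Cn (deg L)).prod ((LC.Pr S 1).prod Z)) :=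
      AddMonoidHom.mk' (fun x => R.comp c (R.ltens (Cn (deg L)) (R.tens x Z))) (by
        intro x y
        rw [R.tens_add, Helper9.Stab.ltens_add, R.comp_add])
    have h2 := congrArg f h1
    rw [map_sum] at h2
    have h3 : f (R.J (PMap.id (LC.Pr S 1))) = c := by
      change R.comp c (R.ltens (Cn (deg L)) (R.tens (R.J (PMap.id (LC.Pr S 1))) Z)) = c
      rw [Helper39.Stab.tens_id, Helper9.Stab.ltens_id, R.comp_id]
    rw [h3] at h2
    refine h2.symm.trans (Finset.sum_congr rfl fun i _ => ?_)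
    change R.comp c (R.ltens (Cn (deg L)) (R.tens (R.comp (o.upow S i) (o.b S i)) Z)) = _
    rw [R.tens_comp, Helper9.Stab.ltens_comp, R.assoc]
  rw [hc, ← eHH_apply, map_sum, map_sum]
  refine o.isGen_sum _ _ fun i hi => ?_
  rw [eHH_apply]
  have hi' : i < Fintype.card S := Finset.mem_range.1 hi
  set ci := R.comp c (R.ltens (Cn (deg L)) (R.tens (o.upow S i) Z)) with hci
  -- the embedding
  obtain ⟨j⟩ : Nonempty (Fin (i + 1) ↪ S) :=
    Function.Embedding.nonempty_of_card_le (by rw [Fintype.card_fin]; omega)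
  have e1 : Ψ (o.eH L rfl (R.comp ci (R.ltens (Cn (deg L)) (R.tens (o.b S i) Z)))) =
      (hLim R (L.length + 1)).cls (R.comp (R.comp ci
        (Helper82.Stab.ai R (Cn (deg L)) (Cn i) Z)) (R.tens (R.comp (R.tens (o.eL L) (Cn i))
          (R.comp (R.ltens (LC.Pr (Idx L) L.length) (o.b S i))
            (R.J (Pr.sumM (Idx L) S L.length 1)))) Z)) := by
    rw [← Helper82.Stab.coh]
    exact hΨ _
  have e2 : R.comp (R.tens (o.eL L) (Cn i)) (R.comp (R.ltens (LC.Pr (Idx L) L.length) (o.b S i))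
      (R.J (Pr.sumM (Idx L) S L.length 1))) =
      R.comp (R.comp (R.J (PMap.ofHomeo (CnAdd (deg L) i))) (o.eL (i :: L)))
        (R.J (Pr.extM ((Function.Embedding.refl (Idx L)).sumMap j) (L.length + 1))) := by
    have h1 := Helper82.Stab.J_sumM_ext_right R j (Idx L) L.length 1
    change R.comp (R.ltens (LC.Pr (Idx L) L.length) (R.J (Pr.extM j 1)))
      (R.J (Pr.sumM (Idx L) S L.length 1)) =
      R.comp (R.J (Pr.sumM (Idx L) (Fin (i + 1)) L.length 1))
        (R.J (Pr.extM ((Function.Embedding.refl (Idx L)).sumMap j) (L.length + 1))) at h1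
    have h2 := o.b_ext j (i := i) (by rw [Fintype.card_fin]; omega)
    have h3 : R.comp (R.comp (R.J (PMap.ofHomeo (CnAdd (deg L) i))) (o.eL (i :: L)))
        (R.J (Pr.extM ((Function.Embedding.refl (Idx L)).sumMap j) (L.length + 1))) =
        R.comp (R.comp (R.tens (o.eL L) (Cn i))
          (R.comp (R.ltens (LC.Pr (Idx L) L.length) (o.b (Fin (i + 1)) i))
          (R.J (Pr.sumM (Idx L) (Fin (i + 1)) L.length 1))))
        (R.J (Pr.extM ((Function.Embedding.refl (Idx L)).sumMap j) (L.length + 1))) :=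
      Helper82.Stab.cancel R (CnAdd (deg L) i) _ _
    rw [h3, R.assoc, R.assoc, ← h1, ← h2, Helper9.Stab.ltens_comp, R.assoc]
  have e3 : Ψ (o.eH L rfl (R.comp ci (R.ltens (Cn (deg L)) (R.tens (o.b S i) Z)))) =
      o.eH (i :: L) rfl (R.comp (R.comp ci (Helper82.Stab.ai R (Cn (deg L)) (Cn i) Z))
        (R.tens (R.J (PMap.ofHomeo (CnAdd (deg L) i))) Z)) := by
    rw [e1, e2]
    refine Eq.trans (congrArg (hLim R (L.length + 1)).cls
      (Helper82.Stab.tens_split R _ (R.comp (R.J (PMap.ofHomeo (CnAdd (deg L) i)))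
        (o.eL (i :: L))) _)) ?_
    refine Eq.trans ((hLim R (L.length + 1)).cls_ext (S := Idx (i :: L))
      ((Function.Embedding.refl (Idx L)).sumMap j) _) ?_
    exact congrArg (hLim R (L.length + 1)).cls (Helper82.Stab.tens_split R _
      (R.J (PMap.ofHomeo (CnAdd (deg L) i))) (o.eL (i :: L)))
  rw [e3]
  exact o.isGen_eH (i :: L) rfl _

end Orient

instance instCompactPV (X : LC) [CompactSpace X] {S : Type} [Fintype S] {n : ℕ} (V : X → Pr S n)
    (hV : Continuous V) : CompactSpace (LC.PV V hV) := by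
  have h : IsClosed {x : X.prod (LC.Pr S 1) | (V x.1).1 * x.2.1 = x.2.1} := by
    refine isClosed_eq ?_ (continuous_subtype_val.comp continuous_snd)
    exact (continuous_subtype_val.comp (hV.comp continuous_fst)).mul
      (continuous_subtype_val.comp continuous_snd)
  exact isCompact_iff_compactSpace.1 h.isCompact

theorem gen_succ {R : Biv} (o : Orient R) (n : ℕ) (h : Gen o n) : Gen o (n + 1) := by
  intro K Z x
  obtain ⟨M, -, y, rfl⟩ := (hLim R (n + 1)).surj x 0
  let S := Fin M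
  let PV := LC.PV (X := LC.Pr S (n + 1)) (fun V => V) continuous_id
  let π : PMap PV (LC.Pr S (n + 1)).plus :=
    PVπ (X := LC.Pr S (n + 1)) (fun V => V) continuous_id
  have hsec : ∃ s : R.Hom (LC.Pr S (n + 1)) PV,
      R.comp s (R.J π) = R.J (PMap.id (LC.Pr S (n + 1))) :=
    o.pbt_section (X := LC.Pr S (n + 1)) (fun V => V) continuous_id (Nat.succ_pos n)
  obtain ⟨s, hs⟩ := hsec
  have hcomp : CompactSpace PV := instCompactPV _ _ _
  let κ : PMap PV ((LC.Pr S n).prod (LC.Pr S 1)).plus :=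
    PMap.ofCont (K := PV) (L := (LC.Pr S n).prod (LC.Pr S 1)) (kappa S n) (continuous_kappa S n)
  let j1 : (S ⊕ S) ↪ (S ⊕ S) ⊕ (S ⊕ S) := ⟨Sum.inl, Sum.inl_injective⟩
  let j4 : S ↪ (S ⊕ S) ⊕ (S ⊕ S) := (⟨Sum.inl, Sum.inl_injective⟩ : S ↪ S ⊕ S).trans j1
  obtain ⟨H, hH, hH0, hH1⟩ := sum_kappa S n
  have hom : ((Pr.extM j1 (n + 1)).comp ((Pr.sumM S S n 1).comp κ)).Homotopic
      ((Pr.extM j4 (n + 1)).comp π) := by
    refine ⟨PMap.ofCont (K := LC.I.prod PV) (L := LC.Pr ((S ⊕ S) ⊕ (S ⊕ S)) (n + 1)) H hH,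
      fun x => ?_, fun x => ?_⟩
    · exact congrArg (fun z : LC.Pr ((S ⊕ S) ⊕ (S ⊕ S)) (n + 1) =>
        (z : OnePoint (LC.Pr ((S ⊕ S) ⊕ (S ⊕ S)) (n + 1)))) (hH0 x)
    · exact congrArg (fun z : LC.Pr ((S ⊕ S) ⊕ (S ⊕ S)) (n + 1) =>
        (z : OnePoint (LC.Pr ((S ⊕ S) ⊕ (S ⊕ S)) (n + 1)))) (hH1 x)
  have hJ := R.J_homotopic hom
  rw [R.J_comp, R.J_comp, R.J_comp, R.assoc] at hJ
  obtain ⟨Ψ, hΨ⟩ := exists_psi R n S K Z
  -- `cls y` is the image of `y2`
  have e0 : (hLim R (n + 1)).cls y = Ψ ((hLim R n).cls (R.comp (R.comp y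
      (R.tens (R.comp s (R.J κ)) Z)) (R.J (PMap.ofHomeo
        (Helper39.Stab.asc (LC.Pr S n) (LC.Pr S 1) Z))))) := by
    rw [hΨ, R.assoc _ (R.J (PMap.ofHomeo (Helper39.Stab.asc (LC.Pr S n) (LC.Pr S 1) Z))),
      Helper82.Stab.asc_ai, R.comp_id, R.assoc y, ← R.tens_comp,
      ← (hLim R (n + 1)).cls_ext j1 (R.comp y _), R.assoc y, ← R.tens_comp, R.assoc s,
      R.assoc s, R.assoc (R.J κ), hJ, ← R.assoc s, hs, R.id_comp]
    exact ((hLim R (n + 1)).cls_ext j4 y).symm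
  rw [e0]
  obtain ⟨t, c, hc⟩ := h K ((LC.Pr S 1).prod Z) ((hLim R n).cls (R.comp (R.comp y
      (R.tens (R.comp s (R.J κ)) Z)) (R.J (PMap.ofHomeo
        (Helper39.Stab.asc (LC.Pr S n) (LC.Pr S 1) Z)))))
  rw [hc, map_sum]
  exact o.isGen_sum t _ fun L _ => o.isGen_psi S Ψ hΨ L.1 L.2.2 (c L)

/-! ### Auxiliary statements for `ind_succ` -/

/-- the map on the colimit given by a class on the second factor -/
theorem exists_hmap60 (R : Biv) (n : ℕ) (K : LC) {Z Z' : LC} (f : R.Hom Z Z') :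
    ∃ Φ : (hLim R n).H K Z →+ (hLim R n).H K Z', ∀ {S : Type} [Fintype S]
      (x : R.Hom K ((LC.Pr S n).prod Z)),
      Φ ((hLim R n).cls x) = (hLim R n).cls (R.comp x (R.ltens (LC.Pr S n) f)) := by
  refine HLim.lift (hLim R n)
    (fun S _ x => (hLim R n).cls (R.comp x (R.ltens (LC.Pr S n) f))) ?_ ?_
  · intro S _ x y
    rw [R.add_comp, (hLim R n).cls_add]
  · intro S T _ _ j x
    rw [R.assoc, R.exch, ← R.assoc, (hLim R n).cls_ext]

theorem exists_psiJ {R : Biv} (o : Orient R) (n : ℕ) (T : Type) [Fintype T] (K Z : LC) (j : ℕ) :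
    ∃ Ψ : (hLim R n).H K ((LC.Pr T 1).prod Z) →+ (hLim R (n + 1)).H K ((Cn j).prod Z),
      ∀ {S : Type} [Fintype S] (x : R.Hom K ((LC.Pr S n).prod ((LC.Pr T 1).prod Z))),
        Ψ ((hLim R n).cls x) = (hLim R (n + 1)).cls (R.comp x
          (Helper60.StabI.SC Z (Helper60.StabI.Ep o T j) (R.J (Pr.sumM S T n 1)))) := by
  refine HLim.lift (hLim R n) (fun S _ x => (hLim R (n + 1)).cls (R.comp x
    (Helper60.StabI.SC Z (Helper60.StabI.Ep o T j) (R.J (Pr.sumM S T n 1))))) ?_ ?_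
  · intro S _ x y
    rw [R.add_comp, (hLim R (n + 1)).cls_add]
  · intro S S' _ _ i x
    have h := Helper82.Stab.J_sumM_ext_left R i T n 1
    change R.comp (R.tens (R.J (Pr.extM i n)) (LC.Pr T 1)) (R.J (Pr.sumM S' T n 1)) =
      R.comp (R.J (Pr.sumM S T n 1))
        (R.J (Pr.extM (i.sumMap (Function.Embedding.refl T)) (n + 1))) at h
    rw [R.assoc, Helper60.StabI.SC_natP Z (Helper60.StabI.Ep o T j) _ _ h, ← R.assoc,
      (hLim R (n + 1)).cls_ext]

namespace Orient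
variable {R : Biv} (o : Orient R)

/-- the contribution of a multiset -/
def Gam (m : ℕ) {K Z : LC} (E : ℕ) (ν : Multiset ℕ) :
    R.Hom K ((Cn E).prod Z) →+ (hLim R m).H K Z :=
  if h : Multiset.card ν = m then
    (o.eHH (ν.sort (· ≤ ·)) (by rw [Multiset.length_sort, h])).comp
      (Helper60.StabI.castH E (deg (ν.sort (· ≤ ·))))
  else 0

theorem eH_castH {m : ℕ} {K Z : LC} (L : List ℕ) (h : L.length = m) (E : ℕ)
    (x : R.Hom K ((Cn E).prod Z)) :
    o.eH L h (Helper60.StabI.castH E (deg L) x) = o.Gam m E (L : Multiset ℕ) x := by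
  have hc : Multiset.card (L : Multiset ℕ) = m := by rw [Multiset.coe_card, h]
  have hp : L.Perm ((L : Multiset ℕ).sort (· ≤ ·)) :=
    Multiset.coe_eq_coe.1 (Multiset.sort_eq (L : Multiset ℕ) (· ≤ ·)).symm
  rw [Gam, dif_pos hc]
  rw [o.eH_perm hp h (by rw [Multiset.length_sort, hc])]
  refine congrArg (o.eH _ _) ?_
  have h1 : R.comp (Helper60.StabI.castH E (deg L) x)
      (R.tens (R.J (PMap.ofHomeo (CnCast (deg_perm hp)))) Z) =
      Helper60.StabI.castH (deg L) (deg ((L : Multiset ℕ).sort (· ≤ ·)))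
        (Helper60.StabI.castH E (deg L) x) :=
    (Helper60.StabI.castH_eq (deg_perm hp) _).symm
  rw [h1]
  by_cases hE : E = deg L
  · exact Helper60.StabI.castH_trans hE _ x
  · rw [Helper60.StabI.castH_ne hE, map_zero, Helper60.StabI.castH_ne]
    rw [← deg_perm hp]
    exact hE

/-- the value of the operators on monomials -/
theorem psiJ_eH (M : List ℕ) {n : ℕ} (hM : M.length = n) (T : Type) [Fintype T] (i j : ℕ)
    (hi : i < Fintype.card T) {K Z : LC}
    (Ψ : (hLim R n).H K ((LC.Pr T 1).prod Z) →+ (hLim R (n + 1)).H K ((Cn j).prod Z))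
    (hΨ : ∀ {S : Type} [Fintype S] (x : R.Hom K ((LC.Pr S n).prod ((LC.Pr T 1).prod Z))),
        Ψ ((hLim R n).cls x) = (hLim R (n + 1)).cls (R.comp x
          (Helper60.StabI.SC Z (Helper60.StabI.Ep o T j) (R.J (Pr.sumM S T n 1)))))
    (D : ℕ) (x : R.Hom K ((Cn D).prod Z)) :
    Ψ (o.eH M hM (Helper60.StabI.bt o T (deg M) i (Helper60.StabI.castH D (deg M + i) x))) =
      if j ≤ i then o.Gam (n + 1) (D - j) ((i - j) ::ₘ (M : Multiset ℕ))
        (Helper60.StabI.lo j (D - j) x) else 0 := by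
  subst hM
  have h1 : Ψ (o.eH M rfl (Helper60.StabI.bt o T (deg M) i
      (Helper60.StabI.castH D (deg M + i) x))) =
      (hLim R (M.length + 1)).cls (R.comp (R.comp (Helper60.StabI.bt o T (deg M) i
        (Helper60.StabI.castH D (deg M + i) x)) (R.tens (o.eL M) ((LC.Pr T 1).prod Z)))
        (Helper60.StabI.SC Z (Helper60.StabI.Ep o T j) (R.J (Pr.sumM (Idx M) T M.length 1)))) :=
    hΨ _
  rw [h1, R.assoc]
  by_cases hj : j ≤ i
  · obtain ⟨i', rfl⟩ : ∃ i', i = i' + j := ⟨i - j, by omega⟩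
    rw [if_pos hj, Nat.add_sub_cancel, Helper60.StabI.bt_SC o T (o.eL M)
      (R.J (Pr.sumM (Idx M) T M.length 1)) i' j hi D x]
    obtain ⟨e⟩ : Nonempty (Fin (i' + 1) ↪ T) :=
      Function.Embedding.nonempty_of_card_le (by rw [Fintype.card_fin]; omega)
    have h2 := Helper82.Stab.J_sumM_ext_right R e (Idx M) M.length 1
    change R.comp (R.ltens (LC.Pr (Idx M) M.length) (R.J (Pr.extM e 1)))
      (R.J (Pr.sumM (Idx M) T M.length 1)) =
      R.comp (R.J (Pr.sumM (Idx M) (Fin (i' + 1)) M.length 1))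
        (R.J (Pr.extM ((Function.Embedding.refl (Idx M)).sumMap e) (M.length + 1))) at h2
    have h3 := o.b_ext e (i := i') (by rw [Fintype.card_fin]; omega)
    have h4 : R.comp (Helper63.Stab.jh R (CnAdd (deg M) i').symm) (R.comp (R.tens (o.eL M) (Cn i'))
        (R.comp (R.ltens (LC.Pr (Idx M) M.length) (o.b T i'))
          (R.J (Pr.sumM (Idx M) T M.length 1)))) =
        R.comp (o.eL (i' :: M))
          (R.J (Pr.extM ((Function.Embedding.refl (Idx M)).sumMap e) (M.length + 1))) := by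
      rw [← h3, Helper9.Stab.ltens_comp, R.assoc, h2]
      have h5 : o.eL (i' :: M) = R.comp (R.J (PMap.ofHomeo (CnAdd (deg M) i').symm))
        (R.comp (R.tens (o.eL M) (Cn i'))
        (R.comp (R.ltens (LC.Pr (Idx M) M.length) (o.b (Fin (i' + 1)) i'))
          (R.J (Pr.sumM (Idx M) (Fin (i' + 1)) M.length 1)))) := rfl
      rw [h5]
      exact Helper60.StabI.assoc5 _ _ _ _ _
    rw [h4]
    refine Eq.trans (congrArg (hLim R (M.length + 1)).cls
      (Helper82.Stab.tens_split R _ (o.eL (i' :: M)) _)) ?_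
    refine Eq.trans ((hLim R (M.length + 1)).cls_ext (S := Idx (i' :: M))
      ((Function.Embedding.refl (Idx M)).sumMap e) _) ?_
    have h6 : (hLim R (M.length + 1)).cls (R.comp (Helper60.StabI.lo j (deg M + i') x)
        (R.tens (o.eL (i' :: M)) ((Cn j).prod Z))) =
        o.eH (i' :: M) rfl (Helper60.StabI.lo j (deg M + i') x) := rfl
    rw [← Helper60.StabI.lo_cast] at h6
    refine Eq.trans ?_ (h6.trans (o.eH_castH (i' :: M) rfl (D - j) _))
    rw [Helper60.StabI.lo_cast]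
    rfl
  · rw [if_neg hj, Helper60.StabI.bt_SC_zero o T (o.eL M) (R.J (Pr.sumM (Idx M) T M.length 1)) i j
      hi (by omega)]
    exact map_zero (AddMonoidHom.mk' (hLim R (M.length + 1)).cls
      (hLim R (M.length + 1)).cls_add)

/-- linear extension of a sum over pairs -/
theorem sum_pairs {A : Type} [AddCommGroup A] (f : Multiset ℕ → A) (j : ℕ)
    (w : (ℕ × Multiset ℕ) →₀ ℤ) (W : Finset (ℕ × Multiset ℕ)) (hW : w.support ⊆ W) :
    ∑ p ∈ W, w p • (if j ≤ p.1 then f ((p.1 - j) ::ₘ p.2) else 0) =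
      Finsupp.linearCombination ℤ f
        (w.sum fun p c => if j ≤ p.1 then Finsupp.single ((p.1 - j) ::ₘ p.2) c else 0) := by
  rw [map_finsuppSum, Finsupp.sum_of_support_subset w hW]
  · refine Finset.sum_congr rfl fun p _ => ?_
    split_ifs
    · rw [Finsupp.linearCombination_single]
    · rw [map_zero, smul_zero]
  · intro p _
    split_ifs
    · rw [Finsupp.single_zero, map_zero]
    · rw [map_zero]

end Orient

/-- the map `etaP` as a pointed map -/
def etaM (S T : Type) [Fintype S] [Fintype T] (n : ℕ) :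
    PMap ((LC.Pr S n).prod (LC.Pr T 1))
      (LC.PV (X := LC.Pr (S ⊕ T) (n + 1)) (fun V => V) continuous_id).plus :=
  PMap.ofCont (K := (LC.Pr S n).prod (LC.Pr T 1))
    (L := LC.PV (X := LC.Pr (S ⊕ T) (n + 1)) (fun V => V) continuous_id) (etaP S T n)
    (continuous_eta S T n)

theorem etaM_Phi {R : Biv} (o : Orient R) (S T : Type) [Fintype S] [Fintype T] (n j : ℕ) :
    R.comp (R.J (etaM S T n)) (o.Phi (X := LC.Pr (S ⊕ T) (n + 1)) (fun V => V) continuous_id j) =
      R.comp (R.ltens (LC.Pr S n) (Helper60.StabI.Ep o T j))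
        (R.comp (Helper63.Stab.jh R (Helper60.StabI.as (LC.Pr S n) (LC.Pr T 1) (Cn j)).symm)
          (R.tens (R.J (Pr.sumM S T n 1)) (Cn j))) := by
  let er : T ↪ S ⊕ T := ⟨Sum.inr, Sum.inr_injective⟩
  let A : LC := LC.Pr S n
  let B : LC := LC.Pr T 1
  have hl : Continuous (fun x : A.prod B => (x.2 : Pr T 1)) := continuous_snd
  have hl' : Continuous (fun x : A.prod B => Pr.ext er (x.2 : Pr T 1)) :=
    (Pr.continuous_ext er).comp hl
  have h0 : R.comp (R.J (etaM S T n)) (o.E (PVl (X := LC.Pr (S ⊕ T) (n + 1)) (fun V => V)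
      continuous_id) (continuous_PVl _ _)) =
      R.comp (o.E (X := A.prod B) (fun x => Pr.ext er (x.2 : Pr T 1)) hl')
        (R.tens (R.J (etaM S T n)) LC.C) := by
    refine o.E_natural (etaM S T n) _ hl' ?_
    intro y x hy
    have hy' : etaP S T n y = x := OnePoint.coe_injective hy
    rw [← hy']
    rfl
  have h1 := Helper60.StabI.Epow_nat o (R.J (etaM S T n)) _ hl' h0 j
  have h2 := Helper60.StabI.Epow_ext o (X := A.prod B) er (fun x => (x.2 : Pr T 1)) hl hl' j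
  have h3 := Helper60.StabI.Epow_snd o (A := A) (B := B) (fun x => (x : Pr T 1)) continuous_id hl j
  rw [h2, h3] at h1
  have h4 : R.comp (R.J (etaM S T n)) (R.J (PVπ (X := LC.Pr (S ⊕ T) (n + 1)) (fun V => V)
      continuous_id)) = R.J (Pr.sumM S T n 1) := by
    rw [← R.J_comp]
    congr 1
  rw [Orient.Phi, ← R.assoc, h1, R.assoc, ← R.tens_comp, h4, R.assoc]

/-- the operators are the components of the projective bundle theorem after `etaP` -/
theorem SC_eq_eta {R : Biv} (o : Orient R) (S T : Type) [Fintype S] [Fintype T] (n j : ℕ)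
    (Z : LC) : Helper60.StabI.SC Z (Helper60.StabI.Ep o T j) (R.J (Pr.sumM S T n 1)) =
      R.comp (Helper63.Stab.jh R (Helper60.StabI.as (LC.Pr S n) (LC.Pr T 1) Z).symm)
        (R.comp (R.tens (R.comp (R.J (etaM S T n))
          (o.Phi (X := LC.Pr (S ⊕ T) (n + 1)) (fun V => V) continuous_id j)) Z)
          (Helper63.Stab.jh R (Helper60.StabI.as (LC.Pr (S ⊕ T) (n + 1)) (Cn j) Z))) := by
  rw [etaM_Phi]
  rfl

/-- an element on which all the operators vanish is zero after an extension -/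
theorem kill_stage {R : Biv} (o : Orient R) (S T : Type) [Fintype S] [Fintype T] (n : ℕ)
    {K Z : LC} (y : R.Hom K ((LC.Pr S n).prod ((LC.Pr T 1).prod Z)))
    (hy : ∀ j ≤ n, R.comp y (Helper60.StabI.SC Z (Helper60.StabI.Ep o T j)
      (R.J (Pr.sumM S T n 1))) = 0) :
    R.comp (R.comp y (R.tens (R.J (Pr.extM (⟨Sum.inl, Sum.inl_injective⟩ : S ↪ S ⊕ T) n))
      ((LC.Pr T 1).prod Z))) (R.ltens (LC.Pr (S ⊕ T) n)
        (R.tens (R.J (Pr.extM (⟨Sum.inr, Sum.inr_injective⟩ : T ↪ S ⊕ T) 1)) Z)) = 0 := by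
  let PV := LC.PV (X := LC.Pr (S ⊕ T) (n + 1)) (fun V => V) continuous_id
  let y' : R.Hom K (PV.prod Z) := R.comp y (R.comp (Helper63.Stab.jh R
    (Helper60.StabI.as (LC.Pr S n) (LC.Pr T 1) Z).symm) (R.tens (R.J (etaM S T n)) Z))
  have h1 : y' = 0 := by
    refine o.pbt_injective (X := LC.Pr (S ⊕ T) (n + 1)) (fun V => V) continuous_id y' ?_
    intro j hj
    have h2 := hy j (by omega)
    rw [SC_eq_eta, R.tens_comp] at h2
    have h3 : R.comp (R.comp y' (R.tens (o.Phi (X := LC.Pr (S ⊕ T) (n + 1)) (fun V => V)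
        continuous_id j) Z)) (Helper63.Stab.jh R
          (Helper60.StabI.as (LC.Pr (S ⊕ T) (n + 1)) (Cn j) Z)) = 0 := by
      rw [← h2]
      simp only [y', R.assoc]
    have h4 := congrArg (fun t => R.comp t (Helper63.Stab.jh R
      (Helper60.StabI.as (LC.Pr (S ⊕ T) (n + 1)) (Cn j) Z).symm)) h3
    simp only [R.zero_comp] at h4
    rw [R.assoc, Helper63.Stab.jh_comp_symm', R.comp_id] at h4
    exact h4
  have hcomp : CompactSpace PV := instCompactPV _ _ _
  let κ : PMap PV ((LC.Pr (S ⊕ T) n).prod (LC.Pr (S ⊕ T) 1)).plus :=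
    PMap.ofCont (K := PV) (L := (LC.Pr (S ⊕ T) n).prod (LC.Pr (S ⊕ T) 1)) (kappa (S ⊕ T) n)
      (continuous_kappa (S ⊕ T) n)
  have h5 : R.comp (R.J (etaM S T n)) (R.J κ) = R.comp (R.tens (R.J (Pr.extM
      (⟨Sum.inl, Sum.inl_injective⟩ : S ↪ S ⊕ T) n)) (LC.Pr T 1)) (R.ltens (LC.Pr (S ⊕ T) n)
        (R.J (Pr.extM (⟨Sum.inr, Sum.inr_injective⟩ : T ↪ S ⊕ T) 1))) := by
    rw [R.tens_J, Helper9.Stab.ltens_J, ← R.J_comp, ← R.J_comp]
    congr 1
    refine PMap.ext ?_
    rintro x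
    exact congrArg (fun z : (LC.Pr (S ⊕ T) n).prod (LC.Pr (S ⊕ T) 1) =>
      (z : OnePoint ((LC.Pr (S ⊕ T) n).prod (LC.Pr (S ⊕ T) 1)))) (kappa_eta S T n x)
  have h6 : R.comp (R.comp y' (R.tens (R.J κ) Z)) (Helper63.Stab.jh R
      (Helper60.StabI.as (LC.Pr (S ⊕ T) n) (LC.Pr (S ⊕ T) 1) Z)) = 0 := by
    rw [h1, R.zero_comp, R.zero_comp]
  rw [← h6]
  simp only [y', R.assoc]
  congr 1
  rw [← R.assoc (R.tens (R.J (etaM S T n)) Z), ← R.tens_comp, h5, R.tens_comp]
  have h7 := Helper82.Stab.ltens_ai R (LC.Pr (S ⊕ T) n) (R.J (Pr.extM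
    (⟨Sum.inr, Sum.inr_injective⟩ : T ↪ S ⊕ T) 1)) Z
  have h8 := Helper82.Stab.tens_ai R (R.J (Pr.extM
      (⟨Sum.inl, Sum.inl_injective⟩ : S ↪ S ⊕ T) n)) (LC.Pr T 1) Z
  have h9 : R.comp (Helper82.Stab.ai R (LC.Pr (S ⊕ T) n) (LC.Pr (S ⊕ T) 1) Z)
      (Helper63.Stab.jh R (Helper60.StabI.as (LC.Pr (S ⊕ T) n) (LC.Pr (S ⊕ T) 1) Z)) =
      R.J (PMap.id _) := Helper82.Stab.ai_asc R _ _ _
  change _ = R.comp (Helper82.Stab.ai R (LC.Pr S n) (LC.Pr T 1) Z) _
  rw [R.assoc (R.tens (R.tens _ (LC.Pr T 1)) Z), ← R.assoc (Helper82.Stab.ai R _ _ Z), ← h8,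
    R.assoc, ← R.assoc (Helper82.Stab.ai R _ _ Z), ← h7, R.assoc, h9, R.comp_id]

theorem HLim.cls_zero' {R : Biv} {n : ℕ} (H : HLim R n) {K Z : LC} {S : Type} [Fintype S] :
    H.cls (0 : R.Hom K ((LC.Pr S n).prod Z)) = 0 := map_zero (AddMonoidHom.mk' H.cls H.cls_add)

/-- a class on which all the operators vanish is zero after an extension -/
theorem kill_class {R : Biv} (o : Orient R) (T : Type) [Fintype T] (n : ℕ) {K Z : LC}
    (Y : (hLim R n).H K ((LC.Pr T 1).prod Z))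
    (Ψ : ∀ j : ℕ, (hLim R n).H K ((LC.Pr T 1).prod Z) →+
      (hLim R (n + 1)).H K ((Cn j).prod Z))
    (hΨ : ∀ (j : ℕ) (S : Type) [Fintype S]
      (x : R.Hom K ((LC.Pr S n).prod ((LC.Pr T 1).prod Z))),
        Ψ j ((hLim R n).cls x) = (hLim R (n + 1)).cls (R.comp x
          (Helper60.StabI.SC Z (Helper60.StabI.Ep o T j) (R.J (Pr.sumM S T n 1)))))
    (hY : ∀ j ≤ n, Ψ j Y = 0) :
    ∃ (T₂ : Type) (_ : Fintype T₂) (e : T ↪ T₂),
      ∀ Φ : (hLim R n).H K ((LC.Pr T 1).prod Z) →+ (hLim R n).H K ((LC.Pr T₂ 1).prod Z),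
      (∀ (S : Type) [Fintype S] (x : R.Hom K ((LC.Pr S n).prod ((LC.Pr T 1).prod Z))),
        Φ ((hLim R n).cls x) = (hLim R n).cls (R.comp x (R.ltens (LC.Pr S n)
          (R.tens (R.J (Pr.extM e 1)) Z)))) → Φ Y = 0 := by
  obtain ⟨M, -, y, rfl⟩ := (hLim R n).surj Y 0
  let S := Fin M
  have h1 : ∀ j ≤ n, ∃ m : ℕ, R.comp (R.comp y (Helper60.StabI.SC Z (Helper60.StabI.Ep o T j)
      (R.J (Pr.sumM S T n 1)))) (R.tens (R.J (Pr.extM (⟨Sum.inl, Sum.inl_injective⟩ :
        S ⊕ T ↪ (S ⊕ T) ⊕ Fin m) (n + 1))) ((Cn j).prod Z)) = 0 := by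
    intro j hj
    refine (hLim R (n + 1)).eq_zero _ ?_
    rw [← hΨ j S y]
    exact hY j hj
  choose! m hm using h1
  let N := ∑ j ∈ Finset.range (n + 1), m j
  have hN : ∀ j ≤ n, m j ≤ N := fun j hj =>
    Finset.single_le_sum (f := m) (fun _ _ => Nat.zero_le _) (Finset.mem_range.2 (by omega))
  let T₀ := T ⊕ Fin N
  let il : T ↪ T₀ := ⟨Sum.inl, Sum.inl_injective⟩
  let ir : T₀ ↪ S ⊕ T₀ := ⟨Sum.inr, Sum.inr_injective⟩
  let y₂ := R.comp y (R.ltens (LC.Pr S n) (R.tens (R.J (Pr.extM il 1)) Z))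
  have h2 : ∀ j ≤ n, R.comp y₂ (Helper60.StabI.SC Z (Helper60.StabI.Ep o T₀ j)
      (R.J (Pr.sumM S T₀ n 1))) = 0 := by
    intro j hj
    have hs : R.comp (R.ltens (LC.Pr S n) (R.J (Pr.extM il 1))) (R.J (Pr.sumM S T₀ n 1)) =
        R.comp (R.J (Pr.sumM S T n 1))
          (R.J (Pr.extM ((Function.Embedding.refl S).sumMap il) (n + 1))) :=
      Helper82.Stab.J_sumM_ext_right R il S n 1
    have hsc := Helper60.StabI.SC_nat Z (R.J (Pr.extM il 1))
      (R.J (Pr.extM ((Function.Embedding.refl S).sumMap il) (n + 1)))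
      (Helper60.StabI.Epow_extM o il j) hs
    rw [R.assoc, hsc, ← R.assoc]
    have hle : m j ≤ N := hN j hj
    let g : (S ⊕ T) ⊕ Fin (m j) ↪ S ⊕ T₀ :=
      ⟨Sum.elim (Sum.elim Sum.inl (fun t => Sum.inr (Sum.inl t)))
        (fun k => Sum.inr (Sum.inr (Fin.castLE hle k))), by
        rintro ((a | a) | a) ((b | b) | b) h
        · exact congrArg (fun z => Sum.inl (Sum.inl z)) (Sum.inl.inj h)
        · exact absurd h Sum.inl_ne_inr
        · exact absurd h Sum.inl_ne_inr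
        · exact absurd h Sum.inr_ne_inl
        · exact congrArg (fun z => Sum.inl (Sum.inr z)) (Sum.inl.inj (Sum.inr.inj h))
        · exact absurd (Sum.inr.inj h) Sum.inl_ne_inr
        · exact absurd h Sum.inr_ne_inl
        · exact absurd (Sum.inr.inj h) Sum.inr_ne_inl
        · exact congrArg Sum.inr (Fin.castLE_injective hle (Sum.inr.inj (Sum.inr.inj h)))⟩
    have hg : (Function.Embedding.refl S).sumMap il =
        (⟨Sum.inl, Sum.inl_injective⟩ : S ⊕ T ↪ (S ⊕ T) ⊕ Fin (m j)).trans g := by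
      ext x
      rcases x with x | x <;> rfl
    rw [hg, Helper60.StabI.J_ext_trans, R.tens_comp, ← R.assoc, hm j hj, R.zero_comp]
  have h3 := kill_stage o S T₀ n y₂ h2
  refine ⟨S ⊕ T₀, inferInstance, il.trans ir, fun Φ hΦ => ?_⟩
  rw [hΦ S y, Helper60.StabI.J_ext_trans, R.tens_comp, Helper9.Stab.ltens_comp, ← R.assoc,
    ← (hLim R n).cls_ext (⟨Sum.inl, Sum.inl_injective⟩ : S ↪ S ⊕ T₀), R.assoc, ← R.exch,
    ← R.assoc]
  rw [show R.comp (R.comp (R.comp y (R.ltens (LC.Pr S n) (R.tens (R.J (Pr.extM il 1)) Z)))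
    (R.tens (R.J (Pr.extM (⟨Sum.inl, Sum.inl_injective⟩ : S ↪ S ⊕ T₀) n))
      ((LC.Pr T₀ 1).prod Z))) (R.ltens (LC.Pr (S ⊕ T₀) n) (R.tens (R.J (Pr.extM ir 1)) Z)) = 0
      from h3]
  exact (hLim R n).cls_zero'

/-- the sorted list of a multiset of `n` numbers -/
def soSL (n : ℕ) (μ : Multiset ℕ) : SL n :=
  if h : Multiset.card μ = n then
    ⟨μ.sort (· ≤ ·), Multiset.pairwise_sort μ (· ≤ ·), by rw [Multiset.length_sort, h]⟩
  else ⟨List.replicate n 0, List.pairwise_replicate.2 (Or.inr le_rfl), List.length_replicate⟩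

theorem soSL_coe {n : ℕ} {μ : Multiset ℕ} (h : Multiset.card μ = n) :
    (((soSL n μ).1 : List ℕ) : Multiset ℕ) = μ := by
  rw [soSL, dif_pos h]
  exact Multiset.sort_eq μ (· ≤ ·)

theorem SL_coe_injective {n : ℕ} {L L' : SL n} (h : (L.1 : Multiset ℕ) = (L'.1 : Multiset ℕ)) :
    L = L' := by
  refine Subtype.ext ?_
  exact (Multiset.coe_eq_coe.1 h).eq_of_pairwise (fun a b _ _ h1 h2 => le_antisymm h1 h2)
    L.2.1 L'.2.1

theorem deg_coe {L L' : List ℕ} {i : ℕ} (h : i ::ₘ (L : Multiset ℕ) = (L' : Multiset ℕ)) :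
    deg L + i = deg L' := by
  have h1 := congrArg Multiset.sum h
  rw [Multiset.sum_cons, Multiset.sum_coe, Multiset.sum_coe] at h1
  rw [deg_eq_sum, deg_eq_sum, ← h1, Nat.add_comm]

/-- the maps on the colimit and the contributions -/
theorem hmap_eH {R : Biv} (o : Orient R) {n : ℕ} {K Z Z' : LC} (f : R.Hom Z Z')
    (Φ : (hLim R n).H K Z →+ (hLim R n).H K Z')
    (hΦ : ∀ (S : Type) [Fintype S] (x : R.Hom K ((LC.Pr S n).prod Z)),
      Φ ((hLim R n).cls x) = (hLim R n).cls (R.comp x (R.ltens (LC.Pr S n) f)))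
    (L : List ℕ) (h : L.length = n) (x : R.Hom K ((Cn (deg L)).prod Z)) :
    Φ (o.eH L h x) = o.eH L h (R.comp x (R.ltens (Cn (deg L)) f)) := by
  rw [Orient.eH, hΦ, R.assoc, R.exch, ← R.assoc]
  rfl

theorem lo_zero {R : Biv} {K Z : LC} (D : ℕ) (x : R.Hom K ((Cn D).prod Z)) :
    Helper60.StabI.lo 0 D x = R.comp x (R.ltens (Cn D)
      (Helper63.Stab.jh R (K := Z) (L := LC.point.prod Z) (LC.lunit Z).symm)) := by
  rw [Helper60.StabI.lo_apply]
  have h1 : Helper60.StabI.castH D (D + 0) x = x := Helper60.StabI.castH_self D x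
  rw [h1, Helper63.Stab.ltens_jh]
  refine congrArg (R.comp x) ?_
  exact Helper63.Stab.jh_congr R fun _ => rfl

/-- the dual classes recover the coefficient -/
theorem bt_dual {R : Biv} (o : Orient R) {T T₂ : Type} [Fintype T] [Fintype T₂] (e : T ↪ T₂)
    {K Z : LC} (m i k : ℕ) (hi : i < Fintype.card T) (x : R.Hom K ((Cn (m + i)).prod Z)) :
    (i ≠ k → R.comp (Helper60.StabI.bt o T m i x) (R.comp (R.ltens (Cn m)
      (R.tens (R.J (Pr.extM e 1)) Z)) (R.ltens (Cn m) (R.tens (o.upow T₂ k) Z))) = 0) ∧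
    R.comp (Helper60.StabI.bt o T m i x) (R.comp (R.ltens (Cn m)
      (R.tens (R.J (Pr.extM e 1)) Z)) (R.ltens (Cn m) (R.tens (o.upow T₂ i) Z))) =
      R.comp x (Helper63.Stab.jh R (Helper60.StabI.btm Z m i)) := by
  have hi2 : i < Fintype.card T₂ := hi.trans_le (Fintype.card_le_of_embedding e)
  have h0 : ∀ k, R.comp (Helper60.StabI.bt o T m i x) (R.comp (R.ltens (Cn m)
      (R.tens (R.J (Pr.extM e 1)) Z)) (R.ltens (Cn m) (R.tens (o.upow T₂ k) Z))) =
      R.comp (R.comp x (Helper63.Stab.jh R (Helper60.StabI.btm Z m i)))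
        (R.ltens (Cn m) (R.tens (R.comp (o.b T₂ i) (o.upow T₂ k)) Z)) := by
    intro k
    rw [Helper60.StabI.bt_apply, ← Helper9.Stab.ltens_comp, ← R.tens_comp]
    simp only [R.assoc]
    rw [← Helper9.Stab.ltens_comp, ← R.tens_comp, ← R.assoc (o.b T i), o.b_ext e hi]
  refine ⟨fun hk => ?_, ?_⟩
  · have h1 : R.comp (o.b T₂ i) (o.upow T₂ k) = 0 :=
      (o.exists_dual T₂).choose_spec.2.1 i k hi2 hk
    have h4 : R.ltens (Cn m) (0 : R.Hom ((Cn i).prod Z) ((Cn k).prod Z)) = 0 := by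
      have h5 := Helper9.Stab.ltens_add R (Cn m) (0 : R.Hom ((Cn i).prod Z) ((Cn k).prod Z)) 0
      rw [add_zero] at h5
      exact left_eq_add.1 h5
    rw [h0, h1, R.tens_zero, h4, R.comp_zero]
  · have h1 : R.comp (o.b T₂ i) (o.upow T₂ i) = R.J (PMap.id _) :=
      (o.exists_dual T₂).choose_spec.2.2.1 i hi2
    rw [h0, h1, Helper39.Stab.tens_id, Helper9.Stab.ltens_id, R.comp_id]

theorem ind_succ {R : Biv} (o : Orient R) (n : ℕ) (h : Ind o n) : Ind o (n + 1) := by
  classical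
  intro K Z s c hc
  -- the combinations
  have halg : ∀ L : SL (n + 1), ∃ w : (ℕ × Multiset ℕ) →₀ ℤ,
      (∀ p ∈ w.support, Multiset.card p.2 = n ∧ p.1 + p.2.sum = (L.1 : Multiset ℕ).sum) ∧
      ∀ j ≤ n, (w.sum fun p c => if j ≤ p.1 then Finsupp.single ((p.1 - j) ::ₘ p.2) c else 0) =
        if j = 0 then Finsupp.single (L.1 : Multiset ℕ) 1 else 0 := fun L => by
    have h1 := alg n (L.1 : Multiset ℕ) (by rw [Multiset.coe_card, L.2.2])
    convert h1
  choose w hw1 hw2 using halg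
  let W := s.biUnion fun L => (w L).support
  have hWs : ∀ L ∈ s, (w L).support ⊆ W := fun L hL =>
    Finset.subset_biUnion_of_mem (fun L => (w L).support) hL
  have hWc : ∀ p ∈ W, Multiset.card p.2 = n := by
    intro p hp
    obtain ⟨L, hL, hp⟩ := Finset.mem_biUnion.1 hp
    exact (hw1 L p hp).1
  let N := W.sup (fun p => p.1) + 1
  have hN : ∀ p ∈ W, p.1 < Fintype.card (Fin N) := by
    intro p hp
    rw [Fintype.card_fin]
    exact Nat.lt_succ_of_le (Finset.le_sup (f := fun p : ℕ × Multiset ℕ => p.1) hp)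
  let S' := W.image fun p => soSL n p.2
  let c' : ∀ M : SL n, R.Hom K ((Cn (deg M.1)).prod ((LC.Pr (Fin N) 1).prod Z)) := fun M =>
    ∑ p ∈ W.filter (fun p => soSL n p.2 = M), ∑ L ∈ s, w L p •
      Helper60.StabI.bt o (Fin N) (deg M.1) p.1
        (Helper60.StabI.castH (deg L.1) (deg M.1 + p.1) (c L))
  let Y := ∑ M ∈ S', o.eH M.1 M.2.2 (c' M)
  choose Ψ hΨ using fun j => exists_psiJ o n (Fin N) K Z j
  have hΨY : ∀ j, Ψ j Y = ∑ L ∈ s, ∑ p ∈ W, w L p • (if j ≤ p.1 then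
      o.Gam (n + 1) (deg L.1 - j) ((p.1 - j) ::ₘ p.2)
        (Helper60.StabI.lo j (deg L.1 - j) (c L)) else 0) := by
    intro j
    have h1 : ∀ M ∈ S', Ψ j (o.eH M.1 M.2.2 (c' M)) =
        ∑ p ∈ W.filter (fun p => soSL n p.2 = M), ∑ L ∈ s, w L p • (if j ≤ p.1 then
          o.Gam (n + 1) (deg L.1 - j) ((p.1 - j) ::ₘ p.2)
            (Helper60.StabI.lo j (deg L.1 - j) (c L)) else 0) := by
      intro M _
      rw [← o.eHH_apply, map_sum, map_sum]
      refine Finset.sum_congr rfl fun p hp => ?_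
      obtain ⟨hpW, hpM⟩ := Finset.mem_filter.1 hp
      rw [map_sum, map_sum]
      refine Finset.sum_congr rfl fun L _ => ?_
      rw [map_zsmul, map_zsmul, o.eHH_apply,
        o.psiJ_eH M.1 M.2.2 (Fin N) p.1 j (hN p hpW) (Ψ j) (hΨ j)]
      have h2 : (M.1 : Multiset ℕ) = p.2 := by
        rw [← hpM]
        exact soSL_coe (hWc p hpW)
      rw [h2]
    change Ψ j (∑ M ∈ S', o.eH M.1 M.2.2 (c' M)) = _
    rw [map_sum, Finset.sum_congr rfl h1, Finset.sum_fiberwise_of_maps_to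
      (fun p hp => Finset.mem_image_of_mem (fun p : ℕ × Multiset ℕ => soSL n p.2) hp),
      Finset.sum_comm]
  have hY : ∀ j ≤ n, Ψ j Y = 0 := by
    intro j hj
    rw [hΨY]
    have h1 : ∀ L ∈ s, ∑ p ∈ W, w L p • (if j ≤ p.1 then
        o.Gam (n + 1) (deg L.1 - j) ((p.1 - j) ::ₘ p.2)
          (Helper60.StabI.lo j (deg L.1 - j) (c L)) else 0) =
        if j = 0 then o.Gam (n + 1) (deg L.1 - j) (L.1 : Multiset ℕ)
          (Helper60.StabI.lo j (deg L.1 - j) (c L)) else 0 := by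
      intro L hL
      rw [Orient.sum_pairs (fun ν => o.Gam (n + 1) (deg L.1 - j) ν
        (Helper60.StabI.lo j (deg L.1 - j) (c L))) j (w L) W (hWs L hL), hw2 L j hj]
      split_ifs
      · rw [Finsupp.linearCombination_single, one_smul]
      · rw [map_zero]
    rw [Finset.sum_congr rfl h1]
    by_cases hj0 : j = 0
    · subst hj0
      obtain ⟨Φ, hΦ⟩ := exists_hmap60 R (n + 1) K
        (Helper63.Stab.jh R (K := Z) (L := LC.point.prod Z) (LC.lunit Z).symm)
      have h2 : ∀ L ∈ s, (if 0 = 0 then o.Gam (n + 1) (deg L.1 - 0) (L.1 : Multiset ℕ)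
          (Helper60.StabI.lo 0 (deg L.1 - 0) (c L)) else 0) = Φ (o.eH L.1 L.2.2 (c L)) := by
        intro L _
        rw [if_pos rfl, ← o.eH_castH L.1 L.2.2, Helper60.StabI.lo_cast, lo_zero,
          hmap_eH o _ Φ (fun S _ x => hΦ x)]
        rfl
      exact (Finset.sum_congr rfl h2).trans ((map_sum Φ _ _).symm.trans
        ((congrArg Φ hc).trans (map_zero Φ)))
    · exact Finset.sum_eq_zero fun L _ => if_neg hj0
  -- the vanishing
  obtain ⟨T₂, _, e, hkill⟩ := kill_class o (Fin N) n Y Ψ (fun j S _ x => hΨ j x) hY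
  obtain ⟨Φ, hΦ⟩ := exists_hmap60 R n K (R.tens (R.J (Pr.extM e 1)) Z)
  have hY0 : Φ Y = 0 := hkill Φ (fun S _ x => hΦ x)
  have hI := h K ((LC.Pr T₂ 1).prod Z) S' (fun M => R.comp (c' M)
    (R.ltens (Cn (deg M.1)) (R.tens (R.J (Pr.extM e 1)) Z))) (by
      rw [← hY0]
      change _ = Φ (∑ M ∈ S', o.eH M.1 M.2.2 (c' M))
      rw [map_sum]
      exact Finset.sum_congr rfl fun M _ => (hmap_eH o _ Φ (fun S _ x => hΦ x) _ _ _).symm)
  -- extraction
  have hex : ∀ q ∈ W, ∑ L ∈ s, w L q •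
      Helper60.StabI.castH (deg L.1) (deg (soSL n q.2).1 + q.1) (c L) = 0 := by
    intro q hq
    have h1 := hI (soSL n q.2) (Finset.mem_image_of_mem _ hq)
    let m := deg (soSL n q.2).1
    let F : R.Hom K ((Cn m).prod ((LC.Pr (Fin N) 1).prod Z)) →+ R.Hom K ((Cn m).prod
        ((Cn q.1).prod Z)) := Helper60.StabI.pc (R.comp (R.ltens (Cn m)
          (R.tens (R.J (Pr.extM e 1)) Z)) (R.ltens (Cn m) (R.tens (o.upow T₂ q.1) Z)))
    have h2 : F (c' (soSL n q.2)) = 0 := by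
      change R.comp (c' (soSL n q.2)) (R.comp _ _) = 0
      rw [← R.assoc, h1, R.zero_comp]
    have h3 : F (c' (soSL n q.2)) = ∑ p ∈ W.filter (fun p => soSL n p.2 = soSL n q.2),
        ∑ L ∈ s, w L p • F (Helper60.StabI.bt o (Fin N) m p.1
          (Helper60.StabI.castH (deg L.1) (m + p.1) (c L))) := by
      change F (∑ p ∈ W.filter (fun p => soSL n p.2 = soSL n q.2), ∑ L ∈ s, w L p •
        Helper60.StabI.bt o (Fin N) m p.1
          (Helper60.StabI.castH (deg L.1) (m + p.1) (c L))) = _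
      rw [map_sum]
      refine Finset.sum_congr rfl fun p _ => ?_
      rw [map_sum]
      refine Finset.sum_congr rfl fun L _ => ?_
      rw [map_zsmul]
    rw [h2, Finset.sum_eq_single q] at h3
    · have h4 : ∀ L ∈ s, w L q • F (Helper60.StabI.bt o (Fin N) m q.1
          (Helper60.StabI.castH (deg L.1) (m + q.1) (c L))) =
          Helper60.StabI.pc (Helper63.Stab.jh R (Helper60.StabI.btm Z m q.1))
            (w L q • Helper60.StabI.castH (deg L.1) (m + q.1) (c L)) := by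
        intro L _
        rw [map_zsmul]
        exact congrArg (fun t => w L q • t) (bt_dual o e m q.1 q.1 (hN q hq) _).2
      rw [Finset.sum_congr rfl h4, ← map_sum, Helper60.StabI.pc_apply] at h3
      have h5 := congrArg (fun t => R.comp t
        (Helper63.Stab.jh R (Helper60.StabI.btm Z m q.1).symm)) h3
      simp only [R.zero_comp] at h5
      rw [R.assoc, Helper63.Stab.jh_comp_symm', R.comp_id] at h5
      exact h5.symm
    · intro p hp hpq
      obtain ⟨hpW, hpM⟩ := Finset.mem_filter.1 hp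
      refine Finset.sum_eq_zero fun L _ => ?_
      have h4 : p.2 = q.2 := by
        rw [← soSL_coe (hWc p hpW), hpM, soSL_coe (hWc q hq)]
      have h5 : p.1 ≠ q.1 := fun h' => hpq (Prod.ext h' h4)
      have h6 : F (Helper60.StabI.bt o (Fin N) m p.1
          (Helper60.StabI.castH (deg L.1) (m + p.1) (c L))) = 0 :=
        (bt_dual o e m p.1 q.1 (hN p hpW) _).1 h5
      rw [h6, smul_zero]
    · intro hq'
      have h4 : q ∈ W.filter (fun p => soSL n p.2 = soSL n q.2) :=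
        Finset.mem_filter.2 ⟨hq, rfl⟩
      exact absurd h4 hq'
  -- the end
  intro L' hL'
  have h1 : ∑ L ∈ s, (if (L.1 : Multiset ℕ) = (L'.1 : Multiset ℕ) then
      Helper60.StabI.castH (deg L.1) (deg L'.1) (c L) else 0) = c L' := by
    rw [Finset.sum_eq_single L']
    · rw [if_pos rfl, Helper60.StabI.castH_self]
    · intro L _ hL
      exact if_neg fun h' => hL (SL_coe_injective h')
    · intro h'
      exact absurd hL' h'
  have h2 : ∀ L ∈ s, (if (L.1 : Multiset ℕ) = (L'.1 : Multiset ℕ) then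
      Helper60.StabI.castH (deg L.1) (deg L'.1) (c L) else 0) =
      ∑ p ∈ W, w L p • (if p.1 ::ₘ p.2 = (L'.1 : Multiset ℕ) then
        Helper60.StabI.castH (deg L.1) (deg L'.1) (c L) else 0) := by
    intro L hL
    have h3 := Orient.sum_pairs (fun ν => if ν = (L'.1 : Multiset ℕ) then
      Helper60.StabI.castH (deg L.1) (deg L'.1) (c L) else 0) 0 (w L) W (hWs L hL)
    rw [hw2 L 0 (Nat.zero_le n), if_pos rfl, Finsupp.linearCombination_single, one_smul] at h3
    simp only [Nat.zero_le, if_true, Nat.sub_zero] at h3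
    exact h3.symm
  rw [← h1, Finset.sum_congr rfl h2, Finset.sum_comm]
  refine Finset.sum_eq_zero fun p hp => ?_
  by_cases hpL : p.1 ::ₘ p.2 = (L'.1 : Multiset ℕ)
  · simp only [if_pos hpL]
    have h3 : deg (soSL n p.2).1 + p.1 = deg L'.1 := by
      refine deg_coe ?_
      rw [soSL_coe (hWc p hp)]
      exact hpL
    have h4 := hex p hp
    rw [h3] at h4
    exact h4
  · simp only [if_neg hpL, smul_zero, Finset.sum_const_zero]

theorem gen_all {R : Biv} (o : Orient R) (n : ℕ) : Gen o n :=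
  Nat.rec (gen_zero o) (fun n h => gen_succ o n h) n

theorem ind_all {R : Biv} (o : Orient R) (n : ℕ) : Ind o n :=
  Nat.rec (ind_zero o) (fun n h => ind_succ o n h) n

namespace PRTheory
variable {R : Biv} (P : PRTheory R) (o : Orient R)

open Pool.Agent.Helper33.Stab Pool.Agent.Helper39.Stab

/-- the class `b_0` is one -/
theorem b_zero' : P.b o 0 = P.J (PMap.id LC.point) := by
  have h : P.inc (o.b (Fin (0 + 1)) 0) =
      P.J (PMap.ofPoint (K := LC.Pr (Fin (0 + 1)) 1) (Pr.line 0)) :=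
    (congrArg P.inc (o.b_zero (Fin (0 + 1)) 0)).trans (P.inc_J _)
  unfold PRTheory.b
  rw [h]
  exact bun_point33 P.toGBiv (Pr.line (0 : Fin (0 + 1)))

/-- (EB) the bundle class of `e_L` is `b_L` -/
theorem eL_bun (L : List ℕ) :
    P.comp (P.inc (o.eL L)) (P.toGBiv.bun (K := LC.Pr (Idx L) L.length) (ContinuousMap.id _)) =
      P.bL o L := by
  induction L with
  | nil =>
    change P.comp (P.inc (R.J (PMap.ofPoint (K := LC.Pr Empty 0) Pr.none))) _ = P.J _
    rw [P.inc_J]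
    exact bun_point33 P.toGBiv Pr.none
  | cons i L ih =>
    change P.comp (P.inc (R.comp (R.J (PMap.ofHomeo (CnAdd (deg L) i).symm))
      (R.comp (R.tens (o.eL L) (Cn i))
        (R.comp (R.ltens (LC.Pr (Idx L) L.length) (o.b (Fin (i + 1)) i))
          (R.J (Pr.sumM (Idx L) (Fin (i + 1)) L.length 1))))))
      (P.toGBiv.bun (K := LC.Pr (Idx L ⊕ Fin (i + 1)) (L.length + 1)) (ContinuousMap.id _)) =
      P.comp (P.J (PMap.ofHomeo (CnAdd (deg L) i).symm)) (P.mulPt (P.bL o L) (P.b o i))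
    rw [P.inc_comp, P.inc_comp, P.inc_comp, P.inc_J, P.inc_J, P.inc_tens, inc_ltens33]
    simp only [P.assoc]
    congr 1
    have h1 : P.comp (P.J (Pr.sumM (Idx L) (Fin (i + 1)) L.length 1))
        (P.toGBiv.bun (K := LC.Pr (Idx L ⊕ Fin (i + 1)) (L.length + 1)) (ContinuousMap.id _)) =
        P.comp (P.comp (P.tens (P.toGBiv.bun (K := LC.Pr (Idx L) L.length) (ContinuousMap.id _))
          (LC.Pr (Fin (i + 1)) 1)) (P.ltens LC.point
            (P.toGBiv.bun (K := LC.Pr (Fin (i + 1)) 1) (ContinuousMap.id _))))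
          (P.J (PMap.ofHomeo (LC.lunit LC.point))) := by
      refine (bun_pull33 P.toGBiv (K := (LC.Pr (Idx L) L.length).prod (LC.Pr (Fin (i + 1)) 1))
        Pr.sum Pr.continuous_sum).trans ?_
      refine (P.toGBiv.bun_sum (K := (LC.Pr (Idx L) L.length).prod (LC.Pr (Fin (i + 1)) 1))
        ⟨Prod.fst, continuous_fst⟩ ⟨Prod.snd, continuous_snd⟩).trans ?_
      rw [← bun_pull33 P.toGBiv (K := (LC.Pr (Idx L) L.length).prod (LC.Pr (Fin (i + 1)) 1))
        Prod.fst continuous_fst,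
        ← bun_pull33 P.toGBiv (K := (LC.Pr (Idx L) L.length).prod (LC.Pr (Fin (i + 1)) 1))
        Prod.snd continuous_snd]
      exact mul_pr33 P.toGBiv _ _
    rw [h1]
    unfold mulPt
    simp only [← P.assoc]
    congr 1
    rw [← ih]
    unfold PRTheory.b
    rw [P.tens_comp, ltens_comp P.toBiv]
    simp only [P.assoc]
    congr 1
    simp only [← P.assoc]
    congr 1
    exact (P.exch _ _).symm

/-- the element of `P(K, Z)` given by a class in `R(K, Pr S n × Z)` -/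
def term0 {K Z : LC} {S : Type} [Fintype S] {n : ℕ} (y : R.Hom K ((LC.Pr S n).prod Z)) :
    P.Hom K Z :=
  P.comp (P.inc y) (P.comp (P.tens (P.toGBiv.bun (K := LC.Pr S n) (ContinuousMap.id _)) Z)
    (P.J (PMap.ofHomeo (LC.lunit Z))))

theorem term0_add33 {K Z : LC} {S : Type} [Fintype S] {n : ℕ}
    (x y : R.Hom K ((LC.Pr S n).prod Z)) : P.term0 (x + y) = P.term0 x + P.term0 y := by
  unfold term0
  rw [P.inc_add, P.add_comp]

theorem term0_zero33 {K Z : LC} {S : Type} [Fintype S] {n : ℕ} :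
    P.term0 (0 : R.Hom K ((LC.Pr S n).prod Z)) = 0 := by
  have h := P.term0_add33 (0 : R.Hom K ((LC.Pr S n).prod Z)) 0
  rw [add_zero] at h
  exact left_eq_add.1 h

theorem term0_ext33 {K Z : LC} {S T : Type} [Fintype S] [Fintype T] {n : ℕ} (j : S ↪ T)
    (x : R.Hom K ((LC.Pr S n).prod Z)) :
    P.term0 (R.comp x (R.tens (R.J (Pr.extM j n)) Z)) = P.term0 x := by
  unfold term0
  rw [P.inc_comp, P.inc_tens, P.inc_J, P.assoc, ← P.assoc (P.tens _ Z), ← P.tens_comp,
    bun_ext33]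

/-- (G0) the map `H_n(K, Z) → P(K, Z)` -/
theorem exists_toP (n : ℕ) (K Z : LC) : ∃ φ : (hLim R n).H K Z →+ P.Hom K Z,
    ∀ {S : Type} [Fintype S] (y : R.Hom K ((LC.Pr S n).prod Z)),
      φ ((hLim R n).cls y) = P.term0 y := by
  have key : ∀ {S T : Type} [Fintype S] [Fintype T] (x : R.Hom K ((LC.Pr S n).prod Z))
      (y : R.Hom K ((LC.Pr T n).prod Z)), (hLim R n).cls x = (hLim R n).cls y →
      P.term0 x = P.term0 y := by
    intro S T _ _ x y h
    let i1 : S ↪ S ⊕ T := ⟨Sum.inl, Sum.inl_injective⟩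
    let i2 : T ↪ S ⊕ T := ⟨Sum.inr, Sum.inr_injective⟩
    rw [← (hLim R n).cls_ext i1 x, ← (hLim R n).cls_ext i2 y] at h
    rw [← P.term0_ext33 i1 x, ← P.term0_ext33 i2 y]
    generalize R.comp x (R.tens (R.J (Pr.extM i1 n)) Z) = x' at h ⊢
    generalize R.comp y (R.tens (R.J (Pr.extM i2 n)) Z) = y' at h ⊢
    have h0 : (hLim R n).cls (x' - y') = 0 := by
      have h1 := (hLim R n).cls_add (x' - y') y'
      rw [sub_add_cancel, h] at h1
      exact right_eq_add.1 h1
    obtain ⟨m, hm⟩ := (hLim R n).eq_zero (x' - y') h0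
    have h2 : P.term0 (x' - y') = 0 := by
      rw [← P.term0_ext33 (⟨Sum.inl, Sum.inl_injective⟩ : S ⊕ T ↪ (S ⊕ T) ⊕ Fin m) (x' - y'),
        hm, P.term0_zero33]
    have h3 := P.term0_add33 (x' - y') y'
    rw [sub_add_cancel, h2, zero_add] at h3
    exact h3
  have hex : ∀ x : (hLim R n).H K Z, ∃ z : P.Hom K Z, ∀ {S : Type} [Fintype S]
      (y : R.Hom K ((LC.Pr S n).prod Z)), (hLim R n).cls y = x → P.term0 y = z := by
    intro x
    obtain ⟨M, -, y, rfl⟩ := (hLim R n).surj x 0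
    exact ⟨P.term0 y, fun y' h => key y' y h⟩
  choose φ hφ using hex
  refine ⟨AddMonoidHom.mk' φ ?_, fun y => ?_⟩
  · intro x x'
    obtain ⟨M, -, y, rfl⟩ := (hLim R n).surj x 0
    obtain ⟨M', -, y', rfl⟩ := (hLim R n).surj x' 0
    let i1 : Fin M ↪ Fin M ⊕ Fin M' := ⟨Sum.inl, Sum.inl_injective⟩
    let i2 : Fin M' ↪ Fin M ⊕ Fin M' := ⟨Sum.inr, Sum.inr_injective⟩
    rw [← (hLim R n).cls_ext i1 y, ← (hLim R n).cls_ext i2 y']
    generalize R.comp y (R.tens (R.J (Pr.extM i1 n)) Z) = z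
    generalize R.comp y' (R.tens (R.J (Pr.extM i2 n)) Z) = z'
    rw [← hφ _ z rfl, ← hφ _ z' rfl, ← P.term0_add33]
    exact (hφ _ (z + z') ((hLim R n).cls_add z z')).symm
  · exact (hφ _ y rfl).symm

/-- (G1) every element of `P(K, Z)` comes from some `H_n` -/
theorem exists_stage {K Z : LC} (x : P.Hom K Z) : ∃ (n M : ℕ)
    (y : R.Hom K ((LC.Pr (Fin M) n).prod Z)), x = P.term0 y := by
  obtain ⟨n, -, y, hy⟩ := P.surj x 0
  let e : Fin n × Bool ≃ Fin (Fintype.card (Fin n × Bool)) := Fintype.equivFin _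
  refine ⟨Fintype.card (Fin n), Fintype.card (Fin n × Bool),
    R.comp (show R.Hom K ((LC.Pr (Fin n × Bool) (Fintype.card (Fin n))).prod Z) from y)
      (R.tens (R.J (Pr.extM e.toEmbedding (Fintype.card (Fin n)))) Z), ?_⟩
  rw [P.term0_ext33, hy]
  unfold term0
  rw [bun_GK33]
  rfl

/-- (G2) an element of `H_n` that vanishes in `P` vanishes after adding trivial lines -/
theorem term0_eq_zero {K Z : LC} {S : Type} [Fintype S] {n : ℕ}
    (y : R.Hom K ((LC.Pr S n).prod Z)) (h : P.term0 y = 0) : ∃ (T : Type) (_ : Fintype T) (m : ℕ)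
    (Q : Stab.Pr T m), R.comp y (R.tens (R.J (PMap.ofCont (K := LC.Pr S n)
      (L := LC.Pr (S ⊕ T) (n + m)) (fun V => Pr.sum (V, Q))
      (Pr.continuous_sum.comp (continuous_id.prodMk continuous_const)))) Z) = 0 := by
  by_cases hn : n ≤ Fintype.card S
  · set T := (exists_compl hn).choose with hTdef
    have hT : n + T.card = Fintype.card S := (exists_compl hn).choose_spec
    have hb : P.toGBiv.bun (K := LC.Pr S n) (ContinuousMap.id _) =
        P.comp (P.J (PMap.ofCont (K := LC.Pr S n) (L := LC.G S) (Pr.toG T hT)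
          (Pr.continuous_toG T hT))) (P.g S) := by
      unfold GBiv.bun
      rw [dif_pos hn]
      rfl
    unfold term0 at h
    rw [hb, P.tens_comp, ← P.inc_J, ← P.inc_tens, P.assoc, ← P.assoc (P.inc y), ← P.inc_comp] at h
    obtain ⟨m, hm⟩ := P.eq_zero _ h
    refine ⟨S ⊕ (Fin m × Bool), inferInstance, (stabT33 T m).card, Pr.coord (stabT33 T m), ?_⟩
    rw [J_sum33 R T hT m, R.tens_comp, R.tens_comp, ← R.assoc, ← R.assoc, hm, zero_comp33]
  · refine ⟨Empty, inferInstance, 0, Pr.none, ?_⟩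
    have h0 : PMap.ofCont (K := LC.Pr S n)
      (L := LC.Pr (S ⊕ Empty) (n + 0)) (fun V => Pr.sum (V, Pr.none))
      (Pr.continuous_sum.comp (continuous_id.prodMk continuous_const)) = PMap.zero _ _ := by
      ext V
      exact absurd (Pr.le_card V) hn
    rw [h0, R.J_zero, tens_zero33, comp_zero33]

end PRTheory

namespace PO7

open Pool.Agent.Helper39.Stab

/-! ### Changes of the degree along equalities -/

/-- change of the source -/
def castS {R : Biv} {d d' : ℕ} {X : LC} (h : d = d') (x : R.Hom (Cn d) X) : R.Hom (Cn d') X :=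
  h ▸ x

/-- change of the target -/
def castT {R : Biv} {d d' : ℕ} {K Z : LC} (h : d = d') (c : R.Hom K ((Cn d).prod Z)) :
    R.Hom K ((Cn d').prod Z) := h ▸ c

theorem cast_comp {R : Biv} {d d' : ℕ} {K Z X : LC} (h : d = d') (c : R.Hom K ((Cn d).prod Z))
    (x : R.Hom (Cn d) X) :
    R.comp (castT h c) (R.tens (castS h x) Z) = R.comp c (R.tens x Z) := by
  subst h
  rfl

theorem castS_comp {R : Biv} {d d' : ℕ} {X Y : LC} (h : d = d') (x : R.Hom (Cn d) X)
    (y : R.Hom X Y) : R.comp (castS h x) y = castS h (R.comp x y) := by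
  subst h
  rfl

theorem castT_zero {R : Biv} {d d' : ℕ} {K Z : LC} (h : d = d') (c : R.Hom K ((Cn d).prod Z))
    (hc : castT h c = 0) : c = 0 := by
  subst h
  exact hc

theorem term_cast {R : Biv} (P : PRTheory R) {d d' : ℕ} {K Z : LC} (h : d = d')
    (c : R.Hom K ((Cn d).prod Z)) (x : P.toGBiv.toBiv.Hom (Cn d) LC.point) :
    P.term (castT h c) (castS (R := P.toGBiv.toBiv) h x) = P.term c x := by
  subst h
  rfl

/-! ### Zeros in front of a list -/

/-- adding the line of a coordinate vector -/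
def addL (S : Type) [Fintype S] (n : ℕ) : PMap (LC.Pr S n) (LC.Pr (S ⊕ Fin (0 + 1)) (n + 1)).plus :=
  PMap.ofCont (K := LC.Pr S n) (L := LC.Pr (S ⊕ Fin (0 + 1)) (n + 1))
    (fun V => Pr.sum (V, Pr.line (0 : Fin (0 + 1))))
    (Pr.continuous_sum.comp (continuous_id.prodMk continuous_const))

theorem tens_point'' (R : Biv) {K L : LC} (x : R.Hom K L) :
    R.tens x LC.point = R.comp (R.J (PMap.ofHomeo (Homeomorph.prodPUnit K : K.prod LC.point ≃ₜ K)))
      (R.comp x (R.J (PMap.ofHomeo (Homeomorph.prodPUnit L : L.prod LC.point ≃ₜ L).symm))) := by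
  rw [← R.assoc, ← tens_point', R.assoc, J_homeo_symm, R.comp_id]

theorem eL_zero {R : Biv} (o : Orient R) (L : List ℕ) :
    o.eL (0 :: L) = R.comp (o.eL L) (R.J (addL (Idx L) L.length)) := by
  have h1 : o.eL (0 :: L) = R.comp (R.J (PMap.ofHomeo (Homeomorph.prodPUnit (Cn (deg L)) :
      (Cn (deg L)).prod LC.point ≃ₜ Cn (deg L)).symm))
      (R.comp (R.tens (o.eL L) LC.point)
        (R.comp (R.ltens (LC.Pr (Idx L) L.length) (o.b (Fin (0 + 1)) 0))
          (R.J (Pr.sumM (Idx L) (Fin (0 + 1)) L.length 1)))) := rfl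
  rw [h1, o.b_zero (Fin (0 + 1)) 0, tens_point'', ltens_J]
  simp only [R.assoc]
  rw [← R.assoc, J_homeo_symm', R.id_comp, ← R.J_comp, ← R.J_comp]
  rfl

theorem mul_id {R : Biv} {A : LC} (x : R.Hom A LC.point) :
    R.comp (R.J (PMap.ofHomeo (Homeomorph.prodPUnit A : A.prod LC.point ≃ₜ A).symm))
      (R.comp (R.comp (R.tens x LC.point) (R.ltens LC.point (R.J (PMap.id LC.point))))
        (R.J (PMap.ofHomeo (LC.lunit LC.point)))) = x := by
  rw [ltens_id, R.comp_id]
  have h1 : (LC.lunit LC.point : LC.point.prod LC.point ≃ₜ LC.point) =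
      (Homeomorph.prodPUnit LC.point : LC.point.prod LC.point ≃ₜ LC.point) := by
    ext x
  rw [h1, tens_point', ← R.assoc, J_homeo_symm', R.id_comp]

theorem bL_zero {R : Biv} (P : PRTheory R) (o : Orient R) (L : List ℕ) :
    P.bL o (0 :: L) = P.bL o L := by
  have h2 : P.b o 0 = P.J (PMap.id LC.point) := P.b_zero' o
  have h1 : P.bL o (0 :: L) = P.comp (P.J (PMap.ofHomeo (Homeomorph.prodPUnit (Cn (deg L)) :
      (Cn (deg L)).prod LC.point ≃ₜ Cn (deg L)).symm))
      (P.comp (P.comp (P.tens (P.bL o L) LC.point) (P.ltens LC.point (P.b o 0)))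
        (P.J (PMap.ofHomeo (LC.lunit LC.point)))) := rfl
  rw [h1]
  refine Eq.trans ?_ (mul_id (R := P.toGBiv.toBiv) (P.bL o L))
  exact congrArg (fun z => P.comp (P.J (PMap.ofHomeo (Homeomorph.prodPUnit (Cn (deg L)) :
      (Cn (deg L)).prod LC.point ≃ₜ Cn (deg L)).symm))
      (P.comp (P.comp (P.tens (P.bL o L) LC.point) (P.ltens LC.point z))
        (P.J (PMap.ofHomeo (LC.lunit LC.point))))) h2

theorem deg_pad : ∀ (k : ℕ) (L : List ℕ), deg L = deg (List.replicate k 0 ++ L)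
  | 0, _ => rfl
  | k + 1, L => deg_pad k L

theorem bL_pad {R : Biv} (P : PRTheory R) (o : Orient R) : ∀ (k : ℕ) (L : List ℕ),
    P.bL o (List.replicate k 0 ++ L) = castS (R := P.toGBiv.toBiv) (deg_pad k L) (P.bL o L)
  | 0, _ => rfl
  | k + 1, L => (bL_zero P o (List.replicate k 0 ++ L)).trans (bL_pad P o k L)

/-! ### Equivalent maps between spaces of projections -/

theorem cls_equiv {R : Biv} {K Z A : LC} {S T U : Type} [Fintype S] [Fintype T] [Fintype U]
    {n k : ℕ} (x : R.Hom A (LC.Pr S n)) {a : Pr S n → Pr T k} {b : Pr S n → Pr U k}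
    (ha : Continuous a) (hb : Continuous b) (h : UEquiv a b) (c : R.Hom K (A.prod Z)) :
    (hLim R k).cls (R.comp c (R.tens (R.comp x
      (R.J (PMap.ofCont (K := LC.Pr S n) (L := LC.Pr T k) a ha))) Z)) =
    (hLim R k).cls (R.comp c (R.tens (R.comp x
      (R.J (PMap.ofCont (K := LC.Pr S n) (L := LC.Pr U k) b hb))) Z)) := by
  rw [← (hLim R k).cls_ext (⟨Sum.inl, Sum.inl_injective⟩ : T ↪ T ⊕ U),
    ← (hLim R k).cls_ext (⟨Sum.inr, Sum.inr_injective⟩ : U ↪ T ⊕ U)
      (R.comp c (R.tens (R.comp x (R.J (PMap.ofCont (K := LC.Pr S n) (L := LC.Pr U k) b hb))) Z))]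
  congr 1
  rw [R.assoc, R.assoc, ← R.tens_comp, ← R.tens_comp, R.assoc, R.assoc, ← R.J_comp, ← R.J_comp]
  congr 3
  apply R.J_homotopic
  obtain ⟨H, hH, h0, h1⟩ := h.homotopic
  refine ⟨PMap.ofCont (K := LC.I.prod (LC.Pr S n)) (L := LC.Pr (T ⊕ U) k) H hH, fun x => ?_,
    fun x => ?_⟩
  · change ((H (0, x) : Pr (T ⊕ U) k) : OnePoint (LC.Pr (T ⊕ U) k)) = _
    rw [h0]
    rfl
  · change ((H (1, x) : Pr (T ⊕ U) k) : OnePoint (LC.Pr (T ⊕ U) k)) = _
    rw [h1]
    rfl

/-- the class `e_L` of a list with zeros in front -/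
theorem eL_pad {R : Biv} (o : Orient R) (L : List ℕ) : ∀ k : ℕ,
    ∃ (b : Pr (Idx L) L.length → Pr (Idx (List.replicate k 0 ++ L)) (List.replicate k 0 ++ L).length)
      (hb : Continuous b) (T : Type) (_ : Fintype T) (Q : Pr T k),
      o.eL (List.replicate k 0 ++ L) = castS (deg_pad k L) (R.comp (o.eL L)
        (R.J (PMap.ofCont (K := LC.Pr (Idx L) L.length)
          (L := LC.Pr (Idx (List.replicate k 0 ++ L)) (List.replicate k 0 ++ L).length) b hb))) ∧
      UEquiv b (fun V => Pr.sum (V, Q)) := by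
  intro k
  induction k with
  | zero =>
    refine ⟨fun V => V, continuous_id, Empty, inferInstance, Pr.none, ?_, ?_⟩
    · exact (R.comp_id (o.eL L)).symm
    · obtain ⟨w, hw, h1, h2⟩ := UEq.ext (⟨Sum.inl, Sum.inl_injective⟩ : Idx L ↪ Idx L ⊕ Empty)
        (P := fun V : Pr (Idx L) L.length => V) continuous_id
      refine ⟨w, hw, h1, fun V => ?_⟩
      rw [h2, PJ2.ext_inl]
      rfl
  | succ k ih =>
    obtain ⟨b, hb, T, _, Q, hE, hU⟩ := ih
    refine ⟨fun V => Pr.sum (b V, Pr.line (0 : Fin (0 + 1))),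
      Pr.continuous_sum.comp (hb.prodMk continuous_const), T ⊕ Fin (0 + 1), inferInstance,
      Pr.sum (Q, Pr.line (0 : Fin (0 + 1))), ?_, ?_⟩
    · refine (eL_zero o (List.replicate k 0 ++ L)).trans ?_
      rw [hE, castS_comp, R.assoc, ← R.J_comp]
      rfl
    · exact UEq.trans (UEq.sum hU (UEq.const _ _)) (UEq.assoc continuous_id continuous_const
        continuous_const)

/-- the contribution of a list with zeros in front -/
theorem cls_pad {R : Biv} (o : Orient R) {K Z : LC} (L : List ℕ) (d k : ℕ)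
    (h' : (List.replicate d 0 ++ L).length = k) {S : Type} [Fintype S]
    (a : Pr (Idx L) L.length → Pr S k) (ha : Continuous a) {T : Type} [Fintype T] (Q : Pr T d)
    (hU : UEquiv a (fun V => Pr.sum (V, Q))) (c : R.Hom K ((Cn (deg L)).prod Z)) :
    (hLim R k).cls (R.comp c (R.tens (R.comp (o.eL L)
      (R.J (PMap.ofCont (K := LC.Pr (Idx L) L.length) (L := LC.Pr S k) a ha))) Z)) =
      o.eH (List.replicate d 0 ++ L) h' (castT (deg_pad d L) c) := by
  subst h'
  obtain ⟨b, hb, T0, _, Q0, hE, hU0⟩ := eL_pad o L d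
  have h1 : o.eH (List.replicate d 0 ++ L) rfl (castT (deg_pad d L) c) =
      (hLim R (List.replicate d 0 ++ L).length).cls (R.comp (castT (deg_pad d L) c)
        (R.tens (o.eL (List.replicate d 0 ++ L)) Z)) := rfl
  rw [h1, hE, cast_comp]
  exact cls_equiv (o.eL L) ha hb (UEq.trans hU (UEq.trans
    (UEq.sum (UEq.refl continuous_id) (UEq.const _ _)) (UEq.symm hU0))) c

/-- a family with a prescribed index set -/
theorem exists_map {X S T U : Type} [TopologicalSpace X] [Fintype S] [Fintype T] [Fintype U]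
    {n d k : ℕ} (h : n + d = k) (j : S ⊕ T ↪ U) (P : X → Pr S n) (hP : Continuous P) (Q : Pr T d) :
    ∃ a : X → Pr U k, Continuous a ∧ UEquiv a (fun x => Pr.sum (P x, Q)) := by
  subst h
  have h1 : Continuous (fun x => Pr.sum (P x, Q)) :=
    Pr.continuous_sum.comp (hP.prodMk continuous_const)
  exact ⟨fun x => Pr.ext j (Pr.sum (P x, Q)), (Pr.continuous_ext j).comp h1,
    UEq.symm (UEq.ext j h1)⟩

/-- the map to the theory sends contributions to terms -/
theorem phi_eH {R : Biv} (P : PRTheory R) (o : Orient R) {n : ℕ} {K Z : LC}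
    (φ : (hLim R n).H K Z →+ P.Hom K Z)
    (hφ : ∀ {S : Type} [Fintype S] (y : R.Hom K ((LC.Pr S n).prod Z)),
      φ ((hLim R n).cls y) = P.term0 y) (L : List ℕ) (h : L.length = n)
    (c : R.Hom K ((Cn (deg L)).prod Z)) : φ (o.eH L h c) = P.term c (P.bL o L) := by
  subst h
  have h1 : o.eH L rfl c = (hLim R L.length).cls (R.comp c (R.tens (o.eL L) Z)) := rfl
  rw [h1, hφ, ← P.eL_bun o L]
  unfold PRTheory.term0 PRTheory.term
  rw [P.inc_comp, P.inc_tens, P.tens_comp]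
  simp only [P.assoc]

/-- independence for families -/
theorem ind_fam {R : Biv} (o : Orient R) (n : ℕ) {K Z : LC} {ι : Type} [Fintype ι]
    (f : ι → SL n) (hf : Function.Injective f)
    (c : ∀ i : ι, R.Hom K ((Cn (deg (f i).1)).prod Z))
    (h : ∑ i, o.eH (f i).1 (f i).2.2 (c i) = 0) (i : ι) : c i = 0 := by
  classical
  let c' : ∀ L : SL n, R.Hom K ((Cn (deg L.1)).prod Z) := fun L =>
    if h : ∃ i, f i = L then h.choose_spec ▸ c h.choose else 0
  have hc' : ∀ i, c' (f i) = c i := by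
    intro i
    have hi : ∃ i', f i' = f i := ⟨i, rfl⟩
    have h1 : c' (f i) = hi.choose_spec ▸ c hi.choose := dif_pos hi
    have h2 : ∀ (i' : ι) (e : f i' = f i), (e ▸ c i' : R.Hom K ((Cn (deg (f i).1)).prod Z)) = c i := by
      intro i' e
      obtain rfl := hf e
      rfl
    rw [h1]
    exact h2 _ _
  have h1 := ind_all o n K Z (Finset.univ.image f) c' (by
    rw [Finset.sum_image (fun a _ b _ e => hf e)]
    rw [← h]
    exact Finset.sum_congr rfl fun i _ => by rw [hc'])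
  rw [← hc']
  exact h1 _ (Finset.mem_image_of_mem f (Finset.mem_univ i))

theorem term_add {R : Biv} (P : PRTheory R) {K Z : LC} {d : ℕ} (c c' : R.Hom K ((Cn d).prod Z))
    (x : P.Hom (Cn d) LC.point) : P.term (c + c') x = P.term c x + P.term c' x := by
  unfold PRTheory.term
  rw [P.inc_add, P.add_comp]

open Classical in
/-- the sum of the terms of a polynomial -/
def psi {R : Biv} (P : PRTheory R) (o : Orient R) (K Z : LC) :
    (Π₀ L : PL, R.Hom K ((Cn (deg L.1)).prod Z)) →+ P.Hom K Z :=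
  DFinsupp.sumAddHom fun L => AddMonoidHom.mk' (fun y => P.term y (P.bL o L.1))
    fun c c' => term_add P c c' _

open Classical in
theorem psi_apply {R : Biv} (P : PRTheory R) (o : Orient R) {K Z : LC}
    (c : Π₀ L : PL, R.Hom K ((Cn (deg L.1)).prod Z)) :
    psi P o K Z c = c.sum fun L y => P.term y (P.bL o L.1) :=
  DFinsupp.sumAddHom_apply _ _

theorem term_mem {R : Biv} (P : PRTheory R) (o : Orient R) {K Z : LC} : ∀ (L : List ℕ)
    (_ : L.Pairwise (· ≤ ·)) (c : R.Hom K ((Cn (deg L)).prod Z)),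
    ∃ c', psi P o K Z c' = P.term c (P.bL o L) := by
  intro L
  induction L with
  | nil =>
    intro h c
    classical
    exact ⟨DFinsupp.single (⟨[], h, by simp⟩ : PL) c, DFinsupp.sumAddHom_single _ _ _⟩
  | cons i L ih =>
    intro h c
    rcases Nat.eq_zero_or_pos i with rfl | hi
    · obtain ⟨c', h'⟩ := ih (List.pairwise_cons.1 h).2 c
      refine ⟨c', h'.trans ?_⟩
      rw [bL_zero]
      rfl
    · classical
      have hpos : ∀ k ∈ i :: L, 0 < k := by
        intro k hk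
        rcases List.mem_cons.1 hk with rfl | hk
        · exact hi
        · exact hi.trans_le ((List.pairwise_cons.1 h).1 k hk)
      exact ⟨DFinsupp.single (⟨i :: L, h, hpos⟩ : PL) c, DFinsupp.sumAddHom_single _ _ _⟩

theorem psi_surj {R : Biv} (P : PRTheory R) (o : Orient R) (K Z : LC) :
    Function.Surjective (psi P o K Z) := by
  intro x
  obtain ⟨n, M, y, rfl⟩ := P.exists_stage x
  obtain ⟨φ, hφ⟩ := P.exists_toP n K Z
  obtain ⟨s, c, hc⟩ := gen_all o n K Z ((hLim R n).cls y)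
  have h1 : P.term0 y = ∑ L ∈ s, P.term (c L) (P.bL o L.1) := by
    rw [← hφ, hc, map_sum]
    exact Finset.sum_congr rfl fun L _ => phi_eH P o φ hφ _ _ _
  choose c' hc' using fun L : SL n => term_mem P o L.1 L.2.1 (c L)
  refine ⟨∑ L ∈ s, c' L, ?_⟩
  rw [map_sum, h1]
  exact Finset.sum_congr rfl fun L _ => hc' L

theorem cls_sum {R : Biv} {n : ℕ} {K Z : LC} {S : Type} [Fintype S] {ι : Type} (s : Finset ι)
    (y : ι → R.Hom K ((LC.Pr S n).prod Z)) :
    (hLim R n).cls (∑ i ∈ s, y i) = ∑ i ∈ s, (hLim R n).cls (y i) :=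
  map_sum (AddMonoidHom.mk' (fun y : R.Hom K ((LC.Pr S n).prod Z) => (hLim R n).cls y)
    (hLim R n).cls_add) _ _

theorem sum_comp {R : Biv} {K L M : LC} {ι : Type} (s : Finset ι) (x : ι → R.Hom K L)
    (y : R.Hom L M) : R.comp (∑ i ∈ s, x i) y = ∑ i ∈ s, R.comp (x i) y :=
  map_sum (AddMonoidHom.mk' (fun x : R.Hom K L => R.comp x y) fun a b => R.add_comp a b y) _ _

theorem pad_sorted (L : PL) (d : ℕ) : (List.replicate d 0 ++ L.1).Pairwise (· ≤ ·) := by
  rw [List.pairwise_append]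
  refine ⟨List.pairwise_replicate.2 (Or.inr le_rfl), L.2.1, fun a ha b _ => ?_⟩
  rw [List.eq_of_mem_replicate ha]
  exact Nat.zero_le _

theorem pad_inj (L L' : PL) (d d' : ℕ)
    (h : List.replicate d 0 ++ L.1 = List.replicate d' 0 ++ L'.1) : L = L' := by
  have key : ∀ (M : PL) (e : ℕ), (List.replicate e 0 ++ M.1).filter (fun i => decide (0 < i)) = M.1 := by
    intro M e
    rw [List.filter_append]
    have h1 : (List.replicate e 0).filter (fun i => decide (0 < i)) = [] := by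
      rw [List.filter_eq_nil_iff]
      intro a ha
      rw [List.eq_of_mem_replicate ha]
      simp
    have h2 : M.1.filter (fun i => decide (0 < i)) = M.1 := by
      rw [List.filter_eq_self]
      intro a ha
      simpa using M.2.2 a ha
    rw [h1, h2, List.nil_append]
  apply Subtype.ext
  rw [← key L d, ← key L' d', h]

theorem psi_inj {R : Biv} (P : PRTheory R) (o : Orient R) (K Z : LC)
    (c : Π₀ L : PL, R.Hom K ((Cn (deg L.1)).prod Z)) (hc : psi P o K Z c = 0) : c = 0 := by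
  classical
  let ι : Type := {L // L ∈ c.support}
  let N := c.support.sup fun L => L.1.length
  have hN : ∀ i : ι, i.1.1.length ≤ N := fun i =>
    Finset.le_sup (f := fun L : PL => L.1.length) i.2
  let S : Type := Σ i : ι, Idx i.1.1 ⊕ Fin (N - i.1.1.length)
  have hd : ∀ i : ι, i.1.1.length + (N - i.1.1.length) = N := fun i => by
    have := hN i
    omega
  choose a ha hU using fun i : ι => exists_map (X := Pr (Idx i.1.1) i.1.1.length) (hd i)
    (Function.Embedding.sigmaMk (β := fun i : ι => Idx i.1.1 ⊕ Fin (N - i.1.1.length)) i)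
    (fun V => V)
    continuous_id (UEq.full (N - i.1.1.length))
  let y : R.Hom K ((LC.Pr S N).prod Z) := ∑ i : ι, R.comp (c i.1) (R.tens (R.comp (o.eL i.1.1)
    (R.J (PMap.ofCont (K := LC.Pr (Idx i.1.1) i.1.1.length) (L := LC.Pr S N) (a i) (ha i)))) Z)
  have hlen : ∀ (i : ι), (List.replicate (N - i.1.1.length) 0 ++ i.1.1).length = N := fun i => by
    rw [List.length_append, List.length_replicate]
    have := hN i
    omega
  have hy : P.term0 y = 0 := by
    obtain ⟨φ, hφ⟩ := P.exists_toP N K Z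
    rw [← hφ, cls_sum, map_sum, ← hc, psi_apply]
    change _ = ∑ i ∈ c.support, P.term (c i) (P.bL o i.1)
    refine Eq.trans ?_ (Finset.sum_coe_sort c.support (fun L => P.term (c L) (P.bL o L.1)))
    refine Finset.sum_congr rfl fun i _ => ?_
    rw [cls_pad o i.1.1 _ N (hlen i) (a i) (ha i) _ (hU i) (c i.1), phi_eH P o φ hφ, bL_pad]
    exact term_cast P _ _ _
  obtain ⟨T, _, m, Q, hQ⟩ := P.term0_eq_zero y hy
  have hlen' : ∀ (i : ι), (List.replicate ((N - i.1.1.length) + m) 0 ++ i.1.1).length = N + m :=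
    fun i => by
      rw [List.length_append, List.length_replicate]
      have := hN i
      omega
  have key : ∑ i : ι, o.eH (List.replicate ((N - i.1.1.length) + m) 0 ++ i.1.1) (hlen' i)
      (castT (deg_pad ((N - i.1.1.length) + m) i.1.1) (c i.1)) = 0 := by
    have h0 : (hLim R (N + m)).cls (0 : R.Hom K ((LC.Pr (S ⊕ T) (N + m)).prod Z)) = 0 := by
      have := (hLim R (N + m)).cls_add (0 : R.Hom K ((LC.Pr (S ⊕ T) (N + m)).prod Z)) 0
      rw [add_zero] at this
      exact left_eq_add.1 this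
    rw [← h0, ← hQ, sum_comp, cls_sum]
    refine Finset.sum_congr rfl fun i _ => ?_
    have h1 : Continuous (fun V => Pr.sum (a i V, Q)) :=
      Pr.continuous_sum.comp ((ha i).prodMk continuous_const)
    have h2 : UEquiv (fun V => Pr.sum (a i V, Q))
        (fun V => Pr.sum (V, Pr.sum (UEq.full (N - i.1.1.length), Q))) :=
      UEq.trans (UEq.sum (hU i) (UEq.const _ _))
        (UEq.assoc continuous_id continuous_const continuous_const)
    rw [← cls_pad o i.1.1 _ (N + m) (hlen' i) _ h1 _ h2 (c i.1), R.assoc, ← R.tens_comp, R.assoc,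
      ← R.J_comp]
    rfl
  have h3 := ind_fam o (N + m)
    (fun i : ι => (⟨List.replicate ((N - i.1.1.length) + m) 0 ++ i.1.1, pad_sorted i.1 _, hlen' i⟩ :
      SL (N + m)))
    (fun i j e => Subtype.ext (pad_inj _ _ _ _ (congrArg Subtype.val e)))
    (fun i => castT (deg_pad ((N - i.1.1.length) + m) i.1.1) (c i.1)) key
  ext L
  by_cases hL : L ∈ c.support
  · exact castT_zero _ _ (h3 ⟨L, hL⟩)
  · exact DFinsupp.notMem_support_iff.1 hL

end PO7

namespace PRTheory
variable {R : Biv} (P : PRTheory R) (o : Orient R)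

open Classical in
/-- (TT) every element of `P(K, Z)` is a unique finite sum `∑ c_L b_L` -/
theorem polynomial {K Z : LC} (x : P.Hom K Z) :
    ∃! c : Π₀ L : PL, R.Hom K ((Cn (deg L.1)).prod Z),
      x = c.sum fun L y => P.term y (P.bL o L.1) := by
  obtain ⟨c, hc⟩ := PO7.psi_surj P o K Z x
  refine ⟨c, ?_, fun c' h' => ?_⟩
  · change x = c.sum fun L y => P.term y (P.bL o L.1)
    rw [← hc, PO7.psi_apply]
  · have h1 : x = c'.sum fun L y => P.term y (P.bL o L.1) := h'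
    have h2 : PO7.psi P o K Z (c' - c) = 0 := by
      rw [map_sub, hc, h1, PO7.psi_apply, sub_self]
    exact sub_eq_zero.1 (PO7.psi_inj P o K Z _ h2)

end PRTheory

end Pool.Agent.Helper1.Stab
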