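import Pool.Agent.Helper1.Stab.Proj
import Pool.Agent.Helper39.Stab.Ltens
import Pool.Agent.Helper73.Stab.ThomAux
import Pool.Agent.Helper9.Stab.SplitPt
import Pool.Agent.Helper65.Stab.PBT
import Pool.Agent.Helper89.Stab.Split
import Pool.Agent.Helper62.Stab.PB3

/-! The five lemma, split points, the Thom isomorphism for line bundles and the projective bundle
theorem in an oriented bivariant theory. -/

open Topology Filter Set Matrix

noncomputable section

namespace Pool.Agent.Helper1.Stab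

namespace Biv
variable (R : Biv)

/-- invertible classes -/
def Iv {K L : LC} (t : R.Hom K L) : Prop :=
  ∃ t' : R.Hom L K, R.comp t t' = R.J (PMap.id K) ∧ R.comp t' t = R.J (PMap.id L)

/-- A class is invertible iff precomposition with it is bijective for all targets. -/
theorem iv_iff {K L : LC} (t : R.Hom K L) :
    R.Iv t ↔ ∀ M : LC, Function.Bijective (fun x : R.Hom L M => R.comp t x) := by
  constructor
  · rintro ⟨t', h1, h2⟩ M
    refine Function.bijective_iff_has_inverse.2 ⟨fun z => R.comp t' z, fun z => ?_, fun z => ?_⟩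
    · change R.comp t' (R.comp t z) = z
      rw [← R.assoc, h2, R.id_comp]
    · change R.comp t (R.comp t' z) = z
      rw [← R.assoc, h1, R.id_comp]
  · intro h
    obtain ⟨t', ht'⟩ := (h K).2 (R.J (PMap.id K))
    have ht' : R.comp t t' = R.J (PMap.id K) := ht'
    refine ⟨t', ht', (h L).1 ?_⟩
    change R.comp t (R.comp t' t) = R.comp t (R.J (PMap.id L))
    rw [← R.assoc, ht', R.id_comp, R.comp_id]

theorem Iv.tens {K L : LC} {t : R.Hom K L} (h : R.Iv t) (Z : LC) : R.Iv (R.tens t Z) := by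
  obtain ⟨t', h1, h2⟩ := h
  refine ⟨R.tens t' Z, ?_, ?_⟩
  · rw [← R.tens_comp, h1, R.tens_J]
    exact congrArg R.J (PMap.box_id _ _)
  · rw [← R.tens_comp, h2, R.tens_J]
    exact congrArg R.J (PMap.box_id _ _)

theorem Iv.ltens {K L : LC} {t : R.Hom K L} (h : R.Iv t) (Z : LC) :
    R.Iv (R.ltens Z t) := by
  obtain ⟨t', h1, h2⟩ := h
  refine ⟨R.ltens Z t', ?_, ?_⟩
  · rw [← Helper9.Stab.ltens_comp, h1, Helper9.Stab.ltens_id]
  · rw [← Helper9.Stab.ltens_comp, h2, Helper9.Stab.ltens_id]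

theorem Iv.comp {K L M : LC} {t : R.Hom K L} {s : R.Hom L M} (h : R.Iv t)
    (h' : R.Iv s) : R.Iv (R.comp t s) := by
  obtain ⟨t', h1, h2⟩ := h
  obtain ⟨s', h3, h4⟩ := h'
  refine ⟨R.comp s' t', ?_, ?_⟩
  · rw [R.assoc, ← R.assoc s, h3, R.id_comp, h1]
  · rw [R.assoc, ← R.assoc t', h2, R.id_comp, h4]

theorem iv_homeo {K L : LC} (e : K ≃ₜ L) : R.Iv (R.J (PMap.ofHomeo e)) := by
  refine ⟨R.J (PMap.ofHomeo (K := L) (L := K) e.symm), ?_, ?_⟩
  · rw [← R.J_comp, Helper9.Stab.ofHomeo_symm_comp]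
  · rw [← R.J_comp, Helper9.Stab.ofHomeo_comp_symm]

/-- (5L) the five lemma -/
theorem five_lemma {E E' : LC} (u : C(E, ℝ)) (u' : C(E', ℝ)) (t : R.Hom E E')
    (tA : R.Hom (MV.A u) (MV.A u')) (tB : R.Hom (MV.B u) (MV.B u'))
    (tC : R.Hom (MV.C u) (MV.C u'))
    (hA : R.comp (R.J (MV.iA u)) t = R.comp tA (R.J (MV.iA u')))
    (hB : R.comp (R.J (MV.iB u)) t = R.comp tB (R.J (MV.iB u')))
    (hCA : R.comp (R.J (MV.iCA u)) tA = R.comp tC (R.J (MV.iCA u')))
    (hCB : R.comp (R.J (MV.iCB u)) tB = R.comp tC (R.J (MV.iCB u')))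
    (hδ : R.comp t (R.J (MV.delta u')) = R.comp (R.J (MV.delta u)) (R.ltens LC.R tC))
    (iA : R.Iv tA) (iB : R.Iv tB) (iC : R.Iv tC) : R.Iv t := by
  open Helper9.Stab in
  have bA := (R.iv_iff tA).1 iA
  have bB := (R.iv_iff tB).1 iB
  have bC := (R.iv_iff tC).1 iC
  have sA := (R.iv_iff _).1 (iA.ltens R LC.R)
  have sB := (R.iv_iff _).1 (iB.ltens R LC.R)
  have sC := (R.iv_iff _).1 (iC.ltens R LC.R)
  have lCA : R.comp (R.J (PMap.ltens LC.R (MV.iCA u))) (R.ltens LC.R tA) =
      R.comp (R.ltens LC.R tC) (R.J (PMap.ltens LC.R (MV.iCA u'))) := by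
    rw [← ltens_J, ← ltens_J, ← ltens_comp, ← ltens_comp, hCA]
  have lCB : R.comp (R.J (PMap.ltens LC.R (MV.iCB u))) (R.ltens LC.R tB) =
      R.comp (R.ltens LC.R tC) (R.J (PMap.ltens LC.R (MV.iCB u'))) := by
    rw [← ltens_J, ← ltens_J, ← ltens_comp, ← ltens_comp, hCB]
  have hAA : ∀ {M : LC} (x : R.Hom E' M), R.comp (R.J (MV.iA u)) (R.comp t x) =
      R.comp tA (R.comp (R.J (MV.iA u')) x) := fun x => by
    rw [← R.assoc, hA, R.assoc]
  have hBB : ∀ {M : LC} (x : R.Hom E' M), R.comp (R.J (MV.iB u)) (R.comp t x) =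
      R.comp tB (R.comp (R.J (MV.iB u')) x) := fun x => by
    rw [← R.assoc, hB, R.assoc]
  have hCC : ∀ {M : LC} (x : R.Hom E M), R.comp (R.J (MV.iCA u)) (R.comp (R.J (MV.iA u)) x) =
      R.comp (R.J (MV.iCB u)) (R.comp (R.J (MV.iB u)) x) := fun x => by
    have e : (MV.iA u).comp (MV.iCA u) = (MV.iB u).comp (MV.iCB u) := by
      ext k
      rfl
    rw [← R.assoc, ← R.assoc, ← R.J_comp, ← R.J_comp, e]
  refine (R.iv_iff t).2 fun M => ⟨?_, ?_⟩
  · intro x₁ x₂ h12
    have h12 : R.comp t x₁ = R.comp t x₂ := h12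
    rw [← sub_eq_zero]
    have h0 : R.comp t (x₁ - x₂) = 0 := by
      rw [c_sub, h12, sub_self]
    generalize x₁ - x₂ = x at h0
    have h1 : R.comp (R.J (MV.iA u')) x = 0 := (bA M).1 (by
      change R.comp tA _ = R.comp tA 0
      rw [← hAA, h0, c_zero, c_zero])
    have h2 : R.comp (R.J (MV.iB u')) x = 0 := (bB M).1 (by
      change R.comp tB _ = R.comp tB 0
      rw [← hBB, h0, c_zero, c_zero])
    obtain ⟨y, rfl⟩ := R.mv1 u' x h1 h2
    have h3 : R.comp (R.J (MV.delta u)) (R.comp (R.ltens LC.R tC) y) = 0 := by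
      rw [← R.assoc, ← hδ, R.assoc, h0]
    obtain ⟨a, b, hab⟩ := R.mv3 u _ h3
    obtain ⟨a', ha⟩ := (sA M).2 a
    obtain ⟨b', hb⟩ := (sB M).2 b
    have ha : R.comp (R.ltens LC.R tA) a' = a := ha
    have hb : R.comp (R.ltens LC.R tB) b' = b := hb
    have h4 : y = R.comp (R.J (PMap.ltens LC.R (MV.iCA u'))) a' -
        R.comp (R.J (PMap.ltens LC.R (MV.iCB u'))) b' := (sC M).1 (by
      change R.comp (R.ltens LC.R tC) y = R.comp (R.ltens LC.R tC) (_ - _)
      rw [hab, ← ha, ← hb, c_sub, ← R.assoc, ← R.assoc, ← R.assoc, ← R.assoc, lCA, lCB])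
    rw [h4, c_sub, ← R.assoc, ← R.assoc, ← R.J_comp, ← R.J_comp,
      R.J_homotopic (MV.delta_iCA u'), R.J_homotopic (MV.delta_iCB u'), R.J_zero, R.J_zero,
      z_comp, z_comp, sub_self]
  · intro x
    obtain ⟨a', ha⟩ := (bA M).2 (R.comp (R.J (MV.iA u)) x)
    obtain ⟨b', hb⟩ := (bB M).2 (R.comp (R.J (MV.iB u)) x)
    have ha : R.comp tA a' = R.comp (R.J (MV.iA u)) x := ha
    have hb : R.comp tB b' = R.comp (R.J (MV.iB u)) x := hb
    obtain ⟨x', h1, h2⟩ := R.mv2 u' a' b' ((bC M).1 (by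
      change R.comp tC _ = R.comp tC _
      rw [← R.assoc, ← R.assoc, ← hCA, ← hCB, R.assoc, R.assoc, ha, hb, hCC]))
    obtain ⟨y, hy⟩ := R.mv1 u (x - R.comp t x') (by
      rw [c_sub, hAA, h1, ha, sub_self]) (by
      rw [c_sub, hBB, h2, hb, sub_self])
    obtain ⟨y', hy'⟩ := (sC M).2 y
    have hy' : R.comp (R.ltens LC.R tC) y' = y := hy'
    refine ⟨x' + R.comp (R.J (MV.delta u')) y', ?_⟩
    change R.comp t _ = x
    rw [R.comp_add, ← R.assoc, hδ, R.assoc, hy', ← hy]
    abel

end Biv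

/-! ## Split points -/

/-- the complement of a point -/
def LC.minus (K : LC) (p : K) : LC := K.opn {p}ᶜ isOpen_compl_singleton

/-- the collapse onto the complement of a point -/
def LC.coll (K : LC) (p : K) : PMap K (K.minus p).plus := PMap.collapse _ isOpen_compl_singleton

/-- `K = pt ⊕ (K ∖ p)` in the theory `R` -/
structure SplitPt (R : Biv) (K : LC) [CompactSpace K] (p : K) where
  r : R.Hom (K.minus p) K
  r_coll : R.comp r (R.J (K.coll p)) = R.J (PMap.id _)
  coll_r : R.comp (R.J (K.coll p)) r =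
    R.J (PMap.id _) - R.comp (R.J (PMap.toPoint K)) (R.J (PMap.ofPoint p))

/-- (GP) A point with a contractible neighbourhood splits. -/
theorem exists_split (R : Biv) (K : LC) [CompactSpace K] (p : K) (u : C(K, ℝ)) (hp : 1 < u p)
    (hN : ∃ g : PMap (MV.B u) (MV.B u).plus,
      (∀ x, g x = OnePoint.some (X := MV.B u) ⟨p, (zero_lt_one.trans hp).le⟩) ∧
      (PMap.id (MV.B u)).Homotopic g)
    (hB : (PMap.id (MV.B (K := K.minus p)
      (u.comp (⟨Subtype.val, continuous_subtype_val⟩ : C(K.minus p, K))))).Homotopic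
      (PMap.zero _ _)) : Nonempty (SplitPt R K p) := by
  obtain ⟨g, hg, hN⟩ := hN
  have e : g = (Helper9.Stab.pB' p u hp).comp (PMap.toPoint (MV.B u)) := by
    ext x
    exact hg x
  rw [e] at hN
  obtain ⟨σ, h1, h2⟩ := Helper9.Stab.cl_section p u hp R hN hB
  exact ⟨⟨σ, h1, h2⟩⟩

/-- the point `[0 : … : 0 : 1]` of the projective space of `ℂ^S ⊕ ℂ` splits -/
theorem split_none (R : Biv) (S : Type) [Fintype S] :
    Nonempty (SplitPt R (LC.Pr (Option S) 1) (Pr.line none)) :=
  exists_split R (LC.Pr (Option S) 1) (Pr.line none) (Helper89.Stab.spu S)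
    Helper89.Stab.spu_line Helper89.Stab.split_hN Helper89.Stab.split_hB

/-- a choice of the splitting -/
def splitNone (R : Biv) (S : Type) [Fintype S] :
    SplitPt R (LC.Pr (Option S) 1) (Pr.line none) := (split_none R S).some

/-! ## The Thom isomorphism -/

/-- the total space of a line bundle -/
def LC.tot {X : LC} {S : Type} [Fintype S] (l : X → Pr S 1) (hl : Continuous l) : LC :=
  (X.prod (LC.cpow S)).closed {x | (l x.1).1 *ᵥ x.2 = x.2} (isClosed_eq
    ((Pr.continuous_val69.comp (hl.comp continuous_fst)).matrix_mulVec continuous_snd)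
    continuous_snd)

open scoped ComplexOrder in
/-- a vector in a line gives the projection onto the line -/
theorem thomA69 {S : Type} [Fintype S] (l : Pr S 1) (v : S → ℂ) (hv : l.1 *ᵥ v = v) (i j : S) :
    v i * star (v j) = ((∑ s, ‖v s‖ ^ 2 : ℝ) : ℂ) * l.1 i j := by
  obtain ⟨r, hr⟩ : ∃ r : ℂ, r = ((∑ s, ‖v s‖ ^ 2 : ℝ) : ℂ) := ⟨_, rfl⟩
  rw [← hr]
  have hd : star v ⬝ᵥ v = r := by
    rw [hr, Complex.ofReal_sum]
    refine Finset.sum_congr rfl fun s _ => ?_
    rw [Pi.star_apply, Complex.ofReal_pow]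
    exact Complex.conj_mul' _
  have hv2 : star v ᵥ* l.1 = star v := by
    have h := congrArg star hv
    rw [star_mulVec, l.2.1] at h
    exact h
  let W : Matrix S S ℂ := vecMulVec v (star v)
  have hW : Wᴴ = W := by
    rw [conjTranspose_vecMulVec, star_star]
  have hWl : W * l.1 = W := by rw [vecMulVec_mul, hv2]
  have hlW : l.1 * W = W := by rw [mul_vecMulVec, hv]
  have hWW : W * W = r • W := by
    rw [vecMulVec_mul_vecMulVec, hd]
    ext a b
    simp only [W, vecMulVec_apply, Pi.smul_apply, Matrix.smul_apply, smul_eq_mul]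
    ring
  have hrr : star r = r := by
    rw [hr]; exact Complex.conj_ofReal _
  have hQ : (r • l.1 - W)ᴴ = r • l.1 - W := by
    rw [conjTranspose_sub, conjTranspose_smul, l.2.1, hW, hrr]
  have hQQ : (r • l.1 - W) * (r • l.1 - W) = r • (r • l.1 - W) := by
    rw [sub_mul, mul_sub, mul_sub, smul_mul_smul_comm, l.2.2.1, smul_mul_assoc, hlW,
      mul_smul_comm, hWl, hWW, smul_sub, mul_smul]
    abel
  have htW : W.trace = r := by
    rw [trace_vecMulVec, dotProduct_comm]
    exact hd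
  have ht : (r • l.1 - W).trace = 0 := by
    rw [trace_sub, trace_smul, htW, l.2.2.2]
    simp
  have h0 : r • l.1 - W = 0 := by
    rw [← trace_conjTranspose_mul_self_eq_zero_iff, hQ, hQQ, trace_smul, ht, smul_zero]
  have h1 := congrFun (congrFun (sub_eq_zero.1 h0) i) j
  exact h1.symm

theorem thomB69 {S : Type} [Fintype S] (l : Pr S 1) (v : S → ℂ) (hv : l.1 *ᵥ v = v) (c : ℝ)
    (hc : c = 1 + ∑ s, ‖v s‖ ^ 2) (M : Matrix (Option S) (Option S) ℂ)
    (h1 : ∀ i j, M (some i) (some j) = (c : ℂ)⁻¹ * l.1 i j)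
    (h2 : ∀ i, M (some i) none = (c : ℂ)⁻¹ * (- v i))
    (h3 : ∀ j, M none (some j) = (c : ℂ)⁻¹ * (- star (v j)))
    (h4 : M none none = (c : ℂ)⁻¹ * ((∑ s, ‖v s‖ ^ 2 : ℝ) : ℂ)) :
    Mᴴ = M ∧ M * M = M ∧ M.trace = (1 : ℕ) := by
  have hc0 : (c : ℂ) ≠ 0 := by
    have : (0 : ℝ) < c := by rw [hc]; positivity
    exact_mod_cast this.ne'
  have hsc : star ((c : ℂ)⁻¹) = (c : ℂ)⁻¹ := by
    rw [star_inv₀]; congr 1; exact Complex.conj_ofReal _
  have hcr : (c : ℂ) = 1 + ((∑ s, ‖v s‖ ^ 2 : ℝ) : ℂ) := by rw [hc]; push_cast; rfl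
  obtain ⟨r, hr⟩ : ∃ r : ℂ, r = ((∑ s, ‖v s‖ ^ 2 : ℝ) : ℂ) := ⟨_, rfl⟩
  have hrr : star r = r := by
    rw [hr]; exact Complex.conj_ofReal _
  have hlh : ∀ i j, star (l.1 i j) = l.1 j i := fun i j => by
    have h := congrFun (congrFun l.2.1 j) i
    rw [← h, conjTranspose_apply]
  have hlv : ∀ i, ∑ s, l.1 i s * v s = v i := fun i => congrFun hv i
  have hvl : ∀ j, ∑ s, star (v s) * l.1 s j = star (v j) := by
    intro j
    have h := congrArg star (hlv j)
    rw [star_sum] at h
    rw [← h]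
    refine Finset.sum_congr rfl fun s _ => ?_
    rw [star_mul', hlh, mul_comm]
  have hvv : ∑ s, star (v s) * v s = r := by
    rw [hr, Complex.ofReal_sum]
    refine Finset.sum_congr rfl fun s _ => ?_
    rw [Complex.ofReal_pow]
    exact Complex.conj_mul' _
  have hvw : ∀ i j, v i * star (v j) = r * l.1 i j := fun i j => by
    rw [hr]; exact thomA69 l v hv i j
  have hll : ∀ i j, ∑ s, l.1 i s * l.1 s j = l.1 i j := fun i j => by
    have h := congrFun (congrFun l.2.2.1 i) j
    rw [mul_apply] at h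
    exact h
  rw [← hr] at h4 hcr
  refine ⟨?_, ?_, ?_⟩
  · ext i j
    rw [conjTranspose_apply]
    rcases i with _ | i <;> rcases j with _ | j
    · rw [h4, star_mul', hsc, hrr]
    · rw [h2, h3, star_mul', hsc, star_neg]
    · rw [h2, h3, star_mul', hsc, star_neg, star_star]
    · rw [h1, h1, star_mul', hsc, hlh]
  · ext i j
    rw [mul_apply, Fintype.sum_option]
    rcases i with _ | i <;> rcases j with _ | j
    · simp only [h4, h2, h3]
      have : ∀ s, (c : ℂ)⁻¹ * -star (v s) * ((c : ℂ)⁻¹ * -v s) =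
          ((c : ℂ)⁻¹ * (c : ℂ)⁻¹) * (star (v s) * v s) := fun s => by ring
      simp only [this]
      rw [← Finset.mul_sum, hvv]
      field_simp
      rw [hcr]; ring
    · simp only [h4, h3, h1]
      have : ∀ s, (c : ℂ)⁻¹ * -star (v s) * ((c : ℂ)⁻¹ * l.1 s j) =
          -((c : ℂ)⁻¹ * (c : ℂ)⁻¹) * (star (v s) * l.1 s j) := fun s => by ring
      simp only [this]
      rw [← Finset.mul_sum, hvl]
      field_simp
      rw [hcr]; ring
    · simp only [h4, h2, h1]
      have : ∀ s, (c : ℂ)⁻¹ * l.1 i s * ((c : ℂ)⁻¹ * -v s) =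
          -((c : ℂ)⁻¹ * (c : ℂ)⁻¹) * (l.1 i s * v s) := fun s => by ring
      simp only [this]
      rw [← Finset.mul_sum, hlv]
      field_simp
      rw [hcr]; ring
    · simp only [h2, h3, h1]
      have : ∀ s, (c : ℂ)⁻¹ * l.1 i s * ((c : ℂ)⁻¹ * l.1 s j) =
          ((c : ℂ)⁻¹ * (c : ℂ)⁻¹) * (l.1 i s * l.1 s j) := fun s => by ring
      simp only [this]
      rw [← Finset.mul_sum, hll]
      have h5 : (c : ℂ)⁻¹ * -v i * ((c : ℂ)⁻¹ * -star (v j)) =
          ((c : ℂ)⁻¹ * (c : ℂ)⁻¹) * (v i * star (v j)) := by ring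
      rw [h5, hvw]
      field_simp
      rw [hcr]; ring
  · rw [trace, Fintype.sum_option]
    simp only [diag_apply, h4, h1]
    rw [← Finset.mul_sum]
    have h5 : ∑ i, l.1 i i = 1 := by
      have := l.2.2.2
      rw [trace] at this
      simpa using this
    rw [h5]
    push_cast
    field_simp
    rw [hcr]; ring

/-- the line spanned by `(v, -|v|²)` resp. the line `l` if `v = 0`:
`(1 + |v|²)⁻¹ [[l, -v], [-v*, |v|²]]` -/
def thomLine {X : LC} {S : Type} [Fintype S] (l : X → Pr S 1) (hl : Continuous l)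
    (x : LC.tot l hl) : Pr (Option S) 1 :=
  ⟨fun i j => ((1 + ∑ s, ‖x.1.2 s‖ ^ 2 : ℝ) : ℂ)⁻¹ * (match i, j with
    | some i, some j => (l x.1.1).1 i j
    | some i, none => - x.1.2 i
    | none, some j => - star (x.1.2 j)
    | none, none => ((∑ s, ‖x.1.2 s‖ ^ 2 : ℝ) : ℂ)),
    thomB69 (l x.1.1) x.1.2 x.2 _ rfl _ (fun _ _ => rfl) (fun _ => rfl) (fun _ => rfl) rfl⟩

theorem thomLine_ne {X : LC} {S : Type} [Fintype S] (l : X → Pr S 1) (hl : Continuous l)
    (x : LC.tot l hl) : thomLine l hl x ∈ ({Pr.line none}ᶜ : Set (Pr (Option S) 1)) := by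
  intro h
  have h1 : (thomLine l hl x).1 none none = (Pr.line (none : Option S)).1 none none := by
    rw [show thomLine l hl x = Pr.line none from h]
  have h2 : (thomLine l hl x).1 none none =
      ((1 + ∑ s, ‖x.1.2 s‖ ^ 2 : ℝ) : ℂ)⁻¹ * ((∑ s, ‖x.1.2 s‖ ^ 2 : ℝ) : ℂ) := rfl
  have h3 : (Pr.line (none : Option S)).1 none none = 1 := by simp [Pr.line]
  rw [h2, h3] at h1
  have hp : (0 : ℝ) < 1 + ∑ s, ‖x.1.2 s‖ ^ 2 := by positivity
  have hc0 : ((1 + ∑ s, ‖x.1.2 s‖ ^ 2 : ℝ) : ℂ) ≠ 0 := by exact_mod_cast hp.ne'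
  rw [inv_mul_eq_iff_eq_mul₀ hc0, mul_one] at h1
  have h4 : ∑ s, ‖x.1.2 s‖ ^ 2 = 1 + ∑ s, ‖x.1.2 s‖ ^ 2 := by exact_mod_cast h1
  linarith

section
variable {S : Type} [Fintype S]

theorem herm69 (P : Pr (Option S) 1) (i j : Option S) : P.1 j i = star (P.1 i j) := by
  have h := congrFun (congrFun P.2.1 j) i
  rw [← h, conjTranspose_apply]

/-- the last entry of a line different from the last coordinate line -/
theorem ne69 (P : Pr (Option S) 1) (hP : P ≠ Pr.line none) : (1 : ℂ) - P.1 none none ≠ 0 := by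
  intro h0
  apply hP
  have hn : P.1 none none = 1 := (sub_eq_zero.1 h0).symm
  have hcol : ∀ s : Option S, P.1 none s * P.1 s none = ((‖P.1 s none‖ ^ 2 : ℝ) : ℂ) := by
    intro s
    rw [herm69 P s none, Complex.ofReal_pow]
    exact Complex.conj_mul' _
  have h1 : (∑ s, ‖P.1 s none‖ ^ 2 : ℝ) = 1 := by
    have h := congrFun (congrFun P.2.2.1 none) none
    rw [mul_apply, hn] at h
    simp only [hcol] at h
    rw [← Complex.ofReal_sum] at h
    exact_mod_cast h
  have h2 : ∀ s : S, P.1 (some s) none = 0 := by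
    rw [Fintype.sum_option, hn, norm_one, one_pow, add_eq_left,
      Finset.sum_eq_zero_iff_of_nonneg (fun _ _ => by positivity)] at h1
    intro s
    have := h1 s (Finset.mem_univ s)
    exact norm_eq_zero.1 (pow_eq_zero_iff (two_ne_zero)|>.1 this)
  have hv : P.1 *ᵥ (fun s => if s = none then 1 else 0) = (fun s => if s = none then 1 else 0) := by
    ext i
    simp only [mulVec, dotProduct]
    rw [Finset.sum_eq_single none]
    · rcases i with _ | i
      · simp [hn]
      · simp [h2]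
    · intro b _ hb
      rw [if_neg hb, mul_zero]
    · intro h
      exact absurd (Finset.mem_univ _) h
  have h3 := thomA69 P _ hv
  have h4 : (∑ s : Option S, ‖(if s = none then 1 else 0 : ℂ)‖ ^ 2 : ℝ) = 1 := by
    rw [Fintype.sum_option]
    simp
  rw [h4] at h3
  apply Subtype.ext
  ext i j
  have h5 := h3 i j
  rw [Complex.ofReal_one, one_mul] at h5
  rw [← h5]
  rcases i with _ | i <;> rcases j with _ | j <;> simp [Pr.line]

end

theorem thomMap_aux {X : LC} {S : Type} [Fintype S] (l : X → Pr S 1) (hl : Continuous l) :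
    Continuous (fun x : LC.tot l hl => ((x.1.1, ⟨thomLine l hl x, thomLine_ne l hl x⟩) :
      X.prod ((LC.Pr (Option S) 1).minus (Pr.line none)))) ∧
    Tendsto (fun x : LC.tot l hl => ((x.1.1, ⟨thomLine l hl x, thomLine_ne l hl x⟩) :
      X.prod ((LC.Pr (Option S) 1).minus (Pr.line none)))) (cocompact _) (cocompact _) := by
  have c0 : Continuous (fun x : LC.tot l hl => (x.1 : X × (S → ℂ))) := continuous_subtype_val
  have c1 : Continuous (fun x : LC.tot l hl => x.1.1) := continuous_fst.comp c0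
  have c2 : Continuous (fun x : LC.tot l hl => x.1.2) := continuous_snd.comp c0
  have c3 : ∀ s, Continuous (fun x : LC.tot l hl => x.1.2 s) := fun s =>
    (continuous_apply s).comp c2
  have c4 : Continuous (fun x : LC.tot l hl => (∑ s, ‖x.1.2 s‖ ^ 2 : ℝ)) :=
    continuous_finsetSum _ fun s _ => (c3 s).norm.pow 2
  have c5 : Continuous (fun x : LC.tot l hl => ((1 + ∑ s, ‖x.1.2 s‖ ^ 2 : ℝ) : ℂ)⁻¹) := by
    refine Continuous.inv₀ (Complex.continuous_ofReal.comp (continuous_const.add c4)) fun x => ?_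
    have hp : (0 : ℝ) < 1 + ∑ s, ‖x.1.2 s‖ ^ 2 := by positivity
    exact_mod_cast hp.ne'
  have c6 : Continuous (fun x : LC.tot l hl => thomLine l hl x) := by
    refine Continuous.subtype_mk (continuous_matrix fun i j => c5.mul ?_) _
    rcases i with _ | i <;> rcases j with _ | j
    · exact Complex.continuous_ofReal.comp c4
    · exact (c3 j).star.neg
    · exact (c3 i).neg
    · exact (Pr.continuous_val69.comp (hl.comp c1)).matrix_elem i j
  refine ⟨c1.prodMk (Continuous.subtype_mk c6 _), ?_⟩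
  have d1 : Continuous fun P : (LC.Pr (Option S) 1).minus (Pr.line none) =>
      (P.1 : Pr (Option S) 1) := continuous_subtype_val
        (p := fun P : Pr (Option S) 1 => P ∈ ({Pr.line none}ᶜ : Set (Pr (Option S) 1)))
  have d2 : ∀ i j, Continuous fun P : (LC.Pr (Option S) 1).minus (Pr.line none) =>
      P.1.1 i j := fun i j => (Pr.continuous_val69.comp d1).matrix_elem i j
  have d3 : Continuous fun P : (LC.Pr (Option S) 1).minus (Pr.line none) =>
      (fun s : S => - P.1.1 (some s) none / (1 - P.1.1 none none)) :=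
    continuous_pi fun s => (d2 (some s) none).neg.div (continuous_const.sub (d2 none none))
      fun P => ne69 P.1 P.2
  refine MV.proper_aux (Z := X × (S → ℂ)) (g := fun y => (y.1, fun s : S =>
    - y.2.1.1 (some s) none / (1 - y.2.1.1 none none))) (continuous_fst.prodMk
      (d3.comp continuous_snd)) ?_
  have h : ((fun y : X.prod ((LC.Pr (Option S) 1).minus (Pr.line none)) => ((y.1, fun s : S =>
      - y.2.1.1 (some s) none / (1 - y.2.1.1 none none)) : X × (S → ℂ))) ∘
      fun x : LC.tot l hl => ((x.1.1, ⟨thomLine l hl x, thomLine_ne l hl x⟩) :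
      X.prod ((LC.Pr (Option S) 1).minus (Pr.line none)))) =
      fun x : LC.tot l hl => (x.1 : X × (S → ℂ)) := by
    funext x
    refine Prod.ext rfl (funext fun s => ?_)
    have hp : (0 : ℝ) < 1 + ∑ s, ‖x.1.2 s‖ ^ 2 := by positivity
    have hc0 : ((1 + ∑ s, ‖x.1.2 s‖ ^ 2 : ℝ) : ℂ) ≠ 0 := by exact_mod_cast hp.ne'
    change - (((1 + ∑ s, ‖x.1.2 s‖ ^ 2 : ℝ) : ℂ)⁻¹ * (- x.1.2 s)) /
      (1 - ((1 + ∑ s, ‖x.1.2 s‖ ^ 2 : ℝ) : ℂ)⁻¹ * ((∑ s, ‖x.1.2 s‖ ^ 2 : ℝ) : ℂ)) = x.1.2 s
    have h1 : (1 - ((1 + ∑ s, ‖x.1.2 s‖ ^ 2 : ℝ) : ℂ)⁻¹ * ((∑ s, ‖x.1.2 s‖ ^ 2 : ℝ) : ℂ)) =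
        ((1 + ∑ s, ‖x.1.2 s‖ ^ 2 : ℝ) : ℂ)⁻¹ := by
      have h2 : ((1 + ∑ s, ‖x.1.2 s‖ ^ 2 : ℝ) : ℂ) = 1 + ((∑ s, ‖x.1.2 s‖ ^ 2 : ℝ) : ℂ) := by
        push_cast
        rfl
      rw [sub_eq_iff_eq_add, ← mul_one_add, ← h2, inv_mul_cancel₀ hc0]
    rw [h1, div_eq_iff (inv_ne_zero hc0)]
    ring
  rw [h]
  exact (isClosed_eq
    ((Pr.continuous_val69.comp (hl.comp continuous_fst)).matrix_mulVec continuous_snd)
    continuous_snd : IsClosed {x : X × (S → ℂ) | (l x.1).1 *ᵥ x.2 = x.2}
    ).isClosedEmbedding_subtypeVal.tendsto_cocompact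

/-- the proper map `D(l) → X × (ℂP^S ∖ pt)` -/
def thomMap {X : LC} {S : Type} [Fintype S] (l : X → Pr S 1) (hl : Continuous l) :
    PMap (LC.tot l hl) (X.prod ((LC.Pr (Option S) 1).minus (Pr.line none))).plus :=
  PMap.ofProper (K := LC.tot l hl) (L := X.prod ((LC.Pr (Option S) 1).minus (Pr.line none)))
    _ (thomMap_aux l hl).1 (thomMap_aux l hl).2

namespace Orient
variable {R : Biv} (o : Orient R)

/-- the reduced orientation class `ℂP^S ∖ pt → ℂ` -/
def ured (S : Type) [Fintype S] : R.Hom ((LC.Pr (Option S) 1).minus (Pr.line none)) LC.C :=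
  R.comp (splitNone R S).r (o.u (Option S))

/-- the Thom class `D(l) → X × ℂ` -/
def thom {X : LC} {S : Type} [Fintype S] (l : X → Pr S 1) (hl : Continuous l) :
    R.Hom (LC.tot l hl) (X.prod LC.C) :=
  R.comp (R.J (thomMap l hl)) (R.ltens X (o.ured S))

end Orient

/-! ### The proof of the Thom isomorphism -/

namespace ThL

open Pool.Agent.Helper39.Stab

/-! ### Reduction at a point -/

/-- the restriction of a map that is trivial at a point to the complement of the point -/
def red {K : LC} [CompactSpace K] {Y : PT} (p : K) (g : PMap K Y) (h : g p = Y.pt) :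
    PMap (K.minus p) Y :=
  PMap.ofEmb (K := K.minus p) (P := K) (fun x => x.1) IsEmbedding.subtypeVal g g.cont (by
    intro q hq
    have hqp : q = p := by
      by_contra hne
      exact hq ⟨⟨q, hne⟩, rfl⟩
    rw [hqp]
    exact h)

theorem red_coll {K : LC} [CompactSpace K] {Y : PT} (p : K) (g : PMap K Y) (h : g p = Y.pt) :
    (red p g h).comp (K.coll p) = g := by
  ext k
  change (red p g h).plus (collapseFun {p}ᶜ k) = g k
  by_cases hk : k ∈ ({p}ᶜ : Set K)
  · rw [show collapseFun ({p}ᶜ : Set K) k = _ from collapseFun_of_mem ⟨k, hk⟩]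
    rfl
  · rw [collapseFun_of_notMem hk]
    have hkp : k = p := by simpa using hk
    rw [hkp, h]
    rfl

theorem r_J {R : Biv} {K L : LC} [CompactSpace K] {p : K} (sp : SplitPt R K p)
    (g : PMap K L.plus) (h : g p = L.plus.pt) : R.comp sp.r (R.J g) = R.J (red p g h) := by
  have h1 : R.J g = R.comp (R.J (K.coll p)) (R.J (red p g h)) := by
    rw [← R.J_comp, red_coll]
  rw [h1, ← R.assoc, sp.r_coll, R.id_comp]

/-! ### The reduced class -/

section
variable {R : Biv} (o : Orient R)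

theorem comp_zero' {K L M : LC} (x : R.Hom K L) : R.comp x (0 : R.Hom L M) = 0 := by
  have h := R.comp_add x (0 : R.Hom L M) 0
  rw [add_zero] at h
  exact left_eq_add.1 h

theorem sub_comp' {K L M : LC} (x x' : R.Hom K L) (y : R.Hom L M) :
    R.comp (x - x') y = R.comp x y - R.comp x' y := by
  have h := R.add_comp (x - x') x' y
  rw [sub_add_cancel] at h
  exact eq_sub_of_add_eq h.symm

theorem ofPoint_u (S : Type) [Fintype S] :
    R.comp (R.J (PMap.ofPoint (K := LC.Pr (Option S) 1) (Pr.line none))) (o.u (Option S)) =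
      0 := by
  let j : Unit ↪ Option S := ⟨fun _ => none, fun _ _ _ => rfl⟩
  have h1 : PMap.ofPoint (K := LC.Pr (Option S) 1) (Pr.line none) =
      (Pr.extM j 1).comp (PMap.ofPoint (K := LC.Pr Unit 1) (Pr.line ())) := by
    ext k
    change ((Pr.line none : Pr (Option S) 1) : OnePoint (Pr (Option S) 1)) =
      ((Pr.ext j (Pr.line ()) : Pr (Option S) 1) : OnePoint (Pr (Option S) 1))
    rw [ext_line]
    rfl
  rw [h1, R.J_comp, R.assoc, o.u_ext, o.u_unit, comp_zero']

theorem coll_ured (S : Type) [Fintype S] :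
    R.comp (R.J ((LC.Pr (Option S) 1).coll (Pr.line none))) (o.ured S) = o.u (Option S) := by
  unfold Orient.ured
  rw [← R.assoc, (splitNone R S).coll_r, sub_comp', R.id_comp, R.assoc, ofPoint_u, comp_zero',
    sub_zero]

theorem extR_aux {S S' : Type} [Fintype S] [Fintype S'] (j : S ↪ S') :
    (((LC.Pr (Option S') 1).coll (Pr.line none)).comp (Pr.extM j.optionMap 1)) (Pr.line none) =
      OnePoint.infty := by
  change collapseFun ({Pr.line none}ᶜ : Set (Pr (Option S') 1))
    (Pr.ext j.optionMap (Pr.line none)) = OnePoint.infty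
  apply collapseFun_of_notMem
  rw [ext_line]
  simp

/-- extension by zero on the complements of the points -/
def extR {S S' : Type} [Fintype S] [Fintype S'] (j : S ↪ S') :
    PMap ((LC.Pr (Option S) 1).minus (Pr.line none))
      ((LC.Pr (Option S') 1).minus (Pr.line none)).plus :=
  red _ (((LC.Pr (Option S') 1).coll (Pr.line none)).comp (Pr.extM j.optionMap 1)) (extR_aux j)

theorem ured_ext {S S' : Type} [Fintype S] [Fintype S'] (j : S ↪ S') :
    R.comp (R.J (extR j)) (o.ured S') = o.ured S := by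
  rw [extR, ← r_J (splitNone R S), R.J_comp, R.assoc, R.assoc, coll_ured, o.u_ext]
  rfl

/-- the embedding of `Option Unit` in `Bool` -/
def jb : Option Unit ↪ Bool :=
  ⟨fun x => x.isNone, fun x y h => by cases x <;> cases y <;> simp_all⟩

theorem kap_aux : (collP1.comp (Pr.extM jb 1)) (Pr.line none) = OnePoint.infty := by
  change collP1Fun (Pr.ext jb (Pr.line none)) = OnePoint.infty
  unfold collP1Fun
  rw [if_pos]
  have h := ext_apply jb (Pr.line (none : Option Unit)) (some ()) (some ())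
  refine h.trans ?_
  rw [line_apply]
  simp

/-- the coordinate on the complement of the point of the projective line -/
def kap : PMap ((LC.Pr (Option Unit) 1).minus (Pr.line none)) LC.C.plus :=
  red _ (collP1.comp (Pr.extM jb 1)) kap_aux

theorem ured_unit : o.ured Unit = R.J kap := by
  rw [kap, ← r_J (splitNone R Unit), R.J_comp, ← o.u_bool, o.u_ext]
  rfl

end

section
variable {X : LC} {S : Type} [Fintype S] (e : X → S → ℂ) (he : ∀ x, ∑ s, ‖e x s‖ ^ 2 = 1)

theorem continuous_lineOf (hc : Continuous e) : Continuous fun x => lineOf (e x) (he x) := by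
  refine Continuous.subtype_mk ?_ _
  refine continuous_matrix fun i j => ?_
  exact ((continuous_apply i).comp hc).mul ((continuous_apply j).comp hc).star

/-- the trivialisation of the line bundle of a family of unit vectors -/
def triv (hc : Continuous e) : X.prod LC.C ≃ₜ LC.tot _ (continuous_lineOf e he hc) where
  toFun x := ⟨(x.1, fun s => x.2 * e x.1 s), by
    change (lineOf (e x.1) (he x.1)).1 *ᵥ (fun s => x.2 * e x.1 s) = fun s => x.2 * e x.1 s
    ext i
    change ∑ j, e x.1 i * star (e x.1 j) * (x.2 * e x.1 j) = x.2 * e x.1 i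
    have h : ∀ j, e x.1 i * star (e x.1 j) * (x.2 * e x.1 j) =
        (star (e x.1 j) * e x.1 j) * (x.2 * e x.1 i) := fun j => by ring
    rw [Finset.sum_congr rfl fun j _ => h j, ← Finset.sum_mul, unit_sum (he x.1), one_mul]⟩
  invFun x := (x.1.1, ∑ s, star (e x.1.1 s) * x.1.2 s)
  left_inv x := by
    refine Prod.ext rfl ?_
    change ∑ s, star (e x.1 s) * (x.2 * e x.1 s) = x.2
    have h : ∀ s, star (e x.1 s) * (x.2 * e x.1 s) = (star (e x.1 s) * e x.1 s) * x.2 :=
      fun s => by ring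
    rw [Finset.sum_congr rfl fun s _ => h s, ← Finset.sum_mul, unit_sum (he x.1), one_mul]
  right_inv x := by
    apply Subtype.ext
    refine Prod.ext rfl ?_
    have h : (lineOf (e x.1.1) (he x.1.1)).1 *ᵥ x.1.2 = x.1.2 := x.2
    ext i
    have h2 := congrFun h i
    change ∑ j, e x.1.1 i * star (e x.1.1 j) * x.1.2 j = x.1.2 i at h2
    change (∑ s, star (e x.1.1 s) * x.1.2 s) * e x.1.1 i = x.1.2 i
    rw [← h2, Finset.sum_mul]
    exact Finset.sum_congr rfl fun j _ => by ring
  continuous_toFun := by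
    refine Continuous.subtype_mk ?_ _
    refine continuous_fst.prodMk (continuous_pi fun s => ?_)
    exact continuous_snd.mul ((continuous_apply s).comp (hc.comp continuous_fst))
  continuous_invFun := by
    have h1 : Continuous fun x : LC.tot _ (continuous_lineOf e he hc) => x.1.1 :=
      continuous_fst.comp continuous_subtype_val
    have h2 : Continuous fun x : LC.tot _ (continuous_lineOf e he hc) => x.1.2 :=
      continuous_snd.comp continuous_subtype_val
    refine h1.prodMk (continuous_finsetSum _ fun s _ => ?_)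
    exact ((continuous_apply s).comp (hc.comp h1)).star.mul ((continuous_apply s).comp h2)

/-- the Thom map of a family of unit vectors -/
def Tm (hc : Continuous e) : PMap (X.prod LC.C)
    (X.prod ((LC.Pr (Option S) 1).minus (Pr.line none))).plus :=
  (thomMap _ (continuous_lineOf e he hc)).comp (PMap.ofHomeo (triv e he hc))

/-- the point of the Thom map -/
def Tpt (hc : Continuous e) (x : X.prod LC.C) : (LC.Pr (Option S) 1).minus (Pr.line none) :=
  ⟨thomLine _ (continuous_lineOf e he hc) (triv e he hc x), thomLine_ne _ _ _⟩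

theorem Tm_apply (hc : Continuous e) (x : X.prod LC.C) : Tm e he hc x =
    (((x.1, Tpt e he hc x) : X.prod ((LC.Pr (Option S) 1).minus (Pr.line none))) :
      OnePoint (X.prod ((LC.Pr (Option S) 1).minus (Pr.line none)))) := rfl

/-- the matrix of the point of the Thom map -/
def Lm (e : S → ℂ) (z : ℂ) : Matrix (Option S) (Option S) ℂ := fun i j =>
  ((1 + ‖z‖ ^ 2 : ℝ) : ℂ)⁻¹ * (match i, j with
    | some i, some j => e i * star (e j)
    | some i, none => -(z * e i)
    | none, some j => - star (z * e j)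
    | none, none => ((‖z‖ ^ 2 : ℝ) : ℂ))

theorem Tpt_val (hc : Continuous e) (x : X.prod LC.C) :
    (Tpt e he hc x).1.1 = Lm (e x.1) x.2 := by
  have h : ∑ s, ‖x.2 * e x.1 s‖ ^ 2 = ‖x.2‖ ^ 2 := norm_sum (he x.1) x.2
  ext i j
  change ((1 + ∑ s, ‖x.2 * e x.1 s‖ ^ 2 : ℝ) : ℂ)⁻¹ * (match i, j with
    | some i, some j => e x.1 i * star (e x.1 j)
    | some i, none => - (x.2 * e x.1 i)
    | none, some j => - star (x.2 * e x.1 j)
    | none, none => ((∑ s, ‖x.2 * e x.1 s‖ ^ 2 : ℝ) : ℂ)) = _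
  rw [h]
  rfl

/-- the class of a family of unit vectors -/
def TT {R : Biv} (o : Orient R) (hc : Continuous e) : R.Hom (X.prod LC.C) (X.prod LC.C) :=
  R.comp (R.J (Tm e he hc)) (R.ltens X (o.ured S))

/-- (B) extension by zero -/
theorem TT_ext {R : Biv} (o : Orient R) (hc : Continuous e) {S' : Type} [Fintype S']
    (j : S ↪ S') (e' : X → S' → ℂ) (he' : ∀ x, ∑ s, ‖e' x s‖ ^ 2 = 1) (hc' : Continuous e')
    (h1 : ∀ x s, e' x (j s) = e x s) (h2 : ∀ x s', (∀ s, j s ≠ s') → e' x s' = 0) :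
    TT e he o hc = TT e' he' o hc' := by
  have key : (PMap.ltens X (extR j)).comp (Tm e he hc) = Tm e' he' hc' := by
    ext x
    have h3 : Pr.ext j.optionMap (Tpt e he hc x).1 = (Tpt e' he' hc' x).1 := by
      apply Subtype.ext
      rw [Tpt_val]
      have hval := Tpt_val e he hc x
      ext a b
      have h4 : ∀ a : Option S', (∃ c, j.optionMap c = a) ∨
          ∃ s', a = some s' ∧ ∀ s, j s ≠ s' := by
        intro a
        cases a with
        | none => exact Or.inl ⟨none, rfl⟩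
        | some s' =>
          by_cases hs : ∃ s, j s = s'
          · obtain ⟨s, rfl⟩ := hs
            exact Or.inl ⟨some s, rfl⟩
          · exact Or.inr ⟨s', rfl, fun s hs' => hs ⟨s, hs'⟩⟩
      rcases h4 a with ⟨c, rfl⟩ | ⟨s', rfl, hs'⟩
      · rcases h4 b with ⟨d, rfl⟩ | ⟨s', rfl, hs'⟩
        · rw [ext_apply, hval]
          cases c <;> cases d <;> simp [Lm, h1]
        · rw [ext_zero]
          · cases c <;> simp [Lm, h2 _ _ hs']
          · rintro ⟨-, d, hd⟩
            cases d with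
            | none => simp at hd
            | some d => exact hs' d (by simpa using hd)
      · rw [ext_zero]
        · cases b <;> simp [Lm, h2 _ _ hs']
        · rintro ⟨⟨d, hd⟩, -⟩
          cases d with
          | none => simp at hd
          | some d => exact hs' d (by simpa using hd)
    change (PMap.ltens X (extR j)).plus ((((x.1, Tpt e he hc x) :
      X.prod ((LC.Pr (Option S) 1).minus (Pr.line none))) :
      OnePoint (X.prod ((LC.Pr (Option S) 1).minus (Pr.line none))))) = _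
    rw [Tm_apply]
    change smashPt X ((LC.Pr (Option S') 1).minus (Pr.line none)) ((x.1 : OnePoint X),
      collapseFun ({Pr.line none}ᶜ : Set (Pr (Option S') 1))
        (Pr.ext j.optionMap (Tpt e he hc x).1)) = _
    rw [h3]
    rw [show collapseFun ({Pr.line none}ᶜ : Set (Pr (Option S') 1)) (Tpt e' he' hc' x).1 =
      ((Tpt e' he' hc' x : (LC.Pr (Option S') 1).minus (Pr.line none)) :
        OnePoint ((LC.Pr (Option S') 1).minus (Pr.line none))) from
        collapseFun_of_mem (Tpt e' he' hc' x)]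
    rfl
  unfold TT
  rw [← key, R.J_comp, R.assoc, ← ltens_J, ← ltens_comp, ured_ext]

/-- (A) homotopy -/
theorem TT_homotopy {R : Biv} (o : Orient R) (H : LC.prod LC.I X → S → ℂ)
    (hH : ∀ x, ∑ s, ‖H x s‖ ^ 2 = 1) (hHc : Continuous H) (hc0 : Continuous fun x => H (0, x))
    (hc1 : Continuous fun x => H (1, x)) :
    TT (fun x => H (0, x)) (fun x => hH (0, x)) o hc0 =
      TT (fun x => H (1, x)) (fun x => hH (1, x)) o hc1 := by
  have key : (Tm (fun x => H (0, x)) (fun x => hH (0, x)) hc0).Homotopic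
      (Tm (fun x => H (1, x)) (fun x => hH (1, x)) hc1) := by
    refine ⟨((PMap.prI X).tens _).comp ((Tm H hH hHc).comp
      (PMap.ofHomeo (Homeomorph.prodAssoc LC.I X LC.C).symm)), fun x => ?_, fun x => ?_⟩
    · rw [Tm_apply]
      change ((PMap.prI X).tens ((LC.Pr (Option S) 1).minus (Pr.line none))).plus
        (((((0 : LC.I), x.1), Tpt H hH hHc ((0, x.1), x.2)) :
          (LC.I.prod X).prod ((LC.Pr (Option S) 1).minus (Pr.line none))) :
            OnePoint ((LC.I.prod X).prod ((LC.Pr (Option S) 1).minus (Pr.line none)))) = _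
      have h : Tpt H hH hHc ((0, x.1), x.2) =
          Tpt (fun x => H (0, x)) (fun x => hH (0, x)) hc0 x := by
        apply Subtype.ext
        apply Subtype.ext
        rw [Tpt_val, Tpt_val]
      rw [h]
      rfl
    · rw [Tm_apply]
      change ((PMap.prI X).tens ((LC.Pr (Option S) 1).minus (Pr.line none))).plus
        (((((1 : LC.I), x.1), Tpt H hH hHc ((1, x.1), x.2)) :
          (LC.I.prod X).prod ((LC.Pr (Option S) 1).minus (Pr.line none))) :
            OnePoint ((LC.I.prod X).prod ((LC.Pr (Option S) 1).minus (Pr.line none)))) = _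
      have h : Tpt H hH hHc ((1, x.1), x.2) =
          Tpt (fun x => H (1, x)) (fun x => hH (1, x)) hc1 x := by
        apply Subtype.ext
        apply Subtype.ext
        rw [Tpt_val, Tpt_val]
      rw [h]
      rfl
  unfold TT
  rw [R.J_homotopic key]

end

/-- (C) the trivial case -/
theorem TT_unit {R : Biv} (o : Orient R) (X : LC) :
    TT (X := X) (fun _ (_ : Unit) => (1 : ℂ)) (by simp) o continuous_const =
      R.J (PMap.ofHomeo (K := X.prod LC.C) (L := X.prod LC.C)
        ((Homeomorph.refl X).prodCongr negconj)) := by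
  unfold TT
  rw [ured_unit, ltens_J, ← R.J_comp]
  congr 1
  ext x
  change (PMap.ltens X kap).plus (Tm _ _ _ x) = _
  rw [Tm_apply]
  set P := Tpt (X := X) (fun _ (_ : Unit) => (1 : ℂ)) (by simp) continuous_const x with hP
  change smashPt X LC.C ((x.1 : OnePoint X), collP1Fun (Pr.ext jb P.1)) = _
  have hval : P.1.1 = Lm (fun _ : Unit => (1 : ℂ)) x.2 := Tpt_val _ _ _ _
  have h1 : (Pr.ext jb P.1).1 false false = ((1 + ‖x.2‖ ^ 2 : ℝ) : ℂ)⁻¹ := by
    have h := ext_apply jb P.1 (some ()) (some ())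
    refine h.trans ?_
    rw [hval]
    simp [Lm]
  have h2 : (Pr.ext jb P.1).1 true false = ((1 + ‖x.2‖ ^ 2 : ℝ) : ℂ)⁻¹ * (-star x.2) := by
    have h := ext_apply jb P.1 none (some ())
    refine h.trans ?_
    rw [hval]
    simp [Lm]
  have h3 : ((1 + ‖x.2‖ ^ 2 : ℝ) : ℂ)⁻¹ ≠ 0 := by
    apply inv_ne_zero
    rw [Complex.ofReal_ne_zero]
    positivity
  unfold collP1Fun
  rw [h1, h2, if_neg h3, mul_div_cancel_left₀ _ h3]
  rfl

/-- the classes of all families of unit vectors agree -/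
theorem TT_eq {R : Biv} (o : Orient R) {X : LC} {S : Type} [Fintype S] (e : X → S → ℂ)
    (he : ∀ x, ∑ s, ‖e x s‖ ^ 2 = 1) (hc : Continuous e) :
    TT e he o hc = R.J (PMap.ofHomeo (K := X.prod LC.C) (L := X.prod LC.C)
      ((Homeomorph.refl X).prodCongr negconj)) := by
  rw [← TT_unit o X]
  -- the rotation
  let H : LC.prod LC.I X → (S ⊕ Unit) → ℂ := fun x s => Sum.elim
    (fun s => ((Real.cos (Real.pi / 2 * (x.1 : ℝ)) : ℝ) : ℂ) * e x.2 s)
    (fun _ => ((Real.sin (Real.pi / 2 * (x.1 : ℝ)) : ℝ) : ℂ)) s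
  have hH : ∀ x, ∑ s, ‖H x s‖ ^ 2 = 1 := by
    intro x
    rw [Fintype.sum_sum_type]
    simp only [H, Sum.elim_inl, Sum.elim_inr]
    rw [norm_sum (he x.2)]
    simp only [Complex.norm_real, Real.norm_eq_abs, sq_abs, Finset.univ_unique,
      Finset.sum_singleton]
    exact Real.cos_sq_add_sin_sq _
  have hHc : Continuous H := by
    refine continuous_pi fun s => ?_
    have h1 : Continuous fun x : unitInterval × X => (x.1 : ℝ) :=
      continuous_subtype_val.comp continuous_fst
    cases s with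
    | inl s =>
      exact (Complex.continuous_ofReal.comp (Real.continuous_cos.comp
        (continuous_const.mul h1))).mul ((continuous_apply s).comp (hc.comp continuous_snd))
    | inr s =>
      exact Complex.continuous_ofReal.comp (Real.continuous_sin.comp (continuous_const.mul h1))
  have hc0 : Continuous fun x : X => H (0, x) :=
    hHc.comp (continuous_const.prodMk continuous_id)
  have hc1 : Continuous fun x : X => H (1, x) :=
    hHc.comp (continuous_const.prodMk continuous_id)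
  have e0 : TT e he o hc = TT (fun x => H (0, x)) (fun x => hH (0, x)) o hc0 := by
    apply TT_ext e he o hc ⟨Sum.inl, Sum.inl_injective⟩
    · intro x s
      simp [H]
    · intro x s' hs'
      cases s' with
      | inl s => exact absurd rfl (hs' s)
      | inr s => simp [H]
  have e1 : TT (X := X) (fun _ (_ : Unit) => (1 : ℂ)) (by simp) o continuous_const =
      TT (fun x => H (1, x)) (fun x => hH (1, x)) o hc1 := by
    apply TT_ext (X := X) (fun _ (_ : Unit) => (1 : ℂ)) (by simp) o continuous_const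
      ⟨Sum.inr, Sum.inr_injective⟩
    · intro x s
      simp [H]
    · intro x s' hs'
      cases s' with
      | inl s => simp [H]
      | inr s => exact absurd rfl (hs' s)
  rw [e0, e1]
  exact TT_homotopy o H hH hHc hc0 hc1

theorem triv_iv {R : Biv} (o : Orient R) {X : LC} {S : Type} [Fintype S] {l : X → Pr S 1}
    (hl : Continuous l) (e : X → S → ℂ) (he : ∀ x, ∑ s, ‖e x s‖ ^ 2 = 1) (hc : Continuous e)
    (h : l = fun x => lineOf (e x) (he x)) : R.Iv (o.thom l hl) := by
  subst h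
  have h1 : o.thom _ hl = R.comp (R.J (PMap.ofHomeo (triv e he hc).symm)) (TT e he o hc) := by
    unfold TT Orient.thom
    rw [← R.assoc, ← R.J_comp]
    congr 2
    ext x
    change thomMap _ _ x = (Tm e he hc) ((triv e he hc).symm x)
    change _ = thomMap _ _ (triv e he hc ((triv e he hc).symm x))
    rw [Homeomorph.apply_symm_apply]
  rw [h1, TT_eq]
  exact (Biv.iv_homeo R _).comp R (Biv.iv_homeo R _)

theorem pos_iv {R : Biv} (o : Orient R) {X : LC} {S : Type} [Fintype S] {l : X → Pr S 1}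
    (hl : Continuous l) (s : S) (hpos : ∀ x, 0 < ((l x).1 s s).re) : R.Iv (o.thom l hl) := by
  have hlc : ∀ i j, Continuous fun x => (l x).1 i j := fun i j =>
    ((continuous_apply j).comp ((continuous_apply i).comp
      (continuous_subtype_val.comp hl)))
  have hre : Continuous fun x => ((l x).1 s s).re := Complex.continuous_re.comp (hlc s s)
  have hconj : ∀ x a b, star ((l x).1 a b) = (l x).1 b a := fun x a b => by
    have := congrFun (congrFun (l x).2.1 b) a
    rwa [Matrix.conjTranspose_apply] at this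
  have hsq : ∀ x, ((Real.sqrt ((l x).1 s s).re : ℝ) : ℂ) ^ 2 = (l x).1 s s := fun x => by
    rw [← Complex.ofReal_pow, Real.sq_sqrt (hpos x).le, ← diag_real]
  have hne : ∀ x, ((Real.sqrt ((l x).1 s s).re : ℝ) : ℂ) ≠ 0 := fun x => by
    rw [Complex.ofReal_ne_zero]
    exact (Real.sqrt_pos.2 (hpos x)).ne'
  let e : X → S → ℂ := fun x i => (l x).1 i s / ((Real.sqrt ((l x).1 s s).re : ℝ) : ℂ)
  have hc : Continuous e := continuous_pi fun i => (hlc i s).div
    (Complex.continuous_ofReal.comp (Real.continuous_sqrt.comp hre)) hne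
  have hee : ∀ x i j, e x i * star (e x j) = (l x).1 i j := by
    intro x i j
    have h1 := rank_one (l x) i j s
    have h2 : star (e x j) = (l x).1 s j / ((Real.sqrt ((l x).1 s s).re : ℝ) : ℂ) := by
      simp only [e]
      rw [star_div₀, hconj, Complex.star_def, Complex.conj_ofReal]
    rw [h2]
    simp only [e]
    rw [div_mul_div_comm, h1, ← pow_two, hsq, mul_div_cancel_left₀]
    rw [← hsq x]
    exact pow_ne_zero 2 (hne x)
  have he : ∀ x, ∑ i, ‖e x i‖ ^ 2 = 1 := by
    intro x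
    have h1 : ∑ i, e x i * star (e x i) = 1 := by
      rw [Finset.sum_congr rfl fun i _ => hee x i i]
      have := (l x).2.2.2
      rw [Matrix.trace] at this
      simpa using this
    have h2 : ∀ i, e x i * star (e x i) = ((‖e x i‖ ^ 2 : ℝ) : ℂ) := fun i => by
      rw [Complex.star_def, Complex.mul_conj, Complex.normSq_eq_norm_sq]
    rw [Finset.sum_congr rfl fun i _ => h2 i, ← Complex.ofReal_sum] at h1
    exact_mod_cast h1
  refine triv_iv o hl e he hc (funext fun x => ?_)
  apply Subtype.ext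
  ext i j
  exact (hee x i j).symm

/-! ### Mayer–Vietoris -/

section MVs

variable {R : Biv} (o : Orient R) {S : Type} [Fintype S]

/-- the class given by a map to `X × (ℂP ∖ pt)` -/
def Tc {K X : LC} (a : PMap K (X.prod ((LC.Pr (Option S) 1).minus (Pr.line none))).plus) :
    R.Hom K (X.prod LC.C) := R.comp (R.J a) (R.ltens X (o.ured S))

/-- (N) naturality -/
theorem Tc_natural {D D' X X' : LC}
    (a : PMap D (X.prod ((LC.Pr (Option S) 1).minus (Pr.line none))).plus)
    (a' : PMap D' (X'.prod ((LC.Pr (Option S) 1).minus (Pr.line none))).plus)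
    (φ : PMap X X'.plus) (ψ : PMap D D'.plus)
    (h : a'.comp ψ = (φ.tens ((LC.Pr (Option S) 1).minus (Pr.line none))).comp a) :
    R.comp (R.J ψ) (Tc o a') = R.comp (Tc o a) (R.J (φ.tens LC.C)) := by
  unfold Tc
  rw [← R.assoc, ← R.J_comp, h, R.J_comp, R.assoc, ltens_exch, R.assoc]

variable {X : LC} {l : X → Pr S 1} (hl : Continuous l)

/-- the part of the total space over a closed set -/
def DZ (Z : Set X) (hZ : IsClosed Z) : LC :=
  (LC.tot l hl).closed {k | k.1.1 ∈ Z}
    (hZ.preimage (continuous_fst.comp continuous_subtype_val))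

theorem hlZ (hl : Continuous l) (Z : Set X) (hZ : IsClosed Z) :
    Continuous fun x : X.closed Z hZ => l x.1 := hl.comp continuous_subtype_val

/-- restriction of the total space -/
def hZt (Z : Set X) (hZ : IsClosed Z) :
    DZ hl Z hZ ≃ₜ LC.tot (X := X.closed Z hZ) (fun x => l x.1) (hlZ hl Z hZ) where
  toFun k := ⟨(⟨k.1.1.1, k.2⟩, k.1.1.2), k.1.2⟩
  invFun k := ⟨⟨(k.1.1.1, k.1.2), k.2⟩, k.1.1.2⟩
  left_inv _ := rfl
  right_inv _ := rfl
  continuous_toFun := by
    have h1 : Continuous fun k : DZ hl Z hZ => k.1.1 :=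
      continuous_subtype_val.comp continuous_subtype_val
    refine Continuous.subtype_mk ?_ _
    exact (Continuous.subtype_mk (continuous_fst.comp h1) _).prodMk (continuous_snd.comp h1)
  continuous_invFun := by
    have h1 : Continuous fun k : LC.tot (X := X.closed Z hZ) (fun x => l x.1) (hlZ hl Z hZ) =>
        k.1 := continuous_subtype_val
    refine Continuous.subtype_mk (Continuous.subtype_mk ?_ _) _
    exact (continuous_subtype_val.comp (continuous_fst.comp h1)).prodMk (continuous_snd.comp h1)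

/-- the part of the product over a closed set -/
def PZ (X : LC) (Z : Set X) (hZ : IsClosed Z) : LC :=
  (X.prod LC.C).closed {p | p.1 ∈ Z} (hZ.preimage continuous_fst)

/-- restriction of the product -/
def hZp (X : LC) (Z : Set X) (hZ : IsClosed Z) : (X.closed Z hZ).prod LC.C ≃ₜ PZ X Z hZ where
  toFun p := ⟨(p.1.1, p.2), p.1.2⟩
  invFun p := (⟨p.1.1, p.2⟩, p.1.2)
  left_inv _ := rfl
  right_inv _ := rfl
  continuous_toFun := Continuous.subtype_mk
    ((continuous_subtype_val.comp continuous_fst).prodMk continuous_snd) _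
  continuous_invFun := (Continuous.subtype_mk (continuous_fst.comp continuous_subtype_val)
    _).prodMk (continuous_snd.comp continuous_subtype_val)

/-- the Thom map over a closed set -/
def aZ (Z : Set X) (hZ : IsClosed Z) : PMap (DZ hl Z hZ)
    ((X.closed Z hZ).prod ((LC.Pr (Option S) 1).minus (Pr.line none))).plus :=
  (thomMap (X := X.closed Z hZ) (fun x => l x.1) (hlZ hl Z hZ)).comp
    (PMap.ofHomeo (hZt hl Z hZ))

/-- the Thom class over a closed set -/
def tZ (Z : Set X) (hZ : IsClosed Z) : R.Hom (DZ hl Z hZ) (PZ X Z hZ) :=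
  R.comp (Tc o (aZ hl Z hZ)) (R.J (PMap.ofHomeo (hZp X Z hZ)))

theorem tZ_iv (Z : Set X) (hZ : IsClosed Z)
    (h : R.Iv (o.thom (X := X.closed Z hZ) (fun x => l x.1) (hlZ hl Z hZ))) :
    R.Iv (tZ o hl Z hZ) := by
  have h1 : tZ o hl Z hZ = R.comp (R.comp (R.J (PMap.ofHomeo (hZt hl Z hZ)))
      (o.thom (X := X.closed Z hZ) (fun x => l x.1) (hlZ hl Z hZ)))
      (R.J (PMap.ofHomeo (hZp X Z hZ))) := by
    unfold tZ Tc aZ Orient.thom
    rw [R.J_comp, R.assoc (R.J (PMap.ofHomeo (hZt hl Z hZ)))]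
  rw [h1]
  exact ((Biv.iv_homeo R _).comp R h).comp R (Biv.iv_homeo R _)

theorem thom_eq_Tc : o.thom l hl = Tc o (thomMap l hl) := rfl

/-- restriction from the whole space -/
theorem tZ_top (Z : Set X) (hZ : IsClosed Z) :
    R.comp (R.J (PMap.incl (K := LC.tot l hl) {k | k.1.1 ∈ Z}
      (hZ.preimage (continuous_fst.comp continuous_subtype_val)))) (o.thom l hl) =
    R.comp (tZ o hl Z hZ) (R.J (PMap.incl (K := X.prod LC.C) {p | p.1 ∈ Z}
      (hZ.preimage continuous_fst))) := by
  have h1 := Tc_natural o (aZ hl Z hZ) (thomMap l hl) (PMap.incl Z hZ)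
    (PMap.incl (K := LC.tot l hl) {k | k.1.1 ∈ Z}
      (hZ.preimage (continuous_fst.comp continuous_subtype_val))) (by
        ext x
        rfl)
  rw [thom_eq_Tc]
  refine h1.trans ?_
  unfold tZ
  rw [R.assoc, ← R.J_comp]
  rfl

/-- restriction from a closed set to a smaller one -/
theorem tZ_incl (Z W : Set X) (hZ : IsClosed Z) (hW : IsClosed W) (hZW : Z ⊆ W)
    (φ : PMap (X.closed Z hZ) (X.closed W hW).plus)
    (hφ : ∀ x : X.closed Z hZ, φ x = OnePoint.some (X := X.closed W hW) ⟨x.1, hZW x.2⟩)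
    (ψ : PMap (DZ hl Z hZ) (DZ hl W hW).plus)
    (hψ : ∀ k : DZ hl Z hZ, ψ k = OnePoint.some (X := DZ hl W hW) ⟨k.1, hZW k.2⟩)
    (ω : PMap (PZ X Z hZ) (PZ X W hW).plus)
    (hω : ∀ p : PZ X Z hZ, ω p = OnePoint.some (X := PZ X W hW) ⟨p.1, hZW p.2⟩) :
    R.comp (R.J ψ) (tZ o hl W hW) = R.comp (tZ o hl Z hZ) (R.J ω) := by
  have h1 := Tc_natural o (aZ hl Z hZ) (aZ hl W hW) φ ψ (by
    ext k
    change (aZ hl W hW).plus (ψ k) = smashPt _ _ (φ ⟨k.1.1.1, k.2⟩, _)
    rw [hψ, hφ]
    rfl)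
  unfold tZ
  rw [← R.assoc, h1, R.assoc, R.assoc, ← R.J_comp, ← R.J_comp]
  congr 2
  ext p
  change (PMap.ofHomeo (hZp X W hW)).plus (smashPt _ _ (φ p.1, (p.2 : OnePoint ℂ))) =
    ω ⟨(p.1.1, p.2), p.1.2⟩
  rw [hφ, hω]
  rfl

/-- the function on the total space -/
def uD (u : C(X, ℝ)) : C(LC.tot l hl, ℝ) :=
  ⟨fun k => u k.1.1, u.continuous.comp (continuous_fst.comp continuous_subtype_val)⟩

/-- the function on the product -/
def uP (u : C(X, ℝ)) : C(X.prod LC.C, ℝ) := ⟨fun p => u p.1, u.continuous.comp continuous_fst⟩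

/-- the boundary map of the total space -/
def dD (u : C(X, ℝ)) : PMap (LC.tot l hl)
    (LC.R.prod (DZ hl {x | 0 ≤ u x ∧ u x ≤ 1} (MV.clC u))).plus := MV.delta (uD hl u)

/-- the boundary map of the product -/
def dP (u : C(X, ℝ)) : PMap (X.prod LC.C)
    (LC.R.prod (PZ X {x | 0 ≤ u x ∧ u x ≤ 1} (MV.clC u))).plus := MV.delta (uP (X := X) u)

theorem delta_nat (u : C(X, ℝ)) :
    R.comp (o.thom l hl) (R.J (dP (X := X) u)) =
      R.comp (R.J (dD hl u)) (R.ltens LC.R (tZ o hl {x | 0 ≤ u x ∧ u x ≤ 1} (MV.clC u))) := by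
  classical
  have hdD : ∀ k, dD hl u k = MV.deltaFun (uD hl u) k := fun _ => rfl
  have hdP : ∀ k, dP (X := X) u k = MV.deltaFun (uP (X := X) u) k := fun _ => rfl
  set Z : Set X := {x | 0 ≤ u x ∧ u x ≤ 1} with hZdef
  have hZ : IsClosed Z := MV.clC u
  -- the map `b`
  let b : PMap (LC.R.prod (DZ hl Z hZ))
      ((LC.R.prod (X.closed Z hZ)).prod ((LC.Pr (Option S) 1).minus (Pr.line none))).plus :=
    (PMap.ofHomeo (asc LC.R (X.closed Z hZ) ((LC.Pr (Option S) 1).minus (Pr.line none))).symm).comp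
      (PMap.ltens LC.R (aZ hl Z hZ))
  have hN := Tc_natural o (thomMap l hl) b (MV.delta u) (dD hl u) (by
    ext k
    change b.plus (dD hl u k) = smashPt _ _ (MV.deltaFun u k.1.1, _)
    rw [hdD]
    unfold MV.deltaFun
    by_cases h : 0 < u k.1.1 ∧ u k.1.1 < 1
    · have h' : 0 < (uD hl u) k ∧ (uD hl u) k < 1 := h
      rw [dif_pos h, dif_pos h']
      rfl
    · have h' : ¬ (0 < (uD hl u) k ∧ (uD hl u) k < 1) := h
      rw [dif_neg h, dif_neg h']
      rfl)
  have hb : Tc o b = R.comp (R.ltens LC.R (Tc o (aZ hl Z hZ)))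
      (R.J (PMap.ofHomeo (asc LC.R (X.closed Z hZ) LC.C).symm)) := by
    unfold Tc
    rw [ltens_ltens, ltens_comp, ltens_J, R.J_comp]
    rw [R.assoc, ← R.assoc (R.J (PMap.ofHomeo (asc LC.R (X.closed Z hZ)
      ((LC.Pr (Option S) 1).minus (Pr.line none))).symm)), J_homeo_symm', R.id_comp, R.assoc]
  have h1 : R.ltens LC.R (tZ o hl Z hZ) = R.comp (Tc o b)
      (R.J ((PMap.ltens LC.R (PMap.ofHomeo (hZp X Z hZ))).comp
        (PMap.ofHomeo (asc LC.R (X.closed Z hZ) LC.C)))) := by
    unfold tZ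
    rw [ltens_comp, hb, R.J_comp, R.assoc, ← R.assoc (R.J (PMap.ofHomeo
      (asc LC.R (X.closed Z hZ) LC.C).symm)), J_homeo_symm', R.id_comp, ltens_J]
  rw [h1, ← R.assoc, hN, R.assoc, ← R.J_comp, thom_eq_Tc]
  congr 2
  ext p
  change dP (X := X) u p = ((PMap.ltens LC.R (PMap.ofHomeo (hZp X Z hZ))).comp
        (PMap.ofHomeo (asc LC.R (X.closed Z hZ) LC.C))).plus
          (smashPt _ _ (MV.deltaFun u p.1, (p.2 : OnePoint ℂ)))
  rw [hdP]
  unfold MV.deltaFun
  by_cases h : 0 < u p.1 ∧ u p.1 < 1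
  · have h' : 0 < (uP (X := X) u) p ∧ (uP (X := X) u) p < 1 := h
    rw [dif_pos h, dif_pos h']
    rfl
  · have h' : ¬ (0 < (uP (X := X) u) p ∧ (uP (X := X) u) p < 1) := h
    rw [dif_neg h, dif_neg h']
    rfl

/-- the Mayer–Vietoris step -/
theorem mv_step (u : C(X, ℝ))
    (hA : R.Iv (o.thom (X := X.closed {x | u x ≤ 1} (MV.clA u)) (fun x => l x.1)
      (hlZ hl _ _)))
    (hB : R.Iv (o.thom (X := X.closed {x | 0 ≤ u x} (MV.clB u)) (fun x => l x.1)
      (hlZ hl _ _)))
    (hC : R.Iv (o.thom (X := X.closed {x | 0 ≤ u x ∧ u x ≤ 1} (MV.clC u)) (fun x => l x.1)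
      (hlZ hl _ _))) : R.Iv (o.thom l hl) := by
  refine Biv.five_lemma R (uD hl u) (uP (X := X) u) (o.thom l hl)
    (tZ o hl {x | u x ≤ 1} (MV.clA u)) (tZ o hl {x | 0 ≤ u x} (MV.clB u))
    (tZ o hl {x | 0 ≤ u x ∧ u x ≤ 1} (MV.clC u)) ?_ ?_ ?_ ?_ ?_ (tZ_iv o hl _ _ hA)
    (tZ_iv o hl _ _ hB) (tZ_iv o hl _ _ hC)
  · exact tZ_top o hl {x | u x ≤ 1} (MV.clA u)
  · exact tZ_top o hl {x | 0 ≤ u x} (MV.clB u)
  · exact tZ_incl o hl {x | 0 ≤ u x ∧ u x ≤ 1} {x | u x ≤ 1} (MV.clC u) (MV.clA u)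
      (fun x hx => hx.2) (MV.iCA u) (fun _ => rfl)
      (MV.iCA (uD hl u)) (fun _ => rfl) (MV.iCA (uP (X := X) u)) (fun _ => rfl)
  · exact tZ_incl o hl {x | 0 ≤ u x ∧ u x ≤ 1} {x | 0 ≤ u x} (MV.clC u) (MV.clB u)
      (fun x hx => hx.1) (MV.iCB u) (fun _ => rfl)
      (MV.iCB (uD hl u)) (fun _ => rfl) (MV.iCB (uP (X := X) u)) (fun _ => rfl)
  · exact delta_nat o hl u

end MVs

theorem main {R : Biv} (o : Orient R) {S : Type} [Fintype S] (F : Finset S) :
    ∀ (X : LC) (l : X → Pr S 1) (hl : Continuous l) (ε : ℝ), 0 < ε →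
      (∀ x, ε ≤ ∑ s ∈ F, ((l x).1 s s).re) → R.Iv (o.thom l hl) := by
  classical
  induction F using Finset.induction_on with
  | empty =>
    intro X l hl ε hε h
    have hX : IsEmpty X := ⟨fun x => by
      have := h x
      rw [Finset.sum_empty] at this
      linarith⟩
    refine triv_iv o hl (fun x => isEmptyElim x) (fun x => isEmptyElim x)
      (continuous_of_const fun x => isEmptyElim x) (funext fun x => isEmptyElim x)
  | insert s F hs ih =>
    intro X l hl ε hε h
    have hre : Continuous fun x => ((l x).1 s s).re := Complex.continuous_re.comp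
      ((continuous_apply s).comp ((continuous_apply s).comp (continuous_subtype_val.comp hl)))
    let u : C(X, ℝ) := ⟨fun x => 3 / ε * ((l x).1 s s).re - 1,
      (continuous_const.mul hre).sub continuous_const⟩
    have hu : ∀ x, u x = 3 / ε * ((l x).1 s s).re - 1 := fun _ => rfl
    have hpos : ∀ x, 0 ≤ u x → 0 < ((l x).1 s s).re := by
      intro x hx
      rw [hu] at hx
      by_contra hn
      rw [not_lt] at hn
      have : 3 / ε * ((l x).1 s s).re ≤ 0 := mul_nonpos_of_nonneg_of_nonpos (by positivity) hn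
      linarith
    refine mv_step o hl u ?_ ?_ ?_
    · refine ih _ _ _ (ε / 3) (by positivity) fun x => ?_
      have h1 := h x.1
      rw [Finset.sum_insert hs] at h1
      have h2 : u x.1 ≤ 1 := x.2
      rw [hu] at h2
      have h3 : ((l x.1).1 s s).re ≤ 2 * ε / 3 := by
        have h4 : 3 / ε * ((l x.1).1 s s).re ≤ 2 := by linarith
        rw [div_mul_eq_mul_div, div_le_iff₀ hε] at h4
        linarith
      linarith
    · exact pos_iv o _ s fun x => hpos x.1 x.2
    · exact pos_iv o _ s fun x => hpos x.1 x.2.1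

theorem thom_iv {R : Biv} (o : Orient R) {X : LC} {S : Type} [Fintype S] (l : X → Pr S 1)
    (hl : Continuous l) : R.Iv (o.thom l hl) := by
  refine main o Finset.univ X l hl 1 one_pos fun x => ?_
  have h := (l x).2.2.2
  rw [Matrix.trace] at h
  have h2 := congrArg Complex.re h
  simp only [Matrix.diag, Complex.re_sum, Nat.cast_one, Complex.one_re] at h2
  exact h2.ge

end ThL

namespace Orient
variable {R : Biv} (o : Orient R)

/-- (TH) the Thom isomorphism -/
theorem thom_iv {X : LC} {S : Type} [Fintype S] (l : X → Pr S 1) (hl : Continuous l) :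
    R.Iv (o.thom l hl) :=
  ThL.thom_iv o l hl

section ProjIv
variable {S : Type} [Fintype S]

theorem projIv_herm (P : Pr (Option S) 1) (i j : Option S) : P.1 j i = star (P.1 i j) := by
  have h := congrFun (congrFun P.2.1 j) i
  rw [← h, conjTranspose_apply]

theorem projIv_mul (P : Pr (Option S) 1) (i j : Option S) :
    P.1 i none * P.1 none j + ∑ s : S, P.1 i (some s) * P.1 (some s) j = P.1 i j := by
  have h := congrFun (congrFun P.2.2.1 i) j
  rw [mul_apply, Fintype.sum_option] at h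
  exact h

theorem projIv_real (P : Pr (Option S) 1) : ((P.1 none none).re : ℂ) = P.1 none none :=
  Complex.conj_eq_iff_re.1 (projIv_herm P none none).symm

/-- the norm of the last column -/
theorem projIv_sum (P : Pr (Option S) 1) :
    ((∑ s : S, ‖P.1 (some s) none‖ ^ 2 : ℝ) : ℂ) = P.1 none none * (1 - P.1 none none) := by
  have h := projIv_mul P none none
  have h1 : ∀ s : S, P.1 none (some s) * P.1 (some s) none = ((‖P.1 (some s) none‖ ^ 2 : ℝ) : ℂ) := by
    intro s
    rw [projIv_herm P (some s) none, Complex.ofReal_pow]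
    exact Complex.conj_mul' _
  simp only [h1] at h
  rw [Complex.ofReal_sum]
  linear_combination h

theorem projIv_ne (P : Pr (Option S) 1) (hP : P ≠ Pr.line none) : (1 : ℂ) - P.1 none none ≠ 0 := by
  intro h0
  apply hP
  have hn : P.1 none none = 1 := (sub_eq_zero.1 h0).symm
  have h1 := projIv_sum P
  rw [hn, sub_self, mul_zero, Complex.ofReal_eq_zero,
    Finset.sum_eq_zero_iff_of_nonneg (fun _ _ => by positivity)] at h1
  have h2 : ∀ s : S, P.1 (some s) none = 0 := fun s => by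
    have := h1 s (Finset.mem_univ s)
    exact norm_eq_zero.1 (pow_eq_zero_iff (two_ne_zero)|>.1 this)
  have h3 : ∀ s : S, P.1 none (some s) = 0 := fun s => by
    rw [projIv_herm P (some s) none, h2, star_zero]
  -- the diagonal entries
  have h4 : ∀ s : S, P.1 (some s) (some s) = ((∑ t : S, ‖P.1 (some s) (some t)‖ ^ 2 : ℝ) : ℂ) := by
    intro s
    rw [← projIv_mul P (some s) (some s), h2, zero_mul, zero_add, Complex.ofReal_sum]
    refine Finset.sum_congr rfl fun t _ => ?_
    rw [projIv_herm P (some s) (some t), Complex.ofReal_pow]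
    exact Complex.mul_conj' _
  have h5 : ∑ s : S, P.1 (some s) (some s) = 0 := by
    have := P.2.2.2
    rw [trace, Fintype.sum_option] at this
    simp only [diag_apply, hn] at this
    linear_combination this
  simp only [h4] at h5
  rw [← Complex.ofReal_sum, Complex.ofReal_eq_zero, Finset.sum_eq_zero_iff_of_nonneg
    (fun _ _ => Finset.sum_nonneg fun _ _ => by positivity)] at h5
  have h6 : ∀ s t : S, P.1 (some s) (some t) = 0 := fun s t => by
    have h7 := h5 s (Finset.mem_univ s)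
    rw [Finset.sum_eq_zero_iff_of_nonneg (fun _ _ => by positivity)] at h7
    exact norm_eq_zero.1 (pow_eq_zero_iff (two_ne_zero)|>.1 (h7 t (Finset.mem_univ t)))
  apply Subtype.ext
  ext i j
  rcases i with _ | i <;> rcases j with _ | j
  · simp [Pr.line, hn]
  · simp [Pr.line, h3]
  · simp [Pr.line, h2]
  · simp [Pr.line, h6]

/-- the vector of a line different from the last coordinate line -/
def projIvVec (P : Pr (Option S) 1) (s : S) : ℂ := - P.1 (some s) none / (1 - P.1 none none)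

theorem projIvVec_sum (P : Pr (Option S) 1) (h : (1 : ℂ) - P.1 none none ≠ 0) :
    ((1 + ∑ s, ‖projIvVec P s‖ ^ 2 : ℝ) : ℂ) = (1 - P.1 none none)⁻¹ := by
  have h1 : ∀ s : S, ((‖projIvVec P s‖ ^ 2 : ℝ) : ℂ) = ((‖P.1 (some s) none‖ ^ 2 : ℝ) : ℂ) *
      ((1 - P.1 none none)⁻¹) ^ 2 := by
    intro s
    have h2 : ‖(1 : ℂ) - P.1 none none‖ ^ 2 = (1 - (P.1 none none).re) ^ 2 := by
      have : (1 : ℂ) - P.1 none none = ((1 - (P.1 none none).re : ℝ) : ℂ) := by
        rw [Complex.ofReal_sub, projIv_real, Complex.ofReal_one]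
      rw [this, Complex.norm_real, Real.norm_eq_abs, sq_abs]
    rw [projIvVec, norm_div, norm_neg, div_pow, h2, Complex.ofReal_div, Complex.ofReal_pow (1 - _),
      Complex.ofReal_sub, projIv_real, Complex.ofReal_one, div_eq_mul_inv, inv_pow]
  rw [Complex.ofReal_add, Complex.ofReal_one, Complex.ofReal_sum]
  simp only [h1]
  rw [← Finset.sum_mul, ← Complex.ofReal_sum, projIv_sum]
  field_simp
  ring

end ProjIv

/-- (TH') for the tautological bundle over `ℂP^S` the map `D(γ) → ℂP^(S+1) ∖ pt` is a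
homeomorphism, so `(π, ũ)` is invertible; `π` is the projection from the last coordinate line. -/
theorem proj_iv (S : Type) [Fintype S] [Nonempty S]
    (π : (LC.Pr (Option S) 1).minus (Pr.line none) → Pr S 1) (hπ : Continuous π)
    (h : ∀ P i j, ((1 : ℂ) - P.1.1 none none) * (π P).1 i j = P.1.1 (some i) (some j)) :
    R.Iv (R.comp (R.J (graph (X := (LC.Pr (Option S) 1).minus (Pr.line none))
        (L := LC.Pr S 1) π hπ))
      (R.comp (R.J (PMap.ofHomeo (LC.swap _ _))) (R.ltens (LC.Pr S 1) (o.ured S)))) := by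
  have hne : ∀ P : (LC.Pr (Option S) 1).minus (Pr.line none), (1 : ℂ) - P.1.1 none none ≠ 0 :=
    fun P => projIv_ne P.1 P.2
  have hl : Continuous (fun x : LC.Pr S 1 => (x : Pr S 1)) := continuous_id
  -- the vector lies in the line
  have hvec : ∀ P : (LC.Pr (Option S) 1).minus (Pr.line none),
      (π P).1 *ᵥ projIvVec P.1 = projIvVec P.1 := by
    intro P
    ext i
    have h1 := hne P
    have h2 : ∀ j, (π P).1 i j = P.1.1 (some i) (some j) / (1 - P.1.1 none none) := fun j => by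
      rw [← h P i j]
      field_simp
    have h3 := projIv_mul P.1 (some i) none
    simp only [mulVec, dotProduct, h2, projIvVec]
    have h4 : ∀ s : S, P.1.1 (some i) (some s) / (1 - P.1.1 none none) *
        (- P.1.1 (some s) none / (1 - P.1.1 none none)) =
        - (P.1.1 (some i) (some s) * P.1.1 (some s) none) / (1 - P.1.1 none none) ^ 2 := by
      intro s
      field_simp
    simp only [h4]
    rw [← Finset.sum_div, Finset.sum_neg_distrib, div_eq_div_iff (pow_ne_zero 2 h1) h1]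
    linear_combination (-(1 - P.1.1 none none)) * h3
  -- the values of the line of a vector
  have t1 : ∀ (x : LC.tot (X := LC.Pr S 1) (fun x => x) hl), (1 : ℂ) -
      (thomLine (X := LC.Pr S 1) (fun x => x) hl x).1 none none =
      ((1 + ∑ s, ‖x.1.2 s‖ ^ 2 : ℝ) : ℂ)⁻¹ := by
    intro x
    have hp : ((1 + ∑ s, ‖x.1.2 s‖ ^ 2 : ℝ) : ℂ) ≠ 0 := by
      have : (0 : ℝ) < 1 + ∑ s, ‖x.1.2 s‖ ^ 2 := by positivity
      exact_mod_cast this.ne'
    show (1 : ℂ) - ((1 + ∑ s, ‖x.1.2 s‖ ^ 2 : ℝ) : ℂ)⁻¹ * ((∑ s, ‖x.1.2 s‖ ^ 2 : ℝ) : ℂ) = _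
    have h1 : ((1 + ∑ s, ‖x.1.2 s‖ ^ 2 : ℝ) : ℂ)⁻¹ * ((∑ s, ‖x.1.2 s‖ ^ 2 : ℝ) : ℂ) =
        1 - ((1 + ∑ s, ‖x.1.2 s‖ ^ 2 : ℝ) : ℂ)⁻¹ := by
      rw [inv_mul_eq_iff_eq_mul₀ hp, mul_sub, mul_inv_cancel₀ hp, mul_one]
      push_cast
      ring
    rw [h1]
    ring
  have hpos : ∀ (x : LC.tot (X := LC.Pr S 1) (fun x => x) hl),
      ((1 + ∑ s, ‖x.1.2 s‖ ^ 2 : ℝ) : ℂ) ≠ 0 := by
    intro x
    have : (0 : ℝ) < 1 + ∑ s, ‖x.1.2 s‖ ^ 2 := by positivity
    exact_mod_cast this.ne'
  have hfst : ∀ (x : LC.tot (X := LC.Pr S 1) (fun x => x) hl),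
      π ⟨thomLine (X := LC.Pr S 1) (fun x => x) hl x,
        thomLine_ne (X := LC.Pr S 1) (fun x => x) hl x⟩ = x.1.1 := by
    intro x
    apply Subtype.ext
    ext i j
    have h1 := h ⟨thomLine (X := LC.Pr S 1) (fun x => x) hl x,
        thomLine_ne (X := LC.Pr S 1) (fun x => x) hl x⟩ i j
    have h2 : (thomLine (X := LC.Pr S 1) (fun x => x) hl x).1 (some i) (some j) =
        ((1 + ∑ s, ‖x.1.2 s‖ ^ 2 : ℝ) : ℂ)⁻¹ * (x.1.1 : Pr S 1).1 i j := rfl
    have h3 := t1 x
    simp only at h1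
    rw [h2, h3] at h1
    exact mul_left_cancel₀ (inv_ne_zero (hpos x)) h1
  let e : LC.tot (X := LC.Pr S 1) (fun x => x) hl ≃ₜ (LC.Pr (Option S) 1).minus (Pr.line none) :=
    { toFun := fun x => ⟨thomLine (X := LC.Pr S 1) (fun x => x) hl x,
        thomLine_ne (X := LC.Pr S 1) (fun x => x) hl x⟩
      invFun := fun P => ⟨(π P, projIvVec P.1), hvec P⟩
      left_inv := by
        intro x
        apply Subtype.ext
        refine Prod.ext (hfst x) ?_
        funext s
        have h2 : (thomLine (X := LC.Pr S 1) (fun x => x) hl x).1 (some s) none =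
          ((1 + ∑ s, ‖x.1.2 s‖ ^ 2 : ℝ) : ℂ)⁻¹ * (- x.1.2 s) := rfl
        show - (thomLine (X := LC.Pr S 1) (fun x => x) hl x).1 (some s) none /
          (1 - (thomLine (X := LC.Pr S 1) (fun x => x) hl x).1 none none) = x.1.2 s
        rw [t1, h2, div_eq_iff (inv_ne_zero (hpos x))]
        ring
      right_inv := by
        intro P
        apply Subtype.ext
        apply Subtype.ext
        have h1 := hne P
        have h2 := projIvVec_sum P.1 h1
        ext i j
        rcases i with _ | i <;> rcases j with _ | j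
        · show ((1 + ∑ s, ‖projIvVec P.1 s‖ ^ 2 : ℝ) : ℂ)⁻¹ *
            ((∑ s, ‖projIvVec P.1 s‖ ^ 2 : ℝ) : ℂ) = P.1.1 none none
          have h3 : ((∑ s, ‖projIvVec P.1 s‖ ^ 2 : ℝ) : ℂ) = (1 - P.1.1 none none)⁻¹ - 1 := by
            rw [← h2]
            push_cast
            ring
          rw [h2, h3, inv_inv, mul_sub, mul_inv_cancel₀ h1]
          ring
        · show ((1 + ∑ s, ‖projIvVec P.1 s‖ ^ 2 : ℝ) : ℂ)⁻¹ * (- star (projIvVec P.1 j)) =
            P.1.1 none (some j)
          have h3 : star (1 - P.1.1 none none) = 1 - P.1.1 none none := by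
            rw [star_sub, star_one, ← projIv_herm]
          rw [h2, inv_inv, projIvVec, star_div₀, star_neg, h3, ← projIv_herm]
          field_simp
        · show ((1 + ∑ s, ‖projIvVec P.1 s‖ ^ 2 : ℝ) : ℂ)⁻¹ * (- projIvVec P.1 i) = P.1.1 (some i) none
          rw [h2, inv_inv, projIvVec]
          field_simp
        · show ((1 + ∑ s, ‖projIvVec P.1 s‖ ^ 2 : ℝ) : ℂ)⁻¹ * (π P).1 i j = P.1.1 (some i) (some j)
          rw [h2, inv_inv, h]
      continuous_toFun := (continuous_snd.comp (thomMap_aux (X := LC.Pr S 1) (fun x => x) hl).1)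
      continuous_invFun := by
        refine Continuous.subtype_mk (hπ.prodMk (continuous_pi fun s => ?_)) _
        have hc1 : Continuous fun P : (LC.Pr (Option S) 1).minus (Pr.line none) =>
            (P.1 : Pr (Option S) 1) := continuous_subtype_val
              (p := fun P : Pr (Option S) 1 => P ∈ ({Pr.line none}ᶜ : Set (Pr (Option S) 1)))
        have hc2 : Continuous fun P : Pr (Option S) 1 => (P.1 : Matrix (Option S) (Option S) ℂ) :=
          continuous_subtype_val
        have hc : ∀ i j, Continuous fun P : (LC.Pr (Option S) 1).minus (Pr.line none) =>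
            P.1.1 i j := fun i j => (hc2.comp hc1).matrix_elem i j
        exact (hc (some s) none).neg.div (continuous_const.sub (hc none none)) hne }
  have key : R.comp (R.J (PMap.ofHomeo e)) (R.comp (R.J (graph
      (X := (LC.Pr (Option S) 1).minus (Pr.line none)) (L := LC.Pr S 1) π hπ))
      (R.comp (R.J (PMap.ofHomeo (LC.swap _ _))) (R.ltens (LC.Pr S 1) (o.ured S)))) =
      o.thom (X := LC.Pr S 1) (fun x => x) hl := by
    rw [thom, ← R.assoc, ← R.assoc, ← R.J_comp, ← R.J_comp]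
    congr 2
    ext x
    show OnePoint.some (X := (LC.Pr S 1).prod ((LC.Pr (Option S) 1).minus (Pr.line none)))
      (π (e x), e x) = _
    have h1 : π (e x) = x.1.1 := hfst x
    rw [h1]
    rfl
  have key2 : R.comp (R.J (PMap.ofHomeo e.symm)) (R.J (PMap.ofHomeo e)) =
      R.J (PMap.id _) := by
    rw [← R.J_comp]
    congr 1
    ext x
    show OnePoint.some (X := (LC.Pr (Option S) 1).minus (Pr.line none)) (e (e.symm x)) = _
    rw [e.apply_symm_apply]
    rfl
  rw [← R.id_comp (R.comp (R.J (graph _ _)) _), ← key2, R.assoc, key]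
  exact Biv.Iv.comp R (Biv.iv_homeo R e.symm) (o.thom_iv (X := LC.Pr S 1) (fun x => x) hl)

end Orient

/-! ## Projective bundles -/

/-- the projective bundle of a family of projections -/
def LC.PV {X : LC} {S : Type} [Fintype S] {n : ℕ} (V : X → Pr S n) (hV : Continuous V) : LC :=
  (X.prod (LC.Pr S 1)).closed {x | (V x.1).1 * x.2.1 = x.2.1} (isClosed_eq
    ((Pr.continuous_val69.comp (hV.comp continuous_fst)).matrix_mul
      (Pr.continuous_val69.comp continuous_snd)) (Pr.continuous_val69.comp continuous_snd))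

/-- the projection of a projective bundle -/
def PVπ {X : LC} {S : Type} [Fintype S] {n : ℕ} (V : X → Pr S n) (hV : Continuous V) :
    PMap (LC.PV V hV) X.plus :=
  PMap.ofProper (K := LC.PV V hV) (fun x => x.1.1) (continuous_fst.comp continuous_subtype_val)
    (by
      have h1 : Tendsto (Prod.fst : X × Pr S 1 → X) (cocompact _) (cocompact _) := by
        intro s hs
        obtain ⟨D, hD, hDs⟩ := mem_cocompact.1 hs
        refine mem_cocompact.2 ⟨D ×ˢ univ, hD.prod isCompact_univ, fun y hy => ?_⟩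
        exact hDs fun hy' => hy ⟨hy', trivial⟩
      have h2 : IsClosed {x : X × Pr S 1 | (V x.1).1 * x.2.1 = x.2.1} := isClosed_eq
        ((Pr.continuous_val69.comp (hV.comp continuous_fst)).matrix_mul
        (Pr.continuous_val69.comp continuous_snd)) (Pr.continuous_val69.comp continuous_snd)
      exact h1.comp h2.isClosedEmbedding_subtypeVal.tendsto_cocompact)

/-- the tautological line bundle of a projective bundle -/
def PVl {X : LC} {S : Type} [Fintype S] {n : ℕ} (V : X → Pr S n) (hV : Continuous V)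
    (x : LC.PV V hV) : Pr S 1 := x.1.2

theorem continuous_PVl {X : LC} {S : Type} [Fintype S] {n : ℕ} (V : X → Pr S n)
    (hV : Continuous V) : Continuous (PVl V hV) := continuous_snd.comp continuous_subtype_val

theorem sigmaLC69 {ι : Type} {σ : ι → Type} [∀ i, TopologicalSpace (σ i)]
    [∀ i, LocallyCompactSpace (σ i)] [∀ i, T2Space (σ i)] : LocallyCompactSpace (Σ i, σ i) := by
  have : WeaklyLocallyCompactSpace (Σ i, σ i) := ⟨by
    rintro ⟨i, x⟩
    obtain ⟨K, hK, hx⟩ := exists_compact_mem_nhds x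
    exact ⟨Sigma.mk i '' K, hK.image continuous_sigmaMk, isOpenMap_sigmaMk.image_mem_nhds hx⟩⟩
  infer_instance

instance (n : ℕ) : LocallyCompactSpace (Σ i : Fin n, Cn i) :=
  sigmaLC69 (σ := fun i : Fin n => ((Cn i : LC) : Type))

/-- the disjoint union of `ℂ^0, …, ℂ^(n-1)` -/
abbrev LC.Dn (n : ℕ) : LC := ⟨Σ i : Fin n, Cn i⟩

/-- the inclusion of a summand -/
def DnInc {n : ℕ} (i : Fin n) : PMap (Cn i) (LC.Dn n).plus :=
  PMap.ofProper (L := LC.Dn n) (fun x => ⟨i, x⟩)
    (continuous_sigmaMk (σ := fun i : Fin n => ((Cn i : LC) : Type)) (i := i))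
    (Topology.IsClosedEmbedding.sigmaMk (σ := fun i : Fin n => ((Cn i : LC) : Type))
      (i := i)).tendsto_cocompact

/-! ## Proof of the projective bundle theorem -/

namespace PBT62
open Pool.Agent.Helper62.Stab
open Pool.Agent.Helper39.Stab (ltens_J asc)

theorem iv_empty {R : Biv} {K L : LC} (hK : IsEmpty K) (hL : IsEmpty L) (t : R.Hom K L) :
    R.Iv t := by
  refine ⟨0, ?_, ?_⟩
  · rw [Helper9.Stab.hom_empty R hK (R.J (PMap.id K)), Helper9.Stab.c_zero]
  · rw [Helper9.Stab.hom_empty R hL (R.J (PMap.id L)), Helper9.Stab.z_comp]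

variable {R : Biv} (o : Orient R) {N : ℕ}

/-- the class of a projective bundle -/
def psD (N : ℕ) {X : LC} {S : Type} [Fintype S] {n : ℕ} (V : X → Pr S n) (hV : Continuous V) :
    R.Hom (pv V hV) (X.prod (LC.Dn N)) :=
  psiV o (D := LC.Dn N) (fun i : Fin N => DnInc i) V hV

theorem psD_congr {X : LC} {S T : Type} [Fintype S] [Fintype T] {n m : ℕ} {V : X → Pr S n}
    (hV : Continuous V) {W : X → Pr T m} (hW : Continuous W) (h : UEquiv V W)
    (hI : R.Iv (psD o N W hW)) : R.Iv (psD o N V hV) := by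
  obtain ⟨e, he⟩ := psiV_congr o (D := LC.Dn N) (fun i : Fin N => DnInc i) hV hW h
  unfold psD
  rw [he]
  exact Biv.Iv.comp R (R.iv_homeo e) hI

theorem psD_mv {X : LC} {S : Type} [Fintype S] {n : ℕ} (V : X → Pr S n) (hV : Continuous V)
    (u : C(X, ℝ))
    (hA : R.Iv (psD o N (X := MV.A u) (fun x => V (vA u x)) (hV.comp (vA_cont u))))
    (hB : R.Iv (psD o N (X := MV.B u) (fun x => V (vB u x)) (hV.comp (vB_cont u))))
    (hC : R.Iv (psD o N (X := MV.C u) (fun x => V (vC u x)) (hV.comp (vC_cont u)))) :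
    R.Iv (psD o N V hV) := by
  have h := psi_mv u (pvp V hV) (pvp_proper V hV) o (D := LC.Dn N) (fun i : Fin N => DnInc i)
    (pvl V hV) (pvl_cont V hV) rfl rfl rfl rfl
  obtain ⟨h1, h2, h3, h4, h5⟩ := h
  refine R.five_lemma _ _ _ _ _ _ h1 h2 h3 h4 h5 ?_ ?_ ?_
  · obtain ⟨e, he⟩ := psiV_closed o (D := LC.Dn N) (fun i : Fin N => DnInc i) V hV _ (MV.clA u)
    refine Biv.Iv.comp R ?_ (R.iv_homeo _)
    have h6 := Biv.Iv.comp R (R.iv_homeo e) hA
    exact he ▸ h6
  · obtain ⟨e, he⟩ := psiV_closed o (D := LC.Dn N) (fun i : Fin N => DnInc i) V hV _ (MV.clB u)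
    refine Biv.Iv.comp R ?_ (R.iv_homeo _)
    have h6 := Biv.Iv.comp R (R.iv_homeo e) hB
    exact he ▸ h6
  · obtain ⟨e, he⟩ := psiV_closed o (D := LC.Dn N) (fun i : Fin N => DnInc i) V hV _ (MV.clC u)
    refine Biv.Iv.comp R ?_ (R.iv_homeo _)
    have h6 := Biv.Iv.comp R (R.iv_homeo e) hC
    exact he ▸ h6

/-- the projection off the last coordinate -/
theorem pi_lt (T : Type) [Fintype T] (x : (LC.Pr (Option T) 1).minus (Pr.line none)) :
    ((x.1 : Pr (Option T) 1).1 none none).re < 1 := by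
  have h1 : ((x.1 : Pr (Option T) 1).1 none none).re ≤ 1 := by
    simpa using pr_diag_le x.1 none
  refine lt_of_le_of_ne h1 fun h2 => x.2 (pr_eq_line x.1 ?_)
  rw [pr_diag x.1 none, h2, Complex.ofReal_one]

/-- the inclusion of the complement of the point -/
def jU (T : Type) [Fintype T] (x : (LC.Pr (Option T) 1).minus (Pr.line none)) :
    Pr (Option T) 1 := x.1

theorem jU_cont (T : Type) [Fintype T] : Continuous (jU T) := continuous_subtype_val

/-- the projection off the last coordinate -/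
def piU (T : Type) [Fintype T] (x : (LC.Pr (Option T) 1).minus (Pr.line none)) : Pr T 1 :=
  prOf (jU T x) (wd (jU T x)) (wd_spec (jU T x) (pi_lt T x))

theorem piU_cont (T : Type) [Fintype T] : Continuous (piU T) :=
  continuous_prOf (jU T) (fun x => wd (jU T x)) (continuous_wd (jU T) (jU_cont T) (pi_lt T))
    (fun x => wd_spec (jU T x) (pi_lt T x))

theorem piU_equiv (T : Type) [Fintype T] : UEquiv (jU T) (piU T) :=
  uequiv_of (jU T) (fun x => wd (jU T x)) (continuous_wd (jU T) (jU_cont T) (pi_lt T))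
    (fun x => wd_spec (jU T x) (pi_lt T x))

theorem piU_iv (T : Type) [Fintype T] :
    R.Iv (R.comp (R.J (graph (X := (LC.Pr (Option T) 1).minus (Pr.line none))
        (L := LC.Pr T 1) (piU T) (piU_cont T)))
      (R.comp (R.J (PMap.ofHomeo (LC.swap _ _))) (R.ltens (LC.Pr T 1) (o.ured T)))) := by
  rcases isEmpty_or_nonempty T with hT | hT
  · have h1 : IsEmpty (Pr T 1) := ⟨fun P => one_ne_zero (pr_empty P)⟩
    refine iv_empty ⟨fun x => h1.false (piU T x)⟩
      ⟨fun x : Pr T 1 × ℂ => h1.false x.1⟩ _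
  · refine o.proj_iv T (piU T) (piU_cont T) fun P i j => ?_
    exact wd_line (jU T P) (pi_lt T P) i j

theorem u_eq (T : Type) [Fintype T] : o.u (Option T) =
    R.comp (R.J ((LC.Pr (Option T) 1).coll (Pr.line none))) (o.ured T) := by
  unfold Orient.ured
  rw [← R.assoc, (splitNone R T).coll_r, Helper9.Stab.sub_c, R.id_comp, R.assoc, point_u,
    Helper9.Stab.c_zero, sub_zero]

theorem coll_eq (T : Type) [Fintype T] (y : Pr (Option T) 1)
    (x : (LC.Pr (Option T) 1).minus (Pr.line none))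
    (h : (LC.Pr (Option T) 1).coll (Pr.line none) y = ((x : (LC.Pr (Option T) 1).minus
      (Pr.line none)) : OnePoint _)) : y = jU T x := collapseFun_eq_coe h

/-- the class of the projective space of `ℂ^m` -/
def psO (m : ℕ) : R.Hom (LC.Pr (OT m) 1) (LC.point.prod (LC.Dn m)) :=
  psiT o (D := LC.Dn m) (fun i : Fin m => DnInc i) (OT m)

/-- the inclusion of the summand `0` -/
def inc0 (m : ℕ) : PMap (Cn 0) (LC.Dn (m + 1)).plus := DnInc (0 : Fin (m + 1))

/-- the inclusion of the summand `i + 1` -/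
def incS {m : ℕ} (i : Fin m) : PMap (Cn (i + 1)) (LC.Dn (m + 1)).plus := DnInc i.succ

theorem ps_zero (m : ℕ) : R.comp (R.comp
      (o.Epow (X := LC.Pr (Option (OT m)) 1) (fun P => P) continuous_id 0)
      (R.tens (R.J (PMap.toPoint (LC.Pr (Option (OT m)) 1))) (Cn 0)))
      (R.ltens LC.point (R.J (inc0 m))) =
    R.comp (R.comp (R.J (PMap.toPoint (LC.Pr (Option (OT m)) 1))) (R.J (PMap.inl LC.point
      ((LC.point.prod (LC.Dn m)).prod LC.C)))) (R.J (PMap.ofHomeo
        (K := LC.point.sum ((LC.point.prod (LC.Dn m)).prod LC.C))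
        (L := LC.point.prod (LC.Dn (m + 1))) (shH m))) := by
  rw [ltens_J, Epow_zero, R.tens_J, ← R.J_comp, ← R.J_comp, ← R.J_comp, ← R.J_comp]
  rfl

theorem ps_succ (m : ℕ) (i : Fin m) :
    R.comp (R.J (PMap.ofHomeo (asc LC.point (Cn i) LC.C)))
      (R.ltens LC.point (R.J (incS i))) =
    R.comp (R.tens (R.ltens LC.point (R.J (DnInc i))) LC.C) (R.comp (R.J (PMap.inr LC.point
      ((LC.point.prod (LC.Dn m)).prod LC.C))) (R.J (PMap.ofHomeo
        (K := LC.point.sum ((LC.point.prod (LC.Dn m)).prod LC.C))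
        (L := LC.point.prod (LC.Dn (m + 1))) (shH m)))) := by
  have h : R.comp (R.J (PMap.ofHomeo (asc LC.point (Cn i) LC.C)))
      (R.ltens LC.point (R.J (incS i))) = R.J ((PMap.ltens LC.point (incS i)).comp
        (PMap.ofHomeo (asc LC.point (Cn i) LC.C))) := by
    rw [ltens_J]
    exact (R.J_comp _ _).symm
  rw [h, ltens_J, R.tens_J, ← R.J_comp, ← R.J_comp]
  rfl

theorem psO_succ (m : ℕ) : psO o (m + 1) =
    R.comp (R.comp (R.J (PMap.toPoint (LC.Pr (Option (OT m)) 1))) (R.J (PMap.inl LC.point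
      ((LC.point.prod (LC.Dn m)).prod LC.C))) +
      R.comp (R.J ((LC.Pr (Option (OT m)) 1).coll (Pr.line none))) (R.comp (R.comp
      (R.comp (R.J (graph (X := (LC.Pr (Option (OT m)) 1).minus (Pr.line none))
        (L := LC.Pr (OT m) 1) (piU (OT m)) (piU_cont (OT m))))
      (R.comp (R.J (PMap.ofHomeo (LC.swap _ _))) (R.ltens (LC.Pr (OT m) 1) (o.ured (OT m)))))
      (R.tens (psO o m) LC.C)) (R.J (PMap.inr LC.point
      ((LC.point.prod (LC.Dn m)).prod LC.C))))) (R.J (PMap.ofHomeo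
        (K := LC.point.sum ((LC.point.prod (LC.Dn m)).prod LC.C))
        (L := LC.point.prod (LC.Dn (m + 1))) (shH m))) := by
  set G := R.comp (R.J (graph (X := (LC.Pr (Option (OT m)) 1).minus (Pr.line none))
        (L := LC.Pr (OT m) 1) (piU (OT m)) (piU_cont (OT m))))
      (R.comp (R.J (PMap.ofHomeo (LC.swap _ _))) (R.ltens (LC.Pr (OT m) 1) (o.ured (OT m))))
    with hG
  have hL : psO o (m + 1) = ∑ i : Fin (m + 1), R.comp (R.comp
      (o.Epow (X := LC.Pr (Option (OT m)) 1) (fun P => P) continuous_id i)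
      (R.tens (R.J (PMap.toPoint (LC.Pr (Option (OT m)) 1))) (Cn i)))
      (R.ltens LC.point (R.J (DnInc i))) := rfl
  have hR : psO o m = ∑ i : Fin m, R.comp (R.comp
      (o.Epow (X := LC.Pr (OT m) 1) (fun P => P) continuous_id i)
      (R.tens (R.J (PMap.toPoint (LC.Pr (OT m) 1))) (Cn i)))
      (R.ltens LC.point (R.J (DnInc i))) := rfl
  rw [hL, Fin.sum_univ_succ, R.add_comp]
  congr 1
  · exact ps_zero o m
  · rw [hR, tens_sum, comp_sum, sum_comp, comp_sum, sum_comp]
    refine Finset.sum_congr rfl fun i _ => ?_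
    have e1 : R.comp (o.Epow (X := LC.Pr (Option (OT m)) 1) (fun P => P) continuous_id (i + 1))
        (R.tens (R.J (PMap.toPoint (LC.Pr (Option (OT m)) 1))) (Cn (i + 1))) =
        R.comp (R.J ((LC.Pr (Option (OT m)) 1).coll (Pr.line none))) (R.comp G
        (R.comp (R.tens (R.comp (o.Epow (X := LC.Pr (OT m) 1) (fun P => P) continuous_id i)
        (R.tens (R.J (PMap.toPoint (LC.Pr (OT m) 1))) (Cn i))) LC.C)
        (R.J (PMap.ofHomeo (asc LC.point (Cn i) LC.C))))) := by
      have h1 := key_left o ((LC.Pr (Option (OT m)) 1).coll (Pr.line none)) (jU (OT m))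
        (jU_cont (OT m)) (coll_eq (OT m)) (o.ured (OT m)) (u_eq o (OT m)) (piU_cont (OT m))
        (piU_equiv (OT m)) i
      have h2 := key_right o (o.ured (OT m)) (piU_cont (OT m)) i
      rw [hG, h2]
      exact h1
    have e2 := congrArg (fun z => R.comp z (R.ltens LC.point (R.J (incS i)))) e1
    refine e2.trans ?_
    rw [R.tens_comp _ (R.ltens LC.point (R.J (DnInc i)))]
    have e3 : ∀ {A1 A2 A3 A4 A5 A6 A7 A8 : LC} (a : R.Hom A1 A2) (b : R.Hom A2 A3)
        (c : R.Hom A3 A4) (d : R.Hom A4 A5) (f : R.Hom A5 A6) (c' : R.Hom A4 A7)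
        (d' : R.Hom A7 A8) (f' : R.Hom A8 A6) (_ : R.comp d f = R.comp c' (R.comp d' f')),
        R.comp (R.comp a (R.comp b (R.comp c d))) f =
        R.comp (R.comp a (R.comp (R.comp b (R.comp c c')) d')) f' := by
      intro A1 A2 A3 A4 A5 A6 A7 A8 a b c d f c' d' f' h
      simp only [R.assoc]
      rw [h]
    exact e3 _ _ _ _ _ _ _ _ (ps_succ m i)

theorem psO_iv (m : ℕ) : R.Iv (psO o m) := by
  induction m with
  | zero =>
    have h1 : IsEmpty (Pr (OT 0) 1) := ⟨fun P => one_ne_zero (pr_empty P)⟩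
    exact iv_empty h1 ⟨fun x : PUnit × (Σ i : Fin 0, Cn i) => x.2.1.elim0⟩ _
  | succ m ih =>
    rw [psO_succ]
    refine Biv.Iv.comp R ?_ (R.iv_homeo _)
    obtain ⟨g', hg1, hg2⟩ := Biv.Iv.comp R (piU_iv o (OT m)) (Biv.Iv.tens R ih LC.C)
    obtain ⟨h1, h2⟩ := sum_inv (R := R) (K := LC.Pr (Option (OT m)) 1) (Pr.line none)
      ((LC.Pr (Option (OT m)) 1).coll (Pr.line none)) (splitNone R (OT m)).r
      (splitNone R (OT m)).r_coll (splitNone R (OT m)).coll_r
      (collapseFun_of_notMem (fun h => h rfl)) _ g' hg1 hg2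
    exact ⟨_, h1, h2⟩

theorem ps_const (X : LC) (m : ℕ) :
    R.Iv (psD o m (X := X) (fun _ => prOne (OT m)) continuous_const) := by
  obtain ⟨e, he⟩ := psiV_const o (D := LC.Dn m) (fun i : Fin m => DnInc i) X (OT m)
  unfold psD
  rw [he]
  refine Biv.Iv.comp R (R.iv_homeo e) (Biv.Iv.comp R (Biv.Iv.ltens R (psO_iv o m) X) ?_)
  exact R.iv_homeo (K := X.prod (LC.point.prod (LC.Dn m))) (L := X.prod (LC.Dn m)) _

/-- the statement of the induction -/
def QS (R : Biv) (o : Orient R) (S : Type) [Fintype S] : Prop :=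
  ∀ (X : LC) (n : ℕ) (V : X → Pr S n) (hV : Continuous V) (j N : ℕ), N = n + j →
    R.Iv (psD o N (stb V (OT j)) (continuous_stb hV (OT j)))

theorem QS_empty : QS R o PEmpty := by
  intro X n V hV j N hN
  rcases isEmpty_or_nonempty X with hX | ⟨⟨x⟩⟩
  · exact iv_empty ⟨fun y => hX.false (pvin _ _ y).1⟩
      ⟨fun y : X × (Σ i : Fin N, Cn i) => hX.false y.1⟩ _
  · have hn : n = 0 := pr_empty (V x)
    subst hn
    rw [zero_add] at hN
    subst hN
    exact psD_congr o _ continuous_const (stb_empty V (OT N)) (ps_const o X N)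

theorem QS_equiv (S S' : Type) [Fintype S] [Fintype S'] (e : S ≃ S') (h : QS R o S) :
    QS R o S' := by
  intro X n V hV j N hN
  obtain ⟨V', hV', hU⟩ := exists_reindex e V hV
  exact psD_congr o _ (continuous_stb hV' (OT j)) (uequiv_stb hU (OT j)) (h X n V' hV' j N hN)

theorem QS_lt {S : Type} [Fintype S] (h : QS R o S) {X : LC} {n : ℕ} (V : X → Pr (Option S) n)
    (hV : Continuous V) (hl : ∀ x, ((V x).1 none none).re < 1) (j N : ℕ) (hN : N = n + j) :
    R.Iv (psD o N (stb V (OT j)) (continuous_stb hV (OT j))) := by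
  have hw := continuous_wd V hV hl
  have hc := continuous_prOf V _ hw fun x => wd_spec (V x) (hl x)
  exact psD_congr o _ (continuous_stb hc (OT j))
    (uequiv_stb (uequiv_of V _ hw fun x => wd_spec (V x) (hl x)) (OT j)) (h X n _ hc j N hN)

theorem QS_gt {S : Type} [Fintype S] (h : QS R o S) {X : LC} {n : ℕ} (V : X → Pr (Option S) n)
    (hV : Continuous V) (hl : ∀ x, 0 < ((V x).1 none none).re) (j N : ℕ) (hN : N = n + j) :
    R.Iv (psD o N (stb V (OT j)) (continuous_stb hV (OT j))) := by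
  rcases n with _ | n
  · have hX : IsEmpty X := ⟨fun x => by
      have : ((V x).1 none none).re ≤ 0 := by simpa using pr_diag_le (V x) none
      linarith [hl x]⟩
    exact iv_empty ⟨fun y => hX.false (pvin _ _ y).1⟩
      ⟨fun y : X × (Σ i : Fin N, Cn i) => hX.false y.1⟩ _
  · obtain ⟨V', hV', hU⟩ := exists_up V hV hl (OT j)
    exact psD_congr o _ (continuous_stb hV' (OT (j + 1))) hU
      (h X n V' hV' (j + 1) N (by omega))

theorem QS_option (S : Type) [Fintype S] (h : QS R o S) : QS R o (Option S) := by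
  intro X n V hV j N hN
  have hE : Continuous (fun x => ((V x).1 none none).re) :=
    Complex.continuous_re.comp ((continuous_subtype_val.comp hV).matrix_elem none none)
  let u : C(X, ℝ) := ⟨fun x => 3 * ((V x).1 none none).re - 1, by fun_prop⟩
  refine psD_mv o _ _ u ?_ ?_ ?_
  · refine QS_lt o h (fun x => V (vA u x)) (hV.comp (vA_cont u)) (fun x => ?_) j N hN
    have : 3 * ((V (vA u x)).1 none none).re - 1 ≤ 1 := x.2
    linarith
  · refine QS_gt o h (fun x => V (vB u x)) (hV.comp (vB_cont u)) (fun x => ?_) j N hN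
    have : 0 ≤ 3 * ((V (vB u x)).1 none none).re - 1 := x.2
    linarith
  · refine QS_lt o h (fun x => V (vC u x)) (hV.comp (vC_cont u)) (fun x => ?_) j N hN
    have : 3 * ((V (vC u x)).1 none none).re - 1 ≤ 1 := x.2.2
    linarith

theorem QS_all (S : Type) [hS : Fintype S] : QS R o S := by
  refine Fintype.induction_empty_option (P := fun S hS => @QS R o S hS) ?_ ?_ ?_ S
  · intro α β hβ e h
    exact @QS_equiv R o α β (Fintype.ofEquiv β e.symm) hβ e h
  · exact QS_empty o
  · intro α hα h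
    exact QS_option o α h

theorem pbt_aux {X : LC} {S : Type} [Fintype S] {n : ℕ} (V : X → Pr S n) (hV : Continuous V) :
    R.Iv (psD o n V hV) :=
  psD_congr o hV (continuous_stb hV (OT 0)) (uequiv_stb0 V hV (OT 0))
    (QS_all o S X n V hV 0 n rfl)

end PBT62

namespace Orient
variable {R : Biv} (o : Orient R)

/-- the component `Φ_i : P(V) → X × ℂ^i` -/
def Phi {X : LC} {S : Type} [Fintype S] {n : ℕ} (V : X → Pr S n) (hV : Continuous V) (i : ℕ) :
    R.Hom (LC.PV V hV) (X.prod (Cn i)) :=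
  R.comp (o.Epow (PVl V hV) (continuous_PVl V hV) i) (R.tens (R.J (PVπ V hV)) (Cn i))

/-- (PBT) the projective bundle theorem -/
theorem pbt {X : LC} {S : Type} [Fintype S] {n : ℕ} (V : X → Pr S n) (hV : Continuous V) :
    R.Iv (∑ i : Fin n, R.comp (o.Phi V hV i) (R.ltens X (R.J (DnInc i)))) :=
  PBT62.pbt_aux o V hV

/-- (PBT') the components are jointly injective on the covariant side -/
theorem pbt_injective {X : LC} {S : Type} [Fintype S] {n : ℕ} (V : X → Pr S n)
    (hV : Continuous V) {K Z : LC} (x : R.Hom K ((LC.PV V hV).prod Z))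
    (h : ∀ i < n, R.comp x (R.tens (o.Phi V hV i) Z) = 0) : x = 0 := by
  obtain ⟨s, hs, -⟩ := Biv.Iv.tens R (o.pbt V hV) Z
  exact Helper65.Stab.comps_injective R (C := fun i : Fin n => Cn i)
    (fun i : Fin n => o.Phi V hV i) DnInc s hs x (fun i => h i i.2)

include o in
/-- (PBT'') the projection of a projective bundle of positive rank is a split epimorphism -/
theorem pbt_section {X : LC} {S : Type} [Fintype S] {n : ℕ} (V : X → Pr S n)
    (hV : Continuous V) (hn : 0 < n) : ∃ s : R.Hom X (LC.PV V hV),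
      R.comp s (R.J (PVπ V hV)) = R.J (PMap.id X) := by
  obtain ⟨s, -, hs⟩ := o.pbt V hV
  refine Helper65.Stab.comps_section R (C := fun i : Fin n => Cn i)
    (fun i : Fin n => o.Phi V hV i) DnInc (fun _ _ => rfl) s hs ⟨0, hn⟩
    (R.J (PMap.ofHomeo (K := X.prod LC.point) (L := X) (Homeomorph.prodPUnit X)))
    (R.J (PMap.ofHomeo (K := X) (L := X.prod LC.point) (Homeomorph.prodPUnit X).symm)) ?_ _ ?_
  · rw [← R.J_comp]
    exact congrArg R.J (Helper9.Stab.ofHomeo_comp_symm (K := X.prod LC.point) (L := X)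
      (Homeomorph.prodPUnit X))
  · show R.comp (R.comp (R.J (PMap.ofHomeo (K := LC.PV V hV) (L := (LC.PV V hV).prod LC.point)
      (Homeomorph.prodPUnit (LC.PV V hV)).symm)) (R.tens (R.J (PVπ V hV)) LC.point))
      (R.J (PMap.ofHomeo (K := X.prod LC.point) (L := X) (Homeomorph.prodPUnit X))) = _
    rw [R.assoc, R.tens_point, ← R.assoc, ← R.J_comp]
    have h := Helper9.Stab.ofHomeo_comp_symm (K := (LC.PV V hV).prod LC.point) (L := LC.PV V hV)
      (Homeomorph.prodPUnit (LC.PV V hV))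
    rw [h, R.id_comp]

end Orient

end Pool.Agent.Helper1.Stab
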