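import Pool.Agent.Helper1.Stab.Top
import Pool.Agent.Helper9.Stab.Add

/-! Morphisms out of the graded functor of a prespectrum with compact levels. -/

open CategoryTheory Topology Filter Set Opposite

noncomputable section

namespace Pool.Agent.Helper1.Stab

/-- The even levels of `G` are one-point compactifications of test spaces (data). -/
structure Levels (G : Prespectrum) where
  K : ℕ → LC
  test : ∀ n, IsTest (K n)
  e : ∀ n, (G.upp n).sp 0 ≃ₜ OnePoint (K n)
  e_pt : ∀ n, e n ((G.upp n).sp 0).pt = OnePoint.infty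

namespace Levels
variable {G : Prespectrum} (L : Levels G)

/-- the level as a test space -/
def T (n : ℕ) : Test := ⟨L.K n, L.test n⟩

/-- the identification `K n → (G.upp n).sp 0` -/
def inc (n : ℕ) : PMap (L.K n) ((G.upp n).sp 0) where
  toFun k := (L.e n).symm (k : OnePoint (L.K n))
  cont := (L.e n).symm.continuous.comp OnePoint.continuous_coe
  infty := by
    have h := (PMap.id (L.K n)).infty
    have h2 := ((L.e n).symm.continuous.tendsto OnePoint.infty)
    have h3 : (L.e n).symm OnePoint.infty = ((G.upp n).sp 0).pt := by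
      rw [← L.e_pt n, Homeomorph.symm_apply_apply]
    rw [h3] at h2
    exact h2.comp h

/-- the structure map `ℂ × K n → K (n+1)` -/
def step (n : ℕ) : PMap (LC.C.prod (L.K n)) (L.K (n + 1)).plus :=
  PMap.post (Y := (G.upp (n + 1)).sp 0) (Z := (L.K (n + 1)).plus) (L.e (n + 1))
    (L.e (n + 1)).continuous (L.e_pt (n + 1)) ((G.upp n).sigC (L.inc n))

/-- the universal elements -/
def u (n : ℕ) : ((hP.obj G).h n).obj (op (L.T n)) :=
  (hT G).cls (b := n) (j := 0) (K := L.T n)
    (PMap.comp (L.inc n) (PMap.ofHomeo (K := (LC.cpow (Fin 0)).prod (L.K n)) (L := L.K n)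
      { toFun := fun x => x.2
        invFun := fun x => (0, x)
        left_inv := fun x => Prod.ext (Subsingleton.elim _ _) rfl
        right_inv := fun _ => rfl
        continuous_toFun := by fun_prop
        continuous_invFun := by fun_prop }))

/-- the elements `x n ∈ H^n(K n)` are compatible with the structure maps -/
def Compatible (H : GF) (x : ∀ n, (H.h n).obj (op (L.T n))) : Prop :=
  ∀ n, Test.res (H.h (n + 1)) (L.test n).prodC (L.test (n + 1)) (L.step n) (x (n + 1)) =
    (H.σ n).hom.app (op (L.T n)) (x n)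

/-! ### Representatives -/

/-- the homeomorphism `K = ℂ^0 × K` -/
def z0 (K : LC) : K ≃ₜ (LC.cpow (Fin 0)).prod K where
  toFun := fun x => (0, x)
  invFun := fun x => x.2
  left_inv := fun _ => rfl
  right_inv := fun x => Prod.ext (Subsingleton.elim _ _) rfl
  continuous_toFun := by fun_prop
  continuous_invFun := by fun_prop

/-- a representative of stage `0` as a map to the level -/
def base (b : ℕ) {K : LC} (f : (G.upp b).Rep 0 K) : PMap K (L.K b).plus :=
  PMap.post (Y := (G.upp b).sp 0) (Z := (L.K b).plus) (L.e b) (L.e b).continuous (L.e_pt b)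
    (PMap.comp (K := K) (L := (LC.cpow (Fin 0)).prod K) (Y := (G.upp b).sp 0) f
      (PMap.ofHomeo (z0 K)))

theorem base_apply (b : ℕ) {K : LC} (f : (G.upp b).Rep 0 K) (k : K) :
    L.base b f k = L.e b (f (0, k)) := rfl

/-- the universal representative -/
def uRep (n : ℕ) : (G.upp n).Rep 0 (L.K n) :=
  PMap.comp (Y := (G.upp n).sp 0) (L.inc n) (PMap.ofHomeo (z0 (L.K n)).symm)

theorem u_eq (n : ℕ) : L.u n = (hT G).cls (b := n) (j := 0) (K := L.T n) (L.uRep n) := rfl

theorem uRep_apply (n : ℕ) (v : Fin 0 → ℂ) (k : L.K n) :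
    L.uRep n (v, k) = (L.e n).symm (k : OnePoint (L.K n)) := rfl

theorem base_uRep (n : ℕ) : L.base n (L.uRep n) = PMap.id (L.K n) := by
  ext k
  rw [base_apply, uRep_apply, Homeomorph.apply_symm_apply]
  rfl

theorem rep_eq (b : ℕ) {K : LC} (f : (G.upp b).Rep 0 K) :
    f = PMap.comp (Y := (G.upp b).sp 0) (L.uRep b)
      (PMap.ltens (LC.cpow (Fin 0)) (L.base b f)) := by
  ext ⟨v, k⟩
  have hv : v = 0 := Subsingleton.elim _ _
  subst hv
  change f (0, k) = (L.uRep b).plus (smashPt (LC.cpow (Fin 0)) (L.K b)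
    (((0 : Fin 0 → ℂ) : OnePoint (Fin 0 → ℂ)), L.base b f k))
  have h := L.base_apply b f k
  have h2 : f (0, k) = (L.e b).symm (L.base b f k) := by
    rw [h, Homeomorph.symm_apply_apply]
  rcases h3 : L.base b f k with _ | l
  · rw [h2, h3]
    change (L.e b).symm OnePoint.infty = ((G.upp b).sp 0).pt
    rw [← L.e_pt b, Homeomorph.symm_apply_apply]
  · rw [h2, h3]
    rfl

theorem cls_rep0 (b : ℕ) {K : Test} (f : (G.upp b).Rep 0 K.obj) :
    (hT G).cls f = pbT ((hT G).H.h b) (K := K) (L := L.T b) (L.base b f) (L.u b) := by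
  have h := (hT G).map_cls (b := b) (j := 0) (K := K) (L := L.T b) (L.base b f) (L.uRep b)
  have h2 := L.rep_eq b f
  rw [u_eq]
  refine Eq.trans ?_ h.symm
  exact congrArg (fun g => (hT G).cls (b := b) (j := 0) (K := K) g) h2

/-- `ℂ^j × (ℂ × K) = ℂ^(j+1) × K` -/
def shH (j : ℕ) (K : LC) :
    (LC.cpow (Fin j)).prod (LC.C.prod K) ≃ₜ (LC.cpow (Fin (j + 1))).prod K where
  toFun := fun x => (fun i => Fin.lastCases (motive := fun _ => ℂ) x.2.1 x.1 i, x.2.2)
  invFun := fun x => (fun i => x.1 i.castSucc, (x.1 (Fin.last j), x.2))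
  left_inv := by
    rintro ⟨v, z, k⟩
    simp
  right_inv := by
    rintro ⟨v, k⟩
    refine Prod.ext (funext fun i => ?_) rfl
    refine Fin.lastCases ?_ (fun i => ?_) i <;> simp
  continuous_toFun := by
    refine Continuous.prodMk (continuous_pi fun i => ?_) (by fun_prop)
    refine Fin.lastCases ?_ (fun i => ?_) i
    · simp only [Fin.lastCases_last]; fun_prop
    · simp only [Fin.lastCases_castSucc]; fun_prop
  continuous_invFun := by fun_prop

/-- the suspension isomorphism on representatives -/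
def sh {b j : ℕ} {K : LC} (f : (G.upp b).Rep (j + 1) K) :
    (G.upp (b + 1)).Rep j (LC.C.prod K) :=
  PMap.comp (Y := (G.upp b).sp (2 * (j + 1))) f (PMap.ofHomeo (shH j K))

theorem sh_apply {b j : ℕ} {K : LC} (f : (G.upp b).Rep (j + 1) K) (v : Fin j → ℂ) (z : ℂ)
    (k : K) : sh f (v, (z, k)) = f (fun i => Fin.lastCases (motive := fun _ => ℂ) z v i, k) := rfl

theorem sig_cls {b j : ℕ} {K : Test} (f : (G.upp b).Rep (j + 1) K.obj) :
    (((hT G).H.σ b).hom.app (op K)) ((hT G).cls f) =
      (hT G).cls (b := b + 1) (j := j) (K := Test.cx.obj K) (sh f) :=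
  (hT G).σ_cls f

/-- the iterated structure map -/
def nxt {b j : ℕ} {K : LC} (f : (G.upp b).Rep j K) (n : ℕ) : (G.upp b).Rep (j + n) K :=
  Nat.rec (motive := fun n => (G.upp b).Rep (j + n) K) f (fun _ r => r.next) n

theorem nxt_zero {b j : ℕ} {K : LC} (f : (G.upp b).Rep j K) : nxt f 0 = f := rfl

theorem nxt_succ {b j : ℕ} {K : LC} (f : (G.upp b).Rep j K) (n : ℕ) :
    nxt f (n + 1) = (nxt f n).next := rfl

theorem cls_nxt {b j : ℕ} {K : Test} (f : (G.upp b).Rep j K.obj) (n : ℕ) :
    (hT G).cls (nxt f n) = (hT G).cls f := by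
  induction n with
  | zero => rfl
  | succ n ih => rw [nxt_succ, ← ih]; exact (hT G).cls_next (nxt f n)

theorem sigC_pt (Y : Prespectrum) {n : ℕ} {K : LC} (f : PMap K (Y.sp n)) (z : ℂ) (k : K)
    (h : f k = (Y.sp n).pt) : Y.sigC f (z, k) = (Y.sp (n + 2)).pt := by
  change Y.str (n + 1) (_, Y.str n (_, f k)) = _
  rw [h, Y.str_pt, Y.str_pt]

theorem sh_next {b j : ℕ} {K : LC} (f : (G.upp b).Rep (j + 1) K) :
    sh f.next = (sh f).next := by
  ext ⟨v, z, k⟩
  rw [sh_apply]
  change (G.upp b).sigC f (Fin.lastCases (motive := fun _ => ℂ) z v 0,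
      (fun i : Fin (j + 1) => Fin.lastCases (motive := fun _ => ℂ) z v i.succ, k)) =
    (G.upp (b + 1)).sigC (sh f) (v 0, (fun i => v i.succ, (z, k)))
  have h0 : Fin.lastCases (motive := fun _ => ℂ) z v (0 : Fin (j + 2)) = v 0 := by
    rw [show (0 : Fin (j + 2)) = (0 : Fin (j + 1)).castSucc from rfl, Fin.lastCases_castSucc]
  have h1 : (fun i : Fin (j + 1) => Fin.lastCases (motive := fun _ => ℂ) z v i.succ) =
      fun i => Fin.lastCases (motive := fun _ => ℂ) z (fun i : Fin j => v i.succ) i := by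
    funext i
    refine Fin.lastCases ?_ (fun i => ?_) i
    · rw [Fin.succ_last, Fin.lastCases_last, Fin.lastCases_last]
    · rw [Fin.succ_castSucc, Fin.lastCases_castSucc, Fin.lastCases_castSucc]
  rw [h0, h1]
  rfl

theorem base_sh_next {b : ℕ} {K : LC} (f : (G.upp b).Rep 0 K) :
    L.base (b + 1) (sh f.next) = (L.step b).comp (PMap.ltens LC.C (L.base b f)) := by
  ext ⟨z, k⟩
  have e1 : L.base (b + 1) (sh f.next) (z, k) =
      L.e (b + 1) ((G.upp b).sigC f (z, (fun i : Fin 0 => i.elim0, k))) := by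
    rw [base_apply, sh_apply]
    congr 1
  rw [e1]
  have hv : (fun i : Fin 0 => i.elim0 : Fin 0 → ℂ) = 0 := Subsingleton.elim _ _
  rw [hv]
  change _ = (L.step b).plus (smashPt LC.C (L.K b) ((z : OnePoint ℂ), L.base b f k))
  have h2 : f (0, k) = (L.e b).symm (L.base b f k) := by
    rw [base_apply, Homeomorph.symm_apply_apply]
  rcases h3 : L.base b f k with _ | l
  · have h4 : f (0, k) = ((G.upp b).sp (2 * 0)).pt := by
      rw [h2, h3]
      change (L.e b).symm OnePoint.infty = ((G.upp b).sp 0).pt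
      rw [← L.e_pt b, Homeomorph.symm_apply_apply]
    rw [sigC_pt (G.upp b) f z (0, k) h4]
    exact L.e_pt (b + 1)
  · have h4 : f (0, k) = L.inc b l := by
      rw [h2, h3]
      rfl
    change L.e (b + 1) ((G.upp b).str _ (_, (G.upp b).str _ (_, f (0, k)))) =
      L.e (b + 1) ((G.upp b).str _ (_, (G.upp b).str _ (_, L.inc b l)))
    rw [h4]

theorem compatible_u : L.Compatible (hP.obj G) L.u := by
  intro n
  have h1 : L.base (n + 1) (sh (L.uRep n).next) = L.step n := by
    rw [base_sh_next, base_uRep]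
    exact (congrArg (L.step n).comp (PMap.box_id LC.C (L.K n))).trans (PMap.comp_id _)
  have h2 := L.cls_rep0 (n + 1) (K := Test.cx.obj (L.T n)) (sh (L.uRep n).next)
  replace h2 := h2.trans (congrArg (fun g : PMap _ _ => pbT ((hT G).H.h (n + 1))
    (K := Test.cx.obj (L.T n)) (L := L.T (n + 1)) g (L.u (n + 1))) h1)
  have h3 := sig_cls (K := L.T n) (L.uRep n).next
  have h4 : (hT G).cls (L.uRep n).next = L.u n := (hT G).cls_next (K := L.T n) (L.uRep n)
  rw [h4] at h3
  exact (h3.trans h2).symm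

/-! ### The value of a morphism on a representative -/

/-- the value on a representative -/
def val (H : GF) (x : ∀ n, (H.h n).obj (op (L.T n))) :
    ∀ (j b : ℕ) (K : Test), (G.upp b).Rep j K.obj → ((H.h b).obj (op K) : Type)
  | 0, b, K, f => pbT (H.h b) (K := K) (L := L.T b) (L.base b f) (x b)
  | j + 1, b, K, f => sigInv H b K (val H x j (b + 1) (Test.cx.obj K) (sh f))

section
variable (H : GF) (x : ∀ n, (H.h n).obj (op (L.T n)))

theorem val_homotopic : ∀ (j b : ℕ) (K : Test) (f g : (G.upp b).Rep j K.obj),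
    PMap.Homotopic f g → L.val H x j b K f = L.val H x j b K g
  | 0, b, K, f, g, h => by
    have h1 : (L.base b f).Homotopic (L.base b g) := by
      obtain ⟨F, h0, h1⟩ := h
      refine ⟨PMap.post (Y := (G.upp b).sp 0) (Z := (L.K b).plus) (L.e b) (L.e b).continuous
        (L.e_pt b) (PMap.comp (Y := (G.upp b).sp 0) F
          (PMap.ltens LC.I (PMap.ofHomeo (z0 K.obj)))), fun k => ?_, fun k => ?_⟩
      · exact congrArg (L.e b) (h0 (0, k))
      · exact congrArg (L.e b) (h1 (0, k))
    exact congrFun (pbT_homotopic (H.h b) (K := K) (L := L.T b) h1) (x b)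
  | j + 1, b, K, f, g, h => by
    have h1 : (sh f).Homotopic (sh g) := h.comp_left _
    exact congrArg (sigInv H b K)
      (val_homotopic j (b + 1) (Test.cx.obj K) (sh f) (sh g) h1)

theorem val_comp : ∀ (j b : ℕ) (K M : Test) (ψ : PMap K.obj M.obj.plus)
    (f : (G.upp b).Rep j M.obj),
    L.val H x j b K (PMap.comp f (PMap.ltens (LC.cpow (Fin j)) ψ)) =
      pbT (H.h b) ψ (L.val H x j b M f)
  | 0, b, K, M, ψ, f => by
    have h1 : L.base b (K := K.obj) (PMap.comp f (PMap.ltens (LC.cpow (Fin 0)) ψ)) =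
        (L.base b f).comp ψ := by
      ext k
      rw [base_apply]
      change L.e b (PMap.plus f (smashPt (LC.cpow (Fin 0)) M.obj
        (((0 : Fin 0 → ℂ) : OnePoint (Fin 0 → ℂ)), ψ k))) = (L.base b f).plus (ψ k)
      rcases ψ k with _ | m
      · exact L.e_pt b
      · rfl
    change pbT (H.h b) (K := K) (L := L.T b) (L.base b (K := K.obj) (PMap.comp f (PMap.ltens (LC.cpow (Fin 0)) ψ))) (x b)
      = pbT (H.h b) ψ (pbT (H.h b) (K := M) (L := L.T b) (L.base b f) (x b))
    rw [h1]
    exact pbT_comp (H.h b) (K := K) (L := M) (M := L.T b) (L.base b f) ψ (x b)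
  | j + 1, b, K, M, ψ, f => by
    have h1 : sh (K := K.obj) (PMap.comp f (PMap.ltens (LC.cpow (Fin (j + 1))) ψ)) =
        PMap.comp (sh f) (PMap.ltens (LC.cpow (Fin j)) (PMap.ltens LC.C ψ)) := by
      ext ⟨v, z, k⟩
      rw [sh_apply]
      change PMap.plus f (smashPt (LC.cpow (Fin (j + 1))) M.obj
        (((fun i => Fin.lastCases (motive := fun _ => ℂ) z v i : Fin (j + 1) → ℂ) :
          OnePoint (Fin (j + 1) → ℂ)), ψ k)) =
        PMap.plus (sh f) (smashPt (LC.cpow (Fin j)) (LC.C.prod M.obj)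
          (((v : Fin j → ℂ) : OnePoint (Fin j → ℂ)), smashPt LC.C M.obj
            ((z : OnePoint ℂ), ψ k)))
      rcases ψ k with _ | m
      · rfl
      · rfl
    have h2 := val_comp j (b + 1) (Test.cx.obj K) (Test.cx.obj M) (PMap.ltens LC.C ψ) (sh f)
    change sigInv H b K (L.val H x j (b + 1) (Test.cx.obj K) (sh (K := K.obj)
      (PMap.comp f (PMap.ltens (LC.cpow (Fin (j + 1))) ψ)))) =
      pbT (H.h b) ψ (sigInv H b M (L.val H x j (b + 1) (Test.cx.obj M) (sh f)))
    rw [← sigInv_pbT, h1]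
    exact congrArg (sigInv H b K) h2

theorem val_next (hx : L.Compatible H x) : ∀ (j b : ℕ) (K : Test) (f : (G.upp b).Rep j K.obj),
    L.val H x (j + 1) b K f.next = L.val H x j b K f
  | 0, b, K, f => by
    change sigInv H b K (pbT (H.h (b + 1)) (K := Test.cx.obj K) (L := L.T (b + 1))
      (L.base (b + 1) (sh f.next)) (x (b + 1))) =
      pbT (H.h b) (K := K) (L := L.T b) (L.base b f) (x b)
    have h0 := congrArg (fun g : PMap _ _ => pbT (H.h (b + 1)) (K := Test.cx.obj K)
      (L := L.T (b + 1)) g (x (b + 1))) (L.base_sh_next f)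
    have h1 := pbT_comp (H.h (b + 1)) (K := Test.cx.obj K) (L := Test.cx.obj (L.T b))
      (M := L.T (b + 1)) (L.step b) (PMap.ltens LC.C (L.base b f)) (x (b + 1))
    have h2 : pbT (H.h (b + 1)) (K := Test.cx.obj (L.T b)) (L := L.T (b + 1)) (L.step b)
        (x (b + 1)) = (H.σ b).hom.app (op (L.T b)) (x b) := hx b
    rw [h2] at h1
    have h3 := sig_pbT H b (K := K) (L := L.T b) (L.base b f) (x b)
    have h4 := h0.trans (h1.trans h3.symm)
    exact (congrArg (sigInv H b K) h4).trans (sigInv_sig H b K _)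
  | j + 1, b, K, f => by
    change sigInv H b K (L.val H x (j + 1) (b + 1) (Test.cx.obj K) (sh f.next)) =
      sigInv H b K (L.val H x j (b + 1) (Test.cx.obj K) (sh f))
    rw [sh_next]
    exact congrArg (sigInv H b K) (val_next hx j (b + 1) (Test.cx.obj K) (sh f))

theorem val_nxt (hx : L.Compatible H x) {b j : ℕ} {K : Test} (f : (G.upp b).Rep j K.obj) (n : ℕ) :
    L.val H x (j + n) b K (nxt f n) = L.val H x j b K f := by
  induction n with
  | zero => rfl
  | succ n ih => rw [← ih]; exact L.val_next H x hx (j + n) b K (nxt f n)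

theorem val_wd_le (hx : L.Compatible H x) {b j d : ℕ} {K : Test} (f : (G.upp b).Rep j K.obj)
    (g : (G.upp b).Rep (j + d) K.obj) (h : (hT G).cls f = (hT G).cls g) :
    L.val H x j b K f = L.val H x (j + d) b K g := by
  have h1 : (hT G).cls (nxt f d) = (hT G).cls g := (cls_nxt f d).trans h
  obtain ⟨n, hn⟩ := (hT G).cls_eq h1
  have h2 := L.val_homotopic H x (j + d + n) b K (nxt (nxt f d) n) (nxt g n) hn
  rw [L.val_nxt H x hx, L.val_nxt H x hx, L.val_nxt H x hx] at h2
  exact h2

theorem val_wd (hx : L.Compatible H x) {b j j' : ℕ} {K : Test} (f : (G.upp b).Rep j K.obj)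
    (g : (G.upp b).Rep j' K.obj) (h : (hT G).cls f = (hT G).cls g) :
    L.val H x j b K f = L.val H x j' b K g := by
  rcases le_total j j' with hj | hj
  · obtain ⟨d, rfl⟩ := Nat.exists_eq_add_of_le hj
    exact L.val_wd_le H x hx f g h
  · obtain ⟨d, rfl⟩ := Nat.exists_eq_add_of_le hj
    exact (L.val_wd_le H x hx g f h.symm).symm

/-- the value on a class -/
def fv (b : ℕ) (K : Test) (y : ((hT G).H.h b).obj (op K)) : ((H.h b).obj (op K) : Type) :=
  L.val H x _ b K ((hT G).cls_surj y 0).choose_spec.2.choose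

theorem fv_cls (hx : L.Compatible H x) {b j : ℕ} {K : Test} (f : (G.upp b).Rep j K.obj) :
    L.fv H x b K ((hT G).cls f) = L.val H x j b K f :=
  L.val_wd H x hx _ _ ((hT G).cls_surj ((hT G).cls f) 0).choose_spec.2.choose_spec.symm

theorem fv_nat (hx : L.Compatible H x) (b : ℕ) (K M : Test) (ψ : PMap K.obj M.obj.plus)
    (y : ((hT G).H.h b).obj (op M)) :
    L.fv H x b K (pbT ((hT G).H.h b) ψ y) = pbT (H.h b) ψ (L.fv H x b M y) := by
  obtain ⟨j, -, f, rfl⟩ := (hT G).cls_surj y 0
  have h := (hT G).map_cls (b := b) (j := j) (K := K) (L := M) ψ f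
  rw [L.fv_cls H x hx f, ← L.val_comp H x j b K M ψ f, ← L.fv_cls H x hx]
  exact congrArg (L.fv H x b K) h

theorem fv_sig (hx : L.Compatible H x) (b : ℕ) (K : Test) (y : ((hT G).H.h b).obj (op K)) :
    L.fv H x (b + 1) (Test.cx.obj K) (((hT G).H.σ b).hom.app (op K) y) =
      (H.σ b).hom.app (op K) (L.fv H x b K y) := by
  obtain ⟨j, hj, f, rfl⟩ := (hT G).cls_surj y 1
  obtain ⟨j, rfl⟩ : ∃ i, j = i + 1 := ⟨j - 1, by omega⟩
  have h1 := sig_cls f
  rw [h1, L.fv_cls H x hx f]
  have h2 := L.fv_cls H x hx (b := b + 1) (j := j) (K := Test.cx.obj K) (sh f)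
  rw [h2]
  change _ = (H.σ b).hom.app (op K)
    (sigInv H b K (L.val H x j (b + 1) (Test.cx.obj K) (sh f)))
  rw [sig_sigInv]

theorem fv_u (hx : L.Compatible H x) (n : ℕ) : L.fv H x n (L.T n) (L.u n) = x n := by
  rw [u_eq, L.fv_cls H x hx]
  have h0 := congrArg (fun g : PMap _ _ => pbT (H.h n) (K := L.T n) (L := L.T n) g (x n))
    (L.base_uRep n)
  exact h0.trans (pbT_id (H.h n) (L.T n) (x n))

end

end Levels

/-- the graded functor of a prespectrum vanishes on the empty space -/
theorem hP_red (G : Prespectrum) : (hP.obj G).Red := by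
  intro b K hK hE y
  have key : ∀ y z : ((hT G).H.h b).obj (op ⟨K, hK⟩), y = z := by
    intro y z
    obtain ⟨j, -, f, rfl⟩ := (hT G).cls_surj y 0
    obtain ⟨j', hj, g, rfl⟩ := (hT G).cls_surj z j
    obtain ⟨d, rfl⟩ := Nat.exists_eq_add_of_le hj
    rw [← Levels.cls_nxt f d]
    congr 1
    ext ⟨v, k⟩
    exact (hE.false k).elim
  exact key y 0

theorem hP_exact (G : Prespectrum) : (hP.obj G).Exact := (hT G).exact

namespace Levels
variable {G : Prespectrum} (L : Levels G)

/-- Morphisms out of `hP G` are the compatible families. -/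
theorem yoneda (H : GF) (hH : H.Exact) (hH0 : H.Red) (x : ∀ n, (H.h n).obj (op (L.T n)))
    (hx : L.Compatible H x) :
    ∃ F : hP.obj G ⟶ H, ∀ n, (F.app n).app (op (L.T n)) (L.u n) = x n := by
  have add := add_of_nat (G := hP.obj G) (H := H) (hP_red G) hH hH0
    (fun b K => L.fv H x b K) (L.fv_nat H x hx) (L.fv_sig H x hx)
  let app : ∀ b, (hP.obj G).h b ⟶ H.h b := fun b =>
    { app := fun K => AddCommGrpCat.ofHom
        { toFun := L.fv H x b K.unop
          map_zero' := by
            have h := add b K.unop 0 0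
            rw [add_zero] at h
            exact (left_eq_add.1 h)
          map_add' := add b K.unop }
      naturality := by
        intro K M f
        ext y
        obtain ⟨φ, hφ⟩ : ∃ φ : PMap M.unop.obj K.unop.obj.plus, f = (tmk φ).op := by
          obtain ⟨f'⟩ := f
          obtain ⟨f'⟩ := f'
          revert f'
          refine HMap.ind fun φ => ?_
          exact ⟨φ, rfl⟩
        subst hφ
        exact L.fv_nat H x hx b M.unop K.unop φ y }
  refine ⟨GF.Hom.mk' app fun b K => ?_, fun n => L.fv_u H x hx n⟩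
  ext y
  exact L.fv_sig H x hx b K.unop y

/-- Morphisms `hP G ⟶ hP Y` are the compatible families. -/
theorem yoneda_hP (Y : Prespectrum) (x : ∀ n, ((hP.obj Y).h n).obj (op (L.T n)))
    (hx : L.Compatible (hP.obj Y) x) :
    ∃ F : hP.obj G ⟶ hP.obj Y, ∀ n, (F.app n).app (op (L.T n)) (L.u n) = x n :=
  L.yoneda (hP.obj Y) (hP_exact Y) (hP_red Y) x hx

/-- Two morphisms out of `hP G` that agree on the universal elements are equal. -/
theorem hom_ext (H : GF) {F F' : hP.obj G ⟶ H}
    (h : ∀ n, (F.app n).app (op (L.T n)) (L.u n) = (F'.app n).app (op (L.T n)) (L.u n)) :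
    F = F' := by
  have key : ∀ (j b : ℕ) (K : Test) (f : (G.upp b).Rep j K.obj),
      (F.app b).app (op K) ((hT G).cls f) = (F'.app b).app (op K) ((hT G).cls f) := by
    intro j
    induction j with
    | zero =>
      intro b K f
      rw [L.cls_rep0 b f]
      have h1 := app_pbT F b (K := K) (L := L.T b) (L.base b f) (L.u b)
      have h2 := app_pbT F' b (K := K) (L := L.T b) (L.base b f) (L.u b)
      refine h1.trans (Eq.trans ?_ h2.symm)
      rw [h b]
    | succ j ih =>
      intro b K f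
      apply sig_inj H b K
      have h1 := app_sig F b K ((hT G).cls f)
      have h2 := app_sig F' b K ((hT G).cls f)
      refine h1.symm.trans (Eq.trans ?_ h2)
      have h3 := sig_cls f
      have h4 := ih (b + 1) (Test.cx.obj K) (sh f)
      exact (congrArg ((F.app (b + 1)).app (op (Test.cx.obj K))) h3).trans
        (h4.trans (congrArg ((F'.app (b + 1)).app (op (Test.cx.obj K))) h3).symm)
  refine GF.hom_ext fun b => ?_
  ext K y
  obtain ⟨j, -, f, rfl⟩ := (hT G).cls_surj (b := b) (K := K.unop) y 0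
  exact key j b K.unop f

end Levels

end Pool.Agent.Helper1.Stab
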